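import Mathlib

/-!
Definitions for MP_0ccc25_pr (diameter of random Cayley graphs of finite Abelian groups).
All index sets are finite; probabilities are counting ratios.
-/

namespace DiamAb

open Finset

noncomputable section

/-- value of the word `w` at the generators `z` -/
def dot {G : Type} [AddCommGroup G] {k : ℕ} (w : Fin k → ℤ) (z : Fin k → G) : G :=
  ∑ i, w i • z i

/-- length of a word -/
def nrm {k : ℕ} (w : Fin k → ℤ) : ℕ := ∑ i, (w i).natAbs

/-- the point `x` is the value of a word of length at most `R` -/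
def Reach {G : Type} [AddCommGroup G] {k : ℕ} (z : Fin k → G) (R : ℕ) (x : G) : Prop :=
  ∃ w : Fin k → ℤ, dot w z = x ∧ nrm w ≤ R

/-- every point is the value of a word of length at most `R` -/
def Cov {G : Type} [AddCommGroup G] {k : ℕ} (z : Fin k → G) (R : ℕ) : Prop := ∀ x, Reach z R x

/-- the smallest possible covering radius over all choices of `k` generators -/
def Dm (k : ℕ) (G : Type) [AddCommGroup G] : ℕ := sInf {R | ∃ z : Fin k → G, Cov z R}

open Classical in
/-- counting probability on a finite type -/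
def pr {Ω : Type} [Fintype Ω] (P : Ω → Prop) : ℝ :=
  ((univ.filter P).card : ℝ) / Fintype.card Ω

/-- average of a real function on a finite type -/
def av {Ω : Type} [Fintype Ω] (f : Ω → ℝ) : ℝ := (∑ ω, f ω) / Fintype.card Ω

/-- density of the set of points not reached by words of length at most `R` -/
def unc {G : Type} [AddCommGroup G] [Fintype G] {k : ℕ} (z : Fin k → G) (R : ℕ) : ℝ :=
  pr (fun x : G => ¬ Reach z R x)

open Classical in
/-- number of `x` with `g • x = 0`, which is also the order of `G / gG`; it is `|G|` for `g = 0` -/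
def NN (G : Type) [AddCommGroup G] [Fintype G] (g : ℕ) : ℕ :=
  (univ.filter fun x : G => g • x = 0).card

/-- the normalised logarithm of `NN` -/
def hh (G : Type) [AddCommGroup G] [Fintype G] (k : ℕ) (g : ℕ) : ℝ := Real.log (NN G g) / k

/-- the box `[-B, B)` -/
def bx (B : ℕ) : Finset ℤ := Finset.Ico (-(B : ℤ)) B

/-- a probability law on the integers, supported in the box `[-B, B)` -/
structure IsLaw (μ : ℤ → ℝ) (B : ℕ) : Prop where
  nonneg : ∀ v, 0 ≤ μ v
  supp : ∀ v, v ∉ bx B → μ v = 0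
  sum : ∑ v ∈ bx B, μ v = 1

/-- a positive test law modulo `g`, written as a periodic function
(for `g = 0` a positive function on the integers with all finite sums at most one) -/
structure IsQ (g : ℕ) (q : ℤ → ℝ) : Prop where
  pos : ∀ v, 0 < q v
  per : ∀ v, q (v % (g : ℤ)) = q v
  sum : ∀ s : Finset ℤ, (∀ a ∈ s, a % (g : ℤ) = a) → ∑ a ∈ s, q a ≤ 1

/-- cross entropy lower bounds modulo all `g` -/
def HP (μ : ℤ → ℝ) (B : ℕ) (h : ℕ → ℝ) : Prop :=
  ∀ (g : ℕ) (q : ℤ → ℝ), IsQ g q → h g ≤ ∑ v ∈ bx B, μ v * (-Real.log (q v))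

/-- residue law of `μ` modulo `g`, as a periodic function (for `g = 0` it is `μ` on the box) -/
def rs (μ : ℤ → ℝ) (B g : ℕ) (v : ℤ) : ℝ := ∑ u ∈ (bx B).filter (fun u => (g : ℤ) ∣ u - v), μ u

/-- entropy of the residue modulo `g` -/
def Hg (μ : ℤ → ℝ) (B g : ℕ) : ℝ := ∑ v ∈ bx B, μ v * (-Real.log (rs μ B g v))

/-- mean absolute value -/
def Ab (μ : ℤ → ℝ) (B : ℕ) : ℝ := ∑ v ∈ bx B, μ v * |(v : ℝ)|

/-- the uniform law on the box `[-L, L)` -/
def nu (L : ℕ) (v : ℤ) : ℝ := if v ∈ bx L then 1 / (2 * L : ℝ) else 0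

/-- a good coordinate law: uniform modulo `M`, with entropy gain `c` modulo every `g` in `N`
and for `g = 0`, and with bounded range of the logarithms -/
structure Good (h : ℕ → ℝ) (M : ℕ) (N : Set ℕ) (c Cb : ℝ) (μ : ℤ → ℝ) (L : ℕ) : Prop where
  law : IsLaw μ L
  posi : ∀ v ∈ bx L, 0 < μ v
  unif : ∀ v, rs μ L M v = 1 / M
  ent : ∀ g, (g = 0 ∨ g ∈ N) → g ≤ 2 * L → h g + c ≤ Hg μ L g
  rng : ∀ g, (g = 0 ∨ g ∈ N) → g ≤ 2 * L → ∃ a : ℝ, ∀ v ∈ bx L,
    a ≤ -Real.log (rs μ L g v) ∧ -Real.log (rs μ L g v) ≤ a + Cb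

/-- words with all letters in `[-L, L)` -/
def wd (k L : ℕ) : Finset (Fin k → ℤ) := Fintype.piFinset fun _ => bx L

/-- product weight of a word -/
def pw (μ : ℤ → ℝ) {k : ℕ} (w : Fin k → ℤ) : ℝ := ∏ i, μ (w i)

/-- the characteristic sum of a weighted finite family of words, at the generators `z` -/
def phi {G : Type} [AddCommGroup G] {k : ℕ} {ι : Type} (z : Fin k → G) (J : Finset ι)
    (p : ι → ℝ) (W : ι → Fin k → ℤ) (χ : AddChar G ℂ) : ℂ :=
  ∑ j ∈ J, (p j : ℂ) * χ (dot (W j) z)

/-- the trigonometric point `exp (2 pi i x)` -/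
def e1 (x : ℝ) : ℂ := Complex.exp (2 * Real.pi * Complex.I * x)

end

end DiamAb
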