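import Mathlib
import Pool.Agent.Lib_MP_0ccc25_pr.Defs

/-!
Basic facts on words, probabilities, averages, and residue laws.
-/

namespace DiamAb

open Finset

noncomputable section

section words

variable {G : Type} [AddCommGroup G] {k : ℕ}

theorem dot_add (w w' : Fin k → ℤ) (z : Fin k → G) : dot (w + w') z = dot w z + dot w' z := by
  simp [dot, add_smul, sum_add_distrib]

theorem dot_neg (w : Fin k → ℤ) (z : Fin k → G) : dot (-w) z = -dot w z := by
  simp [dot]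

theorem dot_sub (w w' : Fin k → ℤ) (z : Fin k → G) : dot (w - w') z = dot w z - dot w' z := by
  rw [sub_eq_add_neg, dot_add, dot_neg, sub_eq_add_neg]

theorem dot_zero (z : Fin k → G) : dot (0 : Fin k → ℤ) z = 0 := by simp [dot]

theorem dot_smul (n : ℤ) (w : Fin k → ℤ) (z : Fin k → G) : dot (n • w) z = n • dot w z := by
  simp [dot, smul_sum, mul_smul]

theorem nrm_zero : nrm (0 : Fin k → ℤ) = 0 := by simp [nrm]

theorem nrm_neg (w : Fin k → ℤ) : nrm (-w) = nrm w := by simp [nrm]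

theorem nrm_add_le (w w' : Fin k → ℤ) : nrm (w + w') ≤ nrm w + nrm w' := by
  unfold nrm
  rw [← sum_add_distrib]
  exact sum_le_sum fun i _ => Int.natAbs_add_le _ _

theorem nrm_cast (w : Fin k → ℤ) : (nrm w : ℝ) = ∑ i, |(w i : ℝ)| := by
  unfold nrm
  push_cast
  refine sum_congr rfl fun i _ => ?_
  rw [Nat.cast_natAbs]
  push_cast
  rfl

theorem Reach.mono {z : Fin k → G} {R R' : ℕ} {x : G} (h : Reach z R x) (hR : R ≤ R') :
    Reach z R' x := by
  obtain ⟨w, h1, h2⟩ := h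
  exact ⟨w, h1, h2.trans hR⟩

theorem Reach.add {z : Fin k → G} {R R' : ℕ} {x y : G} (h : Reach z R x) (h' : Reach z R' y) :
    Reach z (R + R') (x + y) := by
  obtain ⟨w, h1, h2⟩ := h
  obtain ⟨w', h1', h2'⟩ := h'
  exact ⟨w + w', by rw [dot_add, h1, h1'], (nrm_add_le w w').trans (add_le_add h2 h2')⟩

theorem Reach.neg {z : Fin k → G} {R : ℕ} {x : G} (h : Reach z R x) : Reach z R (-x) := by
  obtain ⟨w, h1, h2⟩ := h
  exact ⟨-w, by rw [dot_neg, h1], by rw [nrm_neg]; exact h2⟩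

theorem Reach.zero (z : Fin k → G) (R : ℕ) : Reach z R (0 : G) :=
  ⟨0, dot_zero z, by rw [nrm_zero]; exact Nat.zero_le R⟩

theorem Cov.mono {z : Fin k → G} {R R' : ℕ} (h : Cov z R) (hR : R ≤ R') : Cov z R' :=
  fun x => (h x).mono hR

theorem dot_snoc (w : Fin k → ℤ) (a : ℤ) (z : Fin k → G) (g : G) :
    dot (Fin.snoc w a : Fin (k + 1) → ℤ) (Fin.snoc z g : Fin (k + 1) → G) = dot w z + a • g := by
  simp [dot, Fin.sum_univ_castSucc]

theorem nrm_snoc (w : Fin k → ℤ) (a : ℤ) :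
    nrm (Fin.snoc w a : Fin (k + 1) → ℤ) = nrm w + a.natAbs := by
  simp [nrm, Fin.sum_univ_castSucc]

end words

section prob

variable {Ω : Type} [Fintype Ω]

theorem pr_def (P : Ω → Prop) [DecidablePred P] :
    pr P = ((univ.filter P).card : ℝ) / Fintype.card Ω := by
  unfold pr
  congr!

theorem pr_nonneg (P : Ω → Prop) : 0 ≤ pr P := by unfold pr; positivity

theorem pr_le_one (P : Ω → Prop) : pr P ≤ 1 := by
  classical
  unfold pr
  rcases Nat.eq_zero_or_pos (Fintype.card Ω) with h | h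
  · rw [h]; simp
  · rw [div_le_one (by exact_mod_cast h)]
    exact_mod_cast card_le_univ _

theorem pr_mono {P Q : Ω → Prop} (h : ∀ ω, P ω → Q ω) : pr P ≤ pr Q := by
  classical
  unfold pr
  apply div_le_div_of_nonneg_right _ (by positivity)
  exact_mod_cast card_le_card fun ω hω => by
    simp only [mem_filter, mem_univ, true_and] at hω ⊢
    exact h ω hω

theorem pr_or_le (P Q : Ω → Prop) : pr (fun ω => P ω ∨ Q ω) ≤ pr P + pr Q := by
  classical
  rw [pr_def, pr_def, pr_def, ← add_div]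
  apply div_le_div_of_nonneg_right _ (by positivity)
  rw [filter_or]
  exact_mod_cast card_union_le _ _

theorem pr_not [Nonempty Ω] (P : Ω → Prop) : pr (fun ω => ¬ P ω) = 1 - pr P := by
  classical
  rw [pr_def, pr_def]
  have h := card_filter_add_card_filter_not (s := (univ : Finset Ω)) P
  rw [card_univ] at h
  have hc : (0 : ℝ) < Fintype.card Ω := by exact_mod_cast Fintype.card_pos
  field_simp
  have : ((univ.filter P).card : ℝ) + ((univ.filter fun ω => ¬ P ω).card : ℝ)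
      = Fintype.card Ω := by exact_mod_cast h
  linarith

theorem exists_of_pr_lt [Nonempty Ω] {P : Ω → Prop} (h : pr (fun ω => ¬ P ω) < 1) :
    ∃ ω, P ω := by
  classical
  by_contra hc
  push Not at hc
  have : pr (fun ω => ¬ P ω) = 1 := by
    rw [pr_def]
    rw [filter_true_of_mem (fun ω _ => hc ω), card_univ]
    exact div_self (by exact_mod_cast Fintype.card_ne_zero)
  linarith

theorem av_nonneg {f : Ω → ℝ} (h : ∀ ω, 0 ≤ f ω) : 0 ≤ av f := by
  unfold av
  have := sum_nonneg fun ω (_ : ω ∈ (univ : Finset Ω)) => h ω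
  positivity

theorem av_mono {f g : Ω → ℝ} (h : ∀ ω, f ω ≤ g ω) : av f ≤ av g := by
  unfold av
  exact div_le_div_of_nonneg_right (sum_le_sum fun ω _ => h ω) (by positivity)

theorem av_add (f g : Ω → ℝ) : av (fun ω => f ω + g ω) = av f + av g := by
  unfold av
  rw [sum_add_distrib, add_div]

theorem av_const_mul (c : ℝ) (f : Ω → ℝ) : av (fun ω => c * f ω) = c * av f := by
  unfold av
  rw [← mul_sum, mul_div_assoc]

theorem av_sum {ι : Type} (s : Finset ι) (f : ι → Ω → ℝ) :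
    av (fun ω => ∑ i ∈ s, f i ω) = ∑ i ∈ s, av (f i) := by
  unfold av
  rw [sum_comm, sum_div]

theorem av_const [Nonempty Ω] (c : ℝ) : av (fun _ : Ω => c) = c := by
  unfold av
  rw [sum_const, card_univ, nsmul_eq_mul]
  have hc : (Fintype.card Ω : ℝ) ≠ 0 := by exact_mod_cast Fintype.card_ne_zero
  field_simp

theorem pr_eq_av (P : Ω → Prop) [DecidablePred P] :
    pr P = av (fun ω => if P ω then (1 : ℝ) else 0) := by
  unfold pr av
  rw [sum_boole]
  congr!

theorem markov {f : Ω → ℝ} (h : ∀ ω, 0 ≤ f ω) {a : ℝ} (ha : 0 < a) :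
    pr (fun ω => a < f ω) ≤ av f / a := by
  classical
  rw [pr_eq_av, le_div_iff₀ ha, mul_comm, ← av_const_mul]
  refine av_mono fun ω => ?_
  split_ifs with h1
  · rw [mul_one]; exact h1.le
  · rw [mul_zero]; exact h ω

theorem markov' {f : Ω → ℝ} (h : ∀ ω, 0 ≤ f ω) {a : ℝ} (ha : 0 < a) :
    pr (fun ω => a ≤ f ω) ≤ av f / a := by
  classical
  rw [pr_eq_av, le_div_iff₀ ha, mul_comm, ← av_const_mul]
  refine av_mono fun ω => ?_
  split_ifs with h1
  · rw [mul_one]; exact h1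
  · rw [mul_zero]; exact h ω

/-- Fubini for one more generator -/
theorem av_snoc {G : Type} [Fintype G] {k : ℕ} (f : (Fin (k + 1) → G) → ℝ) :
    av f = av (fun z : Fin k → G => av (fun g : G => f (Fin.snoc z g))) := by
  unfold av
  have hcard : (Fintype.card (Fin (k + 1) → G) : ℝ)
      = Fintype.card (Fin k → G) * Fintype.card G := by
    rw [Fintype.card_fun, Fintype.card_fun, Fintype.card_fin, Fintype.card_fin]
    push_cast
    ring
  rw [hcard, ← sum_div, div_div]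
  have h1 : ∑ z : Fin (k + 1) → G, f z
      = ∑ z : Fin k → G, ∑ g : G, f (Fin.snoc z g) := by
    rw [← Fintype.sum_prod_type']
    rw [← (Fin.snocEquiv (fun _ : Fin (k + 1) => G)).sum_comp]
    rw [← (Equiv.prodComm (Fin k → G) G).sum_comp]
    rfl
  rw [h1]
  congr 1
  ring

end prob

section laws

theorem mem_bx {B : ℕ} {v : ℤ} : v ∈ bx B ↔ -(B : ℤ) ≤ v ∧ v < B := by
  simp [bx]

theorem card_bx (B : ℕ) : (bx B).card = 2 * B := by
  simp [bx]; omega

theorem bx_subset {L B : ℕ} (h : L ≤ B) : bx L ⊆ bx B := by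
  intro v hv
  rw [mem_bx] at hv ⊢
  have : (L : ℤ) ≤ B := by exact_mod_cast h
  omega

theorem rs_nonneg {μ : ℤ → ℝ} (h : ∀ v, 0 ≤ μ v) (B g : ℕ) (v : ℤ) : 0 ≤ rs μ B g v :=
  sum_nonneg fun u _ => h u

theorem rs_zero {μ : ℤ → ℝ} {B : ℕ} {v : ℤ} (hv : v ∈ bx B) : rs μ B 0 v = μ v := by
  unfold rs
  have : (bx B).filter (fun u => ((0 : ℕ) : ℤ) ∣ u - v) = {v} := by
    ext u
    simp only [Nat.cast_zero, zero_dvd_iff, mem_filter, mem_singleton]
    constructor
    · rintro ⟨_, h⟩; omega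
    · rintro rfl; exact ⟨hv, by omega⟩
  rw [this, sum_singleton]

theorem rs_congr (μ : ℤ → ℝ) (B g : ℕ) {v v' : ℤ} (h : (g : ℤ) ∣ v - v') :
    rs μ B g v = rs μ B g v' := by
  unfold rs
  congr 1
  ext u
  simp only [mem_filter, and_congr_right_iff]
  intro _
  constructor
  · intro h1
    have := dvd_add h1 h
    simpa using this
  · intro h1
    have := dvd_sub h1 h
    have h2 : u - v' - (v - v') = u - v := by ring
    rwa [h2] at this

theorem rs_per (μ : ℤ → ℝ) (B g : ℕ) (v : ℤ) : rs μ B g (v % (g : ℤ)) = rs μ B g v := by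
  apply rs_congr
  rw [dvd_sub_comm]
  exact Int.dvd_self_sub_emod

theorem self_le_rs {μ : ℤ → ℝ} (h : ∀ v, 0 ≤ μ v) {B : ℕ} (g : ℕ) {v : ℤ} (hv : v ∈ bx B) :
    μ v ≤ rs μ B g v := by
  unfold rs
  apply single_le_sum (f := μ) (fun u _ => h u)
  rw [mem_filter]
  exact ⟨hv, by simp⟩

/-- sums of the residue law over canonical representatives -/
theorem sum_rs_le {μ : ℤ → ℝ} (h : ∀ v, 0 ≤ μ v) (B g : ℕ) (s : Finset ℤ)
    (hs : ∀ a ∈ s, a % (g : ℤ) = a) : ∑ a ∈ s, rs μ B g a ≤ ∑ v ∈ bx B, μ v := by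
  classical
  unfold rs
  rw [← sum_biUnion]
  · apply sum_le_sum_of_subset_of_nonneg
    · intro u hu
      rw [mem_biUnion] at hu
      obtain ⟨a, _, hu⟩ := hu
      exact (mem_filter.mp hu).1
    · intro u _ _; exact h u
  · intro a ha b hb hab
    rw [Function.onFun, disjoint_left]
    intro u hu hu'
    rw [mem_filter] at hu hu'
    apply hab
    have h1 : (g : ℤ) ∣ a - b := by
      have := dvd_sub hu'.2 hu.2
      have h2 : u - b - (u - a) = a - b := by ring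
      rwa [h2] at this
    have h4 : a % (g : ℤ) = b % (g : ℤ) := Int.modEq_iff_dvd.2 (by
      rw [dvd_sub_comm]; exact h1)
    rw [← hs a ha, ← hs b hb, h4]

theorem isQ_rs {μ : ℤ → ℝ} {B : ℕ} (h : IsLaw μ B) {g : ℕ} (hp : ∀ v, 0 < rs μ B g v) :
    IsQ g (rs μ B g) :=
  ⟨hp, rs_per μ B g, fun s hs => (sum_rs_le h.nonneg B g s hs).trans_eq h.sum⟩

theorem pw_nonneg {μ : ℤ → ℝ} (h : ∀ v, 0 ≤ μ v) {k : ℕ} (w : Fin k → ℤ) : 0 ≤ pw μ w :=
  prod_nonneg fun _ _ => h _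

theorem mem_wd {k L : ℕ} {w : Fin k → ℤ} : w ∈ wd k L ↔ ∀ i, w i ∈ bx L := by
  simp [wd]

/-- a sum of products over all words -/
theorem sum_prod_wd (f : ℤ → ℝ) (k L : ℕ) :
    ∑ w ∈ wd k L, ∏ i, f (w i) = (∑ v ∈ bx L, f v) ^ k := by
  unfold wd
  rw [← Finset.prod_univ_sum (fun _ : Fin k => bx L) (fun _ v => f v)]
  simp

theorem sum_pw (μ : ℤ → ℝ) (k L : ℕ) : ∑ w ∈ wd k L, pw μ w = (∑ v ∈ bx L, μ v) ^ k :=
  sum_prod_wd μ k L

theorem sum_pw_one {μ : ℤ → ℝ} {L : ℕ} (h : IsLaw μ L) (k : ℕ) : ∑ w ∈ wd k L, pw μ w = 1 := by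
  rw [sum_pw, h.sum, one_pow]

/-- total weight of the words congruent to a given word -/
theorem sum_pw_cong (μ : ℤ → ℝ) {k : ℕ} (L g : ℕ) (w : Fin k → ℤ) :
    ∑ w' ∈ (wd k L).filter (fun w' => ∀ i, (g : ℤ) ∣ w' i - w i), pw μ w'
      = ∏ i, rs μ L g (w i) := by
  classical
  unfold rs pw
  rw [Finset.prod_univ_sum (fun i : Fin k => (bx L).filter (fun u => (g : ℤ) ∣ u - w i))
    (fun _ v => μ v)]
  congr 1
  ext w'
  simp only [mem_filter, mem_wd, Fintype.mem_piFinset]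
  constructor
  · rintro ⟨h1, h2⟩ i; exact ⟨h1 i, h2 i⟩
  · intro h; exact ⟨fun i => (h i).1, fun i => (h i).2⟩

theorem nu_law {L : ℕ} (hL : 1 ≤ L) : IsLaw (nu L) L := by
  refine ⟨fun v => ?_, fun v hv => ?_, ?_⟩
  · unfold nu; split_ifs <;> positivity
  · unfold nu; rw [if_neg hv]
  · unfold nu
    rw [sum_congr rfl (fun v hv => if_pos hv), sum_const, card_bx, nsmul_eq_mul]
    have : (0 : ℝ) < L := by exact_mod_cast hL
    push_cast
    field_simp

/-- sums over a larger box of functions vanishing outside the smaller one -/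
theorem sum_bx_eq {L B : ℕ} (h : L ≤ B) {f : ℤ → ℝ} (hf : ∀ v, v ∉ bx L → f v = 0) :
    ∑ v ∈ bx B, f v = ∑ v ∈ bx L, f v :=
  (sum_subset (bx_subset h) fun v _ hv => hf v hv).symm

theorem rs_bx_eq {L B : ℕ} (h : L ≤ B) {μ : ℤ → ℝ} (hf : ∀ v, v ∉ bx L → μ v = 0) (g : ℕ)
    (v : ℤ) : rs μ B g v = rs μ L g v := by
  unfold rs
  rw [sum_filter, sum_filter]
  apply sum_bx_eq h
  intro u hu
  split_ifs
  · exact hf u hu
  · rfl

theorem IsLaw.mono {L B : ℕ} (h : L ≤ B) {μ : ℤ → ℝ} (hμ : IsLaw μ L) : IsLaw μ B :=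
  ⟨hμ.nonneg, fun v hv => hμ.supp v fun h' => hv (bx_subset h h'),
    (sum_bx_eq h hμ.supp).trans hμ.sum⟩

theorem Hg_bx_eq {L B : ℕ} (h : L ≤ B) {μ : ℤ → ℝ} (hf : ∀ v, v ∉ bx L → μ v = 0) (g : ℕ) :
    Hg μ B g = Hg μ L g := by
  unfold Hg
  rw [sum_bx_eq h (fun v hv => by rw [hf v hv, zero_mul])]
  exact sum_congr rfl fun v _ => by rw [rs_bx_eq h hf]

theorem Ab_bx_eq {L B : ℕ} (h : L ≤ B) {μ : ℤ → ℝ} (hf : ∀ v, v ∉ bx L → μ v = 0) :
    Ab μ B = Ab μ L := by
  unfold Ab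
  exact sum_bx_eq h (fun v hv => by rw [hf v hv, zero_mul])

end laws

end

end DiamAb
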