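import Mathlib
import Pool.Agent.Lib_MP_0ccc25_pr.Base

/-!
Piece NURS. Residue laws of the uniform law `nu L` on the box `[-L, L)`.

PROOFS. Let `n = n(g, v)` be the number of `u ∈ bx L` with `g ∣ u - v`; `rs (nu L) L g v = n / (2 L)` and
`⌊2 L / g⌋ ≤ n ≤ ⌊2 L / g⌋ + 1`, in particular `2 L / g - 1 ≤ n ≤ 2 L / g + 1`, and `n = 2 L / M` if
`M ∣ 2 L` (`Int.Ico_filter_modEq_card` / `Int.Ico_filter_dvd_card`). If `g ≤ 2 L` then
`⌊2 L / g⌋ ≥ (2 L / g) / 2`. This gives `nu_rs_le`, `nu_rs_ge`, `nu_rs_ge'`, `nu_exact`.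
`nu_ab`: `|v| ≤ L` on the box and the total mass is one.
-/

namespace DiamAb

open Finset

theorem nurs_card (L g : ℕ) (hg : 1 ≤ g) (v : ℤ) :
    ((((bx L).filter (fun u => (g : ℤ) ∣ u - v)).card : ℕ) : ℤ)
      = ⌈((L : ℚ) - v) / g⌉ - ⌈(-(L : ℚ) - v) / g⌉ := by
  have h := Int.Ico_filter_modEq_card (-(L : ℤ)) (L : ℤ) (r := (g : ℤ)) (by exact_mod_cast hg) v
  have e : (Finset.Ico (-(L : ℤ)) L).filter (fun x => x ≡ v [ZMOD (g : ℤ)])
      = (bx L).filter (fun u => (g : ℤ) ∣ u - v) := by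
    unfold bx
    ext x
    simp only [mem_filter, and_congr_right_iff]
    intro _
    rw [Int.modEq_comm, Int.modEq_iff_dvd]
  rw [e] at h
  rw [h]
  push_cast
  apply max_eq_left
  rw [sub_nonneg]
  apply Int.ceil_le_ceil
  apply div_le_div_of_nonneg_right
  · have : (0 : ℚ) ≤ L := by positivity
    linarith
  · positivity

theorem nurs_rs (L g : ℕ) (v : ℤ) :
    rs (nu L) L g v = (((bx L).filter (fun u => (g : ℤ) ∣ u - v)).card : ℝ) * (1 / (2 * L)) := by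
  unfold rs
  rw [sum_congr rfl (fun u hu => ?_), sum_const, nsmul_eq_mul]
  unfold nu
  rw [if_pos (mem_filter.mp hu).1]

theorem nurs_lt (L g : ℕ) (hg : 1 ≤ g) (v : ℤ) :
    (((bx L).filter (fun u => (g : ℤ) ∣ u - v)).card : ℝ) < 2 * L / g + 1 := by
  have hg' : (0 : ℚ) < g := by exact_mod_cast hg
  have h := nurs_card L g hg v
  have h' : ((((bx L).filter (fun u => (g : ℤ) ∣ u - v)).card : ℕ) : ℚ)
      = (⌈((L : ℚ) - v) / g⌉ : ℤ) - (⌈(-(L : ℚ) - v) / g⌉ : ℤ) := by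
    exact_mod_cast h
  have h1 := Int.ceil_lt_add_one (((L : ℚ) - v) / g)
  have h2 := Int.le_ceil ((-(L : ℚ) - v) / g)
  have h3 : ((L : ℚ) - v) / g - (-(L : ℚ) - v) / g = 2 * L / g := by
    field_simp; ring
  have h4 : ((((bx L).filter (fun u => (g : ℤ) ∣ u - v)).card : ℕ) : ℚ) < 2 * L / g + 1 := by
    rw [h']; linarith
  have h5 := (Rat.cast_lt (K := ℝ)).2 h4
  push_cast at h5
  exact h5

theorem nurs_gt (L g : ℕ) (hg : 1 ≤ g) (v : ℤ) :
    (2 * L / g - 1 : ℝ) < (((bx L).filter (fun u => (g : ℤ) ∣ u - v)).card : ℝ) := by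
  have hg' : (0 : ℚ) < g := by exact_mod_cast hg
  have h := nurs_card L g hg v
  have h' : ((((bx L).filter (fun u => (g : ℤ) ∣ u - v)).card : ℕ) : ℚ)
      = (⌈((L : ℚ) - v) / g⌉ : ℤ) - (⌈(-(L : ℚ) - v) / g⌉ : ℤ) := by
    exact_mod_cast h
  have h1 := Int.le_ceil (((L : ℚ) - v) / g)
  have h2 := Int.ceil_lt_add_one ((-(L : ℚ) - v) / g)
  have h3 : ((L : ℚ) - v) / g - (-(L : ℚ) - v) / g = 2 * L / g := by
    field_simp; ring
  have h4 : (2 * L / g - 1 : ℚ)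
      < ((((bx L).filter (fun u => (g : ℤ) ∣ u - v)).card : ℕ) : ℚ) := by
    rw [h']; linarith
  have h5 := (Rat.cast_lt (K := ℝ)).2 h4
  push_cast at h5
  exact h5

theorem nu_rs_le (L g : ℕ) (hL : 1 ≤ L) (hg : 1 ≤ g) (v : ℤ) :
    rs (nu L) L g v ≤ 1 / g + 1 / (2 * L) := by
  have hg' : (0 : ℝ) < g := by exact_mod_cast hg
  have hL' : (0 : ℝ) < L := by exact_mod_cast hL
  rw [nurs_rs]
  have h := nurs_lt L g hg v
  calc (((bx L).filter (fun u => (g : ℤ) ∣ u - v)).card : ℝ) * (1 / (2 * L))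
      ≤ (2 * L / g + 1) * (1 / (2 * L)) := by
        apply mul_le_mul_of_nonneg_right h.le; positivity
    _ = 1 / g + 1 / (2 * L) := by field_simp

theorem nu_rs_ge (L g : ℕ) (hL : 1 ≤ L) (hg : 1 ≤ g) (v : ℤ) :
    1 / g - 1 / (2 * L) ≤ rs (nu L) L g v := by
  have hg' : (0 : ℝ) < g := by exact_mod_cast hg
  have hL' : (0 : ℝ) < L := by exact_mod_cast hL
  rw [nurs_rs]
  have h := nurs_gt L g hg v
  calc (1 / g - 1 / (2 * L) : ℝ) = (2 * L / g - 1) * (1 / (2 * L)) := by field_simp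
    _ ≤ _ := by
        apply mul_le_mul_of_nonneg_right h.le; positivity

theorem nu_rs_ge' (L g : ℕ) (hL : 1 ≤ L) (hg : 1 ≤ g) (hgL : g ≤ 2 * L) (v : ℤ) :
    1 / (2 * g) ≤ rs (nu L) L g v := by
  have hg' : (0 : ℝ) < g := by exact_mod_cast hg
  have hL' : (0 : ℝ) < L := by exact_mod_cast hL
  have hgL' : (g : ℝ) ≤ 2 * L := by exact_mod_cast hgL
  rw [nurs_rs]
  have h := nurs_gt L g hg v
  have key : (L / g : ℝ) ≤ (((bx L).filter (fun u => (g : ℤ) ∣ u - v)).card : ℝ) := by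
    have e : (2 * L / g : ℝ) = 2 * (L / g) := by ring
    rw [e] at h
    rcases le_or_gt 1 ((L : ℝ) / g) with h1 | h1
    · linarith
    · have h2 : (0 : ℝ) < (((bx L).filter (fun u => (g : ℤ) ∣ u - v)).card : ℝ) := by
        have : (1 : ℝ) ≤ 2 * (L / g) := by
          rw [← e, le_div_iff₀ hg']; linarith
        linarith
      have h3 : (1 : ℝ) ≤ (((bx L).filter (fun u => (g : ℤ) ∣ u - v)).card : ℝ) := by
        have : 0 < ((bx L).filter (fun u => (g : ℤ) ∣ u - v)).card := by exact_mod_cast h2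
        exact_mod_cast this
      linarith
  calc (1 / (2 * g) : ℝ) = (L / g) * (1 / (2 * L)) := by field_simp
    _ ≤ _ := by
        apply mul_le_mul_of_nonneg_right key; positivity

theorem nu_exact (L M : ℕ) (hL : 1 ≤ L) (hM : 1 ≤ M) (hd : M ∣ L) (v : ℤ) :
    rs (nu L) L M v = 1 / M := by
  have hM' : (0 : ℝ) < M := by exact_mod_cast hM
  have hL' : (0 : ℝ) < L := by exact_mod_cast hL
  obtain ⟨c, rfl⟩ := hd
  have hMq : (0 : ℚ) < M := by exact_mod_cast hM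
  have h := nurs_card (M * c) M hM v
  have e : (-((M * c : ℕ) : ℚ) - v) / M = (((M * c : ℕ) : ℚ) - v) / M - ((2 * c : ℤ) : ℚ) := by
    push_cast
    field_simp
    ring
  rw [e, Int.ceil_sub_intCast] at h
  have h2 : ((bx (M * c)).filter (fun u => (M : ℤ) ∣ u - v)).card = 2 * c := by
    have : ((((bx (M * c)).filter (fun u => (M : ℤ) ∣ u - v)).card : ℕ) : ℤ) = 2 * c := by
      rw [h]; ring
    exact_mod_cast this
  have hc : (0 : ℝ) < c := by
    push_cast at hL'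
    exact (pos_iff_pos_of_mul_pos hL').mp hM'
  rw [nurs_rs, h2]
  push_cast
  field_simp

theorem nu_ab (L : ℕ) (hL : 1 ≤ L) : Ab (nu L) L ≤ L := by
  have hlaw := nu_law hL
  unfold Ab
  calc ∑ v ∈ bx L, nu L v * |(v : ℝ)| ≤ ∑ v ∈ bx L, nu L v * (L : ℝ) := by
        apply sum_le_sum
        intro v hv
        apply mul_le_mul_of_nonneg_left _ (hlaw.nonneg v)
        rw [mem_bx] at hv
        rw [abs_le]
        constructor
        · exact_mod_cast hv.1
        · exact_mod_cast hv.2.le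
    _ = L := by rw [← sum_mul, hlaw.sum, one_mul]

end DiamAb
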