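import Mathlib
import Pool.Agent.Lib_MP_0ccc25_pr.NuRs

/-!
Piece NUENT. Cross entropies of the uniform law `nu L` on the box `[-L, L)` (residue bounds in NuRs).

PROOFS. Write `ρ v = rs (nu L) L g v`. For a test law `q` modulo `g`, and `w`
a positive periodic function, `Σ_{v ∈ bx L} (1 / (2 L)) q v / w v = Σ_c ρ c q c / w c`, the sum over canonical
residues `c` (of elements of the box).
`nu_ce1`: for `v ∈ bx L`, `ρ v > 0` (`self_le_rs`), and
`-log (g q v) = -log (q v / ρ v) - log (g ρ v) ≥ (1 - q v / ρ v) + (1 - g ρ v)` (`Real.log_le_sub_one_of_pos`).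
Average over `v ∈ bx L` (weights `1 / (2 L)`): `Σ q v / ρ v` becomes `Σ_c q c ≤ 1`, and
`Σ_v (1 / (2 L)) g ρ v = g Σ_c ρ c ^ 2 = 1 + g Σ_c (ρ c - 1 / g) ^ 2 ≤ 1 + g * g * (1 / (2 L)) ^ 2`, the sum over
all `g` classes. So the average of `-log (g q v)` is at least `-(g / (2 L)) ^ 2`.
`nu_ce2`: with `K = 1 / g + 1 / (2 L) ≥ ρ`: `-log (q v) ≥ -log K + 1 - q v / K`, and
`Σ_v (1 / (2 L)) q v / K = Σ_c ρ c q c / K ≤ Σ_c q c ≤ 1`.
`nu_ce0`: `-log (q v) ≥ log (2 L) + 1 - 2 L q v`, average over `v ∈ bx L`; `Σ_{v ∈ bx L} q v ≤ 1` (for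
`g = 0` every integer is canonical).
`nu_gain`: if `g ≤ 4 S` then `g / (2 L) ≤ 4 S √s1 / (6 S)`, whose square is `(4 / 9) s1 ≤ s1 / 2`, and `nu_ce1` gives
at least `log g - s1 / 2 ≥ h + s1 / 2`. If `g > 4 S` then
`1 / g + 1 / (2 L) ≤ 1 / (4 S) + √s1 / (6 S) ≤ 1 / (2 S)` (as `√s1 ≤ 1`... `1 / 4 + 1 / 6 ≤ 1 / 2`), and `nu_ce2` gives at least
`log (2 S) ≥ h + log 2 ≥ h + s1 / 2`.
-/

namespace DiamAb

open Finset

theorem nuent_nu {L : ℕ} {v : ℤ} (hv : v ∈ bx L) : nu L v = 1 / (2 * L : ℝ) := by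
  unfold nu
  rw [if_pos hv]

/-- sums over the box of periodic functions, as sums over the residue classes -/
theorem nuent_fold (L g : ℕ) (hg : 1 ≤ g) (F : ℤ → ℝ) (hF : ∀ v, F (v % (g : ℤ)) = F v) :
    ∑ v ∈ bx L, nu L v * F v = ∑ c ∈ Finset.Ico (0 : ℤ) g, rs (nu L) L g c * F c := by
  have hg' : (0 : ℤ) < g := by exact_mod_cast hg
  have hmaps : ∀ v ∈ bx L, v % (g : ℤ) ∈ Finset.Ico (0 : ℤ) g := by
    intro v _
    rw [Finset.mem_Ico]
    exact ⟨Int.emod_nonneg _ hg'.ne', Int.emod_lt_of_pos _ hg'⟩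
  rw [← Finset.sum_fiberwise_of_maps_to hmaps]
  refine Finset.sum_congr rfl fun c hc => ?_
  rw [Finset.mem_Ico] at hc
  have hcc : c % (g : ℤ) = c := Int.emod_eq_of_lt hc.1 hc.2
  unfold rs
  rw [Finset.sum_mul]
  have hfil : (bx L).filter (fun v => v % (g : ℤ) = c)
      = (bx L).filter (fun u => (g : ℤ) ∣ u - c) := by
    ext u
    simp only [mem_filter, and_congr_right_iff]
    intro _
    constructor
    · intro h
      rw [← h]
      exact Int.dvd_self_sub_emod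
    · intro h
      have h4 : c % (g : ℤ) = u % (g : ℤ) := Int.modEq_iff_dvd.2 h
      rw [← h4, hcc]
  rw [hfil]
  refine Finset.sum_congr rfl fun u hu => ?_
  rw [← hfil, mem_filter] at hu
  rw [← hF u, hu.2]

theorem nuent_canon {g : ℕ} : ∀ a ∈ Finset.Ico (0 : ℤ) g, a % (g : ℤ) = a := by
  intro a ha
  rw [Finset.mem_Ico] at ha
  exact Int.emod_eq_of_lt ha.1 ha.2

theorem nuent_one (L g : ℕ) (hL : 1 ≤ L) (hg : 1 ≤ g) :
    ∑ c ∈ Finset.Ico (0 : ℤ) g, rs (nu L) L g c = 1 := by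
  have h := nuent_fold L g hg (fun _ => 1) (fun _ => rfl)
  simp only [mul_one] at h
  rw [← h]
  exact (nu_law hL).sum

theorem nuent_card (g : ℕ) : ∑ _c ∈ Finset.Ico (0 : ℤ) g, (1 : ℝ) = g := by
  simp

theorem nu_ce1 (L g : ℕ) (hL : 1 ≤ L) (hg : 1 ≤ g) (q : ℤ → ℝ) (hq : IsQ g q) :
    Real.log g - ((g : ℝ) / (2 * L)) ^ 2 ≤ ∑ v ∈ bx L, nu L v * (-Real.log (q v)) := by
  have hgR : (0 : ℝ) < g := by exact_mod_cast hg
  have hLR : (0 : ℝ) < L := by exact_mod_cast hL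
  set ρ : ℤ → ℝ := rs (nu L) L g with hρ
  have hρper : ∀ v, ρ (v % (g : ℤ)) = ρ v := fun v => rs_per _ _ _ v
  -- first: the quotient sum
  have h1 : ∑ v ∈ bx L, nu L v * (q v / ρ v) ≤ 1 := by
    rw [nuent_fold L g hg (fun v => q v / ρ v) (fun v => by simp only [hq.per, hρper])]
    refine le_trans (Finset.sum_le_sum fun c _ => ?_) (hq.sum (Finset.Ico (0 : ℤ) g) nuent_canon)
    change ρ c * (q c / ρ c) ≤ q c
    rcases eq_or_ne (ρ c) 0 with h0 | h0
    · rw [h0, zero_mul]; exact (hq.pos c).le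
    · rw [mul_div_cancel₀ _ h0]
  -- second: the square sum
  have h2 : ∑ v ∈ bx L, nu L v * (g * ρ v) ≤ 1 + ((g : ℝ) / (2 * L)) ^ 2 := by
    rw [nuent_fold L g hg (fun v => g * ρ v) (fun v => by simp only [hρper])]
    change ∑ c ∈ Finset.Ico (0 : ℤ) g, ρ c * (g * ρ c) ≤ _
    have hone : ∑ c ∈ Finset.Ico (0 : ℤ) g, ρ c = 1 := nuent_one L g hL hg
    have hsq : ∀ c ∈ Finset.Ico (0 : ℤ) g, ρ c * (g * ρ c)
        ≤ 2 * ρ c - 1 / g * 1 + g * (1 / (2 * L)) ^ 2 * 1 := by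
      intro c _
      have hu : ρ c ≤ 1 / g + 1 / (2 * L) := nu_rs_le L g hL hg c
      have hl : 1 / g - 1 / (2 * L) ≤ ρ c := nu_rs_ge L g hL hg c
      have hd : (ρ c - 1 / g) ^ 2 ≤ (1 / (2 * L)) ^ 2 := by
        apply sq_le_sq'
        · linarith
        · linarith
      have hd' := mul_le_mul_of_nonneg_left hd hgR.le
      have e1 : (g : ℝ) * (ρ c - 1 / g) ^ 2 = ρ c * (g * ρ c) - 2 * ρ c + 1 / g := by
        field_simp
        ring
      rw [e1] at hd'
      linarith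
    refine le_trans (Finset.sum_le_sum hsq) ?_
    rw [Finset.sum_add_distrib, Finset.sum_sub_distrib, ← Finset.mul_sum, ← Finset.mul_sum,
      ← Finset.mul_sum, nuent_card, hone]
    apply le_of_eq
    field_simp
    ring
  have h3 : ∀ v ∈ bx L, nu L v * (Real.log g + 2) - nu L v * (q v / ρ v) - nu L v * (g * ρ v)
      ≤ nu L v * (-Real.log (q v)) := by
    intro v hv
    have hn : 0 < nu L v := by rw [nuent_nu hv]; positivity
    have hρv : 0 < ρ v := lt_of_lt_of_le hn (self_le_rs (nu_law hL).nonneg g hv)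
    have a1 := Real.log_le_sub_one_of_pos (div_pos (hq.pos v) hρv)
    have a2 := Real.log_le_sub_one_of_pos (mul_pos hgR hρv)
    rw [Real.log_div (hq.pos v).ne' hρv.ne'] at a1
    rw [Real.log_mul hgR.ne' hρv.ne'] at a2
    have a3 : Real.log g + 2 - q v / ρ v - g * ρ v ≤ -Real.log (q v) := by linarith
    have a4 := mul_le_mul_of_nonneg_left a3 hn.le
    have e : nu L v * (Real.log g + 2 - q v / ρ v - g * ρ v)
        = nu L v * (Real.log g + 2) - nu L v * (q v / ρ v) - nu L v * (g * ρ v) := by ring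
    rw [← e]
    exact a4
  refine le_trans ?_ (Finset.sum_le_sum h3)
  rw [Finset.sum_sub_distrib, Finset.sum_sub_distrib, ← Finset.sum_mul, (nu_law hL).sum]
  linarith

theorem nu_ce2 (L g : ℕ) (hL : 1 ≤ L) (hg : 1 ≤ g) (q : ℤ → ℝ) (hq : IsQ g q) :
    -Real.log (1 / g + 1 / (2 * L)) ≤ ∑ v ∈ bx L, nu L v * (-Real.log (q v)) := by
  have hgR : (0 : ℝ) < g := by exact_mod_cast hg
  have hLR : (0 : ℝ) < L := by exact_mod_cast hL
  set K : ℝ := 1 / g + 1 / (2 * L) with hK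
  have hKpos : 0 < K := by positivity
  have h1 : ∑ v ∈ bx L, nu L v * (q v / K) ≤ 1 := by
    rw [nuent_fold L g hg (fun v => q v / K) (fun v => by simp only [hq.per])]
    refine le_trans (Finset.sum_le_sum fun c _ => ?_) (hq.sum (Finset.Ico (0 : ℤ) g) nuent_canon)
    change rs (nu L) L g c * (q c / K) ≤ q c
    have hu : rs (nu L) L g c ≤ K := nu_rs_le L g hL hg c
    calc rs (nu L) L g c * (q c / K) ≤ K * (q c / K) :=
          mul_le_mul_of_nonneg_right hu (div_nonneg (hq.pos c).le hKpos.le)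
      _ = q c := mul_div_cancel₀ _ hKpos.ne'
  have h3 : ∀ v ∈ bx L, nu L v * (-Real.log K + 1) - nu L v * (q v / K)
      ≤ nu L v * (-Real.log (q v)) := by
    intro v hv
    have hn : 0 < nu L v := by rw [nuent_nu hv]; positivity
    have a1 := Real.log_le_sub_one_of_pos (div_pos (hq.pos v) hKpos)
    rw [Real.log_div (hq.pos v).ne' hKpos.ne'] at a1
    have a3 : -Real.log K + 1 - q v / K ≤ -Real.log (q v) := by linarith
    have a4 := mul_le_mul_of_nonneg_left a3 hn.le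
    have e : nu L v * (-Real.log K + 1 - q v / K)
        = nu L v * (-Real.log K + 1) - nu L v * (q v / K) := by ring
    rw [← e]
    exact a4
  refine le_trans ?_ (Finset.sum_le_sum h3)
  rw [Finset.sum_sub_distrib, ← Finset.sum_mul, (nu_law hL).sum]
  linarith

theorem nu_ce0 (L : ℕ) (hL : 1 ≤ L) (q : ℤ → ℝ) (hq : IsQ 0 q) :
    Real.log (2 * L) ≤ ∑ v ∈ bx L, nu L v * (-Real.log (q v)) := by
  have hLR : (0 : ℝ) < L := by exact_mod_cast hL
  have h1 : ∑ v ∈ bx L, q v ≤ 1 := hq.sum (bx L) (fun a _ => by simp)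
  have h3 : ∀ v ∈ bx L, nu L v * (Real.log (2 * L) + 1) - q v
      ≤ nu L v * (-Real.log (q v)) := by
    intro v hv
    have hn : nu L v = 1 / (2 * L : ℝ) := nuent_nu hv
    have hnp : 0 < nu L v := by rw [hn]; positivity
    have h2L : (0 : ℝ) < 2 * L := by positivity
    have a1 := Real.log_le_sub_one_of_pos (mul_pos h2L (hq.pos v))
    rw [Real.log_mul h2L.ne' (hq.pos v).ne'] at a1
    have a3 : Real.log (2 * L) + 1 - 2 * L * q v ≤ -Real.log (q v) := by linarith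
    have a4 := mul_le_mul_of_nonneg_left a3 hnp.le
    have e : nu L v * (Real.log (2 * L) + 1 - 2 * L * q v)
        = nu L v * (Real.log (2 * L) + 1) - q v := by
      rw [mul_sub, hn]
      congr 1
      field_simp
    rw [← e]
    exact a4
  refine le_trans ?_ (Finset.sum_le_sum h3)
  rw [Finset.sum_sub_distrib, ← Finset.sum_mul, (nu_law hL).sum]
  linarith

theorem nu_gain (L g : ℕ) (S s1 h : ℝ) (hS : 0 < S) (hs : 0 < s1) (hs' : s1 ≤ 1 / 2) (hg : 1 ≤ g)
    (hL : 3 * S / √s1 ≤ L) (h1 : h ≤ Real.log g - s1) (h2 : h ≤ Real.log S) (q : ℤ → ℝ)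
    (hq : IsQ g q) : h + s1 / 2 ≤ ∑ v ∈ bx L, nu L v * (-Real.log (q v)) := by
  have hgR : (0 : ℝ) < g := by exact_mod_cast hg
  have hsq : 0 < √s1 := Real.sqrt_pos.2 hs
  have hsq1 : √s1 ≤ 1 := by
    rw [Real.sqrt_le_one]
    linarith
  have hLR : (0 : ℝ) < L := lt_of_lt_of_le (by positivity) hL
  have hL1 : 1 ≤ L := by exact_mod_cast (Nat.cast_pos.1 hLR)
  have hL' : 3 * S ≤ L * √s1 := by rwa [div_le_iff₀ hsq] at hL
  have hss : √s1 ^ 2 = s1 := Real.sq_sqrt hs.le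
  rcases le_or_gt (g : ℝ) (4 * S) with hc | hc
  · have hce := nu_ce1 L g hL1 hg q hq
    have hb : (g : ℝ) / (2 * L) ≤ 2 / 3 * √s1 := by
      rw [div_le_iff₀ (by positivity)]
      nlinarith
    have hb2 : ((g : ℝ) / (2 * L)) ^ 2 ≤ (2 / 3 * √s1) ^ 2 :=
      pow_le_pow_left₀ (by positivity) hb 2
    have hb3 : (2 / 3 * √s1) ^ 2 = 4 / 9 * s1 := by rw [mul_pow, hss]; ring
    linarith
  · have hce := nu_ce2 L g hL1 hg q hq
    have hK : 1 / (g : ℝ) + 1 / (2 * L) ≤ 1 / (2 * S) := by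
      have e1 : 1 / (g : ℝ) ≤ 1 / (4 * S) := one_div_le_one_div_of_le (by positivity) hc.le
      have e2 : 1 / (2 * L : ℝ) ≤ 1 / (6 * S) := by
        apply one_div_le_one_div_of_le (by positivity)
        nlinarith
      have e3 : 1 / (4 * S) + 1 / (6 * S) ≤ 1 / (2 * S) := by
        rw [div_add_div _ _ (by positivity) (by positivity), div_le_div_iff₀ (by positivity)
          (by positivity)]
        nlinarith [mul_pos hS hS]
      linarith
    have hKpos : 0 < 1 / (g : ℝ) + 1 / (2 * L) := by positivity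
    have hlog : Real.log (1 / (g : ℝ) + 1 / (2 * L)) ≤ Real.log (1 / (2 * S)) :=
      Real.log_le_log hKpos hK
    have e4 : Real.log (1 / (2 * S)) = -(Real.log 2 + Real.log S) := by
      rw [one_div, Real.log_inv, Real.log_mul (by norm_num) hS.ne']
    have e5 := Real.log_two_gt_d9
    linarith

end DiamAb
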