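import Mathlib
import Pool.Agent.Lib_MP_0ccc25_pr.NuEnt

/-!
Piece APRI. The uniform law on a long enough box is a good law.

PROOF. `law`: `nu_law`. `posi`: clear. `unif`: `nu_exact`.
`ent`: `g = 0`: `rs (nu L) L 0 v = 1 / (2 L)` on the box (`rs_zero`), so `Hg = log (2 L)` and
`2 L ≥ 6 S / √s1 ≥ 6 S`, so `Hg ≥ log S + log 6 ≥ h 0 + s1 / 2` (`hle`). `g ∈ N`, `g ≥ 1`: `rs (nu L) L g` is a
test law (`isQ_rs`, positive by `nu_rs_ge'`), so `nu_gain` with `q = rs (nu L) L g` gives the claim.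
(`g = 0` may also lie in `N`.)
`rng`: `g = 0`: constant value `log (2 L)`. `1 ≤ g ≤ 2 L`: `1 / (2 g) ≤ rs ≤ 1 / g + 1 / (2 L) ≤ 2 / g`, so with
`a = log (g / 2)`, `a ≤ -log rs ≤ log (2 g) = a + log 4`.
-/

namespace DiamAb

open Finset

theorem Good.mono {h : ℕ → ℝ} {M : ℕ} {N : Set ℕ} {c Cb c' Cb' : ℝ} {μ : ℤ → ℝ} {L : ℕ}
    (hG : Good h M N c Cb μ L) (hc : c' ≤ c) (hCb : Cb ≤ Cb') : Good h M N c' Cb' μ L := by
  refine ⟨hG.law, hG.posi, hG.unif, fun g h1 h2 => ?_, fun g h1 h2 => ?_⟩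
  · have := hG.ent g h1 h2; linarith
  · obtain ⟨a, ha⟩ := hG.rng g h1 h2
    exact ⟨a, fun v hv => ⟨(ha v hv).1, by have := (ha v hv).2; linarith⟩⟩

theorem apri_rs0 {L : ℕ} {v : ℤ} (hv : v ∈ bx L) : rs (nu L) L 0 v = 1 / (2 * L : ℝ) := by
  rw [rs_zero hv, nuent_nu hv]

theorem apri_hg0 {L : ℕ} (hL1 : 1 ≤ L) : Hg (nu L) L 0 = Real.log (2 * L) := by
  unfold Hg
  have h1 : ∀ v ∈ bx L, nu L v * (-Real.log (rs (nu L) L 0 v)) = nu L v * Real.log (2 * L) := by
    intro v hv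
    rw [apri_rs0 hv, one_div, Real.log_inv, neg_neg]
  rw [Finset.sum_congr rfl h1, ← Finset.sum_mul, (nu_law hL1).sum, one_mul]

theorem apri (h : ℕ → ℝ) (S s1 : ℝ) (M L : ℕ) (N : Set ℕ) (hS : 1 ≤ S) (hs : 0 < s1)
    (hs' : s1 ≤ 1 / 2) (hM : 1 ≤ M) (hd : M ∣ L) (hL1 : 1 ≤ L) (hL : 3 * S / √s1 ≤ L)
    (hle : ∀ g, h g ≤ Real.log S) (hN : ∀ g ∈ N, 1 ≤ g → h g ≤ Real.log g - s1) :
    Good h M N (s1 / 2) (Real.log 4) (nu L) L := by
  have hLR : (0 : ℝ) < L := by exact_mod_cast hL1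
  have hS0 : 0 < S := by linarith
  have hsq : 0 < √s1 := Real.sqrt_pos.2 hs
  have hsq1 : √s1 ≤ 1 := by
    rw [Real.sqrt_le_one]
    linarith
  have hL' : 3 * S ≤ L * √s1 := by rwa [div_le_iff₀ hsq] at hL
  have hLS : 2 * S ≤ 2 * (L : ℝ) := by nlinarith
  have hlog4 : Real.log 4 = Real.log 2 + Real.log 2 := by
    rw [← Real.log_mul (by norm_num) (by norm_num)]; norm_num
  have hl2 := Real.log_two_gt_d9
  refine ⟨nu_law hL1, fun v hv => ?_, fun v => nu_exact L M hL1 hM hd v, fun g hg hgL => ?_,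
    fun g hg hgL => ?_⟩
  · rw [nuent_nu hv]; positivity
  · rcases Nat.eq_zero_or_pos g with h0 | h0
    · subst h0
      rw [apri_hg0 hL1]
      have h1 : Real.log (2 * S) ≤ Real.log (2 * L) := Real.log_le_log (by positivity) hLS
      rw [Real.log_mul (by norm_num) hS0.ne'] at h1
      have h2 := hle 0
      linarith
    · have hgN : g ∈ N := by
        rcases hg with hg | hg
        · omega
        · exact hg
      have hpos : ∀ v, 0 < rs (nu L) L g v := fun v =>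
        lt_of_lt_of_le (by positivity) (nu_rs_ge' L g hL1 h0 hgL v)
      exact nu_gain L g S s1 (h g) hS0 hs hs' h0 hL (hN g hgN h0) (hle g) _
        (isQ_rs (nu_law hL1) hpos)
  · rcases Nat.eq_zero_or_pos g with h0 | h0
    · subst h0
      refine ⟨Real.log (2 * L), fun v hv => ?_⟩
      rw [apri_rs0 hv, one_div, Real.log_inv, neg_neg]
      refine ⟨le_refl _, ?_⟩
      linarith
    · have hgR : (0 : ℝ) < g := by exact_mod_cast h0
      have hgLR : (g : ℝ) ≤ 2 * L := by exact_mod_cast hgL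
      refine ⟨Real.log g - Real.log 2, fun v _ => ?_⟩
      have hl := nu_rs_ge' L g hL1 h0 hgL v
      have hu := nu_rs_le L g hL1 h0 v
      have hu' : rs (nu L) L g v ≤ 2 / g := by
        have e1 : 1 / (2 * L : ℝ) ≤ 1 / g := one_div_le_one_div_of_le hgR hgLR
        have e2 : (2 : ℝ) / g = 1 / g + 1 / g := by ring
        linarith
      have hpos : 0 < rs (nu L) L g v := lt_of_lt_of_le (by positivity) hl
      have a1 := Real.log_le_log hpos hu'
      have a2 := Real.log_le_log (by positivity) hl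
      rw [Real.log_div (by norm_num) hgR.ne'] at a1
      rw [one_div, Real.log_inv, Real.log_mul (by norm_num) hgR.ne'] at a2
      constructor
      · linarith
      · linarith

end DiamAb
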