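import Mathlib
import Pool.Agent.Lib_MP_0ccc25_pr.Base

/-!
Piece DMEX. Facts on `Dm k G = sInf {R | ∃ z : Fin k → G, Cov z R}`.

PROOF. `dm_ex`: if `AddGroup.rank G ≤ k`, take a generating finset of size `rank`
(`AddGroup.rank_spec`), list it and pad with zeros to a tuple `z : Fin k → G` whose range
generates `G`. Then every `x` is of the form `dot w z` (the set of such values is a subgroup
containing the generators: closure induction), and since `G` is finite there is a common bound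
`R` for the lengths of chosen words. So the set is nonempty and `Nat.sInf_mem` gives the claim.
`dm_le`: `Nat.sInf_le`.
-/

namespace DiamAb

theorem dmex_gen {G : Type} [AddCommGroup G] {k : ℕ} (z : Fin k → G) (S : Set G)
    (hS : ∀ s ∈ S, ∃ i, z i = s) (hcl : AddSubgroup.closure S = ⊤) (x : G) :
    ∃ w : Fin k → ℤ, dot w z = x := by
  have hx : x ∈ AddSubgroup.closure S := by rw [hcl]; trivial
  induction hx using AddSubgroup.closure_induction with
  | mem s hs =>
    obtain ⟨i, hi⟩ := hS s hs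
    refine ⟨Pi.single i 1, ?_⟩
    unfold dot
    rw [Finset.sum_eq_single i]
    · simp [hi]
    · intro j _ hj
      simp [Pi.single_eq_of_ne hj]
    · intro h; exact absurd (Finset.mem_univ i) h
  | zero => exact ⟨0, by simp [dot]⟩
  | add a b _ _ ha hb =>
    obtain ⟨u, hu⟩ := ha
    obtain ⟨v, hv⟩ := hb
    refine ⟨u + v, ?_⟩
    rw [← hu, ← hv]
    simp [dot, add_smul, Finset.sum_add_distrib]
  | neg a _ ha =>
    obtain ⟨u, hu⟩ := ha
    refine ⟨-u, ?_⟩
    rw [← hu]
    simp [dot, neg_smul, Finset.sum_neg_distrib]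

theorem dmex_cov {G : Type} [AddCommGroup G] [Fintype G] {k : ℕ} (z : Fin k → G)
    (h : ∀ x, ∃ w : Fin k → ℤ, dot w z = x) : ∃ R, Cov z R := by
  choose w hw using h
  refine ⟨∑ x, nrm (w x), fun x => ⟨w x, hw x, ?_⟩⟩
  exact Finset.single_le_sum (f := fun x => nrm (w x)) (fun _ _ => Nat.zero_le _)
    (Finset.mem_univ x)

theorem dm_ex (G : Type) [AddCommGroup G] [Fintype G] (k : ℕ) (hk : AddGroup.rank G ≤ k) :
    ∃ z : Fin k → G, Cov z (Dm k G) := by
  obtain ⟨S, hc, hS⟩ := AddGroup.rank_spec G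
  have hex : ∃ z : Fin k → G, ∀ s ∈ (S : Set G), ∃ i, z i = s := by
    classical
    refine ⟨fun i => if h : i.val < S.card then (S.equivFin.symm ⟨i.val, h⟩ : G) else 0, ?_⟩
    intro s hs
    have hlt : (S.equivFin ⟨s, hs⟩).val < k :=
      lt_of_lt_of_le (S.equivFin ⟨s, hs⟩).isLt (hc ▸ hk)
    refine ⟨⟨(S.equivFin ⟨s, hs⟩).val, hlt⟩, ?_⟩
    have h1 : (S.equivFin ⟨s, hs⟩).val < S.card := (S.equivFin ⟨s, hs⟩).isLt
    simp
  obtain ⟨z, hz⟩ := hex
  obtain ⟨R, hR⟩ := dmex_cov z (dmex_gen z S hz hS)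
  have hne : {R | ∃ z : Fin k → G, Cov z R}.Nonempty := ⟨R, z, hR⟩
  exact Nat.sInf_mem hne

theorem dm_le {G : Type} [AddCommGroup G] {k R : ℕ} (z : Fin k → G) (h : Cov z R) :
    Dm k G ≤ R := Nat.sInf_le ⟨z, h⟩

end DiamAb
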