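import Mathlib

/-!
Piece ETA. PROOF. Take `1 / η ≥ max (1 / ε) (max 1 (((Cf + 3) / (2 ε ^ 2)) ^ 4))`. For `y ≥ 1 / η`:
`y ^ 2 = y ^ (7 / 4) y ^ (1 / 4)` and `2 ε ^ 2 y ^ (1 / 4) ≥ Cf + 3`, so `2 ε ^ 2 y ^ 2 ≥ Cf y ^ (7 / 4) + 3 y ^ (7 / 4)`, and
`3 y ^ (7 / 4) ≥ 3 ≥ log 16` (`y ≥ 1`; `log 16 = 4 log 2 ≤ 2.8`).
-/

namespace DiamAb

theorem eta_ex (ε Cf : ℝ) (hε : 0 < ε) (hCf : 0 < Cf) : ∃ η : ℝ, 0 < η ∧ η ≤ ε ∧ η ≤ 1 ∧
    ∀ y : ℝ, 1 / η ≤ y → Cf * y ^ (7 / 4 : ℝ) + Real.log 16 ≤ 2 * ε ^ 2 * y ^ 2 := by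
  set A : ℝ := (Cf + 3) / (2 * ε ^ 2) with hA
  have hA0 : 0 < A := by positivity
  set T : ℝ := max (1 / ε) (max 1 (A ^ 4)) with hT
  have hT1 : 1 ≤ T := (le_max_left _ _).trans (le_max_right _ _)
  have hT0 : 0 < T := by linarith
  have hTe : 1 / ε ≤ T := le_max_left _ _
  have hTA : A ^ 4 ≤ T := (le_max_right _ _).trans (le_max_right _ _)
  refine ⟨1 / T, by positivity, ?_, ?_, ?_⟩
  · rw [div_le_iff₀ hT0]
    rw [div_le_iff₀ hε] at hTe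
    linarith [mul_comm T ε]
  · rw [div_le_one hT0]; exact hT1
  · intro y hy
    rw [one_div_one_div] at hy
    have hy1 : 1 ≤ y := hT1.trans hy
    have hy0 : 0 < y := by linarith
    have h1 : A ≤ y ^ (1 / 4 : ℝ) := by
      have h2 : A ^ 4 ≤ y := hTA.trans hy
      have h3 : (A ^ 4) ^ (1 / 4 : ℝ) = A := by
        rw [← Real.rpow_natCast, ← Real.rpow_mul hA0.le]
        norm_num
      rw [← h3]
      exact Real.rpow_le_rpow (by positivity) h2 (by norm_num)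
    have h4 : y ^ 2 = y ^ (7 / 4 : ℝ) * y ^ (1 / 4 : ℝ) := by
      rw [← Real.rpow_add hy0, ← Real.rpow_natCast]
      norm_num
    have h5 : 1 ≤ y ^ (7 / 4 : ℝ) := Real.one_le_rpow hy1 (by norm_num)
    have h6 : Cf + 3 ≤ 2 * ε ^ 2 * y ^ (1 / 4 : ℝ) := by
      have : 2 * ε ^ 2 * A = Cf + 3 := by rw [hA]; field_simp
      calc Cf + 3 = 2 * ε ^ 2 * A := this.symm
        _ ≤ _ := mul_le_mul_of_nonneg_left h1 (by positivity)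
    have h7 : Real.log 16 ≤ 3 := by
      have : (16 : ℝ) = 2 ^ 4 := by norm_num
      rw [this, Real.log_pow]
      have := Real.log_two_lt_d9
      push_cast
      linarith
    rw [h4]
    have h8 : (Cf + 3) * y ^ (7 / 4 : ℝ) ≤ 2 * ε ^ 2 * y ^ (1 / 4 : ℝ) * y ^ (7 / 4 : ℝ) :=
      mul_le_mul_of_nonneg_right h6 (by positivity)
    nlinarith

end DiamAb
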