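import Mathlib
import Pool.Agent.Lib_MP_0ccc25_pr.Base

/-!
Piece PARSEVAL. Fourier inversion for the density of a weighted family of words, and Parseval
for a set of characters.

PROOF. `inversion`: exchange the sums: `Σ_χ phi χ * χ (-x) = Σ_j p j Σ_χ χ (dot (W j) z - x)`
and use `AddChar.sum_apply_eq_ite`.
`parseval`: expand `‖·‖ ^ 2` as a double sum over `C`, exchange with the sum over `x` and use
`Σ_x χ (-x) conj (χ' (-x)) = |G| [χ = χ']` (`AddChar.sum_eq_ite` applied to `χ⁻¹ * χ'`, or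
`AddChar.wInner_cWeight_eq_boole`).
`coset_avg`: `Σ_y χ (M • y) = |G|` if `χ ^ M = 1` and `0` otherwise, so averaging
`Σ_χ a χ * χ (-(x + M • y))` over `y` keeps exactly the characters with `χ ^ M = 1`.
-/

namespace DiamAb

open Finset

open Classical in
theorem inversion {G : Type} [AddCommGroup G] [Fintype G] {k : ℕ} {ι : Type} (z : Fin k → G)
    (J : Finset ι) (p : ι → ℝ) (W : ι → Fin k → ℤ) (x : G) :
    ∑ χ : AddChar G ℂ, phi z J p W χ * χ (-x) =
      (Fintype.card G : ℂ) * ∑ j ∈ J.filter (fun j => dot (W j) z = x), (p j : ℂ) := by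
  unfold phi
  have h1 : ∀ χ : AddChar G ℂ, (∑ j ∈ J, (p j : ℂ) * χ (dot (W j) z)) * χ (-x) =
      ∑ j ∈ J, (p j : ℂ) * χ (dot (W j) z - x) := by
    intro χ
    rw [sum_mul]
    refine sum_congr rfl fun j _ => ?_
    rw [sub_eq_add_neg, AddChar.map_add_eq_mul, mul_assoc]
  rw [sum_congr rfl fun χ _ => h1 χ, sum_comm, sum_filter, mul_sum]
  refine sum_congr rfl fun j _ => ?_
  rw [← mul_sum, AddChar.sum_apply_eq_ite]
  simp only [sub_eq_zero]
  split_ifs
  · ring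
  · ring

open Classical in
theorem Parseval_orth {G : Type} [AddCommGroup G] [Fintype G] (χ χ' : AddChar G ℂ) :
    ∑ x : G, χ (-x) * (starRingEnd ℂ) (χ' (-x)) = if χ = χ' then (Fintype.card G : ℂ) else 0 := by
  have h1 : ∀ x : G, χ (-x) * (starRingEnd ℂ) (χ' (-x)) = (χ' * χ⁻¹) x := by
    intro x
    rw [AddChar.map_neg_eq_conj χ' x, Complex.conj_conj, AddChar.mul_apply, AddChar.inv_apply,
      mul_comm]
  rw [sum_congr rfl fun x _ => h1 x, AddChar.sum_eq_ite]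
  have h2 : (χ' * χ⁻¹ = (0 : AddChar G ℂ)) ↔ χ = χ' := by
    rw [← AddChar.one_eq_zero, mul_inv_eq_one]
    exact eq_comm
  simp only [h2]

theorem parseval {G : Type} [AddCommGroup G] [Fintype G] (C : Finset (AddChar G ℂ))
    (a : AddChar G ℂ → ℂ) :
    av (fun x : G => ‖∑ χ ∈ C, a χ * χ (-x)‖ ^ 2) = ∑ χ ∈ C, ‖a χ‖ ^ 2 := by
  classical
  have hG : (Fintype.card G : ℂ) ≠ 0 := by exact_mod_cast Fintype.card_ne_zero
  have hc : ((av (fun x : G => ‖∑ χ ∈ C, a χ * χ (-x)‖ ^ 2) : ℝ) : ℂ) =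
      ((∑ χ ∈ C, ‖a χ‖ ^ 2 : ℝ) : ℂ) := by
    unfold av
    push_cast
    have h1 : ∀ x : G, ((‖∑ χ ∈ C, a χ * χ (-x)‖ : ℝ) : ℂ) ^ 2 =
        ∑ χ ∈ C, ∑ χ' ∈ C, (a χ * (starRingEnd ℂ) (a χ')) *
          (χ (-x) * (starRingEnd ℂ) (χ' (-x))) := by
      intro x
      rw [← Complex.mul_conj', map_sum, sum_mul_sum]
      refine sum_congr rfl fun χ _ => sum_congr rfl fun χ' _ => ?_
      rw [map_mul]
      ring
    rw [sum_congr rfl fun x _ => h1 x, sum_comm, div_eq_iff hG, sum_mul]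
    refine sum_congr rfl fun χ hχ => ?_
    rw [sum_comm]
    have h2 : ∀ χ' ∈ C, ∑ x : G, (a χ * (starRingEnd ℂ) (a χ')) *
          (χ (-x) * (starRingEnd ℂ) (χ' (-x))) =
          if χ = χ' then (a χ * (starRingEnd ℂ) (a χ')) * (Fintype.card G : ℂ) else 0 := by
      intro χ' _
      rw [← mul_sum, Parseval_orth]
      split_ifs
      · rfl
      · ring
    rw [sum_congr rfl h2, sum_ite_eq, if_pos hχ, Complex.mul_conj']
  exact_mod_cast hc

open Classical in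
theorem coset_avg {G : Type} [AddCommGroup G] [Fintype G] (a : AddChar G ℂ → ℂ) (M : ℕ) (x : G) :
    (∑ y : G, ∑ χ : AddChar G ℂ, a χ * χ (-(x + M • y))) / (Fintype.card G : ℂ) =
      ∑ χ ∈ univ.filter (fun χ : AddChar G ℂ => χ ^ M = 1), a χ * χ (-x) := by
  have hG : (Fintype.card G : ℂ) ≠ 0 := by exact_mod_cast Fintype.card_ne_zero
  rw [sum_comm, div_eq_iff hG, sum_mul, sum_filter]
  refine sum_congr rfl fun χ _ => ?_
  have h1 : ∀ y : G, a χ * χ (-(x + M • y)) = (a χ * χ (-x)) * ((χ ^ M)⁻¹) y := by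
    intro y
    rw [neg_add, AddChar.map_add_eq_mul, AddChar.inv_apply, AddChar.pow_apply, ← smul_neg,
      AddChar.map_nsmul_eq_pow, mul_assoc]
  rw [sum_congr rfl fun y _ => h1 y, ← mul_sum, AddChar.sum_eq_ite]
  have h2 : ((χ ^ M)⁻¹ = (0 : AddChar G ℂ)) ↔ χ ^ M = 1 := by
    rw [← AddChar.one_eq_zero, inv_eq_one]
  simp only [h2]
  split_ifs
  · ring
  · ring

end DiamAb
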