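import Mathlib
import Pool.Agent.Lib_MP_0ccc25_pr.Parseval

/-!
Piece COVA. Deterministic bound for the uncovered density when the full weighted family is
exactly uniform modulo `M G`.

PROOF. Write `a χ = phi z T p W χ`, `b χ = phi z (J \ T) p W χ`, so `a χ + b χ = phi z J p W χ`.
Let `A x = Σ_χ a χ χ (-x)` and `B x = Σ_χ b χ χ (-x)`. By `inversion` both are nonnegative reals:
`A x = |G| Σ_{j ∈ T, dot (W j) z = x} p j`, same for `B` with `J \ T`. Let `A_M`, `B_M` be the
sums over `χ ^ M = 1` only. By `coset_avg`, `B_M x` is the average over `y` of `B (x + M • y)`, a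
nonnegative real, and the average over `x` of `B_M x` is `b 1 = Σ_{j ∈ J \ T} p j` (average a
sum of characters; or exchange averages and translate). By hypothesis
`A_M x + B_M x = Σ_{χ ^ M = 1} phi z J p W χ * χ (-x) = 1` (only `χ = 1` contributes, and
`phi z J p W 1 = Σ_J p = 1`).
If `x` is uncovered at radius `R` then `A x = 0` (a word of `T` has length at most `R`). So
`|A x - A_M x| = |A_M x| = |1 - B_M x|`, which is at least `1 / 2` unless `B_M x > 1 / 2`. Hence
`unc z R ≤ pr (B_M > 1 / 2) + pr (|A - A_M| ≥ 1 / 2) ≤ 2 Σ_{J \ T} p + 4 av |A - A_M| ^ 2`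
(Markov), and `av |A - A_M| ^ 2 = Σ_{χ ^ M ≠ 1} ‖a χ‖ ^ 2` by `parseval`.
-/

namespace DiamAb

open Finset

theorem covA_phi_add {G : Type} [AddCommGroup G] {k : ℕ} {ι : Type} [DecidableEq ι]
    (z : Fin k → G) (J T : Finset ι) (hT : T ⊆ J) (p : ι → ℝ) (W : ι → Fin k → ℤ)
    (χ : AddChar G ℂ) :
    phi z J p W χ = phi z T p W χ + phi z (J \ T) p W χ := by
  unfold phi
  rw [add_comm, Finset.sum_sdiff hT]

open Classical in
theorem covA {G : Type} [AddCommGroup G] [Fintype G] {k : ℕ} {ι : Type} (z : Fin k → G)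
    (J T : Finset ι) (hT : T ⊆ J) (p : ι → ℝ) (hp : ∀ j, 0 ≤ p j) (hp1 : ∑ j ∈ J, p j = 1)
    (W : ι → Fin k → ℤ) (R : ℕ) (hR : ∀ j ∈ T, nrm (W j) ≤ R) (M : ℕ)
    (hz : ∀ χ : AddChar G ℂ, χ ≠ 1 → χ ^ M = 1 → phi z J p W χ = 0) :
    unc z R ≤ 2 * ∑ j ∈ J \ T, p j +
      4 * ∑ χ ∈ univ.filter (fun χ : AddChar G ℂ => χ ^ M ≠ 1), ‖phi z T p W χ‖ ^ 2 := by
  have hN : (0 : ℝ) < Fintype.card G := by exact_mod_cast Fintype.card_pos
  have hNC : (Fintype.card G : ℂ) ≠ 0 := by exact_mod_cast Fintype.card_ne_zero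
  -- the real densities
  set pB : G → ℝ := fun x => (Fintype.card G : ℝ) *
    ∑ j ∈ (J \ T).filter (fun j => dot (W j) z = x), p j with hpB
  set bM : G → ℝ := fun x => (∑ y : G, pB (x + M • y)) / Fintype.card G with hbM
  have hpB0 : ∀ x, 0 ≤ pB x := fun x => mul_nonneg hN.le (sum_nonneg fun j _ => hp j)
  have hbM0 : ∀ x, 0 ≤ bM x := fun x => div_nonneg (sum_nonneg fun y _ => hpB0 _) hN.le
  have hBsum : ∑ x : G, pB x = (Fintype.card G : ℝ) * ∑ j ∈ J \ T, p j := by
    rw [hpB]
    simp only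
    rw [← mul_sum]
    congr 1
    exact Finset.sum_fiberwise (J \ T) (fun j => dot (W j) z) p
  have hav : av bM = ∑ j ∈ J \ T, p j := by
    unfold av
    rw [hbM]
    simp only
    rw [← sum_div, sum_comm]
    have h1 : ∀ y : G, ∑ x : G, pB (x + M • y) = ∑ x : G, pB x := fun y =>
      Equiv.sum_comp (Equiv.addRight (M • y)) pB
    rw [sum_congr rfl fun y _ => h1 y, sum_const, card_univ, nsmul_eq_mul, hBsum]
    field_simp
  have hBC : ∀ x, ((bM x : ℝ) : ℂ) =
      ∑ χ ∈ univ.filter (fun χ : AddChar G ℂ => χ ^ M = 1), phi z (J \ T) p W χ * χ (-x) := by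
    intro x
    rw [← coset_avg (fun χ => phi z (J \ T) p W χ) M x]
    rw [hbM]
    simp only
    push_cast
    congr 1
    refine sum_congr rfl fun y _ => ?_
    rw [inversion z (J \ T) p W (x + M • y), hpB]
    push_cast
    rfl
  have hone : ∀ x : G, ∑ χ ∈ univ.filter (fun χ : AddChar G ℂ => χ ^ M = 1),
      phi z J p W χ * χ (-x) = 1 := by
    intro x
    rw [Finset.sum_eq_single (1 : AddChar G ℂ)]
    · have : phi z J p W (1 : AddChar G ℂ) = 1 := by
        unfold phi
        simp only [AddChar.one_apply, mul_one]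
        rw [← Complex.ofReal_sum, hp1]
        simp
      rw [this]
      simp
    · intro χ hχ hne
      rw [hz χ hne (mem_filter.1 hχ).2, zero_mul]
    · intro h
      exfalso
      apply h
      rw [mem_filter]
      exact ⟨mem_univ _, one_pow M⟩
  -- pointwise inequality
  have hpt : ∀ x : G, (if ¬ Reach z R x then (1 : ℝ) else 0) ≤ 2 * bM x +
      4 * ‖∑ χ ∈ univ.filter (fun χ : AddChar G ℂ => χ ^ M ≠ 1),
        phi z T p W χ * χ (-x)‖ ^ 2 := by
    intro x
    by_cases h : Reach z R x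
    · rw [if_neg (not_not.2 h)]
      have := hbM0 x
      positivity
    · rw [if_pos h]
      have hA : ∑ χ : AddChar G ℂ, phi z T p W χ * χ (-x) = 0 := by
        rw [inversion z T p W x]
        have : T.filter (fun j => dot (W j) z = x) = ∅ := by
          rw [filter_eq_empty_iff]
          intro j hj hjx
          exact h ⟨W j, hjx, hR j hj⟩
        rw [this]
        simp
      have hsplit := Finset.sum_filter_add_sum_filter_not (univ : Finset (AddChar G ℂ))
        (fun χ => χ ^ M = 1) (fun χ => phi z T p W χ * χ (-x))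
      rw [hA] at hsplit
      have h1 := hone x
      have h2 : ∑ χ ∈ univ.filter (fun χ : AddChar G ℂ => χ ^ M = 1),
          phi z J p W χ * χ (-x) =
          ∑ χ ∈ univ.filter (fun χ : AddChar G ℂ => χ ^ M = 1), phi z T p W χ * χ (-x)
          + ((bM x : ℝ) : ℂ) := by
        rw [hBC x, ← sum_add_distrib]
        refine sum_congr rfl fun χ _ => ?_
        rw [covA_phi_add z J T hT p W χ]
        ring
      have h3 : ∑ χ ∈ univ.filter (fun χ : AddChar G ℂ => χ ^ M ≠ 1),
          phi z T p W χ * χ (-x) = (((bM x - 1 : ℝ)) : ℂ) := by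
        push_cast
        rw [h2] at h1
        linear_combination hsplit - h1
      rw [h3, Complex.norm_real, Real.norm_eq_abs, sq_abs]
      nlinarith [sq_nonneg (4 * bM x - 3)]
  have hmain : unc z R ≤ av (fun x : G => 2 * bM x +
      4 * ‖∑ χ ∈ univ.filter (fun χ : AddChar G ℂ => χ ^ M ≠ 1),
        phi z T p W χ * χ (-x)‖ ^ 2) := by
    unfold unc
    rw [pr_eq_av]
    exact av_mono hpt
  refine hmain.trans (le_of_eq ?_)
  rw [av_add, av_const_mul, av_const_mul, hav, parseval]

end DiamAb
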