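import Mathlib
import Pool.Agent.Lib_MP_0ccc25_pr.Base

/-!
Piece NFACT. Elementary facts on `NN G g = #{x | g • x = 0}`.

PROOFS.
`NN_zero`, `NN_one`, `NN_pos`, `NN_le_card`: immediate (`0` always satisfies `g • x = 0`).
`NN_range`: for the homomorphism `f x = g • x` (`nsmulAddMonoidHom g`),
 `|ker f| * |range f| = |G|` (first isomorphism theorem, or `AddSubgroup.card_mul_index` with
 `AddSubgroup.index_ker`). The kernel has `NN G g` elements.
`NN_lcm`: with `A = {x | a • x = 0}`, `B = {x | b • x = 0}` (subgroups), `A ⊓ B` is the set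
 killed by `gcd a b`, and `A ⊔ B` is contained in the set killed by `lcm a b`; the addition map
 `A × B → A ⊔ B` has kernel isomorphic to `A ⊓ B`, so `|A| |B| = |A ⊔ B| |A ⊓ B|`
 (injection: `(a, b) ↦ (a + b, ...)`; or
 `AddSubgroup.relIndex` lemmas, or: the fibres of `A × B → G`, `(a, b) ↦ a + b`, have at most
 `|A ⊓ B|` elements and the image lies in `{x | lcm • x = 0}`, which is all that is needed).
`NN_le_pow`: let `d = AddGroup.rank G`. By `NN_range`, `NN G g = |G / gG|` where `gG` is the range
 of multiplication by `g`: `|G| = |gG| * |G / gG|`. `G / gG` is generated by the images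
 `s_1, ..., s_d` of generators of `G` (`AddGroup.rank_spec`), and `g` kills it, so the map
 `(Fin d → Fin g) → G / gG`, `a ↦ Σ a i • s i`, is surjective; hence `|G / gG| ≤ g ^ d`.
`NN_mono_mul`: not needed.
-/

namespace DiamAb

open Finset

variable (G : Type) [AddCommGroup G] [Fintype G]

theorem NN_zero : NN G 0 = Fintype.card G := by
  simp [NN]

theorem NN_one : NN G 1 = 1 := by
  unfold NN
  rw [card_eq_one]
  exact ⟨0, by ext x; simp⟩

theorem NN_pos (g : ℕ) : 0 < NN G g := by
  unfold NN
  rw [card_pos]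
  exact ⟨0, by simp⟩

theorem NN_le_card (g : ℕ) : NN G g ≤ Fintype.card G := by
  unfold NN
  exact card_le_univ _

theorem NN_range [DecidableEq G] (g : ℕ) :
    NN G g * (univ.image fun x : G => g • x).card = Fintype.card G := by
  have h := card_eq_sum_card_image (fun x : G => g • x) univ
  rw [card_univ] at h
  rw [h, mul_comm, ← smul_eq_mul, ← sum_const]
  refine sum_congr rfl fun y hy => ?_
  rw [mem_image] at hy
  obtain ⟨x₀, -, hx₀⟩ := hy
  unfold NN
  refine card_nbij' (fun x => x + x₀) (fun x => x - x₀) ?_ ?_ ?_ ?_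
  · intro x hx
    simp only [coe_filter, mem_univ, true_and, Set.mem_setOf_eq] at hx ⊢
    rw [smul_add, hx, hx₀, zero_add]
  · intro x hx
    simp only [coe_filter, mem_univ, true_and, Set.mem_setOf_eq] at hx ⊢
    rw [smul_sub, hx, hx₀, sub_self]
  · intro x _
    simp
  · intro x _
    simp

theorem NFACT_gcd (a b : ℕ) (x : G) (ha : a • x = 0) (hb : b • x = 0) : Nat.gcd a b • x = 0 := by
  rw [← addOrderOf_dvd_iff_nsmul_eq_zero] at ha hb ⊢
  exact Nat.dvd_gcd ha hb

theorem NFACT_dvd {a b : ℕ} (h : a ∣ b) (x : G) (ha : a • x = 0) : b • x = 0 := by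
  rw [← addOrderOf_dvd_iff_nsmul_eq_zero] at ha ⊢
  exact ha.trans h

theorem NN_lcm (a b : ℕ) : NN G a * NN G b ≤ NN G (Nat.lcm a b) * NN G (Nat.gcd a b) := by
  classical
  have key := card_le_mul_card_image (f := fun q : G × G => q.1 + q.2)
    ((univ.filter fun x : G => a • x = 0) ×ˢ (univ.filter fun x : G => b • x = 0))
    (NN G (Nat.gcd a b)) ?_
  · rw [card_product] at key
    have h2 : (((univ.filter fun x : G => a • x = 0) ×ˢ
        (univ.filter fun x : G => b • x = 0)).image fun q : G × G => q.1 + q.2).card ≤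
        NN G (Nat.lcm a b) := by
      unfold NN
      apply card_le_card
      intro y hy
      simp only [mem_image, mem_product, mem_filter, mem_univ, true_and, Prod.exists] at hy ⊢
      obtain ⟨u, v, ⟨hu, hv⟩, rfl⟩ := hy
      rw [smul_add, NFACT_dvd G (Nat.dvd_lcm_left a b) u hu,
        NFACT_dvd G (Nat.dvd_lcm_right a b) v hv, add_zero]
    have h3 : NN G a * NN G b = (univ.filter fun x : G => a • x = 0).card *
        (univ.filter fun x : G => b • x = 0).card := by
      unfold NN
      congr!
    rw [h3, mul_comm (NN G (Nat.lcm a b))]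
    exact key.trans (Nat.mul_le_mul_left _ h2)
  · intro y hy
    simp only [mem_image, mem_product, mem_filter, mem_univ, true_and, Prod.exists] at hy
    obtain ⟨u₀, v₀, ⟨hu₀, hv₀⟩, rfl⟩ := hy
    unfold NN
    apply card_le_card_of_injOn (fun q : G × G => q.1 - u₀)
    · rintro ⟨u, v⟩ hq
      simp only [coe_filter, mem_product, mem_filter, mem_univ, true_and, Set.mem_setOf_eq] at hq ⊢
      obtain ⟨⟨hu, hv⟩, hs⟩ := hq
      apply NFACT_gcd
      · rw [smul_sub, hu, hu₀, sub_zero]
      · have : u - u₀ = v₀ - v := by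
          rw [sub_eq_sub_iff_add_eq_add, hs, add_comm]
        rw [this, smul_sub, hv, hv₀, sub_zero]
    · rintro ⟨u, v⟩ hq ⟨u', v'⟩ hq' h
      simp only [coe_filter, mem_product, mem_filter, mem_univ, true_and, Set.mem_setOf_eq] at hq hq'
      dsimp only at h
      have h1 : u = u' := sub_left_injective h
      have h2 : v = v' := by
        have := hq.2.trans hq'.2.symm
        rw [h1] at this
        exact add_left_cancel this
      rw [h1, h2]

theorem NFACT_repr (S : Finset G) (x : G) (hx : x ∈ AddSubgroup.closure (S : Set G)) :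
    ∃ n : G → ℤ, x = ∑ s ∈ S, n s • s := by
  classical
  induction hx using AddSubgroup.closure_induction with
  | mem x hx =>
    refine ⟨fun s => if s = x then 1 else 0, ?_⟩
    simp only [ite_smul, one_smul, zero_smul]
    rw [sum_ite_eq' S x (fun s => s), if_pos (by exact_mod_cast hx)]
  | zero => exact ⟨fun _ => 0, by simp⟩
  | add x y _ _ hx hy =>
    obtain ⟨n, hn⟩ := hx
    obtain ⟨m, hm⟩ := hy
    exact ⟨fun s => n s + m s, by simp only [add_smul, sum_add_distrib, ← hn, ← hm]⟩
  | neg x _ hx =>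
    obtain ⟨n, hn⟩ := hx
    exact ⟨fun s => - n s, by simp only [neg_smul, sum_neg_distrib, ← hn]⟩

theorem NN_le_pow (g : ℕ) (hg : 1 ≤ g) : NN G g ≤ g ^ AddGroup.rank G := by
  classical
  obtain ⟨S, hS, hcl⟩ := AddGroup.rank_spec G
  haveI : NeZero g := ⟨by omega⟩
  have hr := NN_range G g
  have hsurj : Function.Surjective
      (fun q : (S → Fin g) × (univ.image fun x : G => g • x) =>
        (∑ s : S, (q.1 s : ℕ) • (s : G)) + (q.2 : G)) := by
    intro x
    obtain ⟨n, hn⟩ := NFACT_repr G S x (by rw [hcl]; trivial)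
    have hg0 : (g : ℤ) ≠ 0 := by exact_mod_cast (by omega : g ≠ 0)
    have hg1 : (0 : ℤ) < g := by exact_mod_cast hg
    refine ⟨(fun s => ⟨(n s % g).toNat, ?_⟩, ⟨g • ∑ s ∈ S, (n s / g) • s,
      mem_image_of_mem _ (mem_univ _)⟩), ?_⟩
    · have h1 := Int.emod_nonneg (n s) hg0
      have h2 := Int.emod_lt_of_pos (n s) hg1
      omega
    · dsimp only
      rw [sum_coe_sort S (fun s => (n s % g).toNat • s), smul_sum, ← sum_add_distrib, hn]
      refine sum_congr rfl fun s _ => ?_
      have h1 := Int.emod_nonneg (n s) hg0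
      have e : ((n s % g).toNat • s : G) = (n s % g) • s := by
        rw [← natCast_zsmul, Int.toNat_of_nonneg h1]
      rw [e, ← natCast_zsmul, smul_smul, ← add_smul, Int.emod_add_mul_ediv]
  have hc := Fintype.card_le_of_surjective _ hsurj
  rw [Fintype.card_prod, Fintype.card_fun, Fintype.card_fin, Fintype.card_coe, Fintype.card_coe,
    hS, ← hr] at hc
  refine Nat.le_of_mul_le_mul_right hc ?_
  rw [card_pos]
  exact ⟨g • 0, mem_image_of_mem _ (mem_univ _)⟩

end DiamAb
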