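import Mathlib
import Pool.Agent.Lib_MP_0ccc25_pr.NFact

/-!
Piece CRIT. The critical modulus. Notation: `σ g = log g - hh G k g`, where
`hh G k g = log (NN G g) / k`, and `S ^ k = |G|`.
-/

namespace DiamAb

variable (G : Type) [AddCommGroup G] [Fintype G]

theorem sig_lower (k r g : ℕ) (hk : AddGroup.rank G + r ≤ k) (hk1 : 1 ≤ k) (hg : 1 ≤ g) :
    (r : ℝ) * Real.log g ≤ k * (Real.log g - hh G k g) := by
  have hkr : (0 : ℝ) < k := by exact_mod_cast hk1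
  have h1 := NN_le_pow G g hg
  have h2 : (0 : ℝ) < NN G g := by exact_mod_cast NN_pos G g
  have h3 : Real.log (NN G g) ≤ AddGroup.rank G * Real.log g := by
    rw [← Real.log_pow]
    apply Real.log_le_log h2
    exact_mod_cast h1
  have h4 : 0 ≤ Real.log g := Real.log_nonneg (by exact_mod_cast hg)
  have h5 : (AddGroup.rank G : ℝ) + r ≤ k := by exact_mod_cast hk
  have h6 : (k : ℝ) * hh G k g = Real.log (NN G g) := by
    unfold hh
    field_simp
  rw [mul_sub, h6]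
  nlinarith

theorem hh_le (k : ℕ) (S : ℝ) (hk1 : 1 ≤ k) (hS0 : 0 < S) (hS : S ^ k = Fintype.card G) (g : ℕ) :
    hh G k g ≤ Real.log S := by
  have hkr : (0 : ℝ) < k := by exact_mod_cast hk1
  have h2 : (0 : ℝ) < NN G g := by exact_mod_cast NN_pos G g
  have h3 : (NN G g : ℝ) ≤ S ^ k := by
    rw [hS]; exact_mod_cast NN_le_card G g
  unfold hh
  rw [div_le_iff₀ hkr]
  calc Real.log (NN G g) ≤ Real.log (S ^ k) := Real.log_le_log h2 h3
    _ = Real.log S * k := by rw [Real.log_pow]; ring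

theorem hh_zero (k : ℕ) (S : ℝ) (hk1 : 1 ≤ k) (hS0 : 0 < S) (hS : S ^ k = Fintype.card G) :
    hh G k 0 = Real.log S := by
  have hkr : (0 : ℝ) < k := by exact_mod_cast hk1
  unfold hh
  rw [NN_zero, ← hS, Real.log_pow]
  field_simp

theorem sig_lcm (k a b : ℕ) (hk : AddGroup.rank G ≤ k) (hk1 : 1 ≤ k) (ha : 1 ≤ a) (hb : 1 ≤ b) :
    Real.log (Nat.lcm a b : ℕ) - hh G k (Nat.lcm a b) ≤
      (Real.log a - hh G k a) + (Real.log b - hh G k b) := by
  have hkr : (0 : ℝ) < k := by exact_mod_cast hk1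
  have h1 := NN_lcm G a b
  have ha2 : (0 : ℝ) < NN G a := by exact_mod_cast NN_pos G a
  have hb2 : (0 : ℝ) < NN G b := by exact_mod_cast NN_pos G b
  have hl2 : (0 : ℝ) < NN G (Nat.lcm a b) := by exact_mod_cast NN_pos G _
  have hg2 : (0 : ℝ) < NN G (Nat.gcd a b) := by exact_mod_cast NN_pos G _
  have h2 : Real.log (NN G a) + Real.log (NN G b) ≤
      Real.log (NN G (Nat.lcm a b)) + Real.log (NN G (Nat.gcd a b)) := by
    rw [← Real.log_mul ha2.ne' hb2.ne', ← Real.log_mul hl2.ne' hg2.ne']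
    apply Real.log_le_log (by positivity)
    exact_mod_cast h1
  have hgpos : 0 < Nat.gcd a b := Nat.gcd_pos_of_pos_left b ha
  have hlpos : 0 < Nat.lcm a b := Nat.lcm_pos ha hb
  have h3 : Real.log (Nat.lcm a b : ℕ) + Real.log (Nat.gcd a b : ℕ) = Real.log a + Real.log b := by
    have e1 : ((Nat.lcm a b : ℕ) : ℝ) ≠ 0 := by exact_mod_cast hlpos.ne'
    have e2 : ((Nat.gcd a b : ℕ) : ℝ) ≠ 0 := by exact_mod_cast hgpos.ne'
    have e3 : (a : ℝ) ≠ 0 := by exact_mod_cast (by omega : a ≠ 0)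
    have e4 : (b : ℝ) ≠ 0 := by exact_mod_cast (by omega : b ≠ 0)
    rw [← Real.log_mul e1 e2, ← Real.log_mul e3 e4]
    congr 1
    have := Nat.gcd_mul_lcm a b
    have h := congrArg (Nat.cast (R := ℝ)) this
    push_cast at h ⊢
    linarith
  have h4 := sig_lower G k 0 (Nat.gcd a b) (by omega) hk1 hgpos
  simp only [Nat.cast_zero, zero_mul] at h4
  have h5 : 0 ≤ Real.log (Nat.gcd a b : ℕ) - hh G k (Nat.gcd a b) := by
    by_contra hc
    push Not at hc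
    have := mul_neg_of_pos_of_neg hkr hc
    linarith
  have h6 : hh G k a + hh G k b ≤ hh G k (Nat.lcm a b) + hh G k (Nat.gcd a b) := by
    unfold hh
    rw [← add_div, ← add_div]
    exact div_le_div_of_nonneg_right h2 hkr.le
  linarith

namespace CritPiece

theorem third : (0.146 : ℝ) ≤ (1 / 3 : ℝ) ^ (7 / 4 : ℝ) := by
  by_contra hc
  push Not at hc
  have h0 : (0 : ℝ) ≤ (1 / 3 : ℝ) ^ (7 / 4 : ℝ) := by positivity
  have h1 : ((1 / 3 : ℝ) ^ (7 / 4 : ℝ)) ^ 4 < 0.146 ^ 4 := pow_lt_pow_left₀ hc h0 (by norm_num)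
  have h2 : ((1 / 3 : ℝ) ^ (7 / 4 : ℝ)) ^ 4 = (1 / 3) ^ 7 := by
    rw [← Real.rpow_natCast, ← Real.rpow_mul (by norm_num), ← Real.rpow_natCast]
    norm_num
  rw [h2] at h1
  norm_num at h1

theorem half : (1 / 2 : ℝ) ^ (7 / 4 : ℝ) ≤ 0.3 := by
  by_contra hc
  push Not at hc
  have h1 : (0.3 : ℝ) ^ 4 < ((1 / 2 : ℝ) ^ (7 / 4 : ℝ)) ^ 4 :=
    pow_lt_pow_left₀ hc (by norm_num) (by norm_num)
  have h2 : ((1 / 2 : ℝ) ^ (7 / 4 : ℝ)) ^ 4 = (1 / 2) ^ 7 := by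
    rw [← Real.rpow_natCast, ← Real.rpow_mul (by norm_num), ← Real.rpow_natCast]
    norm_num
  rw [h2] at h1
  norm_num at h1

theorem fhalf (S Cf x : ℝ) (hx : 0 < x) (hxS : x ≤ 3 * S) (hCf : 8 ≤ Cf) :
    Real.exp (-Cf * (S / x) ^ (7 / 4 : ℝ)) ≤ Real.exp (-Cf * (S / (2 * x)) ^ (7 / 4 : ℝ)) / 2 := by
  have hS : 0 < S := by linarith
  have h1 : (1 / 3 : ℝ) ≤ S / x := by
    rw [le_div_iff₀ hx]; linarith
  have hA : (0.146 : ℝ) ≤ (S / x) ^ (7 / 4 : ℝ) :=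
    third.trans (Real.rpow_le_rpow (by norm_num) h1 (by norm_num))
  have hB : (S / (2 * x)) ^ (7 / 4 : ℝ) ≤ 0.3 * (S / x) ^ (7 / 4 : ℝ) := by
    have e : S / (2 * x) = (1 / 2) * (S / x) := by field_simp
    rw [e, Real.mul_rpow (by norm_num) (by positivity)]
    exact mul_le_mul_of_nonneg_right half (by positivity)
  obtain ⟨A, hAe⟩ : ∃ A, A = (S / x) ^ (7 / 4 : ℝ) := ⟨_, rfl⟩
  obtain ⟨B, hBe⟩ : ∃ B, B = (S / (2 * x)) ^ (7 / 4 : ℝ) := ⟨_, rfl⟩
  rw [← hAe] at hA hB ⊢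
  rw [← hBe] at hB ⊢
  have h2 : Cf * B + 0.8 ≤ Cf * A := by nlinarith
  have h3 : Real.exp (-0.8) ≤ 1 / 2 := by
    have h4 : Real.log 2 < 0.8 := by have := Real.log_two_lt_d9; norm_num at this ⊢; linarith
    calc Real.exp (-0.8) ≤ Real.exp (-Real.log 2) := Real.exp_le_exp.2 (by linarith)
      _ = 1 / 2 := by rw [Real.exp_neg, Real.exp_log (by norm_num)]; norm_num
  calc Real.exp (-Cf * A) ≤ Real.exp (-Cf * B + -0.8) := Real.exp_le_exp.2 (by linarith)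
    _ = Real.exp (-Cf * B) * Real.exp (-0.8) := Real.exp_add _ _
    _ ≤ Real.exp (-Cf * B) * (1 / 2) := by
        apply mul_le_mul_of_nonneg_left h3 (Real.exp_pos _).le
    _ = Real.exp (-Cf * B) / 2 := by ring

theorem fmono (S Cf x y : ℝ) (hS : 0 ≤ S) (hCf : 0 ≤ Cf) (hx : 0 < x) (hxy : x ≤ y) :
    Real.exp (-Cf * (S / x) ^ (7 / 4 : ℝ)) ≤ Real.exp (-Cf * (S / y) ^ (7 / 4 : ℝ)) := by
  apply Real.exp_le_exp.2
  have h1 : S / y ≤ S / x := div_le_div_of_nonneg_left hS hx hxy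
  have h2 : (S / y) ^ (7 / 4 : ℝ) ≤ (S / x) ^ (7 / 4 : ℝ) :=
    Real.rpow_le_rpow (div_nonneg hS (hx.le.trans hxy)) h1 (by norm_num)
  nlinarith

end CritPiece

open CritPiece

theorem crit (k : ℕ) (S Cf : ℝ) (hk : AddGroup.rank G ≤ k) (hk1 : 1 ≤ k) (hS1 : 1 ≤ S)
    (hS : S ^ k = Fintype.card G) (hCf : 8 ≤ Cf) :
    ∃ M : ℕ, 1 ≤ M ∧ (M : ℝ) ≤ 3 * S ∧
      (∀ g : ℕ, 1 ≤ g → ¬ g ∣ M →
        Real.exp (-Cf * (S / (2 * M)) ^ (7 / 4 : ℝ)) / 2 ≤ Real.log g - hh G k g) ∧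
      Real.log M - hh G k M ≤ Real.exp (-Cf * (S / M) ^ (7 / 4 : ℝ)) ∧
      (∀ g : ℕ, M < g → Real.exp (-Cf * (S / g) ^ (7 / 4 : ℝ)) ≤ Real.log g - hh G k g) := by
  have hS0 : 0 < S := by linarith
  let P : Set ℕ := {g | 1 ≤ g ∧ Real.log g - hh G k g ≤ Real.exp (-Cf * (S / g) ^ (7 / 4 : ℝ))}
  have hPle : ∀ g ∈ P, (g : ℝ) ≤ 3 * S := by
    rintro g ⟨h1, h2⟩
    have hgpos : (0 : ℝ) < g := by exact_mod_cast h1
    have h3 := hh_le G k S hk1 hS0 hS g
    have h4 : Real.exp (-Cf * (S / g) ^ (7 / 4 : ℝ)) ≤ 1 := by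
      apply Real.exp_le_one_iff.2
      have : 0 ≤ (S / g) ^ (7 / 4 : ℝ) := by positivity
      nlinarith
    have h5 : Real.log g ≤ 1 + Real.log S := by linarith
    have h6 : Real.log g ≤ Real.log (Real.exp 1 * S) := by
      rw [Real.log_mul (Real.exp_pos _).ne' hS0.ne', Real.log_exp]
      exact h5
    have h7 : (g : ℝ) ≤ Real.exp 1 * S :=
      (Real.log_le_log_iff hgpos (by positivity)).1 h6
    have h8 : Real.exp 1 < 3 := by
      have := Real.exp_one_lt_d9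
      linarith
    nlinarith
  have hfin : P.Finite := by
    apply Set.Finite.subset (Set.finite_Iic ⌊3 * S⌋₊)
    intro g hg
    exact Nat.le_floor (hPle g hg)
  have hne : P.Nonempty := by
    refine ⟨1, le_refl 1, ?_⟩
    unfold hh
    rw [NN_one]
    simp only [Nat.cast_one, Real.log_one, zero_div, sub_zero]
    exact (Real.exp_pos _).le
  obtain ⟨M, hMP, hMmax⟩ := Set.exists_max_image P (fun g => g) hfin hne
  have hM1 : 1 ≤ M := hMP.1
  have hMpos : (0 : ℝ) < M := by exact_mod_cast hM1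
  have hM3 := hPle M hMP
  refine ⟨M, hM1, hM3, ?_, hMP.2, ?_⟩
  · intro g hg hgM
    by_contra hc
    push Not at hc
    have hl := sig_lcm G k g M hk hk1 hg hM1
    have hML : M ∣ Nat.lcm g M := Nat.dvd_lcm_right g M
    have hne' : Nat.lcm g M ≠ M := by
      intro h
      apply hgM
      rw [← h]
      exact Nat.dvd_lcm_left g M
    have hLpos : 0 < Nat.lcm g M := Nat.lcm_pos hg hM1
    have h2M : 2 * M ≤ Nat.lcm g M := by
      obtain ⟨t, ht⟩ := hML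
      rw [ht] at hne' hLpos ⊢
      have ht0 : t ≠ 0 := by rintro rfl; simp at hLpos
      have ht1 : t ≠ 1 := by rintro rfl; simp at hne'
      have : 2 ≤ t := by omega
      nlinarith
    have hfM := fhalf S Cf M hMpos hM3 hCf
    have hfL := fmono S Cf (2 * M) (Nat.lcm g M : ℕ) hS0.le (by linarith) (by positivity)
      (by exact_mod_cast h2M)
    have hPL : Nat.lcm g M ∈ P := by
      refine ⟨hLpos, ?_⟩
      have := hMP.2
      linarith
    have := hMmax _ hPL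
    omega
  · intro g hg
    by_contra hc
    push Not at hc
    have hPg : g ∈ P := ⟨by omega, hc.le⟩
    have := hMmax _ hPg
    omega

end DiamAb
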