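import Mathlib
import Pool.Agent.Lib_MP_0ccc25_pr.Base

/-!
Piece CARDCHAR. The number of characters with `χ ^ g = 1` is `NN G g`.

PROOF. By orthogonality (`AddChar.expect_eq_ite` / `AddChar.sum_eq_ite`, applied to `χ ^ g`),
`[χ ^ g = 1] = (1 / |G|) Σ_x (χ ^ g) x = (1 / |G|) Σ_x χ (g • x)`
(`AddChar.pow_apply`, `AddChar.map_nsmul_eq_pow`). Sum over `χ`, exchange the sums and use
`AddChar.sum_apply_eq_ite`: `Σ_χ χ (g • x) = |G|` if `g • x = 0`, else `0`. So the number is
`#{x | g • x = 0}` (an identity of complex numbers; cast back to naturals).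
The second statement follows: `orderOf χ = g` implies `χ ^ g = 1`.
-/

namespace DiamAb

open Finset

open Classical in
theorem card_char (G : Type) [AddCommGroup G] [Fintype G] (g : ℕ) :
    (univ.filter fun χ : AddChar G ℂ => χ ^ g = 1).card = NN G g := by
  have hG : (Fintype.card G : ℂ) ≠ 0 := by exact_mod_cast Fintype.card_ne_zero
  have h1 : ∑ χ : AddChar G ℂ, ∑ x : G, χ (g • x)
      = (Fintype.card G : ℂ) * ((univ.filter fun χ : AddChar G ℂ => χ ^ g = 1).card : ℂ) := by
    have h2 : ∀ χ : AddChar G ℂ, ∑ x : G, χ (g • x)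
        = (Fintype.card G : ℂ) * (if χ ^ g = 1 then 1 else 0) := by
      intro χ
      have h3 : ∑ x : G, χ (g • x) = ∑ x : G, (χ ^ g) x :=
        sum_congr rfl fun x _ => by rw [AddChar.pow_apply, AddChar.map_nsmul_eq_pow]
      rw [h3, AddChar.sum_eq_ite]
      by_cases h4 : χ ^ g = 1
      · rw [if_pos h4, if_pos (by rw [h4]; rfl), mul_one]
      · rw [if_neg h4, if_neg (fun h5 => h4 (by rw [h5]; rfl)), mul_zero]
    rw [sum_congr rfl fun χ _ => h2 χ, ← mul_sum, sum_boole]
  have h5 : ∑ χ : AddChar G ℂ, ∑ x : G, χ (g • x)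
      = (Fintype.card G : ℂ) * ((NN G g : ℕ) : ℂ) := by
    rw [sum_comm]
    have h6 : ∀ x : G, ∑ χ : AddChar G ℂ, χ (g • x)
        = (Fintype.card G : ℂ) * (if g • x = 0 then 1 else 0) := by
      intro x
      rw [AddChar.sum_apply_eq_ite]
      split_ifs <;> simp
    rw [sum_congr rfl fun x _ => h6 x, ← mul_sum, sum_boole]
    unfold NN
    congr!
  rw [h1] at h5
  exact_mod_cast mul_left_cancel₀ hG h5

open Classical in
theorem card_char_ord (G : Type) [AddCommGroup G] [Fintype G] (g : ℕ) :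
    (univ.filter fun χ : AddChar G ℂ => orderOf χ = g).card ≤ NN G g := by
  rw [← card_char]
  apply card_le_card
  intro χ hχ
  rw [mem_filter] at hχ ⊢
  refine ⟨hχ.1, ?_⟩
  rw [← hχ.2]
  exact pow_orderOf_eq_one χ

end DiamAb
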