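import Mathlib
import Pool.Agent.Lib_MP_0ccc25_pr.Base

/-!
Piece EQUI. The values of a character of order `g` are equidistributed on the `g`-th roots of
unity.

PROOF. Let `g = orderOf χ ≥ 1`. For every `y`, `χ y ^ g = (χ ^ g) y = 1`, so `χ y` is a `g`-th
root of unity, i.e. equal to `e1 (a / g)` for a unique `a < g`
(`Complex.mem_rootsOfUnity` / `Complex.isPrimitiveRoot_exp`,
`IsPrimitiveRoot.eq_pow_of_pow_eq_one`; note `e1 (a / g) = e1 (1 / g) ^ a`). The image of the
homomorphism `χ : Multiplicative G → ℂˣ` is a finite subgroup `H` of the `g`-th roots of unity,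
its order `h` divides `g` and `χ ^ h = 1`, so `g ∣ h` and `h = g`: all roots occur. All fibres of a
homomorphism onto its image have the same number of elements, here `|G| / g`. Therefore
`Σ_y F (χ y) = (|G| / g) Σ_{a < g} F (e1 (a / g))`.
-/

namespace DiamAb

open Finset

theorem equi_roots {g : ℕ} (hg : 0 < g) {ζ w : ℂ} (hζ : IsPrimitiveRoot ζ g) (hw : w ^ g = 1)
    (F : ℂ → ℝ) :
    ∑ a ∈ range g, F (w * ζ ^ a) = ∑ x ∈ Polynomial.nthRootsFinset g (1 : ℂ), F x := by
  classical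
  have hw0 : w ≠ 0 := by
    rintro rfl
    rw [zero_pow hg.ne'] at hw
    exact zero_ne_one hw
  have hinj : Set.InjOn (fun a : ℕ => w * ζ ^ a) (range g : Set ℕ) := by
    intro a ha b hb hab
    have h1 : ζ ^ a = ζ ^ b := mul_left_cancel₀ hw0 hab
    exact hζ.pow_inj (mem_range.mp ha) (mem_range.mp hb) h1
  have himg : (range g).image (fun a : ℕ => w * ζ ^ a) = Polynomial.nthRootsFinset g (1 : ℂ) := by
    apply Finset.eq_of_subset_of_card_le
    · intro x hx
      obtain ⟨a, _, rfl⟩ := mem_image.mp hx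
      rw [Polynomial.mem_nthRootsFinset hg]
      rw [mul_pow, hw, one_mul, ← pow_mul, mul_comm, pow_mul, hζ.pow_eq_one, one_pow]
    · rw [hζ.card_nthRootsFinset, card_image_of_injOn hinj, card_range]
  rw [← himg, sum_image hinj]

theorem exists_prim {G : Type} [AddCommGroup G] [Fintype G] (χ : AddChar G ℂ) :
    ∃ y : G, IsPrimitiveRoot (χ y) (orderOf χ) := by
  classical
  set f : Multiplicative G →* ℂˣ := (χ.toMonoidHom).toHomUnits with hf
  have hfv : ∀ y : G, ((f (Multiplicative.ofAdd y) : ℂˣ) : ℂ) = χ y := fun y => rfl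
  have hfin : Finite f.range := inferInstance
  obtain ⟨h, hh⟩ := Monoid.exists_orderOf_eq_exponent (G := f.range)
    (Monoid.ExponentExists.of_finite)
  obtain ⟨y0, hy0⟩ := h.2
  have h1 : χ ^ (Monoid.exponent f.range) = 1 := by
    ext y
    rw [AddChar.pow_apply]
    have h2 : (⟨f (Multiplicative.ofAdd y), ⟨_, rfl⟩⟩ : f.range) ^ (Monoid.exponent f.range) = 1 :=
      Monoid.pow_exponent_eq_one _
    have h3 := congrArg (fun u : f.range => ((u : ℂˣ) : ℂ)) h2
    simpa [hfv] using h3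
  have h2 : orderOf χ ∣ orderOf h := by
    rw [hh]
    exact orderOf_dvd_of_pow_eq_one h1
  have h3 : orderOf h ∣ orderOf χ := by
    apply orderOf_dvd_of_pow_eq_one
    apply Subtype.ext
    apply Units.ext
    have h4 : ((h : ℂˣ) : ℂ) = χ (Multiplicative.toAdd y0) := by
      rw [← hy0]
      rfl
    have h5 : (χ ^ (orderOf χ)) (Multiplicative.toAdd y0) = 1 := by
      rw [pow_orderOf_eq_one]
      rfl
    rw [AddChar.pow_apply] at h5
    push_cast
    rw [h4, h5]
  have h4 : orderOf h = orderOf χ := Nat.dvd_antisymm h3 h2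
  refine ⟨Multiplicative.toAdd y0, ?_⟩
  rw [← h4]
  have h5 : IsPrimitiveRoot h (orderOf h) := IsPrimitiveRoot.orderOf h
  have h6 : IsPrimitiveRoot ((h : ℂˣ)) (orderOf h) :=
    h5.map_of_injective (f := f.range.subtype) Subtype.val_injective
  have h7 : IsPrimitiveRoot (((h : ℂˣ) : ℂ)) (orderOf h) :=
    IsPrimitiveRoot.coe_units_iff.mpr h6
  have h8 : ((h : ℂˣ) : ℂ) = χ (Multiplicative.toAdd y0) := by
    rw [← hy0]
    rfl
  rwa [h8] at h7

theorem equi {G : Type} [AddCommGroup G] [Fintype G] (χ : AddChar G ℂ) (g : ℕ)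
    (hg : orderOf χ = g) (F : ℂ → ℝ) :
    av (fun y : G => F (χ y)) = (∑ a ∈ range g, F (e1 ((a : ℝ) / g))) / g := by
  classical
  have hg0 : 0 < g := by
    rw [← hg]
    exact orderOf_pos χ
  have hgR : (0 : ℝ) < g := by exact_mod_cast hg0
  obtain ⟨y0, hy0⟩ := exists_prim χ
  rw [hg] at hy0
  have hroot : ∀ y : G, (χ y) ^ g = 1 := by
    intro y
    rw [← AddChar.pow_apply, ← hg, pow_orderOf_eq_one]
    rfl
  have hS : ∑ a ∈ range g, F (e1 ((a : ℝ) / g)) =
      ∑ x ∈ Polynomial.nthRootsFinset g (1 : ℂ), F x := by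
    rw [← equi_roots hg0 (Complex.isPrimitiveRoot_exp g hg0.ne') (one_pow g) F]
    refine sum_congr rfl fun a _ => ?_
    congr 1
    unfold e1
    rw [one_mul, ← Complex.exp_nat_mul]
    congr 1
    push_cast
    ring
  have hshift : ∀ a : ℕ, ∑ y : G, F (χ y) = ∑ y : G, F (χ y * χ y0 ^ a) := by
    intro a
    rw [← Equiv.sum_comp (Equiv.addRight (a • y0))]
    refine sum_congr rfl fun y _ => ?_
    rw [Equiv.coe_addRight, AddChar.map_add_eq_mul, AddChar.map_nsmul_eq_pow]
  have hmain : (g : ℝ) * ∑ y : G, F (χ y) =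
      (Fintype.card G : ℝ) * ∑ x ∈ Polynomial.nthRootsFinset g (1 : ℂ), F x := by
    calc (g : ℝ) * ∑ y : G, F (χ y) = ∑ a ∈ range g, ∑ y : G, F (χ y) := by
          rw [sum_const, card_range, nsmul_eq_mul]
      _ = ∑ a ∈ range g, ∑ y : G, F (χ y * χ y0 ^ a) := sum_congr rfl fun a _ => hshift a
      _ = ∑ y : G, ∑ a ∈ range g, F (χ y * χ y0 ^ a) := sum_comm
      _ = ∑ _y : G, ∑ x ∈ Polynomial.nthRootsFinset g (1 : ℂ), F x :=
          sum_congr rfl fun y _ => equi_roots hg0 hy0 (hroot y) F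
      _ = _ := by rw [sum_const, card_univ, nsmul_eq_mul]
  have hcG : (0 : ℝ) < Fintype.card G := by exact_mod_cast Fintype.card_pos
  unfold av
  rw [hS, div_eq_div_iff hcG.ne' hgR.ne', mul_comm, hmain, mul_comm]

end DiamAb
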