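import Mathlib
import Pool.Agent.Lib_MP_0ccc25_pr.Equi
import Pool.Agent.Lib_MP_0ccc25_pr.CardChar
import Pool.Agent.Lib_MP_0ccc25_pr.NFact

/-!
Piece KILL. Probability that a nontrivial character of order dividing `M` is trivial on all
generators.

PROOF. For a character of order `g` the probability that `χ (z i) = 1` for all `i` is
`(1 / g) ^ k` (independence over coordinates, and `equi` with `F ζ = [ζ = 1]`, for which the sum
over `a < g` is `1`). Union bound over the characters with `χ ≠ 1`, `χ ^ M = 1`: their orders `g`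
satisfy `2 ≤ g ≤ M`, there are at most `NN G g ≤ g ^ rank` of order `g` (`card_char_ord`,
`NN_le_pow`), so the probability is at most
`Σ_{g = 2}^{M} g ^ rank / g ^ k ≤ Σ g ^ (-r) ≤ 2 ^ (-(r - 2)) Σ_{g ≥ 2} g ^ (-2)
≤ 2 ^ (-(r - 2)) = 4 (1 / 2) ^ r`, using `Σ_{g = 2}^{M} 1 / g ^ 2 ≤ Σ (1 / (g - 1) - 1 / g) ≤ 1`.
-/

namespace DiamAb

open Finset

/-- union bound over a finite set of indices -/
theorem kill_union {Ω ι : Type} [Fintype Ω] (S : Finset ι) (P : ι → Ω → Prop) :
    pr (fun ω => ∃ i ∈ S, P i ω) ≤ ∑ i ∈ S, pr (P i) := by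
  classical
  induction S using Finset.induction_on with
  | empty =>
    simp only [notMem_empty, false_and, exists_false, sum_empty]
    rw [pr_def]
    simp
  | insert a s ha ih =>
    rw [sum_insert ha]
    calc pr (fun ω => ∃ i ∈ insert a s, P i ω)
        ≤ pr (fun ω => P a ω ∨ ∃ i ∈ s, P i ω) := by
          apply pr_mono
          rintro ω ⟨i, hi, h⟩
          rcases mem_insert.mp hi with rfl | hi
          · exact Or.inl h
          · exact Or.inr ⟨i, hi, h⟩
      _ ≤ pr (P a) + pr (fun ω => ∃ i ∈ s, P i ω) := pr_or_le _ _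
      _ ≤ _ := by linarith

/-- independence over the coordinates -/
theorem kill_indep {G : Type} [Fintype G] (k : ℕ) (P : G → Prop) :
    pr (fun z : Fin k → G => ∀ i, P (z i)) = (pr P) ^ k := by
  classical
  rw [pr_def, pr_def]
  have e : (univ.filter fun z : Fin k → G => ∀ i, P (z i))
      = Fintype.piFinset (fun _ : Fin k => univ.filter P) := by
    ext z
    simp [Fintype.mem_piFinset]
  rw [e, Fintype.card_piFinset, Fintype.card_fun]
  simp [div_pow]

theorem kill_e1 {g a : ℕ} (ha : a < g) : e1 ((a : ℝ) / g) = 1 ↔ a = 0 := by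
  have hg : (0 : ℝ) < g := by
    have : 0 < g := by omega
    exact_mod_cast this
  have hgc : (g : ℂ) ≠ 0 := by exact_mod_cast hg.ne'
  unfold e1
  rw [Complex.exp_eq_one_iff]
  constructor
  · rintro ⟨n, hn⟩
    have h2 : (((a : ℝ) / g : ℝ) : ℂ) = n := by
      have h3 : (2 * (Real.pi : ℂ) * Complex.I) ≠ 0 := by
        simp [Real.pi_ne_zero, Complex.I_ne_zero]
      apply mul_left_cancel₀ h3
      rw [hn]
      ring
    have h4 : (a : ℝ) / g = n := by exact_mod_cast h2
    have h5 : (a : ℝ) = n * g := by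
      rw [div_eq_iff hg.ne'] at h4
      exact h4
    have h6 : (a : ℤ) = n * g := by exact_mod_cast h5
    have h7 : (g : ℤ) ∣ a := ⟨n, by rw [h6]; ring⟩
    have h8 : g ∣ a := by exact_mod_cast h7
    exact Nat.eq_zero_of_dvd_of_lt h8 ha
  · rintro rfl
    exact ⟨0, by simp⟩

theorem kill_one {G : Type} [AddCommGroup G] [Fintype G] (χ : AddChar G ℂ) :
    pr (fun y : G => χ y = 1) = 1 / (orderOf χ : ℝ) := by
  classical
  have hpos : 0 < orderOf χ := orderOf_pos χ
  rw [pr_eq_av]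
  have h := equi χ (orderOf χ) rfl (fun ζ : ℂ => if ζ = 1 then (1 : ℝ) else 0)
  rw [h]
  congr 1
  rw [sum_eq_single_of_mem 0 (mem_range.mpr hpos)]
  · rw [if_pos]
    rw [kill_e1 hpos]
  · intro b hb hb0
    rw [if_neg]
    rw [kill_e1 (mem_range.mp hb)]
    exact hb0

theorem kill_sum_sq (M : ℕ) (hM : 1 ≤ M) :
    ∑ g ∈ Icc 2 M, (1 : ℝ) / (g : ℝ) ^ 2 ≤ 1 - 1 / M := by
  induction M, hM using Nat.le_induction with
  | base => simp
  | succ m hm ih =>
    rw [Finset.sum_Icc_succ_top (by omega)]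
    have hm' : (0 : ℝ) < m := by exact_mod_cast hm
    push_cast
    have h1 : (1 : ℝ) / ((m : ℝ) + 1) ^ 2 ≤ 1 / m - 1 / (m + 1) := by
      rw [div_sub_div _ _ hm'.ne' (by positivity)]
      rw [div_le_div_iff₀ (by positivity) (by positivity)]
      nlinarith
    linarith

theorem kill {G : Type} [AddCommGroup G] [Fintype G] (k r M : ℕ) (hM : 1 ≤ M) (hr : 2 ≤ r)
    (hk : AddGroup.rank G + r ≤ k) :
    pr (fun z : Fin k → G => ∃ χ : AddChar G ℂ, χ ≠ 1 ∧ χ ^ M = 1 ∧ ∀ i, χ (z i) = 1) ≤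
      4 * (1 / 2 : ℝ) ^ r := by
  classical
  set S : Finset (AddChar G ℂ) := univ.filter fun χ => χ ≠ 1 ∧ χ ^ M = 1 with hS
  have h1 : pr (fun z : Fin k → G => ∃ χ : AddChar G ℂ, χ ≠ 1 ∧ χ ^ M = 1 ∧ ∀ i, χ (z i) = 1)
      ≤ ∑ χ ∈ S, (1 / (orderOf χ : ℝ)) ^ k := by
    calc pr (fun z : Fin k → G => ∃ χ : AddChar G ℂ, χ ≠ 1 ∧ χ ^ M = 1 ∧ ∀ i, χ (z i) = 1)
        ≤ pr (fun z : Fin k → G => ∃ χ ∈ S, ∀ i, χ (z i) = 1) := by
          apply pr_mono
          rintro z ⟨χ, h1, h2, h3⟩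
          exact ⟨χ, by rw [hS, mem_filter]; exact ⟨mem_univ _, h1, h2⟩, h3⟩
      _ ≤ ∑ χ ∈ S, pr (fun z : Fin k → G => ∀ i, χ (z i) = 1) :=
          kill_union (Ω := Fin k → G) S (fun (χ : AddChar G ℂ) (z : Fin k → G) => ∀ i, χ (z i) = 1)
      _ = ∑ χ ∈ S, (1 / (orderOf χ : ℝ)) ^ k := by
          apply sum_congr rfl
          intro χ _
          rw [kill_indep k (fun y : G => χ y = 1), kill_one]
  have hord : ∀ χ ∈ S, orderOf χ ∈ Icc 2 M := by
    intro χ hχ
    rw [hS, mem_filter] at hχ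
    obtain ⟨_, h1, h2⟩ := hχ
    have h3 : orderOf χ ∣ M := orderOf_dvd_of_pow_eq_one h2
    have h4 : orderOf χ ≤ M := Nat.le_of_dvd hM h3
    have h5 : 0 < orderOf χ := orderOf_pos χ
    have h6 : orderOf χ ≠ 1 := by
      rw [Ne, orderOf_eq_one_iff]; exact h1
    rw [mem_Icc]
    omega
  have h2 : ∑ χ ∈ S, (1 / (orderOf χ : ℝ)) ^ k
      ≤ ∑ g ∈ Icc 2 M, (1 / (g : ℝ) ^ 2) * (1 / 2 : ℝ) ^ (r - 2) := by
    rw [← sum_fiberwise_of_maps_to hord]
    apply sum_le_sum
    intro g hg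
    rw [mem_Icc] at hg
    have hg0 : (0 : ℝ) < g := by
      have : 0 < g := by omega
      exact_mod_cast this
    have hg2 : (2 : ℝ) ≤ g := by exact_mod_cast hg.1
    calc ∑ χ ∈ S with orderOf χ = g, (1 / (orderOf χ : ℝ)) ^ k
        = ∑ χ ∈ S with orderOf χ = g, (1 / (g : ℝ)) ^ k := by
          apply sum_congr rfl
          intro χ hχ
          rw [(mem_filter.mp hχ).2]
      _ = ((S.filter fun χ => orderOf χ = g).card : ℝ) * (1 / (g : ℝ)) ^ k := by
          rw [sum_const, nsmul_eq_mul]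
      _ ≤ (g : ℝ) ^ AddGroup.rank G * (1 / (g : ℝ)) ^ k := by
          apply mul_le_mul_of_nonneg_right _ (by positivity)
          have h3 : (S.filter fun χ => orderOf χ = g).card
              ≤ (univ.filter fun χ : AddChar G ℂ => orderOf χ = g).card :=
            card_le_card (filter_subset_filter _ (subset_univ _))
          have h4 := card_char_ord G g
          have h5 := NN_le_pow G g (by omega)
          have h6 : (S.filter fun χ => orderOf χ = g).card ≤ g ^ AddGroup.rank G := by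
            refine h3.trans (le_trans ?_ h5)
            convert h4
          exact_mod_cast h6
      _ ≤ (1 / (g : ℝ)) ^ r := by
          have h7 : k = AddGroup.rank G + r + (k - AddGroup.rank G - r) := by omega
          rw [h7, pow_add, pow_add]
          have h8 : (g : ℝ) ^ AddGroup.rank G * (1 / (g : ℝ)) ^ AddGroup.rank G = 1 := by
            rw [← mul_pow, mul_one_div_cancel hg0.ne', one_pow]
          have h9 : (1 / (g : ℝ)) ^ (k - AddGroup.rank G - r) ≤ 1 := by
            apply pow_le_one₀ (by positivity)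
            rw [div_le_one hg0]; linarith
          calc (g : ℝ) ^ AddGroup.rank G * ((1 / (g : ℝ)) ^ AddGroup.rank G * (1 / (g : ℝ)) ^ r
                * (1 / (g : ℝ)) ^ (k - AddGroup.rank G - r))
              = ((g : ℝ) ^ AddGroup.rank G * (1 / (g : ℝ)) ^ AddGroup.rank G)
                * (1 / (g : ℝ)) ^ r * (1 / (g : ℝ)) ^ (k - AddGroup.rank G - r) := by ring
            _ ≤ (1 / (g : ℝ)) ^ r := by
                rw [h8, one_mul]
                apply mul_le_of_le_one_right (by positivity) h9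
      _ = (1 / (g : ℝ) ^ 2) * (1 / (g : ℝ)) ^ (r - 2) := by
          have h7 : r = 2 + (r - 2) := by omega
          conv_lhs => rw [h7, pow_add]
          rw [div_pow, one_pow]
      _ ≤ (1 / (g : ℝ) ^ 2) * (1 / 2 : ℝ) ^ (r - 2) := by
          apply mul_le_mul_of_nonneg_left _ (by positivity)
          apply pow_le_pow_left₀ (by positivity)
          apply one_div_le_one_div_of_le (by norm_num) hg2
  refine h1.trans (h2.trans ?_)
  rw [← sum_mul]
  have h3 := kill_sum_sq M hM
  have h4 : ∑ g ∈ Icc 2 M, (1 : ℝ) / (g : ℝ) ^ 2 ≤ 1 := by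
    have : (0 : ℝ) ≤ 1 / M := by positivity
    linarith
  have h5 : (4 : ℝ) * (1 / 2) ^ r = (1 / 2) ^ (r - 2) := by
    have h7 : r = 2 + (r - 2) := by omega
    conv_lhs => rw [h7, pow_add]
    ring
  rw [h5]
  calc (∑ g ∈ Icc 2 M, (1 : ℝ) / (g : ℝ) ^ 2) * (1 / 2) ^ (r - 2)
      ≤ 1 * (1 / 2) ^ (r - 2) := by
        apply mul_le_mul_of_nonneg_right h4; positivity
    _ = _ := one_mul _

end DiamAb
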