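import Mathlib
import Pool.Agent.Lib_MP_0ccc25_pr.Base

/-!
Piece EXCHAR. Joint expectation of characters of words, over uniform generators.

PROOF. `χ (dot w z) = Π_i χ (z i) ^ (w i) = Π_i (χ ^ (w i)) (z i)` (`AddChar.map_sum_eq_prod`,
`AddChar.map_zsmul_eq_zpow`, and evaluation of powers of characters, `AddChar.zpow_apply`). Hence
`Π_s χ_s (dot (w s) z) = Π_i (Π_s χ_s ^ (w s i)) (z i)`, and the sum over `z : Fin k → G` of a
product over `i` of functions of `z i` is the product of the sums (`Finset.prod_univ_sum` or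
`Fintype.prod_sum` / `Finset.sum_prod_piFinset`). Each factor is `|G|` if
`Π_s χ_s ^ (w s i) = 1` and `0` otherwise (`AddChar.sum_eq_ite`; note `1` and `0` are the same
trivial character). Divide by `|G| ^ k`.
-/

namespace DiamAb

open Finset

theorem exchar_map_sum {G ι : Type} [AddCommGroup G] (χ : AddChar G ℂ) (s : Finset ι)
    (f : ι → G) : χ (∑ i ∈ s, f i) = ∏ i ∈ s, χ (f i) := by
  classical
  induction s using Finset.induction_on with
  | empty => simp
  | insert a s ha ih => rw [sum_insert ha, prod_insert ha, AddChar.map_add_eq_mul, ih]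

theorem char_dot {G : Type} [AddCommGroup G] {k : ℕ} (χ : AddChar G ℂ) (w : Fin k → ℤ)
    (z : Fin k → G) : χ (dot w z) = ∏ i, (χ (z i)) ^ (w i) := by
  unfold dot
  rw [exchar_map_sum]
  exact prod_congr rfl fun i _ => AddChar.map_zsmul_eq_zpow _ _ _

theorem exchar_prod_apply {G ι : Type} [AddCommGroup G] (s : Finset ι) (ψ : ι → AddChar G ℂ)
    (a : G) : (∏ i ∈ s, ψ i) a = ∏ i ∈ s, ψ i a := by
  rw [AddChar.coe_prod, Finset.prod_apply]

theorem ex_char {G : Type} [AddCommGroup G] [Fintype G] {n k : ℕ} (χ : Fin n → AddChar G ℂ)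
    (w : Fin n → Fin k → ℤ) [Decidable (∀ i, ∏ s, (χ s) ^ (w s i) = 1)] :
    (∑ z : Fin k → G, ∏ s, χ s (dot (w s) z)) / (Fintype.card G : ℂ) ^ k =
      if ∀ i, ∏ s, (χ s) ^ (w s i) = 1 then 1 else 0 := by
  classical
  have h1 : ∀ z : Fin k → G, ∏ s, χ s (dot (w s) z) = ∏ i, (∏ s, (χ s) ^ (w s i)) (z i) := by
    intro z
    rw [prod_congr rfl fun s _ => char_dot (χ s) (w s) z, prod_comm]
    refine prod_congr rfl fun i _ => ?_
    rw [exchar_prod_apply]
    exact prod_congr rfl fun s _ => (AddChar.zpow_apply _ _ _).symm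
  rw [sum_congr rfl fun z _ => h1 z]
  have h2 : ∑ z : Fin k → G, ∏ i, (∏ s, (χ s) ^ (w s i)) (z i)
      = ∏ i, ∑ x : G, (∏ s, (χ s) ^ (w s i)) x := by
    rw [Finset.prod_univ_sum]
    simp [Fintype.piFinset_univ]
  rw [h2]
  have hG : (Fintype.card G : ℂ) ≠ 0 := by exact_mod_cast Fintype.card_ne_zero
  split_ifs with h
  · have h3 : ∀ i, ∑ x : G, (∏ s, (χ s) ^ (w s i)) x = Fintype.card G := by
      intro i
      rw [h i]
      simp
    rw [prod_congr rfl fun i _ => h3 i, prod_const, card_univ, Fintype.card_fin]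
    exact div_self (pow_ne_zero _ hG)
  · push Not at h
    obtain ⟨i, hi⟩ := h
    have h3 : ∑ x : G, (∏ s, (χ s) ^ (w s i)) x = 0 := by
      rw [AddChar.sum_eq_zero_iff_ne_zero]
      exact hi
    rw [prod_eq_zero (mem_univ i) h3, zero_div]

/-- the case of one character -/
theorem ex_char_one {G : Type} [AddCommGroup G] [Fintype G] {k : ℕ} (χ : AddChar G ℂ)
    (w : Fin k → ℤ) [Decidable (∀ i, (orderOf χ : ℤ) ∣ w i)] :
    (∑ z : Fin k → G, χ (dot w z)) / (Fintype.card G : ℂ) ^ k =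
      if ∀ i, (orderOf χ : ℤ) ∣ w i then 1 else 0 := by
  classical
  have h := ex_char (fun _ : Fin 1 => χ) (fun _ : Fin 1 => w)
  simp only [univ_unique, Fin.default_eq_zero, Fin.isValue, prod_singleton] at h
  rw [h]
  have h2 : (∀ i, χ ^ w i = 1) ↔ ∀ i, (orderOf χ : ℤ) ∣ w i :=
    forall_congr' fun i => orderOf_dvd_iff_zpow_eq_one.symm
  by_cases h3 : ∀ i, (orderOf χ : ℤ) ∣ w i
  · rw [if_pos h3, if_pos (h2.2 h3)]
  · rw [if_neg h3, if_neg (fun h4 => h3 (h2.1 h4))]

end DiamAb
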