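import Mathlib
import Pool.Agent.Lib_MP_0ccc25_pr.ExChar

/-!
Piece GL2. Second moment of a characteristic sum.

PROOF. `‖φ‖ ^ 2 = φ * conj φ` and `conj (χ y) = χ (-y)` (`AddChar.map_neg_eq_conj`), so
`‖phi‖ ^ 2 = Σ_{j, j'} p j p j' χ (dot (W j - W j') z)` (`dot_sub`, `dot_neg`). Average over `z`
and use `ex_char_one` for `W j - W j'` (an identity in `ℂ`; take real parts).
-/

namespace DiamAb

open Finset

open Classical in
theorem gl2 {G : Type} [AddCommGroup G] [Fintype G] {k : ℕ} {ι : Type} (J : Finset ι) (p : ι → ℝ)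
    (W : ι → Fin k → ℤ) (χ : AddChar G ℂ) :
    av (fun z : Fin k → G => ‖phi z J p W χ‖ ^ 2) =
      ∑ j ∈ J, ∑ j' ∈ J, p j * p j' *
        (if ∀ i, (orderOf χ : ℤ) ∣ W j i - W j' i then (1 : ℝ) else 0) := by
  have hpt : ∀ z : Fin k → G, (((‖phi z J p W χ‖ ^ 2 : ℝ)) : ℂ)
      = ∑ j ∈ J, ∑ j' ∈ J, ((p j * p j' : ℝ) : ℂ) * χ (dot (W j - W j') z) := by
    intro z
    have h1 : (((‖phi z J p W χ‖ ^ 2 : ℝ)) : ℂ)
        = phi z J p W χ * (starRingEnd ℂ) (phi z J p W χ) := by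
      rw [Complex.mul_conj, Complex.normSq_eq_norm_sq]
    rw [h1]
    unfold phi
    rw [map_sum, sum_mul_sum]
    refine sum_congr rfl fun j _ => sum_congr rfl fun j' _ => ?_
    rw [map_mul, Complex.conj_ofReal, ← AddChar.map_neg_eq_conj, dot_sub, sub_eq_add_neg,
      AddChar.map_add_eq_mul]
    push_cast
    ring
  have hC : ((av (fun z : Fin k → G => ‖phi z J p W χ‖ ^ 2) : ℝ) : ℂ)
      = ((∑ j ∈ J, ∑ j' ∈ J, p j * p j' *
        (if ∀ i, (orderOf χ : ℤ) ∣ W j i - W j' i then (1 : ℝ) else 0) : ℝ) : ℂ) := by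
    unfold av
    rw [Complex.ofReal_div, Complex.ofReal_sum, sum_congr rfl fun z _ => hpt z, sum_comm,
      sum_div, Complex.ofReal_sum]
    refine sum_congr rfl fun j _ => ?_
    rw [sum_comm, sum_div, Complex.ofReal_sum]
    refine sum_congr rfl fun j' _ => ?_
    rw [← mul_sum, mul_div_assoc]
    have h2 := ex_char_one χ (W j - W j')
    have hcard : (((Fintype.card (Fin k → G) : ℕ) : ℝ) : ℂ) = (Fintype.card G : ℂ) ^ k := by
      rw [Fintype.card_fun, Fintype.card_fin]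
      push_cast
      rfl
    rw [hcard, h2]
    simp only [Pi.sub_apply]
    split_ifs <;> simp
  exact_mod_cast hC

end DiamAb
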