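import Mathlib
import Pool.Agent.Lib_MP_0ccc25_pr.Gl2
import Pool.Agent.Lib_MP_0ccc25_pr.CardChar
import Pool.Agent.Lib_MP_0ccc25_pr.NFact

/-!
Piece ORDSUM. Second moment of the typical part, summed over characters.

PROOF. Fix `χ` with `g = orderOf χ ∈ N`. By `gl2`, the average of `‖phi‖ ^ 2` is
`Σ_{w ∈ T} pw w Σ_{w' ∈ T, w' ≡ w mod g} pw w'`.
 (a) If `g ≤ 2 L`: the inner sum is at most the sum over all `w' ∈ wd k L` congruent to `w`, which is
 `Π_i rs μ L g (w i)` (`sum_pw_cong`), at most `exp (-c0) / NN G g`. Since `Σ_T pw ≤ 1`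
 (`sum_pw_one`), the average is at most `exp (-c0) / NN G g`. There are at most `NN G g` characters
 of order `g` (`card_char_ord`), so each `g` contributes at most `exp (-c0)`, and there are at most
 `2 L` values of `g` in `[1, 2 L]` (the order of a character is at least one as the group of
 characters is finite).
 (b) If `g > 2 L`: for words in `wd k L` the letters differ by less than `2 L < g`, so congruence
 modulo `g` means equality, i.e. congruence modulo `0`; use the hypothesis for `g = 0`: the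
 average is at most `exp (-c0) / NN G 0 = exp (-c0) / |G|` (`NN_zero`), and there are at most `|G|`
 characters (`AddChar.card_eq`). Total `exp (-c0)`.
-/

namespace DiamAb

open Finset

open Classical in
theorem ordsum_av {G : Type} [AddCommGroup G] [Fintype G] {k L : ℕ} (μ : ℤ → ℝ) (hμ : IsLaw μ L)
    (T : Finset (Fin k → ℤ)) (hT : T ⊆ wd k L) (χ : AddChar G ℂ) (g : ℕ) (b : ℝ) (hb : 0 ≤ b)
    (hg : ∀ w ∈ wd k L, ∀ w' ∈ wd k L, (∀ i, (orderOf χ : ℤ) ∣ w i - w' i) →
      ∀ i, (g : ℤ) ∣ w' i - w i)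
    (h : ∀ w ∈ T, ∏ i, rs μ L g (w i) ≤ b) :
    av (fun z : Fin k → G => ‖phi z T (pw μ) id χ‖ ^ 2) ≤ b := by
  rw [gl2]
  have h0 := pw_nonneg hμ.nonneg (k := k)
  have h1 : ∀ w ∈ T, ∑ w' ∈ T, pw μ w * pw μ w' *
      (if ∀ i, (orderOf χ : ℤ) ∣ (id w) i - (id w') i then (1 : ℝ) else 0) ≤ pw μ w * b := by
    intro w hw
    have h2 : ∑ w' ∈ T, pw μ w * pw μ w' *
        (if ∀ i, (orderOf χ : ℤ) ∣ (id w) i - (id w') i then (1 : ℝ) else 0)
        = pw μ w * ∑ w' ∈ T.filter (fun w' => ∀ i, (orderOf χ : ℤ) ∣ w i - w' i), pw μ w' := by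
      rw [sum_filter, mul_sum]
      refine sum_congr rfl fun w' _ => ?_
      simp only [id]
      split_ifs <;> ring
    rw [h2]
    apply mul_le_mul_of_nonneg_left _ (h0 w)
    refine le_trans ?_ (h w hw)
    rw [← sum_pw_cong]
    apply sum_le_sum_of_subset_of_nonneg
    · intro w' hw'
      rw [mem_filter] at hw' ⊢
      exact ⟨hT hw'.1, hg w (hT hw) w' (hT hw'.1) hw'.2⟩
    · intro w' _ _; exact h0 w'
  refine (sum_le_sum h1).trans ?_
  rw [← sum_mul]
  have h3 : ∑ w ∈ T, pw μ w ≤ 1 := by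
    rw [← sum_pw_one hμ k]
    exact sum_le_sum_of_subset_of_nonneg hT fun w _ _ => h0 w
  calc (∑ w ∈ T, pw μ w) * b ≤ 1 * b := mul_le_mul_of_nonneg_right h3 hb
    _ = b := one_mul b

open Classical in
theorem ordsum {G : Type} [AddCommGroup G] [Fintype G] {k L : ℕ} (μ : ℤ → ℝ) (hμ : IsLaw μ L)
    (N : Set ℕ) (T : Finset (Fin k → ℤ)) (hT : T ⊆ wd k L) (c0 : ℝ)
    (h : ∀ w ∈ T, ∀ g : ℕ, (g = 0 ∨ g ∈ N) → g ≤ 2 * L →
      ∏ i, rs μ L g (w i) ≤ Real.exp (-c0) / NN G g) :
    av (fun z : Fin k → G => ∑ χ ∈ univ.filter (fun χ : AddChar G ℂ => orderOf χ ∈ N),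
        ‖phi z T (pw μ) id χ‖ ^ 2) ≤ (2 * L + 1) * Real.exp (-c0) := by
  rw [av_sum]
  have hE := Real.exp_pos (-c0)
  -- small orders
  have hsmall : ∑ χ ∈ (univ.filter (fun χ : AddChar G ℂ => orderOf χ ∈ N)).filter
      (fun χ => orderOf χ ≤ 2 * L), av (fun z : Fin k → G => ‖phi z T (pw μ) id χ‖ ^ 2)
      ≤ 2 * L * Real.exp (-c0) := by
    have hmaps : ∀ χ ∈ (univ.filter (fun χ : AddChar G ℂ => orderOf χ ∈ N)).filter
        (fun χ => orderOf χ ≤ 2 * L), orderOf χ ∈ Finset.Icc 1 (2 * L) := by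
      intro χ hχ
      rw [mem_filter] at hχ
      rw [Finset.mem_Icc]
      refine ⟨?_, hχ.2⟩
      have : 0 < orderOf χ := orderOf_pos χ
      omega
    rw [← sum_fiberwise_of_maps_to hmaps]
    have hbd : ∀ g ∈ Finset.Icc 1 (2 * L),
        ∑ χ ∈ ((univ.filter (fun χ : AddChar G ℂ => orderOf χ ∈ N)).filter
          (fun χ => orderOf χ ≤ 2 * L)).filter (fun χ => orderOf χ = g),
          av (fun z : Fin k → G => ‖phi z T (pw μ) id χ‖ ^ 2) ≤ Real.exp (-c0) := by
      intro g hg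
      have hNN : (0 : ℝ) < NN G g := by exact_mod_cast NN_pos G g
      have h4 : ∀ χ ∈ ((univ.filter (fun χ : AddChar G ℂ => orderOf χ ∈ N)).filter
          (fun χ => orderOf χ ≤ 2 * L)).filter (fun χ => orderOf χ = g),
          av (fun z : Fin k → G => ‖phi z T (pw μ) id χ‖ ^ 2) ≤ Real.exp (-c0) / NN G g := by
        intro χ hχ
        simp only [mem_filter, mem_univ, true_and] at hχ
        obtain ⟨⟨h5, h6⟩, h7⟩ := hχ
        apply ordsum_av μ hμ T hT χ g _ (by positivity)
        · intro w _ w' _ h8 i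
          rw [← h7, dvd_sub_comm]
          exact h8 i
        · intro w hw
          exact h w hw g (Or.inr (h7 ▸ h5)) (h7 ▸ h6)
      refine (sum_le_card_nsmul _ _ _ h4).trans ?_
      rw [nsmul_eq_mul]
      have h5 : ((((univ.filter (fun χ : AddChar G ℂ => orderOf χ ∈ N)).filter
          (fun χ => orderOf χ ≤ 2 * L)).filter (fun χ => orderOf χ = g)).card : ℝ) ≤ NN G g := by
        have h6 : (((univ.filter (fun χ : AddChar G ℂ => orderOf χ ∈ N)).filter
          (fun χ => orderOf χ ≤ 2 * L)).filter (fun χ => orderOf χ = g)).card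
            ≤ (univ.filter fun χ : AddChar G ℂ => orderOf χ = g).card := by
          apply card_le_card
          intro χ hχ
          simp only [mem_filter, mem_univ, true_and] at hχ ⊢
          exact hχ.2
        exact_mod_cast h6.trans (card_char_ord G g)
      calc _ ≤ (NN G g : ℝ) * (Real.exp (-c0) / NN G g) :=
            mul_le_mul_of_nonneg_right h5 (by positivity)
        _ = Real.exp (-c0) := by field_simp
    refine (sum_le_card_nsmul _ _ _ hbd).trans ?_
    rw [nsmul_eq_mul, Nat.card_Icc]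
    simp
  have hlarge : ∑ χ ∈ (univ.filter (fun χ : AddChar G ℂ => orderOf χ ∈ N)).filter
      (fun χ => ¬ orderOf χ ≤ 2 * L), av (fun z : Fin k → G => ‖phi z T (pw μ) id χ‖ ^ 2)
      ≤ Real.exp (-c0) := by
    have hNN : (0 : ℝ) < NN G 0 := by exact_mod_cast NN_pos G 0
    have h4 : ∀ χ ∈ (univ.filter (fun χ : AddChar G ℂ => orderOf χ ∈ N)).filter
        (fun χ => ¬ orderOf χ ≤ 2 * L),
        av (fun z : Fin k → G => ‖phi z T (pw μ) id χ‖ ^ 2) ≤ Real.exp (-c0) / NN G 0 := by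
      intro χ hχ
      simp only [mem_filter, mem_univ, true_and] at hχ
      obtain ⟨h5, h6⟩ := hχ
      apply ordsum_av μ hμ T hT χ 0 _ (by positivity)
      · intro w hw w' hw' h8 i
        have h9 := mem_bx.1 (mem_wd.1 hw i)
        have h10 := mem_bx.1 (mem_wd.1 hw' i)
        have h11 : w i - w' i = 0 := by
          apply Int.eq_zero_of_abs_lt_dvd (h8 i)
          rw [abs_lt]
          constructor <;> omega
        rw [Nat.cast_zero, zero_dvd_iff]
        omega
      · intro w hw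
        exact h w hw 0 (Or.inl rfl) (Nat.zero_le _)
    refine (sum_le_card_nsmul _ _ _ h4).trans ?_
    rw [nsmul_eq_mul]
    have h5 : (((univ.filter (fun χ : AddChar G ℂ => orderOf χ ∈ N)).filter
        (fun χ => ¬ orderOf χ ≤ 2 * L)).card : ℝ) ≤ NN G 0 := by
      have h6 : ((univ.filter (fun χ : AddChar G ℂ => orderOf χ ∈ N)).filter
        (fun χ => ¬ orderOf χ ≤ 2 * L)).card ≤ Fintype.card (AddChar G ℂ) := card_le_univ _
      rw [AddChar.card_eq, ← NN_zero] at h6
      exact_mod_cast h6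
    calc _ ≤ (NN G 0 : ℝ) * (Real.exp (-c0) / NN G 0) :=
          mul_le_mul_of_nonneg_right h5 (by positivity)
      _ = Real.exp (-c0) := by field_simp
  rw [← sum_filter_add_sum_filter_not _ (fun χ => orderOf χ ≤ 2 * L)]
  calc _ ≤ 2 * L * Real.exp (-c0) + Real.exp (-c0) := add_le_add hsmall hlarge
    _ = _ := by ring

end DiamAb
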