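import Mathlib
import Pool.Agent.Lib_MP_0ccc25_pr.ExChar

/-!
Piece PHIEXACT. If the coordinate law is exactly uniform modulo `M`, then the characteristic sum
of the full product law vanishes at a character `χ` with `χ ^ M = 1` which is not trivial on
some generator.

PROOF. `phi z (wd k L) (pw μ) id χ = Π_i Σ_{v ∈ bx L} μ v χ(z i) ^ v` (`char_dot`,
`Finset.prod_univ_sum`). Let `ζ = χ (z i) ≠ 1`, `ζ ^ M = (χ ^ M) (z i) = 1`. Group the `v` by
their residue `c = v % M`: `ζ ^ v = ζ ^ c` and `Σ_{v ≡ c} μ v = rs μ L M c = 1 / M`, so the factor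
is `(1 / M) Σ_{c = 0}^{M - 1} ζ ^ c = 0` (geometric sum, `ζ ^ M = 1`, `ζ ≠ 1`). Here `M ≥ 1`.
-/

namespace DiamAb

open Finset

theorem phiexact_factor {μ : ℤ → ℝ} {L M : ℕ} (hM : 1 ≤ M) (hμ : ∀ v, rs μ L M v = 1 / M)
    {ζ : ℂ} (h1 : ζ ≠ 1) (hζ : ζ ^ M = 1) : ∑ v ∈ bx L, (μ v : ℂ) * ζ ^ v = 0 := by
  classical
  have hM0 : (0 : ℤ) < (M : ℤ) := by exact_mod_cast hM
  have hζ0 : ζ ≠ 0 := by
    rintro rfl
    rw [zero_pow (by omega)] at hζ
    exact zero_ne_one hζ
  have hmaps : ∀ v ∈ bx L, (v % (M : ℤ)).toNat ∈ range M := by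
    intro v _
    rw [mem_range]
    have := Int.emod_lt_of_pos v hM0
    have := Int.emod_nonneg v hM0.ne'
    omega
  rw [← sum_fiberwise_of_maps_to hmaps]
  have hin : ∀ c ∈ range M, ∑ v ∈ (bx L).filter (fun v => (v % (M : ℤ)).toNat = c),
      (μ v : ℂ) * ζ ^ v = (1 / (M : ℂ)) * ζ ^ c := by
    intro c hc
    rw [mem_range] at hc
    have h2 : ∀ v ∈ (bx L).filter (fun v => (v % (M : ℤ)).toNat = c),
        (μ v : ℂ) * ζ ^ v = (μ v : ℂ) * ζ ^ c := by
      intro v hv
      rw [mem_filter] at hv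
      congr 1
      have h3 : v = (M : ℤ) * (v / M) + c := by
        have h4 := Int.emod_nonneg v hM0.ne'
        have h5 := Int.mul_ediv_add_emod v M
        have h6 : v % (M : ℤ) = c := by omega
        rw [← h6]; exact h5.symm
      rw [h3, zpow_add₀ hζ0, zpow_mul, zpow_natCast, hζ, one_zpow, one_mul, zpow_natCast]
    rw [sum_congr rfl h2, ← sum_mul]
    congr 1
    have h3 : (bx L).filter (fun v => (v % (M : ℤ)).toNat = c)
        = (bx L).filter (fun u => (M : ℤ) ∣ u - c) := by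
      ext v
      simp only [mem_filter, and_congr_right_iff]
      intro _
      have h4 := Int.emod_nonneg v hM0.ne'
      have h5 := Int.emod_lt_of_pos v hM0
      constructor
      · intro h
        have h6 : v % (M : ℤ) = c := by omega
        rw [← h6]
        exact Int.dvd_self_sub_emod
      · intro h
        have h6 : v % (M : ℤ) = (c : ℤ) % (M : ℤ) := Int.modEq_iff_dvd.2 (by
          rw [dvd_sub_comm]; exact h)
        rw [Int.emod_eq_of_lt (a := (c : ℤ)) (by omega) (by omega)] at h6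
        omega
    rw [h3]
    have h4 := hμ c
    unfold rs at h4
    rw [← Complex.ofReal_sum, h4]
    push_cast
    rfl
  rw [sum_congr rfl hin, ← mul_sum]
  have hgeo : ∑ c ∈ range M, ζ ^ c = 0 := by
    have h3 := mul_geom_sum ζ M
    rw [hζ, sub_self] at h3
    rcases mul_eq_zero.1 h3 with h | h
    · exact absurd (sub_eq_zero.1 h) h1
    · exact h
  rw [hgeo, mul_zero]

theorem phi_exact {G : Type} [AddCommGroup G] [Fintype G] {k : ℕ} (μ : ℤ → ℝ) (L M : ℕ)
    (hM : 1 ≤ M) (hμ : ∀ v, rs μ L M v = 1 / M) (χ : AddChar G ℂ) (hχ : χ ^ M = 1)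
    (z : Fin k → G) (hz : ∃ i, χ (z i) ≠ 1) : phi z (wd k L) (pw μ) id χ = 0 := by
  classical
  obtain ⟨i, hi⟩ := hz
  have h1 : phi z (wd k L) (pw μ) id χ = ∏ i, ∑ v ∈ bx L, (μ v : ℂ) * (χ (z i)) ^ v := by
    unfold phi wd
    rw [Finset.prod_univ_sum]
    refine sum_congr rfl fun w _ => ?_
    rw [id, char_dot, prod_mul_distrib]
    unfold pw
    push_cast
    rfl
  rw [h1]
  refine prod_eq_zero (mem_univ i) (phiexact_factor hM hμ hi ?_)
  have := congrArg (fun ψ : AddChar G ℂ => ψ (z i)) hχ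
  simpa using this

end DiamAb
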