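import Mathlib
import Pool.Agent.Lib_MP_0ccc25_pr.Base

/-!
Piece CHERN. Chernoff bound for the product law on words.

PROOF. Let `m = Σ_v μ v F v` and `X v = m - F v`; since `F` has range at most `Bd` on the box and
`m` lies in the same range, `|X v| ≤ Bd` for `v ∈ bx L`, and `Σ_v μ v X v = 0`. If `k = 0` the sum
has the single weight `1` (empty word) and the bound is `1`. Let `k ≥ 1`. If `t > Bd` then
`Σ_i F (w i) ≤ k (m - t)` is impossible (`Σ X (w i) ≤ k Bd < k t`), the sum is empty. If `t ≤ Bd`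
let `s = t / (2 Bd ^ 2)`, so `s Bd ≤ 1 / 2`. By `exp x ≤ 1 + x + x ^ 2` for `|x| ≤ 1`
(`Real.abs_exp_sub_one_sub_id_le`), `Σ_v μ v exp (s X v) ≤ 1 + s ^ 2 Bd ^ 2 ≤ exp (s ^ 2 Bd ^ 2)`.
The indicator of the event is at most `exp (s (Σ_i X (w i) - k t))`, so the sum is at most
`exp (-s k t) * (Σ_v μ v exp (s X v)) ^ k ≤ exp (k (s ^ 2 Bd ^ 2 - s t)) = exp (-t ^ 2 k / (4 Bd ^ 2))`
(`sum_prod_wd`).
-/

namespace DiamAb

open Finset

open Classical in
theorem chern (μ : ℤ → ℝ) (L : ℕ) (hμ : IsLaw μ L) (F : ℤ → ℝ) (a Bd t : ℝ) (hBd : 0 < Bd)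
    (ht : 0 ≤ t) (hF : ∀ v ∈ bx L, a ≤ F v ∧ F v ≤ a + Bd) (k : ℕ) :
    ∑ w ∈ (wd k L).filter (fun w => ∑ i, F (w i) ≤ k * ((∑ v ∈ bx L, μ v * F v) - t)),
      pw μ w ≤ Real.exp (-(t ^ 2 * k / (4 * Bd ^ 2))) := by
  set m : ℝ := ∑ v ∈ bx L, μ v * F v with hm
  have hma : a ≤ m := by
    have h1 : ∑ v ∈ bx L, μ v * a ≤ m :=
      sum_le_sum fun v hv => mul_le_mul_of_nonneg_left (hF v hv).1 (hμ.nonneg v)
    rwa [← sum_mul, hμ.sum, one_mul] at h1
  have hmb : m ≤ a + Bd := by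
    have h1 : m ≤ ∑ v ∈ bx L, μ v * (a + Bd) :=
      sum_le_sum fun v hv => mul_le_mul_of_nonneg_left (hF v hv).2 (hμ.nonneg v)
    rwa [← sum_mul, hμ.sum, one_mul] at h1
  have hX : ∀ v ∈ bx L, |m - F v| ≤ Bd := by
    intro v hv
    have h1 := hF v hv
    rw [abs_le]
    constructor <;> linarith
  have hX0 : ∑ v ∈ bx L, μ v * (m - F v) = 0 := by
    simp only [mul_sub]
    rw [sum_sub_distrib, ← sum_mul, hμ.sum, one_mul, sub_self]
  rcases Nat.eq_zero_or_pos k with hk | hk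
  · subst hk
    have h1 : Real.exp (-(t ^ 2 * ((0 : ℕ) : ℝ) / (4 * Bd ^ 2))) = 1 := by simp
    rw [h1, ← sum_pw_one hμ 0]
    exact sum_le_sum_of_subset_of_nonneg (filter_subset _ _) fun w _ _ => pw_nonneg hμ.nonneg w
  have hk0 : (0 : ℝ) < k := by exact_mod_cast hk
  by_cases htB : Bd < t
  · have hemp : (wd k L).filter (fun w => ∑ i, F (w i) ≤ k * (m - t)) = ∅ := by
      rw [filter_eq_empty_iff]
      intro w hw hle
      rw [mem_wd] at hw
      have h1 : ∑ i : Fin k, (m - F (w i)) ≤ ∑ _i : Fin k, Bd :=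
        sum_le_sum fun i _ => (le_abs_self _).trans (hX _ (hw i))
      rw [sum_sub_distrib, sum_const, sum_const, card_univ, Fintype.card_fin, nsmul_eq_mul,
        nsmul_eq_mul] at h1
      have h2 : (k : ℝ) * Bd < k * t := mul_lt_mul_of_pos_left htB hk0
      linarith
    rw [hemp, sum_empty]
    exact (Real.exp_pos _).le
  · push Not at htB
    set s : ℝ := t / (2 * Bd ^ 2) with hs
    have hs0 : 0 ≤ s := by positivity
    have hsB : s * Bd ≤ 1 / 2 := by
      rw [hs, div_mul_eq_mul_div, div_le_iff₀ (by positivity)]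
      nlinarith
    have hmgf : ∑ v ∈ bx L, μ v * Real.exp (s * (m - F v)) ≤ Real.exp (s ^ 2 * Bd ^ 2) := by
      have h1 : ∀ v ∈ bx L, μ v * Real.exp (s * (m - F v))
          ≤ μ v * (1 + s ^ 2 * Bd ^ 2) + s * (μ v * (m - F v)) := by
        intro v hv
        have h2 := hX v hv
        have h3 : |s * (m - F v)| ≤ 1 := by
          rw [abs_mul, abs_of_nonneg hs0]
          have := mul_le_mul_of_nonneg_left h2 hs0
          linarith
        have h4 := (abs_le.mp (Real.abs_exp_sub_one_sub_id_le h3)).2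
        have h5 : (s * (m - F v)) ^ 2 ≤ s ^ 2 * Bd ^ 2 := by
          rw [mul_pow]
          apply mul_le_mul_of_nonneg_left _ (by positivity)
          rw [← sq_abs (m - F v)]
          exact pow_le_pow_left₀ (abs_nonneg _) h2 2
        have h6 : Real.exp (s * (m - F v)) ≤ 1 + s ^ 2 * Bd ^ 2 + s * (m - F v) := by linarith
        have h7 := mul_le_mul_of_nonneg_left h6 (hμ.nonneg v)
        calc _ ≤ _ := h7
          _ = _ := by ring
      refine (sum_le_sum h1).trans ?_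
      rw [sum_add_distrib, ← sum_mul, hμ.sum, ← mul_sum, hX0, mul_zero, add_zero, one_mul,
        add_comm]
      exact Real.add_one_le_exp _
    have hmgf0 : 0 ≤ ∑ v ∈ bx L, μ v * Real.exp (s * (m - F v)) :=
      sum_nonneg fun v _ => mul_nonneg (hμ.nonneg v) (Real.exp_pos _).le
    have hstep : ∑ w ∈ (wd k L).filter (fun w => ∑ i, F (w i) ≤ k * (m - t)), pw μ w
        ≤ ∑ w ∈ wd k L, Real.exp (-(s * k * t)) * ∏ i, (μ (w i) * Real.exp (s * (m - F (w i)))) := by
      have hnn : ∀ w : Fin k → ℤ, 0 ≤ Real.exp (-(s * k * t)) *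
          ∏ i, (μ (w i) * Real.exp (s * (m - F (w i)))) := fun w =>
        mul_nonneg (Real.exp_pos _).le
          (prod_nonneg fun i _ => mul_nonneg (hμ.nonneg _) (Real.exp_pos _).le)
      refine (sum_le_sum fun w hw => ?_).trans
        (sum_le_sum_of_subset_of_nonneg (filter_subset _ _) fun w _ _ => hnn w)
      rw [mem_filter] at hw
      rw [prod_mul_distrib, ← Real.exp_sum, mul_left_comm, ← Real.exp_add]
      have h1 : 1 ≤ Real.exp (-(s * k * t) + ∑ i, s * (m - F (w i))) := by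
        apply Real.one_le_exp
        rw [← mul_sum, sum_sub_distrib, sum_const, card_univ, Fintype.card_fin, nsmul_eq_mul]
        have h2 : k * t ≤ k * m - ∑ i, F (w i) := by linarith [hw.2]
        have h3 := mul_le_mul_of_nonneg_left h2 hs0
        linarith
      have h4 : 0 ≤ ∏ i, μ (w i) := prod_nonneg fun i _ => hμ.nonneg _
      calc pw μ w = (∏ i, μ (w i)) * 1 := by rw [mul_one]; rfl
        _ ≤ _ := mul_le_mul_of_nonneg_left h1 h4
    refine hstep.trans ?_
    rw [← mul_sum, sum_prod_wd (fun v => μ v * Real.exp (s * (m - F v)))]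
    have h1 : (∑ v ∈ bx L, μ v * Real.exp (s * (m - F v))) ^ k
        ≤ (Real.exp (s ^ 2 * Bd ^ 2)) ^ k := pow_le_pow_left₀ hmgf0 hmgf k
    refine (mul_le_mul_of_nonneg_left h1 (Real.exp_pos _).le).trans ?_
    rw [← Real.exp_nat_mul, ← Real.exp_add]
    apply Real.exp_le_exp.mpr
    apply le_of_eq
    rw [hs]
    field_simp
    ring

end DiamAb
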