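import Mathlib
import Pool.Agent.Lib_MP_0ccc25_pr.Chern

/-!
Piece TYPGOOD. The typical set of a good law.

PROOF. Let `w` be a word of `wd k' L` outside the set `Typ`. Either
 (1) `k' (Ab + ε' S) < nrm w`: with `F v = -|v| ∈ [-L, 0]` on `bx L`, the sum is at most
 `k' (Σ μ F - ε' S)`; by `chern` (range `L`, `t = ε' S`) the weight of these words is at most
 `exp (-(ε' S) ^ 2 k' / (4 L ^ 2)) ≤ exp (-ε' ^ 2 k' / (4 Λ ^ 2))` because `L ≤ Λ S`; or
 (2) for some `g ≤ 2 L` with `g = 0` or `g ∈ N`: `Π_i rs μ L g (w i) > exp (-(k h g + c k / 2))`.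
 All factors are positive (`self_le_rs`, `posi`), so with `F v = -log (rs μ L g v)`:
 `Σ_i F (w i) < k h g + c k / 2`. By `ent`, `k' (Hg - c / 4) ≥ k' (h g + 3 c / 4)
 = k h g + (3 c / 4) k - j (h g + 3 c / 4) ≥ k h g + (3 c / 4) k - j (hm + c)
 ≥ k h g + c k / 2`. So `Σ_i F (w i) ≤ k' (Hg - c / 4)`, whose weight is at most
 `exp (-(c / 4) ^ 2 k' / (4 Cb ^ 2))` by `chern` (range `Cb` by `rng`). There are at most `2 L + 1`
 such `g`; union bound.
-/

namespace DiamAb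

open Finset

theorem typgood_biUnion {ι α : Type} [DecidableEq ι] [DecidableEq α] (J : Finset ι)
    (B : ι → Finset α) (f : α → ℝ) (hf : ∀ a, 0 ≤ f a) :
    ∑ a ∈ J.biUnion B, f a ≤ ∑ g ∈ J, ∑ a ∈ B g, f a := by
  induction J using Finset.induction_on with
  | empty => simp
  | insert g J hg ih =>
    rw [biUnion_insert, sum_insert hg]
    have h1 := sum_union_inter (s₁ := B g) (s₂ := J.biUnion B) (f := f)
    have h2 := sum_nonneg fun a (_ : a ∈ B g ∩ J.biUnion B) => hf a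
    linarith

/-- typical words for a good law -/
def Typ (h : ℕ → ℝ) (N : Set ℕ) (c : ℝ) (μ : ℤ → ℝ) (L : ℕ) (k : ℕ) (R : ℝ) {k' : ℕ}
    (w : Fin k' → ℤ) : Prop :=
  (nrm w : ℝ) ≤ R ∧ ∀ g : ℕ, (g = 0 ∨ g ∈ N) → g ≤ 2 * L →
    ∏ i, rs μ L g (w i) ≤ Real.exp (-(k * h g + c * k / 2))

open Classical in
theorem typ_good (h : ℕ → ℝ) (M : ℕ) (N : Set ℕ) (c Cb : ℝ) (μ : ℤ → ℝ) (L : ℕ)
    (hG : Good h M N c Cb μ L) (hc : 0 < c) (hCb : 0 < Cb) (hL : 1 ≤ L) (S ε' Λ : ℝ)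
    (hS : 0 < S) (hLS : (L : ℝ) ≤ Λ * S) (hε : 0 < ε') (k' k j : ℕ) (hk : k' + j = k) (hm : ℝ)
    (hhm : ∀ g, h g ≤ hm) (hj : j * (hm + c) ≤ c * k / 4) :
    ∑ w ∈ (wd k' L).filter (fun w => ¬ Typ h N c μ L k (k' * (Ab μ L + ε' * S)) w), pw μ w ≤
      (2 * L + 1) * Real.exp (-((c / 4) ^ 2 * k' / (4 * Cb ^ 2))) +
        Real.exp (-(ε' ^ 2 * k' / (4 * Λ ^ 2))) := by
  have h0 := pw_nonneg hG.law.nonneg (k := k')
  have hL0 : (0 : ℝ) < L := by exact_mod_cast hL
  have hΛ : 0 < Λ := by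
    by_contra hn
    push Not at hn
    nlinarith
  -- the two kinds of bad words
  set A : Finset (Fin k' → ℤ) := (wd k' L).filter
    (fun w => ∑ i, (fun v : ℤ => -|(v : ℝ)|) (w i) ≤
      k' * ((∑ v ∈ bx L, μ v * (fun v : ℤ => -|(v : ℝ)|) v) - ε' * S)) with hA
  set Bg : ℕ → Finset (Fin k' → ℤ) := fun g => (wd k' L).filter
    (fun w => ∑ i, (fun v : ℤ => -Real.log (rs μ L g v)) (w i) ≤
      k' * ((∑ v ∈ bx L, μ v * (fun v : ℤ => -Real.log (rs μ L g v)) v) - c / 4)) with hB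
  set J : Finset ℕ := (range (2 * L + 1)).filter (fun g => g = 0 ∨ g ∈ N) with hJ
  have hsub : (wd k' L).filter (fun w => ¬ Typ h N c μ L k (k' * (Ab μ L + ε' * S)) w) ⊆
      J.biUnion Bg ∪ A := by
    intro w hw
    rw [mem_filter] at hw
    obtain ⟨hw, hT⟩ := hw
    rw [mem_union]
    by_cases hn : (nrm w : ℝ) ≤ k' * (Ab μ L + ε' * S)
    · left
      have h2 : ∃ g : ℕ, (g = 0 ∨ g ∈ N) ∧ g ≤ 2 * L ∧
          Real.exp (-(k * h g + c * k / 2)) < ∏ i, rs μ L g (w i) := by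
        by_contra hcon
        push Not at hcon
        exact hT ⟨hn, hcon⟩
      obtain ⟨g, hg1, hg2, hg3⟩ := h2
      rw [mem_biUnion]
      refine ⟨g, ?_, ?_⟩
      · rw [hJ, mem_filter, mem_range]
        exact ⟨by omega, hg1⟩
      · rw [hB, mem_filter]
        refine ⟨hw, ?_⟩
        have hpos : ∀ i, 0 < rs μ L g (w i) := fun i =>
          lt_of_lt_of_le (hG.posi _ (mem_wd.1 hw i))
            (self_le_rs hG.law.nonneg g (mem_wd.1 hw i))
        have h3 : -(k * h g + c * k / 2) < ∑ i, Real.log (rs μ L g (w i)) := by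
          rw [← Real.log_prod (fun i _ => (hpos i).ne')]
          rw [Real.lt_log_iff_exp_lt (prod_pos fun i _ => hpos i)]
          exact hg3
        have h4 := hG.ent g hg1 hg2
        have h5 : Hg μ L g = ∑ v ∈ bx L, μ v * -Real.log (rs μ L g v) := rfl
        show ∑ i, -Real.log (rs μ L g (w i)) ≤
          k' * ((∑ v ∈ bx L, μ v * -Real.log (rs μ L g v)) - c / 4)
        rw [← h5, sum_neg_distrib]
        have hkk : (k : ℝ) = k' + j := by rw [← hk]; push_cast; ring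
        have hk'0 : (0 : ℝ) ≤ k' := Nat.cast_nonneg _
        have hj0 : (0 : ℝ) ≤ j := Nat.cast_nonneg _
        have h6 : (j : ℝ) * h g ≤ j * hm := mul_le_mul_of_nonneg_left (hhm g) hj0
        have h7 : (k' : ℝ) * (h g + c) ≤ k' * Hg μ L g := mul_le_mul_of_nonneg_left h4 hk'0
        rw [hkk] at h3 hj
        nlinarith
    · right
      rw [hA, mem_filter]
      refine ⟨hw, ?_⟩
      push Not at hn
      show ∑ i, -|((w i : ℤ) : ℝ)| ≤ k' * ((∑ v ∈ bx L, μ v * -|(v : ℝ)|) - ε' * S)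
      rw [nrm_cast] at hn
      have h2 : ∑ v ∈ bx L, μ v * -|(v : ℝ)| = -Ab μ L := by
        unfold Ab
        rw [← sum_neg_distrib]
        exact sum_congr rfl fun v _ => by ring
      rw [h2, sum_neg_distrib]
      nlinarith
  have hchA : ∑ w ∈ A, pw μ w ≤ Real.exp (-(ε' ^ 2 * k' / (4 * Λ ^ 2))) := by
    refine (chern μ L hG.law (fun v => -|(v : ℝ)|) (-L) L (ε' * S) hL0 (by positivity)
      ?_ k').trans ?_
    · intro v hv
      rw [mem_bx] at hv
      have h1 : |(v : ℝ)| ≤ L := by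
        rw [abs_le]
        constructor
        · exact_mod_cast hv.1
        · exact_mod_cast hv.2.le
      have h2 := abs_nonneg (v : ℝ)
      constructor <;> linarith
    · apply Real.exp_le_exp.2
      apply neg_le_neg
      rw [div_le_div_iff₀ (by positivity) (by positivity)]
      have h1 : (L : ℝ) ^ 2 ≤ (Λ * S) ^ 2 := pow_le_pow_left₀ hL0.le hLS 2
      have h2 : (0 : ℝ) ≤ ε' ^ 2 * k' := by positivity
      calc ε' ^ 2 * k' * (4 * (L : ℝ) ^ 2) ≤ ε' ^ 2 * k' * (4 * (Λ * S) ^ 2) :=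
            mul_le_mul_of_nonneg_left (by linarith) h2
        _ = (ε' * S) ^ 2 * k' * (4 * Λ ^ 2) := by ring
  have hchB : ∀ g ∈ J, ∑ w ∈ Bg g, pw μ w ≤
      Real.exp (-((c / 4) ^ 2 * k' / (4 * Cb ^ 2))) := by
    intro g hg
    rw [hJ, mem_filter, mem_range] at hg
    obtain ⟨a, ha⟩ := hG.rng g hg.2 (by omega)
    exact chern μ L hG.law (fun v => -Real.log (rs μ L g v)) a Cb (c / 4) hCb (by positivity)
      ha k'
  calc _ ≤ ∑ w ∈ J.biUnion Bg ∪ A, pw μ w :=
        sum_le_sum_of_subset_of_nonneg hsub fun w _ _ => h0 w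
    _ ≤ ∑ w ∈ J.biUnion Bg, pw μ w + ∑ w ∈ A, pw μ w := by
        rw [← sum_union_inter]
        have := sum_nonneg fun w (_ : w ∈ J.biUnion Bg ∩ A) => h0 w
        linarith
    _ ≤ ∑ g ∈ J, ∑ w ∈ Bg g, pw μ w + ∑ w ∈ A, pw μ w := by
        have := typgood_biUnion J Bg (fun w => pw μ w) h0
        linarith
    _ ≤ _ := by
        apply add_le_add _ hchA
        refine (sum_le_card_nsmul _ _ _ hchB).trans ?_
        rw [nsmul_eq_mul]
        apply mul_le_mul_of_nonneg_right _ (Real.exp_pos _).le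
        have h1 : J.card ≤ 2 * L + 1 := by
          refine (card_filter_le _ _).trans ?_
          rw [card_range]
        exact_mod_cast h1

end DiamAb
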