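import Mathlib
import Pool.Agent.Lib_MP_0ccc25_pr.TypGood
import Pool.Agent.Lib_MP_0ccc25_pr.OrdSum
import Pool.Agent.Lib_MP_0ccc25_pr.PhiExact
import Pool.Agent.Lib_MP_0ccc25_pr.CovA
import Pool.Agent.Lib_MP_0ccc25_pr.Kill
import Pool.Agent.Lib_MP_0ccc25_pr.Crit

/-!
Piece CASEA. Regime A, large critical modulus: exponentially small uncovered density.

PROOF. Constants: `a1 = (c / 4) ^ 2 / (4 Cb ^ 2)`, `a2 = ε' ^ 2 / (4 Λ ^ 2)`,
`c3 = min (min a1 a2) c / 16`. Given `j`, `τ`: choose `c'` with `c' ≤ a1 / 8`, `c' ≤ c / 16` and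
`j c' ≤ c / 8`; `r0 = j + r1` with `r1 ≥ 2` and `4 (1 / 2) ^ r1 ≤ τ / 2`; `k0` large.
Let `k' = k - j ≥ k / 2`, `h = hh G k` (so `h g ≤ log S ≤ c' k` by `hh_le`,
`k h g = log (NN G g)`), `N = {g | ¬ g ∣ M}`, and let `T` be the words of `wd k' L` with
`Typ h N c μ L k (k' (Ab + ε' S))`. Hypothesis of `typ_good`:
`j (log S + c) ≤ j c' k + j c ≤ c k / 8 + c k / 8` for `k ≥ 8 j`. So the untypical mass is at most
`(2 L + 1) exp (-a1 k') + exp (-a2 k')`, with `2 L + 1 ≤ (2 Λ + 1) S ≤ (2 Λ + 1) exp (c' k)`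
(`S ≥ 1`), hence at most `exp (-2 c3 k)` for `k ≥ k0` (as `a1 k' ≥ a1 k / 2`).
For `w ∈ T`, and `g` as in `ordsum`: `Π rs ≤ exp (-(log (NN G g) + c k / 2))
= exp (-(c k / 2)) / NN G g`. So `ordsum` gives
`av (Σ_{ord χ ∈ N} ‖phi z T‖ ^ 2) ≤ (2 L + 1) exp (-c k / 2) ≤ exp (-c k / 4)` for large `k`, and by
Markov the sum exceeds `exp (-c k / 8)` with probability at most `exp (-c k / 8) ≤ τ / 2`.
The characters with `χ ^ M ≠ 1` are those with `¬ orderOf χ ∣ M` (`orderOf_dvd_iff_pow_eq_one`),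
i.e. `orderOf χ ∈ N`.
By `kill` (with `r1`, as `rank + r1 ≤ k'`), with probability at least `1 - τ / 2` no nontrivial `χ` with
`χ ^ M = 1` is trivial on all generators. In that case `phi_exact` (with `μ` exactly uniform
modulo `M`) verifies the hypothesis of `covA` with `J = wd k' L`, `p = pw μ`, `W = id`, so
`unc z R ≤ 2 exp (-2 c3 k) + 4 exp (-c k / 8) ≤ exp (-c3 k)` for `k ≥ k0`.
(Note `Cb > 0` may be assumed by the hypothesis; `R ≥ k (Ab + ε' S) ≥ k' (Ab + ε' S)` and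
`Ab ≥ 0`.)
-/

namespace DiamAb

open Finset

open Classical in
/-- the deterministic part of case A -/
theorem CaseA_det {G : Type} [AddCommGroup G] [Fintype G] (c c3 Cb ε' S : ℝ) (k k' M L R : ℕ)
    (μ : ℤ → ℝ) (hM : 1 ≤ M) (hG : Good (hh G k) M {g | ¬ g ∣ M} c Cb μ L)
    (hkk : (k' : ℝ) ≤ k) (hε : 0 < ε') (hS1 : 0 ≤ S) (hA : 0 ≤ Ab μ L)
    (hR : k * (Ab μ L + ε' * S) ≤ R)
    (hc3 : 16 * c3 ≤ c) (h6 : 6 ≤ Real.exp (c3 * k))
    (hmass : ∑ w ∈ (wd k' L).filter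
        (fun w => ¬ Typ (hh G k) {g | ¬ g ∣ M} c μ L k (k' * (Ab μ L + ε' * S)) w), pw μ w ≤
      Real.exp (-(2 * c3 * k)))
    (z : Fin k' → G)
    (h1 : ∑ χ ∈ univ.filter (fun χ : AddChar G ℂ => orderOf χ ∈ {g | ¬ g ∣ M}),
        ‖phi z ((wd k' L).filter
          (fun w => Typ (hh G k) {g | ¬ g ∣ M} c μ L k (k' * (Ab μ L + ε' * S)) w))
          (pw μ) id χ‖ ^ 2 ≤ Real.exp (-(c * k / 8)))
    (h2 : ¬ ∃ χ : AddChar G ℂ, χ ≠ 1 ∧ χ ^ M = 1 ∧ ∀ i, χ (z i) = 1) :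
    unc z R ≤ Real.exp (-c3 * k) := by
  have hcov := covA z (wd k' L) ((wd k' L).filter
      (fun w => Typ (hh G k) {g | ¬ g ∣ M} c μ L k (k' * (Ab μ L + ε' * S)) w))
      (filter_subset _ _) (pw μ) (fun w => pw_nonneg hG.law.nonneg w) (sum_pw_one hG.law k') id R
      (by
        intro w hw
        rw [mem_filter] at hw
        have h3 := hw.2.1
        have h4 : (k' : ℝ) * (Ab μ L + ε' * S) ≤ k * (Ab μ L + ε' * S) :=
          mul_le_mul_of_nonneg_right hkk (by positivity)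
        have h5 : (nrm w : ℝ) ≤ R := h3.trans (h4.trans hR)
        exact_mod_cast h5) M
      (by
        intro χ hχ1 hχM
        apply phi_exact μ L M hM hG.unif χ hχM z
        by_contra hcon
        push Not at hcon
        exact h2 ⟨χ, hχ1, hχM, hcon⟩)
  have hcov2 : unc z R ≤ 2 * ∑ w ∈ (wd k' L).filter
        (fun w => ¬ Typ (hh G k) {g | ¬ g ∣ M} c μ L k (k' * (Ab μ L + ε' * S)) w), pw μ w +
      4 * ∑ χ ∈ univ.filter (fun χ : AddChar G ℂ => orderOf χ ∈ {g | ¬ g ∣ M}),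
        ‖phi z ((wd k' L).filter
          (fun w => Typ (hh G k) {g | ¬ g ∣ M} c μ L k (k' * (Ab μ L + ε' * S)) w))
          (pw μ) id χ‖ ^ 2 := by
    refine hcov.trans (le_of_eq ?_)
    congr 1
    · congr 1
      refine sum_congr ?_ (fun _ _ => rfl)
      ext w
      simp only [mem_sdiff, mem_filter]
      tauto
    · congr 1
      refine sum_congr ?_ (fun _ _ => rfl)
      ext χ
      simp only [mem_filter, mem_univ, true_and, Set.mem_ofPred_eq, orderOf_dvd_iff_pow_eq_one,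
        ne_eq]
  have hk0 : (0 : ℝ) ≤ k := Nat.cast_nonneg k
  have h7 : Real.exp (-(c * k / 8)) ≤ Real.exp (-(2 * c3 * k)) := by
    apply Real.exp_le_exp.2
    nlinarith
  have h8 : Real.exp (-(2 * c3 * k)) = Real.exp (-c3 * k) * Real.exp (-c3 * k) := by
    rw [← Real.exp_add]
    congr 1
    ring
  have h9 : Real.exp (-c3 * k) * Real.exp (c3 * k) = 1 := by
    rw [← Real.exp_add, show -c3 * (k : ℝ) + c3 * k = 0 by ring, Real.exp_zero]
  have h10 : 0 < Real.exp (-c3 * k) := Real.exp_pos _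
  have h11 : 6 * Real.exp (-c3 * k) ≤ 1 := by
    rw [← h9, mul_comm]
    exact mul_le_mul_of_nonneg_left h6 h10.le
  calc unc z R ≤ 2 * Real.exp (-(2 * c3 * k)) + 4 * Real.exp (-(2 * c3 * k)) := by
        refine hcov2.trans (add_le_add ?_ ?_)
        · linarith
        · linarith
    _ = (6 * Real.exp (-c3 * k)) * Real.exp (-c3 * k) := by rw [h8]; ring
    _ ≤ 1 * Real.exp (-c3 * k) := mul_le_mul_of_nonneg_right h11 h10.le
    _ = Real.exp (-c3 * k) := one_mul _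

theorem caseA (c Cb Λ ε' : ℝ) (hc : 0 < c) (hCb : 0 < Cb) (hΛ : 0 < Λ) (hε : 0 < ε') :
    ∃ c3 : ℝ, 0 < c3 ∧ ∀ (j : ℕ) (τ : ℝ), 0 < τ → ∃ (k0 r0 : ℕ) (c' : ℝ), 0 < c' ∧
      ∀ (G : Type) [AddCommGroup G] [Fintype G] (k k' M L R : ℕ) (S : ℝ) (μ : ℤ → ℝ),
        k0 ≤ k → AddGroup.rank G + r0 ≤ k → k' + j = k → S ^ k = Fintype.card G → 1 ≤ S →
        Real.log S ≤ c' * k → 1 ≤ M → 1 ≤ L → (L : ℝ) ≤ Λ * S →
        Good (hh G k) M {g | ¬ g ∣ M} c Cb μ L →
        k * (Ab μ L + ε' * S) ≤ R →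
        pr (fun z : Fin k' → G => ¬ unc z R ≤ Real.exp (-c3 * k)) ≤ τ := by
  classical
  set a1 : ℝ := (c / 4) ^ 2 / (4 * Cb ^ 2) with ha1
  set a2 : ℝ := ε' ^ 2 / (4 * Λ ^ 2) with ha2
  have ha1p : 0 < a1 := by positivity
  have ha2p : 0 < a2 := by positivity
  set c3 : ℝ := min (min a1 a2) c / 16 with hc3
  have hc3p : 0 < c3 := by
    rw [hc3]
    have : 0 < min (min a1 a2) c := lt_min (lt_min ha1p ha2p) hc
    positivity
  have h16a1 : 16 * c3 ≤ a1 := by
    rw [hc3]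
    have : min (min a1 a2) c ≤ a1 := (min_le_left _ _).trans (min_le_left _ _)
    linarith
  have h16a2 : 16 * c3 ≤ a2 := by
    rw [hc3]
    have : min (min a1 a2) c ≤ a2 := (min_le_left _ _).trans (min_le_right _ _)
    linarith
  have h16c : 16 * c3 ≤ c := by
    rw [hc3]
    have : min (min a1 a2) c ≤ c := min_le_right _ _
    linarith
  refine ⟨c3, hc3p, fun j τ hτ => ?_⟩
  set c' : ℝ := min (min (a1 / 8) (c / 16)) (c / (8 * (j + 1))) with hc'
  have hj0 : (0 : ℝ) ≤ j := Nat.cast_nonneg j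
  have hc'p : 0 < c' := by
    rw [hc']
    exact lt_min (lt_min (by positivity) (by positivity)) (by positivity)
  have hc'1 : c' ≤ a1 / 8 := (min_le_left _ _).trans (min_le_left _ _)
  have hc'2 : c' ≤ c / 16 := (min_le_left _ _).trans (min_le_right _ _)
  have hc'3 : j * c' ≤ c / 8 := by
    have h1 : c' ≤ c / (8 * (j + 1)) := min_le_right _ _
    have h2 : (j : ℝ) * c' ≤ j * (c / (8 * (j + 1))) := mul_le_mul_of_nonneg_left h1 hj0
    refine h2.trans ?_
    rw [← mul_div_assoc, div_le_div_iff₀ (by positivity) (by norm_num)]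
    nlinarith [mul_nonneg hj0 hc.le]
  obtain ⟨r1, hr1, hr1τ⟩ : ∃ r1 : ℕ, 2 ≤ r1 ∧ 4 * (1 / 2 : ℝ) ^ r1 ≤ τ / 2 := by
    obtain ⟨n, hn⟩ := exists_pow_lt_of_lt_one (show (0 : ℝ) < τ / 8 by positivity)
      (show (1 / 2 : ℝ) < 1 by norm_num)
    refine ⟨n + 2, by omega, ?_⟩
    have h1 : (1 / 2 : ℝ) ^ (n + 2) ≤ (1 / 2) ^ n :=
      pow_le_pow_of_le_one (by norm_num) (by norm_num) (by omega)
    linarith
  set X : ℝ := 2 * Λ + 8 + 2 / τ with hX
  have hXp : 0 < X := by positivity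
  obtain ⟨k1, hk1⟩ := exists_nat_ge (Real.log X / c3)
  refine ⟨k1 + 8 * j + 1, j + r1, c', hc'p, ?_⟩
  intro G _ _ k k' M L R S μ hk0 hrank hkk' hSk hS1 hlogS hM hL hLS hG hR
  have hS0 : 0 < S := by linarith
  have hkpos : 1 ≤ k := by omega
  have hkR : (k1 : ℝ) + 8 * j + 1 ≤ k := by exact_mod_cast hk0
  have hk0' : (0 : ℝ) < k := by exact_mod_cast hkpos
  have hkk'R : (k' : ℝ) + j = k := by exact_mod_cast hkk'
  have hXexp : X ≤ Real.exp (c3 * k) := by
    rw [← Real.log_le_iff_le_exp hXp]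
    have h1 : Real.log X / c3 ≤ k := by linarith
    rw [div_le_iff₀ hc3p] at h1
    linarith
  have hSexp : S ≤ Real.exp (c' * k) := by
    rw [← Real.log_le_iff_le_exp hS0]
    exact hlogS
  have h2τ : 0 < 2 / τ := by positivity
  have h2L : (2 * L + 1 : ℝ) ≤ (2 * Λ + 1) * Real.exp (c' * k) := by
    have h1 : (2 * L + 1 : ℝ) ≤ (2 * Λ + 1) * S := by nlinarith
    exact h1.trans (mul_le_mul_of_nonneg_left hSexp (by positivity))
  have hk'2 : (k : ℝ) / 2 ≤ k' := by linarith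
  -- untypical mass
  have hmass0 := typ_good (hh G k) M {g | ¬ g ∣ M} c Cb μ L hG hc hCb hL S ε' Λ hS0 hLS hε k' k j
    hkk' (Real.log S) (fun g => hh_le G k S hkpos hS0 hSk g) (by
      have h1 : (j : ℝ) * Real.log S ≤ j * (c' * k) := mul_le_mul_of_nonneg_left hlogS hj0
      have h2 : (j : ℝ) * (c' * k) ≤ c / 8 * k := by
        rw [← mul_assoc]
        exact mul_le_mul_of_nonneg_right hc'3 hk0'.le
      have h3 : (j : ℝ) * c ≤ c / 8 * k := by
        have : 8 * (j : ℝ) ≤ k := by linarith [(Nat.cast_nonneg k1 : (0:ℝ) ≤ k1)]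
        nlinarith
      nlinarith)
  have hmass : ∑ w ∈ (wd k' L).filter
        (fun w => ¬ Typ (hh G k) {g | ¬ g ∣ M} c μ L k (k' * (Ab μ L + ε' * S)) w), pw μ w ≤
      Real.exp (-(2 * c3 * k)) := by
    refine hmass0.trans ?_
    have e1 : (c / 4) ^ 2 * (k' : ℝ) / (4 * Cb ^ 2) = a1 * k' := by rw [ha1]; ring
    have e2 : ε' ^ 2 * (k' : ℝ) / (4 * Λ ^ 2) = a2 * k' := by rw [ha2]; ring
    rw [e1, e2]
    have f1 : Real.exp (-(a1 * k')) ≤ Real.exp (-(a1 * k / 2)) := by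
      apply Real.exp_le_exp.2
      nlinarith
    have f2 : Real.exp (-(a2 * k')) ≤ Real.exp (-(6 * c3 * k)) := by
      apply Real.exp_le_exp.2
      nlinarith
    have f3 : (2 * L + 1 : ℝ) * Real.exp (-(a1 * k')) ≤
        (2 * Λ + 1) * Real.exp (-(6 * c3 * k)) := by
      calc (2 * L + 1 : ℝ) * Real.exp (-(a1 * k'))
          ≤ ((2 * Λ + 1) * Real.exp (c' * k)) * Real.exp (-(a1 * k / 2)) :=
            mul_le_mul h2L f1 (Real.exp_pos _).le (by positivity)
        _ = (2 * Λ + 1) * Real.exp (c' * k - a1 * k / 2) := by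
            rw [mul_assoc, ← Real.exp_add]
            congr 2
        _ ≤ (2 * Λ + 1) * Real.exp (-(6 * c3 * k)) := by
            apply mul_le_mul_of_nonneg_left _ (by positivity)
            apply Real.exp_le_exp.2
            nlinarith
    have f4 : Real.exp (-(6 * c3 * k)) ≤ Real.exp (-(3 * c3 * k)) := by
      apply Real.exp_le_exp.2
      nlinarith [mul_pos hc3p hk0']
    have f5 : Real.exp (-(2 * c3 * k)) = Real.exp (c3 * k) * Real.exp (-(3 * c3 * k)) := by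
      rw [← Real.exp_add]
      congr 1
      ring
    have f6 : 0 < Real.exp (-(3 * c3 * k)) := Real.exp_pos _
    rw [f5]
    calc (2 * L + 1 : ℝ) * Real.exp (-(a1 * k')) + Real.exp (-(a2 * k'))
        ≤ (2 * Λ + 1) * Real.exp (-(6 * c3 * k)) + Real.exp (-(6 * c3 * k)) :=
          add_le_add f3 f2
      _ = (2 * Λ + 2) * Real.exp (-(6 * c3 * k)) := by ring
      _ ≤ (2 * Λ + 2) * Real.exp (-(3 * c3 * k)) :=
          mul_le_mul_of_nonneg_left f4 (by positivity)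
      _ ≤ Real.exp (c3 * k) * Real.exp (-(3 * c3 * k)) := by
          apply mul_le_mul_of_nonneg_right _ f6.le
          linarith
  -- second moment
  have hord := ordsum (G := G) μ hG.law {g | ¬ g ∣ M}
    ((wd k' L).filter
      (fun w => Typ (hh G k) {g | ¬ g ∣ M} c μ L k (k' * (Ab μ L + ε' * S)) w))
    (filter_subset _ _) (c * k / 2) (by
      intro w hw g hg hgL
      rw [mem_filter] at hw
      refine (hw.2.2 g hg hgL).trans (le_of_eq ?_)
      have hNN : (0 : ℝ) < NN G g := by exact_mod_cast NN_pos G g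
      have e1 : (k : ℝ) * hh G k g = Real.log (NN G g) := by
        unfold hh
        field_simp
      rw [e1, neg_add, Real.exp_add, Real.exp_neg (Real.log _), Real.exp_log hNN]
      field_simp)
  have hord2 : (2 * L + 1 : ℝ) * Real.exp (-(c * k / 2)) ≤ Real.exp (-(c * k / 4)) := by
    calc (2 * L + 1 : ℝ) * Real.exp (-(c * k / 2))
        ≤ ((2 * Λ + 1) * Real.exp (c' * k)) * Real.exp (-(c * k / 2)) :=
          mul_le_mul_of_nonneg_right h2L (Real.exp_pos _).le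
      _ ≤ (Real.exp (c3 * k) * Real.exp (c' * k)) * Real.exp (-(c * k / 2)) := by
          apply mul_le_mul_of_nonneg_right _ (Real.exp_pos _).le
          apply mul_le_mul_of_nonneg_right _ (Real.exp_pos _).le
          linarith
      _ = Real.exp (c3 * k + c' * k + -(c * k / 2)) := by
          rw [← Real.exp_add, ← Real.exp_add]
      _ ≤ Real.exp (-(c * k / 4)) := by
          apply Real.exp_le_exp.2
          nlinarith
  have hmarkov := markov (f := fun z : Fin k' → G =>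
      ∑ χ ∈ univ.filter (fun χ : AddChar G ℂ => orderOf χ ∈ {g | ¬ g ∣ M}),
        ‖phi z ((wd k' L).filter
          (fun w => Typ (hh G k) {g | ¬ g ∣ M} c μ L k (k' * (Ab μ L + ε' * S)) w))
          (pw μ) id χ‖ ^ 2) (fun z => sum_nonneg fun χ _ => by positivity)
      (Real.exp_pos (-(c * k / 8)))
  have hmk2 : pr (fun z : Fin k' → G => Real.exp (-(c * k / 8)) <
      ∑ χ ∈ univ.filter (fun χ : AddChar G ℂ => orderOf χ ∈ {g | ¬ g ∣ M}),
        ‖phi z ((wd k' L).filter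
          (fun w => Typ (hh G k) {g | ¬ g ∣ M} c μ L k (k' * (Ab μ L + ε' * S)) w))
          (pw μ) id χ‖ ^ 2) ≤ τ / 2 := by
    refine hmarkov.trans ?_
    rw [div_le_iff₀ (Real.exp_pos _)]
    refine le_trans (le_of_eq ?_) (hord.trans (hord2.trans ?_))
    · congr!
    have e1 : Real.exp (-(c * k / 4)) = Real.exp (-(c * k / 8)) * Real.exp (-(c * k / 8)) := by
      rw [← Real.exp_add]
      congr 1
      ring
    rw [e1]
    apply mul_le_mul_of_nonneg_right _ (Real.exp_pos _).le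
    have e2 : Real.exp (-(c * k / 8)) ≤ Real.exp (-(c3 * k)) := by
      apply Real.exp_le_exp.2
      nlinarith [mul_pos hc3p hk0']
    have e3 : Real.exp (-(c3 * k)) ≤ τ / 2 := by
      rw [Real.exp_neg]
      have e4 : 2 / τ ≤ Real.exp (c3 * k) := by linarith
      calc (Real.exp (c3 * k))⁻¹ ≤ (2 / τ)⁻¹ := inv_anti₀ h2τ e4
        _ = τ / 2 := by rw [inv_div]
    exact e2.trans e3
  have hkill := kill (G := G) k' r1 M hM hr1 (by omega)
  have hA : 0 ≤ Ab μ L := by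
    unfold Ab
    exact sum_nonneg fun v _ => mul_nonneg (hG.law.nonneg v) (abs_nonneg _)
  calc pr (fun z : Fin k' → G => ¬ unc z R ≤ Real.exp (-c3 * k))
      ≤ pr (fun z : Fin k' → G => (Real.exp (-(c * k / 8)) <
      ∑ χ ∈ univ.filter (fun χ : AddChar G ℂ => orderOf χ ∈ {g | ¬ g ∣ M}),
        ‖phi z ((wd k' L).filter
          (fun w => Typ (hh G k) {g | ¬ g ∣ M} c μ L k (k' * (Ab μ L + ε' * S)) w))
          (pw μ) id χ‖ ^ 2) ∨ (∃ χ : AddChar G ℂ, χ ≠ 1 ∧ χ ^ M = 1 ∧ ∀ i, χ (z i) = 1)) := by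
        apply pr_mono
        intro z hz
        by_contra hcon
        rw [not_or, not_lt] at hcon
        exact hz (CaseA_det c c3 Cb ε' S k k' M L R μ hM hG (by linarith) hε hS0.le hA hR
          h16c (by linarith) hmass z hcon.1 hcon.2)
    _ ≤ τ / 2 + 4 * (1 / 2 : ℝ) ^ r1 := (pr_or_le _ _).trans (add_le_add hmk2 hkill)
    _ ≤ τ := by linarith

end DiamAb
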