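import Mathlib
import Pool.Agent.Lib_MP_0ccc25_pr.Parseval

/-!
Piece COVB. Deterministic bound for the uncovered density when the low characters are small in
the sum norm.

PROOF. Let `P0 = Σ_J p ∈ [3 / 4, 1]` and `Y x = Σ_χ phi χ χ (-x)`, which by `inversion` equals
`|G| Σ_{j ∈ J, dot (W j) z = x} p j ≥ 0`. Split the characters into `1`, `Lo`, `Hi`:
`Y x = P0 + (sum over Lo) + (sum over Hi)`, where the sum over `Lo` has absolute value at most
`1 / 4` (`|χ (-x)| = 1`). If `x` is uncovered at radius `R` then no `j ∈ T` has `dot (W j) z = x`,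
so `Y x = Yb x`, with `Yb x = |G| Σ_{j ∈ J \ T, dot (W j) z = x} p j ≥ 0`. Hence
`‖sum over Hi‖ ≥ P0 - 1 / 4 - Yb x ≥ 1 / 2 - Yb x`, which is at least `1 / 4` unless
`Yb x > 1 / 4`. So `unc z R ≤ pr (Yb > 1 / 4) + pr (‖sum over Hi‖ ≥ 1 / 4)`, and
`av Yb = Σ_{J \ T} p`, so Markov gives the claim.
-/

namespace DiamAb

open Finset

open Classical in
/-- average of the density of a weighted family of words -/
theorem CovB_av {G : Type} [AddCommGroup G] [Fintype G] {k : ℕ} {ι : Type} (z : Fin k → G)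
    (J : Finset ι) (p : ι → ℝ) (W : ι → Fin k → ℤ) :
    av (fun x : G => (Fintype.card G : ℝ) * ∑ j ∈ J.filter (fun j => dot (W j) z = x), p j) =
      ∑ j ∈ J, p j := by
  unfold av
  have hG : (Fintype.card G : ℝ) ≠ 0 := by exact_mod_cast Fintype.card_ne_zero
  rw [← mul_sum, mul_div_assoc, mul_comm, div_mul_cancel₀ _ hG]
  simp only [sum_filter]
  rw [sum_comm]
  refine sum_congr rfl fun j _ => ?_
  rw [sum_ite_eq, if_pos (mem_univ _)]

open Classical in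
theorem covB {G : Type} [AddCommGroup G] [Fintype G] {k : ℕ} {ι : Type} (z : Fin k → G)
    (J T : Finset ι) (hT : T ⊆ J) (p : ι → ℝ) (hp : ∀ j, 0 ≤ p j) (hp1 : ∑ j ∈ J, p j ≤ 1)
    (hp2 : 3 / 4 ≤ ∑ j ∈ J, p j) (W : ι → Fin k → ℤ) (R : ℕ) (hR : ∀ j ∈ T, nrm (W j) ≤ R)
    (Lo Hi : Finset (AddChar G ℂ)) (hd : Disjoint Lo Hi) (hLo : (1 : AddChar G ℂ) ∉ Lo)
    (hHi : (1 : AddChar G ℂ) ∉ Hi) (hall : ∀ χ : AddChar G ℂ, χ ≠ 1 → χ ∈ Lo ∨ χ ∈ Hi)
    (hsmall : ∑ χ ∈ Lo, ‖phi z J p W χ‖ ≤ 1 / 4) :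
    unc z R ≤ 4 * ∑ j ∈ J \ T, p j +
      pr (fun x : G => 1 / 4 ≤ ‖∑ χ ∈ Hi, phi z J p W χ * χ (-x)‖) := by
  set Yb : G → ℝ := fun x =>
    (Fintype.card G : ℝ) * ∑ j ∈ (J \ T).filter (fun j => dot (W j) z = x), p j with hYb
  have hYb0 : ∀ x, 0 ≤ Yb x := fun x =>
    mul_nonneg (Nat.cast_nonneg _) (sum_nonneg fun j _ => hp j)
  have hav : av Yb = ∑ j ∈ J \ T, p j := CovB_av z (J \ T) p W
  have hmk : pr (fun x : G => 1 / 4 < Yb x) ≤ 4 * ∑ j ∈ J \ T, p j := by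
    have := markov (f := Yb) hYb0 (a := 1 / 4) (by norm_num)
    rw [hav] at this
    linarith
  have hkey : ∀ x : G, ¬ Reach z R x →
      1 / 4 < Yb x ∨ 1 / 4 ≤ ‖∑ χ ∈ Hi, phi z J p W χ * χ (-x)‖ := by
    intro x hx
    by_contra hcon
    push Not at hcon
    obtain ⟨h1, h2⟩ := hcon
    have hfil : J.filter (fun j => dot (W j) z = x) =
        (J \ T).filter (fun j => dot (W j) z = x) := by
      ext j
      simp only [mem_filter, mem_sdiff]
      constructor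
      · rintro ⟨hj, hjx⟩
        refine ⟨⟨hj, fun hjT => hx ⟨W j, hjx, hR j hjT⟩⟩, hjx⟩
      · rintro ⟨⟨hj, _⟩, hjx⟩
        exact ⟨hj, hjx⟩
    have hY := inversion z J p W x
    rw [hfil] at hY
    have hY' : ∑ χ : AddChar G ℂ, phi z J p W χ * χ (-x) = ((Yb x : ℝ) : ℂ) := by
      rw [hY, hYb]
      push_cast
      rfl
    have huniv : (univ : Finset (AddChar G ℂ)) = insert 1 (Lo ∪ Hi) := by
      ext χ
      simp only [mem_univ, mem_insert, mem_union, true_iff]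
      by_cases hχ : χ = 1
      · exact Or.inl hχ
      · exact Or.inr (hall χ hχ)
    have h1not : (1 : AddChar G ℂ) ∉ Lo ∪ Hi := by
      rw [mem_union]
      rintro (h | h)
      · exact hLo h
      · exact hHi h
    rw [huniv, sum_insert h1not, sum_union hd] at hY'
    have hone : phi z J p W 1 * (1 : AddChar G ℂ) (-x) = ((∑ j ∈ J, p j : ℝ) : ℂ) := by
      unfold phi
      simp
    rw [hone] at hY'
    have hlo : ‖∑ χ ∈ Lo, phi z J p W χ * χ (-x)‖ ≤ 1 / 4 := by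
      refine (norm_sum_le _ _).trans ((sum_le_sum fun χ _ => ?_).trans hsmall)
      rw [norm_mul, AddChar.norm_apply, mul_one]
    set A := ∑ χ ∈ Lo, phi z J p W χ * χ (-x)
    set B := ∑ χ ∈ Hi, phi z J p W χ * χ (-x)
    set P0 := ∑ j ∈ J, p j
    have heq : (((P0 - Yb x : ℝ)) : ℂ) = -(A + B) := by
      push_cast
      linear_combination hY'
    have h3 : P0 - Yb x ≤ ‖A‖ + ‖B‖ := by
      calc P0 - Yb x ≤ |P0 - Yb x| := le_abs_self _
        _ = ‖(((P0 - Yb x : ℝ)) : ℂ)‖ := by rw [Complex.norm_real, Real.norm_eq_abs]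
        _ = ‖A + B‖ := by rw [heq, norm_neg]
        _ ≤ ‖A‖ + ‖B‖ := norm_add_le _ _
    linarith
  calc unc z R ≤ pr (fun x : G => 1 / 4 < Yb x ∨
        1 / 4 ≤ ‖∑ χ ∈ Hi, phi z J p W χ * χ (-x)‖) := by
        unfold unc
        exact pr_mono hkey
    _ ≤ _ := (pr_or_le _ _).trans (add_le_add hmk le_rfl)

end DiamAb
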