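import Mathlib
import Pool.Agent.Lib_MP_0ccc25_pr.Equi
import Pool.Agent.Lib_MP_0ccc25_pr.CardChar

/-!
Piece L1SUM. Expected sum norm of the characters of a given order, for product noise.

PROOF. For a character of order `g` let `ψ y = ‖Σ_b v b χ(y) ^ (V b)‖`. The average over
`z : Fin k → G` of `Π_i ψ (z i)` is `(av ψ) ^ k`. By `equi` (with
`F ζ = ‖Σ_b v b ζ ^ (V b)‖`): `av ψ = (1 / g) Σ_{a < g} ‖Σ_b v b e1 (a / g) ^ (V b)‖`, and
`e1 (a / g) ^ (V b) = e1 (V b * a / g)`. The term `a = 0` is `Σ_b v b = 1`, the others sum to at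
most `Θ`. So `av ψ ≤ (1 + Θ) / g`. The number of characters of order `g` is at most `NN G g`
(`card_char_ord`).
-/

namespace DiamAb

open Finset

theorem l1_av_prod {G : Type} [Fintype G] (k : ℕ) (ψ : G → ℝ) :
    av (fun z : Fin k → G => ∏ i, ψ (z i)) = (av ψ) ^ k := by
  classical
  unfold av
  have h := Finset.prod_univ_sum (fun _ : Fin k => (univ : Finset G)) (fun _ y => ψ y)
  rw [Fintype.piFinset_univ, prod_const, card_univ, Fintype.card_fin] at h
  rw [← h, div_pow, Fintype.card_fun, Fintype.card_fin]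
  push_cast
  rfl

open Classical in
theorem l1_sum {G : Type} [AddCommGroup G] [Fintype G] (k g : ℕ) (hg : 1 ≤ g) {B : Type}
    [Fintype B] (v : B → ℝ) (V : B → ℤ) (hv : ∀ b, 0 ≤ v b) (hv1 : ∑ b, v b = 1) (Θ : ℝ)
    (hΘ : ∑ a ∈ Ico 1 g, ‖∑ b, (v b : ℂ) * e1 ((V b : ℝ) * a / g)‖ ≤ Θ) :
    av (fun z : Fin k → G => ∑ χ ∈ univ.filter (fun χ : AddChar G ℂ => orderOf χ = g),
        ∏ i, ‖∑ b, (v b : ℂ) * (χ (z i)) ^ (V b)‖) ≤
      NN G g * ((1 + Θ) / g) ^ k := by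
  have hgR : (0 : ℝ) < g := by exact_mod_cast hg
  have hΘ0 : 0 ≤ Θ := le_trans (sum_nonneg fun _ _ => norm_nonneg _) hΘ
  have he1 : ∀ (a : ℕ) (n : ℤ), (e1 ((a : ℝ) / g)) ^ n = e1 ((n : ℝ) * a / g) := by
    intro a n
    unfold e1
    rw [← Complex.exp_int_mul]
    congr 1
    push_cast
    ring
  have hψ : ∀ χ : AddChar G ℂ, orderOf χ = g →
      av (fun y : G => ‖∑ b, (v b : ℂ) * (χ y) ^ (V b)‖) ≤ (1 + Θ) / g := by
    intro χ hχ
    rw [equi χ g hχ (fun ζ => ‖∑ b, (v b : ℂ) * ζ ^ (V b)‖)]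
    apply div_le_div_of_nonneg_right _ hgR.le
    rw [Finset.range_eq_Ico, Finset.sum_eq_sum_Ico_succ_bot hg]
    refine add_le_add ?_ ?_
    · have h0 : e1 (((0 : ℕ) : ℝ) / g) = 1 := by
        unfold e1
        simp
      rw [h0]
      simp only [one_zpow, mul_one]
      rw [← Complex.ofReal_sum, hv1]
      simp
    · refine le_trans (le_of_eq ?_) hΘ
      refine sum_congr rfl fun a _ => ?_
      simp only [he1]
  rw [av_sum]
  have h1 : ∀ χ ∈ univ.filter (fun χ : AddChar G ℂ => orderOf χ = g),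
      av (fun z : Fin k → G => ∏ i, ‖∑ b, (v b : ℂ) * (χ (z i)) ^ (V b)‖) ≤
        ((1 + Θ) / g) ^ k := by
    intro χ hχ
    rw [l1_av_prod k (fun y => ‖∑ b, (v b : ℂ) * (χ y) ^ (V b)‖)]
    exact pow_le_pow_left₀ (av_nonneg fun _ => norm_nonneg _) (hψ χ (mem_filter.mp hχ).2) k
  refine (sum_le_sum h1).trans ?_
  rw [sum_const, nsmul_eq_mul]
  apply mul_le_mul_of_nonneg_right
  · exact_mod_cast card_char_ord G g
  · positivity

end DiamAb
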