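import Mathlib
import Pool.Agent.Lib_MP_0ccc25_pr.Base

/-!
Piece NOISE. The smoothing noise of case B: centred binomial plus uniform on `[0, M)`.

PROOF of `noise_sum`: binomial theorem.
PROOF of `noise_theta`. `Σ_b bw b e1 (bv b θ) = e1 (-(s / 2) θ) * ((1 + e1 θ) / 2) ^ s *
((1 / M) Σ_{t < M} e1 (t θ))`, with absolute value
`|cos (π θ)| ^ s * |(1 / M) Σ_{t < M} e1 (t θ)|` (`|1 + e1 θ| = 2 |cos (π θ)|`).
Let `θ = a / g`, `1 ≤ a < g`. If `g ∣ M` the geometric sum vanishes (`e1 θ ≠ 1`, `e1 (M θ) = 1`):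
first claim. In general it is at most `1` in absolute value; with `a' = min a (g - a)`, `1 ≤ a' ≤ g / 2`,
`|cos (π a / g)| = cos (π a' / g) ≤ exp (-(π a' / g) ^ 2 / 2) ≤ exp (-4 a' ^ 2 / g ^ 2)`
(`Real.cos_le_exp_neg_sq_div_two`-type bound: `cos x ≤ exp (-x ^ 2 / 2)` for `0 ≤ x ≤ π / 2`; if Mathlib
lacks it, use `cos x ≤ 1 - 2 x ^ 2 / π ^ 2`-type bounds to get `cos x ≤ exp (-(4 / π ^ 2) x ^ 2 ...)`;
what is needed is only `|cos (π a' / g)| ≤ exp (-4 a' ^ 2 / g ^ 2)` for `a' / g ≤ 1 / 2`, i.e.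
`cos (π y) ≤ exp (-4 y ^ 2)` for `0 ≤ y ≤ 1 / 2`). The derivative proof: `log cos x + x ^ 2 / 2` has
derivative `x - tan x ≤ 0` on `[0, π / 2)`.
So each term is at most `x ^ (a' ^ 2)` with `x = exp (-4 s / g ^ 2) ≤ 1 / 2`, every `a' ≥ 1` occurs at
most twice, and `Σ_{a' ≥ 1} x ^ (a' ^ 2) ≤ Σ_{a' ≥ 1} x ^ a' ≤ 2 x`. Total at most `4 x`.
-/

namespace DiamAb

open Finset

/-- weights of the noise -/
noncomputable def bw (s M : ℕ) (b : Fin (s + 1) × Fin M) : ℝ :=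
  (s.choose b.1 : ℝ) / 2 ^ s / M

/-- values of the noise -/
def bv (s M : ℕ) (b : Fin (s + 1) × Fin M) : ℤ := (b.1 : ℤ) - ((s / 2 : ℕ) : ℤ) + (b.2 : ℤ)

theorem bw_nonneg (s M : ℕ) (b : Fin (s + 1) × Fin M) : 0 ≤ bw s M b := by
  unfold bw; positivity

theorem noise_sum (s M : ℕ) (hM : 1 ≤ M) : ∑ b, bw s M b = 1 := by
  have hM' : (M : ℝ) ≠ 0 := by
    have : (0 : ℝ) < M := by exact_mod_cast hM
    exact this.ne'
  unfold bw
  rw [Fintype.sum_prod_type]
  simp only [sum_const, card_univ, Fintype.card_fin, nsmul_eq_mul]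
  have h1 : ∀ x : Fin (s + 1), (M : ℝ) * ((s.choose x : ℝ) / 2 ^ s / M)
      = (s.choose x : ℝ) / 2 ^ s := by
    intro x
    field_simp
  rw [sum_congr rfl fun x _ => h1 x, ← sum_div]
  have h2 : ∑ x : Fin (s + 1), (s.choose x : ℝ) = 2 ^ s := by
    rw [Fin.sum_univ_eq_sum_range (fun i => (s.choose i : ℝ)) (s + 1)]
    exact_mod_cast Nat.sum_range_choose s
  rw [h2]
  exact div_self (by positivity)

theorem noise_e1_add (x y : ℝ) : e1 (x + y) = e1 x * e1 y := by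
  unfold e1
  rw [← Complex.exp_add]
  congr 1
  push_cast
  ring

theorem noise_e1_nat (n : ℕ) (x : ℝ) : e1 (n * x) = e1 x ^ n := by
  unfold e1
  rw [← Complex.exp_nat_mul]
  congr 1
  push_cast
  ring

theorem noise_e1_int (n : ℤ) (x : ℝ) : e1 (n * x) = e1 x ^ n := by
  unfold e1
  rw [← Complex.exp_int_mul]
  congr 1
  push_cast
  ring

theorem noise_e1_norm (x : ℝ) : ‖e1 x‖ = 1 := by
  unfold e1
  rw [show (2 * (Real.pi : ℂ) * Complex.I * (x : ℂ)) = ((2 * Real.pi * x : ℝ) : ℂ) * Complex.I by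
    push_cast; ring]
  exact Complex.norm_exp_ofReal_mul_I _

/-- the characteristic function of the noise, factored -/
theorem noise_factor (s M : ℕ) (hM : 1 ≤ M) (θ : ℝ) :
    ∑ b, (bw s M b : ℂ) * e1 ((bv s M b : ℝ) * θ) =
      e1 (-((s / 2 : ℕ) : ℝ) * θ) * ((1 + e1 θ) / 2) ^ s *
        ((∑ t ∈ range M, e1 θ ^ t) / M) := by
  have hM' : (M : ℂ) ≠ 0 := by
    have : M ≠ 0 := by omega
    exact_mod_cast this
  have h1 : ∀ b : Fin (s + 1) × Fin M, (bw s M b : ℂ) * e1 ((bv s M b : ℝ) * θ) =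
      (e1 (-((s / 2 : ℕ) : ℝ) * θ) * (((s.choose b.1 : ℕ) : ℂ) * e1 θ ^ (b.1 : ℕ) / 2 ^ s)) *
        (e1 θ ^ (b.2 : ℕ) / M) := by
    intro b
    have h2 : ((bv s M b : ℤ) : ℝ) * θ =
        (-((s / 2 : ℕ) : ℝ) * θ) + ((b.1 : ℕ) : ℝ) * θ + ((b.2 : ℕ) : ℝ) * θ := by
      unfold bv
      rw [Int.cast_add, Int.cast_sub, Int.cast_natCast, Int.cast_natCast, Int.cast_natCast]
      ring
    rw [h2, noise_e1_add, noise_e1_add, noise_e1_nat, noise_e1_nat]
    unfold bw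
    push_cast
    field_simp
  rw [sum_congr rfl fun b _ => h1 b, Fintype.sum_prod_type]
  simp only
  rw [← Finset.sum_mul_sum, ← mul_sum]
  congr 1
  · congr 1
    rw [← sum_div, div_pow]
    congr 1
    rw [Fin.sum_univ_eq_sum_range (fun i => ((s.choose i : ℕ) : ℂ) * e1 θ ^ i) (s + 1)]
    rw [add_comm (1 : ℂ), add_pow]
    refine sum_congr rfl fun i _ => ?_
    rw [one_pow, mul_one]
    ring
  · rw [← sum_div]
    congr 1
    exact Fin.sum_univ_eq_sum_range (fun i => e1 θ ^ i) M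

theorem noise_cos_le {x : ℝ} (h0 : 0 ≤ x) (h1 : x ≤ Real.pi / 2) :
    Real.cos x ≤ Real.exp (-(x ^ 2 / 2)) := by
  have hanti : AntitoneOn (fun y : ℝ => Real.cos y * Real.exp (y ^ 2 / 2))
      (Set.Icc 0 (Real.pi / 2)) := by
    apply antitoneOn_of_deriv_nonpos (convex_Icc _ _)
    · fun_prop
    · fun_prop
    · intro y hy
      rw [interior_Icc] at hy
      have hd : HasDerivAt (fun y : ℝ => Real.cos y * Real.exp (y ^ 2 / 2))
          (-Real.sin y * Real.exp (y ^ 2 / 2) + Real.cos y * (Real.exp (y ^ 2 / 2) * y)) y := by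
        have h2 : HasDerivAt (fun y : ℝ => y ^ 2 / 2) y y := by
          have h3 := (hasDerivAt_pow 2 y).div_const 2
          have h5 : ((2 : ℕ) : ℝ) * y ^ (2 - 1) / 2 = y := by norm_num
          rw [h5] at h3
          exact h3
        exact (Real.hasDerivAt_cos y).mul h2.exp
      rw [hd.deriv]
      have h4 : y < Real.tan y := Real.lt_tan hy.1 hy.2
      have hc : 0 < Real.cos y := Real.cos_pos_of_mem_Ioo ⟨by linarith [hy.1, Real.pi_pos], hy.2⟩
      rw [Real.tan_eq_sin_div_cos, lt_div_iff₀ hc] at h4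
      have he := Real.exp_pos (y ^ 2 / 2)
      nlinarith
  have h2 := hanti (Set.left_mem_Icc.2 (by linarith [Real.pi_pos])) ⟨h0, h1⟩ h0
  simp only [Real.cos_zero, ne_eq, OfNat.ofNat_ne_zero, not_false_eq_true, zero_pow, zero_div,
    Real.exp_zero, mul_one] at h2
  rw [Real.exp_neg, ← one_div, le_div_iff₀ (Real.exp_pos _)]
  exact h2

theorem noise_norm_cos (θ : ℝ) : ‖(1 + e1 θ) / 2‖ = |Real.cos (Real.pi * θ)| := by
  have h1 : (1 + e1 θ) / 2 = e1 (θ / 2) * (Real.cos (Real.pi * θ) : ℂ) := by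
    have h2 : e1 θ = e1 (θ / 2) * e1 (θ / 2) := by
      rw [← noise_e1_add]
      congr 1
      ring
    have h3 : e1 (θ / 2) * e1 (-(θ / 2)) = 1 := by
      rw [← noise_e1_add]
      unfold e1
      simp
    have h4 : ((Real.cos (Real.pi * θ) : ℝ) : ℂ) = (e1 (θ / 2) + e1 (-(θ / 2))) / 2 := by
      rw [Complex.ofReal_cos, Complex.cos]
      unfold e1
      congr 2
      · congr 1; push_cast; ring
      · congr 1; push_cast; ring
    rw [h4, h2]
    linear_combination (1 / 2 : ℂ) * (-h3)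
  rw [h1, norm_mul, noise_e1_norm, one_mul, Complex.norm_real, Real.norm_eq_abs]

theorem noise_geo_le (M : ℕ) (hM : 1 ≤ M) (θ : ℝ) : ‖(∑ t ∈ range M, e1 θ ^ t) / (M : ℂ)‖ ≤ 1 := by
  have hM' : (0 : ℝ) < M := by exact_mod_cast hM
  rw [norm_div, Complex.norm_natCast, div_le_one hM']
  refine (norm_sum_le _ _).trans ?_
  simp [noise_e1_norm]

theorem noise_norm (s M : ℕ) (hM : 1 ≤ M) (θ : ℝ) :
    ‖∑ b, (bw s M b : ℂ) * e1 ((bv s M b : ℝ) * θ)‖ =
      |Real.cos (Real.pi * θ)| ^ s * ‖(∑ t ∈ range M, e1 θ ^ t) / (M : ℂ)‖ := by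
  rw [noise_factor s M hM, norm_mul, norm_mul, noise_e1_norm, one_mul, norm_pow, noise_norm_cos]

theorem noise_theta_dvd (s M g : ℕ) (hM : 1 ≤ M) (hg : 2 ≤ g) (h : g ∣ M) :
    ∑ a ∈ Ico 1 g, ‖∑ b, (bw s M b : ℂ) * e1 ((bv s M b : ℝ) * a / g)‖ = 0 := by
  refine sum_eq_zero fun a ha => ?_
  rw [mem_Ico] at ha
  have hg0 : (g : ℝ) ≠ 0 := by
    have : (0 : ℝ) < g := by exact_mod_cast (by omega : 0 < g)
    exact this.ne'
  have h1 : ∀ b : Fin (s + 1) × Fin M, ((bv s M b : ℤ) : ℝ) * a / g = (bv s M b : ℝ) * (a / g) :=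
    fun b => by ring
  simp only [h1]
  rw [noise_norm s M hM]
  have h2 : ∑ t ∈ range M, e1 ((a : ℝ) / g) ^ t = 0 := by
    have hne : e1 ((a : ℝ) / g) ≠ 1 := by
      intro hc
      unfold e1 at hc
      rw [Complex.exp_eq_one_iff] at hc
      obtain ⟨n, hn⟩ := hc
      have h3 : ((a : ℝ) / g : ℝ) = n := by
        have hpi : (2 * (Real.pi : ℂ) * Complex.I) ≠ 0 := by
          simp [Real.pi_ne_zero]
        have h4 : ((((a : ℝ) / g : ℝ)) : ℂ) = (n : ℂ) := by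
          apply mul_left_cancel₀ hpi
          rw [hn]
          ring
        exact_mod_cast h4
      rw [div_eq_iff hg0] at h3
      have h5 : (a : ℤ) = n * g := by exact_mod_cast h3
      have h6 : (g : ℤ) ∣ a := ⟨n, by rw [h5]; ring⟩
      have h7 : g ∣ a := by exact_mod_cast h6
      have := Nat.le_of_dvd (by omega) h7
      omega
    rw [geom_sum_eq hne, ← noise_e1_nat]
    obtain ⟨m, rfl⟩ := h
    have h8 : e1 (((g * m : ℕ) : ℝ) * ((a : ℝ) / g)) = 1 := by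
      unfold e1
      rw [Complex.exp_eq_one_iff]
      refine ⟨m * a, ?_⟩
      have hg0' : (g : ℂ) ≠ 0 := by exact_mod_cast hg0
      push_cast
      field_simp
    rw [h8]
    simp
  rw [h2]
  simp

theorem noise_cos_bound (g a : ℕ) (hg : 2 ≤ g) (ha1 : 1 ≤ a) (ha2 : a < g) (s : ℕ) :
    |Real.cos (Real.pi * ((a : ℝ) / g))| ^ s ≤
      Real.exp (-(4 * s / (g : ℝ) ^ 2)) ^ (min a (g - a)) := by
  have hg0 : (0 : ℝ) < g := by exact_mod_cast (by omega : 0 < g)
  have hpi := Real.pi_pos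
  have hpi3 := Real.pi_gt_three
  -- symmetric reduction
  have key : ∀ b : ℕ, 1 ≤ b → 2 * b ≤ g → |Real.cos (Real.pi * ((b : ℝ) / g))| ^ s ≤
      Real.exp (-(4 * s / (g : ℝ) ^ 2)) ^ b := by
    intro b hb1 hb2
    have hb : (1 : ℝ) ≤ b := by exact_mod_cast hb1
    have hbg : 2 * (b : ℝ) ≤ g := by exact_mod_cast hb2
    have hy : (b : ℝ) / g ≤ 1 / 2 := by
      rw [div_le_iff₀ hg0]; linarith
    have hy0 : 0 ≤ (b : ℝ) / g := by positivity
    have hx1 : 0 ≤ Real.pi * ((b : ℝ) / g) := by positivity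
    have hx2 : Real.pi * ((b : ℝ) / g) ≤ Real.pi / 2 := by nlinarith
    have hc0 : 0 ≤ Real.cos (Real.pi * ((b : ℝ) / g)) :=
      Real.cos_nonneg_of_mem_Icc ⟨by linarith, hx2⟩
    rw [abs_of_nonneg hc0]
    have h1 := noise_cos_le hx1 hx2
    calc Real.cos (Real.pi * ((b : ℝ) / g)) ^ s
        ≤ Real.exp (-((Real.pi * ((b : ℝ) / g)) ^ 2 / 2)) ^ s := pow_le_pow_left₀ hc0 h1 s
      _ = Real.exp (s * (-((Real.pi * ((b : ℝ) / g)) ^ 2 / 2))) := by rw [← Real.exp_nat_mul]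
      _ ≤ Real.exp (b * (-(4 * s / (g : ℝ) ^ 2))) := by
          apply Real.exp_le_exp.2
          have h2 : (s : ℝ) * (-((Real.pi * ((b : ℝ) / g)) ^ 2 / 2)) =
              -(s * (Real.pi ^ 2 / 2) * b ^ 2 / g ^ 2) := by
            field_simp
          have h3 : (b : ℝ) * (-(4 * s / (g : ℝ) ^ 2)) = -(s * 4 * b / g ^ 2) := by ring
          rw [h2, h3]
          apply neg_le_neg
          apply div_le_div_of_nonneg_right _ (by positivity)
          have hs : (0 : ℝ) ≤ s := by positivity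
          have h4 : (4 : ℝ) ≤ Real.pi ^ 2 / 2 := by nlinarith
          have h5 : (b : ℝ) ≤ b ^ 2 := by nlinarith
          calc (s : ℝ) * 4 * b ≤ s * (Real.pi ^ 2 / 2) * b := by gcongr
            _ ≤ s * (Real.pi ^ 2 / 2) * b ^ 2 := by gcongr
      _ = Real.exp (-(4 * s / (g : ℝ) ^ 2)) ^ b := by rw [← Real.exp_nat_mul]
  rcases le_total a (g - a) with h | h
  · rw [min_eq_left h]
    exact key a ha1 (by omega)
  · rw [min_eq_right h]
    have h1 := key (g - a) (by omega) (by omega)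
    have h2 : Real.cos (Real.pi * (((g - a : ℕ) : ℝ) / g)) =
        -Real.cos (Real.pi * ((a : ℝ) / g)) := by
      rw [Nat.cast_sub ha2.le]
      rw [show Real.pi * (((g : ℝ) - a) / g) = Real.pi - Real.pi * ((a : ℝ) / g) by
        field_simp]
      exact Real.cos_pi_sub _
    rw [h2, abs_neg] at h1
    exact h1

theorem noise_theta (s M g : ℕ) (hM : 1 ≤ M) (hg : 2 ≤ g)
    (h : Real.exp (-(4 * s / (g : ℝ) ^ 2)) ≤ 1 / 2) :
    ∑ a ∈ Ico 1 g, ‖∑ b, (bw s M b : ℂ) * e1 ((bv s M b : ℝ) * a / g)‖ ≤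
      4 * Real.exp (-(4 * s / (g : ℝ) ^ 2)) := by
  set x := Real.exp (-(4 * s / (g : ℝ) ^ 2)) with hx
  have hx0 : 0 < x := Real.exp_pos _
  have hterm : ∀ a ∈ Ico 1 g, ‖∑ b, (bw s M b : ℂ) * e1 ((bv s M b : ℝ) * a / g)‖ ≤
      x ^ a + x ^ (g - a) := by
    intro a ha
    rw [mem_Ico] at ha
    have h1 : ∀ b : Fin (s + 1) × Fin M, ((bv s M b : ℤ) : ℝ) * a / g = (bv s M b : ℝ) * (a / g) :=
      fun b => by ring
    simp only [h1]
    rw [noise_norm s M hM]
    have h2 := noise_cos_bound g a hg ha.1 ha.2 s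
    have h3 := noise_geo_le M hM ((a : ℝ) / g)
    calc |Real.cos (Real.pi * ((a : ℝ) / g))| ^ s *
          ‖(∑ t ∈ range M, e1 ((a : ℝ) / g) ^ t) / (M : ℂ)‖
        ≤ x ^ (min a (g - a)) * 1 := by
          apply mul_le_mul h2 h3 (norm_nonneg _) (by positivity)
      _ ≤ x ^ a + x ^ (g - a) := by
          rw [mul_one]
          rcases le_total a (g - a) with h' | h'
          · rw [min_eq_left h']
            have : 0 ≤ x ^ (g - a) := by positivity
            linarith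
          · rw [min_eq_right h']
            have : 0 ≤ x ^ a := by positivity
            linarith
  refine (sum_le_sum hterm).trans ?_
  rw [sum_add_distrib]
  have hrefl : ∑ a ∈ Ico 1 g, x ^ (g - a) = ∑ a ∈ Ico 1 g, x ^ a := by
    apply Finset.sum_nbij' (fun a => g - a) (fun a => g - a)
    · intro a ha
      rw [mem_Ico] at ha ⊢
      omega
    · intro a ha
      rw [mem_Ico] at ha ⊢
      omega
    · intro a ha
      rw [mem_Ico] at ha
      omega
    · intro a ha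
      rw [mem_Ico] at ha
      omega
    · intro a ha
      rfl
  rw [hrefl]
  have hgeo : ∑ a ∈ Ico 1 g, x ^ a ≤ 2 * x := by
    have h2 : ∀ m : ℕ, ∑ a ∈ Ico 1 (m + 1), x ^ a ≤ 2 * x - 2 * x ^ (m + 1) := by
      intro m
      induction m with
      | zero => simp
      | succ m ih =>
        rw [Finset.sum_Ico_succ_top (by omega)]
        have h3 : x ^ (m + 1 + 1) = x ^ (m + 1) * x := pow_succ _ _
        have h4 : 0 < x ^ (m + 1) := by positivity
        nlinarith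
    obtain ⟨m, rfl⟩ : ∃ m, g = m + 1 := ⟨g - 1, by omega⟩
    have := h2 m
    have h4 : 0 < x ^ (m + 1) := by positivity
    linarith
  linarith

end DiamAb
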