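import Mathlib
import Pool.Agent.Lib_MP_0ccc25_pr.Noise

/-!
Piece NOISETAIL. Large values of the noise of case B.

PROOF of `noise_tail`. For `λ = 4 / (ε S) ≤ 4`: `E exp (λ |V1|) ≤ E exp (λ V1) + E exp (-λ V1)`,
with `V1 = Bin - s / 2` (natural floor), `E exp (± λ (Bin - s/2 exact)) = (cosh (λ / 2)) ^ s ≤
exp (λ ^ 2 s / 8) ≤ exp 2` (`Real.cosh_le_exp_half_sq`, and `s ≤ (ε S) ^ 2`), and the floor changes the
exponent by at most `λ / 2 ≤ 2`. So `E exp (λ |V1|) ≤ 2 exp 4`. As `|bv b| ≤ |V1| + M`, the event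
`k (3 ε S + M) < nrm` implies `Σ_i |V1_i| > 3 ε S k`, of weight at most
`(2 exp 4) ^ k exp (-3 λ ε S k) = (2 exp (-8)) ^ k ≤ exp (-7 k)`.
-/

namespace DiamAb

open Finset

theorem noisetail_binom (s : ℕ) (μ : ℝ) :
    ∑ j : Fin (s + 1), (s.choose j : ℝ) / 2 ^ s * Real.exp (μ * ((j : ℕ) - ((s / 2 : ℕ) : ℝ))) =
      Real.exp (μ * ((s : ℝ) / 2 - ((s / 2 : ℕ) : ℝ))) * Real.cosh (μ / 2) ^ s := by
  have h1 : Real.cosh (μ / 2) = Real.exp (-(μ / 2)) * ((Real.exp μ + 1) / 2) := by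
    rw [Real.cosh_eq, ← mul_div_assoc, mul_add, ← Real.exp_add, mul_one]
    congr 2
    ring_nf
  have h2 : Real.cosh (μ / 2) ^ s = Real.exp (-(μ * (s / 2))) *
      ((Real.exp μ + 1) ^ s / 2 ^ s) := by
    rw [h1, mul_pow, ← Real.exp_nat_mul, div_pow]
    congr 2
    ring
  rw [h2, ← mul_assoc, ← Real.exp_add, add_pow, Fin.sum_univ_eq_sum_range
    (fun j => (s.choose j : ℝ) / 2 ^ s * Real.exp (μ * ((j : ℕ) - ((s / 2 : ℕ) : ℝ)))) (s + 1),
    sum_div, mul_sum]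
  refine sum_congr rfl fun j _ => ?_
  have e1 : Real.exp (μ * ((j : ℝ) - ((s / 2 : ℕ) : ℝ))) =
      Real.exp (μ * ((s : ℝ) / 2 - ((s / 2 : ℕ) : ℝ)) + -(μ * (s / 2))) * Real.exp μ ^ j := by
    rw [← Real.exp_nat_mul, ← Real.exp_add]
    congr 1
    ring
  rw [e1, one_pow, mul_one]
  ring

theorem noisetail_bound (s : ℕ) (μ A : ℝ) (hA : 1 ≤ A) (hs : (s : ℝ) ≤ A ^ 2)
    (hμ : |μ| = 4 / A) :
    ∑ j : Fin (s + 1), (s.choose j : ℝ) / 2 ^ s * Real.exp (μ * ((j : ℕ) - ((s / 2 : ℕ) : ℝ))) ≤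
      Real.exp 4 := by
  have hA0 : 0 < A := by linarith
  rw [noisetail_binom]
  have h1 : Real.cosh (μ / 2) ^ s ≤ Real.exp 2 := by
    calc Real.cosh (μ / 2) ^ s ≤ Real.exp ((μ / 2) ^ 2 / 2) ^ s :=
          pow_le_pow_left₀ (Real.cosh_pos _).le (Real.cosh_le_exp_half_sq _) _
      _ = Real.exp (s * ((μ / 2) ^ 2 / 2)) := by rw [Real.exp_nat_mul]
      _ ≤ Real.exp 2 := by
          apply Real.exp_le_exp.2
          have h2 : μ ^ 2 = 16 / A ^ 2 := by
            rw [← sq_abs, hμ, div_pow]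
            norm_num
          have h3 : (s : ℝ) * ((μ / 2) ^ 2 / 2) = s * (2 / A ^ 2) := by
            rw [div_pow, h2]
            ring
          rw [h3, mul_div_assoc', div_le_iff₀ (by positivity)]
          linarith
  have h2 : Real.exp (μ * ((s : ℝ) / 2 - ((s / 2 : ℕ) : ℝ))) ≤ Real.exp 2 := by
    apply Real.exp_le_exp.2
    have h3 : (0 : ℝ) ≤ (s : ℝ) / 2 - ((s / 2 : ℕ) : ℝ) := by
      have : ((s / 2 : ℕ) : ℝ) ≤ (s : ℝ) / 2 := by
        have := @Nat.cast_div_le ℝ _ _ _ s 2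
        simpa using this
      linarith
    have h4 : (s : ℝ) / 2 - ((s / 2 : ℕ) : ℝ) ≤ 1 / 2 := by
      have : s ≤ 2 * (s / 2) + 1 := by omega
      have h5 : (s : ℝ) ≤ 2 * ((s / 2 : ℕ) : ℝ) + 1 := by exact_mod_cast this
      linarith
    have h5 : |μ| ≤ 4 := by
      rw [hμ, div_le_iff₀ hA0]
      linarith
    calc μ * ((s : ℝ) / 2 - ((s / 2 : ℕ) : ℝ)) ≤ |μ| * ((s : ℝ) / 2 - ((s / 2 : ℕ) : ℝ)) :=
          mul_le_mul_of_nonneg_right (le_abs_self μ) h3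
      _ ≤ 4 * (1 / 2) := mul_le_mul h5 h4 h3 (by norm_num)
      _ = 2 := by norm_num
  calc Real.exp (μ * ((s : ℝ) / 2 - ((s / 2 : ℕ) : ℝ))) * Real.cosh (μ / 2) ^ s ≤
        Real.exp 2 * Real.exp 2 := mul_le_mul h2 h1 (by positivity) (by positivity)
    _ = Real.exp 4 := by rw [← Real.exp_add]; norm_num

theorem noisetail_one (s M : ℕ) (hM : 1 ≤ M) (A : ℝ) (hA : 1 ≤ A) (hs : (s : ℝ) ≤ A ^ 2) :
    ∑ b, bw s M b * Real.exp (4 / A * (|(bv s M b : ℝ)| - (3 * A + M))) ≤ Real.exp (-7) := by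
  have hA0 : 0 < A := by linarith
  have hM0 : (0 : ℝ) < M := by exact_mod_cast hM
  have h1 : ∀ b : Fin (s + 1) × Fin M, bw s M b * Real.exp (4 / A * (|(bv s M b : ℝ)| -
      (3 * A + M))) ≤ (1 / M) * (Real.exp (-12) * ((s.choose b.1 : ℝ) / 2 ^ s *
        (Real.exp (4 / A * ((b.1 : ℕ) - ((s / 2 : ℕ) : ℝ))) +
        Real.exp (-(4 / A) * ((b.1 : ℕ) - ((s / 2 : ℕ) : ℝ)))))) := by
    intro b
    have e1 : Real.exp (4 / A * (|(bv s M b : ℝ)| - (3 * A + M))) ≤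
        Real.exp (-12) * (Real.exp (4 / A * ((b.1 : ℕ) - ((s / 2 : ℕ) : ℝ))) +
        Real.exp (-(4 / A) * ((b.1 : ℕ) - ((s / 2 : ℕ) : ℝ)))) := by
      have hb : ((b.2 : ℕ) : ℝ) ≤ M := by exact_mod_cast b.2.2.le
      have hb0 : (0 : ℝ) ≤ ((b.2 : ℕ) : ℝ) := by positivity
      have hv : (bv s M b : ℝ) = ((b.1 : ℕ) : ℝ) - ((s / 2 : ℕ) : ℝ) + ((b.2 : ℕ) : ℝ) := by
        unfold bv
        simp only [Int.cast_add, Int.cast_sub, Int.cast_natCast]
      have hab : |(bv s M b : ℝ)| ≤ |((b.1 : ℕ) : ℝ) - ((s / 2 : ℕ) : ℝ)| + M := by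
        rw [hv]
        refine (abs_add_le _ _).trans ?_
        rw [abs_of_nonneg hb0]
        linarith
      have hexp : 4 / A * (|(bv s M b : ℝ)| - (3 * A + M)) ≤
          -12 + 4 / A * |((b.1 : ℕ) : ℝ) - ((s / 2 : ℕ) : ℝ)| := by
        have : 4 / A * (|(bv s M b : ℝ)| - (3 * A + M)) ≤
            4 / A * (|((b.1 : ℕ) : ℝ) - ((s / 2 : ℕ) : ℝ)| - 3 * A) :=
          mul_le_mul_of_nonneg_left (by linarith) (by positivity)
        refine this.trans (le_of_eq ?_)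
        field_simp
        ring
      refine (Real.exp_le_exp.2 hexp).trans ?_
      rw [Real.exp_add]
      refine mul_le_mul_of_nonneg_left ?_ (Real.exp_pos _).le
      rcases abs_cases (((b.1 : ℕ) : ℝ) - ((s / 2 : ℕ) : ℝ)) with h | h
      · rw [h.1]
        linarith [Real.exp_pos (-(4 / A) * (((b.1 : ℕ) : ℝ) - ((s / 2 : ℕ) : ℝ)))]
      · rw [h.1, mul_neg, ← neg_mul]
        linarith [Real.exp_pos (4 / A * (((b.1 : ℕ) : ℝ) - ((s / 2 : ℕ) : ℝ)))]
    calc bw s M b * Real.exp (4 / A * (|(bv s M b : ℝ)| - (3 * A + M))) ≤ bw s M b *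
          (Real.exp (-12) * (Real.exp (4 / A * ((b.1 : ℕ) - ((s / 2 : ℕ) : ℝ))) +
          Real.exp (-(4 / A) * ((b.1 : ℕ) - ((s / 2 : ℕ) : ℝ))))) :=
          mul_le_mul_of_nonneg_left e1 (bw_nonneg s M b)
      _ = _ := by
          unfold bw
          ring
  refine (sum_le_sum fun b _ => h1 b).trans ?_
  rw [Fintype.sum_prod_type]
  dsimp only
  have h2 : ∀ j : Fin (s + 1), ∑ _t : Fin M, (1 / (M : ℝ)) * (Real.exp (-12) *
      ((s.choose j : ℝ) / 2 ^ s * (Real.exp (4 / A * ((j : ℕ) - ((s / 2 : ℕ) : ℝ))) +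
        Real.exp (-(4 / A) * ((j : ℕ) - ((s / 2 : ℕ) : ℝ)))))) =
      Real.exp (-12) * ((s.choose j : ℝ) / 2 ^ s *
        Real.exp (4 / A * ((j : ℕ) - ((s / 2 : ℕ) : ℝ))) + (s.choose j : ℝ) / 2 ^ s *
        Real.exp (-(4 / A) * ((j : ℕ) - ((s / 2 : ℕ) : ℝ)))) := by
    intro j
    rw [sum_const, card_univ, Fintype.card_fin, nsmul_eq_mul]
    field_simp
  rw [sum_congr rfl fun j _ => h2 j, ← mul_sum, sum_add_distrib]
  have h3 := noisetail_bound s (4 / A) A hA hs (abs_of_pos (by positivity))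
  have h4 := noisetail_bound s (-(4 / A)) A hA hs (by
    rw [abs_neg]; exact abs_of_pos (by positivity))
  have h5 : Real.exp (-12) * (Real.exp 4 + Real.exp 4) ≤ Real.exp (-7) := by
    have h6 : Real.exp (-12) * (Real.exp 4 + Real.exp 4) = 2 * Real.exp (-8) := by
      rw [mul_add, ← Real.exp_add]
      norm_num
      ring
    have h7 : Real.exp (-7) = Real.exp 1 * Real.exp (-8) := by
      rw [← Real.exp_add]
      norm_num
    rw [h6, h7]
    refine mul_le_mul_of_nonneg_right ?_ (Real.exp_pos _).le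
    have := Real.add_one_le_exp (1 : ℝ)
    linarith
  refine le_trans ?_ h5
  exact mul_le_mul_of_nonneg_left (add_le_add h3 h4) (Real.exp_pos _).le

open Classical in
theorem noise_tail (s M k : ℕ) (hM : 1 ≤ M) (A : ℝ) (hA : 1 ≤ A) (hs : (s : ℝ) ≤ A ^ 2) :
    ∑ β ∈ univ.filter (fun β : Fin k → Fin (s + 1) × Fin M =>
        k * (3 * A + M) < (nrm (fun i => bv s M (β i)) : ℝ)), ∏ i, bw s M (β i) ≤
      Real.exp (-(7 * k)) := by
  have hA0 : 0 < A := by linarith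
  have h1 : ∑ β ∈ univ.filter (fun β : Fin k → Fin (s + 1) × Fin M =>
        k * (3 * A + M) < (nrm (fun i => bv s M (β i)) : ℝ)), ∏ i, bw s M (β i) ≤
      ∑ β : Fin k → Fin (s + 1) × Fin M,
        ∏ i, (bw s M (β i) * Real.exp (4 / A * (|(bv s M (β i) : ℝ)| - (3 * A + M)))) := by
    rw [sum_filter]
    refine sum_le_sum fun β _ => ?_
    have h0 : 0 ≤ ∏ i, bw s M (β i) := prod_nonneg fun i _ => bw_nonneg s M _
    rw [prod_mul_distrib, ← Real.exp_sum, ← mul_sum, sum_sub_distrib, ← nrm_cast, sum_const,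
      card_univ, Fintype.card_fin, nsmul_eq_mul]
    split_ifs with h
    · apply le_mul_of_one_le_right h0
      rw [← Real.exp_zero]
      apply Real.exp_le_exp.2
      exact mul_nonneg (by positivity) (by linarith)
    · positivity
  refine h1.trans ?_
  rw [← Fintype.piFinset_univ, ← Finset.prod_univ_sum (fun _ : Fin k => univ)
    (fun _ b => bw s M b * Real.exp (4 / A * (|(bv s M b : ℝ)| - (3 * A + M)))), prod_const,
    card_univ, Fintype.card_fin]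
  calc (∑ b, bw s M b * Real.exp (4 / A * (|(bv s M b : ℝ)| - (3 * A + M)))) ^ k ≤
        Real.exp (-7) ^ k := by
        refine pow_le_pow_left₀ ?_ (noisetail_one s M hM A hA hs) _
        exact sum_nonneg fun b _ => mul_nonneg (bw_nonneg s M b) (Real.exp_pos _).le
    _ = Real.exp (-(7 * k)) := by
        rw [← Real.exp_nat_mul]
        congr 1
        ring

end DiamAb
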