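import Mathlib
import Pool.Agent.Lib_MP_0ccc25_pr.ExChar

/-!
Piece PHINOISE. The characteristic sum of a family plus independent product noise factorises.

PROOF. The family is indexed by `T ×ˢ (univ : Finset (Fin k → B))`; the words are
`X + (fun i => V (β i))`, the weights `p0 X * Π_i v (β i)`. Using `dot_add`, `char_dot` and
`Finset.prod_univ_sum` / `Fintype.piFinset_univ`:
`Σ_β Π_i (v (β i) χ(z i) ^ V (β i)) = Π_i Σ_b v b χ(z i) ^ (V b)`.
For the bounds: `‖Σ_b v b χ(z i) ^ V b‖ ≤ Σ_b v b = 1` as `‖χ (z i)‖ = 1`, and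
`‖phi z T p0 W χ‖ ≤ Σ_T p0 ≤ 1`.
-/

namespace DiamAb

open Finset

theorem phi_noise {G : Type} [AddCommGroup G] [Finite G] {k : ℕ} {ι : Type} (z : Fin k → G)
    (T : Finset ι) (p0 : ι → ℝ) (W : ι → Fin k → ℤ) {B : Type} [Fintype B] (v : B → ℝ)
    (V : B → ℤ) (χ : AddChar G ℂ) :
    phi z (T ×ˢ (univ : Finset (Fin k → B))) (fun j => p0 j.1 * ∏ i, v (j.2 i))
      (fun j => W j.1 + fun i => V (j.2 i)) χ =
      phi z T p0 W χ * ∏ i, ∑ b, (v b : ℂ) * (χ (z i)) ^ (V b) := by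
  classical
  unfold phi
  rw [Finset.sum_product, Finset.sum_mul]
  refine Finset.sum_congr rfl fun a _ => ?_
  have h1 : (∏ i, ∑ b, (v b : ℂ) * (χ (z i)) ^ (V b)) =
      ∑ β : Fin k → B, ∏ i, ((v (β i) : ℂ) * (χ (z i)) ^ (V (β i))) := by
    rw [Finset.prod_univ_sum, Fintype.piFinset_univ]
  rw [h1, Finset.mul_sum]
  refine Finset.sum_congr rfl fun β _ => ?_
  rw [dot_add, AddChar.map_add_eq_mul, char_dot χ (fun i => V (β i)) z, Finset.prod_mul_distrib]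
  push_cast
  ring

theorem noise_le_one {G : Type} [AddCommGroup G] [Finite G] {B : Type} [Fintype B] (v : B → ℝ)
    (V : B → ℤ) (hv : ∀ b, 0 ≤ v b) (hv1 : ∑ b, v b = 1) (χ : AddChar G ℂ) (y : G) :
    ‖∑ b, (v b : ℂ) * (χ y) ^ (V b)‖ ≤ 1 := by
  refine (norm_sum_le _ _).trans ?_
  rw [← hv1]
  refine Finset.sum_le_sum fun b _ => ?_
  rw [norm_mul, norm_zpow, AddChar.norm_apply, one_zpow, mul_one, Complex.norm_real,
    Real.norm_of_nonneg (hv b)]

theorem phi_le {G : Type} [AddCommGroup G] [Finite G] {k : ℕ} {ι : Type} (z : Fin k → G)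
    (T : Finset ι) (p0 : ι → ℝ) (hp : ∀ j, 0 ≤ p0 j) (W : ι → Fin k → ℤ) (χ : AddChar G ℂ) :
    ‖phi z T p0 W χ‖ ≤ ∑ j ∈ T, p0 j := by
  unfold phi
  refine (norm_sum_le _ _).trans ?_
  refine Finset.sum_le_sum fun j _ => ?_
  rw [norm_mul, AddChar.norm_apply, mul_one, Complex.norm_real, Real.norm_of_nonneg (hp j)]

end DiamAb
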