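import Mathlib
import Pool.Agent.Lib_MP_0ccc25_pr.TypGood
import Pool.Agent.Lib_MP_0ccc25_pr.OrdSum
import Pool.Agent.Lib_MP_0ccc25_pr.CovB
import Pool.Agent.Lib_MP_0ccc25_pr.PhiNoise
import Pool.Agent.Lib_MP_0ccc25_pr.L1Sum
import Pool.Agent.Lib_MP_0ccc25_pr.NoiseTail
import Pool.Agent.Lib_MP_0ccc25_pr.Crit

/-!
Piece CASEB. Regime A, small critical modulus: exponentially small uncovered density.

SETTING. `s = ⌊(ε S) ^ 2⌋₊`. As `1 ≤ M < η S ≤ ε S` we have `ε S > 1` and `s ≥ (ε S) ^ 2 / 2`. For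
`2 ≤ g < η S` with `g` not dividing `M` we are given `8 exp (-4 s / g ^ 2) ≤ σ g := log g - hh G k g`.
PROOF. Constants `a1, a2, c3` as in CASEA (`c3 = min (min a1 a2) (min c 1) / 16` is enough). `k' = k - j`,
`N = {g | η S ≤ g}`, `T` = the words of `wd k' L` with `Typ (hh G k) N c μ L k (k' (Ab + ε' S))`; the
untypical mass is at most `exp (-2 c3 k)`, in particular at most `1 / 4` (same computation as CASEA).
Family: `J = T ×ˢ univ` over `Fin k' → Fin (s + 1) × Fin M`, weights `pw μ X * Π bw`, words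
`X + bv ∘ β` as in `phi_noise`. `Σ_J p ∈ [3 / 4, 1]`. Good indices `T'`: those with
`nrm (bv ∘ β) ≤ k' (3 ε S + M)`; on them `nrm W ≤ k' (Ab + ε' S + 3 ε S + M) ≤ k (Ab + ε' S + 4 ε S) ≤ R`.
`Σ_{J \ T'} p ≤ exp (-7 k')` by `noise_tail` with `A = ε S`.
`Lo` = characters `χ ≠ 1` with `orderOf χ < η S`, `Hi` = characters with `η S ≤ orderOf χ` (`≠ 1` as
`η S > 1`).
(1) `av_z Σ_{Lo} ‖phi z J p W χ‖ ≤ Σ_{2 ≤ g < η S} NN G g ((1 + Θ g) / g) ^ k'` by `phi_noise`, `phi_le`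
 and `l1_sum`, with `Θ g = 0` if `g ∣ M` (`noise_theta_dvd`) and `Θ g = 4 exp (-4 s / g ^ 2) ≤ σ g / 2`
 otherwise (`noise_theta`; its hypothesis holds since `4 s / g ^ 2 ≥ 2 (ε S) ^ 2 / (η S) ^ 2 ≥ 2`).
 Each term: `NN G g = exp (k (log g - σ g))`, `(1 + Θ) ^ k' ≤ exp (k' σ g / 2)`,
 `g ^ (-k') = g ^ j exp (-k log g)`, so the term is at most `g ^ j exp (-k σ g / 2) ≤ g ^ (j - r / 2)`
 by `sig_lower` (`k σ g ≥ r log g`, `σ g ≥ 0`). With `r = r0 ≥ 2 j + 4 + 2 r1`: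
 `Σ_{g ≥ 2} g ^ (-(2 + r1)) ≤ 2 ^ (-r1)`, so by Markov `Σ_{Lo} ‖phi‖ > 1 / 4` has probability at most
 `4 * 2 ^ (-r1) ≤ τ / 3`.
(2) On `Hi`: `‖phi z J p W χ‖ ≤ ‖phi z T (pw μ) id χ‖` by `phi_noise`, `noise_le_one`; by `ordsum`
 `av_z Σ_{Hi} ‖phi‖ ^ 2 ≤ (2 L + 1) exp (-c k / 2) ≤ exp (-c k / 4)` for large `k`; so with probability at least
 `1 - exp (-c k / 8) ≥ 1 - τ / 3` the sum is at most `exp (-c k / 8)`, and then, by `parseval` and Markov,
 `pr (1 / 4 ≤ ‖Σ_{Hi} phi χ χ (-x)‖) ≤ 16 exp (-c k / 8)`.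
(3) `covB` gives `unc z R ≤ 4 exp (-7 k') + 16 exp (-c k / 8) ≤ exp (-c3 k)`.
The exponent `-c0` in `ordsum` is `c k / 2`, because `k hh G k g = log (NN G g)`.
-/

namespace DiamAb

open Finset

theorem caseB_ev (A δ : ℝ) (hδ : 0 < δ) : ∃ k1 : ℕ, ∀ k : ℕ, k1 ≤ k →
    A * Real.exp (-(δ * k)) ≤ 1 := by
  have h1 : Filter.Tendsto (fun k : ℕ => A * Real.exp (-(δ * k))) Filter.atTop
      (nhds (A * 0)) := by
    apply Filter.Tendsto.const_mul
    apply Real.tendsto_exp_neg_atTop_nhds_zero.comp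
    exact Filter.Tendsto.const_mul_atTop hδ tendsto_natCast_atTop_atTop
  rw [mul_zero] at h1
  have h2 := h1.eventually (Iic_mem_nhds (show (0 : ℝ) < 1 by norm_num))
  obtain ⟨k1, hk1⟩ := Filter.eventually_atTop.mp h2
  exact ⟨k1, fun k hk => hk1 k hk⟩

theorem caseB_sum (N : ℕ) : ∑ g ∈ Ico 2 N, (1 : ℝ) / (g : ℝ) ^ 2 ≤ 1 := by
  have key : ∀ n : ℕ, ∑ g ∈ Ico 2 (n + 2), (1 : ℝ) / (g : ℝ) ^ 2 ≤ 1 - 1 / ((n : ℝ) + 1) := by
    intro n
    induction n with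
    | zero => simp
    | succ n ih =>
      rw [show n + 1 + 2 = (n + 2) + 1 by ring, sum_Ico_succ_top (by omega)]
      have h1 : (1 : ℝ) / ((n + 2 : ℕ) : ℝ) ^ 2 ≤ 1 / ((n : ℝ) + 1) - 1 / (((n + 1 : ℕ) : ℝ) + 1) := by
        push_cast
        rw [div_sub_div _ _ (by positivity) (by positivity), div_le_div_iff₀ (by positivity)
          (by positivity)]
        nlinarith [sq_nonneg (n : ℝ), (Nat.cast_nonneg n : (0 : ℝ) ≤ n)]
      linarith
  rcases Nat.lt_or_ge N 2 with h | h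
  · rw [Ico_eq_empty (by omega), sum_empty]; norm_num
  · obtain ⟨n, rfl⟩ : ∃ n, N = n + 2 := ⟨N - 2, by omega⟩
    have := key n
    have h2 : (0 : ℝ) < 1 / ((n : ℝ) + 1) := by positivity
    linarith

/-- one order in the low sum -/
theorem caseB_term (G : Type) [AddCommGroup G] [Fintype G] (k k' j r1 g : ℕ) (hk' : k' + j = k)
    (hk1 : 1 ≤ k) (hrk : AddGroup.rank G + (2 * j + 4 + 2 * r1) ≤ k) (hg : 2 ≤ g) (Θ : ℝ)
    (hΘ0 : 0 ≤ Θ) (hΘ : Θ ≤ (Real.log g - hh G k g) / 2) :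
    NN G g * ((1 + Θ) / g) ^ k' ≤ (1 / 2 : ℝ) ^ r1 * (1 / (g : ℝ) ^ 2) := by
  have hg0 : (0 : ℝ) < g := by
    have : 0 < g := by omega
    exact_mod_cast this
  have hg2 : (2 : ℝ) ≤ g := by exact_mod_cast hg
  have hkR : (0 : ℝ) < k := by exact_mod_cast hk1
  set σ : ℝ := Real.log g - hh G k g with hσ
  have hσ0 : 0 ≤ σ := by linarith
  have hNN : (0 : ℝ) < NN G g := by exact_mod_cast NN_pos G g
  have h1 : (NN G g : ℝ) = Real.exp (k * (Real.log g - σ)) := by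
    have : (k : ℝ) * (Real.log g - σ) = Real.log (NN G g) := by
      rw [hσ]
      unfold hh
      field_simp
      ring
    rw [this, Real.exp_log hNN]
  have h2 : (1 + Θ) ^ k' ≤ Real.exp (k * (σ / 2)) := by
    have h3 : 1 + Θ ≤ Real.exp (σ / 2) := by
      have := Real.add_one_le_exp (σ / 2)
      linarith
    calc (1 + Θ) ^ k' ≤ (Real.exp (σ / 2)) ^ k' := pow_le_pow_left₀ (by linarith) h3 _
      _ = Real.exp (k' * (σ / 2)) := by rw [← Real.exp_nat_mul]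
      _ ≤ Real.exp (k * (σ / 2)) := by
        apply Real.exp_le_exp.mpr
        have : (k' : ℝ) ≤ k := by exact_mod_cast (by omega : k' ≤ k)
        apply mul_le_mul_of_nonneg_right this
        linarith
  have h4 := sig_lower G k (2 * j + 4 + 2 * r1) g hrk hk1 (by omega)
  rw [← hσ] at h4
  have h5 : Real.exp (-(k * (σ / 2))) ≤ ((g : ℝ) ^ (j + 2 + r1))⁻¹ := by
    rw [← Real.exp_log (show (0 : ℝ) < (g : ℝ) ^ (j + 2 + r1) by positivity), ← Real.exp_neg,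
      Real.log_pow]
    apply Real.exp_le_exp.mpr
    push_cast at h4 ⊢
    linarith
  have h6 : ((1 + Θ) / g) ^ k' = (1 + Θ) ^ k' * (g : ℝ) ^ j / (g : ℝ) ^ k := by
    rw [div_pow, ← hk', pow_add]
    field_simp
  have h7 : (g : ℝ) ^ k = Real.exp (k * Real.log g) := by
    rw [Real.exp_nat_mul, Real.exp_log hg0]
  have h8 : (NN G g : ℝ) * ((1 + Θ) / g) ^ k' ≤ (g : ℝ) ^ j * Real.exp (-(k * (σ / 2))) := by
    rw [h6, h1, h7]
    calc Real.exp (k * (Real.log g - σ)) * ((1 + Θ) ^ k' * (g : ℝ) ^ j / Real.exp (k * Real.log g))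
        ≤ Real.exp (k * (Real.log g - σ)) * (Real.exp (k * (σ / 2)) * (g : ℝ) ^ j /
            Real.exp (k * Real.log g)) := by
          apply mul_le_mul_of_nonneg_left _ (Real.exp_pos _).le
          apply div_le_div_of_nonneg_right _ (Real.exp_pos _).le
          exact mul_le_mul_of_nonneg_right h2 (by positivity)
      _ = (g : ℝ) ^ j * (Real.exp (k * (Real.log g - σ)) * Real.exp (k * (σ / 2)) /
            Real.exp (k * Real.log g)) := by ring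
      _ = (g : ℝ) ^ j * Real.exp (-(k * (σ / 2))) := by
          rw [← Real.exp_add, ← Real.exp_sub]
          congr 2
          ring
  refine h8.trans ?_
  calc (g : ℝ) ^ j * Real.exp (-(k * (σ / 2))) ≤ (g : ℝ) ^ j * ((g : ℝ) ^ (j + 2 + r1))⁻¹ := by
        apply mul_le_mul_of_nonneg_left h5 (by positivity)
    _ = (1 / (g : ℝ)) ^ r1 * (1 / (g : ℝ) ^ 2) := by
        rw [pow_add, pow_add, one_div_pow]
        field_simp
    _ ≤ (1 / 2 : ℝ) ^ r1 * (1 / (g : ℝ) ^ 2) := by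
        apply mul_le_mul_of_nonneg_right _ (by positivity)
        apply pow_le_pow_left₀ (by positivity)
        exact one_div_le_one_div_of_le (by norm_num) hg2

open Classical in
/-- the low characters -/
theorem caseB_low (G : Type) [AddCommGroup G] [Fintype G] (k k' j r1 M s : ℕ) (η S : ℝ)
    (hk' : k' + j = k) (hk1 : 1 ≤ k) (hrk : AddGroup.rank G + (2 * j + 4 + 2 * r1) ≤ k)
    (hM : 1 ≤ M)
    (hs : ∀ g : ℕ, 2 ≤ g → (g : ℝ) < η * S → Real.exp (-(4 * s / (g : ℝ) ^ 2)) ≤ 1 / 2)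
    (hσ : ∀ g : ℕ, 2 ≤ g → (g : ℝ) < η * S → ¬ g ∣ M →
      8 * Real.exp (-(4 * s / (g : ℝ) ^ 2)) ≤ Real.log g - hh G k g) :
    av (fun z : Fin k' → G =>
      ∑ χ ∈ univ.filter (fun χ : AddChar G ℂ => χ ≠ 1 ∧ (orderOf χ : ℝ) < η * S),
        ∏ i, ‖∑ b, (bw s M b : ℂ) * (χ (z i)) ^ (bv s M b)‖) ≤ (1 / 2 : ℝ) ^ r1 := by
  set N : ℕ := ⌈η * S⌉₊ with hN
  have hsub : ∀ z : Fin k' → G,
      ∑ χ ∈ univ.filter (fun χ : AddChar G ℂ => χ ≠ 1 ∧ (orderOf χ : ℝ) < η * S),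
        ∏ i, ‖∑ b, (bw s M b : ℂ) * (χ (z i)) ^ (bv s M b)‖ ≤
      ∑ g ∈ Ico 2 N, ∑ χ ∈ univ.filter (fun χ : AddChar G ℂ => orderOf χ = g),
        ∏ i, ‖∑ b, (bw s M b : ℂ) * (χ (z i)) ^ (bv s M b)‖ := by
    intro z
    rw [← sum_biUnion]
    · apply sum_le_sum_of_subset_of_nonneg
      · intro χ hχ
        rw [mem_filter] at hχ
        rw [mem_biUnion]
        refine ⟨orderOf χ, ?_, by simp⟩
        rw [mem_Ico]
        constructor
        · have h1 : 0 < orderOf χ := orderOf_pos χ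
          have h2 : orderOf χ ≠ 1 := fun h => hχ.2.1 (orderOf_eq_one_iff.mp h)
          omega
        · exact Nat.lt_ceil.mpr hχ.2.2
      · intro χ _ _
        exact prod_nonneg fun i _ => norm_nonneg _
    · intro a _ b _ hab
      rw [Function.onFun, disjoint_left]
      intro χ h1 h2
      rw [mem_filter] at h1 h2
      exact hab (h1.2.symm.trans h2.2)
  refine (av_mono hsub).trans ?_
  rw [av_sum]
  have hterm : ∀ g ∈ Ico 2 N, av (fun z : Fin k' → G =>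
      ∑ χ ∈ univ.filter (fun χ : AddChar G ℂ => orderOf χ = g),
        ∏ i, ‖∑ b, (bw s M b : ℂ) * (χ (z i)) ^ (bv s M b)‖) ≤
        (1 / 2 : ℝ) ^ r1 * (1 / (g : ℝ) ^ 2) := by
    intro g hg
    rw [mem_Ico] at hg
    have hgη : (g : ℝ) < η * S := Nat.lt_ceil.mp hg.2
    have hsig : 0 ≤ Real.log g - hh G k g := by
      have h4 := sig_lower G k 0 g (by omega) hk1 (by omega)
      have hkR : (0 : ℝ) < k := by exact_mod_cast hk1
      simp only [Nat.cast_zero, zero_mul] at h4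
      exact nonneg_of_mul_nonneg_right h4 hkR
    by_cases hgM : g ∣ M
    · refine (l1_sum k' g (by omega) (bw s M) (bv s M) (bw_nonneg s M) (noise_sum s M hM) 0
        (noise_theta_dvd s M g hM hg.1 hgM).le).trans ?_
      exact caseB_term G k k' j r1 g hk' hk1 hrk hg.1 0 le_rfl (by linarith)
    · refine (l1_sum k' g (by omega) (bw s M) (bv s M) (bw_nonneg s M) (noise_sum s M hM) _
        (noise_theta s M g hM hg.1 (hs g hg.1 hgη))).trans ?_
      have := hσ g hg.1 hgη hgM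
      exact caseB_term G k k' j r1 g hk' hk1 hrk hg.1 _
        (by positivity) (by linarith)
  refine (sum_le_sum hterm).trans ?_
  rw [← mul_sum]
  have := caseB_sum N
  calc (1 / 2 : ℝ) ^ r1 * ∑ g ∈ Ico 2 N, (1 : ℝ) / (g : ℝ) ^ 2 ≤ (1 / 2 : ℝ) ^ r1 * 1 := by
        apply mul_le_mul_of_nonneg_left this (by positivity)
    _ = (1 / 2 : ℝ) ^ r1 := mul_one _

open Classical in
/-- the deterministic part -/
theorem caseB_z (G : Type) [AddCommGroup G] [Fintype G] (k' M L s R : ℕ) (μ : ℤ → ℝ)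
    (hμ : IsLaw μ L) (T : Finset (Fin k' → ℤ)) (hT : T ⊆ wd k' L) (z : Fin k' → G)
    (hTs : 3 / 4 ≤ ∑ w ∈ T, pw μ w) (RT A η S u : ℝ) (hRT : ∀ w ∈ T, (nrm w : ℝ) ≤ RT)
    (hM : 1 ≤ M) (hA : 1 ≤ A) (hs : (s : ℝ) ≤ A ^ 2) (hR : RT + k' * (3 * A + M) ≤ R)
    (hηS : 1 < η * S)
    (hlow : ∑ χ ∈ univ.filter (fun χ : AddChar G ℂ => χ ≠ 1 ∧ (orderOf χ : ℝ) < η * S),
        ∏ i, ‖∑ b, (bw s M b : ℂ) * (χ (z i)) ^ (bv s M b)‖ ≤ 1 / 4)
    (hhigh : ∑ χ ∈ univ.filter (fun χ : AddChar G ℂ => orderOf χ ∈ {g : ℕ | η * S ≤ (g : ℝ)}),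
        ‖phi z T (pw μ) id χ‖ ^ 2 ≤ u) :
    unc z R ≤ 4 * Real.exp (-(7 * k')) + 16 * u := by
  set J : Finset ((Fin k' → ℤ) × (Fin k' → Fin (s + 1) × Fin M)) :=
    T ×ˢ (univ : Finset (Fin k' → Fin (s + 1) × Fin M)) with hJ
  set p : (Fin k' → ℤ) × (Fin k' → Fin (s + 1) × Fin M) → ℝ :=
    fun j => pw μ j.1 * ∏ i, bw s M (j.2 i) with hp
  set W : (Fin k' → ℤ) × (Fin k' → Fin (s + 1) × Fin M) → Fin k' → ℤ :=
    fun j => id j.1 + fun i => bv s M (j.2 i) with hW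
  have hp0 : ∀ j, 0 ≤ p j := fun j =>
    mul_nonneg (pw_nonneg hμ.nonneg _) (prod_nonneg fun i _ => bw_nonneg s M _)
  have hbw1 : ∑ β : Fin k' → Fin (s + 1) × Fin M, ∏ i, bw s M (β i) = 1 := by
    have h1 := Finset.prod_univ_sum (fun _ : Fin k' => (univ : Finset (Fin (s + 1) × Fin M)))
      (fun _ b => bw s M b)
    rw [Fintype.piFinset_univ] at h1
    rw [← h1]
    simp [noise_sum s M hM]
  have hpJ : ∑ j ∈ J, p j = ∑ w ∈ T, pw μ w := by
    rw [hJ, sum_product]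
    refine sum_congr rfl fun w _ => ?_
    show ∑ y : Fin k' → Fin (s + 1) × Fin M, pw μ w * ∏ i, bw s M (y i) = pw μ w
    rw [← mul_sum, hbw1, mul_one]
  have hT1 : ∑ w ∈ T, pw μ w ≤ 1 := by
    rw [← sum_pw_one hμ k']
    exact sum_le_sum_of_subset_of_nonneg hT fun w _ _ => pw_nonneg hμ.nonneg w
  set T' : Finset ((Fin k' → ℤ) × (Fin k' → Fin (s + 1) × Fin M)) :=
    J.filter (fun j => ¬ (k' * (3 * A + M) < (nrm (fun i => bv s M (j.2 i)) : ℝ))) with hT'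
  have hbad : ∑ j ∈ J \ T', p j ≤ Real.exp (-(7 * k')) := by
    have e1 : J \ T' = T ×ˢ (univ.filter (fun β : Fin k' → Fin (s + 1) × Fin M =>
        k' * (3 * A + M) < (nrm (fun i => bv s M (β i)) : ℝ))) := by
      ext j
      simp only [hT', hJ, mem_sdiff, mem_product, mem_univ, and_true, mem_filter, not_and, not_not,
        true_and]
      constructor
      · rintro ⟨h1, h2⟩; exact ⟨h1, h2 h1⟩
      · rintro ⟨h1, h2⟩; exact ⟨h1, fun _ => h2⟩
    rw [e1, sum_product]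
    have h1 := noise_tail s M k' hM A hA hs
    calc ∑ w ∈ T, ∑ β ∈ univ.filter (fun β : Fin k' → Fin (s + 1) × Fin M =>
          k' * (3 * A + M) < (nrm (fun i => bv s M (β i)) : ℝ)), pw μ w * ∏ i, bw s M (β i)
        = (∑ w ∈ T, pw μ w) * ∑ β ∈ univ.filter (fun β : Fin k' → Fin (s + 1) × Fin M =>
          k' * (3 * A + M) < (nrm (fun i => bv s M (β i)) : ℝ)), ∏ i, bw s M (β i) := by
          rw [sum_mul_sum]
      _ ≤ 1 * Real.exp (-(7 * k')) := by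
          apply mul_le_mul hT1 h1 _ zero_le_one
          exact sum_nonneg fun β _ => prod_nonneg fun i _ => bw_nonneg s M _
      _ = _ := one_mul _
  have hRW : ∀ j ∈ T', nrm (W j) ≤ R := by
    intro j hj
    rw [hT', mem_filter, hJ, mem_product] at hj
    obtain ⟨⟨h1, _⟩, h2⟩ := hj
    have h3 : ((nrm (W j) : ℕ) : ℝ) ≤ R := by
      calc ((nrm (W j) : ℕ) : ℝ) ≤ ((nrm j.1 + nrm (fun i => bv s M (j.2 i)) : ℕ) : ℝ) := by
            exact_mod_cast nrm_add_le j.1 _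
        _ ≤ RT + k' * (3 * A + M) := by
            push_cast
            exact add_le_add (hRT _ h1) (not_lt.mp h2)
        _ ≤ R := hR
    exact_mod_cast h3
  have hphi : ∀ χ : AddChar G ℂ, phi z J p W χ =
      phi z T (pw μ) id χ * ∏ i, ∑ b, (bw s M b : ℂ) * (χ (z i)) ^ (bv s M b) := by
    intro χ
    exact phi_noise z T (pw μ) id (bw s M) (bv s M) χ
  set Lo : Finset (AddChar G ℂ) :=
    univ.filter (fun χ : AddChar G ℂ => χ ≠ 1 ∧ (orderOf χ : ℝ) < η * S) with hLo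
  set Hi : Finset (AddChar G ℂ) :=
    univ.filter (fun χ : AddChar G ℂ => orderOf χ ∈ {g : ℕ | η * S ≤ (g : ℝ)}) with hHi
  have hcov := covB z J T' (filter_subset _ _) p hp0 (by rw [hpJ]; exact hT1)
    (by rw [hpJ]; exact hTs) W R hRW Lo Hi (by
      rw [disjoint_left]
      intro χ h1 h2
      rw [hLo, mem_filter] at h1
      rw [hHi, mem_filter] at h2
      exact absurd h1.2.2 (not_lt.mpr h2.2)) (by
      rw [hLo, mem_filter]
      rintro ⟨_, h, _⟩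
      exact h rfl) (by
      rw [hHi, mem_filter]
      rintro ⟨_, h⟩
      rw [orderOf_one, Set.mem_ofPred_eq, Nat.cast_one] at h
      linarith) (by
      intro χ hχ
      rcases lt_or_ge (orderOf χ : ℝ) (η * S) with h | h
      · left; rw [hLo, mem_filter]; exact ⟨mem_univ _, hχ, h⟩
      · right; rw [hHi, mem_filter]; exact ⟨mem_univ _, h⟩) (by
      refine le_trans (sum_le_sum fun χ _ => ?_) hlow
      rw [hphi, norm_mul, norm_prod]
      have h1 := phi_le z T (pw μ) (pw_nonneg hμ.nonneg) id χ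
      have h2 : 0 ≤ ∏ i, ‖∑ b, (bw s M b : ℂ) * (χ (z i)) ^ (bv s M b)‖ :=
        prod_nonneg fun i _ => norm_nonneg _
      calc ‖phi z T (pw μ) id χ‖ * ∏ i, ‖∑ b, (bw s M b : ℂ) * (χ (z i)) ^ (bv s M b)‖
          ≤ 1 * ∏ i, ‖∑ b, (bw s M b : ℂ) * (χ (z i)) ^ (bv s M b)‖ :=
            mul_le_mul_of_nonneg_right (h1.trans hT1) h2
        _ = _ := one_mul _)
  have hpar := parseval Hi (phi z J p W)
  have hmk : pr (fun x : G => 1 / 4 ≤ ‖∑ χ ∈ Hi, phi z J p W χ * χ (-x)‖) ≤ 16 * u := by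
    have h1 : pr (fun x : G => 1 / 4 ≤ ‖∑ χ ∈ Hi, phi z J p W χ * χ (-x)‖) ≤
        pr (fun x : G => 1 / 16 ≤ ‖∑ χ ∈ Hi, phi z J p W χ * χ (-x)‖ ^ 2) := by
      apply pr_mono
      intro x hx
      nlinarith [norm_nonneg (∑ χ ∈ Hi, phi z J p W χ * χ (-x))]
    have h2 := markov' (f := fun x : G => ‖∑ χ ∈ Hi, phi z J p W χ * χ (-x)‖ ^ 2)
      (fun x => by positivity) (show (0 : ℝ) < 1 / 16 by norm_num)
    rw [hpar] at h2
    have h3 : ∑ χ ∈ Hi, ‖phi z J p W χ‖ ^ 2 ≤ u := by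
      refine le_trans (sum_le_sum fun χ _ => ?_) hhigh
      rw [hphi, norm_mul, norm_prod, mul_pow]
      have h4 : ∏ i, ‖∑ b, (bw s M b : ℂ) * (χ (z i)) ^ (bv s M b)‖ ≤ 1 :=
        prod_le_one (fun i _ => norm_nonneg _) fun i _ =>
          noise_le_one (bw s M) (bv s M) (bw_nonneg s M) (noise_sum s M hM) χ (z i)
      have h5 : 0 ≤ ∏ i, ‖∑ b, (bw s M b : ℂ) * (χ (z i)) ^ (bv s M b)‖ :=
        prod_nonneg fun i _ => norm_nonneg _
      have h6 : (∏ i, ‖∑ b, (bw s M b : ℂ) * (χ (z i)) ^ (bv s M b)‖) ^ 2 ≤ 1 :=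
        pow_le_one₀ h5 h4
      calc ‖phi z T (pw μ) id χ‖ ^ 2 * (∏ i, ‖∑ b, (bw s M b : ℂ) * (χ (z i)) ^ (bv s M b)‖) ^ 2
          ≤ ‖phi z T (pw μ) id χ‖ ^ 2 * 1 := mul_le_mul_of_nonneg_left h6 (by positivity)
        _ = _ := mul_one _
    linarith
  refine hcov.trans (add_le_add (mul_le_mul_of_nonneg_left ?_ (by norm_num)) hmk)
  refine le_of_eq_of_le ?_ hbad
  refine sum_congr ?_ fun _ _ => rfl
  ext j
  simp only [mem_sdiff]

open Classical in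
/-- the probabilistic part, without constants -/
theorem caseB_pr (G : Type) [AddCommGroup G] [Fintype G] (k k' j r1 M L R : ℕ)
    (μ : ℤ → ℝ) (c Cb Λ ε' ε η S u1 u2 : ℝ) (hc : 0 < c) (hCb : 0 < Cb) (hε' : 0 < ε')
    (hη : 0 < η) (hηε : η ≤ ε) (hk' : k' + j = k) (hk1 : 1 ≤ k)
    (hrk : AddGroup.rank G + (2 * j + 4 + 2 * r1) ≤ k) (hS : S ^ k = Fintype.card G)
    (hS1 : 1 ≤ S) (hM : 1 ≤ M) (hMη : (M : ℝ) < η * S) (hL : 1 ≤ L) (hLS : (L : ℝ) ≤ Λ * S)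
    (hσ : ∀ g : ℕ, 2 ≤ g → (g : ℝ) < η * S → ¬ g ∣ M →
      8 * Real.exp (-(4 * ⌊(ε * S) ^ 2⌋₊ / (g : ℝ) ^ 2)) ≤ Real.log g - hh G k g)
    (hGood : Good (hh G k) 1 {g | η * S ≤ (g : ℝ)} c Cb μ L)
    (hR : k * (Ab μ L + ε' * S + 4 * ε * S) ≤ R)
    (hj : j * (Real.log S + c) ≤ c * k / 4)
    (hu1 : (2 * L + 1) * Real.exp (-((c / 4) ^ 2 * k' / (4 * Cb ^ 2))) +
        Real.exp (-(ε' ^ 2 * k' / (4 * Λ ^ 2))) ≤ 1 / 4)
    (hu2 : 0 < u2) (hu : (2 * L + 1) * Real.exp (-(c * k / 2)) ≤ u1 * u2) :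
    pr (fun z : Fin k' → G => ¬ unc z R ≤ 4 * Real.exp (-(7 * k')) + 16 * u2) ≤
      4 * (1 / 2 : ℝ) ^ r1 + u1 := by
  have hkR : (0 : ℝ) < k := by exact_mod_cast hk1
  have hS0 : 0 < S := by linarith
  have hMR : (1 : ℝ) ≤ M := by exact_mod_cast hM
  have hηS : 1 < η * S := lt_of_le_of_lt hMR hMη
  have hεS : 1 ≤ ε * S := by nlinarith
  set N : Set ℕ := {g : ℕ | η * S ≤ (g : ℝ)} with hN
  set T : Finset (Fin k' → ℤ) := (wd k' L).filter (fun w =>
    Typ (hh G k) N c μ L k (k' * (Ab μ L + ε' * S)) w) with hT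
  have hTsub : T ⊆ wd k' L := filter_subset _ _
  have htyp := typ_good (hh G k) 1 N c Cb μ L hGood hc hCb hL S ε' Λ hS0 hLS hε' k' k j hk'
    (Real.log S) (hh_le G k S hk1 hS0 hS) hj
  have hTs : 3 / 4 ≤ ∑ w ∈ T, pw μ w := by
    have h1 := sum_filter_add_sum_filter_not (wd k' L)
      (fun w => Typ (hh G k) N c μ L k (k' * (Ab μ L + ε' * S)) w) (pw μ)
    rw [sum_pw_one hGood.law k'] at h1
    linarith
  have hk'k : (k' : ℝ) ≤ k := by exact_mod_cast (by omega : k' ≤ k)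
  have hAb0 : 0 ≤ Ab μ L := sum_nonneg fun v _ =>
    mul_nonneg (hGood.law.nonneg v) (abs_nonneg _)
  -- low characters
  have hs2 : ∀ g : ℕ, 2 ≤ g → (g : ℝ) < η * S →
      Real.exp (-(4 * (⌊(ε * S) ^ 2⌋₊ : ℝ) / (g : ℝ) ^ 2)) ≤ 1 / 2 := by
    intro g hg hgη
    have hg0 : (0 : ℝ) < g := by
      have : 0 < g := by omega
      exact_mod_cast this
    have hs : (ε * S) ^ 2 / 2 ≤ (⌊(ε * S) ^ 2⌋₊ : ℝ) := by
      have h1 : (ε * S) ^ 2 < ⌊(ε * S) ^ 2⌋₊ + 1 := Nat.lt_floor_add_one _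
      have h2 : (1 : ℝ) ≤ ⌊(ε * S) ^ 2⌋₊ := by
        have : 1 ≤ ⌊(ε * S) ^ 2⌋₊ := (Nat.one_le_floor_iff _).mpr (by nlinarith)
        exact_mod_cast this
      linarith
    have h3 : (1 : ℝ) ≤ 4 * (⌊(ε * S) ^ 2⌋₊ : ℝ) / (g : ℝ) ^ 2 := by
      rw [le_div_iff₀ (by positivity)]
      have h4 : (g : ℝ) ^ 2 ≤ (η * S) ^ 2 := pow_le_pow_left₀ hg0.le hgη.le 2
      have h5 : (η * S) ^ 2 ≤ (ε * S) ^ 2 := by
        apply pow_le_pow_left₀ (by positivity)
        exact mul_le_mul_of_nonneg_right hηε hS0.le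
      have h6 : 0 ≤ (ε * S) ^ 2 := by positivity
      linarith
    have h4 : Real.exp (-(4 * (⌊(ε * S) ^ 2⌋₊ : ℝ) / (g : ℝ) ^ 2)) ≤ Real.exp (-1) :=
      Real.exp_le_exp.mpr (by linarith)
    have h5 : Real.exp (-1) ≤ 1 / 2 := by
      rw [Real.exp_neg, one_div]
      apply inv_anti₀ (by norm_num)
      have := Real.add_one_le_exp (1 : ℝ)
      linarith
    linarith
  have hlow := caseB_low G k k' j r1 M ⌊(ε * S) ^ 2⌋₊ η S hk' hk1 hrk hM hs2 hσ
  -- high characters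
  have hhigh := ordsum (G := G) μ hGood.law N T hTsub (c * k / 2) (by
    intro w hw g hg hgL
    rw [hT, mem_filter] at hw
    refine (hw.2.2 g hg hgL).trans (le_of_eq ?_)
    have hNN : (0 : ℝ) < NN G g := by exact_mod_cast NN_pos G g
    have h1 : (k : ℝ) * hh G k g = Real.log (NN G g) := by
      unfold hh
      field_simp
    rw [h1, neg_add, Real.exp_add, Real.exp_neg (Real.log _), Real.exp_log hNN]
    ring)
  -- union bound
  have hmain : ∀ z : Fin k' → G, ¬ unc z R ≤ 4 * Real.exp (-(7 * k')) + 16 * u2 →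
      (1 / 4 < ∑ χ ∈ univ.filter (fun χ : AddChar G ℂ => χ ≠ 1 ∧ (orderOf χ : ℝ) < η * S),
        ∏ i, ‖∑ b, (bw ⌊(ε * S) ^ 2⌋₊ M b : ℂ) * (χ (z i)) ^ (bv ⌊(ε * S) ^ 2⌋₊ M b)‖) ∨
      (u2 < ∑ χ ∈ univ.filter (fun χ : AddChar G ℂ => orderOf χ ∈ N),
        ‖phi z T (pw μ) id χ‖ ^ 2) := by
    intro z hz
    by_contra hcon
    push Not at hcon
    apply hz
    refine caseB_z G k' M L ⌊(ε * S) ^ 2⌋₊ R μ hGood.law T hTsub z hTs
      (k' * (Ab μ L + ε' * S)) (ε * S) η S u2 ?_ hM hεS (Nat.floor_le (by positivity)) ?_ hηS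
      hcon.1 hcon.2
    · intro w hw
      rw [hT, mem_filter] at hw
      exact hw.2.1
    · refine le_trans ?_ hR
      calc (k' : ℝ) * (Ab μ L + ε' * S) + k' * (3 * (ε * S) + M)
          ≤ k * (Ab μ L + ε' * S) + k * (3 * (ε * S) + M) := by
            gcongr
        _ ≤ k * (Ab μ L + ε' * S + 4 * ε * S) := by
            have h1 : (M : ℝ) ≤ ε * S := by nlinarith
            nlinarith
  refine (pr_mono hmain).trans ((pr_or_le _ _).trans ?_)
  apply add_le_add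
  · refine (markov (fun z => sum_nonneg fun χ _ => prod_nonneg fun i _ => norm_nonneg _)
      (show (0 : ℝ) < 1 / 4 by norm_num)).trans ?_
    rw [div_le_iff₀ (by norm_num)]
    linarith
  · refine (markov (fun z => sum_nonneg fun χ _ => by positivity) hu2).trans ?_
    rw [div_le_iff₀ hu2]
    exact hhigh.trans hu

theorem caseB (c Cb Λ ε' ε η : ℝ) (hc : 0 < c) (hCb : 0 < Cb) (hΛ : 0 < Λ) (hε' : 0 < ε')
    (hη : 0 < η) (hηε : η ≤ ε) :
    ∃ c3 : ℝ, 0 < c3 ∧ ∀ (j : ℕ) (τ : ℝ), 0 < τ → ∃ (k0 r0 : ℕ) (c' : ℝ), 0 < c' ∧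
      ∀ (G : Type) [AddCommGroup G] [Fintype G] (k k' M L R : ℕ) (S : ℝ) (μ : ℤ → ℝ),
        k0 ≤ k → AddGroup.rank G + r0 ≤ k → k' + j = k → S ^ k = Fintype.card G → 1 ≤ S →
        Real.log S ≤ c' * k → 1 ≤ M → (M : ℝ) < η * S → 1 ≤ L → (L : ℝ) ≤ Λ * S →
        (∀ g : ℕ, 2 ≤ g → (g : ℝ) < η * S → ¬ g ∣ M →
          8 * Real.exp (-(4 * ⌊(ε * S) ^ 2⌋₊ / (g : ℝ) ^ 2)) ≤ Real.log g - hh G k g) →
        Good (hh G k) 1 {g | η * S ≤ (g : ℝ)} c Cb μ L →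
        k * (Ab μ L + ε' * S + 4 * ε * S) ≤ R →
        pr (fun z : Fin k' → G => ¬ unc z R ≤ Real.exp (-c3 * k)) ≤ τ := by
  set a1 : ℝ := (c / 4) ^ 2 / (4 * Cb ^ 2) with ha1
  set a2 : ℝ := ε' ^ 2 / (4 * Λ ^ 2) with ha2
  have ha10 : 0 < a1 := by positivity
  have ha20 : 0 < a2 := by positivity
  refine ⟨min c 1 / 16, by positivity, ?_⟩
  intro j τ hτ
  -- number of reserved dimensions
  obtain ⟨r1, hr1⟩ : ∃ r1 : ℕ, 4 * (1 / 2 : ℝ) ^ r1 ≤ τ / 2 := by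
    obtain ⟨r1, h⟩ := exists_pow_lt_of_lt_one (show (0 : ℝ) < τ / 8 by positivity)
      (show (1 / 2 : ℝ) < 1 by norm_num)
    exact ⟨r1, by linarith⟩
  obtain ⟨k1, hk1⟩ := caseB_ev (8 * (2 * Λ + 1)) (3 * a1 / 8) (by positivity)
  obtain ⟨k2, hk2⟩ := caseB_ev 8 (a2 / 2) (by positivity)
  obtain ⟨k3, hk3⟩ := caseB_ev (2 * Λ + 1) (3 * c / 16) (by positivity)
  obtain ⟨k4, hk4⟩ := caseB_ev (2 / τ) (c / 8) (by positivity)
  obtain ⟨k5, hk5⟩ := caseB_ev 8 3 (by norm_num)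
  obtain ⟨k6, hk6⟩ := caseB_ev 32 (c / 16) (by positivity)
  refine ⟨max (max (max k1 k2) (max k3 k4)) (max (max k5 k6) (8 * j + 1)),
    2 * j + 4 + 2 * r1, min (min (a1 / 8) (c / 16)) (c / (8 * (j + 1))), by positivity, ?_⟩
  intro G _ _ k k' M L R S μ hk hrk hk' hS hS1 hlog hM hMη hL hLS hσ hGood hR
  simp only [max_le_iff] at hk
  obtain ⟨⟨⟨hkk1, hkk2⟩, hkk3, hkk4⟩, ⟨hkk5, hkk6⟩, hkj⟩ := hk
  have hkone : 1 ≤ k := by omega
  have hkR : (0 : ℝ) < k := by exact_mod_cast hkone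
  have hS0 : 0 < S := by linarith
  have hlog1 : Real.log S ≤ a1 / 8 * k := hlog.trans (by
    gcongr; exact (min_le_left _ _).trans (min_le_left _ _))
  have hlog2 : Real.log S ≤ c / 16 * k := hlog.trans (by
    gcongr; exact (min_le_left _ _).trans (min_le_right _ _))
  have hlog3 : Real.log S ≤ c / (8 * (j + 1)) * k := hlog.trans (by
    gcongr; exact min_le_right _ _)
  have hjR : (8 : ℝ) * j ≤ k := by
    have : 8 * j ≤ k := by omega
    exact_mod_cast this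
  have hk'R : (k : ℝ) / 2 ≤ k' := by
    have : (k' : ℝ) + j = k := by exact_mod_cast hk'
    linarith
  have hSexp1 : S ≤ Real.exp (a1 / 8 * k) := (Real.log_le_iff_le_exp hS0).mp hlog1
  have hSexp2 : S ≤ Real.exp (c / 16 * k) := (Real.log_le_iff_le_exp hS0).mp hlog2
  have hL21 : (2 * L + 1 : ℝ) ≤ (2 * Λ + 1) * S := by nlinarith
  have hj : j * (Real.log S + c) ≤ c * k / 4 := by
    have h1 : (j : ℝ) * Real.log S ≤ c * k / 8 := by
      have h2 : (j : ℝ) * Real.log S ≤ j * (c / (8 * (j + 1)) * k) :=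
        mul_le_mul_of_nonneg_left hlog3 (by positivity)
      have h3 : (j : ℝ) * (c / (8 * (j + 1)) * k) ≤ c * k / 8 := by
        have h4 : (j : ℝ) / (j + 1) ≤ 1 := by
          rw [div_le_one (by positivity)]; linarith
        calc (j : ℝ) * (c / (8 * (j + 1)) * k) = (j / (j + 1)) * (c * k / 8) := by
              field_simp
          _ ≤ 1 * (c * k / 8) := mul_le_mul_of_nonneg_right h4 (by positivity)
          _ = _ := one_mul _
      linarith
    have h2 : (j : ℝ) * c ≤ c * k / 8 := by nlinarith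
    rw [mul_add]
    linarith
  have hu1 : (2 * L + 1) * Real.exp (-((c / 4) ^ 2 * k' / (4 * Cb ^ 2))) +
        Real.exp (-(ε' ^ 2 * k' / (4 * Λ ^ 2))) ≤ 1 / 4 := by
    have e1 : (c / 4) ^ 2 * (k' : ℝ) / (4 * Cb ^ 2) = a1 * k' := by rw [ha1]; ring
    have e2 : ε' ^ 2 * (k' : ℝ) / (4 * Λ ^ 2) = a2 * k' := by rw [ha2]; ring
    rw [e1, e2]
    have h1 : (2 * L + 1) * Real.exp (-(a1 * k')) ≤ 1 / 8 := by
      have h2 : Real.exp (-(a1 * k')) ≤ Real.exp (-(a1 * (k / 2))) :=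
        Real.exp_le_exp.mpr (by nlinarith)
      have h3 : (2 * L + 1 : ℝ) ≤ (2 * Λ + 1) * Real.exp (a1 / 8 * k) :=
        hL21.trans (mul_le_mul_of_nonneg_left hSexp1 (by positivity))
      calc (2 * L + 1) * Real.exp (-(a1 * k'))
          ≤ (2 * Λ + 1) * Real.exp (a1 / 8 * k) * Real.exp (-(a1 * (k / 2))) := by
            gcongr
        _ = (2 * Λ + 1) * Real.exp (-(3 * a1 / 8 * k)) := by
            rw [mul_assoc, ← Real.exp_add]
            congr 2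
            ring
        _ ≤ 1 / 8 := by
            have := hk1 k hkk1
            linarith
    have h2 : Real.exp (-(a2 * k')) ≤ 1 / 8 := by
      have h3 : Real.exp (-(a2 * k')) ≤ Real.exp (-(a2 / 2 * k)) :=
        Real.exp_le_exp.mpr (by nlinarith)
      have := hk2 k hkk2
      linarith
    linarith
  have hu : (2 * L + 1) * Real.exp (-(c * k / 2)) ≤
      Real.exp (-(c / 8 * k)) * Real.exp (-(c / 8 * k)) := by
    have h3 : (2 * L + 1 : ℝ) ≤ (2 * Λ + 1) * Real.exp (c / 16 * k) :=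
      hL21.trans (mul_le_mul_of_nonneg_left hSexp2 (by positivity))
    calc (2 * L + 1) * Real.exp (-(c * k / 2))
        ≤ (2 * Λ + 1) * Real.exp (c / 16 * k) * Real.exp (-(c * k / 2)) := by gcongr
      _ = ((2 * Λ + 1) * Real.exp (-(3 * c / 16 * k))) *
          (Real.exp (-(c / 8 * k)) * Real.exp (-(c / 8 * k))) := by
          rw [mul_assoc, mul_assoc, ← Real.exp_add, ← Real.exp_add, ← Real.exp_add]
          congr 2
          ring
      _ ≤ 1 * (Real.exp (-(c / 8 * k)) * Real.exp (-(c / 8 * k))) :=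
          mul_le_mul_of_nonneg_right (hk3 k hkk3) (by positivity)
      _ = _ := one_mul _
  have hpr := caseB_pr G k k' j r1 M L R μ c Cb Λ ε' ε η S (Real.exp (-(c / 8 * k)))
    (Real.exp (-(c / 8 * k))) hc hCb hε' hη hηε hk' hkone hrk hS hS1 hM hMη hL hLS hσ hGood hR hj
    hu1 (Real.exp_pos _) hu
  have hc1 : min c 1 ≤ c := min_le_left _ _
  have hc2 : min c 1 ≤ 1 := min_le_right _ _
  refine (pr_mono ?_).trans (hpr.trans ?_)
  · intro z hz hz'
    apply hz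
    refine hz'.trans ?_
    have h1 : 4 * Real.exp (-(7 * (k' : ℝ))) ≤ Real.exp (-(min c 1 / 16) * k) / 2 := by
      have h2 : Real.exp (-(7 * (k' : ℝ))) ≤ Real.exp (-(3 * k)) *
          Real.exp (-(min c 1 / 16) * k) := by
        rw [← Real.exp_add]
        apply Real.exp_le_exp.mpr
        nlinarith
      have h3 := hk5 k hkk5
      have h4 := Real.exp_pos (-(min c 1 / 16) * k)
      nlinarith
    have h2 : 16 * Real.exp (-(c / 8 * k)) ≤ Real.exp (-(min c 1 / 16) * k) / 2 := by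
      have h2 : Real.exp (-(c / 8 * k)) ≤ Real.exp (-(c / 16 * k)) *
          Real.exp (-(min c 1 / 16) * k) := by
        rw [← Real.exp_add]
        apply Real.exp_le_exp.mpr
        nlinarith
      have h3 := hk6 k hkk6
      have h4 := Real.exp_pos (-(min c 1 / 16) * k)
      nlinarith
    linarith
  · have h3 : Real.exp (-(c / 8 * k)) ≤ τ / 2 := by
      have := hk4 k hkk4
      rw [div_mul_eq_mul_div, div_le_one hτ] at this
      linarith
    linarith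

end DiamAb
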