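import Mathlib
import Pool.Agent.Lib_MP_0ccc25_pr.Base

/-!
Piece DEEPHOLE. If the uncovered density at radius `R` is below `(1 / (2 q)) ^ k`, then
everything is covered at radius `R'` about `q R / (q - 1)`.

PROOF.
Case A: every `x : G` is of the form `dot w z`. `G` is finite, so there is `T` with `Cov z T`;
take the least one (`Nat.find`). If `T ≤ R'` we are done by `Cov.mono`. Suppose `R' < T`.
Then `T ≥ 1` and there is `x0` with `¬ Reach z (T - 1) x0`. Let `a = T / q` (floor division) and
`B = {y | Reach z a y}`. For `y ∈ B` we have `¬ Reach z R (x0 - y)`: otherwise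
`Reach z (R + a) x0`, while `q (R + a) ≤ q R + T ≤ q R' - R' + T` and `(q - 1) R' < (q - 1) T`
give `q (R + a) < q T`, so `R + a ≤ T - 1`, a contradiction. So the number of uncovered points is
at least `B.card` (the map `y ↦ x0 - y` is injective).
Next `Fintype.card G ≤ (2 q) ^ k * B.card`: every `x` is `dot w z` with `nrm w ≤ T`; write
`w i = q * (w i).tdiv q + (w i).tmod q`; with `u i = (w i).tdiv q` we have
`|u i| = |w i| / q` (natural floor division) so `nrm u ≤ T / q = a`
(`Σ |u i| ≤ (Σ |w i|) / q`), and `v i = (w i).tmod q` satisfies `|v i| < q`. Hence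
`x = q • (dot u z) + dot v z` with `dot u z ∈ B` and `v` in a set of `(2 q - 1) ^ k` words
(`Fintype.piFinset fun _ => Finset.Ioo (-q) q`). So `G` is contained in the image of
`B ×ˢ` that set. Therefore `unc z R ≥ B.card / |G| ≥ (1 / (2 q)) ^ k`, contradiction.
Case B: some `x` is not of the form `dot w z`. The values `dot w z` form a proper subgroup `H`
(use `AddSubgroup` with carrier `{x | ∃ w, dot w z = x}`), so `2 * |H| ≤ |G|`
(index at least two, `AddSubgroup.card_mul_index`), all points outside `H` are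
uncovered, so `unc z R ≥ 1 / 2 ≥ (1 / (2 q)) ^ k` since `k ≥ 1`, contradiction.
-/

namespace DiamAb

open Finset

theorem deep_hole_lt {G : Type} [AddCommGroup G] [Fintype G] {k : ℕ} (hk : 1 ≤ k) {q : ℕ}
    (hq : 2 ≤ q) (z : Fin k → G) (R : ℕ) (h : unc z R < (1 / (2 * q : ℝ)) ^ k) :
    ∀ x, ∃ w : Fin k → ℤ, dot w z = x := by
  classical
  by_contra hc
  push Not at hc
  obtain ⟨x0, hx0⟩ := hc
  have h1 : (univ.filter fun x : G => ∃ w : Fin k → ℤ, dot w z = x).card ≤
      (univ.filter fun x : G => ¬ ∃ w : Fin k → ℤ, dot w z = x).card := by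
    apply card_le_card_of_injOn (fun y => x0 + y)
    · intro y hy
      simp only [coe_filter, mem_univ, true_and, Set.mem_ofPred_eq] at hy ⊢
      rintro ⟨w, hw⟩
      obtain ⟨w', hw'⟩ := hy
      apply hx0 (w - w')
      rw [dot_sub, hw, hw']
      abel
    · intro y _ y' _ hyy
      exact add_left_cancel hyy
  have h2 := card_filter_add_card_filter_not (s := (univ : Finset G))
    (fun x : G => ∃ w : Fin k → ℤ, dot w z = x)
  rw [card_univ] at h2
  have h3 : (univ.filter fun x : G => ¬ ∃ w : Fin k → ℤ, dot w z = x).card ≤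
      (univ.filter fun x : G => ¬ Reach z R x).card := by
    apply card_le_card
    intro x hx
    simp only [mem_filter, mem_univ, true_and] at hx ⊢
    rintro ⟨w, hw, _⟩
    exact hx ⟨w, hw⟩
  have h4 : Fintype.card G ≤ 2 * (univ.filter fun x : G => ¬ Reach z R x).card := by omega
  have h5 : (1 : ℝ) / 2 ≤ unc z R := by
    unfold unc
    rw [pr_def, div_le_div_iff₀ (by norm_num) (by exact_mod_cast Fintype.card_pos)]
    have : (Fintype.card G : ℝ) ≤ 2 * ((univ.filter fun x : G => ¬ Reach z R x).card : ℝ) := by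
      exact_mod_cast h4
    linarith
  have hq' : (2 : ℝ) ≤ q := by exact_mod_cast hq
  have h6 : (1 / (2 * q : ℝ)) ≤ 1 / 2 := by
    apply one_div_le_one_div_of_le (by norm_num)
    linarith
  have h7 : (1 / (2 * q : ℝ)) ^ k ≤ (1 / (2 * q : ℝ)) ^ 1 :=
    pow_le_pow_of_le_one (by positivity) (by linarith) hk
  rw [pow_one] at h7
  linarith

/-- division with remainder of all letters of a word -/
theorem deep_hole_div {G : Type} [AddCommGroup G] {k : ℕ} {q : ℕ}
    (hq : 2 ≤ q) (z : Fin k → G) (T : ℕ) (w : Fin k → ℤ) (hw : nrm w ≤ T) :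
    ∃ u v : Fin k → ℤ, nrm u ≤ T / q ∧ (∀ i, v i ∈ Finset.Ioo (-(q : ℤ)) q) ∧
      dot w z = q • dot u z + dot v z := by
  have hq0 : 0 < q := by omega
  have hqz : (0 : ℤ) < q := by exact_mod_cast hq0
  refine ⟨fun i => (w i).tdiv q, fun i => (w i).tmod q, ?_, ?_, ?_⟩
  · rw [Nat.le_div_iff_mul_le hq0]
    unfold nrm at hw ⊢
    rw [sum_mul]
    refine le_trans (sum_le_sum fun i _ => ?_) hw
    rw [Int.natAbs_tdiv]
    simp only [Int.natAbs_natCast]
    exact Nat.div_mul_le_self _ _
  · intro i
    rw [Finset.mem_Ioo]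
    constructor
    · have h1 := Int.natAbs_tmod (w i) q
      rw [Int.natAbs_natCast] at h1
      have h2 := Nat.mod_lt (w i).natAbs hq0
      show -(q : ℤ) < (w i).tmod q
      omega
    · exact Int.tmod_lt_of_pos _ hqz
  · unfold dot
    rw [smul_sum, ← sum_add_distrib]
    refine sum_congr rfl fun i _ => ?_
    have h1 := Int.mul_tdiv_add_tmod (w i) q
    conv_lhs => rw [← h1]
    rw [add_smul, mul_smul, natCast_zsmul]

theorem deep_hole {G : Type} [AddCommGroup G] [Fintype G] {k : ℕ} (hk : 1 ≤ k) {q : ℕ}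
    (hq : 2 ≤ q) (z : Fin k → G) (R R' : ℕ) (h : unc z R < (1 / (2 * q : ℝ)) ^ k)
    (hR : q * R + R' ≤ q * R') : Cov z R' := by
  classical
  have hall := deep_hole_lt hk hq z R h
  choose W hW using hall
  have hex : ∃ T, Cov z T := by
    refine ⟨univ.sup fun x => nrm (W x), fun x => ⟨W x, hW x, ?_⟩⟩
    exact le_sup (f := fun x => nrm (W x)) (mem_univ x)
  obtain ⟨T, hT, hmin⟩ : ∃ T, Cov z T ∧ ∀ m, m < T → ¬ Cov z m :=
    ⟨Nat.find hex, Nat.find_spec hex, fun m hm => Nat.find_min hex hm⟩
  by_contra hc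
  have hlt : R' < T := by
    by_contra h'
    exact hc (hT.mono (not_lt.1 h'))
  have hTm : ¬ Cov z (T - 1) := hmin _ (by omega)
  unfold Cov at hTm
  push Not at hTm
  obtain ⟨x0, hx0⟩ := hTm
  have hle : R + T / q ≤ T - 1 := by
    have h1 : q * (T / q) ≤ T := Nat.mul_div_le T q
    obtain ⟨p, rfl⟩ : ∃ p, q = p + 2 := ⟨q - 2, by omega⟩
    have h2 : (p + 2) * (R + T / (p + 2)) < (p + 2) * T := by
      have h3 : (p + 2) * (R + T / (p + 2)) + R' ≤ (p + 2) * R' + T := by
        rw [mul_add]
        omega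
      have h4 : (p + 1) * R' < (p + 1) * T := Nat.mul_lt_mul_of_pos_left hlt (by omega)
      have h5 : (p + 2) * R' = (p + 1) * R' + R' := by ring
      have h6 : (p + 2) * T = (p + 1) * T + T := by ring
      omega
    have h7 := Nat.lt_of_mul_lt_mul_left h2
    omega
  have hB1 : (univ.filter fun y : G => Reach z (T / q) y).card ≤
      (univ.filter fun x : G => ¬ Reach z R x).card := by
    apply card_le_card_of_injOn (fun y => x0 - y)
    · intro y hy
      simp only [coe_filter, mem_univ, true_and, Set.mem_ofPred_eq] at hy ⊢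
      intro hr
      have := hr.add hy
      rw [sub_add_cancel] at this
      exact hx0 (this.mono hle)
    · intro y _ y' _ hyy
      exact sub_right_injective hyy
  have hB2 : Fintype.card G ≤
      (univ.filter fun y : G => Reach z (T / q) y).card * (2 * q) ^ k := by
    have hsub : (univ : Finset G) ⊆
        ((univ.filter fun y : G => Reach z (T / q) y) ×ˢ
          (Fintype.piFinset fun _ : Fin k => Finset.Ioo (-(q : ℤ)) q)).image
            (fun p => q • p.1 + dot p.2 z) := by
      intro x _
      obtain ⟨w, hw, hn⟩ := hT x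
      obtain ⟨u, v, hu, hv, he⟩ := deep_hole_div hq z T w hn
      rw [mem_image]
      refine ⟨(dot u z, v), ?_, ?_⟩
      · rw [mem_product]
        refine ⟨?_, ?_⟩
        · rw [mem_filter]
          exact ⟨mem_univ _, u, rfl, hu⟩
        · rw [Fintype.mem_piFinset]
          exact hv
      · rw [← hw, he]
    have h1 := card_le_card hsub
    rw [card_univ] at h1
    refine h1.trans (card_image_le.trans ?_)
    rw [card_product]
    apply Nat.mul_le_mul_left
    rw [Fintype.card_piFinset_const]
    simp only [Int.card_Ioo]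
    apply Nat.pow_le_pow_left
    omega
  have hq0 : (0 : ℝ) < 2 * q := by
    have : (0 : ℝ) < q := by exact_mod_cast (by omega : 0 < q)
    positivity
  have hfin : (1 / (2 * q : ℝ)) ^ k ≤ unc z R := by
    unfold unc
    rw [pr_def, le_div_iff₀ (by exact_mod_cast Fintype.card_pos)]
    have h1 : (Fintype.card G : ℝ) ≤
        ((univ.filter fun y : G => Reach z (T / q) y).card : ℝ) * (2 * q) ^ k := by
      exact_mod_cast hB2
    have h2 : ((univ.filter fun y : G => Reach z (T / q) y).card : ℝ) ≤
        ((univ.filter fun x : G => ¬ Reach z R x).card : ℝ) := by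
      exact_mod_cast hB1
    have h3 : (1 / (2 * q : ℝ)) ^ k * (2 * q : ℝ) ^ k = 1 := by
      rw [← mul_pow, one_div, inv_mul_cancel₀ hq0.ne', one_pow]
    calc (1 / (2 * q : ℝ)) ^ k * (Fintype.card G : ℝ)
        ≤ (1 / (2 * q : ℝ)) ^ k *
          (((univ.filter fun y : G => Reach z (T / q) y).card : ℝ) * (2 * q) ^ k) :=
          mul_le_mul_of_nonneg_left h1 (by positivity)
      _ = ((univ.filter fun y : G => Reach z (T / q) y).card : ℝ) *
          ((1 / (2 * q : ℝ)) ^ k * (2 * q : ℝ) ^ k) := by ring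
      _ = ((univ.filter fun y : G => Reach z (T / q) y).card : ℝ) := by rw [h3, mul_one]
      _ ≤ _ := h2
  linarith

end DiamAb
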