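import Mathlib
import Pool.Agent.Lib_MP_0ccc25_pr.Base

/-!
Piece SQ. One more generator squares the uncovered density, on average; iteration.

PROOF of `sq_step`. If `¬ Reach (Fin.snoc z g) (R + 1) x` then `¬ Reach z R x` and
`¬ Reach z R (x - g)` (use `dot_snoc`, `nrm_snoc` with last letter `0` or `1`). Let `E` be the
set of uncovered points of `z` at radius `R`. Then `Σ_g #{x | uncovered by snoc z g} ≤
#{(g, x) | x ∈ E, x - g ∈ E} = |E| ^ 2` (the map `(g, x) ↦ (x, x - g)` is injective). Divide by
`|G| ^ 2`.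

PROOF of `sq_iter`. Induction on `j`; put `q_t = η (q0 / η) ^ (2 ^ t)`, so `q_(t+1) = q_t ^ 2 / η`.
By Fubini (`av_snoc` applied to the indicator, via `pr_eq_av`), the probability that
`z : Fin (k + (j + 1)) → G`, `z = snoc z' g`, has `unc > q_(j+1)` is the average over `z'` of the
conditional probability over `g`. If `unc z' (R + j) ≤ q_j`, then by `sq_step`, `markov` and
`q_j > 0` the conditional probability is at most `q_j ^ 2 / (q_j ^ 2 / η) = η`; otherwise it is at
most one. So the probability is at most `pr (unc z' (R + j) > q_j) + η`.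
(`k + (j + 1)` and `(k + j) + 1` are definitionally equal.)
-/

namespace DiamAb

theorem sq_step {G : Type} [AddCommGroup G] [Fintype G] {k : ℕ} (z : Fin k → G) (R : ℕ) :
    av (fun g : G => unc (Fin.snoc z g : Fin (k + 1) → G) (R + 1)) ≤ unc z R ^ 2 := by
  classical
  have hf : ∃ f : G → ℝ, ∀ x, f x = if ¬ Reach z R x then (1 : ℝ) else 0 := ⟨_, fun _ => rfl⟩
  obtain ⟨f, hf⟩ := hf
  have hf0 : ∀ x, 0 ≤ f x := by
    intro x
    rw [hf]
    split_ifs <;> norm_num
  have h1 : ∀ g, unc (Fin.snoc z g : Fin (k + 1) → G) (R + 1)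
      ≤ av (fun x => f x * f (x - g)) := by
    intro g
    unfold unc
    rw [pr_eq_av]
    apply av_mono
    intro x
    by_cases hx : Reach (Fin.snoc z g : Fin (k + 1) → G) (R + 1) x
    · rw [if_neg (not_not.2 hx)]
      exact mul_nonneg (hf0 _) (hf0 _)
    · have a : ¬ Reach z R x := by
        rintro ⟨w, hw, hn⟩
        apply hx
        refine ⟨Fin.snoc w 0, ?_, ?_⟩
        · rw [dot_snoc, hw, zero_smul, add_zero]
        · rw [nrm_snoc]
          simp
          omega
      have b : ¬ Reach z R (x - g) := by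
        rintro ⟨w, hw, hn⟩
        apply hx
        refine ⟨Fin.snoc w 1, ?_, ?_⟩
        · rw [dot_snoc, hw, one_smul, sub_add_cancel]
        · rw [nrm_snoc]
          simp
          omega
      rw [if_pos hx, hf x, hf (x - g), if_pos a, if_pos b, mul_one]
  have h2 : av (fun g => av fun x => f x * f (x - g)) = (av f) ^ 2 := by
    unfold av
    rw [← Finset.sum_div, div_div, div_pow, sq, sq]
    congr 1
    rw [Finset.sum_comm, Finset.sum_mul]
    refine Finset.sum_congr rfl fun x _ => ?_
    rw [← Finset.mul_sum]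
    congr 1
    exact (Equiv.subLeft x).sum_comp f
  have h3 : av f = unc z R := by
    unfold unc
    rw [pr_eq_av]
    congr 1
    funext x
    exact hf x
  rw [← h3, ← h2]
  exact av_mono h1

theorem sq_iter {G : Type} [AddCommGroup G] [Fintype G] (k R j : ℕ) (q0 η : ℝ) (h0 : 0 < q0)
    (hη : 0 < η) :
    pr (fun z : Fin (k + j) → G => ¬ unc z (R + j) ≤ η * (q0 / η) ^ (2 ^ j)) ≤
      pr (fun z : Fin k → G => ¬ unc z R ≤ q0) + j * η := by
  classical
  induction j with
  | zero =>
    have : η * (q0 / η) ^ (2 ^ 0) = q0 := by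
      rw [pow_zero, pow_one]
      field_simp
    rw [this]
    simp
  | succ j ih =>
    have hq : ∃ Q : ℝ, Q = η * (q0 / η) ^ (2 ^ j) := ⟨_, rfl⟩
    obtain ⟨Q, hQ⟩ := hq
    have hQ0 : 0 < Q := by rw [hQ]; positivity
    have hQ' : η * (q0 / η) ^ (2 ^ (j + 1)) = Q ^ 2 / η := by
      rw [hQ, pow_succ 2 j, pow_mul]
      field_simp
    rw [hQ']
    rw [← hQ] at ih
    have key : pr (fun z : Fin (k + (j + 1)) → G => ¬ unc z (R + (j + 1)) ≤ Q ^ 2 / η) ≤
        pr (fun z : Fin (k + j) → G => ¬ unc z (R + j) ≤ Q) + η := by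
      rw [pr_eq_av, pr_eq_av]
      have e1 := av_snoc (k := k + j) (fun z : Fin (k + j + 1) → G =>
        if ¬ unc z (R + (j + 1)) ≤ Q ^ 2 / η then (1 : ℝ) else 0)
      refine le_trans (le_of_eq e1) ?_
      have e2 : av (fun z : Fin (k + j) → G => (if ¬ unc z (R + j) ≤ Q then (1 : ℝ) else 0) + η)
          = av (fun z : Fin (k + j) → G => if ¬ unc z (R + j) ≤ Q then (1 : ℝ) else 0) + η := by
        rw [av_add, av_const]
      rw [← e2]
      apply av_mono
      intro z'
      rw [← pr_eq_av]
      by_cases hz : unc z' (R + j) ≤ Q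
      · rw [if_neg (not_not.2 hz), zero_add]
        have e3 : pr (fun g : G => ¬ unc (Fin.snoc z' g : Fin (k + j + 1) → G) (R + (j + 1))
            ≤ Q ^ 2 / η) ≤ pr (fun g : G => Q ^ 2 / η <
              unc (Fin.snoc z' g : Fin (k + j + 1) → G) (R + j + 1)) := by
          apply pr_mono
          intro g hg
          exact not_le.1 hg
        refine e3.trans ?_
        refine (markov (fun g => pr_nonneg _) (by positivity)).trans ?_
        rw [div_le_iff₀ (by positivity)]
        have e4 := sq_step z' (R + j)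
        have e5 : unc z' (R + j) ^ 2 ≤ Q ^ 2 :=
          pow_le_pow_left₀ (pr_nonneg _) hz 2
        have e6 : η * (Q ^ 2 / η) = Q ^ 2 := by field_simp
        rw [e6]
        exact e4.trans e5
      · rw [if_pos hz]
        have := pr_le_one (fun g : G => ¬ unc (Fin.snoc z' g : Fin (k + j + 1) → G)
          (R + (j + 1)) ≤ Q ^ 2 / η)
        linarith
    push_cast
    linarith

end DiamAb
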