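import Mathlib
import Pool.Agent.Lib_MP_0ccc25_pr.Sq
import Pool.Agent.Lib_MP_0ccc25_pr.DeepHole

/-!
Piece FIN. From exponentially small uncovered density with `k' = k - j` generators to full
covering with `k` generators, at the cost of `j` in the radius and a factor `q / (q - 1)`.

PROOF. Choose `j` with `2 ^ j * c3 ≥ 2 * (log (2 q) + 1)`. Given `τ`, let
`η = min 1 (τ / (2 (j + 1)))` and take `k0 ≥ 1` with `exp (-c3 k0 / 2) ≤ η`. For `k ≥ k0` put
`q0 = exp (-c3 k)`; then `q0 / η ≤ exp (-c3 k / 2)`, so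
`η (q0 / η) ^ (2 ^ j) ≤ exp (-c3 k 2 ^ j / 2) ≤ exp (-(log (2 q) + 1) k) < (1 / (2 q)) ^ k`.
By `sq_iter` (after `subst` of `k = k' + j`) the probability that
`unc z (R + j) > η (q0 / η) ^ (2 ^ j)` is at most `τ / 2 + j η ≤ τ`; otherwise `deep_hole`
(applied with `R + j`) gives `Cov z R'`.
-/

namespace DiamAb

theorem fin_step (c3 : ℝ) (hc : 0 < c3) (q : ℕ) (hq : 2 ≤ q) : ∃ j : ℕ, ∀ τ : ℝ, 0 < τ →
    ∃ k0 : ℕ, ∀ (G : Type) [AddCommGroup G] [Fintype G] (k k' R : ℕ), k0 ≤ k → k' + j = k →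
      pr (fun z : Fin k' → G => ¬ unc z R ≤ Real.exp (-c3 * k)) ≤ τ / 2 →
      ∀ R' : ℕ, q * (R + j) + R' ≤ q * R' →
        pr (fun z : Fin k → G => ¬ Cov z R') ≤ τ := by
  obtain ⟨j, hj⟩ := pow_unbounded_of_one_lt (2 * (Real.log (2 * q) + 1) / c3)
    (one_lt_two (α := ℝ))
  refine ⟨j, fun τ hτ => ?_⟩
  have hη : ∃ η : ℝ, η = min 1 (τ / (2 * (j + 1))) := ⟨_, rfl⟩
  obtain ⟨η, hη⟩ := hη
  have hη0 : 0 < η := by
    rw [hη]
    apply lt_min one_pos
    positivity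
  have hη1 : η ≤ 1 := by rw [hη]; exact min_le_left _ _
  have hηj : (j : ℝ) * η ≤ τ / 2 := by
    have h1 : η ≤ τ / (2 * (j + 1)) := by rw [hη]; exact min_le_right _ _
    have h2 : (j : ℝ) * η ≤ (j + 1) * (τ / (2 * (j + 1))) := by
      apply mul_le_mul _ h1 hη0.le (by positivity)
      linarith
    have h3 : ((j : ℝ) + 1) * (τ / (2 * (j + 1))) = τ / 2 := by
      have : (j : ℝ) + 1 ≠ 0 := by positivity
      field_simp
    linarith
  obtain ⟨k1, hk1⟩ := exists_nat_ge (-2 * Real.log η / c3)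
  refine ⟨max 1 k1, ?_⟩
  intro G _ _ k k' R hk hkk hpr R' hR'
  subst hkk
  have hk1' : 1 ≤ k' + j := (le_max_left _ _).trans hk
  have hk2' : k1 ≤ k' + j := (le_max_right _ _).trans hk
  have hK : ∃ K : ℝ, K = ((k' + j : ℕ) : ℝ) := ⟨_, rfl⟩
  obtain ⟨K, hK⟩ := hK
  have hK1 : 1 ≤ K := by rw [hK]; exact_mod_cast hk1'
  have hKe : -2 * Real.log η / c3 ≤ K := by
    rw [hK]
    refine hk1.trans ?_
    exact_mod_cast hk2'
  rw [← hK] at hpr
  have h1 : Real.exp (-c3 * K / 2) ≤ η := by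
    rw [← Real.le_log_iff_exp_le hη0]
    rw [div_le_iff₀ hc] at hKe
    linarith
  have h2 : Real.exp (-c3 * K) / η ≤ Real.exp (-c3 * K / 2) := by
    rw [div_le_iff₀ hη0]
    have : Real.exp (-c3 * K) = Real.exp (-c3 * K / 2) * Real.exp (-c3 * K / 2) := by
      rw [← Real.exp_add]
      congr 1
      ring
    rw [this]
    exact mul_le_mul_of_nonneg_left h1 (Real.exp_pos _).le
  have h3 : η * (Real.exp (-c3 * K) / η) ^ (2 ^ j) ≤ Real.exp (-c3 * K / 2) ^ (2 ^ j) := by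
    have h31 : (Real.exp (-c3 * K) / η) ^ (2 ^ j) ≤ Real.exp (-c3 * K / 2) ^ (2 ^ j) :=
      pow_le_pow_left₀ (by positivity) h2 _
    calc η * (Real.exp (-c3 * K) / η) ^ (2 ^ j) ≤ 1 * (Real.exp (-c3 * K) / η) ^ (2 ^ j) :=
          mul_le_mul_of_nonneg_right hη1 (by positivity)
      _ ≤ _ := by rw [one_mul]; exact h31
  have hq0 : (0 : ℝ) < 2 * q := by
    have : (0 : ℝ) < q := by exact_mod_cast (by omega : 0 < q)
    positivity
  have h4 : Real.exp (-c3 * K / 2) ^ (2 ^ j) < (1 / (2 * q : ℝ)) ^ (k' + j) := by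
    have e1 : Real.exp (-c3 * K / 2) ^ (2 ^ j) = Real.exp ((2 : ℝ) ^ j * (-c3 * K / 2)) := by
      rw [← Real.exp_nat_mul]
      push_cast
      rfl
    have e2 : (1 / (2 * q : ℝ)) ^ (k' + j) = Real.exp (-(Real.log (2 * q)) * K) := by
      rw [hK, one_div, inv_pow, neg_mul, Real.exp_neg, mul_comm (Real.log _) _,
        Real.exp_nat_mul, Real.exp_log hq0]
    rw [e1, e2]
    apply Real.exp_lt_exp.2
    rw [div_lt_iff₀ hc] at hj
    nlinarith
  have h5 := sq_iter (G := G) k' R j (Real.exp (-c3 * K)) η (Real.exp_pos _) hη0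
  have h6 : pr (fun z : Fin (k' + j) → G => ¬ Cov z R') ≤
      pr (fun z : Fin (k' + j) → G => ¬ unc z (R + j) ≤ η * (Real.exp (-c3 * K) / η) ^ (2 ^ j)) := by
    apply pr_mono
    intro z hz hu
    apply hz
    exact deep_hole hk1' hq z (R + j) R' (lt_of_le_of_lt (hu.trans h3) h4) hR'
  linarith

end DiamAb
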