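import Mathlib
import Pool.Agent.Lib_MP_0ccc25_pr.CaseA
import Pool.Agent.Lib_MP_0ccc25_pr.CaseB
import Pool.Agent.Lib_MP_0ccc25_pr.FinStep
import Pool.Agent.Lib_MP_0ccc25_pr.Crit

/-!
Piece REGA. Regime A (`log S ≤ c' k`): covering with high probability, from a provider of good
coordinate laws.

PROOF. Apply `caseA` and `caseB` with `ε' = ε`; let `c3` be the smaller of the two constants
(`exp (-c3' k) ≤ exp (-c3 k)` for `c3 ≤ c3'`), `j` from `fin_step c3 q`. Given `τ`, use both with this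
`j` and `τ / 2`, and `k0` from `fin_step` for `τ`; take the maxima of the `k0`, `r0` and the minimum of the
`c'`, and also `k0 ≥ (j + 1) / ε` (so `1 + j ≤ ε k ≤ ε k S`).
Given `G`, `k` etc. let `M` be the critical modulus from `crit` (with `Cf`), `k' = k - j`,
`R = ⌈k (X + 5 ε S)⌉₊`, so `R + j ≤ k (X + 6 ε S)` and `q (R + j) + R' ≤ q R'` from `hR'`
(`q (k (X + 6 ε S)) ≤ (q - 1) R'`).
If `η S ≤ M`: the first provider gives `L, μ` for this `M`; apply `caseA` (`k (Ab + ε S) ≤ R`).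
If `M < η S`: every `g` with `η S ≤ g` has `g > M`, so (iv) of `crit` and `S / g ≤ 1 / η` give
`exp (-Cf (1 / η) ^ (7 / 4)) ≤ log g - hh`; the second provider gives `L, μ`; apply `caseB`
(`k (Ab + ε S + 4 ε S) ≤ R`). Its hypothesis for `2 ≤ g < η S`, `¬ g ∣ M`: let `y = S / g ≥ 1 / η`. If `g ≤ M` then
`S / (2 M) ≤ y` and (ii) of `crit`, otherwise (iv), give `exp (-Cf y ^ (7 / 4)) / 2 ≤ log g - hh`. With
`s = ⌊(ε S) ^ 2⌋₊ ≥ (ε S) ^ 2 / 2` (as `ε S ≥ η S > M ≥ 1`), `4 s / g ^ 2 ≥ 2 ε ^ 2 y ^ 2 ≥ Cf y ^ (7 / 4) + log 16`, so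
`8 exp (-4 s / g ^ 2) ≤ (8 / 16) exp (-Cf y ^ (7 / 4))`.
In both cases `fin_step` concludes.
-/

namespace DiamAb

theorem regA (ε Cf η c Cb Λ : ℝ) (q : ℕ) (hε : 0 < ε) (hη : 0 < η) (hηε : η ≤ ε) (hCf : 8 ≤ Cf)
    (hc : 0 < c) (hCb : 0 < Cb) (hΛ : 0 < Λ) (hq : 2 ≤ q)
    (hy : ∀ y : ℝ, 1 / η ≤ y → Cf * y ^ (7 / 4 : ℝ) + Real.log 16 ≤ 2 * ε ^ 2 * y ^ 2) :
    ∀ τ : ℝ, 0 < τ → ∃ (k0 r0 : ℕ) (c' : ℝ), 0 < c' ∧
      ∀ (G : Type) [AddCommGroup G] [Fintype G] (k R' : ℕ) (S X : ℝ),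
        k0 ≤ k → AddGroup.rank G + r0 ≤ k → S ^ k = Fintype.card G → 1 ≤ S →
        Real.log S ≤ c' * k → 0 ≤ X →
        (∀ M : ℕ, 1 ≤ M → (M : ℝ) ≤ 3 * S → η * S ≤ M →
          (∀ g : ℕ, 1 ≤ g → ¬ g ∣ M →
            Real.exp (-Cf * (S / (2 * M)) ^ (7 / 4 : ℝ)) / 2 ≤ Real.log g - hh G k g) →
          Real.log M - hh G k M ≤ Real.exp (-Cf * (S / M) ^ (7 / 4 : ℝ)) →
          ∃ (L : ℕ) (μ : ℤ → ℝ), 1 ≤ L ∧ (L : ℝ) ≤ Λ * S ∧
            Good (hh G k) M {g | ¬ g ∣ M} c Cb μ L ∧ Ab μ L ≤ X) →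
        ((∀ g : ℕ, η * S ≤ (g : ℝ) →
            Real.exp (-Cf * (1 / η) ^ (7 / 4 : ℝ)) ≤ Real.log g - hh G k g) →
          ∃ (L : ℕ) (μ : ℤ → ℝ), 1 ≤ L ∧ (L : ℝ) ≤ Λ * S ∧
            Good (hh G k) 1 {g | η * S ≤ (g : ℝ)} c Cb μ L ∧ Ab μ L ≤ X) →
        q * (k * (X + 6 * ε * S)) ≤ ((q : ℝ) - 1) * R' →
        pr (fun z : Fin k → G => ¬ Cov z R') ≤ τ := by
  obtain ⟨cA, hcA, HA⟩ := caseA c Cb Λ ε hc hCb hΛ hε
  obtain ⟨cB, hcB, HB⟩ := caseB c Cb Λ ε ε η hc hCb hΛ hε hη hηε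
  obtain ⟨j, HF⟩ := fin_step (min cA cB) (lt_min hcA hcB) q hq
  intro τ hτ
  obtain ⟨kA, rA, c'A, hc'A, HA⟩ := HA j (τ / 2) (by positivity)
  obtain ⟨kB, rB, c'B, hc'B, HB⟩ := HB j (τ / 2) (by positivity)
  obtain ⟨kF, HF⟩ := HF τ hτ
  refine ⟨max (max kA kB) (max kF (max (j + 1) ⌈((j : ℝ) + 1) / ε⌉₊)), max rA rB,
    min c'A c'B, lt_min hc'A hc'B, ?_⟩
  intro G _ _ k R' S X hk hrk hS hS1 hlog hX prov1 prov2 hR'
  simp only [max_le_iff] at hk
  obtain ⟨⟨hkA, hkB⟩, hkF, hkj, hkε⟩ := hk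
  have hrkA : AddGroup.rank G + rA ≤ k := le_trans (by gcongr; exact le_max_left _ _) hrk
  have hrkB : AddGroup.rank G + rB ≤ k := le_trans (by gcongr; exact le_max_right _ _) hrk
  have hk1 : 1 ≤ k := by omega
  have hkR : (1 : ℝ) ≤ k := by exact_mod_cast hk1
  have hS0 : 0 < S := by linarith
  have hlogA : Real.log S ≤ c'A * k := hlog.trans (by gcongr; exact min_le_left _ _)
  have hlogB : Real.log S ≤ c'B * k := hlog.trans (by gcongr; exact min_le_right _ _)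
  -- the reserved generators
  obtain ⟨k', hk'⟩ : ∃ k', k' + j = k := ⟨k - j, by omega⟩
  have hjε : (j : ℝ) + 1 ≤ ε * k := by
    have h1 : ((j : ℝ) + 1) / ε ≤ k := le_trans (Nat.le_ceil _) (by exact_mod_cast hkε)
    rw [div_le_iff₀ hε] at h1
    linarith
  have hjS : (j : ℝ) + 1 ≤ ε * (k * S) := by
    have : ε * k ≤ ε * (k * S) := by
      have : (k : ℝ) ≤ k * S := le_mul_of_one_le_right (by positivity) hS1
      gcongr
    linarith
  set R : ℕ := ⌈(k : ℝ) * (X + 5 * ε * S)⌉₊ with hRdef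
  have hR1 : (k : ℝ) * (X + 5 * ε * S) ≤ R := Nat.le_ceil _
  have hR2 : (R : ℝ) + j ≤ k * (X + 6 * ε * S) := by
    have h1 : (R : ℝ) < k * (X + 5 * ε * S) + 1 := Nat.ceil_lt_add_one (by positivity)
    nlinarith
  have hfin : q * (R + j) + R' ≤ q * R' := by
    have hq0 : (0 : ℝ) ≤ q := by positivity
    have h1 : (q : ℝ) * (R + j) ≤ q * (k * (X + 6 * ε * S)) := by gcongr
    have h2 : (q : ℝ) * (R + j) + R' ≤ q * R' := by nlinarith
    exact_mod_cast h2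
  refine HF G k k' R hkF hk' ?_ R' hfin
  -- the critical modulus
  obtain ⟨M, hM1, hM3, hMa, hMb, hMc⟩ := crit G k S Cf (by omega) hk1 hS1 hS hCf
  rcases le_or_gt (η * S) M with hcase | hcase
  · obtain ⟨L, μ, hL1, hLS, hGood, hAb⟩ := prov1 M hM1 hM3 hcase hMa hMb
    have hRX : (k : ℝ) * (Ab μ L + ε * S) ≤ R := by
      refine le_trans ?_ hR1
      apply mul_le_mul_of_nonneg_left _ (by positivity)
      have : 0 < ε * S := by positivity
      linarith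
    have hfin := HA G k k' M L R S μ hkA hrkA hk' hS hS1 hlogA hM1 hL1 hLS hGood hRX
    refine le_trans (pr_mono ?_) hfin
    intro z hz hz'
    apply hz
    refine hz'.trans ?_
    apply Real.exp_le_exp.mpr
    have : min cA cB ≤ cA := min_le_left _ _
    nlinarith
  · have hMR : (1 : ℝ) ≤ M := by exact_mod_cast hM1
    obtain ⟨L, μ, hL1, hLS, hGood, hAb⟩ := prov2 (by
      intro g hg
      have hgM : M < g := by
        have : (M : ℝ) < g := lt_of_lt_of_le hcase hg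
        exact_mod_cast this
      have hg0 : (0 : ℝ) < g := lt_of_lt_of_le (by positivity) hg
      refine le_trans (Real.exp_le_exp.mpr ?_) (hMc g hgM)
      have h1 : S / g ≤ 1 / η := by
        rw [div_le_div_iff₀ hg0 hη]
        linarith
      have h2 : (S / g) ^ (7 / 4 : ℝ) ≤ (1 / η) ^ (7 / 4 : ℝ) :=
        Real.rpow_le_rpow (by positivity) h1 (by norm_num)
      nlinarith)
    have hRX : (k : ℝ) * (Ab μ L + ε * S + 4 * ε * S) ≤ R := by
      refine le_trans ?_ hR1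
      apply mul_le_mul_of_nonneg_left _ (by positivity)
      linarith
    have hσ : ∀ g : ℕ, 2 ≤ g → (g : ℝ) < η * S → ¬ g ∣ M →
        8 * Real.exp (-(4 * ⌊(ε * S) ^ 2⌋₊ / (g : ℝ) ^ 2)) ≤ Real.log g - hh G k g := by
      intro g hg2 hgη hgM
      have hg0 : (0 : ℝ) < g := by
        have : 0 < g := by omega
        exact_mod_cast this
      have hy1 : 1 / η ≤ S / g := by
        rw [div_le_div_iff₀ hη hg0]
        linarith
      have hyS := hy (S / g) hy1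
      have hσ : Real.exp (-Cf * (S / g) ^ (7 / 4 : ℝ)) / 2 ≤ Real.log g - hh G k g := by
        rcases le_or_gt g M with h | h
        · refine le_trans ?_ (hMa g (by omega) hgM)
          apply div_le_div_of_nonneg_right _ (by norm_num)
          apply Real.exp_le_exp.mpr
          have h1 : S / (2 * M) ≤ S / g := by
            apply div_le_div_of_nonneg_left hS0.le hg0
            have : (g : ℝ) ≤ M := by exact_mod_cast h
            linarith
          have h2 : (S / (2 * M)) ^ (7 / 4 : ℝ) ≤ (S / g) ^ (7 / 4 : ℝ) :=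
            Real.rpow_le_rpow (by positivity) h1 (by norm_num)
          nlinarith
        · refine le_trans ?_ (hMc g h)
          have := Real.exp_pos (-Cf * (S / g) ^ (7 / 4 : ℝ))
          linarith
      refine le_trans ?_ hσ
      -- the noise parameter
      have hηS : 1 < η * S := lt_of_le_of_lt hMR hcase
      have hεS : 1 ≤ ε * S := by nlinarith
      have hs : (ε * S) ^ 2 / 2 ≤ (⌊(ε * S) ^ 2⌋₊ : ℝ) := by
        have h1 : (ε * S) ^ 2 < ⌊(ε * S) ^ 2⌋₊ + 1 := Nat.lt_floor_add_one _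
        have h2 : (1 : ℝ) ≤ ⌊(ε * S) ^ 2⌋₊ := by
          have : 1 ≤ ⌊(ε * S) ^ 2⌋₊ := Nat.one_le_floor_iff _ |>.mpr (by nlinarith)
          exact_mod_cast this
        linarith
      have h3 : 2 * ε ^ 2 * (S / g) ^ 2 ≤ 4 * (⌊(ε * S) ^ 2⌋₊ : ℝ) / (g : ℝ) ^ 2 := by
        rw [div_pow, ← mul_div_assoc]
        apply div_le_div_of_nonneg_right _ (by positivity)
        nlinarith
      have h4 : -(4 * (⌊(ε * S) ^ 2⌋₊ : ℝ) / (g : ℝ) ^ 2) ≤
          -Cf * (S / g) ^ (7 / 4 : ℝ) - Real.log 16 := by linarith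
      have h5 : Real.exp (-(4 * (⌊(ε * S) ^ 2⌋₊ : ℝ) / (g : ℝ) ^ 2)) ≤
          Real.exp (-Cf * (S / g) ^ (7 / 4 : ℝ)) / 16 := by
        refine le_trans (Real.exp_le_exp.mpr h4) ?_
        rw [Real.exp_sub, Real.exp_log (by norm_num)]
      linarith
    have hfin := HB G k k' M L R S μ hkB hrkB hk' hS hS1 hlogB hM1 hcase hL1 hLS hσ hGood hRX
    refine le_trans (pr_mono ?_) hfin
    intro z hz hz'
    apply hz
    refine hz'.trans ?_
    apply Real.exp_le_exp.mpr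
    have : min cA cB ≤ cB := min_le_right _ _
    nlinarith

end DiamAb
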