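import Mathlib
import Pool.Agent.Lib_MP_0ccc25_pr.RegA
import Pool.Agent.Lib_MP_0ccc25_pr.Apri
import Pool.Agent.Lib_MP_0ccc25_pr.Eta
import Pool.Agent.Lib_MP_0ccc25_pr.DmEx

/-!
Piece APRIORIA. A priori bound for `Dm` in regime A.

PROOF. Take `ε = 1`, `Cf = 8`, `η` from `eta_ex 1 8`, `sA = exp (-8 (1 / (2 η)) ^ (7 / 4)) / 2`,
`sB = min (1 / 2) (exp (-8 (1 / η) ^ (7 / 4)))`, `s1 = min sA sB ∈ (0, 1 / 2]`, `Λ = 3 / √s1 + 3`, `c = s1 / 2`, `Cb = log 4`, `q = 2`,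
`τ = 1 / 2`, `X = Λ S` in `regA`.
First provider: `M ≥ η S` gives `S / (2 M) ≤ 1 / (2 η)`, so `log g - hh ≥ sA ≥ s1` for all `g ≥ 1` not dividing `M`;
`L = M ⌈3 S / (√s1 M)⌉₊` satisfies `3 S / √s1 ≤ L ≤ 3 S / √s1 + M ≤ Λ S`; `apri` with `nu L`, and `Ab (nu L) L ≤ L`
(`nu_ab`). Second provider: `M = 1`, same with `L = ⌈3 S / √s1⌉₊ ≤ (3 / √s1 + 1) S`. (`hle` is `hh_le`.)
With `R' = ⌈2 k (Λ + 6) S⌉₊` we get `pr (¬ Cov z R') ≤ 1 / 2 < 1`, so some `z` has `Cov z R'` (`exists_of_pr_lt`) and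
`Dm k G ≤ R' ≤ (2 (Λ + 6) + 1) k S` (`dm_le`; `k S ≥ 1`).
-/

namespace DiamAb

theorem aprioriA : ∃ (C1 : ℝ) (k0 r0 : ℕ) (c' : ℝ), 1 ≤ C1 ∧ 0 < c' ∧
    ∀ (G : Type) [AddCommGroup G] [Fintype G] (k : ℕ) (S : ℝ),
      k0 ≤ k → AddGroup.rank G + r0 ≤ k → S ^ k = Fintype.card G → 1 ≤ S →
      Real.log S ≤ c' * k → (Dm k G : ℝ) ≤ C1 * (k * S) := by
  obtain ⟨η, hη, hη1, -, hy⟩ := eta_ex 1 8 one_pos (by norm_num)
  set sA : ℝ := Real.exp (-8 * (1 / (2 * η)) ^ (7 / 4 : ℝ)) / 2 with hsA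
  set sB : ℝ := min (1 / 2) (Real.exp (-8 * (1 / η) ^ (7 / 4 : ℝ))) with hsB
  set s1 : ℝ := min sA sB with hs1
  have hs1pos : 0 < s1 := lt_min (by positivity) (lt_min (by norm_num) (Real.exp_pos _))
  have hs1half : s1 ≤ 1 / 2 := (min_le_right _ _).trans (min_le_left _ _)
  have hs1A : s1 ≤ sA := min_le_left _ _
  have hs1B : s1 ≤ Real.exp (-8 * (1 / η) ^ (7 / 4 : ℝ)) :=
    (min_le_right _ _).trans (min_le_right _ _)
  have hsq : 0 < √s1 := Real.sqrt_pos.2 hs1pos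
  set Λ : ℝ := 3 / √s1 + 3 with hΛ
  have hΛpos : 0 < Λ := by positivity
  obtain ⟨k0, r0, c', hc', H⟩ := regA 1 8 η (s1 / 2) (Real.log 4) Λ 2 one_pos hη hη1 le_rfl
    (by positivity) (Real.log_pos (by norm_num)) hΛpos le_rfl hy (1 / 2) (by norm_num)
  refine ⟨2 * (Λ + 6) + 1, max k0 1, r0, c', by linarith, hc', ?_⟩
  intro G _ _ k S hk hr hS hS1 hlog
  have hk0 : k0 ≤ k := (le_max_left _ _).trans hk
  have hk1 : 1 ≤ k := (le_max_right _ _).trans hk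
  have hS0 : 0 < S := by linarith
  have hle := hh_le G k S hk1 hS0 hS
  set R' : ℕ := ⌈2 * k * (Λ + 6) * S⌉₊ with hR'
  have hRle : 2 * k * (Λ + 6) * S ≤ (R' : ℝ) := Nat.le_ceil _
  have hprob := H G k R' S (Λ * S) hk0 hr hS hS1 hlog (by positivity) ?_ ?_ ?_
  · have hne : Nonempty (Fin k → G) := ⟨fun _ => 0⟩
    obtain ⟨z, hz⟩ := exists_of_pr_lt (P := fun z : Fin k → G => Cov z R')
      (lt_of_le_of_lt hprob (by norm_num))
    have h1 : (Dm k G : ℝ) ≤ R' := by exact_mod_cast dm_le z hz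
    have h2 : (R' : ℝ) ≤ 2 * k * (Λ + 6) * S + 1 := (Nat.ceil_lt_add_one (by positivity)).le
    have h3 : (1 : ℝ) ≤ k * S := by
      have : (1 : ℝ) ≤ k := by exact_mod_cast hk1
      nlinarith
    calc (Dm k G : ℝ) ≤ 2 * k * (Λ + 6) * S + 1 := h1.trans h2
      _ ≤ 2 * k * (Λ + 6) * S + k * S := by linarith
      _ = (2 * (Λ + 6) + 1) * (k * S) := by ring
  · intro M hM1 hM3 hηM hg _
    have hM0 : (0 : ℝ) < M := by exact_mod_cast (by omega : 0 < M)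
    set t : ℝ := 3 * S / (√s1 * M) with ht
    have htpos : 0 < t := by positivity
    have htM : M * t = 3 * S / √s1 := by
      rw [ht]
      field_simp
    have hL1 : 3 * S / √s1 ≤ ((M * ⌈t⌉₊ : ℕ) : ℝ) := by
      push_cast
      rw [← htM]
      exact mul_le_mul_of_nonneg_left (Nat.le_ceil t) hM0.le
    have hL2 : ((M * ⌈t⌉₊ : ℕ) : ℝ) ≤ Λ * S := by
      push_cast
      calc (M : ℝ) * (⌈t⌉₊ : ℝ) ≤ M * (t + 1) :=
            mul_le_mul_of_nonneg_left (Nat.ceil_lt_add_one htpos.le).le hM0.le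
        _ = 3 * S / √s1 + M := by rw [mul_add, htM, mul_one]
        _ ≤ 3 * S / √s1 + 3 * S := by linarith
        _ = Λ * S := by rw [hΛ]; ring
    have hLpos : 1 ≤ M * ⌈t⌉₊ := by
      have : 0 < ⌈t⌉₊ := Nat.ceil_pos.2 htpos
      exact Nat.one_le_iff_ne_zero.2 (by positivity)
    refine ⟨M * ⌈t⌉₊, nu (M * ⌈t⌉₊), hLpos, hL2, ?_, (nu_ab _ hLpos).trans hL2⟩
    refine apri (hh G k) S s1 M _ _ hS1 hs1pos hs1half hM1 (Dvd.intro _ rfl) hLpos hL1 hle ?_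
    intro g hgN hg1
    have h1 := hg g hg1 hgN
    have h2 : sA ≤ Real.exp (-8 * (S / (2 * M)) ^ (7 / 4 : ℝ)) / 2 := by
      rw [hsA]
      gcongr ?_ / 2
      apply Real.exp_le_exp.2
      have h3 : (S / (2 * M)) ^ (7 / 4 : ℝ) ≤ (1 / (2 * η)) ^ (7 / 4 : ℝ) := by
        apply Real.rpow_le_rpow (by positivity) _ (by norm_num)
        rw [div_le_div_iff₀ (by positivity) (by positivity)]
        linarith
      linarith
    linarith
  · intro hg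
    set t : ℝ := 3 * S / √s1 with ht
    have htpos : 0 < t := by positivity
    have hL2 : (⌈t⌉₊ : ℝ) ≤ Λ * S := by
      calc (⌈t⌉₊ : ℝ) ≤ t + 1 := (Nat.ceil_lt_add_one htpos.le).le
        _ ≤ 3 * S / √s1 + 3 * S := by linarith
        _ = Λ * S := by rw [hΛ]; ring
    have hLpos : 1 ≤ ⌈t⌉₊ := Nat.ceil_pos.2 htpos
    refine ⟨⌈t⌉₊, nu ⌈t⌉₊, hLpos, hL2, ?_, (nu_ab _ hLpos).trans hL2⟩
    refine apri (hh G k) S s1 1 _ _ hS1 hs1pos hs1half le_rfl (one_dvd _) hLpos (Nat.le_ceil t)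
      hle ?_
    intro g hgN _
    have h1 := hg g hgN
    linarith
  · push_cast
    linarith

end DiamAb
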