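import Mathlib
import Pool.Agent.Lib_MP_0ccc25_pr.L1Sum
import Pool.Agent.Lib_MP_0ccc25_pr.NFact

/-!
Piece LOWORD. Characters of small order and the uniform noise on `[0, l)`.

PROOF of `unif_theta`. For `1 ≤ a < g`, `ζ = e1 (a / g) ≠ 1`: `|Σ_{t < l} ζ ^ t| = |ζ ^ l - 1| / |ζ - 1| ≤ 2 / |ζ - 1|` and
`|ζ - 1| = 2 |sin (π a / g)| = 2 sin (π a' / g) ≥ 4 a' / g ≥ 4 / g` with `a' = min a (g - a) ≤ g / 2`
(`sin y ≥ 2 y / π` on `[0, π / 2]`, `Real.mul_le_sin`). So each term is at most `g / (2 l)` and the sum of `g - 1` terms at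
most `g ^ 2 / l`. (Here `e1 ((t : ℝ) * a / g) = ζ ^ t`.)
PROOF of `low_ord`. Split by the order `g`, `2 ≤ g ≤ X0`; use `l1_sum` with `B = Fin l`, `v = 1 / l`, `V t = t`,
`Θ = g ^ 2 / l ≤ X0 ^ 2 / l`, and `NN G g ≤ g ^ rank` (`NN_le_pow`): the average is at most
`Σ_{g = 2}^{X0} g ^ rank g ^ (-k) (1 + X0 ^ 2 / l) ^ k ≤ 2 Σ_{g ≥ 2} g ^ (-r) ≤ 2 * 4 * (1 / 2) ^ r`, since
`Σ_{g ≥ 2} g ^ (-r) ≤ 2 ^ (2 - r) Σ_{g ≥ 2} g ^ (-2) ≤ 4 (1 / 2) ^ r` for `r ≥ 2`.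
-/

namespace DiamAb

open Finset

theorem loword_sin (a g : ℕ) (ha : 1 ≤ a) (hag : a < g) :
    2 / (g : ℝ) ≤ Real.sin (Real.pi * a / g) := by
  have hg : (0 : ℝ) < g := by exact_mod_cast (by omega : 0 < g)
  have key : ∀ b : ℕ, 1 ≤ b → 2 * b ≤ g → 2 / (g : ℝ) ≤ Real.sin (Real.pi * b / g) := by
    intro b hb hbg
    have h1 : (2 : ℝ) * b ≤ g := by exact_mod_cast hbg
    have hb1 : (1 : ℝ) ≤ b := by exact_mod_cast hb
    have h2 := Real.mul_le_sin (x := Real.pi * b / g) (by positivity) (by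
      rw [div_le_div_iff₀ hg (by norm_num)]
      nlinarith [Real.pi_pos])
    refine le_trans ?_ h2
    have h3 : 2 / Real.pi * (Real.pi * b / g) = 2 * b / g := by
      field_simp
    rw [h3]
    gcongr
    linarith
  rcases Nat.lt_or_ge g (2 * a) with h | h
  · have h1 := key (g - a) (by omega) (by omega)
    have h2 : Real.pi * ((g - a : ℕ) : ℝ) / g = Real.pi - Real.pi * a / g := by
      rw [Nat.cast_sub hag.le]
      field_simp
    rwa [h2, Real.sin_pi_sub] at h1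
  · exact key a ha h

theorem loword_term (l g a : ℕ) (hl : 1 ≤ l) (ha : 1 ≤ a) (hag : a < g) :
    ‖∑ t : Fin l, (((1 : ℝ) / l : ℝ) : ℂ) * e1 ((((t : ℕ) : ℤ) : ℝ) * a / g)‖ ≤ g / (2 * l) := by
  have hg : (0 : ℝ) < g := by exact_mod_cast (by omega : 0 < g)
  have hl0 : (0 : ℝ) < l := by exact_mod_cast (by omega : 0 < l)
  set ζ : ℂ := Complex.exp (Complex.I * ((2 * Real.pi * a / g : ℝ) : ℂ)) with hζ
  have h1 : ∀ t : ℕ, e1 ((((t : ℕ) : ℤ) : ℝ) * a / g) = ζ ^ t := by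
    intro t
    unfold e1
    rw [hζ, ← Complex.exp_nat_mul]
    congr 1
    push_cast
    ring
  have hnorm : ‖ζ‖ = 1 := by
    rw [hζ, mul_comm]
    exact Complex.norm_exp_ofReal_mul_I _
  have h2 : ‖ζ - 1‖ = 2 * Real.sin (Real.pi * a / g) := by
    rw [hζ, Complex.norm_exp_I_mul_ofReal_sub_one, Real.norm_eq_abs]
    have : (2 * Real.pi * a / g : ℝ) / 2 = Real.pi * a / g := by ring
    rw [this, abs_of_nonneg]
    have := loword_sin a g ha hag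
    have h0 : 0 ≤ 2 / (g : ℝ) := by positivity
    linarith
  have h3 : 4 / (g : ℝ) ≤ ‖ζ - 1‖ := by
    rw [h2]
    have := loword_sin a g ha hag
    calc 4 / (g : ℝ) = 2 * (2 / g) := by ring
      _ ≤ _ := by linarith
  have hpos : 0 < ‖ζ - 1‖ := lt_of_lt_of_le (by positivity) h3
  have hne : ζ ≠ 1 := by
    intro h
    rw [h, sub_self, norm_zero] at hpos
    exact lt_irrefl _ hpos
  have h4 : ∑ t : Fin l, (((1 : ℝ) / l : ℝ) : ℂ) * e1 ((((t : ℕ) : ℤ) : ℝ) * a / g) =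
      (((1 : ℝ) / l : ℝ) : ℂ) * ((ζ ^ l - 1) / (ζ - 1)) := by
    rw [← mul_sum, ← geom_sum_eq hne, Fin.sum_univ_eq_sum_range
      (fun t : ℕ => e1 ((((t : ℕ) : ℤ) : ℝ) * a / g)) l]
    congr 1
    exact sum_congr rfl fun t _ => h1 t
  rw [h4, norm_mul, Complex.norm_real, Real.norm_eq_abs, abs_of_pos (by positivity), norm_div]
  have h5 : ‖ζ ^ l - 1‖ ≤ 2 := by
    refine (norm_sub_le _ _).trans ?_
    rw [norm_pow, hnorm, one_pow, norm_one]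
    norm_num
  have h6 : ‖ζ ^ l - 1‖ / ‖ζ - 1‖ ≤ 2 / (4 / g) := by
    exact div_le_div₀ (by norm_num) h5 (by positivity) h3
  calc 1 / (l : ℝ) * (‖ζ ^ l - 1‖ / ‖ζ - 1‖) ≤ 1 / l * (2 / (4 / g)) :=
        mul_le_mul_of_nonneg_left h6 (by positivity)
    _ = g / (2 * l) := by
        field_simp
        norm_num

theorem unif_theta (l g : ℕ) (hl : 1 ≤ l) (hg : 2 ≤ g) :
    ∑ a ∈ Ico 1 g, ‖∑ t : Fin l, (((1 : ℝ) / l : ℝ) : ℂ) * e1 ((((t : ℕ) : ℤ) : ℝ) * a / g)‖ ≤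
      (g : ℝ) ^ 2 / l := by
  have hl0 : (0 : ℝ) < l := by exact_mod_cast (by omega : 0 < l)
  have hg0 : (0 : ℝ) < g := by exact_mod_cast (by omega : 0 < g)
  refine (sum_le_sum fun a ha => loword_term l g a hl (mem_Ico.1 ha).1 (mem_Ico.1 ha).2).trans ?_
  rw [sum_const, Nat.card_Ico, nsmul_eq_mul]
  have h1 : ((g - 1 : ℕ) : ℝ) ≤ g := by exact_mod_cast Nat.sub_le g 1
  calc ((g - 1 : ℕ) : ℝ) * (g / (2 * l)) ≤ g * (g / (2 * l)) :=
        mul_le_mul_of_nonneg_right h1 (by positivity)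
    _ = (g : ℝ) ^ 2 / l / 2 := by field_simp
    _ ≤ (g : ℝ) ^ 2 / l := half_le_self (by positivity)

theorem loword_sq (X : ℕ) : ∑ g ∈ Icc 2 X, 1 / (g : ℝ) ^ 2 ≤ 1 := by
  have key : ∀ n : ℕ, ∑ g ∈ Icc 2 (n + 1), 1 / (g : ℝ) ^ 2 ≤ 1 - 1 / ((n : ℝ) + 1) := by
    intro n
    induction n with
    | zero => simp
    | succ n ih =>
      rw [sum_Icc_succ_top (by omega)]
      have h1 : 1 / ((n + 1 + 1 : ℕ) : ℝ) ^ 2 ≤ 1 / ((n : ℝ) + 1) - 1 / ((n : ℝ) + 1 + 1) := by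
        push_cast
        have hn : (0 : ℝ) ≤ n := by positivity
        rw [div_sub_div _ _ (by positivity) (by positivity),
          div_le_div_iff₀ (by positivity) (by positivity)]
        nlinarith
      push_cast at h1 ⊢
      linarith
  rcases X with _ | n
  · simp
  · refine (key n).trans ?_
    have : (0 : ℝ) ≤ 1 / ((n : ℝ) + 1) := by positivity
    linarith

open Classical in
theorem low_ord {G : Type} [AddCommGroup G] [Fintype G] (k r l X0 : ℕ) (hr : 2 ≤ r)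
    (hk : AddGroup.rank G + r ≤ k) (hl : 1 ≤ l) (hX : (1 + (X0 : ℝ) ^ 2 / l) ^ k ≤ 2) :
    av (fun z : Fin k → G =>
        ∑ χ ∈ univ.filter (fun χ : AddChar G ℂ => χ ≠ 1 ∧ orderOf χ ≤ X0),
          ∏ i, ‖∑ t : Fin l, (((1 : ℝ) / l : ℝ) : ℂ) * (χ (z i)) ^ ((t : ℕ) : ℤ)‖) ≤
      8 * (1 / 2 : ℝ) ^ r := by
  have hl0 : (0 : ℝ) < l := by exact_mod_cast (by omega : 0 < l)
  have hsplit : ∀ z : Fin k → G,
      ∑ χ ∈ univ.filter (fun χ : AddChar G ℂ => χ ≠ 1 ∧ orderOf χ ≤ X0),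
          ∏ i, ‖∑ t : Fin l, (((1 : ℝ) / l : ℝ) : ℂ) * (χ (z i)) ^ ((t : ℕ) : ℤ)‖ =
      ∑ g ∈ Icc 2 X0, ∑ χ ∈ univ.filter (fun χ : AddChar G ℂ => orderOf χ = g),
          ∏ i, ‖∑ t : Fin l, (((1 : ℝ) / l : ℝ) : ℂ) * (χ (z i)) ^ ((t : ℕ) : ℤ)‖ := by
    intro z
    rw [← sum_fiberwise_of_maps_to (g := fun χ : AddChar G ℂ => orderOf χ) (t := Icc 2 X0)]
    · refine sum_congr rfl fun g hg => ?_
      congr 1
      ext χ
      simp only [mem_filter, mem_univ, true_and, mem_Icc] at hg ⊢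
      constructor
      · exact fun h => h.2
      · intro h
        refine ⟨⟨?_, ?_⟩, h⟩
        · rintro rfl
          rw [orderOf_one] at h
          omega
        · omega
    · intro χ hχ
      simp only [mem_filter, mem_univ, true_and, mem_Icc] at hχ ⊢
      refine ⟨?_, hχ.2⟩
      have h1 : 0 < orderOf χ := orderOf_pos χ
      have h2 : orderOf χ ≠ 1 := fun h => hχ.1 (orderOf_eq_one_iff.1 h)
      omega
  have hav : av (fun z : Fin k → G =>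
        ∑ χ ∈ univ.filter (fun χ : AddChar G ℂ => χ ≠ 1 ∧ orderOf χ ≤ X0),
          ∏ i, ‖∑ t : Fin l, (((1 : ℝ) / l : ℝ) : ℂ) * (χ (z i)) ^ ((t : ℕ) : ℤ)‖) =
      ∑ g ∈ Icc 2 X0, av (fun z : Fin k → G =>
        ∑ χ ∈ univ.filter (fun χ : AddChar G ℂ => orderOf χ = g),
          ∏ i, ‖∑ t : Fin l, (((1 : ℝ) / l : ℝ) : ℂ) * (χ (z i)) ^ ((t : ℕ) : ℤ)‖) := by
    rw [← av_sum]
    congr 1
    funext z
    exact hsplit z
  rw [hav]
  have hterm : ∀ g ∈ Icc 2 X0, av (fun z : Fin k → G =>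
        ∑ χ ∈ univ.filter (fun χ : AddChar G ℂ => orderOf χ = g),
          ∏ i, ‖∑ t : Fin l, (((1 : ℝ) / l : ℝ) : ℂ) * (χ (z i)) ^ ((t : ℕ) : ℤ)‖) ≤
      8 * (1 / 2 : ℝ) ^ r * (1 / (g : ℝ) ^ 2) := by
    intro g hg
    rw [mem_Icc] at hg
    have hg0 : (0 : ℝ) < g := by exact_mod_cast (by omega : 0 < g)
    have hg2 : (2 : ℝ) ≤ g := by exact_mod_cast hg.1
    have h1 := l1_sum (G := G) k g (by omega) (B := Fin l) (fun _ => (1 : ℝ) / l)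
      (fun t => ((t : ℕ) : ℤ)) (fun _ => by positivity)
      (by rw [sum_const, card_univ, Fintype.card_fin, nsmul_eq_mul]; field_simp)
      ((g : ℝ) ^ 2 / l) (unif_theta l g hl hg.1)
    refine h1.trans ?_
    have h2 : (NN G g : ℝ) ≤ (g : ℝ) ^ AddGroup.rank G := by
      exact_mod_cast NN_le_pow G g (by omega)
    have h3 : (1 + (g : ℝ) ^ 2 / l) ^ k ≤ 2 := by
      refine le_trans ?_ hX
      have : (g : ℝ) ≤ X0 := by exact_mod_cast hg.2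
      gcongr
    have h4 : ((1 + (g : ℝ) ^ 2 / l) / g) ^ k ≤ 2 / (g : ℝ) ^ k := by
      rw [div_pow]
      gcongr
    have h5 : (g : ℝ) ^ AddGroup.rank G * (2 / (g : ℝ) ^ k) ≤ 2 / (g : ℝ) ^ r := by
      rw [mul_div_assoc', div_le_div_iff₀ (by positivity) (by positivity)]
      have h6 : (g : ℝ) ^ AddGroup.rank G * (g : ℝ) ^ r ≤ (g : ℝ) ^ k := by
        rw [← pow_add]
        exact pow_le_pow_right₀ (by linarith) hk
      nlinarith
    have h7 : 2 / (g : ℝ) ^ r ≤ 8 * (1 / 2 : ℝ) ^ r * (1 / (g : ℝ) ^ 2) := by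
      obtain ⟨m, rfl⟩ := Nat.exists_eq_add_of_le hr
      have h8 : (2 : ℝ) ^ m ≤ (g : ℝ) ^ m := pow_le_pow_left₀ (by norm_num) hg2 m
      have h9 : 8 * (1 / 2 : ℝ) ^ (2 + m) * (1 / (g : ℝ) ^ 2) =
          2 / ((g : ℝ) ^ 2 * 2 ^ m) := by
        rw [pow_add, one_div_pow, one_div_pow]
        field_simp
        norm_num
      rw [h9, pow_add]
      gcongr
    calc (NN G g : ℝ) * ((1 + (g : ℝ) ^ 2 / l) / g) ^ k ≤
          (g : ℝ) ^ AddGroup.rank G * (2 / (g : ℝ) ^ k) :=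
          mul_le_mul h2 h4 (by positivity) (by positivity)
      _ ≤ 2 / (g : ℝ) ^ r := h5
      _ ≤ _ := h7
  refine (sum_le_sum hterm).trans ?_
  rw [← mul_sum]
  calc 8 * (1 / 2 : ℝ) ^ r * ∑ g ∈ Icc 2 X0, 1 / (g : ℝ) ^ 2 ≤ 8 * (1 / 2 : ℝ) ^ r * 1 :=
        mul_le_mul_of_nonneg_left (loword_sq X0) (by positivity)
    _ = _ := by ring

end DiamAb
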