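import Mathlib
import Pool.Agent.Lib_MP_0ccc25_pr.Defs

/-!
Definitions for the second regime (`log |G|` at least of order `k ^ 2`) of MP_0ccc25_pr.
-/

namespace DiamAb

open Finset

noncomputable section

/-- the box `[0, l)` -/
def bx0 (l : ℕ) : Finset ℤ := Finset.Ico 0 (l : ℤ)

/-- words with all letters in `[0, l)` -/
def wd0 (k l : ℕ) : Finset (Fin k → ℤ) := Fintype.piFinset fun _ => bx0 l

/-- words with all letters in `[-a, l + a)` -/
def wda (k l a : ℕ) : Finset (Fin k → ℤ) :=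
  Fintype.piFinset fun _ => Finset.Ico (-(a : ℤ)) ((l : ℤ) + a)

open Classical in
/-- probability that `x + u + u'` lies in `V`, for `u` uniform in `A` and `u'` uniform in `A'` -/
def ker {n : ℕ} (A A' : Finset (Fin n → ℤ)) (V : AddSubgroup (Fin n → ℤ)) (x : Fin n → ℤ) : ℝ :=
  (((A ×ˢ A').filter fun u => x + u.1 + u.2 ∈ V).card : ℝ) / (A.card * A'.card)

/-- the lattice of multiplicative relations of a tuple of characters -/
def Kc {G : Type} [AddCommGroup G] {n : ℕ} (χ : Fin n → AddChar G ℂ) :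
    AddSubgroup (Fin n → ℤ) where
  carrier := {a | ∏ s, χ s ^ (a s) = 1}
  zero_mem' := by simp
  add_mem' := by
    intro a b ha hb
    simp only [Set.mem_setOf_eq, Pi.add_apply, zpow_add, prod_mul_distrib] at ha hb ⊢
    rw [ha, hb, one_mul]
  neg_mem' := by
    intro a ha
    simp only [Set.mem_setOf_eq, Pi.neg_apply, zpow_neg, prod_inv_distrib] at ha ⊢
    rw [ha, inv_one]

/-- restriction of an integer vector to selected coordinates -/
def restr {n D : ℕ} (f : Fin D → Fin n) : (Fin n → ℤ) →+ (Fin D → ℤ) where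
  toFun w := fun s => w (f s)
  map_zero' := rfl
  map_add' _ _ := rfl

/-- integer vectors with all entries of absolute value at most `R` -/
def Bxn (n : ℕ) (R : ℝ) : Set (Fin n → ℤ) := {w | ∀ t, |(w t : ℝ)| ≤ R}

/-- well conditioned coordinates `f` for a subgroup `Γ` of rank `D`: the restriction to `f` is
injective on `Γ` with image of index `P`, and `v s` is the vector of `Γ` with restriction
`P e_s`; all its entries are at most `P` -/
structure LD {n : ℕ} (Γ : AddSubgroup (Fin n → ℤ)) (D : ℕ) (f : Fin D → Fin n) (P : ℕ)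
    (v : Fin D → Fin n → ℤ) : Prop where
  inj : Function.Injective f
  pos : 1 ≤ P
  mem : ∀ s, v s ∈ Γ
  diag : ∀ s s', v s (f s') = if s = s' then (P : ℤ) else 0
  bd : ∀ s t, |v s t| ≤ P
  zero : ∀ γ ∈ Γ, (∀ s, γ (f s) = 0) → γ = 0
  idx : (Γ.map (restr f)).index = P
  gen : ∃ b : Fin D → Fin n → ℤ, AddSubgroup.closure (Set.range b) = Γ

/-- saturation of a subgroup -/
def sat {n : ℕ} (Γ : AddSubgroup (Fin n → ℤ)) : AddSubgroup (Fin n → ℤ) where
  carrier := {w | ∃ m : ℤ, m ≠ 0 ∧ m • w ∈ Γ}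
  zero_mem' := ⟨1, one_ne_zero, by simp⟩
  add_mem' := by
    rintro a b ⟨m, hm, ha⟩ ⟨m', hm', hb⟩
    refine ⟨m * m', mul_ne_zero hm hm', ?_⟩
    rw [smul_add, mul_smul, mul_comm m m', mul_smul, ← mul_smul m' m, mul_comm m' m, mul_smul]
    rw [show m • m' • a = m' • m • a by rw [smul_comm]]
    exact Γ.add_mem (Γ.zsmul_mem ha m') (Γ.zsmul_mem hb m)
  neg_mem' := by
    rintro a ⟨m, hm, ha⟩
    exact ⟨m, hm, by rw [smul_neg]; exact Γ.neg_mem ha⟩

open Classical in
/-- the term of the moment sum belonging to a subgroup `Γ` -/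
def tm (G : Type) [AddCommGroup G] [Fintype G] {k n : ℕ} (T : Finset (Fin k → ℤ))
    (p : (Fin k → ℤ) → ℝ) (l : ℕ) (Γ : AddSubgroup (Fin n → ℤ)) : ℝ :=
  ((univ.filter fun χ : Fin n → AddChar G ℂ => Γ ≤ Kc χ).card : ℝ) *
    ∑ X ∈ Fintype.piFinset (fun _ : Fin n => T), (∏ s, p (X s)) *
      ∏ i, ker (wd0 n l) (wd0 n l) Γ (fun s => X s i)

end

end DiamAb
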