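import Mathlib
import Pool.Agent.Lib_MP_0ccc25_pr.DefsB

/-!
Piece COUNTBOX. A subgroup generated by vectors of a box has few vectors in the box.

PROOF. Let `Γf = Γ.map (restr f) ≤ ℤ ^ D`, of index `P ≥ 1`; `restr f` is injective on `Γ` (`h.zero`). `Γf` is generated by
`restr f '' A`. As it has finite index it spans `ℚ ^ D`, so `restr f '' A` (cast to `ℚ`) spans `ℚ ^ D` and contains `D` linearly independent
vectors `a 1, ..., a D` (`exists_linearIndependent` / `Basis.ofSpan`-type extraction), all with entries at most `LW` in absolute value. Every `y ∈ ℤ ^ D` is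
`Σ c i a i` with rational `c i`; `y - Σ ⌊c i⌋ a i = Σ (fract c i) a i` is in the same coset of `Γf` and has all entries at most
`D LW` in absolute value. So each of the `P` cosets has a representative `y_1, ..., y_P` in the box of radius `D LW`. The map
`(j, γ) ↦ y_j + restr f γ` is injective on `Fin P × (Γ ∩ box)` and has values in the box of radius `(D + 1) LW` of `ℤ ^ D`, which has
`(2 (D + 1) LW + 1) ^ D` elements.
-/

namespace DiamAb

open Finset

/-- every coset of the restricted lattice has a representative in the box of radius `D * LW` -/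
theorem countbox_rep {n : ℕ} {Γ : AddSubgroup (Fin n → ℤ)} {D : ℕ} {f : Fin D → Fin n} {P : ℕ}
    {v : Fin D → Fin n → ℤ} (h : LD Γ D f P v) (LW : ℕ) (A : Set (Fin n → ℤ))
    (hA : A ⊆ Bxn n LW) (hΓ : AddSubgroup.closure A = Γ) (y : Fin D → ℤ) :
    ∃ y' : Fin D → ℤ, y - y' ∈ Γ.map (restr f) ∧ ∀ t, |y' t| ≤ D * LW := by
  classical
  set ψ : (Fin D → ℤ) → (Fin D → ℚ) := fun w t => (w t : ℚ) with hψ
  set B : Set (Fin D → ℚ) := (fun a => ψ (restr f a)) '' A with hB
  have hcl : ∀ γ ∈ AddSubgroup.closure A, ψ (restr f γ) ∈ Submodule.span ℚ B := by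
    intro γ hγ
    induction hγ using AddSubgroup.closure_induction with
    | mem x hx => exact Submodule.subset_span ⟨x, hx, rfl⟩
    | zero =>
      have : ψ (restr f 0) = 0 := by
        ext t; simp [hψ]
      rw [this]; exact Submodule.zero_mem _
    | add x z _ _ hx hz =>
      have : ψ (restr f (x + z)) = ψ (restr f x) + ψ (restr f z) := by
        ext t; simp [hψ]
      rw [this]; exact Submodule.add_mem _ hx hz
    | neg x _ hx =>
      have : ψ (restr f (-x)) = -ψ (restr f x) := by
        ext t; simp [hψ]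
      rw [this]; exact Submodule.neg_mem _ hx
  have hP : (P : ℚ) ≠ 0 := by
    have := h.pos
    have h1 : P ≠ 0 := by omega
    exact_mod_cast h1
  have hsingle : ∀ s : Fin D, (Pi.single s (1 : ℚ) : Fin D → ℚ) ∈ Submodule.span ℚ B := by
    intro s
    have h1 : ψ (restr f (v s)) ∈ Submodule.span ℚ B := by
      apply hcl
      rw [hΓ]; exact h.mem s
    have h2 : (Pi.single s (1 : ℚ) : Fin D → ℚ) = (1 / (P : ℚ)) • ψ (restr f (v s)) := by
      ext t
      have h3 : (restr f (v s)) t = if s = t then (P : ℤ) else 0 := h.diag s t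
      simp only [hψ, Pi.smul_apply, smul_eq_mul, h3]
      by_cases hst : s = t
      · subst hst
        simp [hP]
      · rw [if_neg hst, Pi.single_eq_of_ne (fun h => hst h.symm)]
        simp
    rw [h2]
    exact Submodule.smul_mem _ _ h1
  have hspan : Submodule.span ℚ B = ⊤ := by
    rw [Submodule.eq_top_iff']
    intro x
    rw [pi_eq_sum_univ' x]
    apply Submodule.sum_mem
    intro s _
    exact Submodule.smul_mem _ (x s) (hsingle s)
  obtain ⟨b, hbB, hbspan, hli⟩ := exists_linearIndependent ℚ B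
  have hfin : b.Finite := hli.setFinite
  have : Fintype b := hfin.fintype
  have hcard : Fintype.card b ≤ D := by
    have := hli.fintype_card_le_finrank
    simpa using this
  rw [hspan] at hbspan
  have hbtop : ⊤ ≤ Submodule.span ℚ (Set.range ((↑) : b → (Fin D → ℚ))) := by
    rw [Subtype.range_coe, hbspan]
  set bas := Module.Basis.mk hli hbtop with hbas
  have hrep := bas.sum_repr (ψ y)
  choose a ha using fun i : b => hbB i.2
  set c : b → ℚ := fun i => bas.repr (ψ y) i with hc
  have hrep' : ∀ t, (y t : ℚ) = ∑ i, c i * ((restr f (a i)) t : ℚ) := by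
    intro t
    have h1 := congrFun hrep t
    simp only [Finset.sum_apply, Pi.smul_apply, smul_eq_mul] at h1
    have h2 : ψ y t = (y t : ℚ) := rfl
    rw [← h2, ← h1]
    apply sum_congr rfl
    intro i _
    have h3 : bas i = (i : Fin D → ℚ) := by
      rw [hbas, Module.Basis.mk_apply]
    have h4 : ψ (restr f (a i)) = (i : Fin D → ℚ) := (ha i).2
    rw [h3, ← h4]
  refine ⟨y - ∑ i, ⌊c i⌋ • restr f (a i), ?_, ?_⟩
  · rw [sub_sub_cancel]
    apply AddSubgroup.sum_mem
    intro i _
    apply AddSubgroup.zsmul_mem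
    apply AddSubgroup.mem_map_of_mem
    rw [← hΓ]
    exact AddSubgroup.subset_closure (ha i).1
  · intro t
    have h1 : (((y - ∑ i, ⌊c i⌋ • restr f (a i)) t : ℤ) : ℚ)
        = ∑ i, Int.fract (c i) * ((restr f (a i)) t : ℚ) := by
      simp only [Pi.sub_apply, Finset.sum_apply, Pi.smul_apply, smul_eq_mul]
      push_cast
      rw [hrep' t, ← Finset.sum_sub_distrib]
      apply sum_congr rfl
      intro i _
      rw [← sub_mul]
      rfl
    have h2 : |(((y - ∑ i, ⌊c i⌋ • restr f (a i)) t : ℤ) : ℚ)| ≤ D * LW := by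
      rw [h1]
      calc |∑ i, Int.fract (c i) * ((restr f (a i)) t : ℚ)|
          ≤ ∑ i, |Int.fract (c i) * ((restr f (a i)) t : ℚ)| := Finset.abs_sum_le_sum_abs _ _
        _ ≤ ∑ _i : b, (LW : ℚ) := by
            apply sum_le_sum
            intro i _
            rw [abs_mul, abs_of_nonneg (Int.fract_nonneg _)]
            have h3 : |((restr f (a i)) t : ℚ)| ≤ LW := by
              have h4 := hA (ha i).1 (f t)
              have h5 : |(a i (f t) : ℝ)| ≤ (LW : ℝ) := h4
              have h6 : |a i (f t)| ≤ (LW : ℤ) := by exact_mod_cast h5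
              have h7 : |(a i (f t) : ℚ)| ≤ (LW : ℚ) := by exact_mod_cast h6
              exact h7
            calc Int.fract (c i) * |((restr f (a i)) t : ℚ)|
                ≤ 1 * |((restr f (a i)) t : ℚ)| := by
                  apply mul_le_mul_of_nonneg_right (Int.fract_lt_one _).le (abs_nonneg _)
              _ ≤ LW := by rw [one_mul]; exact h3
        _ = (Fintype.card b : ℚ) * LW := by
            rw [sum_const, nsmul_eq_mul, card_univ]
        _ ≤ D * LW := by
            apply mul_le_mul_of_nonneg_right _ (by positivity)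
            exact_mod_cast hcard
    exact_mod_cast h2

open Classical in
theorem count_box {n : ℕ} {Γ : AddSubgroup (Fin n → ℤ)} {D : ℕ} {f : Fin D → Fin n} {P : ℕ}
    {v : Fin D → Fin n → ℤ} (h : LD Γ D f P v) (LW : ℕ) (A : Set (Fin n → ℤ))
    (hA : A ⊆ Bxn n LW) (hΓ : AddSubgroup.closure A = Γ) :
    P * ((Fintype.piFinset fun _ : Fin n => Finset.Icc (-(LW : ℤ)) LW).filter (· ∈ Γ)).card ≤
      (2 * (D + 1) * LW + 1) ^ D := by
  set F := (Fintype.piFinset fun _ : Fin n => Finset.Icc (-(LW : ℤ)) LW).filter (· ∈ Γ) with hF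
  set Γf := Γ.map (restr f) with hΓf
  have hidx : Γf.index = P := h.idx
  have hPpos := h.pos
  have : Γf.FiniteIndex := ⟨by rw [hidx]; omega⟩
  have : Fintype ((Fin D → ℤ) ⧸ Γf) := Fintype.ofFinite _
  have hcardQ : Fintype.card ((Fin D → ℤ) ⧸ Γf) = P := by
    rw [← hidx, AddSubgroup.index, Nat.card_eq_fintype_card]
  set T : Finset (Fin D → ℤ) :=
    Fintype.piFinset fun _ : Fin D => Finset.Icc (-(((D + 1) * LW : ℕ) : ℤ)) ((D + 1) * LW : ℕ)
    with hT
  have hTcard : T.card = (2 * (D + 1) * LW + 1) ^ D := by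
    rw [hT, Fintype.card_piFinset]
    simp only [prod_const, card_univ, Fintype.card_fin]
    congr 1
    rw [Int.card_Icc]
    have : (((D + 1) * LW : ℕ) : ℤ) + 1 - -(((D + 1) * LW : ℕ) : ℤ)
        = ((2 * (D + 1) * LW + 1 : ℕ) : ℤ) := by push_cast; ring
    rw [this, Int.toNat_natCast]
  have hrepr : ∀ q : (Fin D → ℤ) ⧸ Γf, ∃ y' : Fin D → ℤ,
      (QuotientAddGroup.mk y' : (Fin D → ℤ) ⧸ Γf) = q ∧ ∀ t, |y' t| ≤ D * LW := by
    intro q
    obtain ⟨y, rfl⟩ := QuotientAddGroup.mk_surjective q
    obtain ⟨y', h1, h2⟩ := countbox_rep h LW A hA hΓ y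
    refine ⟨y', ?_, h2⟩
    rw [QuotientAddGroup.eq]
    have : -y' + y = y - y' := by abel
    rw [this]
    exact h1
  choose r hr hrbd using hrepr
  have key : (Finset.univ ×ˢ F : Finset (((Fin D → ℤ) ⧸ Γf) × (Fin n → ℤ))).card ≤ T.card := by
    apply Finset.card_le_card_of_injOn (fun p => r p.1 + restr f p.2)
    · intro p hp
      rw [Finset.mem_coe, Finset.mem_product] at hp
      have h1 := (Finset.mem_filter.mp hp.2).1
      rw [Fintype.mem_piFinset] at h1
      rw [Finset.mem_coe, hT, Fintype.mem_piFinset]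
      intro t
      rw [Finset.mem_Icc, ← abs_le]
      have h2 := hrbd p.1 t
      have h3 : |p.2 (f t)| ≤ LW := by
        rw [abs_le]; exact Finset.mem_Icc.mp (h1 (f t))
      calc |(r p.1 + restr f p.2) t| = |r p.1 t + p.2 (f t)| := rfl
        _ ≤ |r p.1 t| + |p.2 (f t)| := abs_add_le _ _
        _ ≤ D * LW + LW := add_le_add h2 h3
        _ = (((D + 1) * LW : ℕ) : ℤ) := by push_cast; ring
    · intro p hp p' hp' heq
      rw [Finset.mem_coe, Finset.mem_product] at hp hp'
      have hpΓ := (Finset.mem_filter.mp hp.2).2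
      have hpΓ' := (Finset.mem_filter.mp hp'.2).2
      simp only at heq
      have h1 : ∀ q : ((Fin D → ℤ) ⧸ Γf) × (Fin n → ℤ), q.2 ∈ Γ →
          (QuotientAddGroup.mk (r q.1 + restr f q.2) : (Fin D → ℤ) ⧸ Γf) = q.1 := by
        intro q hq
        rw [← hr q.1, QuotientAddGroup.eq, hr q.1]
        have : -(r q.1 + restr f q.2) + r q.1 = -(restr f q.2) := by abel
        rw [this]
        exact AddSubgroup.neg_mem _ (AddSubgroup.mem_map_of_mem _ hq)
      have h2 : p.1 = p'.1 := by
        rw [← h1 p hpΓ, ← h1 p' hpΓ', heq]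
      rw [h2] at heq
      have h3 : restr f p.2 = restr f p'.2 := add_left_cancel heq
      have h4 : p.2 - p'.2 = 0 := by
        apply h.zero _ (Γ.sub_mem hpΓ hpΓ')
        intro s
        have := congrFun h3 s
        change p.2 (f s) = p'.2 (f s) at this
        rw [Pi.sub_apply, this, sub_self]
      exact Prod.ext h2 (sub_eq_zero.mp h4)
  rw [Finset.card_product, Finset.card_univ, hcardQ, hTcard] at key
  exact key

end DiamAb
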