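import Mathlib
import Pool.Agent.Lib_MP_0ccc25_pr.DefsB

/-!
Piece SATUR. The saturation of a subgroup with well conditioned coordinates.

PROOF. `le_sat`: take `m = 1`.
`sat_zero`: if `m w ∈ Γ`, `m ≠ 0`, `w ∘ f = 0`, then `m w ∈ Γ` vanishes on `f`, so `m w = 0`, `w = 0`.
`sat_eq`: `P w - Σ_s w (f s) v s` lies in `sat Γ` and vanishes on `f` (by `diag`), so it is `0`.
`sat_fin`: consider the map `sat Γ → (ℤ ^ D / Γf)`, `w ↦ restr f w`, with `Γf = Γ.map (restr f)` of index `P`. If `w, w'` have the same image then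
`restr f (w - w') = restr f γ` with `γ ∈ Γ`, so `w - w' - γ ∈ sat Γ` vanishes on `f`, is `0`, and `w - w' ∈ Γ`. So the map induces an injection
of `sat Γ / Γ` into a set of `P` elements: `0 < relIndex ≤ P`.
`sat_reps`: let `F = Γ.relIndex (sat Γ)`. In each coset of `Γ` in `sat Γ` pick an element `w` and replace it by
`w - Σ_s (w (f s) / P) • v s` (floor division), which lies in the same coset and has `0 ≤ w (f s) < P`; by `sat_eq`,
`P |w t| ≤ Σ_s |w (f s)| |v s t| ≤ D P * P`, so `|w t| ≤ D P ≤ n P`.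
-/

namespace DiamAb

open Finset

variable {n : ℕ} {Γ : AddSubgroup (Fin n → ℤ)} {D : ℕ} {f : Fin D → Fin n} {P : ℕ}
  {v : Fin D → Fin n → ℤ}

theorem le_sat (Γ : AddSubgroup (Fin n → ℤ)) : Γ ≤ sat Γ := by
  intro γ hγ
  exact ⟨1, one_ne_zero, by simpa using hγ⟩

theorem sat_zero (h : LD Γ D f P v) (w : Fin n → ℤ) (hw : w ∈ sat Γ) (h0 : ∀ s, w (f s) = 0) :
    w = 0 := by
  obtain ⟨m, hm, hw⟩ := hw
  have h1 := h.zero _ hw fun s => by rw [Pi.smul_apply, h0 s, smul_zero]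
  funext t
  have h2 := congrFun h1 t
  rw [Pi.smul_apply, Pi.zero_apply, smul_eq_mul] at h2
  exact (mul_eq_zero.1 h2).resolve_left hm

theorem sat_eq (h : LD Γ D f P v) (w : Fin n → ℤ) (hw : w ∈ sat Γ) :
    (P : ℤ) • w = ∑ s, w (f s) • v s := by
  have h1 : (P : ℤ) • w - ∑ s, w (f s) • v s ∈ sat Γ :=
    (sat Γ).sub_mem ((sat Γ).zsmul_mem hw _)
      ((sat Γ).sum_mem fun s _ => (sat Γ).zsmul_mem (le_sat Γ (h.mem s)) _)
  refine sub_eq_zero.1 (sat_zero h _ h1 fun s' => ?_)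
  rw [Pi.sub_apply, Finset.sum_apply, Pi.smul_apply, smul_eq_mul]
  have h2 : ∑ s, (w (f s) • v s) (f s') = ∑ s, if s = s' then w (f s) * P else 0 := by
    refine Finset.sum_congr rfl fun s _ => ?_
    rw [Pi.smul_apply, h.diag, smul_eq_mul]
    split_ifs <;> simp
  rw [h2, Finset.sum_ite_eq' univ s' fun s => w (f s) * (P : ℤ), if_pos (Finset.mem_univ _)]
  ring

/-- the subgroup of `sat Γ` defined by the restricted coordinates is `Γ` -/
theorem satur_comap (h : LD Γ D f P v) :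
    (Γ.map (restr f)).comap ((restr f).comp (sat Γ).subtype) = Γ.addSubgroupOf (sat Γ) := by
  ext w
  rw [AddSubgroup.mem_comap, AddSubgroup.mem_map, AddSubgroup.mem_addSubgroupOf]
  constructor
  · rintro ⟨γ, hγ, hγ2⟩
    have h1 : (w : Fin n → ℤ) - γ ∈ sat Γ := (sat Γ).sub_mem w.2 (le_sat Γ hγ)
    have h2 : (w : Fin n → ℤ) - γ = 0 := sat_zero h _ h1 fun s => by
      have h3 := congrFun hγ2 s
      have h4 : γ (f s) = (w : Fin n → ℤ) (f s) := h3
      rw [Pi.sub_apply, h4, sub_self]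
    rw [sub_eq_zero.1 h2]
    exact hγ
  · intro hw
    exact ⟨w, hw, rfl⟩

theorem sat_fin (h : LD Γ D f P v) : Γ.relIndex (sat Γ) ≠ 0 ∧ Γ.relIndex (sat Γ) ≤ P := by
  have h1 : Γ.relIndex (sat Γ) ∣ P := by
    have h2 : Γ.relIndex (sat Γ) = ((Γ.map (restr f)).comap ((restr f).comp (sat Γ).subtype)).index := by
      rw [satur_comap h]
      rfl
    rw [h2, AddSubgroup.index_comap, ← h.idx]
    exact AddSubgroup.relIndex_dvd_index_of_normal _ _
  have hP : 0 < P := h.pos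
  exact ⟨ne_zero_of_dvd_ne_zero hP.ne' h1, Nat.le_of_dvd hP h1⟩

theorem sat_reps (h : LD Γ D f P v) : ∃ y : Fin (Γ.relIndex (sat Γ)) → Fin n → ℤ,
    (∀ i, y i ∈ sat Γ) ∧ (∀ i t, |y i t| ≤ n * P) ∧ (∀ i i', i ≠ i' → y i - y i' ∉ Γ) := by
  obtain ⟨hF0, -⟩ := sat_fin h
  have hP : 0 < (P : ℤ) := by exact_mod_cast h.pos
  have hcard : Nat.card ((sat Γ) ⧸ (Γ.addSubgroupOf (sat Γ))) = Γ.relIndex (sat Γ) := rfl
  have hfin : Finite ((sat Γ) ⧸ (Γ.addSubgroupOf (sat Γ))) :=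
    Nat.finite_of_card_ne_zero (by rw [hcard]; exact hF0)
  have e : Fin (Γ.relIndex (sat Γ)) ≃ ((sat Γ) ⧸ (Γ.addSubgroupOf (sat Γ))) :=
    (Finite.equivFinOfCardEq hcard).symm
  set w : Fin (Γ.relIndex (sat Γ)) → sat Γ := fun i => (e i).out with hw
  have hDn : D ≤ n := by
    have := Fintype.card_le_of_injective f h.inj
    simpa using this
  have hyf : ∀ i s, ((w i : Fin n → ℤ) - ∑ s, ((w i : Fin n → ℤ) (f s) / (P : ℤ)) • v s) (f s) =
      (w i : Fin n → ℤ) (f s) % P := by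
    intro i s'
    rw [Pi.sub_apply, Finset.sum_apply]
    have h2 : ∑ s, (((w i : Fin n → ℤ) (f s) / (P : ℤ)) • v s) (f s') =
        ∑ s, if s = s' then ((w i : Fin n → ℤ) (f s) / (P : ℤ)) * P else 0 := by
      refine Finset.sum_congr rfl fun s _ => ?_
      rw [Pi.smul_apply, h.diag, smul_eq_mul]
      split_ifs <;> simp
    rw [h2, Finset.sum_ite_eq' univ s' fun s => ((w i : Fin n → ℤ) (f s) / (P : ℤ)) * P,
      if_pos (Finset.mem_univ _), Int.emod_def]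
    ring
  have hy1 : ∀ i, (w i : Fin n → ℤ) - ∑ s, ((w i : Fin n → ℤ) (f s) / (P : ℤ)) • v s ∈ sat Γ :=
    fun i => (sat Γ).sub_mem (w i).2
      ((sat Γ).sum_mem fun s _ => (sat Γ).zsmul_mem (le_sat Γ (h.mem s)) _)
  refine ⟨fun i => (w i : Fin n → ℤ) - ∑ s, ((w i : Fin n → ℤ) (f s) / (P : ℤ)) • v s, hy1,
    fun i t => ?_, fun i i' hii hmem => ?_⟩
  · have h3 := congrFun (sat_eq h _ (hy1 i)) t
    rw [Pi.smul_apply, Finset.sum_apply, smul_eq_mul] at h3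
    have h4 : (P : ℤ) * |((w i : Fin n → ℤ) - ∑ s, ((w i : Fin n → ℤ) (f s) / (P : ℤ)) • v s) t| ≤
        (P : ℤ) * (D * P) := by
      rw [← abs_of_pos hP, ← abs_mul, abs_of_pos hP, h3]
      refine (Finset.abs_sum_le_sum_abs _ _).trans ?_
      have h5 : ∀ s ∈ (univ : Finset (Fin D)),
          |((((w i : Fin n → ℤ) - ∑ s, ((w i : Fin n → ℤ) (f s) / (P : ℤ)) • v s) (f s)) • v s) t| ≤
          (P : ℤ) * P := by
        intro s _
        rw [Pi.smul_apply, smul_eq_mul, abs_mul, hyf, abs_of_nonneg (Int.emod_nonneg _ hP.ne')]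
        exact mul_le_mul (Int.emod_lt_of_pos _ hP).le (h.bd s t) (abs_nonneg _) hP.le
      refine (Finset.sum_le_sum h5).trans (le_of_eq ?_)
      rw [Finset.sum_const, Finset.card_univ, Fintype.card_fin, nsmul_eq_mul]
      ring
    have h6 := le_of_mul_le_mul_left h4 hP
    have h7 : (D : ℤ) ≤ n := by exact_mod_cast hDn
    exact h6.trans (mul_le_mul_of_nonneg_right h7 hP.le)
  · apply hii
    apply e.injective
    have h8 : (w i : Fin n → ℤ) - (w i' : Fin n → ℤ) ∈ Γ := by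
      have h9 : (∑ s, ((w i : Fin n → ℤ) (f s) / (P : ℤ)) • v s) -
          (∑ s, ((w i' : Fin n → ℤ) (f s) / (P : ℤ)) • v s) ∈ Γ :=
        Γ.sub_mem (Γ.sum_mem fun s _ => Γ.zsmul_mem (h.mem s) _)
          (Γ.sum_mem fun s _ => Γ.zsmul_mem (h.mem s) _)
      have h10 := Γ.add_mem hmem h9
      have h11 : ((w i : Fin n → ℤ) - ∑ s, ((w i : Fin n → ℤ) (f s) / (P : ℤ)) • v s) -
          ((w i' : Fin n → ℤ) - ∑ s, ((w i' : Fin n → ℤ) (f s) / (P : ℤ)) • v s) +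
          ((∑ s, ((w i : Fin n → ℤ) (f s) / (P : ℤ)) • v s) -
          (∑ s, ((w i' : Fin n → ℤ) (f s) / (P : ℤ)) • v s)) =
          (w i : Fin n → ℤ) - (w i' : Fin n → ℤ) := by abel
      rw [← h11]
      exact h10
    have h12 : e i = ((w i : sat Γ) : (sat Γ) ⧸ (Γ.addSubgroupOf (sat Γ))) :=
      (QuotientAddGroup.out_eq' _).symm
    have h13 : e i' = ((w i' : sat Γ) : (sat Γ) ⧸ (Γ.addSubgroupOf (sat Γ))) :=
      (QuotientAddGroup.out_eq' _).symm
    rw [h12, h13, QuotientAddGroup.eq, AddSubgroup.mem_addSubgroupOf]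
    have h14 : ((-(w i) + w i' : sat Γ) : Fin n → ℤ) = -((w i : Fin n → ℤ) - (w i' : Fin n → ℤ)) := by
      rw [AddSubgroup.coe_add, AddSubgroup.coe_neg]
      abel
    rw [h14]
    exact Γ.neg_mem h8

end DiamAb
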