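import Mathlib
import Pool.Agent.Lib_MP_0ccc25_pr.Satur

/-!
Piece HOMFREE. Number of tuples of characters killing a saturated subgroup.

PROOF of `hom_free`. Let `V = sat Γ`. `ℤ ^ n / V` is a finitely generated torsion free abelian group (if `m w ∈ V`, `m ≠ 0`,
then `w ∈ V`), so it is free of some rank `e` (`Module.Free` over a PID; `Submodule` quotient) and `e = n - D`: rank of `V` is `D`, because
`restr f` is injective on `V` (for `w ∈ V`, `m w ∈ Γ`, so `w ∘ f = 0` gives `m w = 0`) and `V ∋ v s` with `v s (f s') = P [s = s']` are `D` independent vectors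
(`Submodule.finrank_quotient_add_finrank`). A tuple `χ` with `V ≤ Kc χ` is a homomorphism `ℤ ^ n → AddChar G ℂ`,
`a ↦ Π_s χ_s ^ (a s)`, killing `V`, i.e. a homomorphism from `ℤ ^ n / V ≅ ℤ ^ e` to the group of characters, determined by the `e` images of a basis:
at most `|G| ^ e` possibilities (`AddChar.card_eq`).
Alternative without quotients: by the Smith normal form (`Submodule.smithNormalForm`) there is a basis of
`ℤ ^ n` of which `D` members form a basis of `V` (as `V` is saturated).
-/

namespace DiamAb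

open Finset

/-- the value of an integer vector at a tuple of characters -/
noncomputable def hfEv {G : Type} [AddCommGroup G] {n : ℕ} (χ : Fin n → AddChar G ℂ) :
    (Fin n → ℤ) →+ Additive (AddChar G ℂ) where
  toFun a := Additive.ofMul (∏ s, χ s ^ (a s))
  map_zero' := by simp
  map_add' a b := by
    rw [← ofMul_mul, ← Finset.prod_mul_distrib]
    congr 1
    refine Finset.prod_congr rfl fun s _ => ?_
    rw [Pi.add_apply, zpow_add]

theorem hfEv_mem {G : Type} [AddCommGroup G] {n : ℕ} {χ : Fin n → AddChar G ℂ}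
    {a : Fin n → ℤ} : a ∈ Kc χ ↔ hfEv χ a = 0 := Iff.rfl

theorem hfEv_single {G : Type} [AddCommGroup G] {n : ℕ} (χ : Fin n → AddChar G ℂ) (s : Fin n) :
    hfEv χ (Pi.single s 1) = Additive.ofMul (χ s) := by
  change Additive.ofMul (∏ t, χ t ^ ((Pi.single s (1 : ℤ) : Fin n → ℤ) t)) = _
  congr 1
  rw [Finset.prod_eq_single s]
  · rw [Pi.single_eq_same, zpow_one]
  · intro t _ ht
    rw [Pi.single_eq_of_ne ht, zpow_zero]
  · intro h
    exact absurd (Finset.mem_univ s) h

/-- a basis of the quotient by the saturation, lifted to integer vectors -/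
theorem hf_basis {n : ℕ} {Γ : AddSubgroup (Fin n → ℤ)}
    {D : ℕ} {f : Fin D → Fin n} {P : ℕ} {v : Fin D → Fin n → ℤ} (h : LD Γ D f P v) :
    ∃ (e : ℕ) (u : Fin e → Fin n → ℤ), e ≤ n - D ∧
      ∀ a : Fin n → ℤ, ∃ c : Fin e → ℤ, a - ∑ j, c j • u j ∈ sat Γ := by
  set V : Submodule ℤ (Fin n → ℤ) := AddSubgroup.toIntSubmodule (sat Γ) with hV
  have hmemV : ∀ w, w ∈ V ↔ w ∈ sat Γ := fun w => Iff.rfl
  have htf : Module.IsTorsionFree ℤ ((Fin n → ℤ) ⧸ V) := by
    refine Module.IsTorsionFree.of_smul_eq_zero fun r m hm => ?_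
    obtain ⟨w, rfl⟩ := Submodule.Quotient.mk_surjective V m
    by_cases hr : r = 0
    · exact Or.inl hr
    · right
      rw [← Submodule.Quotient.mk_smul, Submodule.Quotient.mk_eq_zero] at hm
      rw [Submodule.Quotient.mk_eq_zero]
      obtain ⟨m', hm', hm2⟩ := (hmemV _).1 hm
      exact ⟨m' * r, mul_ne_zero hm' hr, by rw [mul_smul]; exact hm2⟩
  have hfree : Module.Free ℤ ((Fin n → ℤ) ⧸ V) := inferInstance
  have hrank : Module.finrank ℤ ((Fin n → ℤ) ⧸ V) + Module.finrank ℤ V = n := by
    rw [Submodule.finrank_quotient_add_finrank, Module.finrank_fin_fun]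
  have hP : (P : ℤ) ≠ 0 := by
    have := h.pos
    omega
  have hvV : ∀ s, v s ∈ V := fun s => (hmemV _).2 (le_sat Γ (h.mem s))
  have hD : D ≤ Module.finrank ℤ V := by
    have hli : LinearIndependent ℤ (fun s : Fin D => (⟨v s, hvV s⟩ : V)) := by
      rw [Fintype.linearIndependent_iff]
      intro g hg s'
      have h1 := congrArg (fun w : V => (w : Fin n → ℤ) (f s')) hg
      simp only [Submodule.coe_zero, Pi.zero_apply] at h1
      rw [Submodule.coe_sum, Finset.sum_apply] at h1
      have h2 : ∑ s, ((g s • (⟨v s, hvV s⟩ : V) : V) : Fin n → ℤ) (f s') =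
          ∑ s, if s = s' then g s * P else 0 := by
        refine Finset.sum_congr rfl fun s _ => ?_
        rw [Submodule.coe_smul, Pi.smul_apply]
        change g s • v s (f s') = _
        rw [h.diag, smul_eq_mul]
        split_ifs <;> simp
      rw [h2, Finset.sum_ite_eq' univ s' fun s => g s * (P : ℤ), if_pos (Finset.mem_univ _)] at h1
      exact (mul_eq_zero.1 h1).resolve_right hP
    have := hli.fintype_card_le_finrank
    simpa using this
  set b := Module.finBasis ℤ ((Fin n → ℤ) ⧸ V) with hb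
  choose u hu using fun j => Submodule.Quotient.mk_surjective V (b j)
  refine ⟨Module.finrank ℤ ((Fin n → ℤ) ⧸ V), u, by omega, fun a => ?_⟩
  refine ⟨fun j => b.repr (Submodule.Quotient.mk a) j, ?_⟩
  rw [← hmemV, ← Submodule.Quotient.mk_eq_zero, Submodule.Quotient.mk_sub, sub_eq_zero]
  have h3 : (Submodule.Quotient.mk (∑ j, (b.repr (Submodule.Quotient.mk a) j) • u j) : (Fin n → ℤ) ⧸ V) =
      ∑ j, (b.repr (Submodule.Quotient.mk a) j) • b j := by
    rw [← Submodule.mkQ_apply, map_sum]
    refine Finset.sum_congr rfl fun j _ => ?_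
    rw [map_zsmul, Submodule.mkQ_apply, hu j]
  rw [h3, b.sum_repr]

open Classical in
theorem hom_free (G : Type) [AddCommGroup G] [Fintype G] {n : ℕ} {Γ : AddSubgroup (Fin n → ℤ)}
    {D : ℕ} {f : Fin D → Fin n} {P : ℕ} {v : Fin D → Fin n → ℤ} (h : LD Γ D f P v) :
    (univ.filter fun χ : Fin n → AddChar G ℂ => sat Γ ≤ Kc χ).card ≤
      Fintype.card G ^ (n - D) := by
  obtain ⟨e, u, he, hu⟩ := hf_basis h
  have h1 : (univ.filter fun χ : Fin n → AddChar G ℂ => sat Γ ≤ Kc χ).card ≤
      (univ : Finset (Fin e → AddChar G ℂ)).card := by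
    refine Finset.card_le_card_of_injOn (fun χ j => (hfEv χ (u j)).toMul) (fun _ _ => Finset.mem_coe.2 (Finset.mem_univ _)) ?_
    intro χ hχ χ' hχ' heq
    rw [Finset.mem_coe, Finset.mem_filter] at hχ hχ'
    have heq' : ∀ j, hfEv χ (u j) = hfEv χ' (u j) := fun j => congrFun heq j
    funext s
    obtain ⟨c, hc⟩ := hu (Pi.single s 1)
    have h2 : hfEv χ (Pi.single s 1) = hfEv χ' (Pi.single s 1) := by
      have h3 := hfEv_mem.1 (hχ.2 hc)
      have h4 := hfEv_mem.1 (hχ'.2 hc)
      rw [map_sub, map_sum, sub_eq_zero] at h3 h4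
      rw [h3, h4]
      refine Finset.sum_congr rfl fun j _ => ?_
      rw [map_zsmul, map_zsmul, heq' j]
    rw [hfEv_single, hfEv_single] at h2
    exact h2
  refine h1.trans ?_
  rw [Finset.card_univ, Fintype.card_fun, Fintype.card_fin, AddChar.card_eq]
  exact Nat.pow_le_pow_right Fintype.card_pos he

end DiamAb
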