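import Mathlib
import Pool.Agent.Lib_MP_0ccc25_pr.DefsB

/-!
Piece HOMREL. Number of tuples of characters killing a subgroup, compared with its saturation.

PROOF of `hom_rel`. Let `V = sat Γ`, `d = AddGroup.rank G` with generators `y_1, ..., y_d` of `G` (`AddGroup.rank_spec`). For `χ` with
`Γ ≤ Kc χ` and each `i ≤ d` the map `ψ_i : V / Γ → ℂ`, `a ↦ (Π_s χ_s ^ (a s)) (y_i)`, is a well defined additive character of the finite group
`V / Γ` of order `F`, so there are at most `F` possible `ψ_i` (`AddChar.card_addChar_le`) and at most `F ^ d` possible tuples `(ψ_i)`. If `χ` and `χ'` give the same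
tuple, then for `a ∈ V` the characters `Π χ_s ^ (a s)` and `Π χ'_s ^ (a s)` agree on generators of `G`, so are equal, and `χ / χ'` is a
tuple with `V ≤ Kc (χ / χ')`. So each fibre has at most `#{χ | V ≤ Kc χ}` elements.
-/

namespace DiamAb

open Finset

/-- the value of an integer vector at a tuple of characters -/
noncomputable def hrEv {G : Type} [AddCommGroup G] {n : ℕ} (χ : Fin n → AddChar G ℂ) :
    (Fin n → ℤ) →+ Additive (AddChar G ℂ) where
  toFun a := Additive.ofMul (∏ s, χ s ^ (a s))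
  map_zero' := by simp
  map_add' a b := by
    rw [← ofMul_mul, ← Finset.prod_mul_distrib]
    congr 1
    refine Finset.prod_congr rfl fun s _ => ?_
    rw [Pi.add_apply, zpow_add]

theorem hrEv_mem {G : Type} [AddCommGroup G] {n : ℕ} {χ : Fin n → AddChar G ℂ}
    {a : Fin n → ℤ} : a ∈ Kc χ ↔ hrEv χ a = 0 := Iff.rfl

/-- evaluation of characters at a point -/
noncomputable def hrAt {G : Type} [AddCommGroup G] (y : G) : AddChar G ℂ →* ℂ where
  toFun ψ := ψ y
  map_one' := rfl
  map_mul' _ _ := rfl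

/-- the value at `y` of the character belonging to a vector of `V` -/
noncomputable def hrPhi {G : Type} [AddCommGroup G] {n : ℕ} (V : AddSubgroup (Fin n → ℤ))
    (χ : Fin n → AddChar G ℂ) (y : G) : V →+ Additive ℂ :=
  (MonoidHom.toAdditive (hrAt y)).comp ((hrEv χ).comp V.subtype)

theorem hrPhi_ker {G : Type} [AddCommGroup G] {n : ℕ} {Γ V : AddSubgroup (Fin n → ℤ)}
    {χ : Fin n → AddChar G ℂ} (hχ : Γ ≤ Kc χ) (y : G) :
    Γ.addSubgroupOf V ≤ (hrPhi V χ y).ker := by
  intro w hw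
  rw [AddSubgroup.mem_addSubgroupOf] at hw
  rw [AddMonoidHom.mem_ker]
  have h1 : hrEv χ (w : Fin n → ℤ) = 0 := hrEv_mem.1 (hχ hw)
  change (MonoidHom.toAdditive (hrAt y)) (hrEv χ (w : Fin n → ℤ)) = 0
  rw [h1, map_zero]

/-- characters that agree on generators are equal -/
theorem hr_ext {G : Type} [AddCommGroup G] {S : Set G} (hS : AddSubgroup.closure S = ⊤)
    {ψ ψ' : AddChar G ℂ} (h : ∀ y ∈ S, ψ y = ψ' y) : ψ = ψ' := by
  ext g
  have hg : g ∈ AddSubgroup.closure S := by rw [hS]; trivial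
  induction hg using AddSubgroup.closure_induction with
  | mem x hx => exact h x hx
  | zero => rw [AddChar.map_zero_eq_one, AddChar.map_zero_eq_one]
  | add x y _ _ hx hy => rw [AddChar.map_add_eq_mul, AddChar.map_add_eq_mul, hx, hy]
  | neg x _ hx => rw [AddChar.map_neg_eq_inv, AddChar.map_neg_eq_inv, hx]

open Classical in
theorem hom_rel (G : Type) [AddCommGroup G] [Fintype G] {n : ℕ} (Γ : AddSubgroup (Fin n → ℤ))
    (hF : Γ.relIndex (sat Γ) ≠ 0) :
    (univ.filter fun χ : Fin n → AddChar G ℂ => Γ ≤ Kc χ).card ≤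
      (univ.filter fun χ : Fin n → AddChar G ℂ => sat Γ ≤ Kc χ).card *
        (Γ.relIndex (sat Γ)) ^ AddGroup.rank G := by
  obtain ⟨S, hScard, hSc⟩ := AddGroup.rank_spec G
  set Q := (sat Γ) ⧸ (Γ.addSubgroupOf (sat Γ)) with hQ
  have hcard : Nat.card Q = Γ.relIndex (sat Γ) := rfl
  have hfin : Finite Q := Nat.finite_of_card_ne_zero (by rw [hcard]; exact hF)
  let fQ : Fintype Q := Fintype.ofFinite Q
  let F : (Fin n → AddChar G ℂ) → ({y // y ∈ S} → AddChar Q ℂ) := fun χ y =>
    if hχ : Γ ≤ Kc χ then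
      AddChar.toAddMonoidHomEquiv.symm (QuotientAddGroup.lift (Γ.addSubgroupOf (sat Γ))
        (hrPhi (sat Γ) χ (y : G)) (hrPhi_ker hχ (y : G)))
    else 1
  have hFeq : ∀ χ χ' : Fin n → AddChar G ℂ, Γ ≤ Kc χ → Γ ≤ Kc χ' → F χ = F χ' →
      ∀ w ∈ sat Γ, hrEv χ w = hrEv χ' w := by
    intro χ χ' hχ hχ' heq w hw
    have h1 : (hrEv χ w).toMul = (hrEv χ' w).toMul := by
      refine hr_ext hSc fun y hy => ?_
      have h2 := congrArg (fun φ : AddChar Q ℂ => φ ((⟨w, hw⟩ : sat Γ) : Q)) (congrFun heq ⟨y, hy⟩)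
      simp only [F, dif_pos hχ, dif_pos hχ'] at h2
      exact h2
    exact h1
  have hmain : (univ.filter fun χ : Fin n → AddChar G ℂ => Γ ≤ Kc χ).card ≤
      (univ.filter fun χ : Fin n → AddChar G ℂ => sat Γ ≤ Kc χ).card *
        (univ : Finset ({y // y ∈ S} → AddChar Q ℂ)).card := by
    refine Finset.card_le_mul_card_image_of_maps_to (f := F) (fun _ _ => Finset.mem_univ _) _ ?_
    intro ψ _
    rcases Finset.eq_empty_or_nonempty ((univ.filter fun χ : Fin n → AddChar G ℂ => Γ ≤ Kc χ).filter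
      fun χ => F χ = ψ) with he | ⟨χ0, hχ0⟩
    · rw [he, Finset.card_empty]
      exact Nat.zero_le _
    · rw [Finset.mem_filter, Finset.mem_filter] at hχ0
      refine Finset.card_le_card_of_injOn (fun χ s => χ s * (χ0 s)⁻¹) ?_ ?_
      · intro χ hχ
        rw [Finset.mem_coe, Finset.mem_filter, Finset.mem_filter] at hχ
        rw [Finset.mem_coe, Finset.mem_filter]
        refine ⟨Finset.mem_univ _, fun w hw => ?_⟩
        have h1 := hFeq χ χ0 hχ.1.2 hχ0.1.2 (hχ.2.trans hχ0.2.symm) w hw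
        have h2 : ∏ s, χ s ^ (w s) = ∏ s, χ0 s ^ (w s) := h1
        change ∏ s, (χ s * (χ0 s)⁻¹) ^ (w s) = 1
        rw [Finset.prod_congr rfl fun s _ => mul_zpow (χ s) (χ0 s)⁻¹ (w s), Finset.prod_mul_distrib,
          h2, Finset.prod_congr rfl fun s _ => inv_zpow (χ0 s) (w s), Finset.prod_inv_distrib,
          mul_inv_cancel]
      · intro χ _ χ' _ h1
        funext s
        exact mul_right_cancel (congrFun h1 s)
  refine hmain.trans (le_of_eq ?_)
  rw [Finset.card_univ, Fintype.card_fun, AddChar.card_eq, ← Nat.card_eq_fintype_card, hcard]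
  congr 2
  rw [← hScard]
  simp

end DiamAb
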