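import Mathlib
import Pool.Agent.Lib_MP_0ccc25_pr.DefsB

/-!
Piece FACTOR. The noise factorises over the coordinates.

PROOF. An element `j` of the index set is a triple of maps `X, U, U'` from `Fin n` to words. Fix `X`. The sum over
`U, U' : Fin n → wd0 k l` of `l ^ (-2 n k) [∀ i, (fun s => X s i + U s i + U' s i) ∈ V]`: transpose, i.e.
reindex `U` by `U^T i = (fun s => U s i) ∈ wd0 n l` for `i : Fin k`, same for `U'`. The condition is a
conjunction over `i` of conditions on `(U^T i, U'^T i)`, so the sum of the product of indicators is the product over `i` of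
`#{(u, u') ∈ wd0 n l ×ˢ wd0 n l | X^T i + u + u' ∈ V}` (`Finset.prod_univ_sum`), and
`(wd0 n l).card = l ^ n`, so dividing by `l ^ (2 n k)` gives `Π_i ker (wd0 n l) (wd0 n l) V (X^T i)`.
-/

namespace DiamAb

open Finset

theorem card_wd0 (n l : ℕ) : (wd0 n l).card = l ^ n := by
  unfold wd0
  rw [Fintype.card_piFinset_const]
  congr 1
  unfold bx0
  simp

open Classical in
theorem factor {n k : ℕ} (T : Finset (Fin k → ℤ)) (p : (Fin k → ℤ) → ℝ) (l : ℕ) (hl : 1 ≤ l)
    (V : AddSubgroup (Fin n → ℤ)) :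
    ∑ j ∈ Fintype.piFinset (fun _ : Fin n => T ×ˢ (wd0 k l ×ˢ wd0 k l)),
        (∏ s, (p (j s).1 / (l : ℝ) ^ (2 * k))) *
          (if ∀ i, (fun s => ((j s).1 + (j s).2.1 + (j s).2.2) i) ∈ V then (1 : ℝ) else 0) =
      ∑ X ∈ Fintype.piFinset (fun _ : Fin n => T), (∏ s, p (X s)) *
        ∏ i, ker (wd0 n l) (wd0 n l) V (fun s => X s i) := by
  have hl0 : (0 : ℝ) < l := by exact_mod_cast hl
  set Nn : ℝ := (l : ℝ) ^ n * (l : ℝ) ^ n with hNn
  have hker : ∀ x : Fin n → ℤ, ker (wd0 n l) (wd0 n l) V x =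
      Nn⁻¹ * ∑ u ∈ wd0 n l ×ˢ wd0 n l, (if x + u.1 + u.2 ∈ V then (1 : ℝ) else 0) := by
    intro x
    unfold ker
    rw [div_eq_inv_mul, Finset.sum_boole, card_wd0]
    push_cast
    rfl
  have hprod : ∀ X : Fin n → Fin k → ℤ, ∏ i, ker (wd0 n l) (wd0 n l) V (fun s => X s i) =
      (Nn⁻¹) ^ k * ∑ η ∈ Fintype.piFinset (fun _ : Fin k => wd0 n l ×ˢ wd0 n l),
        ∏ i, (if (fun s => X s i) + (η i).1 + (η i).2 ∈ V then (1 : ℝ) else 0) := by
    intro X
    simp_rw [hker]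
    rw [Finset.prod_mul_distrib, Finset.prod_const, Finset.card_univ, Fintype.card_fin,
      Finset.prod_univ_sum]
  simp_rw [hprod]
  have hR : ∑ X ∈ Fintype.piFinset (fun _ : Fin n => T), (∏ s, p (X s)) *
      ((Nn⁻¹) ^ k * ∑ η ∈ Fintype.piFinset (fun _ : Fin k => wd0 n l ×ˢ wd0 n l),
        ∏ i, (if (fun s => X s i) + (η i).1 + (η i).2 ∈ V then (1 : ℝ) else 0)) =
      ∑ q ∈ Fintype.piFinset (fun _ : Fin n => T) ×ˢ
        Fintype.piFinset (fun _ : Fin k => wd0 n l ×ˢ wd0 n l), (∏ s, p (q.1 s)) *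
      ((Nn⁻¹) ^ k *
        ∏ i, (if (fun s => q.1 s i) + (q.2 i).1 + (q.2 i).2 ∈ V then (1 : ℝ) else 0)) := by
    rw [Finset.sum_product]
    refine Finset.sum_congr rfl fun X _ => ?_
    rw [Finset.mul_sum, Finset.mul_sum]
  rw [hR]
  refine Finset.sum_nbij'
    (fun j => ((fun s => (j s).1), fun i => ((fun s => (j s).2.1 i), fun s => (j s).2.2 i)))
    (fun q => fun s => (q.1 s, ((fun i => (q.2 i).1 s), fun i => (q.2 i).2 s)))
    ?_ ?_ ?_ ?_ ?_
  · intro j hj
    simp only [Fintype.mem_piFinset, Finset.mem_product, wd0] at hj ⊢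
    exact ⟨fun s => (hj s).1, fun i => ⟨fun s => (hj s).2.1 i, fun s => (hj s).2.2 i⟩⟩
  · intro q hq
    simp only [Fintype.mem_piFinset, Finset.mem_product, wd0] at hq ⊢
    exact fun s => ⟨hq.1 s, fun i => (hq.2 i).1 s, fun i => (hq.2 i).2 s⟩
  · intro j _
    rfl
  · intro q _
    rfl
  · intro j _
    show (∏ s, (p (j s).1 / (l : ℝ) ^ (2 * k))) *
          (if ∀ i, (fun s => ((j s).1 + (j s).2.1 + (j s).2.2) i) ∈ V then (1 : ℝ) else 0) =
        (∏ s, p (j s).1) * ((Nn⁻¹) ^ k *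
          ∏ i, (if (fun s => (j s).1 i) + (fun s => (j s).2.1 i) + (fun s => (j s).2.2 i) ∈ V
            then (1 : ℝ) else 0))
    have h1 : ∏ s : Fin n, (p (j s).1 / (l : ℝ) ^ (2 * k)) =
        (∏ s, p (j s).1) * (Nn⁻¹) ^ k := by
      rw [Finset.prod_div_distrib, Finset.prod_const, Finset.card_univ, Fintype.card_fin,
        div_eq_mul_inv]
      congr 1
      rw [hNn, inv_pow]
      congr 1
      rw [← pow_add, ← pow_mul, ← pow_mul]
      congr 1
      ring
    have h2 : (∏ i, (if (fun s => (j s).1 i) + (fun s => (j s).2.1 i) + (fun s => (j s).2.2 i) ∈ V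
            then (1 : ℝ) else 0)) =
        (if ∀ i, (fun s => ((j s).1 + (j s).2.1 + (j s).2.2) i) ∈ V then (1 : ℝ) else 0) := by
      by_cases h : ∀ i, (fun s => ((j s).1 + (j s).2.1 + (j s).2.2) i) ∈ V
      · rw [if_pos h]
        exact Finset.prod_eq_one (fun i _ => if_pos (h i))
      · rw [if_neg h]
        push Not at h
        obtain ⟨i, hi⟩ := h
        exact Finset.prod_eq_zero (Finset.mem_univ i) (if_neg hi)
    rw [h1, h2, mul_assoc]

end DiamAb
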