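import Mathlib
import Pool.Agent.Lib_MP_0ccc25_pr.Factor
import Pool.Agent.Lib_MP_0ccc25_pr.Satur

/-!
Piece KERB. Bounds for the kernels.

PROOF of `ker_count`. For each `u' ∈ wd0 n l` the number of `u ∈ wd0 n l` with `x + u + u' ∈ Γ` is at most the number of vectors of `Γ` in
the box of radius `LW` (the map `u ↦ x + u + u'` is injective, and the entries of `x + u + u'` are at most
`|x t| + 2 l ≤ LW`). So `ker ≤ l ^ n * N / (l ^ n * l ^ n) = N / l ^ n`.
PROOF of `ker_coset`. Let `F = Γ.relIndex (sat Γ)` and `y` from `sat_reps`, `a = n P`. Fix `u`. The map `(u', i) ↦ u' + y i` sends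
`{u' ∈ wd0 n l | x + u + u' ∈ Γ} × Fin F` injectively into `{u'' ∈ wda n l a | x + u + u'' ∈ sat Γ}`: if `u' + y i = u1' + y i1` then
`y i1 - y i = u' - u1' ∈ Γ`, so `i = i1` and `u' = u1'`. Sum over `u` and divide: `(wda n l a).card = (l + 2 a) ^ n`.
PROOF of `ker_congr`. Under the hypothesis the vectors `x + u + u'` lie in the box of radius `LW`, where `V` and `V'` agree.
-/

namespace DiamAb

open Finset

theorem card_wda (n l a : ℕ) : (wda n l a).card = (l + 2 * a) ^ n := by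
  unfold wda
  rw [Fintype.card_piFinset_const, Int.card_Ico]
  congr 1
  omega

theorem ker_nonneg {n : ℕ} (A A' : Finset (Fin n → ℤ)) (V : AddSubgroup (Fin n → ℤ))
    (x : Fin n → ℤ) : 0 ≤ ker A A' V x := by
  unfold ker; positivity

theorem ker_le_one {n : ℕ} (A A' : Finset (Fin n → ℤ)) (V : AddSubgroup (Fin n → ℤ))
    (x : Fin n → ℤ) : ker A A' V x ≤ 1 := by
  classical
  unfold ker
  refine div_le_one_of_le₀ ?_ (by positivity)
  have h1 := Finset.card_filter_le (A ×ˢ A') (fun u => x + u.1 + u.2 ∈ V)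
  rw [Finset.card_product] at h1
  exact_mod_cast h1

theorem kerb_mem_wd0 {n l : ℕ} {u : Fin n → ℤ} : u ∈ wd0 n l ↔ ∀ t, 0 ≤ u t ∧ u t < l := by
  unfold wd0 bx0
  simp only [Fintype.mem_piFinset, Finset.mem_Ico]

theorem kerb_mem_wda {n l a : ℕ} {u : Fin n → ℤ} :
    u ∈ wda n l a ↔ ∀ t, -(a : ℤ) ≤ u t ∧ u t < l + a := by
  unfold wda
  simp only [Fintype.mem_piFinset, Finset.mem_Ico]

theorem kerb_abs {n l LW : ℕ} {x u u' : Fin n → ℤ} (hx : ∀ t, |x t| + 2 * l ≤ LW)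
    (hu : u ∈ wd0 n l) (hu' : u' ∈ wd0 n l) (t : Fin n) : |(x + u + u') t| ≤ LW := by
  have h1 := kerb_mem_wd0.1 hu t
  have h2 := kerb_mem_wd0.1 hu' t
  have h3 := hx t
  rw [Pi.add_apply, Pi.add_apply]
  have h4 : |x t + u t + u' t| ≤ |x t| + |u t| + |u' t| := abs_add_three _ _ _
  rw [abs_of_nonneg h1.1, abs_of_nonneg h2.1] at h4
  omega

open Classical in
theorem ker_count {n l LW : ℕ} (hl : 1 ≤ l) (Γ : AddSubgroup (Fin n → ℤ)) (x : Fin n → ℤ)
    (hx : ∀ t, |x t| + 2 * l ≤ LW) :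
    ker (wd0 n l) (wd0 n l) Γ x ≤
      (((Fintype.piFinset fun _ : Fin n => Finset.Icc (-(LW : ℤ)) LW).filter (· ∈ Γ)).card : ℝ) /
        (l : ℝ) ^ n := by
  have hlR : (0 : ℝ) < (l : ℝ) ^ n := by
    have : (0 : ℝ) < l := by exact_mod_cast hl
    positivity
  unfold ker
  rw [card_wd0]
  have h1 : ((wd0 n l ×ˢ wd0 n l).filter fun u => x + u.1 + u.2 ∈ Γ).card ≤
      l ^ n * ((Fintype.piFinset fun _ : Fin n => Finset.Icc (-(LW : ℤ)) LW).filter (· ∈ Γ)).card := by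
    rw [← card_wd0 n l, ← Finset.card_product]
    refine Finset.card_le_card_of_injOn (fun u => (u.2, x + u.1 + u.2)) ?_ ?_
    · rintro ⟨u, u'⟩ hu
      rw [Finset.mem_coe, Finset.mem_filter, Finset.mem_product] at hu
      rw [Finset.mem_coe, Finset.mem_product, Finset.mem_filter, Fintype.mem_piFinset]
      refine ⟨hu.1.2, fun t => ?_, hu.2⟩
      rw [Finset.mem_Icc]
      exact abs_le.1 (kerb_abs hx hu.1.1 hu.1.2 t)
    · rintro ⟨u, u'⟩ _ ⟨u1, u1'⟩ _ h
      simp only [Prod.mk.injEq] at h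
      obtain ⟨h2, h3⟩ := h
      rw [h2] at h3
      have h4 : u = u1 := add_left_cancel (add_right_cancel h3)
      rw [h4, h2]
  have h2 : (((wd0 n l ×ˢ wd0 n l).filter fun u => x + u.1 + u.2 ∈ Γ).card : ℝ) ≤
      (l : ℝ) ^ n *
        (((Fintype.piFinset fun _ : Fin n => Finset.Icc (-(LW : ℤ)) LW).filter (· ∈ Γ)).card : ℝ) := by
    exact_mod_cast h1
  push_cast
  rw [div_le_div_iff₀ (by positivity) hlR]
  calc _ ≤ (l : ℝ) ^ n *
        (((Fintype.piFinset fun _ : Fin n => Finset.Icc (-(LW : ℤ)) LW).filter (· ∈ Γ)).card : ℝ) *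
        (l : ℝ) ^ n := mul_le_mul_of_nonneg_right h2 hlR.le
    _ = _ := by ring

theorem ker_coset {n l : ℕ} (hl : 1 ≤ l) {Γ : AddSubgroup (Fin n → ℤ)} {D : ℕ}
    {f : Fin D → Fin n} {P : ℕ} {v : Fin D → Fin n → ℤ} (h : LD Γ D f P v) (x : Fin n → ℤ) :
    ker (wd0 n l) (wd0 n l) Γ x ≤
      (((l : ℝ) + 2 * (n * P)) / l) ^ n / (Γ.relIndex (sat Γ)) *
        ker (wd0 n l) (wda n l (n * P)) (sat Γ) x := by
  classical
  have hl0 : (0 : ℝ) < l := by exact_mod_cast hl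
  have hlR : (0 : ℝ) < (l : ℝ) ^ n := by positivity
  obtain ⟨hF0, -⟩ := sat_fin h
  have hF : (0 : ℝ) < (Γ.relIndex (sat Γ) : ℝ) := by exact_mod_cast Nat.pos_of_ne_zero hF0
  obtain ⟨y, hy1, hy2, hy3⟩ := sat_reps h
  unfold ker
  rw [card_wd0, card_wda]
  have h1 : Γ.relIndex (sat Γ) * ((wd0 n l ×ˢ wd0 n l).filter fun u => x + u.1 + u.2 ∈ Γ).card ≤
      ((wd0 n l ×ˢ wda n l (n * P)).filter fun u => x + u.1 + u.2 ∈ sat Γ).card := by
    have h2 : Γ.relIndex (sat Γ) * ((wd0 n l ×ˢ wd0 n l).filter fun u => x + u.1 + u.2 ∈ Γ).card =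
        ((univ : Finset (Fin (Γ.relIndex (sat Γ)))) ×ˢ
          ((wd0 n l ×ˢ wd0 n l).filter fun u => x + u.1 + u.2 ∈ Γ)).card := by
      rw [Finset.card_product, Finset.card_univ, Fintype.card_fin]
    rw [h2]
    refine Finset.card_le_card_of_injOn (fun u => (u.2.1, u.2.2 + y u.1)) ?_ ?_
    · rintro ⟨i, u, u'⟩ hu
      rw [Finset.mem_coe, Finset.mem_product, Finset.mem_filter, Finset.mem_product] at hu
      obtain ⟨-, ⟨hu1, hu2⟩, hu3⟩ := hu
      rw [Finset.mem_coe, Finset.mem_filter, Finset.mem_product]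
      refine ⟨⟨hu1, ?_⟩, ?_⟩
      · rw [kerb_mem_wda]
        intro t
        have h3 := kerb_mem_wd0.1 hu2 t
        have h4 := abs_le.1 (hy2 i t)
        simp only [Pi.add_apply]
        push_cast
        constructor
        · linarith [h3.1, h4.1]
        · linarith [h3.2, h4.2]
      · have h5 : x + u + (u' + y i) = (x + u + u') + y i := by abel
        simp only [h5]
        exact (sat Γ).add_mem (le_sat Γ hu3) (hy1 i)
    · rintro ⟨i, u, u'⟩ hu ⟨i1, u1, u1'⟩ hu1 h3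
      rw [Finset.mem_coe, Finset.mem_product, Finset.mem_filter] at hu hu1
      simp only [Prod.mk.injEq] at h3
      obtain ⟨h4, h5⟩ := h3
      have h6 : i = i1 := by
        by_contra hne
        apply hy3 i i1 hne
        have h7 : y i - y i1 = (x + u1 + u1') - (x + u + u') := by
          rw [h4]
          have h8 : y i = u1' + y i1 - u' := by
            rw [← h5]
            abel
          rw [h8]
          abel
        rw [h7]
        exact Γ.sub_mem hu1.2.2 hu.2.2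
      subst h6
      have h7 : u' = u1' := add_right_cancel h5
      rw [h4, h7]
  have h2 : (Γ.relIndex (sat Γ) : ℝ) *
      (((wd0 n l ×ˢ wd0 n l).filter fun u => x + u.1 + u.2 ∈ Γ).card : ℝ) ≤
      (((wd0 n l ×ˢ wda n l (n * P)).filter fun u => x + u.1 + u.2 ∈ sat Γ).card : ℝ) := by
    exact_mod_cast h1
  have ha : (0 : ℝ) < (l : ℝ) + 2 * (n * P) := by positivity
  have h3 : (((l : ℝ) + 2 * (n * P)) / l) ^ n / (Γ.relIndex (sat Γ)) *
      ((((wd0 n l ×ˢ wda n l (n * P)).filter fun u => x + u.1 + u.2 ∈ sat Γ).card : ℝ) /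
        (((l ^ n : ℕ) : ℝ) * (((l + 2 * (n * P)) ^ n : ℕ) : ℝ))) =
      (((wd0 n l ×ˢ wda n l (n * P)).filter fun u => x + u.1 + u.2 ∈ sat Γ).card : ℝ) /
        (Γ.relIndex (sat Γ) * ((l : ℝ) ^ n * (l : ℝ) ^ n)) := by
    push_cast
    rw [div_pow]
    field_simp
  rw [h3]
  push_cast
  rw [div_le_div_iff₀ (by positivity) (by positivity)]
  calc _ = ((Γ.relIndex (sat Γ) : ℝ) *
      (((wd0 n l ×ˢ wd0 n l).filter fun u => x + u.1 + u.2 ∈ Γ).card : ℝ)) *
        ((l : ℝ) ^ n * (l : ℝ) ^ n) := by ring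
    _ ≤ _ := mul_le_mul_of_nonneg_right h2 (by positivity)

theorem ker_congr {n l LW : ℕ} (V V' : AddSubgroup (Fin n → ℤ)) (x : Fin n → ℤ)
    (hx : ∀ t, |x t| + 2 * l ≤ LW) (hV : ∀ w : Fin n → ℤ, (∀ t, |w t| ≤ LW) → (w ∈ V ↔ w ∈ V')) :
    ker (wd0 n l) (wd0 n l) V x = ker (wd0 n l) (wd0 n l) V' x := by
  classical
  unfold ker
  congr 2
  apply congrArg
  refine Finset.filter_congr fun u hu => ?_
  rw [Finset.mem_product] at hu
  exact hV _ fun t => kerb_abs hx hu.1 hu.2 t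

end DiamAb
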