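import Mathlib
import Pool.Agent.Lib_MP_0ccc25_pr.DefsB

/-!
Piece LATDATA. Every subgroup of `ℤ ^ n` has well conditioned coordinates.

PROOF. `Γ` is a submodule of a free module over a PID: take a `ℤ`-basis `b : Fin D → Γ`
(`Submodule.basisOfPid` / `Module.Free.chooseBasis`, reindexed). Let `A` be the `D × n` integer matrix of rows `b i`.
For `f : Fin D → Fin n` let `d f = det (A.submatrix id f)`. The rows are linearly independent over
`ℚ`, so some `d f ≠ 0` (column rank equals row rank: choose `D` linearly independent columns). Choose `f`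
with `|d f|` maximal, so `d f ≠ 0`; then `f` is injective (a repeated column gives determinant zero). Let `P = |d f|` and `Af = A.submatrix id f`.
For `s : Fin D` let `x = ± (row s of the adjugate of Af)` with the sign of `d f`, i.e. `x ᵥ* Af = P e_s`, and `v s = x ᵥ* A = Σ_i x i • b i ∈ Γ`.
Then `v s (f s') = P [s = s']`. For any `t`, by Cramer's rule (`Matrix.cramer_apply`, applied to the transpose)
`(v s) t = ± det (Af with column s replaced by the column t of A) = ± d (Function.update f s t)`, so `|v s t| ≤ P` by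
maximality. `zero`: if `γ = Σ y i • b i` vanishes on `f` then `y ᵥ* Af = 0`, so `y = 0` as `det Af ≠ 0`.
`idx`: `Γ.map (restr f)` has the basis given by the rows of `Af` (injectivity), so its index in `ℤ ^ D` is
`|det Af|` (`AddSubgroup.index_eq_natAbs_det` with the standard basis `Pi.basisFun ℤ (Fin D)`).
`gen`: the basis vectors generate `Γ` (`Submodule.span ℤ` as an additive subgroup is `AddSubgroup.closure`).
-/

namespace DiamAb

open Matrix

/-- a matrix with linearly independent rows has a nonzero maximal minor -/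
theorem latdata_minor {n D : ℕ} (A : Matrix (Fin D) (Fin n) ℤ)
    (hA : LinearIndependent ℤ (fun i => A i)) : ∃ f : Fin D → Fin n, (A.submatrix id f).det ≠ 0 := by
  classical
  -- over ℚ
  let B : Matrix (Fin D) (Fin n) ℚ := A.map (Int.castRingHom ℚ)
  have hB1 : LinearIndependent ℤ (fun i => B i) := by
    let φ : (Fin n → ℤ) →ₗ[ℤ] (Fin n → ℚ) :=
      { toFun := fun v t => (v t : ℚ)
        map_add' := by intro a b; ext t; simp
        map_smul' := by intro a b; ext t; simp }
    have hφ : LinearMap.ker φ = ⊥ := by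
      rw [LinearMap.ker_eq_bot]
      intro a b hab
      ext t
      have h1 : ((a t : ℤ) : ℚ) = ((b t : ℤ) : ℚ) := congrFun hab t
      exact_mod_cast h1
    exact hA.map' φ hφ
  have hB : LinearIndependent ℚ (fun i => B i) := (LinearIndependent.iff_fractionRing ℤ ℚ).1 hB1
  have hrank : B.rank = D := by
    have := LinearIndependent.rank_matrix (M := B) hB
    simpa using this
  obtain ⟨κ, a, ha, hsp, hli⟩ := exists_linearIndependent' ℚ (fun t => B.col t)
  have : Fintype κ := Fintype.ofInjective a ha
  have hcard : Fintype.card κ = D := by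
    have h1 := linearIndependent_iff_card_eq_finrank_span.1 hli
    rw [h1, Set.finrank, hsp]
    have h2 : Module.finrank ℚ (Submodule.span ℚ (Set.range fun t => B.col t)) = B.rank :=
      (Matrix.rank_eq_finrank_span_cols B).symm
    rw [h2, hrank]
  let e : Fin D ≃ κ := (Fintype.equivFinOfCardEq hcard).symm
  refine ⟨a ∘ e, ?_⟩
  have hli2 : LinearIndependent ℚ ((fun t => B.col t) ∘ a ∘ e) := by
    rw [← Function.comp_assoc]
    exact hli.comp e e.injective
  have h2 : LinearIndependent ℚ (B.submatrix id (a ∘ e)).col := hli2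
  rw [Matrix.linearIndependent_cols_iff_isUnit, Matrix.isUnit_iff_isUnit_det, isUnit_iff_ne_zero] at h2
  intro h0
  apply h2
  have : B.submatrix id (a ∘ e) = (A.submatrix id (a ∘ e)).map (Int.castRingHom ℚ) := rfl
  rw [this, ← RingHom.mapMatrix_apply, ← RingHom.map_det, h0, map_zero]

theorem lat_data {n : ℕ} (Γ : AddSubgroup (Fin n → ℤ)) :
    ∃ (D : ℕ) (f : Fin D → Fin n) (P : ℕ) (v : Fin D → Fin n → ℤ), LD Γ D f P v := by
  classical
  let N : Submodule ℤ (Fin n → ℤ) := AddSubgroup.toIntSubmodule Γ
  let D : ℕ := Module.finrank ℤ N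
  let b : Module.Basis (Fin D) ℤ N := Module.finBasis ℤ N
  let A : Matrix (Fin D) (Fin n) ℤ := fun i => (b i : Fin n → ℤ)
  have hmem : ∀ i, A i ∈ Γ := fun i => (b i).2
  have hA : LinearIndependent ℤ (fun i => A i) := by
    have := b.linearIndependent.map' N.subtype N.ker_subtype
    exact this
  -- every element of Γ is an integer combination of rows
  have hrep : ∀ γ ∈ Γ, ∃ y : Fin D → ℤ, γ = y ᵥ* A := by
    intro γ hγ
    refine ⟨b.repr ⟨γ, hγ⟩, ?_⟩
    have h1 := b.sum_repr ⟨γ, hγ⟩
    have h2 := congrArg (fun x : N => (x : Fin n → ℤ)) h1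
    simp only at h2
    rw [AddSubmonoidClass.coe_finsetSum] at h2
    rw [Matrix.vecMul_eq_sum]
    exact h2.symm
  obtain ⟨f0, hf0⟩ := latdata_minor A hA
  have : Nonempty (Fin D → Fin n) := ⟨f0⟩
  obtain ⟨f, hf⟩ := Finite.exists_max (fun f : Fin D → Fin n => |(A.submatrix id f).det|)
  have hdf : (A.submatrix id f).det ≠ 0 := by
    intro h0
    have := hf f0
    simp only [h0, abs_zero] at this
    exact hf0 (abs_nonpos_iff.1 this)
  set M : Matrix (Fin D) (Fin D) ℤ := A.submatrix id f with hM
  let P : ℕ := M.det.natAbs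
  have hP : (P : ℤ) = |M.det| := Int.natCast_natAbs _
  let v : Fin D → Fin n → ℤ := fun s => (Int.sign M.det • M.adjugate s) ᵥ* A
  have hsign : Int.sign M.det * M.det = P := by rw [hP, Int.sign_mul_self_eq_abs]
  -- formula for v
  have hv : ∀ s t, v s t = Int.sign M.det * (A.submatrix id (Function.update f s t)).det := by
    intro s t
    have h1 : M.updateCol s (fun i => A i t) = A.submatrix id (Function.update f s t) := by
      ext i j
      by_cases hj : j = s
      · subst hj; simp
      · simp [hj, hM]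
    have h2 : (M.adjugate s) ⬝ᵥ (fun i => A i t) = (A.submatrix id (Function.update f s t)).det := by
      rw [← h1, ← Matrix.cramer_apply, Matrix.cramer_eq_adjugate_mulVec]
      rfl
    show ((Int.sign M.det • M.adjugate s) ᵥ* A) t = _
    rw [Matrix.smul_vecMul, Pi.smul_apply, smul_eq_mul]
    rw [← h2]
    rfl
  refine ⟨D, f, P, v, ?_, ?_, ?_, ?_, ?_, ?_, ?_, ?_⟩
  · -- injective
    intro s s' hss
    by_contra hne
    apply hdf
    apply Matrix.det_zero_of_column_eq hne
    intro i
    simp [hM, hss]
  · exact Int.natAbs_pos.2 hdf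
  · intro s
    show (Int.sign M.det • M.adjugate s) ᵥ* A ∈ Γ
    rw [Matrix.vecMul_eq_sum]
    refine Γ.sum_mem fun i _ => Γ.zsmul_mem (hmem i) _
  · intro s s'
    have h1 : v s (f s') = Int.sign M.det * (M.adjugate * M) s s' := by
      show ((Int.sign M.det • M.adjugate s) ᵥ* A) (f s') = _
      rw [Matrix.smul_vecMul, Pi.smul_apply, smul_eq_mul]
      rfl
    rw [h1, Matrix.adjugate_mul, Matrix.smul_apply, Matrix.one_apply]
    split_ifs with h
    · rw [smul_eq_mul, mul_one, hsign]
    · simp
  · intro s t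
    rw [hv, abs_mul, hP]
    have h1 : |Int.sign M.det| = 1 := by
      rw [Int.abs_eq_natAbs, Int.natAbs_sign_of_ne_zero hdf]; rfl
    rw [h1, one_mul]
    exact hf _
  · intro γ hγ h0
    obtain ⟨y, rfl⟩ := hrep γ hγ
    have h1 : y ᵥ* M = 0 := by
      ext s
      exact h0 s
    have h2 : y = 0 := Matrix.eq_zero_of_vecMul_eq_zero hdf h1
    rw [h2, Matrix.zero_vecMul]
  · -- index
    have hinj : ∀ γ ∈ Γ, restr f γ = 0 → γ = 0 := by
      intro γ hγ h0
      obtain ⟨y, rfl⟩ := hrep γ hγ
      have h1 : y ᵥ* M = 0 := by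
        ext s
        exact congrFun h0 s
      have h2 : y = 0 := Matrix.eq_zero_of_vecMul_eq_zero hdf h1
      rw [h2, Matrix.zero_vecMul]
    have hrows : LinearIndependent ℤ (fun i => M i) := by
      rw [Fintype.linearIndependent_iff]
      intro g hg i
      have h1 : g ᵥ* M = 0 := by rw [Matrix.vecMul_eq_sum]; exact hg
      exact congrFun (Matrix.eq_zero_of_vecMul_eq_zero hdf h1) i
    have hspan : Submodule.span ℤ (Set.range fun i => M i)
        = AddSubgroup.toIntSubmodule (Γ.map (restr f)) := by
      apply le_antisymm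
      · rw [Submodule.span_le]
        rintro _ ⟨i, rfl⟩
        exact ⟨A i, hmem i, rfl⟩
      · rintro _ ⟨γ, hγ, rfl⟩
        obtain ⟨y, rfl⟩ := hrep γ hγ
        have h1 : restr f (y ᵥ* A) = ∑ i, y i • M i := by
          rw [← Matrix.vecMul_eq_sum]; rfl
        rw [h1]
        exact Submodule.sum_mem _ fun i _ => Submodule.smul_mem _ _ (Submodule.subset_span ⟨i, rfl⟩)
    let c0 : Module.Basis (Fin D) ℤ (Submodule.span ℤ (Set.range fun i => M i)) :=
      Module.Basis.span hrows
    let c : Module.Basis (Fin D) ℤ (AddSubgroup.toIntSubmodule (Γ.map (restr f))) :=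
      c0.map (LinearEquiv.ofEq _ _ hspan)
    have h1 := AddSubgroup.index_eq_natAbs_det (Pi.basisFun ℤ (Fin D)) (Γ.map (restr f)) c
    rw [h1]
    show _ = M.det.natAbs
    congr 1
    rw [Module.Basis.det_apply]
    have h2 : (Pi.basisFun ℤ (Fin D)).toMatrix (fun i => ((c i : _) : Fin D → ℤ)) = Mᵀ := by
      ext i j
      rw [Module.Basis.toMatrix_apply, Pi.basisFun_repr]
      have : ((c j : _) : Fin D → ℤ) = M j := by
        show ((LinearEquiv.ofEq _ _ hspan (c0 j) : _) : Fin D → ℤ) = M j
        rw [LinearEquiv.coe_ofEq_apply]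
        exact Module.Basis.coe_span_apply hrows j
      rw [this]; rfl
    exact (congrArg Matrix.det h2).trans (Matrix.det_transpose M)
  · refine ⟨fun i => A i, ?_⟩
    apply le_antisymm
    · rw [AddSubgroup.closure_le]
      rintro _ ⟨i, rfl⟩
      exact hmem i
    · intro γ hγ
      obtain ⟨y, rfl⟩ := hrep γ hγ
      rw [Matrix.vecMul_eq_sum]
      refine AddSubgroup.sum_mem _ fun i _ => AddSubgroup.zsmul_mem _ ?_ _
      exact AddSubgroup.subset_closure (Set.mem_range_self i)

theorem LD.le {n : ℕ} {Γ : AddSubgroup (Fin n → ℤ)} {D : ℕ} {f : Fin D → Fin n} {P : ℕ}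
    {v : Fin D → Fin n → ℤ} (h : LD Γ D f P v) : D ≤ n := by
  simpa using Fintype.card_le_of_injective f h.inj

end DiamAb
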