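import Mathlib
import Pool.Agent.Lib_MP_0ccc25_pr.KerB
import Pool.Agent.Lib_MP_0ccc25_pr.CountBox
import Pool.Agent.Lib_MP_0ccc25_pr.HomFree
import Pool.Agent.Lib_MP_0ccc25_pr.HomRel
import Pool.Agent.Lib_MP_0ccc25_pr.LatData

/-!
Piece BIGTERM. Bound for the term of a subgroup with index `P`.

PROOF. Let `N` be the number of vectors of `Γ` in the box of radius `LW`. `count_box`: `P N ≤ (2 (D + 1) LW + 1) ^ D
≤ ((2 (n + 1) b + 1) S) ^ D` (`D ≤ n`, `LW ≤ b S`, `S ≥ 1`). For `X : Fin n → T` and each `i` the column has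
`|X s i| + 2 l ≤ LW`, so `ker_count` gives `ker ≤ N / l ^ n ≤ ((2 (n + 1) b + 1) S) ^ D / (P (a S) ^ n) ≤ C4 S ^ D / (S ^ n P)` with
`C4 = ((2 (n + 1) b + 1) / a) ^ n` (`a ≤ 1`, `b ≥ 0`). So the product over `i` is at most `(C4 / (S ^ (n - D) P)) ^ k`, and
`Σ_X Π p ≤ 1` (it is `(Σ_T p) ^ n`). The number of `χ` is at most `|G| ^ (n - D) * F ^ rank` with `F = relIndex ≤ P` (`hom_rel`, `hom_free`,
`sat_fin`). With `S ^ k = |G|`: `tm ≤ |G| ^ (n - D) P ^ rank C4 ^ k / (|G| ^ (n - D) P ^ k) ≤ C4 ^ k / P ^ r`.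
-/

namespace DiamAb

open Finset

theorem bigterm_sum {n k : ℕ} (T : Finset (Fin k → ℤ)) (p : (Fin k → ℤ) → ℝ)
    (hp : ∀ w, 0 ≤ p w) (hp1 : ∑ w ∈ T, p w ≤ 1) (K : (Fin n → ℤ) → ℝ) (κ : ℝ) (hκ : 0 ≤ κ)
    (hK0 : ∀ x, 0 ≤ K x) (hK : ∀ X ∈ Fintype.piFinset (fun _ : Fin n => T), ∀ i : Fin k,
      K (fun s => X s i) ≤ κ) :
    ∑ X ∈ Fintype.piFinset (fun _ : Fin n => T), (∏ s, p (X s)) * ∏ i, K (fun s => X s i)
      ≤ κ ^ k := by
  have h1 : ∀ X ∈ Fintype.piFinset (fun _ : Fin n => T),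
      (∏ s, p (X s)) * ∏ i, K (fun s => X s i) ≤ (∏ s, p (X s)) * κ ^ k := by
    intro X hX
    apply mul_le_mul_of_nonneg_left _ (prod_nonneg fun s _ => hp _)
    calc ∏ i, K (fun s => X s i) ≤ ∏ _i : Fin k, κ :=
          prod_le_prod (fun i _ => hK0 _) (fun i _ => hK X hX i)
      _ = κ ^ k := by simp
  refine le_trans (sum_le_sum h1) ?_
  rw [← sum_mul]
  have h2 : ∑ X ∈ Fintype.piFinset (fun _ : Fin n => T), (∏ s, p (X s)) = (∑ w ∈ T, p w) ^ n := by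
    rw [← Finset.prod_univ_sum (fun _ : Fin n => T) (fun _ w => p w)]
    simp
  rw [h2]
  have h3 : (∑ w ∈ T, p w) ^ n ≤ 1 := pow_le_one₀ (sum_nonneg fun w _ => hp w) hp1
  have h4 : 0 ≤ κ ^ k := pow_nonneg hκ k
  nlinarith

theorem big_term {G : Type} [AddCommGroup G] [Fintype G] {n k l LW r : ℕ}
    (T : Finset (Fin k → ℤ)) (p : (Fin k → ℤ) → ℝ) (S a b : ℝ) (hS : S ^ k = Fintype.card G)
    (hS1 : 1 ≤ S) (ha : 0 < a) (ha1 : a ≤ 1) (hal : a * S ≤ l) (hb : 0 ≤ b) (hLW : (LW : ℝ) ≤ b * S)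
    (hl : 1 ≤ l) (hp : ∀ w, 0 ≤ p w) (hp1 : ∑ w ∈ T, p w ≤ 1)
    (hT : ∀ w ∈ T, ∀ i, |w i| + 2 * l ≤ LW) {Γ : AddSubgroup (Fin n → ℤ)} {D : ℕ}
    {f : Fin D → Fin n} {P : ℕ} {v : Fin D → Fin n → ℤ} (h : LD Γ D f P v)
    (A : Set (Fin n → ℤ)) (hA : A ⊆ Bxn n LW) (hΓ : AddSubgroup.closure A = Γ)
    (hk : AddGroup.rank G + r ≤ k) :
    tm G T p l Γ ≤ (((2 * (n + 1) * b + 1) / a) ^ n) ^ k / (P : ℝ) ^ r := by
  classical
  have hDn : D ≤ n := h.le
  have hP1 : (1 : ℝ) ≤ P := by exact_mod_cast h.pos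
  have hP0 : (0 : ℝ) < P := by linarith
  have hS0 : 0 < S := by linarith
  have hl0 : (0 : ℝ) < l := by exact_mod_cast hl
  have hG0 : (0 : ℝ) < Fintype.card G := by rw [← hS]; positivity
  set C : ℝ := 2 * (n + 1) * b + 1 with hC
  have hC1 : 1 ≤ C := by
    have : 0 ≤ 2 * ((n : ℝ) + 1) * b := by positivity
    linarith
  have hC0 : 0 < C := by linarith
  set N : ℕ := ((Fintype.piFinset fun _ : Fin n => Finset.Icc (-(LW : ℤ)) LW).filter
    (· ∈ Γ)).card with hN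
  have hcount : (P : ℝ) * N ≤ (C * S) ^ D := by
    have h1 : P * N ≤ (2 * (D + 1) * LW + 1) ^ D := by
      rw [hN]
      convert count_box h LW A hA hΓ
    have h2 : (P : ℝ) * N ≤ (2 * (D + 1) * LW + 1) ^ D := by exact_mod_cast h1
    refine h2.trans (pow_le_pow_left₀ (by positivity) ?_ D)
    have hDnR : (D : ℝ) ≤ n := by exact_mod_cast hDn
    calc 2 * ((D : ℝ) + 1) * LW + 1 ≤ 2 * ((n : ℝ) + 1) * (b * S) + S := by
          apply add_le_add _ hS1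
          apply mul_le_mul _ hLW (by positivity) (by positivity)
          linarith
      _ = C * S := by rw [hC]; ring
  -- bound of the kernels
  set κ : ℝ := (C / a) ^ n / (S ^ (n - D) * P) with hκ
  have hκ0 : 0 ≤ κ := by positivity
  have hNl : (N : ℝ) / (l : ℝ) ^ n ≤ κ := by
    rw [div_le_iff₀ (by positivity)]
    have e1 : (N : ℝ) ≤ (C * S) ^ D / P := by
      rw [le_div_iff₀ hP0]; linarith
    refine e1.trans ?_
    have e2 : (a * S) ^ n ≤ (l : ℝ) ^ n := pow_le_pow_left₀ (by positivity) hal n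
    have e3 : (C * S) ^ D / P ≤ κ * (a * S) ^ n := by
      rw [hκ, mul_pow, mul_pow, div_pow]
      have e4 : S ^ n = S ^ (n - D) * S ^ D := by rw [← pow_add]; congr 1; omega
      rw [e4]
      have e5 : C ^ n / a ^ n / (S ^ (n - D) * P) * (a ^ n * (S ^ (n - D) * S ^ D))
          = C ^ n * S ^ D / P := by
        field_simp
      rw [e5]
      apply div_le_div_of_nonneg_right _ hP0.le
      apply mul_le_mul_of_nonneg_right _ (by positivity)
      exact pow_le_pow_right₀ hC1 hDn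
    exact e3.trans (mul_le_mul_of_nonneg_left e2 hκ0)
  have hsum : ∑ X ∈ Fintype.piFinset (fun _ : Fin n => T), (∏ s, p (X s)) *
      ∏ i, ker (wd0 n l) (wd0 n l) Γ (fun s => X s i) ≤ κ ^ k := by
    refine bigterm_sum T p hp hp1 (ker (wd0 n l) (wd0 n l) Γ) κ hκ0
      (fun x => ker_nonneg _ _ _ x) ?_
    intro X hX i
    rw [Fintype.mem_piFinset] at hX
    refine le_trans (ker_count hl Γ (fun s => X s i) (fun t => hT _ (hX t) i)) ?_
    refine le_trans (le_of_eq ?_) hNl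
    rw [hN]
  have hchi : ((univ.filter fun χ : Fin n → AddChar G ℂ => Γ ≤ Kc χ).card : ℝ)
      ≤ (Fintype.card G : ℝ) ^ (n - D) * (P : ℝ) ^ AddGroup.rank G := by
    have h1 := hom_rel G Γ (sat_fin h).1
    have h2 := hom_free G h
    have h3 := (sat_fin h).2
    have h4 : (univ.filter fun χ : Fin n → AddChar G ℂ => Γ ≤ Kc χ).card
        ≤ Fintype.card G ^ (n - D) * P ^ AddGroup.rank G := by
      refine h1.trans ?_
      exact Nat.mul_le_mul h2 (Nat.pow_le_pow_left h3 _)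
    exact_mod_cast h4
  unfold tm
  have hκk : κ ^ k = ((C / a) ^ n) ^ k / ((Fintype.card G : ℝ) ^ (n - D) * (P : ℝ) ^ k) := by
    rw [hκ, div_pow, mul_pow, ← hS, ← pow_mul S (n - D) k, ← pow_mul S k (n - D),
      mul_comm (n - D) k]
  have hfin : ((univ.filter fun χ : Fin n → AddChar G ℂ => Γ ≤ Kc χ).card : ℝ) *
      ∑ X ∈ Fintype.piFinset (fun _ : Fin n => T), (∏ s, p (X s)) *
        ∏ i, ker (wd0 n l) (wd0 n l) Γ (fun s => X s i)
      ≤ (Fintype.card G : ℝ) ^ (n - D) * (P : ℝ) ^ AddGroup.rank G * κ ^ k := by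
    apply mul_le_mul hchi hsum _ (by positivity)
    apply sum_nonneg
    intro X _
    exact mul_nonneg (prod_nonneg fun s _ => hp _) (prod_nonneg fun i _ => ker_nonneg _ _ _ _)
  refine le_trans (le_trans (le_of_eq ?_) hfin) ?_
  · congr!
  · rw [hκk]
    have e6 : (Fintype.card G : ℝ) ^ (n - D) * (P : ℝ) ^ AddGroup.rank G *
        (((C / a) ^ n) ^ k / ((Fintype.card G : ℝ) ^ (n - D) * (P : ℝ) ^ k))
        = ((C / a) ^ n) ^ k * ((P : ℝ) ^ AddGroup.rank G / (P : ℝ) ^ k) := by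
      field_simp
    rw [e6, div_eq_mul_inv (((C / a) ^ n) ^ k)]
    apply mul_le_mul_of_nonneg_left _ (by positivity)
    rw [div_le_iff₀ (by positivity), inv_mul_eq_div, le_div_iff₀ (by positivity), ← pow_add]
    exact pow_le_pow_right₀ hP1 hk

end DiamAb
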