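import Mathlib
import Pool.Agent.Lib_MP_0ccc25_pr.ExChar

/-!
Piece MOMENT. Even moments of the high part, pointwise in `x`.

PROOF. Let `Y z = Σ_{χ ∈ Hi} phi z J p W χ * χ (-x)`. It is real: `conj (phi z χ) = phi z χ⁻¹` and
`conj (χ (-x)) = χ⁻¹ (-x)` (`AddChar.inv_apply_eq_conj`, the weights are real), so
`conj (Y z) = Y z` by reindexing `χ ↦ χ⁻¹` on `Hi` (`Finset.sum_nbij'` / `sum_bij'`). Hence, as `n` is even,
`‖Y z‖ ^ n = (Re Y z) ^ n` and `Y z ^ n` is the real number `‖Y z‖ ^ n`.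
Expand `Y z ^ n = Σ_{χ : Fin n → Hi} Σ_{j : Fin n → J} Π_s (p (j s) χ_s (dot (W (j s)) z) χ_s (-x))`
(`Finset.prod_univ_sum` twice). Average over `z` with `ex_char`: the average of
`Π_s χ_s (dot (W (j s)) z)` is the indicator of `∀ i, Π_s χ_s ^ (W (j s) i) = 1`. The factor
`Π_s χ_s (-x)` has absolute value `1`, so taking absolute values gives the bound.
-/

namespace DiamAb

open Finset

theorem moment_phi_conj {G : Type} [AddCommGroup G] [Fintype G] {k : ℕ} {ι : Type}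
    (z : Fin k → G) (J : Finset ι) (p : ι → ℝ) (W : ι → Fin k → ℤ) (χ : AddChar G ℂ) :
    (starRingEnd ℂ) (phi z J p W χ) = phi z J p W χ⁻¹ := by
  unfold phi
  rw [map_sum]
  refine sum_congr rfl fun j _ => ?_
  rw [map_mul, Complex.conj_ofReal, AddChar.inv_apply, AddChar.map_neg_eq_conj]

theorem moment_real {G : Type} [AddCommGroup G] [Fintype G] {k : ℕ} {ι : Type}
    (z : Fin k → G) (J : Finset ι) (p : ι → ℝ) (W : ι → Fin k → ℤ)
    (Hi : Finset (AddChar G ℂ)) (hsym : ∀ χ ∈ Hi, χ⁻¹ ∈ Hi) (x : G) :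
    (starRingEnd ℂ) (∑ χ ∈ Hi, phi z J p W χ * χ (-x)) = ∑ χ ∈ Hi, phi z J p W χ * χ (-x) := by
  rw [map_sum]
  refine sum_bij' (fun χ _ => χ⁻¹) (fun χ _ => χ⁻¹) (fun χ h => hsym χ h) (fun χ h => hsym χ h)
    (fun χ _ => inv_inv χ) (fun χ _ => inv_inv χ) (fun χ _ => ?_)
  rw [map_mul, moment_phi_conj, AddChar.inv_apply, AddChar.map_neg_eq_conj χ (-x)]

theorem moment_norm {n : ℕ} (hn : Even n) {y : ℂ} (hy : (starRingEnd ℂ) y = y) :
    ((‖y‖ ^ n : ℝ) : ℂ) = y ^ n := by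
  obtain ⟨r, hr⟩ := Complex.conj_eq_iff_real.mp hy
  rw [hr, Complex.norm_real, Real.norm_eq_abs, hn.pow_abs]
  push_cast
  rfl

theorem moment_expand {G : Type} [AddCommGroup G] [Fintype G] [DecidableEq (AddChar G ℂ)]
    {k n : ℕ} {ι : Type} [DecidableEq ι]
    (z : Fin k → G) (J : Finset ι) (p : ι → ℝ) (W : ι → Fin k → ℤ)
    (Hi : Finset (AddChar G ℂ)) (x : G) :
    (∑ χ ∈ Hi, phi z J p W χ * χ (-x)) ^ n =
      ∑ χ ∈ Fintype.piFinset (fun _ : Fin n => Hi),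
        ∑ j ∈ Fintype.piFinset (fun _ : Fin n => J), ((∏ s, (p (j s) : ℂ)) * ∏ s, χ s (-x)) *
          ∏ s, χ s (dot (W (j s)) z) := by
  have h1 : (∑ χ ∈ Hi, phi z J p W χ * χ (-x)) ^ n
      = ∏ _s : Fin n, ∑ χ ∈ Hi, phi z J p W χ * χ (-x) := by
    rw [prod_const, card_univ, Fintype.card_fin]
  rw [h1, prod_univ_sum]
  refine sum_congr rfl fun χ _ => ?_
  have h2 : ∀ s, phi z J p W (χ s) * χ s (-x)
      = ∑ j ∈ J, (p j : ℂ) * χ s (-x) * χ s (dot (W j) z) := by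
    intro s
    unfold phi
    rw [sum_mul]
    exact sum_congr rfl fun j _ => by ring
  rw [prod_congr rfl fun s _ => h2 s, prod_univ_sum]
  refine sum_congr rfl fun j _ => ?_
  rw [prod_mul_distrib, prod_mul_distrib]

open Classical in
theorem moment {G : Type} [AddCommGroup G] [Fintype G] {k n : ℕ} {ι : Type} (hn : Even n)
    (J : Finset ι) (p : ι → ℝ) (hp : ∀ j, 0 ≤ p j) (W : ι → Fin k → ℤ)
    (Hi : Finset (AddChar G ℂ)) (hsym : ∀ χ ∈ Hi, χ⁻¹ ∈ Hi) (x : G) :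
    av (fun z : Fin k → G => ‖∑ χ ∈ Hi, phi z J p W χ * χ (-x)‖ ^ n) ≤
      ∑ χ ∈ Fintype.piFinset (fun _ : Fin n => Hi),
        ∑ j ∈ Fintype.piFinset (fun _ : Fin n => J), (∏ s, p (j s)) *
          (if ∀ i, ∏ s, (χ s) ^ (W (j s) i) = 1 then (1 : ℝ) else 0) := by
  have hav : 0 ≤ av (fun z : Fin k → G => ‖∑ χ ∈ Hi, phi z J p W χ * χ (-x)‖ ^ n) :=
    av_nonneg fun z => by positivity
  have hcard : ((Fintype.card (Fin k → G) : ℝ) : ℂ) = (Fintype.card G : ℂ) ^ k := by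
    rw [Fintype.card_fun, Fintype.card_fin]
    push_cast
    rfl
  have key : ((av (fun z : Fin k → G => ‖∑ χ ∈ Hi, phi z J p W χ * χ (-x)‖ ^ n) : ℝ) : ℂ)
      = ∑ χ ∈ Fintype.piFinset (fun _ : Fin n => Hi),
        ∑ j ∈ Fintype.piFinset (fun _ : Fin n => J), ((∏ s, (p (j s) : ℂ)) * ∏ s, χ s (-x)) *
          (if ∀ i, ∏ s, (χ s) ^ (W (j s) i) = 1 then (1 : ℂ) else 0) := by
    unfold av
    rw [Complex.ofReal_div, Complex.ofReal_sum, hcard]
    have h1 : ∀ z : Fin k → G, ((‖∑ χ ∈ Hi, phi z J p W χ * χ (-x)‖ ^ n : ℝ) : ℂ)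
        = ∑ χ ∈ Fintype.piFinset (fun _ : Fin n => Hi),
        ∑ j ∈ Fintype.piFinset (fun _ : Fin n => J), ((∏ s, (p (j s) : ℂ)) * ∏ s, χ s (-x)) *
          ∏ s, χ s (dot (W (j s)) z) := fun z => by
      rw [moment_norm hn (moment_real z J p W Hi hsym x), moment_expand]
    rw [sum_congr rfl fun z _ => h1 z, sum_comm, sum_div]
    refine sum_congr rfl fun χ _ => ?_
    rw [sum_comm, sum_div]
    refine sum_congr rfl fun j _ => ?_
    rw [← mul_sum, mul_div_assoc, ex_char]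
  calc av (fun z : Fin k → G => ‖∑ χ ∈ Hi, phi z J p W χ * χ (-x)‖ ^ n)
      = ‖((av (fun z : Fin k → G => ‖∑ χ ∈ Hi, phi z J p W χ * χ (-x)‖ ^ n) : ℝ) : ℂ)‖ := by
        rw [Complex.norm_real, Real.norm_eq_abs, abs_of_nonneg hav]
    _ ≤ _ := by
        rw [key]
        refine (norm_sum_le _ _).trans (sum_le_sum fun χ _ => ?_)
        refine (norm_sum_le _ _).trans (sum_le_sum fun j _ => ?_)
        rw [norm_mul, norm_mul, norm_prod, norm_prod]
        have h1 : ∏ s, ‖(p (j s) : ℂ)‖ = ∏ s, p (j s) :=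
          prod_congr rfl fun s _ => by
            rw [Complex.norm_real, Real.norm_eq_abs, abs_of_nonneg (hp _)]
        have h2 : ∏ s, ‖χ s (-x)‖ = 1 := prod_eq_one fun s _ => AddChar.norm_apply _ _
        rw [h1, h2, mul_one]
        split_ifs
        · simp
        · simp

end DiamAb
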