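import Mathlib

/-!
Piece LOFF. Littlewood-Offord bound for sums with uniform coefficients in an interval.
-/

namespace DiamAb

open Finset

namespace LoffPiece

theorem cb (p : ℕ) : (2 * p + 1) * Nat.centralBinom p ^ 2 ≤ 16 ^ p := by
  induction p with
  | zero => simp
  | succ p ih =>
    have h1 := Nat.succ_mul_centralBinom_succ p
    have h2 : (p + 1) ^ 2 * ((2 * (p + 1) + 1) * Nat.centralBinom (p + 1) ^ 2) ≤
        (p + 1) ^ 2 * 16 ^ (p + 1) := by
      calc (p + 1) ^ 2 * ((2 * (p + 1) + 1) * Nat.centralBinom (p + 1) ^ 2)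
          = (2 * p + 3) * ((p + 1) * Nat.centralBinom (p + 1)) ^ 2 := by ring
        _ = (2 * p + 3) * (2 * (2 * p + 1) * Nat.centralBinom p) ^ 2 := by rw [h1]
        _ = 4 * (2 * p + 3) * (2 * p + 1) * ((2 * p + 1) * Nat.centralBinom p ^ 2) := by ring
        _ ≤ 4 * (2 * p + 3) * (2 * p + 1) * 16 ^ p := Nat.mul_le_mul_left _ ih
        _ ≤ (16 * (p + 1) ^ 2) * 16 ^ p := by
            apply Nat.mul_le_mul_right
            nlinarith
        _ = (p + 1) ^ 2 * 16 ^ (p + 1) := by ring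
    exact Nat.le_of_mul_le_mul_left h2 (by positivity)

theorem le_of_sq_le_sq_aux {a b : ℝ} (hb : 0 ≤ b) (h : a ^ 2 ≤ b ^ 2) : a ≤ b :=
  le_of_abs_le (abs_le.2 (abs_le_of_sq_le_sq' h hb))

theorem sum_mem {m : ℕ} (B : Finset (Fin m)) (f : Fin m → ℝ) :
    ∑ s ∈ B, f s = ∑ s, if s ∈ B then f s else 0 := by
  rw [Finset.sum_ite_mem, Finset.univ_inter]

theorem central_nat (m : ℕ) : m.choose (m / 2) ^ 2 * (m + 1) ≤ 4 ^ m := by
  rcases Nat.even_or_odd' m with ⟨p, rfl | rfl⟩
  · have h := cb p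
    rw [Nat.centralBinom_eq_two_mul_choose] at h
    rw [Nat.mul_div_cancel_left _ (by norm_num : 0 < 2), pow_mul]
    norm_num
    linarith
  · have h := cb (p + 1)
    rw [Nat.centralBinom_eq_two_mul_choose] at h
    have h1 : (2 * (p + 1)).choose (p + 1) = 2 * (2 * p + 1).choose p := by
      have e1 : 2 * (p + 1) = (2 * p + 1) + 1 := by ring
      rw [e1, Nat.choose_succ_succ]
      have e2 : (2 * p + 1).choose (p + 1) = (2 * p + 1).choose p := by
        apply Nat.choose_symm_of_eq_add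
        ring
      rw [e2]; ring
    rw [h1] at h
    have h3 : (2 * p + 1) / 2 = p := by omega
    rw [h3]
    have h4 : (16 : ℕ) ^ (p + 1) = 4 * 4 ^ (2 * p + 1) := by
      rw [show (16 : ℕ) = 4 ^ 2 by norm_num, ← pow_mul, ← pow_succ']
      congr 1
    rw [h4] at h
    have h5 : (2 * (p + 1) + 1) * (2 * (2 * p + 1).choose p) ^ 2 =
        4 * ((2 * p + 3) * (2 * p + 1).choose p ^ 2) := by ring
    rw [h5] at h
    have h6 : (2 * p + 3) * (2 * p + 1).choose p ^ 2 ≤ 4 ^ (2 * p + 1) := by omega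
    calc (2 * p + 1).choose p ^ 2 * (2 * p + 1 + 1)
        ≤ (2 * p + 1).choose p ^ 2 * (2 * p + 3) := Nat.mul_le_mul_left _ (by omega)
      _ = (2 * p + 3) * (2 * p + 1).choose p ^ 2 := by ring
      _ ≤ _ := h6

end LoffPiece

open LoffPiece

theorem central (m : ℕ) : (m.choose (m / 2) : ℝ) ≤ 2 ^ m / √(m + 1) := by
  have h := central_nat m
  have h' : ((m.choose (m / 2) : ℝ)) ^ 2 * (m + 1) ≤ 4 ^ m := by exact_mod_cast h
  have hpos : (0 : ℝ) < m + 1 := by positivity
  rw [le_div_iff₀ (Real.sqrt_pos.2 hpos)]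
  apply le_of_sq_le_sq_aux
  · positivity
  · rw [mul_pow, Real.sq_sqrt hpos.le, ← pow_mul, mul_comm m 2, pow_mul]
    norm_num
    exact h'

open Classical in
theorem erdos (m : ℕ) (h y : ℝ) (hh : 0 < h) (c : Fin m → ℝ) (hc : ∀ s, h ≤ |c s|) :
    (univ.filter fun B : Finset (Fin m) => y ≤ ∑ s ∈ B, c s ∧ ∑ s ∈ B, c s < y + h).card ≤
      m.choose (m / 2) := by
  obtain ⟨N, hN⟩ : ∃ N : Finset (Fin m), ∀ s, s ∈ N ↔ c s < 0 :=
    ⟨univ.filter (fun s => c s < 0), fun s => by simp⟩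
  have key : ∀ B : Finset (Fin m), ∑ s ∈ B, c s = ∑ s ∈ symmDiff B N, |c s| + ∑ s ∈ N, c s := by
    intro B
    rw [sum_mem B, sum_mem (symmDiff B N), sum_mem N, ← Finset.sum_add_distrib]
    apply Finset.sum_congr rfl
    intro s _
    by_cases h1 : s ∈ B <;> by_cases h2 : c s < 0
    · have : s ∈ N := (hN s).2 h2
      simp [Finset.mem_symmDiff, h1, this]
    · have : s ∉ N := fun h => h2 ((hN s).1 h)
      simp [Finset.mem_symmDiff, h1, this, abs_of_nonneg (not_lt.1 h2)]
    · have : s ∈ N := (hN s).2 h2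
      simp [Finset.mem_symmDiff, h1, this, abs_of_neg h2]
    · have : s ∉ N := fun h => h2 ((hN s).1 h)
      simp [Finset.mem_symmDiff, h1, this]
  obtain ⟨A, hA⟩ : ∃ A : Finset (Finset (Fin m)), A =
      (univ.filter fun B : Finset (Fin m) => y ≤ ∑ s ∈ B, c s ∧ ∑ s ∈ B, c s < y + h) := ⟨_, rfl⟩
  rw [← hA]
  have hinj : Function.Injective (fun B : Finset (Fin m) => symmDiff B N) := by
    intro a b hab
    exact symmDiff_left_injective N hab
  rw [← Finset.card_image_of_injective A hinj]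
  have hanti : IsAntichain (· ⊆ ·) ((A.image (fun B => symmDiff B N) : Finset (Finset (Fin m))) :
      Set (Finset (Fin m))) := by
    rintro X hX Y hY hne hsub
    rw [Finset.coe_image, Set.mem_image] at hX hY
    obtain ⟨B1, hB1, rfl⟩ := hX
    obtain ⟨B2, hB2, rfl⟩ := hY
    rw [Finset.mem_coe, hA, mem_filter] at hB1 hB2
    have k1 := key B1
    have k2 := key B2
    have hss : symmDiff B1 N ⊂ symmDiff B2 N := lt_of_le_of_ne hsub hne
    obtain ⟨s, hs2, hs1⟩ := Finset.exists_of_ssubset hss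
    have : ∑ s ∈ symmDiff B1 N, |c s| + |c s| ≤ ∑ s ∈ symmDiff B2 N, |c s| := by
      have e := Finset.sum_insert (f := fun s => |c s|) hs1
      rw [add_comm, ← e]
      apply Finset.sum_le_sum_of_subset_of_nonneg
      · intro x hx
        rw [Finset.mem_insert] at hx
        rcases hx with rfl | hx
        · exact hs2
        · exact hsub hx
      · intro _ _ _; exact abs_nonneg _
    have h3 := hc s
    have h4 := hB1.2.1
    have h5 := hB2.2.2
    linarith
  have := hanti.sperner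
  simpa using this

open Classical in
theorem loff (m h : ℕ) (hh : 1 ≤ h) (c : Fin m → ℝ) (hc : ∀ s, 1 ≤ |c s|) (y : ℝ) :
    (((Fintype.piFinset fun _ : Fin m => Finset.Ico (0 : ℤ) (2 * h)).filter
      fun u => y ≤ ∑ s, c s * u s ∧ ∑ s, c s * u s < y + 2 * h).card : ℝ) ≤
      (2 * h : ℝ) ^ m * (2 / √(m + 1)) := by
  have hhpos : (0 : ℝ) < h := by exact_mod_cast hh
  -- the two part bound for fixed β
  have hfix : ∀ y' : ℝ, (univ.filter fun B : Finset (Fin m) =>
      y' ≤ ∑ s ∈ B, (h : ℝ) * c s ∧ ∑ s ∈ B, (h : ℝ) * c s < y' + 2 * h).card ≤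
      2 * m.choose (m / 2) := by
    intro y'
    have hc' : ∀ s, (h : ℝ) ≤ |(h : ℝ) * c s| := by
      intro s
      rw [abs_mul, abs_of_pos hhpos]
      nlinarith [hc s]
    have e1 := erdos m h y' hhpos (fun s => (h : ℝ) * c s) hc'
    have e2 := erdos m h (y' + h) hhpos (fun s => (h : ℝ) * c s) hc'
    have hsub : (univ.filter fun B : Finset (Fin m) =>
      y' ≤ ∑ s ∈ B, (h : ℝ) * c s ∧ ∑ s ∈ B, (h : ℝ) * c s < y' + 2 * h) ⊆
      (univ.filter fun B : Finset (Fin m) =>
        y' ≤ ∑ s ∈ B, (h : ℝ) * c s ∧ ∑ s ∈ B, (h : ℝ) * c s < y' + h) ∪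
      (univ.filter fun B : Finset (Fin m) =>
        y' + h ≤ ∑ s ∈ B, (h : ℝ) * c s ∧ ∑ s ∈ B, (h : ℝ) * c s < y' + h + h) := by
      intro B hB
      rw [mem_filter] at hB
      rw [mem_union, mem_filter, mem_filter]
      rcases lt_or_ge (∑ s ∈ B, (h : ℝ) * c s) (y' + h) with h1 | h1
      · exact Or.inl ⟨mem_univ _, hB.2.1, h1⟩
      · exact Or.inr ⟨mem_univ _, h1, by linarith [hB.2.2]⟩
    calc _ ≤ _ := card_le_card hsub
      _ ≤ _ := card_union_le _ _
      _ ≤ m.choose (m / 2) + m.choose (m / 2) := add_le_add e1 e2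
      _ = 2 * m.choose (m / 2) := by ring
  -- the injection
  let P : Finset (Fin m → ℤ) := Fintype.piFinset fun _ : Fin m => Finset.Ico (0 : ℤ) h
  let β : (Fin m → ℤ) → (Fin m → ℤ) := fun u s => if u s < h then u s else u s - h
  let Bf : (Fin m → ℤ) → Finset (Fin m) := fun u => univ.filter (fun s => (h : ℤ) ≤ u s)
  let R : Finset ((Fin m → ℤ) × Finset (Fin m)) := (P ×ˢ univ).filter (fun x =>
    y - ∑ s, c s * x.1 s ≤ ∑ s ∈ x.2, (h : ℝ) * c s ∧
      ∑ s ∈ x.2, (h : ℝ) * c s < y - ∑ s, c s * x.1 s + 2 * h)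
  have hsplit : ∀ u : Fin m → ℤ, ∑ s, c s * (u s : ℝ) =
      ∑ s, c s * (β u s : ℝ) + ∑ s ∈ Bf u, (h : ℝ) * c s := by
    intro u
    rw [sum_mem (Bf u), ← Finset.sum_add_distrib]
    apply Finset.sum_congr rfl
    intro s _
    simp only [β, Bf, mem_filter, mem_univ, true_and]
    by_cases h1 : u s < h
    · have h2 : ¬ (h : ℤ) ≤ u s := by omega
      rw [if_pos h1, if_neg h2, add_zero]
    · have h2 : (h : ℤ) ≤ u s := by omega
      rw [if_neg h1, if_pos h2]
      push_cast
      ring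
  have hcard1 : ((Fintype.piFinset fun _ : Fin m => Finset.Ico (0 : ℤ) (2 * h)).filter
      fun u => y ≤ ∑ s, c s * u s ∧ ∑ s, c s * u s < y + 2 * h).card ≤ R.card := by
    apply Finset.card_le_card_of_injOn (fun u => (β u, Bf u))
    · intro u hu
      rw [Finset.mem_coe, mem_filter, Fintype.mem_piFinset] at hu
      obtain ⟨h1, h2, h3⟩ := hu
      rw [Finset.mem_coe, mem_filter, mem_product]
      refine ⟨⟨?_, mem_univ _⟩, ?_, ?_⟩
      · rw [Fintype.mem_piFinset]
        intro s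
        have := h1 s
        rw [Finset.mem_Ico] at this ⊢
        simp only [β]
        split_ifs with h4
        · exact ⟨this.1, h4⟩
        · constructor <;> omega
      · have := hsplit u
        simp only
        linarith
      · have := hsplit u
        simp only
        linarith
    · intro u _ v _ huv
      simp only [Prod.mk.injEq] at huv
      obtain ⟨h1, h2⟩ := huv
      funext s
      have h3 := congrFun h1 s
      have h4 : (h : ℤ) ≤ u s ↔ (h : ℤ) ≤ v s := by
        have : s ∈ Bf u ↔ s ∈ Bf v := by rw [h2]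
        simpa [Bf] using this
      simp only [β] at h3
      split_ifs at h3 <;> omega
  have hcard2 : R.card ≤ h ^ m * (2 * m.choose (m / 2)) := by
    have : R.card = ∑ b ∈ P, (univ.filter fun B : Finset (Fin m) =>
        y - ∑ s, c s * b s ≤ ∑ s ∈ B, (h : ℝ) * c s ∧
          ∑ s ∈ B, (h : ℝ) * c s < y - ∑ s, c s * b s + 2 * h).card := by
      simp only [R, Finset.card_filter]
      rw [Finset.sum_product]
    rw [this]
    calc _ ≤ ∑ b ∈ P, 2 * m.choose (m / 2) := Finset.sum_le_sum (fun b _ => hfix _)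
      _ = P.card * (2 * m.choose (m / 2)) := by rw [sum_const, smul_eq_mul]
      _ = h ^ m * (2 * m.choose (m / 2)) := by
          congr 1
          simp [P]
  have hc3 : (((Fintype.piFinset fun _ : Fin m => Finset.Ico (0 : ℤ) (2 * h)).filter
      fun u => y ≤ ∑ s, c s * u s ∧ ∑ s, c s * u s < y + 2 * h).card : ℝ) ≤
      (h : ℝ) ^ m * (2 * m.choose (m / 2)) := by
    exact_mod_cast hcard1.trans hcard2
  refine hc3.trans ?_
  have h5 := central m
  calc (h : ℝ) ^ m * (2 * m.choose (m / 2)) ≤ (h : ℝ) ^ m * (2 * (2 ^ m / √(m + 1))) := by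
        apply mul_le_mul_of_nonneg_left _ (by positivity)
        linarith
    _ = (2 * h : ℝ) ^ m * (2 / √(m + 1)) := by
        rw [mul_pow]; ring

end DiamAb
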