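import Mathlib
import Pool.Agent.Lib_MP_0ccc25_pr.Factor
import Pool.Agent.Lib_MP_0ccc25_pr.Satur
import Pool.Agent.Lib_MP_0ccc25_pr.Loff

/-!
Piece ECH. Anti-concentration of the kernel for a saturated subgroup of small codimension
containing no unit vector.

PROOF. Let `V = sat Γ`, `I = range f` (`|I| = D`), `ρ = n - D ≥ 1`. For `w ∈ V` and every `t`: `P w t = Σ_s w (f s) v s t` (`sat_eq`).
(1) For every `s` some `t ∉ I` has `v s t ≠ 0`: otherwise `v s = P e_(f s)` (by `diag` and since `v s t = 0` off `I`), so the unit vector `Pi.single (f s) 1` lies in `V` (`m = P`), contrary to `hunit`.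
(2) Let `N t = #{s | v s t ≠ 0}` for `t ∉ I`. Then `Σ_{t ∉ I} N t ≥ D ≥ m ρ`, so some `t ∉ I` has `N t ≥ m` (pigeonhole). If `m = 0` the claim
`ker ≤ (1 / l) ^ ρ * 2` follows from (4) below without the window. Let `m ≥ 1`; among the `s` with `v s t ≠ 0` let `s0` have minimal `|v s t|`; put `t0 = f s0`, `I' = (I \ {t0}) ∪ {t}`,
`J' = complement of I'`, `|I'| = D`.
(3) `w ∈ V` is determined by its restriction to `I'`: `w t0 = (P w t - Σ_{s ≠ s0} w (f s) v s t) / v s0 t`, and then all of `w ∘ f` is known, so `w` is (`sat_zero` for differences).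
(4) Fix `u' ∈ A'` and count `u ∈ wd0 n l` with `w = x + u + u' ∈ V`: by (3) the map `u ↦ u|_{I'}` is injective on this set. Moreover `u t0 = w t0 - x t0 - u' t0 ∈ [0, l)`, and
`w t0 = Σ_{t' ∈ I'} c_{t'} w_{t'}` with `c_t = P / v s0 t`, `c_(f s) = - v s t / v s0 t`; the nonzero coefficients have absolute value at least `1` (by `bd`: `|v s0 t| ≤ P`,
and minimality of `|v s0 t|`), and there are exactly `N t ≥ m` nonzero ones (`t` itself and the `f s`, `s ≠ s0`, `v s t ≠ 0`). So
`Σ_{t'} c_{t'} u_{t'}` lies in a half open interval of length `l = 2 h` determined by `x` and `u'`. By `loff` (with `N t` variables), the number of restrictions to the support is at most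
`l ^ (N t) * 2 / √(N t + 1)`, and the other coordinates of `I'` are free: at most `l ^ D * 2 / √(m + 1)` in total.
(5) Sum over `u' ∈ A'` and divide by `l ^ n |A'|`: `ker ≤ l ^ (D - n) * 2 / √(m + 1)`. (If `A'` is empty the kernel is `0`.)
-/

namespace DiamAb

open Finset

open Classical in
theorem ech_window (D m h : ℕ) (hh : 1 ≤ h) (c : Fin D → ℝ) (J : Finset (Fin D))
    (hJ : m ≤ J.card) (hc : ∀ s ∈ J, 1 ≤ |c s|) (hc0 : ∀ s, s ∉ J → c s = 0) (y : ℝ) :
    (((Fintype.piFinset fun _ : Fin D => Finset.Ico (0 : ℤ) (2 * h)).filter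
      fun u => y ≤ ∑ s, c s * u s ∧ ∑ s, c s * u s < y + 2 * h).card : ℝ) ≤
      (2 * h : ℝ) ^ D * (2 / √(m + 1)) := by
  set X := (Fintype.piFinset fun _ : Fin D => Finset.Ico (0 : ℤ) (2 * h)).filter
      fun u => y ≤ ∑ s, c s * u s ∧ ∑ s, c s * u s < y + 2 * h with hX
  set B := Fintype.piFinset (fun _ : {s : Fin D // s ∉ J} => Finset.Ico (0 : ℤ) (2 * h)) with hB
  let r : (Fin D → ℤ) → ({s : Fin D // s ∉ J} → ℤ) := fun u s => u s
  have hmap : ∀ u ∈ X, r u ∈ B := by
    intro u hu
    rw [hB, Fintype.mem_piFinset]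
    intro s
    exact Fintype.mem_piFinset.1 (mem_filter.1 hu).1 s
  have h1 : X.card = ∑ b ∈ B, (X.filter fun u => r u = b).card :=
    card_eq_sum_card_fiberwise hmap
  set e : Fin J.card ↪o Fin D := J.orderEmbOfFin rfl with he
  have heJ : ∀ i, e i ∈ J := fun i => J.orderEmbOfFin_mem rfl i
  have hrange : ∀ s ∈ J, ∃ i, e i = s := by
    intro s hs
    have := J.range_orderEmbOfFin rfl
    have h2 : s ∈ Set.range (J.orderEmbOfFin rfl) := by rw [this]; exact hs
    exact h2
  have hsumJ : ∀ u : Fin D → ℤ, ∑ s, c s * (u s : ℝ) = ∑ i, c (e i) * (u (e i) : ℝ) := by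
    intro u
    have h2 : ∑ s, c s * (u s : ℝ) = ∑ s ∈ J, c s * (u s : ℝ) := by
      symm
      apply sum_subset (subset_univ _)
      intro s _ hs
      rw [hc0 s hs, zero_mul]
    have h3 : J = univ.image e := by
      ext s
      simp only [mem_image, mem_univ, true_and]
      exact ⟨hrange s, fun ⟨i, hi⟩ => hi ▸ heJ i⟩
    rw [h2]
    conv_lhs => rw [h3]
    rw [sum_image (fun i _ j _ hij => e.injective hij)]
  have hfib : ∀ b ∈ B, ((X.filter fun u => r u = b).card : ℝ) ≤
      (2 * h : ℝ) ^ J.card * (2 / √(m + 1)) := by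
    intro b _
    have h2 := loff J.card h hh (fun i => c (e i)) (fun i => hc _ (heJ i)) y
    refine le_trans ?_ (h2.trans ?_)
    · have h3 : (X.filter fun u => r u = b).card ≤
          ((Fintype.piFinset fun _ : Fin J.card => Finset.Ico (0 : ℤ) (2 * h)).filter
      fun u => y ≤ ∑ s, c (e s) * u s ∧ ∑ s, c (e s) * u s < y + 2 * h).card := by
        apply card_le_card_of_injOn (fun u i => u (e i))
        · intro u hu
          have hu' := mem_filter.1 (mem_filter.1 hu).1
          simp only [coe_filter, Set.mem_setOf_eq]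
          refine ⟨?_, ?_⟩
          · rw [Fintype.mem_piFinset]
            intro i
            exact Fintype.mem_piFinset.1 hu'.1 (e i)
          · rw [← hsumJ u]
            exact hu'.2
        · intro u hu u' hu' huu
          have hr : r u = b := (mem_filter.1 hu).2
          have hr' : r u' = b := (mem_filter.1 hu').2
          funext s
          by_cases hs : s ∈ J
          · obtain ⟨i, hi⟩ := hrange s hs
            rw [← hi]
            exact congrFun huu i
          · have h4 : r u ⟨s, hs⟩ = r u' ⟨s, hs⟩ := by rw [hr, hr']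
            exact h4
      exact_mod_cast h3
    · apply mul_le_mul_of_nonneg_left _ (by positivity)
      apply div_le_div_of_nonneg_left (by norm_num) (Real.sqrt_pos.2 (by positivity))
      apply Real.sqrt_le_sqrt
      have : (m : ℝ) ≤ J.card := by exact_mod_cast hJ
      linarith
  have hBcard : (B.card : ℝ) = (2 * h : ℝ) ^ (D - J.card) := by
    have h2 : B.card = (2 * h) ^ (D - J.card) := by
      rw [hB, Fintype.card_piFinset, prod_const, card_univ, Fintype.card_subtype_compl,
        Fintype.card_coe, Fintype.card_fin, Int.card_Ico]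
      congr 1
    rw [h2]
    push_cast
    rfl
  have hJD : J.card ≤ D := by
    have := card_le_univ J
    simpa using this
  calc (X.card : ℝ) = ∑ b ∈ B, ((X.filter fun u => r u = b).card : ℝ) := by
        rw [h1]; push_cast; rfl
    _ ≤ ∑ b ∈ B, (2 * h : ℝ) ^ J.card * (2 / √(m + 1)) := sum_le_sum hfib
    _ = (2 * h : ℝ) ^ (D - J.card) * ((2 * h : ℝ) ^ J.card * (2 / √(m + 1))) := by
        rw [sum_const, nsmul_eq_mul, hBcard]
    _ = (2 * h : ℝ) ^ D * (2 / √(m + 1)) := by
        rw [← mul_assoc, ← pow_add]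
        congr 2
        omega

open Classical in
theorem ech_count {n h m : ℕ} (hh : 1 ≤ h) {Γ : AddSubgroup (Fin n → ℤ)} {D : ℕ}
    {f : Fin D → Fin n} {P : ℕ} {v : Fin D → Fin n → ℤ} (hL : LD Γ D f P v) (hD : D < n)
    (hunit : ∀ t : Fin n, (Pi.single t 1 : Fin n → ℤ) ∉ sat Γ) (hm : m * (n - D) ≤ D)
    (y : Fin n → ℤ) :
    (((wd0 n (2 * h)).filter fun u => y + u ∈ sat Γ).card : ℝ) ≤
      (2 * h : ℝ) ^ D * (2 / √(m + 1)) := by
  have hPpos : (0 : ℤ) < P := by exact_mod_cast hL.pos
  have hPR : (0 : ℝ) < P := by exact_mod_cast hL.pos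
  -- the bound without a window
  by_cases hm0 : m = 0
  · subst hm0
    have h1 : ((wd0 n (2 * h)).filter fun u => y + u ∈ sat Γ).card ≤ (wd0 D (2 * h)).card := by
      apply card_le_card_of_injOn (fun u s => u (f s))
      · intro u hu
        have hu' := (mem_filter.1 hu).1
        rw [mem_coe]
        exact Fintype.mem_piFinset.2 fun s => Fintype.mem_piFinset.1 hu' (f s)
      · intro u hu u' hu' huu
        have h2 := (mem_filter.1 hu).2
        have h3 := (mem_filter.1 hu').2
        have h4 : (y + u) - (y + u') ∈ sat Γ := (sat Γ).sub_mem h2 h3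
        have h5 := sat_zero hL _ h4 (fun s => by
          have := congrFun huu s
          simp only at this
          simp only [Pi.sub_apply, Pi.add_apply]
          rw [this]
          ring)
        have h6 : u - u' = 0 := by
          rw [← h5]; abel
        exact sub_eq_zero.1 h6
    rw [card_wd0] at h1
    have h2 : ((((wd0 n (2 * h)).filter fun u => y + u ∈ sat Γ).card : ℕ) : ℝ) ≤
        (2 * h : ℝ) ^ D := by
      exact_mod_cast h1
    calc _ ≤ (2 * h : ℝ) ^ D := h2
      _ ≤ (2 * h : ℝ) ^ D * (2 / √((0 : ℕ) + 1)) := by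
        have : (0 : ℝ) ≤ (2 * h : ℝ) ^ D := by positivity
        norm_num
        linarith
  -- step 1
  have step1 : ∀ s : Fin D, ∃ t : Fin n, t ∉ Set.range f ∧ v s t ≠ 0 := by
    intro s
    by_contra hcon
    push Not at hcon
    apply hunit (f s)
    refine ⟨P, hPpos.ne', ?_⟩
    have h1 : (P : ℤ) • (Pi.single (f s) 1 : Fin n → ℤ) = v s := by
      funext t
      by_cases ht : t ∈ Set.range f
      · obtain ⟨s', rfl⟩ := ht
        rw [hL.diag s s', Pi.smul_apply, smul_eq_mul]
        by_cases hs : s = s'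
        · subst hs; simp
        · rw [if_neg hs, Pi.single_eq_of_ne, mul_zero]
          intro h2
          exact hs (hL.inj h2).symm
      · rw [hcon t ht, Pi.smul_apply, smul_eq_mul, Pi.single_eq_of_ne, mul_zero]
        rintro rfl
        exact ht ⟨s, rfl⟩
    rw [h1]
    exact hL.mem s
  choose τ hτ1 hτ2 using step1
  set T : Finset (Fin n) := univ \ univ.image f with hT
  have hTcard : T.card = n - D := by
    rw [hT, card_sdiff_of_subset (subset_univ _), card_image_of_injective _ hL.inj, card_univ,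
      card_univ, Fintype.card_fin, Fintype.card_fin]
  obtain ⟨t, ht, hNt⟩ := exists_le_card_fiber_of_mul_le_card_of_maps_to (s := univ) (t := T)
    (f := τ) (n := m) (fun s _ => by
      rw [hT, mem_sdiff]
      refine ⟨mem_univ _, fun h2 => ?_⟩
      obtain ⟨s', _, hs'⟩ := mem_image.1 h2
      exact hτ1 s ⟨s', hs'⟩) (card_pos.1 (by rw [hTcard]; omega)) (by
      rw [hTcard, card_univ, Fintype.card_fin, mul_comm]; exact hm)
  have htI : ∀ s, f s ≠ t := by
    intro s hs
    rw [hT, mem_sdiff] at ht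
    exact ht.2 (mem_image.2 ⟨s, mem_univ _, hs⟩)
  set J : Finset (Fin D) := univ.filter fun s => v s t ≠ 0 with hJ
  have hJm : m ≤ J.card := by
    refine hNt.trans (card_le_card ?_)
    intro s hs
    have h2 := (mem_filter.1 hs).2
    rw [hJ, mem_filter]
    refine ⟨mem_univ _, ?_⟩
    rw [← h2]
    exact hτ2 s
  have hJne : J.Nonempty := card_pos.1 (by omega)
  obtain ⟨s0, hs0, hmin⟩ := exists_min_image J (fun s => |v s t|) hJne
  have hv0 : v s0 t ≠ 0 := (mem_filter.1 hs0).2
  have hv0R : (v s0 t : ℝ) ≠ 0 := by exact_mod_cast hv0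
  -- new coordinates
  let g : Fin D → Fin n := fun s => if s = s0 then t else f s
  have hg0 : g s0 = t := if_pos rfl
  have hg1 : ∀ s, s ≠ s0 → g s = f s := fun s hs => if_neg hs
  let c : Fin D → ℝ := fun s => if s = s0 then (P : ℝ) / v s0 t else -(v s t : ℝ) / v s0 t
  have hcs0 : c s0 = (P : ℝ) / v s0 t := if_pos rfl
  have hcs : ∀ s, s ≠ s0 → c s = -(v s t : ℝ) / v s0 t := fun s hs => if_neg hs
  have hc : ∀ s ∈ J, 1 ≤ |c s| := by
    intro s hs
    by_cases h2 : s = s0
    · rw [h2, hcs0, abs_div, le_div_iff₀ (abs_pos.2 hv0R), one_mul]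
      have h3 := hL.bd s0 t
      have h4 : (|v s0 t| : ℝ) ≤ P := by exact_mod_cast h3
      rw [abs_of_pos hPR]
      exact h4
    · rw [hcs s h2, abs_div, abs_neg, le_div_iff₀ (abs_pos.2 hv0R), one_mul]
      have h3 := hmin s hs
      exact_mod_cast h3
  have hc0 : ∀ s, s ∉ J → c s = 0 := by
    intro s hs
    have h2 : s ≠ s0 := fun h => hs (h ▸ hs0)
    rw [hcs s h2]
    have h3 : v s t = 0 := by
      by_contra h4
      exact hs (mem_filter.2 ⟨mem_univ _, h4⟩)
    rw [h3]; simp
  -- the relation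
  have hrel : ∀ w ∈ sat Γ, (w (f s0) : ℝ) = ∑ s, c s * (w (g s) : ℝ) := by
    intro w hw
    have h2 := congrFun (sat_eq hL w hw) t
    simp only [Pi.smul_apply, smul_eq_mul, Finset.sum_apply] at h2
    have h3 : (P : ℝ) * w t = ∑ s, (w (f s) : ℝ) * v s t := by exact_mod_cast h2
    rw [← add_sum_erase _ _ (mem_univ s0)] at h3 ⊢
    rw [hcs0, hg0]
    have h4 : ∑ s ∈ univ.erase s0, c s * (w (g s) : ℝ) =
        -(∑ s ∈ univ.erase s0, (w (f s) : ℝ) * v s t) / v s0 t := by
      rw [neg_div, sum_div, ← sum_neg_distrib]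
      refine sum_congr rfl fun s hs => ?_
      rw [hcs s (ne_of_mem_erase hs), hg1 s (ne_of_mem_erase hs)]
      ring
    rw [h4]
    field_simp
    linarith
  -- the counting
  set cst : ℝ := (y (f s0) : ℝ) - ∑ s, c s * (y (g s) : ℝ) with hcst
  have hwin := ech_window D m h hh c J hJm hc hc0 cst
  refine le_trans ?_ hwin
  have hfin : ((wd0 n (2 * h)).filter fun u => y + u ∈ sat Γ).card ≤
      ((Fintype.piFinset fun _ : Fin D => Finset.Ico (0 : ℤ) (2 * h)).filter
      fun u => cst ≤ ∑ s, c s * u s ∧ ∑ s, c s * u s < cst + 2 * h).card := by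
    apply card_le_card_of_injOn (fun u s => u (g s))
    · intro u hu
      have hu1 := (mem_filter.1 hu).1
      have hu2 := (mem_filter.1 hu).2
      have hbx : ∀ j, 0 ≤ u j ∧ u j < 2 * h := by
        intro j
        have h2 := Fintype.mem_piFinset.1 hu1 j
        unfold bx0 at h2
        rw [mem_Ico] at h2
        push_cast at h2
        exact h2
      simp only [coe_filter, Set.mem_setOf_eq]
      refine ⟨?_, ?_⟩
      · rw [Fintype.mem_piFinset]
        intro s
        rw [mem_Ico]
        exact hbx (g s)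
      · have h2 := hrel _ hu2
        simp only [Pi.add_apply, Int.cast_add, mul_add, sum_add_distrib] at h2
        have h3 : ∑ s, c s * (u (g s) : ℝ) = cst + u (f s0) := by
          rw [hcst]; linarith
        rw [h3]
        have h4 := hbx (f s0)
        have h5 : (0 : ℝ) ≤ u (f s0) := by exact_mod_cast h4.1
        have h6 : (u (f s0) : ℝ) < 2 * h := by exact_mod_cast h4.2
        constructor <;> linarith
    · intro u hu u' hu' huu
      have h2 := (mem_filter.1 hu).2
      have h3 := (mem_filter.1 hu').2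
      have h4 : (y + u) - (y + u') ∈ sat Γ := (sat Γ).sub_mem h2 h3
      have h4' : u - u' ∈ sat Γ := by
        have e1 : (y + u) - (y + u') = u - u' := by abel
        rwa [e1] at h4
      have hgz : ∀ s, (u - u') (g s) = 0 := by
        intro s
        have := congrFun huu s
        simp only at this
        simp only [Pi.sub_apply]
        rw [this]
        ring
      have h5 := hrel _ h4'
      have h6 : ((u - u') (f s0) : ℝ) = 0 := by
        rw [h5]
        apply sum_eq_zero
        intro s _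
        rw [hgz s]; simp
      have h7 := sat_zero hL _ h4' (fun s => by
        by_cases h8 : s = s0
        · rw [h8]; exact_mod_cast h6
        · rw [← hg1 s h8]; exact hgz s)
      exact sub_eq_zero.1 h7
  exact_mod_cast hfin

theorem ech {n h m : ℕ} (hh : 1 ≤ h) {Γ : AddSubgroup (Fin n → ℤ)} {D : ℕ} {f : Fin D → Fin n}
    {P : ℕ} {v : Fin D → Fin n → ℤ} (hL : LD Γ D f P v) (hD : D < n)
    (hunit : ∀ t : Fin n, (Pi.single t 1 : Fin n → ℤ) ∉ sat Γ) (hm : m * (n - D) ≤ D)
    (A' : Finset (Fin n → ℤ)) (x : Fin n → ℤ) :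
    ker (wd0 n (2 * h)) A' (sat Γ) x ≤
      (1 / (2 * h : ℝ)) ^ (n - D) * (2 / √(m + 1)) := by
  classical
  have hh0 : (0 : ℝ) < 2 * h := by
    have : (1 : ℝ) ≤ h := by exact_mod_cast hh
    linarith
  unfold ker
  rcases A'.eq_empty_or_nonempty with hA | hA
  · subst hA
    simp only [card_empty, Nat.cast_zero, mul_zero, div_zero]
    positivity
  have hA0 : (0 : ℝ) < A'.card := by exact_mod_cast card_pos.2 hA
  rw [card_wd0]
  push_cast
  rw [div_le_iff₀ (by positivity)]
  have h1 : ((wd0 n (2 * h) ×ˢ A').filter fun u => x + u.1 + u.2 ∈ sat Γ).card =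
      ∑ u' ∈ A', ((wd0 n (2 * h)).filter fun u => (x + u') + u ∈ sat Γ).card := by
    have hmap : ∀ u ∈ ((wd0 n (2 * h) ×ˢ A').filter fun u => x + u.1 + u.2 ∈ sat Γ),
        u.2 ∈ A' := fun u hu => (mem_product.1 (mem_filter.1 hu).1).2
    rw [card_eq_sum_card_fiberwise hmap]
    refine sum_congr rfl fun u' hu' => ?_
    apply card_bij (fun u _ => u.1)
    · intro u hu
      have h2 := mem_filter.1 hu
      have h3 := mem_filter.1 h2.1
      rw [mem_filter]
      refine ⟨(mem_product.1 h3.1).1, ?_⟩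
      have h4 := h3.2
      rw [h2.2] at h4
      have e : x + u' + u.1 = x + u.1 + u' := by abel
      rw [e]
      exact h4
    · intro u hu w hw huw
      have h2 := (mem_filter.1 hu).2
      have h3 := (mem_filter.1 hw).2
      exact Prod.ext huw (h2.trans h3.symm)
    · intro u hu
      have h2 := mem_filter.1 hu
      refine ⟨(u, u'), ?_, rfl⟩
      rw [mem_filter, mem_filter, mem_product]
      refine ⟨⟨⟨h2.1, hu'⟩, ?_⟩, rfl⟩
      have e : x + u + u' = x + u' + u := by abel
      simp only
      rw [e]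
      exact h2.2
  have h2 : ((((wd0 n (2 * h) ×ˢ A').filter fun u => x + u.1 + u.2 ∈ sat Γ).card : ℕ) : ℝ) ≤
      A'.card * ((2 * h : ℝ) ^ D * (2 / √(m + 1))) := by
    rw [h1]
    push_cast
    calc ∑ u' ∈ A', (((wd0 n (2 * h)).filter fun u => (x + u') + u ∈ sat Γ).card : ℝ)
        ≤ ∑ u' ∈ A', (2 * h : ℝ) ^ D * (2 / √(m + 1)) :=
          sum_le_sum fun u' _ => ech_count hh hL hD hunit hm _
      _ = _ := by rw [sum_const, nsmul_eq_mul]
  refine le_trans (le_of_eq ?_) (h2.trans (le_of_eq ?_))
  · congr!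
  · have h3 : (2 * h : ℝ) ^ n = (2 * h : ℝ) ^ D * (2 * h : ℝ) ^ (n - D) := by
      rw [← pow_add]; congr 1; omega
    rw [h3, one_div, inv_pow]
    field_simp

end DiamAb
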