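import Mathlib
import Pool.Agent.Lib_MP_0ccc25_pr.DefsB

/-!
Piece PIVOT. Bound of the weight of tuples of words whose columns lie in a subspace, by the
maximal weight of a word.

PROOF. If `A` or `A'` is empty then every kernel is `0` (division by zero convention, the numerator is `0`); if `k = 0` the product over `i`
is `1` (treat uniformly below). Expand the product of kernels:
`Π_i ker A A' V (X^T i) = (|A| |A'|) ^ (-k) #{η : Fin k → A ×ˢ A' | ∀ i, X^T i + (η i).1 + (η i).2 ∈ V}`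
(`Finset.prod_univ_sum` for indicators). So it suffices to show, for each fixed `y : Fin k → Fin n → ℤ` (`y i = (η i).1 + (η i).2`),
`Σ_{X : Fin n → T} Π_s p (X s) [∀ i, X^T i + y i ∈ V] ≤ pm ^ (n - D)`, and then average over `η`
(the number of `η` is `(|A| |A'|) ^ k`).
For fixed `y`: two admissible `X, X'` with `X (f s) = X' (f s)` for all `s` are equal: `X^T i - X'^T i ∈ V` vanishes on `f`, so it is
zero for every `i`. So `X` is determined by its restriction to the range of `f`; bounding `p (X t) ≤ pm` for the `n - D` indices `t` outside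
the range of `f` (which is injective): the sum is at most `pm ^ (n - D) Σ_{X' : Fin D → T} Π_s p (X' s) = pm ^ (n - D) (Σ_T p) ^ D ≤ pm ^ (n - D)`.
-/

namespace DiamAb

open Finset

theorem pivot_fixed {n k D : ℕ} (f : Fin D → Fin n) (hf : Function.Injective f)
    (V : AddSubgroup (Fin n → ℤ)) (hV : ∀ w ∈ V, (∀ s, w (f s) = 0) → w = 0)
    (T : Finset (Fin k → ℤ)) (p : (Fin k → ℤ) → ℝ) (hp : ∀ w, 0 ≤ p w) (hp1 : ∑ w ∈ T, p w ≤ 1)
    (pm : ℝ) (hpm0 : 0 ≤ pm) (hpm : ∀ w ∈ T, p w ≤ pm) (S : Finset (Fin n → Fin k → ℤ))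
    (y : Fin k → Fin n → ℤ) (hST : ∀ X ∈ S, ∀ s, X s ∈ T)
    (hS : ∀ X ∈ S, ∀ i, (fun s => X s i) + y i ∈ V) :
    ∑ X ∈ S, ∏ s, p (X s) ≤ pm ^ (n - D) := by
  classical
  have h1 : ∀ X ∈ S, ∏ s, p (X s) ≤ pm ^ (n - D) * ∏ s : Fin D, p (X (f s)) := by
    intro X hX
    rw [← Finset.prod_sdiff (Finset.subset_univ (Finset.univ.image f)),
      Finset.prod_image (fun a _ b _ h => hf h)]
    apply mul_le_mul_of_nonneg_right _ (Finset.prod_nonneg fun s _ => hp _)
    calc ∏ s ∈ univ \ univ.image f, p (X s) ≤ ∏ _s ∈ univ \ univ.image f, pm :=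
          Finset.prod_le_prod (fun s _ => hp _) (fun s _ => hpm _ (hST X hX s))
      _ = pm ^ (n - D) := by
          rw [Finset.prod_const, Finset.card_sdiff_of_subset (Finset.subset_univ _),
            Finset.card_image_of_injective _ hf]
          simp
  have hinj : Set.InjOn (fun X : Fin n → Fin k → ℤ => fun s : Fin D => X (f s)) S := by
    intro X hX X' hX' hXX
    have hX1 : X ∈ S := hX
    have hX1' : X' ∈ S := hX'
    funext t i
    have h2 : (fun s => X s i) - (fun s => X' s i) ∈ V := by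
      have := V.sub_mem (hS X hX1 i) (hS X' hX1' i)
      rwa [add_sub_add_right_eq_sub] at this
    have h3 := hV _ h2 (fun s => by
      have := congrFun (congrFun hXX s) i
      simp only [Pi.sub_apply]
      exact sub_eq_zero.2 this)
    have := congrFun h3 t
    simp only [Pi.sub_apply, Pi.zero_apply] at this
    exact sub_eq_zero.1 this
  calc ∑ X ∈ S, ∏ s, p (X s) ≤ ∑ X ∈ S, pm ^ (n - D) * ∏ s : Fin D, p (X (f s)) :=
        Finset.sum_le_sum h1
    _ = pm ^ (n - D) * ∑ X ∈ S, ∏ s : Fin D, p (X (f s)) := by rw [Finset.mul_sum]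
    _ = pm ^ (n - D) * ∑ Y ∈ S.image (fun X : Fin n → Fin k → ℤ => fun s : Fin D => X (f s)),
          ∏ s : Fin D, p (Y s) := by
        rw [Finset.sum_image hinj]
    _ ≤ pm ^ (n - D) * ∑ Y ∈ Fintype.piFinset (fun _ : Fin D => T), ∏ s : Fin D, p (Y s) := by
        apply mul_le_mul_of_nonneg_left _ (pow_nonneg hpm0 _)
        apply Finset.sum_le_sum_of_subset_of_nonneg
        · intro Y hY
          rw [mem_image] at hY
          obtain ⟨X, hX, rfl⟩ := hY
          rw [Fintype.mem_piFinset]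
          intro s
          exact hST X hX (f s)
        · intro Y _ _
          exact Finset.prod_nonneg fun s _ => hp _
    _ = pm ^ (n - D) * (∑ w ∈ T, p w) ^ D := by
        congr 1
        have := Finset.prod_univ_sum (fun _ : Fin D => T) (fun _ w => p w)
        rw [← this]
        simp
    _ ≤ pm ^ (n - D) * 1 := by
        apply mul_le_mul_of_nonneg_left _ (pow_nonneg hpm0 _)
        exact pow_le_one₀ (Finset.sum_nonneg fun w _ => hp w) hp1
    _ = pm ^ (n - D) := mul_one _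

theorem pivot {n k D : ℕ} (f : Fin D → Fin n) (hf : Function.Injective f)
    (V : AddSubgroup (Fin n → ℤ)) (hV : ∀ w ∈ V, (∀ s, w (f s) = 0) → w = 0)
    (T : Finset (Fin k → ℤ)) (p : (Fin k → ℤ) → ℝ) (hp : ∀ w, 0 ≤ p w) (hp1 : ∑ w ∈ T, p w ≤ 1)
    (pm : ℝ) (hpm0 : 0 ≤ pm) (hpm : ∀ w ∈ T, p w ≤ pm) (A A' : Finset (Fin n → ℤ)) :
    ∑ X ∈ Fintype.piFinset (fun _ : Fin n => T), (∏ s, p (X s)) *
      ∏ i, ker A A' V (fun s => X s i) ≤ pm ^ (n - D) := by
  classical
  set Nn : ℝ := (A.card : ℝ) * A'.card with hNn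
  have hN0 : 0 ≤ Nn := by positivity
  have hker : ∀ x : Fin n → ℤ, ker A A' V x =
      Nn⁻¹ * ∑ u ∈ A ×ˢ A', (if x + u.1 + u.2 ∈ V then (1 : ℝ) else 0) := by
    intro x
    unfold ker
    rw [div_eq_inv_mul, Finset.sum_boole]
  have hprod : ∀ X : Fin n → Fin k → ℤ, ∏ i, ker A A' V (fun s => X s i) =
      (Nn⁻¹) ^ k * ∑ η ∈ Fintype.piFinset (fun _ : Fin k => A ×ˢ A'),
        ∏ i, (if (fun s => X s i) + (η i).1 + (η i).2 ∈ V then (1 : ℝ) else 0) := by
    intro X
    simp_rw [hker]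
    rw [Finset.prod_mul_distrib, Finset.prod_const, Finset.card_univ, Fintype.card_fin,
      Finset.prod_univ_sum]
  simp_rw [hprod]
  have hswap : ∑ X ∈ Fintype.piFinset (fun _ : Fin n => T), (∏ s, p (X s)) *
      ((Nn⁻¹) ^ k * ∑ η ∈ Fintype.piFinset (fun _ : Fin k => A ×ˢ A'),
        ∏ i, (if (fun s => X s i) + (η i).1 + (η i).2 ∈ V then (1 : ℝ) else 0)) =
      (Nn⁻¹) ^ k * ∑ η ∈ Fintype.piFinset (fun _ : Fin k => A ×ˢ A'),
        ∑ X ∈ Fintype.piFinset (fun _ : Fin n => T), (∏ s, p (X s)) *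
          ∏ i, (if (fun s => X s i) + (η i).1 + (η i).2 ∈ V then (1 : ℝ) else 0) := by
    rw [Finset.sum_comm, Finset.mul_sum]
    refine Finset.sum_congr rfl fun X _ => ?_
    rw [Finset.mul_sum, Finset.mul_sum, Finset.mul_sum]
    refine Finset.sum_congr rfl fun η _ => ?_
    ring
  rw [hswap]
  have hfix : ∀ η ∈ Fintype.piFinset (fun _ : Fin k => A ×ˢ A'),
      ∑ X ∈ Fintype.piFinset (fun _ : Fin n => T), (∏ s, p (X s)) *
          ∏ i, (if (fun s => X s i) + (η i).1 + (η i).2 ∈ V then (1 : ℝ) else 0) ≤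
        pm ^ (n - D) := by
    intro η _
    have h2 : ∑ X ∈ Fintype.piFinset (fun _ : Fin n => T), (∏ s, p (X s)) *
          ∏ i, (if (fun s => X s i) + (η i).1 + (η i).2 ∈ V then (1 : ℝ) else 0) =
        ∑ X ∈ (Fintype.piFinset (fun _ : Fin n => T)).filter
          (fun X => ∀ i, (fun s => X s i) + (η i).1 + (η i).2 ∈ V), ∏ s, p (X s) := by
      rw [Finset.sum_filter]
      refine Finset.sum_congr rfl fun X _ => ?_
      by_cases h : ∀ i, (fun s => X s i) + (η i).1 + (η i).2 ∈ V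
      · rw [if_pos h, Finset.prod_eq_one (fun i _ => if_pos (h i)), mul_one]
      · rw [if_neg h]
        push Not at h
        obtain ⟨i, hi⟩ := h
        rw [Finset.prod_eq_zero (Finset.mem_univ i) (if_neg hi), mul_zero]
    rw [h2]
    refine pivot_fixed f hf V hV T p hp hp1 pm hpm0 hpm _ (fun i => (η i).1 + (η i).2) ?_ ?_
    · intro X hX s
      rw [mem_filter, Fintype.mem_piFinset] at hX
      exact hX.1 s
    · intro X hX i
      rw [mem_filter] at hX
      have := hX.2 i
      rwa [add_assoc] at this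
  calc (Nn⁻¹) ^ k * ∑ η ∈ Fintype.piFinset (fun _ : Fin k => A ×ˢ A'),
        ∑ X ∈ Fintype.piFinset (fun _ : Fin n => T), (∏ s, p (X s)) *
          ∏ i, (if (fun s => X s i) + (η i).1 + (η i).2 ∈ V then (1 : ℝ) else 0)
      ≤ (Nn⁻¹) ^ k * ∑ _η ∈ Fintype.piFinset (fun _ : Fin k => A ×ˢ A'), pm ^ (n - D) := by
        apply mul_le_mul_of_nonneg_left (Finset.sum_le_sum hfix)
        positivity
    _ = (Nn⁻¹ * Nn) ^ k * pm ^ (n - D) := by
        rw [Finset.sum_const, nsmul_eq_mul, Fintype.card_piFinset_const, Finset.card_product,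
          mul_pow]
        push_cast
        rw [hNn]
        ring
    _ ≤ 1 * pm ^ (n - D) := by
        apply mul_le_mul_of_nonneg_right _ (pow_nonneg hpm0 _)
        apply pow_le_one₀ (by positivity)
        exact inv_mul_le_one
    _ = pm ^ (n - D) := one_mul _

end DiamAb
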