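import Mathlib
import Pool.Agent.Lib_MP_0ccc25_pr.KerB
import Pool.Agent.Lib_MP_0ccc25_pr.HomFree
import Pool.Agent.Lib_MP_0ccc25_pr.HomRel
import Pool.Agent.Lib_MP_0ccc25_pr.LatData
import Pool.Agent.Lib_MP_0ccc25_pr.Pivot
import Pool.Agent.Lib_MP_0ccc25_pr.Ech

/-!
Piece SMALLTERM. Bound for the term of a subgroup with small index `P ≤ P0` which occurs for a
tuple of characters of orders above `P0`.

PROOF. Let `V = sat Γ`, `F = Γ.relIndex V`, `1 ≤ F ≤ P`, `ρ = n - D`.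
(1) No unit vector `e_t` is in `V`: otherwise, with `χ` as in the hypothesis: `P e_t = Σ_s e_t (f s) v s ∈ Γ` (`sat_eq`), and
`Γ ≤ Kc χ` gives `χ_t ^ P = 1`, so `orderOf (χ t) ≤ P ≤ P0`, contradiction. Hence `D < n`: if `D = n` then `f` is a bijection and
`v s = P e_(f s) ∈ Γ`, so `e_(f s) ∈ V` (here `n ≥ 1`).
(2) By `hom_rel`, `hom_free`, `ker_coset`: with `Q = Σ_X (Π p) Π_i ker (wd0 n l) (wda n l (n P)) V (col i)`,
`tm ≤ |G| ^ ρ F ^ rank * (((l + 2 n P) / l) ^ n / F) ^ k * Q ≤ |G| ^ ρ * F ^ (rank - k) * 2 * Q ≤ 2 |G| ^ ρ Q`, since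
`((l + 2 n P) / l) ^ (n k) ≤ ((l + 2 n P0) / l) ^ (n k) ≤ 2` and `rank ≤ k`, `F ≥ 1`.
(3) If `ρ ≥ ρ0`: `pivot` with `pm = exp (-c k) / |G|` (`hV` from `sat_zero`): `Q ≤ pm ^ ρ`, so `tm ≤ 2 exp (-c k ρ) ≤ 2 (exp (-c ρ0)) ^ k ≤ 2 δ ^ k`.
(4) If `ρ < ρ0`: `m0 ρ ≤ m0 ρ0 ≤ n - ρ0 ≤ n - ρ = D`, so `ech` (`l = 2 h`) gives for each `i` that the kernel is at most
`(1 / l) ^ ρ * (2 / √(m0 + 1))`, so, as `Σ_X Π p ≤ 1`, `Q ≤ ((1 / l) ^ ρ (2 / √(m0 + 1))) ^ k` and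
`|G| ^ ρ = (S ^ ρ) ^ k`, `(S / l) ^ ρ ≤ (1 / a) ^ ρ ≤ (1 / a) ^ ρ0` (`a ≤ 1`): `tm ≤ 2 ((1 / a) ^ ρ0 (2 / √(m0 + 1))) ^ k ≤ 2 δ ^ k`.
-/

namespace DiamAb

open Finset

theorem smallterm_sum {n k : ℕ} (T : Finset (Fin k → ℤ)) (p : (Fin k → ℤ) → ℝ)
    (hp : ∀ w, 0 ≤ p w) (hp1 : ∑ w ∈ T, p w ≤ 1) (K : (Fin n → ℤ) → ℝ) (κ : ℝ) (hκ : 0 ≤ κ)
    (hK0 : ∀ x, 0 ≤ K x) (hK : ∀ x, K x ≤ κ) :
    ∑ X ∈ Fintype.piFinset (fun _ : Fin n => T), (∏ s, p (X s)) * ∏ i, K (fun s => X s i)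
      ≤ κ ^ k := by
  have h1 : ∀ X ∈ Fintype.piFinset (fun _ : Fin n => T),
      (∏ s, p (X s)) * ∏ i, K (fun s => X s i) ≤ (∏ s, p (X s)) * κ ^ k := by
    intro X _
    apply mul_le_mul_of_nonneg_left _ (prod_nonneg fun s _ => hp _)
    calc ∏ i, K (fun s => X s i) ≤ ∏ _i : Fin k, κ :=
          prod_le_prod (fun i _ => hK0 _) (fun i _ => hK _)
      _ = κ ^ k := by simp
  refine le_trans (sum_le_sum h1) ?_
  rw [← sum_mul]
  have h2 : ∑ X ∈ Fintype.piFinset (fun _ : Fin n => T), (∏ s, p (X s)) = (∑ w ∈ T, p w) ^ n := by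
    rw [← Finset.prod_univ_sum (fun _ : Fin n => T) (fun _ w => p w)]
    simp
  rw [h2]
  have h3 : (∑ w ∈ T, p w) ^ n ≤ 1 := pow_le_one₀ (sum_nonneg fun w _ => hp w) hp1
  have h4 : 0 ≤ κ ^ k := pow_nonneg hκ k
  nlinarith

/-- a subgroup with small index which occurs has no unit vector in its saturation -/
theorem smallterm_unit {G : Type} [AddCommGroup G] {n P0 : ℕ} {Γ : AddSubgroup (Fin n → ℤ)}
    {D : ℕ} {f : Fin D → Fin n} {P : ℕ} {v : Fin D → Fin n → ℤ} (hL : LD Γ D f P v)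
    (hP : P ≤ P0) (χ : Fin n → AddChar G ℂ) (h1 : Γ ≤ Kc χ) (h2 : ∀ s, P0 < orderOf (χ s))
    (t : Fin n) : (Pi.single t 1 : Fin n → ℤ) ∉ sat Γ := by
  intro hmem
  have e := sat_eq hL _ hmem
  have hΓ : (P : ℤ) • (Pi.single t 1 : Fin n → ℤ) ∈ Γ := by
    rw [e]
    exact AddSubgroup.sum_mem _ fun s _ => Γ.zsmul_mem (hL.mem s) _
  have h3 : ∏ s, χ s ^ (((P : ℤ) • (Pi.single t 1 : Fin n → ℤ)) s) = 1 := h1 hΓ
  rw [Finset.prod_eq_single t] at h3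
  · simp only [Pi.smul_apply, Pi.single_eq_same, smul_eq_mul, mul_one, zpow_natCast] at h3
    have h4 := orderOf_le_of_pow_eq_one hL.pos h3
    have h5 := h2 t
    omega
  · intro s _ hs
    simp [Pi.single_apply, hs]
  · intro h; exact absurd (Finset.mem_univ t) h

theorem smallterm_lt {n : ℕ} {Γ : AddSubgroup (Fin n → ℤ)}
    {D : ℕ} {f : Fin D → Fin n} {P : ℕ} {v : Fin D → Fin n → ℤ} (hL : LD Γ D f P v) (hn : 1 ≤ n)
    (hunit : ∀ t : Fin n, (Pi.single t 1 : Fin n → ℤ) ∉ sat Γ) : D < n := by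
  refine lt_of_le_of_ne hL.le fun hD => ?_
  have hbij : Function.Bijective f :=
    (Fintype.bijective_iff_injective_and_card f).2 ⟨hL.inj, by simp [hD]⟩
  obtain ⟨s, hs⟩ := hbij.2 ⟨0, hn⟩
  apply hunit (f s)
  refine ⟨(P : ℤ), by exact_mod_cast (Nat.pos_iff_ne_zero.1 hL.pos), ?_⟩
  have e : (P : ℤ) • (Pi.single (f s) 1 : Fin n → ℤ) = v s := by
    funext t
    obtain ⟨s', rfl⟩ := hbij.2 t
    rw [hL.diag s s']
    by_cases hss : s = s'
    · subst hss; simp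
    · rw [if_neg hss]
      have : f s' ≠ f s := fun h => hss (hL.inj h).symm
      simp [Pi.single_apply, this]
  rw [e]
  exact hL.mem s

theorem small_term {G : Type} [AddCommGroup G] [Fintype G] {n k h P0 ρ0 m0 : ℕ}
    (T : Finset (Fin k → ℤ)) (p : (Fin k → ℤ) → ℝ) (S a c δ : ℝ) (hS : S ^ k = Fintype.card G)
    (hS1 : 1 ≤ S) (ha : 0 < a) (ha1 : a ≤ 1) (hal : a * S ≤ 2 * h) (hh : 1 ≤ h)
    (hp : ∀ w, 0 ≤ p w) (hp1 : ∑ w ∈ T, p w ≤ 1) (hc : 0 < c)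
    (hpm : ∀ w ∈ T, p w ≤ Real.exp (-c * k) / Fintype.card G) {Γ : AddSubgroup (Fin n → ℤ)}
    {D : ℕ} {f : Fin D → Fin n} {P : ℕ} {v : Fin D → Fin n → ℤ} (hL : LD Γ D f P v)
    (hP : P ≤ P0) (hχ : ∃ χ : Fin n → AddChar G ℂ, Γ ≤ Kc χ ∧ ∀ s, P0 < orderOf (χ s))
    (hn : 1 ≤ n) (hk : AddGroup.rank G ≤ k)
    (hno : (((2 * h : ℝ) + 2 * (n * P0)) / (2 * h)) ^ (n * k) ≤ 2) (hρ : 1 ≤ ρ0)
    (hm : (m0 + 1) * ρ0 ≤ n) (hδ1 : Real.exp (-c * ρ0) ≤ δ)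
    (hδ2 : (1 / a) ^ ρ0 * (2 / √(m0 + 1)) ≤ δ) :
    tm G T p (2 * h) Γ ≤ 2 * δ ^ k := by
  classical
  obtain ⟨χ, hχ1, hχ2⟩ := hχ
  have hunit := smallterm_unit hL hP χ hχ1 hχ2
  have hDn : D < n := smallterm_lt hL hn hunit
  have hS0 : 0 < S := by linarith
  have hG0 : (0 : ℝ) < Fintype.card G := by rw [← hS]; positivity
  have hhR : (0 : ℝ) < h := by exact_mod_cast hh
  set F : ℕ := Γ.relIndex (sat Γ) with hF
  have hF0 : F ≠ 0 := (sat_fin hL).1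
  have hF1 : (1 : ℝ) ≤ F := by exact_mod_cast Nat.pos_iff_ne_zero.2 hF0
  have hFp : (0 : ℝ) < F := by linarith
  set Q : ℝ := ∑ X ∈ Fintype.piFinset (fun _ : Fin n => T), (∏ s, p (X s)) *
    ∏ i, ker (wd0 n (2 * h)) (wda n (2 * h) (n * P)) (sat Γ) (fun s => X s i) with hQ
  have hQ0 : 0 ≤ Q := by
    apply sum_nonneg
    intro X _
    exact mul_nonneg (prod_nonneg fun s _ => hp _) (prod_nonneg fun i _ => ker_nonneg _ _ _ _)
  -- replacing the kernel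
  set R : ℝ := (((2 * h : ℕ) : ℝ) + 2 * (n * P)) / ((2 * h : ℕ) : ℝ) with hR
  have hR0 : 0 ≤ R := by positivity
  have hRk : (R ^ n) ^ k ≤ 2 := by
    rw [← pow_mul]
    refine le_trans (pow_le_pow_left₀ hR0 ?_ _) hno
    rw [hR]
    push_cast
    apply div_le_div_of_nonneg_right _ (by positivity)
    have : (P : ℝ) ≤ P0 := by exact_mod_cast hP
    have h2 : (n : ℝ) * P ≤ n * P0 := mul_le_mul_of_nonneg_left this (by positivity)
    linarith
  have hsum : ∑ X ∈ Fintype.piFinset (fun _ : Fin n => T), (∏ s, p (X s)) *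
      ∏ i, ker (wd0 n (2 * h)) (wd0 n (2 * h)) Γ (fun s => X s i) ≤ 2 / (F : ℝ) ^ k * Q := by
    rw [hQ, mul_sum]
    apply sum_le_sum
    intro X _
    have hpp : 0 ≤ ∏ s, p (X s) := prod_nonneg fun s _ => hp _
    have h1 : ∏ i, ker (wd0 n (2 * h)) (wd0 n (2 * h)) Γ (fun s => X s i)
        ≤ ∏ i, (R ^ n / F * ker (wd0 n (2 * h)) (wda n (2 * h) (n * P)) (sat Γ)
          (fun s => X s i)) := by
      apply prod_le_prod
      · intro i _; exact ker_nonneg _ _ _ _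
      · intro i _
        exact ker_coset (by omega) hL (fun s => X s i)
    rw [prod_mul_distrib, prod_const, card_univ, Fintype.card_fin, div_pow] at h1
    have hK0 : 0 ≤ ∏ i, ker (wd0 n (2 * h)) (wda n (2 * h) (n * P)) (sat Γ)
        (fun s => X s i) := prod_nonneg fun i _ => ker_nonneg _ _ _ _
    have h2 : (R ^ n) ^ k / (F : ℝ) ^ k ≤ 2 / (F : ℝ) ^ k :=
      div_le_div_of_nonneg_right hRk (by positivity)
    have h3 := h1.trans (mul_le_mul_of_nonneg_right h2 hK0)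
    calc _ ≤ (∏ s, p (X s)) * (2 / (F : ℝ) ^ k * ∏ i, ker (wd0 n (2 * h))
          (wda n (2 * h) (n * P)) (sat Γ) (fun s => X s i)) :=
          mul_le_mul_of_nonneg_left h3 hpp
      _ = _ := by ring
  have hchi : ((univ.filter fun χ : Fin n → AddChar G ℂ => Γ ≤ Kc χ).card : ℝ)
      ≤ (Fintype.card G : ℝ) ^ (n - D) * (F : ℝ) ^ k := by
    have h1 := hom_rel G Γ (sat_fin hL).1
    have h2 := hom_free G hL
    have h4 : (univ.filter fun χ : Fin n → AddChar G ℂ => Γ ≤ Kc χ).card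
        ≤ Fintype.card G ^ (n - D) * F ^ k := by
      refine h1.trans (Nat.mul_le_mul h2 ?_)
      exact Nat.pow_le_pow_right (Nat.pos_iff_ne_zero.2 hF0) hk
    exact_mod_cast h4
  have htm : tm G T p (2 * h) Γ ≤ 2 * ((Fintype.card G : ℝ) ^ (n - D) * Q) := by
    unfold tm
    have hfin : ((univ.filter fun χ : Fin n → AddChar G ℂ => Γ ≤ Kc χ).card : ℝ) *
        ∑ X ∈ Fintype.piFinset (fun _ : Fin n => T), (∏ s, p (X s)) *
          ∏ i, ker (wd0 n (2 * h)) (wd0 n (2 * h)) Γ (fun s => X s i)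
        ≤ (Fintype.card G : ℝ) ^ (n - D) * (F : ℝ) ^ k * (2 / (F : ℝ) ^ k * Q) := by
      apply mul_le_mul hchi hsum _ (by positivity)
      apply sum_nonneg
      intro X _
      exact mul_nonneg (prod_nonneg fun s _ => hp _) (prod_nonneg fun i _ => ker_nonneg _ _ _ _)
    refine le_trans (le_trans (le_of_eq ?_) hfin) (le_of_eq ?_)
    · congr!
    · field_simp
  refine htm.trans ?_
  apply mul_le_mul_of_nonneg_left _ (by norm_num)
  rcases le_or_gt ρ0 (n - D) with hcase | hcase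
  · -- large codimension
    have hpiv := pivot f hL.inj (sat Γ) (fun w hw h0 => sat_zero hL w hw h0) T p hp hp1
      (Real.exp (-c * k) / Fintype.card G) (by positivity) hpm (wd0 n (2 * h))
      (wda n (2 * h) (n * P))
    have h1 : (Fintype.card G : ℝ) ^ (n - D) * Q
        ≤ (Fintype.card G : ℝ) ^ (n - D) * (Real.exp (-c * k) / Fintype.card G) ^ (n - D) :=
      mul_le_mul_of_nonneg_left hpiv (by positivity)
    refine h1.trans ?_
    rw [← mul_pow, mul_div_cancel₀ _ hG0.ne', ← Real.exp_nat_mul]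
    have h2 : Real.exp (-c * ρ0) ^ k ≤ δ ^ k :=
      pow_le_pow_left₀ (Real.exp_pos _).le hδ1 k
    refine le_trans ?_ h2
    rw [← Real.exp_nat_mul]
    apply Real.exp_le_exp.2
    have h3 : (ρ0 : ℝ) ≤ ((n - D : ℕ) : ℝ) := by exact_mod_cast hcase
    have h4 : 0 ≤ c * k := by positivity
    nlinarith [mul_le_mul_of_nonneg_left h3 h4]
  · -- small codimension
    have hmD : m0 * (n - D) ≤ D := by
      have h1 : m0 * (n - D) ≤ m0 * ρ0 := Nat.mul_le_mul_left _ hcase.le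
      have h2 : (m0 + 1) * ρ0 = m0 * ρ0 + ρ0 := by ring
      omega
    have hker := ech hh hL hDn hunit hmD (wda n (2 * h) (n * P))
    have hsq : 0 < √((m0 : ℝ) + 1) := Real.sqrt_pos.2 (by positivity)
    have hQ1 : Q ≤ ((1 / (2 * h : ℝ)) ^ (n - D) * (2 / √(m0 + 1))) ^ k := by
      rw [hQ]
      exact smallterm_sum T p hp hp1 (ker (wd0 n (2 * h)) (wda n (2 * h) (n * P)) (sat Γ)) _
        (by positivity) (fun x => ker_nonneg _ _ _ x) hker
    have h1 : (Fintype.card G : ℝ) ^ (n - D) * Q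
        ≤ (Fintype.card G : ℝ) ^ (n - D) *
          ((1 / (2 * h : ℝ)) ^ (n - D) * (2 / √(m0 + 1))) ^ k :=
      mul_le_mul_of_nonneg_left hQ1 (by positivity)
    refine h1.trans ?_
    have h2 : (Fintype.card G : ℝ) ^ (n - D) *
        ((1 / (2 * h : ℝ)) ^ (n - D) * (2 / √(m0 + 1))) ^ k
        = ((S / (2 * h)) ^ (n - D) * (2 / √(m0 + 1))) ^ k := by
      rw [← hS, ← pow_mul, mul_comm k (n - D), pow_mul, ← mul_pow, ← mul_assoc, ← mul_pow,
        mul_one_div]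
    rw [h2]
    apply pow_le_pow_left₀ (by positivity)
    refine le_trans ?_ hδ2
    apply mul_le_mul_of_nonneg_right _ (by positivity)
    have h3 : S / (2 * h) ≤ 1 / a := by
      rw [div_le_div_iff₀ (by positivity) ha]
      linarith
    have h4 : 1 ≤ 1 / a := by rw [le_div_iff₀ ha]; linarith
    calc (S / (2 * h)) ^ (n - D) ≤ (1 / a) ^ (n - D) := pow_le_pow_left₀ (by positivity) h3 _
      _ ≤ (1 / a) ^ ρ0 := pow_le_pow_right₀ h4 hcase.le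

end DiamAb
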