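import Mathlib
import Pool.Agent.Lib_MP_0ccc25_pr.DefsB

/-!
Piece GENS. Few subgroups have a given index `P` in well conditioned coordinates.

PROOF. Let `LD Γ D f P v` and `b` from `gen`. Put `b' i = b i - Σ_s (b i (f s) / P) • v s` (floor division). Then `b' i ∈ Γ`,
`0 ≤ b' i (f s) < P`, and `P b' i = Σ_s b' i (f s) v s` (the difference is in `Γ` and vanishes on `f`), so
`|b' i t| ≤ D P ≤ n P`. The vectors `b' i` and `v s` (at most `2 D ≤ 2 n` vectors, all with entries at most `n P` in absolute value)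
generate `Γ`. Padding with zeros, `Γ = closure (range y)` for some `y : Fin (2 n) → (box of radius n P)`. The box has
`(2 n P + 1) ^ n` elements, so there are at most `((2 n P + 1) ^ n) ^ (2 n)` tuples, and `Γ` is determined by the tuple.
-/

namespace DiamAb

open Finset

/-- reduced generators of a subgroup with well conditioned coordinates -/
theorem gens_red {n P : ℕ} {Γ : AddSubgroup (Fin n → ℤ)} {D : ℕ} {f : Fin D → Fin n}
    {v : Fin D → Fin n → ℤ} (hL : LD Γ D f P v) (b : Fin n → ℤ) (hb : b ∈ Γ) :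
    (b - ∑ s, (b (f s) / (P : ℤ)) • v s) ∈ Γ ∧
      ∀ t, |(b - ∑ s, (b (f s) / (P : ℤ)) • v s) t| ≤ (n * P : ℕ) := by
  have hP : (0 : ℤ) < P := by exact_mod_cast hL.pos
  set b' : Fin n → ℤ := b - ∑ s, (b (f s) / (P : ℤ)) • v s with hb'
  have hmem : b' ∈ Γ := Γ.sub_mem hb (Γ.sum_mem fun s _ => Γ.zsmul_mem (hL.mem s) _)
  have hDn : D ≤ n := by simpa using Fintype.card_le_of_injective f hL.inj
  have hf : ∀ s, b' (f s) = b (f s) % P := by
    intro s
    have h1 : (∑ s', (b (f s') / (P : ℤ)) • v s') (f s) = (b (f s) / (P : ℤ)) * P := by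
      rw [Finset.sum_apply, Finset.sum_eq_single s]
      · simp [hL.diag]
      · intro s' _ hs'
        simp [hL.diag, hs']
      · intro hs; exact absurd (mem_univ s) hs
    rw [hb', Pi.sub_apply, h1, Int.emod_def]
    ring
  have hkey : (P : ℤ) • b' = ∑ s, (b' (f s)) • v s := by
    rw [← sub_eq_zero]
    apply hL.zero
    · exact Γ.sub_mem (Γ.zsmul_mem hmem _) (Γ.sum_mem fun s _ => Γ.zsmul_mem (hL.mem s) _)
    · intro s
      have h1 : (∑ s', (b' (f s')) • v s') (f s) = (b' (f s)) * P := by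
        rw [Finset.sum_apply, Finset.sum_eq_single s]
        · simp [hL.diag]
        · intro s' _ hs'
          simp [hL.diag, hs']
        · intro hs; exact absurd (mem_univ s) hs
      rw [Pi.sub_apply, h1, Pi.smul_apply, smul_eq_mul]
      ring
  refine ⟨hmem, fun t => ?_⟩
  have h2 : (P : ℤ) * b' t = ∑ s, (b' (f s)) * v s t := by
    have := congrFun hkey t
    rw [Pi.smul_apply, smul_eq_mul, Finset.sum_apply] at this
    rw [this]
    exact Finset.sum_congr rfl fun s _ => by rw [Pi.smul_apply, smul_eq_mul]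
  have h3 : |(P : ℤ) * b' t| ≤ D * (P * P) := by
    rw [h2]
    calc |∑ s, (b' (f s)) * v s t| ≤ ∑ s, |(b' (f s)) * v s t| := abs_sum_le_sum_abs _ _
      _ ≤ ∑ _s : Fin D, ((P : ℤ) * P) := by
          apply Finset.sum_le_sum
          intro s _
          rw [abs_mul]
          apply mul_le_mul _ (hL.bd s t) (abs_nonneg _) hP.le
          rw [hf s, abs_of_nonneg (Int.emod_nonneg _ hP.ne')]
          exact (Int.emod_lt_of_pos _ hP).le
      _ = D * (P * P) := by simp
  have h4 : (P : ℤ) * |b' t| ≤ P * (n * P) := by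
    have : |(P : ℤ) * b' t| = P * |b' t| := by rw [abs_mul, abs_of_pos hP]
    rw [← this]
    refine h3.trans ?_
    have h5 : (D : ℤ) ≤ n := by exact_mod_cast hDn
    nlinarith [mul_pos hP hP]
  push_cast
  exact le_of_mul_le_mul_left h4 hP

theorem gens (n P : ℕ) (Q : Finset (AddSubgroup (Fin n → ℤ)))
    (h : ∀ Γ ∈ Q, ∃ (D : ℕ) (f : Fin D → Fin n) (v : Fin D → Fin n → ℤ), LD Γ D f P v) :
    Q.card ≤ (2 * n * P + 1) ^ (2 * n * n) := by
  classical
  set box : Finset (Fin n → ℤ) := Fintype.piFinset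
    (fun _ : Fin n => Finset.Icc (-((n * P : ℕ) : ℤ)) ((n * P : ℕ) : ℤ)) with hbox
  have hboxc : box.card = (2 * n * P + 1) ^ n := by
    rw [hbox, Fintype.card_piFinset]
    simp only [Finset.prod_const, Finset.card_univ, Fintype.card_fin, Int.card_Icc]
    congr 1
    have : 2 * n * P = 2 * (n * P) := by ring
    rw [this]
    generalize n * P = a
    omega
  have htc : (Fintype.piFinset (fun _ : Fin (2 * n) => box)).card
      = (2 * n * P + 1) ^ (2 * n * n) := by
    rw [Fintype.card_piFinset]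
    simp only [Finset.prod_const, Finset.card_univ, Fintype.card_fin, hboxc]
    rw [← pow_mul]
    congr 1
    ring
  rw [← htc]
  apply (Finset.card_le_card (t := (Fintype.piFinset (fun _ : Fin (2 * n) => box)).image
    fun y => AddSubgroup.closure (Set.range y)) ?_).trans Finset.card_image_le
  intro Γ hΓ
  obtain ⟨D, f, v, hL⟩ := h Γ hΓ
  have hDn : D ≤ n := by simpa using Fintype.card_le_of_injective f hL.inj
  obtain ⟨b, hb⟩ := hL.gen
  have hbΓ : ∀ i, b i ∈ Γ := fun i => by
    rw [← hb]; exact AddSubgroup.subset_closure ⟨i, rfl⟩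
  set b' : Fin D → Fin n → ℤ := fun i => b i - ∑ s, (b i (f s) / (P : ℤ)) • v s with hb'
  have hred := fun i => gens_red hL (b i) (hbΓ i)
  let y : Fin (2 * n) → Fin n → ℤ := fun j =>
    if h : j.1 < D then b' ⟨j.1, h⟩ else if h' : n ≤ j.1 ∧ j.1 - n < D then v ⟨j.1 - n, h'.2⟩ else 0
  have hy1 : ∀ i : Fin D, y ⟨i.1, by omega⟩ = b' i := by
    intro i
    simp only [y]
    rw [dif_pos i.2]
  have hy2 : ∀ s : Fin D, y ⟨n + s.1, by omega⟩ = v s := by
    intro s
    simp only [y]
    rw [dif_neg (by omega), dif_pos ⟨by omega, by omega⟩]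
    congr 1
    ext
    simp
  rw [Finset.mem_image]
  refine ⟨y, ?_, ?_⟩
  · rw [Fintype.mem_piFinset]
    intro j
    rw [hbox, Fintype.mem_piFinset]
    intro t
    rw [Finset.mem_Icc, ← abs_le]
    simp only [y]
    split_ifs with h1 h2
    · exact (hred ⟨j.1, h1⟩).2 t
    · refine (hL.bd _ t).trans ?_
      have hn : 1 ≤ n := by have := t.2; omega
      exact_mod_cast Nat.le_mul_of_pos_left P hn
    · simp only [Pi.zero_apply, abs_zero]
      positivity
  · apply le_antisymm
    · rw [AddSubgroup.closure_le]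
      rintro _ ⟨j, rfl⟩
      simp only [y]
      split_ifs with h1 h2
      · exact (hred ⟨j.1, h1⟩).1
      · exact hL.mem _
      · exact Γ.zero_mem
    · rw [← hb, AddSubgroup.closure_le]
      rintro _ ⟨i, rfl⟩
      have e : b i = b' i + ∑ s, (b i (f s) / (P : ℤ)) • v s := by
        rw [hb']; simp
      rw [e]
      refine AddSubgroup.add_mem _ ?_ (AddSubgroup.sum_mem _ fun s _ =>
        AddSubgroup.zsmul_mem _ ?_ _)
      · rw [← hy1 i]; exact AddSubgroup.subset_closure ⟨_, rfl⟩
      · rw [← hy2 s]; exact AddSubgroup.subset_closure ⟨_, rfl⟩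

end DiamAb
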