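import Mathlib
import Pool.Agent.Lib_MP_0ccc25_pr.KerB
import Pool.Agent.Lib_MP_0ccc25_pr.LatData
import Pool.Agent.Lib_MP_0ccc25_pr.Gens

/-!
Piece SUMGAMMA. Summation over all subgroups.

PROOF. For a tuple `χ` (entries of order above `P0`) let `Γ χ = closure {a | a ∈ Bxn n LW, a ∈ Kc χ} ≤ Kc χ`. A vector `w` with
`|w t| ≤ LW` lies in `Kc χ` iff it lies in `Γ χ`; so by `ker_congr` and `hT` the kernels of `Kc χ` and of `Γ χ` agree on all columns. Let `Q` be the finite set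
of all `Γ χ`. Grouping by `Γ χ`, the left side is at most `Σ_{Γ ∈ Q} #{χ | Γ ≤ Kc χ} Σ_X (Π p) Π_i ker Γ = Σ_{Γ ∈ Q} tm G T p l Γ`. For
every `Γ` choose `LD Γ D f (P Γ) v` (`lat_data`). For `Γ ∈ Q` with `P Γ ≤ P0` use `hsmall` (the witness is any `χ` with `Γ = Γ χ`), for the others `hbig`.
By `gens`, the number of `Γ ∈ Q` with `P Γ = P` is at most `(2 n P + 1) ^ (2 n n)`. So the small ones contribute at most
`Σ_{P = 1}^{P0} (2 n P + 1) ^ (2 n n) * 2 δ ^ k ≤ P0 (2 n P0 + 1) ^ (2 n n) * (2 δ ^ k)`, and the big ones at most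
`C4 ^ k Σ_{P > P0} (3 n P) ^ (2 n n) / P ^ r` (finite sum; `2 n P + 1 ≤ 3 n P`, `n ≥ 1`), where
`P ^ (2 n n) / P ^ r ≤ P ^ (-2) P ^ (-(r - 2 n n - 2)) ≤ P ^ (-2) / P0 ^ (r / 2)` because `r - 2 n n - 2 ≥ r / 2` (`r ≥ 4 n n + 4`) and `P > P0 ≥ 1`; finally
`Σ 1 / P ^ 2 ≤ 2`.
-/

namespace DiamAb

open Finset

/-- the subgroup generated by the small relations of a tuple of characters -/
def sgam {G : Type} [AddCommGroup G] {n : ℕ} (LW : ℕ) (χ : Fin n → AddChar G ℂ) :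
    AddSubgroup (Fin n → ℤ) :=
  AddSubgroup.closure {a | a ∈ Bxn n LW ∧ a ∈ Kc χ}

theorem sgam_le {G : Type} [AddCommGroup G] {n : ℕ} (LW : ℕ) (χ : Fin n → AddChar G ℂ) :
    sgam LW χ ≤ Kc χ := by
  unfold sgam
  rw [AddSubgroup.closure_le]
  rintro a ⟨_, ha⟩
  exact ha

theorem sgam_iff {G : Type} [AddCommGroup G] {n : ℕ} (LW : ℕ) (χ : Fin n → AddChar G ℂ)
    (w : Fin n → ℤ) (hw : ∀ t, |w t| ≤ LW) : w ∈ Kc χ ↔ w ∈ sgam LW χ := by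
  constructor
  · intro h
    apply AddSubgroup.subset_closure
    refine ⟨fun t => ?_, h⟩
    have := hw t
    exact_mod_cast this
  · intro h
    exact sgam_le LW χ h

theorem sumgamma_inv_sq (s : Finset ℕ) (hs : ∀ P ∈ s, 1 ≤ P) :
    ∑ P ∈ s, (1 : ℝ) / (P : ℝ) ^ 2 ≤ 2 := by
  have h := sum_Ioo_inv_sq_le (α := ℝ) 0 (s.sup id + 1)
  norm_num at h
  refine le_trans ?_ h
  have h1 : ∑ P ∈ s, (1 : ℝ) / (P : ℝ) ^ 2 = ∑ P ∈ s, ((P : ℝ) ^ 2)⁻¹ :=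
    Finset.sum_congr rfl fun P _ => by rw [one_div]
  rw [h1]
  apply Finset.sum_le_sum_of_subset_of_nonneg
  · intro P hP
    rw [Finset.mem_Ioo]
    have h2 : P ≤ s.sup id := Finset.le_sup (f := id) hP
    exact ⟨hs P hP, by omega⟩
  · intro P _ _
    positivity

/-- the elementary inequality for one index above `P0` -/
theorem sumgamma_one {n P0 P r : ℕ} (hn : 1 ≤ n) (hP0 : 1 ≤ P0) (hr : 4 * n * n + 4 ≤ r)
    (hP : P0 < P) (C : ℝ) (hC : 0 ≤ C) :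
    ((2 * n * P + 1) ^ (2 * n * n) : ℝ) * (C / (P : ℝ) ^ r) ≤
      (3 * n : ℝ) ^ (2 * n * n) * C / (P0 : ℝ) ^ (r / 2) * (1 / (P : ℝ) ^ 2) := by
  have hPpos : (0 : ℝ) < P := by exact_mod_cast (by omega : 0 < P)
  have hP1 : (1 : ℝ) ≤ P := by exact_mod_cast (by omega : 1 ≤ P)
  have hP0pos : (0 : ℝ) < P0 := by exact_mod_cast hP0
  have hn1 : (1 : ℝ) ≤ n := by exact_mod_cast hn
  have h1 : ((2 * n * P + 1) ^ (2 * n * n) : ℝ) ≤ (3 * n : ℝ) ^ (2 * n * n) * (P : ℝ) ^ (2 * n * n) := by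
    rw [← mul_pow]
    apply pow_le_pow_left₀ (by positivity)
    nlinarith
  have hle : (P : ℝ) ^ (2 * n * n) * (P : ℝ) ^ 2 * (P0 : ℝ) ^ (r / 2) ≤ (P : ℝ) ^ r := by
    have h2 : (P0 : ℝ) ^ (r / 2) ≤ (P : ℝ) ^ (r / 2) :=
      pow_le_pow_left₀ hP0pos.le (by exact_mod_cast hP.le) _
    calc (P : ℝ) ^ (2 * n * n) * (P : ℝ) ^ 2 * (P0 : ℝ) ^ (r / 2)
        ≤ (P : ℝ) ^ (2 * n * n) * (P : ℝ) ^ 2 * (P : ℝ) ^ (r / 2) := by gcongr
      _ = (P : ℝ) ^ (2 * n * n + 2 + r / 2) := by rw [pow_add, pow_add]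
      _ ≤ (P : ℝ) ^ r := by
          apply pow_le_pow_right₀ hP1
          have : 4 * n * n = 2 * (2 * n * n) := by ring
          omega
  calc ((2 * n * P + 1) ^ (2 * n * n) : ℝ) * (C / (P : ℝ) ^ r)
      ≤ ((3 * n : ℝ) ^ (2 * n * n) * (P : ℝ) ^ (2 * n * n)) * (C / (P : ℝ) ^ r) := by gcongr
    _ = (3 * n : ℝ) ^ (2 * n * n) * C * ((P : ℝ) ^ (2 * n * n) / (P : ℝ) ^ r) := by ring
    _ ≤ (3 * n : ℝ) ^ (2 * n * n) * C * (1 / ((P : ℝ) ^ 2 * (P0 : ℝ) ^ (r / 2))) := by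
        apply mul_le_mul_of_nonneg_left _ (by positivity)
        rw [div_le_div_iff₀ (by positivity) (by positivity)]
        linarith
    _ = (3 * n : ℝ) ^ (2 * n * n) * C / (P0 : ℝ) ^ (r / 2) * (1 / (P : ℝ) ^ 2) := by
        field_simp

open Classical in
theorem sum_gamma {G : Type} [AddCommGroup G] [Fintype G] {n k l LW P0 r : ℕ}
    (T : Finset (Fin k → ℤ)) (p : (Fin k → ℤ) → ℝ) (hp : ∀ w, 0 ≤ p w) (C4 δ : ℝ) (hC4 : 0 ≤ C4)
    (hδ : 0 ≤ δ) (hn : 1 ≤ n) (hP0 : 1 ≤ P0) (hr : 4 * n * n + 4 ≤ r)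
    (hT : ∀ w ∈ T, ∀ i, |w i| + 2 * l ≤ LW)
    (hbig : ∀ (Γ : AddSubgroup (Fin n → ℤ)) (D : ℕ) (f : Fin D → Fin n) (P : ℕ)
      (v : Fin D → Fin n → ℤ), LD Γ D f P v →
      (∃ A : Set (Fin n → ℤ), A ⊆ Bxn n LW ∧ AddSubgroup.closure A = Γ) →
      tm G T p l Γ ≤ C4 ^ k / (P : ℝ) ^ r)
    (hsmall : ∀ (Γ : AddSubgroup (Fin n → ℤ)) (D : ℕ) (f : Fin D → Fin n) (P : ℕ)
      (v : Fin D → Fin n → ℤ), LD Γ D f P v → P ≤ P0 →
      (∃ χ : Fin n → AddChar G ℂ, Γ ≤ Kc χ ∧ ∀ s, P0 < orderOf (χ s)) →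
      tm G T p l Γ ≤ 2 * δ ^ k) :
    ∑ χ ∈ Fintype.piFinset (fun _ : Fin n =>
        univ.filter fun χ : AddChar G ℂ => P0 < orderOf χ),
      ∑ X ∈ Fintype.piFinset (fun _ : Fin n => T), (∏ s, p (X s)) *
        ∏ i, ker (wd0 n l) (wd0 n l) (Kc χ) (fun s => X s i) ≤
      P0 * (2 * n * P0 + 1 : ℝ) ^ (2 * n * n) * (2 * δ ^ k) +
        2 * (3 * n : ℝ) ^ (2 * n * n) * C4 ^ k / (P0 : ℝ) ^ (r / 2) := by
  set F : AddSubgroup (Fin n → ℤ) → ℝ := fun V =>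
    ∑ X ∈ Fintype.piFinset (fun _ : Fin n => T), (∏ s, p (X s)) *
        ∏ i, ker (wd0 n l) (wd0 n l) V (fun s => X s i) with hF
  have hF0 : ∀ V, 0 ≤ F V := fun V => Finset.sum_nonneg fun X _ =>
    mul_nonneg (Finset.prod_nonneg fun s _ => hp _)
      (Finset.prod_nonneg fun i _ => ker_nonneg _ _ _ _)
  set A : Finset (Fin n → AddChar G ℂ) := Fintype.piFinset (fun _ : Fin n =>
        univ.filter fun χ : AddChar G ℂ => P0 < orderOf χ) with hA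
  have hAm : ∀ χ ∈ A, ∀ s, P0 < orderOf (χ s) := by
    intro χ hχ s
    rw [hA, Fintype.mem_piFinset] at hχ
    have := hχ s
    rw [Finset.mem_filter] at this
    exact this.2
  have hstep1 : ∑ χ ∈ A, F (Kc χ) = ∑ χ ∈ A, F (sgam LW χ) := by
    refine Finset.sum_congr rfl fun χ _ => ?_
    refine Finset.sum_congr rfl fun X hX => ?_
    congr 1
    refine Finset.prod_congr rfl fun i _ => ?_
    rw [Fintype.mem_piFinset] at hX
    exact ker_congr (LW := LW) _ _ _ (fun t => hT (X t) (hX t) i) (sgam_iff LW χ)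
  set Q : Finset (AddSubgroup (Fin n → ℤ)) := A.image (sgam LW) with hQ
  have hstep2 : ∑ χ ∈ A, F (sgam LW χ) ≤ ∑ Γ ∈ Q, tm G T p l Γ := by
    rw [Finset.sum_comp F (sgam LW)]
    apply Finset.sum_le_sum
    intro Γ _
    rw [nsmul_eq_mul]
    unfold tm
    apply mul_le_mul_of_nonneg_right _ (hF0 Γ)
    exact_mod_cast Finset.card_le_card (fun χ hχ => by
      rw [Finset.mem_filter] at hχ ⊢
      exact ⟨mem_univ _, hχ.2 ▸ sgam_le LW χ⟩)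
  choose D f PP v hLD using fun Γ : AddSubgroup (Fin n → ℤ) => lat_data Γ
  have hcl : ∀ Γ ∈ Q, (∃ A : Set (Fin n → ℤ), A ⊆ Bxn n LW ∧ AddSubgroup.closure A = Γ) := by
    intro Γ hΓ
    rw [hQ, Finset.mem_image] at hΓ
    obtain ⟨χ, _, rfl⟩ := hΓ
    exact ⟨_, fun a ha => ha.1, rfl⟩
  have hwit : ∀ Γ ∈ Q, ∃ χ : Fin n → AddChar G ℂ, Γ ≤ Kc χ ∧ ∀ s, P0 < orderOf (χ s) := by
    intro Γ hΓ
    rw [hQ, Finset.mem_image] at hΓ
    obtain ⟨χ, hχ, rfl⟩ := hΓ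
    exact ⟨χ, sgam_le LW χ, hAm χ hχ⟩
  have hfib : ∀ (S : Finset (AddSubgroup (Fin n → ℤ))) (P : ℕ),
      (S.filter fun Γ => PP Γ = P).card ≤ (2 * n * P + 1) ^ (2 * n * n) := by
    intro S P
    apply gens
    intro Γ hΓ
    rw [Finset.mem_filter] at hΓ
    refine ⟨D Γ, f Γ, v Γ, ?_⟩
    rw [← hΓ.2]
    exact hLD Γ
  -- the small indices
  have hsm : ∑ Γ ∈ Q.filter (fun Γ => PP Γ ≤ P0), tm G T p l Γ ≤
      P0 * (2 * n * P0 + 1 : ℝ) ^ (2 * n * n) * (2 * δ ^ k) := by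
    have hcard : (Q.filter fun Γ => PP Γ ≤ P0).card ≤ (2 * n * P0 + 1) ^ (2 * n * n) * P0 := by
      have h1 := Finset.card_le_mul_card_image_of_maps_to (f := PP)
        (s := Q.filter fun Γ => PP Γ ≤ P0) (t := Finset.Icc 1 P0) (fun Γ hΓ => by
          rw [Finset.mem_filter] at hΓ
          rw [Finset.mem_Icc]
          exact ⟨(hLD Γ).pos, hΓ.2⟩) ((2 * n * P0 + 1) ^ (2 * n * n)) (fun P hP => by
          rw [Finset.mem_Icc] at hP
          refine (hfib _ P).trans ?_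
          apply Nat.pow_le_pow_left
          have := Nat.mul_le_mul_left (2 * n) hP.2
          omega)
      simpa using h1
    calc ∑ Γ ∈ Q.filter (fun Γ => PP Γ ≤ P0), tm G T p l Γ
        ≤ ∑ _Γ ∈ Q.filter (fun Γ => PP Γ ≤ P0), 2 * δ ^ k := by
          apply Finset.sum_le_sum
          intro Γ hΓ
          rw [Finset.mem_filter] at hΓ
          exact hsmall Γ _ _ _ _ (hLD Γ) hΓ.2 (hwit Γ hΓ.1)
      _ = ((Q.filter fun Γ => PP Γ ≤ P0).card : ℝ) * (2 * δ ^ k) := by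
          rw [Finset.sum_const, nsmul_eq_mul]
      _ ≤ (((2 * n * P0 + 1) ^ (2 * n * n) * P0 : ℕ) : ℝ) * (2 * δ ^ k) := by
          apply mul_le_mul_of_nonneg_right _ (by positivity)
          exact_mod_cast hcard
      _ = _ := by push_cast; ring
  -- the large indices
  have hbg : ∑ Γ ∈ Q.filter (fun Γ => ¬ PP Γ ≤ P0), tm G T p l Γ ≤
      2 * (3 * n : ℝ) ^ (2 * n * n) * C4 ^ k / (P0 : ℝ) ^ (r / 2) := by
    set Qb := Q.filter (fun Γ => ¬ PP Γ ≤ P0) with hQb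
    have hC : (0 : ℝ) ≤ C4 ^ k := by positivity
    calc ∑ Γ ∈ Qb, tm G T p l Γ
        ≤ ∑ Γ ∈ Qb, C4 ^ k / ((PP Γ : ℕ) : ℝ) ^ r := by
          apply Finset.sum_le_sum
          intro Γ hΓ
          rw [hQb, Finset.mem_filter] at hΓ
          exact hbig Γ _ _ _ _ (hLD Γ) (hcl Γ hΓ.1)
      _ = ∑ P ∈ Qb.image PP, ((Qb.filter fun Γ => PP Γ = P).card : ℝ) *
            (C4 ^ k / (P : ℝ) ^ r) := by
          rw [Finset.sum_comp (fun P : ℕ => C4 ^ k / (P : ℝ) ^ r) PP]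
          exact Finset.sum_congr rfl fun P _ => by rw [nsmul_eq_mul]
      _ ≤ ∑ P ∈ Qb.image PP, (3 * n : ℝ) ^ (2 * n * n) * C4 ^ k / (P0 : ℝ) ^ (r / 2) *
            (1 / (P : ℝ) ^ 2) := by
          apply Finset.sum_le_sum
          intro P hP
          rw [Finset.mem_image] at hP
          obtain ⟨Γ, hΓ, rfl⟩ := hP
          rw [hQb, Finset.mem_filter] at hΓ
          refine le_trans ?_ (sumgamma_one hn hP0 hr (by omega) (C4 ^ k) hC)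
          apply mul_le_mul_of_nonneg_right _ (by positivity)
          exact_mod_cast hfib Qb (PP Γ)
      _ = (3 * n : ℝ) ^ (2 * n * n) * C4 ^ k / (P0 : ℝ) ^ (r / 2) *
            ∑ P ∈ Qb.image PP, 1 / (P : ℝ) ^ 2 := by rw [← Finset.mul_sum]
      _ ≤ (3 * n : ℝ) ^ (2 * n * n) * C4 ^ k / (P0 : ℝ) ^ (r / 2) * 2 := by
          apply mul_le_mul_of_nonneg_left _ (by positivity)
          apply sumgamma_inv_sq
          intro P hP
          rw [Finset.mem_image] at hP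
          obtain ⟨Γ, _, rfl⟩ := hP
          exact (hLD Γ).pos
      _ = _ := by ring
  calc ∑ χ ∈ A, F (Kc χ) = ∑ χ ∈ A, F (sgam LW χ) := hstep1
    _ ≤ ∑ Γ ∈ Q, tm G T p l Γ := hstep2
    _ = ∑ Γ ∈ Q.filter (fun Γ => PP Γ ≤ P0), tm G T p l Γ +
          ∑ Γ ∈ Q.filter (fun Γ => ¬ PP Γ ≤ P0), tm G T p l Γ :=
        (Finset.sum_filter_add_sum_filter_not _ _ _).symm
    _ ≤ _ := add_le_add hsm hbg

end DiamAb
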