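import Mathlib
import Pool.Agent.Lib_MP_0ccc25_pr.Moment
import Pool.Agent.Lib_MP_0ccc25_pr.BigTerm
import Pool.Agent.Lib_MP_0ccc25_pr.SmallTerm
import Pool.Agent.Lib_MP_0ccc25_pr.SumGamma

/-!
Piece MOMB. High moment of the part of large order in regime B.

PROOF. Constants in this order: `δ = 1 / (32 q)`; `ρ0 ≥ 1` with `exp (-c ρ0) ≤ δ`; `a = ε / 4`; `m0` with `(1 / a) ^ ρ0 (2 / √(m0 + 1)) ≤ δ`; `n` even with
`(m0 + 1) ρ0 ≤ n` (so `n ≥ 1`, e.g. `n = 2 (m0 + 1) ρ0`); `b = Λ + 2`; `C4 = ((2 (n + 1) b + 1) / a) ^ n ≥ 1`; `C6 > 0` with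
`exp (C6 / 2) ≥ (16 q C4)` twice over, i.e. `C6 = 4 log (16 q C4)`;
`r1` so large that `4 n n + 4 ≤ r1`, `(2 n n + 1) * C6 / r1 ≤ (log 2) / 2` and `2 C6 / r1 ≤ c' / 2`.
Given `r0 ≥ r1`, `P0 = ⌈exp (C6 k / r0)⌉₊ ≤ 2 exp (C6 k / r0)`, for `k ≥ k0`:
 (i) `P0 (2 n P0 + 1) ^ (2 n n) ≤ (2 (3 n) * 2 ...) ^ (2 n n + 1) exp ((2 n n + 1) C6 k / r0) ≤ 2 ^ k` for large `k`;
 (ii) noise: `((2 h + 2 n P0) / (2 h)) ^ (n k) ≤ exp (n k * n P0 / h) ≤ 2`, since `h ≥ ε S / 8 ≥ (ε / 8) exp (c' k)` and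
 `P0 ≤ 2 exp (c' k / 4)`: `n ^ 2 k P0 / h → 0`;
 (iii) `P0 ^ (r0 / 2) ≥ exp (C6 k (r0 / 2) / r0) ≥ exp (C6 k / 4) ≥ (16 q C4) ^ k` (natural division: `r0 / 2 ≥ r0 / 4`).
Let `l = 2 h`, `LW = ⌈Λ S⌉₊ + 2 l`, so `LW ≤ Λ S + 1 + ε S ≤ b S` (`2 l = 4 h ≤ ε S`; `S ≥ 1`, `ε ≤ 1`), and `|w i| + 2 l ≤ LW` for `w ∈ T` (integers);
`a S ≤ 2 h` (`h ≥ ε S / 8`), `h ≥ 1` for large `k`.
`big_term` and `small_term` verify the hypotheses of `sum_gamma` (with `r = r0`), whose bound is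
`2 ^ k * 2 (1 / (32 q)) ^ k + 2 (3 n) ^ (2 n n) C4 ^ k / (16 q C4) ^ k ≤ 3 (1 / (8 q)) ^ k` for large `k`
(`2 / (32 q) = 1 / (16 q)`, and `2 (3 n) ^ (2 n n) ≤ 2 ^ k`).
By `moment` (`Hi` = characters of order above `P0`, closed under inverse since `orderOf_inv`) and `factor` (the condition in `moment` is membership of the
columns in `Kc χ`, by definition), the left side of the claim is at most the left side of `sum_gamma`.
-/

namespace DiamAb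

open Finset

theorem momB_ev (K t : ℝ) (ht : 0 < t) :
    ∀ᶠ k : ℕ in Filter.atTop, K ≤ Real.exp (t * k) := by
  have h : Filter.Tendsto (fun k : ℕ => Real.exp (t * k)) Filter.atTop Filter.atTop :=
    Real.tendsto_exp_atTop.comp (Filter.Tendsto.const_mul_atTop ht tendsto_natCast_atTop_atTop)
  exact h.eventually_ge_atTop K

/-- the number of small subgroups -/
theorem momB_i {n r0 k P0 : ℕ} {C6 : ℝ} (hn : 1 ≤ n) (hC6 : 0 < C6)
    (hr : (2 * n * n + 1) * C6 / r0 ≤ Real.log 2 / 2)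
    (hP0 : 1 ≤ P0) (hP : (P0 : ℝ) ≤ 2 * Real.exp (C6 * k / r0))
    (hk : (3 * n : ℝ) ^ (2 * n * n) * 2 ^ (2 * n * n + 1) ≤ Real.exp (Real.log 2 / 2 * k)) :
    (P0 : ℝ) * (2 * n * P0 + 1 : ℝ) ^ (2 * n * n) ≤ 2 ^ k := by
  have hn1 : (1 : ℝ) ≤ n := by exact_mod_cast hn
  have hP1 : (1 : ℝ) ≤ P0 := by exact_mod_cast hP0
  have h2 : Real.exp (Real.log 2 / 2 * k) * Real.exp (Real.log 2 / 2 * k) = 2 ^ k := by
    rw [← Real.exp_add, ← add_mul, add_halves, mul_comm, Real.exp_nat_mul,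
      Real.exp_log (by norm_num)]
  calc (P0 : ℝ) * (2 * n * P0 + 1 : ℝ) ^ (2 * n * n)
      ≤ (P0 : ℝ) * (3 * n * P0 : ℝ) ^ (2 * n * n) := by
        apply mul_le_mul_of_nonneg_left _ (by positivity)
        apply pow_le_pow_left₀ (by positivity)
        nlinarith
    _ = (3 * n : ℝ) ^ (2 * n * n) * (P0 : ℝ) ^ (2 * n * n + 1) := by
        rw [mul_pow _ (P0 : ℝ), pow_succ]; ring
    _ ≤ (3 * n : ℝ) ^ (2 * n * n) * (2 * Real.exp (C6 * k / r0)) ^ (2 * n * n + 1) := by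
        gcongr
    _ = (3 * n : ℝ) ^ (2 * n * n) * 2 ^ (2 * n * n + 1) *
          Real.exp ((2 * n * n + 1) * C6 / r0 * k) := by
        rw [mul_pow 2 (Real.exp (C6 * k / r0)), ← Real.exp_nat_mul, ← mul_assoc]
        congr 2
        push_cast
        ring
    _ ≤ Real.exp (Real.log 2 / 2 * k) * Real.exp (Real.log 2 / 2 * k) := by
        apply mul_le_mul hk _ (Real.exp_pos _).le (Real.exp_pos _).le
        apply Real.exp_le_exp.2
        exact mul_le_mul_of_nonneg_right hr (by positivity)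
    _ = 2 ^ k := h2

/-- the cost of the noise -/
theorem momB_ii {n r0 k P0 h : ℕ} {C6 c' ε S : ℝ} (hn : 1 ≤ n) (hc' : 0 < c') (hε : 0 < ε)
    (hr : C6 / r0 ≤ c' / 4) (hP : (P0 : ℝ) ≤ 2 * Real.exp (C6 * k / r0))
    (hS : 0 < S) (hlog : c' * k ≤ Real.log S) (hh : ε * S / 8 ≤ h) (hh1 : 1 ≤ h)
    (hk : 64 * (n : ℝ) ^ 2 / (ε * c' * Real.log 2) ≤ Real.exp (c' / 2 * k)) :
    (((2 * h : ℝ) + 2 * (n * P0)) / (2 * h)) ^ (n * k) ≤ 2 := by
  have hh0 : (0 : ℝ) < h := by exact_mod_cast hh1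
  have hl2 : 0 < Real.log 2 := Real.log_pos (by norm_num)
  have hSe : Real.exp (c' * k) ≤ S := by
    rw [← Real.le_log_iff_exp_le hS]; exact hlog
  have hk1 : (k : ℝ) ≤ 4 / c' * Real.exp (c' / 4 * k) := by
    have := Real.add_one_le_exp (c' / 4 * k)
    rw [div_mul_eq_mul_div, le_div_iff₀ hc']
    nlinarith
  have hPe : (P0 : ℝ) ≤ 2 * Real.exp (c' / 4 * k) := by
    refine hP.trans ?_
    apply mul_le_mul_of_nonneg_left _ (by norm_num)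
    apply Real.exp_le_exp.2
    rw [mul_div_right_comm]
    exact mul_le_mul_of_nonneg_right hr (by positivity)
  have hmain : (n : ℝ) * k * (n * P0) ≤ Real.log 2 * h := by
    have e1 : Real.exp (c' / 4 * k) * Real.exp (c' / 4 * k) = Real.exp (c' / 2 * k) := by
      rw [← Real.exp_add]; congr 1; ring
    have e2 : Real.exp (c' / 2 * k) * Real.exp (c' / 2 * k) = Real.exp (c' * k) := by
      rw [← Real.exp_add]; congr 1; ring
    have h1 : (n : ℝ) * k * (n * P0) ≤ 8 * n ^ 2 / c' * Real.exp (c' / 2 * k) := by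
      calc (n : ℝ) * k * (n * P0) = n ^ 2 * (k * P0) := by ring
        _ ≤ n ^ 2 * ((4 / c' * Real.exp (c' / 4 * k)) * (2 * Real.exp (c' / 4 * k))) := by
            gcongr
        _ = 8 * n ^ 2 / c' * (Real.exp (c' / 4 * k) * Real.exp (c' / 4 * k)) := by ring
        _ = _ := by rw [e1]
    have h2 : 64 * (n : ℝ) ^ 2 ≤ ε * c' * Real.log 2 * Real.exp (c' / 2 * k) := by
      rw [div_le_iff₀ (by positivity)] at hk
      linarith
    have h3 : 8 * (n : ℝ) ^ 2 / c' ≤ ε * Real.log 2 / 8 * Real.exp (c' / 2 * k) := by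
      rw [div_le_iff₀ hc']
      nlinarith
    calc (n : ℝ) * k * (n * P0) ≤ 8 * n ^ 2 / c' * Real.exp (c' / 2 * k) := h1
      _ ≤ (ε * Real.log 2 / 8 * Real.exp (c' / 2 * k)) * Real.exp (c' / 2 * k) := by
          gcongr
      _ = Real.log 2 * (ε * Real.exp (c' * k) / 8) := by rw [← e2]; ring
      _ ≤ Real.log 2 * (ε * S / 8) := by gcongr
      _ ≤ Real.log 2 * h := by gcongr
  have hbase : ((2 * h : ℝ) + 2 * (n * P0)) / (2 * h) = 1 + n * P0 / h := by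
    field_simp
  rw [hbase]
  have h5 : (1 : ℝ) + n * P0 / h ≤ Real.exp (n * P0 / h) := by
    have := Real.add_one_le_exp ((n : ℝ) * P0 / h); linarith
  calc ((1 : ℝ) + n * P0 / h) ^ (n * k) ≤ (Real.exp (n * P0 / h)) ^ (n * k) :=
        pow_le_pow_left₀ (by positivity) h5 _
    _ = Real.exp ((n * k) * (n * P0 / h)) := by
        rw [← Real.exp_nat_mul]; push_cast; rfl
    _ ≤ Real.exp (Real.log 2) := by
        apply Real.exp_le_exp.2
        rw [← mul_div_assoc, div_le_iff₀ hh0]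
        exact hmain
    _ = 2 := Real.exp_log (by norm_num)

/-- the gain from the large indices -/
theorem momB_iii {r0 k P0 : ℕ} {C6 B : ℝ} (hr0 : 2 ≤ r0) (hB : 1 ≤ B) (hC6 : C6 = 4 * Real.log B)
    (hP : Real.exp (C6 * k / r0) ≤ P0) : B ^ k ≤ (P0 : ℝ) ^ (r0 / 2) := by
  have hr : (0 : ℝ) < r0 := by exact_mod_cast (by omega : 0 < r0)
  have hC0 : 0 ≤ C6 := by rw [hC6]; have := Real.log_nonneg hB; linarith
  have h1 : (r0 : ℝ) / 4 ≤ ((r0 / 2 : ℕ) : ℝ) := by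
    have : r0 ≤ 4 * (r0 / 2) := by omega
    have h2 : (r0 : ℝ) ≤ 4 * ((r0 / 2 : ℕ) : ℝ) := by exact_mod_cast this
    linarith
  calc B ^ k = Real.exp (C6 * k / 4) := by
        have : C6 * k / 4 = k * Real.log B := by rw [hC6]; ring
        rw [this, Real.exp_nat_mul, Real.exp_log (by linarith)]
    _ ≤ Real.exp (((r0 / 2 : ℕ) : ℝ) * (C6 * k / r0)) := by
        apply Real.exp_le_exp.2
        have h3 : C6 * k / 4 = (r0 / 4) * (C6 * k / r0) := by field_simp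
        rw [h3]
        apply mul_le_mul_of_nonneg_right h1 (by positivity)
    _ = (Real.exp (C6 * k / r0)) ^ (r0 / 2) := by rw [Real.exp_nat_mul]
    _ ≤ (P0 : ℝ) ^ (r0 / 2) := pow_le_pow_left₀ (Real.exp_pos _).le hP _

/-- the final inequality -/
theorem momB_fin {q k : ℕ} (hq : 2 ≤ q) (hk : 1 ≤ k) {A B C4 PP : ℝ} (hC4 : 1 ≤ C4)
    (hA : A ≤ 2 ^ k) (hB : 0 ≤ B) (hB2 : 2 * B ≤ 2 ^ k) (hPP : (16 * q * C4) ^ k ≤ PP) :
    A * (2 * (1 / (32 * q : ℝ)) ^ k) + 2 * B * C4 ^ k / PP ≤ 3 * (1 / (8 * q : ℝ)) ^ k := by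
  have hq0 : (0 : ℝ) < q := by exact_mod_cast (by omega : 0 < q)
  have hx : (0 : ℝ) ≤ (1 / (8 * q : ℝ)) ^ k := by positivity
  have h2k : (2 : ℝ) ≤ 2 ^ k := by
    calc (2 : ℝ) = 2 ^ 1 := by norm_num
      _ ≤ 2 ^ k := pow_le_pow_right₀ (by norm_num) hk
  have h1 : A * (2 * (1 / (32 * q : ℝ)) ^ k) ≤ (1 / (8 * q : ℝ)) ^ k := by
    calc A * (2 * (1 / (32 * q : ℝ)) ^ k) ≤ 2 ^ k * (2 ^ k * (1 / (32 * q : ℝ)) ^ k) := by
          apply mul_le_mul hA _ (by positivity) (by positivity)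
          exact mul_le_mul_of_nonneg_right h2k (by positivity)
      _ = (1 / (8 * q : ℝ)) ^ k := by
          rw [← mul_pow, ← mul_pow]; congr 1; field_simp; norm_num
  have h2 : 2 * B * C4 ^ k / PP ≤ (1 / (8 * q : ℝ)) ^ k := by
    have hpos : (0 : ℝ) < (16 * q * C4) ^ k := by positivity
    calc 2 * B * C4 ^ k / PP ≤ 2 * B * C4 ^ k / (16 * q * C4) ^ k :=
          div_le_div_of_nonneg_left (by positivity) hpos hPP
      _ ≤ 2 ^ k * C4 ^ k / (16 * q * C4) ^ k := by gcongr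
      _ = (1 / (8 * q : ℝ)) ^ k := by
          rw [← mul_pow, ← div_pow]; congr 1; field_simp; norm_num
  linarith

open Classical in
theorem momB (c ε Λ c' : ℝ) (q : ℕ) (hc : 0 < c) (hε : 0 < ε) (hε1 : ε ≤ 1) (hΛ : 1 ≤ Λ)
    (hc' : 0 < c') (hq : 2 ≤ q) :
    ∃ (n r1 : ℕ) (C6 : ℝ), Even n ∧ 1 ≤ r1 ∧ 0 < C6 ∧ 2 * C6 / r1 ≤ c' / 2 ∧
      ∀ r0 : ℕ, r1 ≤ r0 → ∃ k0 : ℕ,
      ∀ (G : Type) [AddCommGroup G] [Fintype G] (k h P0 : ℕ) (S : ℝ) (T : Finset (Fin k → ℤ))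
        (p : (Fin k → ℤ) → ℝ) (x : G),
        k0 ≤ k → AddGroup.rank G + r0 ≤ k → S ^ k = Fintype.card G → 1 ≤ S →
        c' * k ≤ Real.log S → ε * S / 8 ≤ h → (h : ℝ) ≤ ε * S / 4 →
        P0 = ⌈Real.exp (C6 * k / r0)⌉₊ →
        (∀ w ∈ T, ∀ i, |(w i : ℝ)| ≤ Λ * S) → (∀ w, 0 ≤ p w) →
        (∀ w ∈ T, p w ≤ Real.exp (-c * k) / Fintype.card G) → ∑ w ∈ T, p w ≤ 1 →
        av (fun z : Fin k → G =>
          ‖∑ χ ∈ univ.filter (fun χ : AddChar G ℂ => P0 < orderOf χ),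
            phi z (T ×ˢ (wd0 k (2 * h) ×ˢ wd0 k (2 * h)))
              (fun j => p j.1 / ((2 * h : ℕ) : ℝ) ^ (2 * k))
              (fun j => j.1 + j.2.1 + j.2.2) χ * χ (-x)‖ ^ n) ≤
          3 * (1 / (8 * q : ℝ)) ^ k := by
  -- constants
  have hq0 : (0 : ℝ) < q := by exact_mod_cast (by omega : 0 < q)
  set δ : ℝ := 1 / (32 * q) with hδ
  have hδ0 : 0 < δ := by positivity
  obtain ⟨ρ0, hρ0, hρ1⟩ : ∃ ρ0 : ℕ, 1 ≤ ρ0 ∧ Real.exp (-c * ρ0) ≤ δ := by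
    obtain ⟨ρ, h1, h2⟩ := ((momB_ev (1 / δ) c hc).and (Filter.eventually_ge_atTop 1)).exists
    refine ⟨ρ, h2, ?_⟩
    rw [neg_mul, Real.exp_neg, inv_eq_one_div, div_le_iff₀ (Real.exp_pos _)]
    rw [div_le_iff₀ hδ0] at h1
    linarith
  set a : ℝ := ε / 4 with ha
  have ha0 : 0 < a := by positivity
  have ha1 : a ≤ 1 := by rw [ha]; linarith
  obtain ⟨m0, hm0⟩ : ∃ m0 : ℕ, (1 / a) ^ ρ0 * (2 / √(m0 + 1)) ≤ δ := by
    obtain ⟨m, hm⟩ := exists_nat_ge (((1 / a) ^ ρ0 * 2 / δ) ^ 2)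
    refine ⟨m, ?_⟩
    have h1 : (1 / a) ^ ρ0 * 2 / δ ≤ √(m + 1) := by
      apply Real.le_sqrt_of_sq_le
      linarith
    have h2 : 0 < √((m : ℝ) + 1) := Real.sqrt_pos.2 (by positivity)
    rw [← mul_div_assoc, div_le_iff₀ h2]
    rw [div_le_iff₀ hδ0] at h1
    linarith
  obtain ⟨n, hn⟩ : ∃ n : ℕ, n = 2 * ((m0 + 1) * ρ0) := ⟨_, rfl⟩
  have hmn : (m0 + 1) * ρ0 ≤ n := by omega
  have hn1 : 1 ≤ n := by
    have : 1 ≤ (m0 + 1) * ρ0 := Nat.mul_pos (by omega) (by omega)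
    omega
  have hneven : Even n := ⟨(m0 + 1) * ρ0, by omega⟩
  set b : ℝ := Λ + 2 with hb
  have hb0 : 0 ≤ b := by rw [hb]; linarith
  set C4 : ℝ := ((2 * (n + 1) * b + 1) / a) ^ n with hC4
  have hC41 : 1 ≤ C4 := by
    rw [hC4]
    apply one_le_pow₀
    rw [le_div_iff₀ ha0]
    have : 0 ≤ 2 * ((n : ℝ) + 1) * b := by positivity
    linarith
  have hB1 : 1 < 16 * q * C4 := by
    have : (2 : ℝ) ≤ q := by exact_mod_cast hq
    nlinarith
  set C6 : ℝ := 4 * Real.log (16 * q * C4) with hC6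
  have hC60 : 0 < C6 := by
    rw [hC6]; have := Real.log_pos hB1; linarith
  have hl2 : 0 < Real.log 2 := Real.log_pos (by norm_num)
  obtain ⟨r1, hr1a, hr1b, hr1c⟩ : ∃ r1 : ℕ, 4 * n * n + 4 ≤ r1 ∧
      (2 * n * n + 1) * C6 / (Real.log 2 / 2) ≤ r1 ∧ 4 * C6 / c' ≤ r1 := by
    refine ⟨max (4 * n * n + 4) (max ⌈(2 * n * n + 1) * C6 / (Real.log 2 / 2)⌉₊
      ⌈4 * C6 / c'⌉₊), le_max_left _ _, ?_, ?_⟩
    · refine (Nat.le_ceil _).trans ?_
      exact_mod_cast (le_max_left _ _).trans (le_max_right _ _)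
    · refine (Nat.le_ceil _).trans ?_
      exact_mod_cast (le_max_right _ _).trans (le_max_right _ _)
  have hr1pos : (0 : ℝ) < r1 := by exact_mod_cast (by omega : 0 < r1)
  refine ⟨n, r1, C6, hneven, by omega, hC60, ?_, ?_⟩
  · rw [div_le_iff₀ hr1pos]
    rw [div_le_iff₀ hc'] at hr1c
    linarith
  intro r0 hr0
  have hr0r : (r1 : ℝ) ≤ r0 := by exact_mod_cast hr0
  have hr0pos : (0 : ℝ) < r0 := hr1pos.trans_le hr0r
  have hri : (2 * n * n + 1) * C6 / r0 ≤ Real.log 2 / 2 := by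
    rw [div_le_iff₀ hr0pos]
    rw [div_le_iff₀ (by positivity)] at hr1b
    nlinarith
  have hrii : C6 / r0 ≤ c' / 4 := by
    rw [div_le_iff₀ hr0pos]
    rw [div_le_iff₀ hc'] at hr1c
    nlinarith
  -- large k
  have hev : ∀ᶠ k : ℕ in Filter.atTop,
      ((3 * n : ℝ) ^ (2 * n * n) * 2 ^ (2 * n * n + 1) ≤ Real.exp (Real.log 2 / 2 * k)) ∧
      (64 * (n : ℝ) ^ 2 / (ε * c' * Real.log 2) ≤ Real.exp (c' / 2 * k)) ∧
      (2 * (3 * n : ℝ) ^ (2 * n * n) ≤ Real.exp (Real.log 2 * k)) ∧ 1 ≤ k :=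
    (momB_ev _ _ (by positivity)).and ((momB_ev _ _ (by positivity)).and
      ((momB_ev _ _ hl2).and (Filter.eventually_ge_atTop 1)))
  obtain ⟨k0, hk0⟩ := Filter.eventually_atTop.1 hev
  refine ⟨k0, ?_⟩
  intro G _ _ k h P0 S T p x hk hrank hS hS1 hlog hh1 hh2 hP0 hT hp hpm hp1
  obtain ⟨hk1, hk2, hk3, hk4⟩ := hk0 k hk
  have hS0 : 0 < S := by linarith
  have hE1 : 1 ≤ Real.exp (C6 * k / r0) := Real.one_le_exp (by positivity)
  have hP0a : Real.exp (C6 * k / r0) ≤ P0 := by rw [hP0]; exact Nat.le_ceil _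
  have hP0b : (P0 : ℝ) ≤ 2 * Real.exp (C6 * k / r0) := by
    have := Nat.ceil_lt_add_one (Real.exp_pos (C6 * k / r0)).le
    rw [← hP0] at this
    linarith
  have hP01 : 1 ≤ P0 := by
    have : (1 : ℝ) ≤ P0 := hE1.trans hP0a
    exact_mod_cast this
  have hh0 : (0 : ℝ) < h := lt_of_lt_of_le (by positivity) hh1
  have hh : 1 ≤ h := by exact_mod_cast hh0
  -- moment and factorisation
  have hmom := moment (G := G) (k := k) hneven (T ×ˢ (wd0 k (2 * h) ×ˢ wd0 k (2 * h)))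
    (fun j => p j.1 / ((2 * h : ℕ) : ℝ) ^ (2 * k)) (fun j => by
      have := hp j.1
      positivity)
    (fun j => j.1 + j.2.1 + j.2.2)
    (univ.filter (fun χ : AddChar G ℂ => P0 < orderOf χ)) (fun χ hχ => by
      rw [Finset.mem_filter] at hχ ⊢
      exact ⟨mem_univ _, by rw [orderOf_inv]; exact hχ.2⟩) x
  refine hmom.trans ?_
  have hfac : ∀ χ : Fin n → AddChar G ℂ,
      ∑ j ∈ Fintype.piFinset (fun _ : Fin n => T ×ˢ (wd0 k (2 * h) ×ˢ wd0 k (2 * h))),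
        (∏ s, (p (j s).1 / ((2 * h : ℕ) : ℝ) ^ (2 * k))) *
          (if ∀ i, ∏ s, (χ s) ^ (((j s).1 + (j s).2.1 + (j s).2.2) i) = 1 then (1 : ℝ) else 0) =
      ∑ X ∈ Fintype.piFinset (fun _ : Fin n => T), (∏ s, p (X s)) *
        ∏ i, ker (wd0 n (2 * h)) (wd0 n (2 * h)) (Kc χ) (fun s => X s i) := by
    intro χ
    rw [← factor T p (2 * h) (by omega) (Kc χ)]
    refine Finset.sum_congr rfl fun j _ => ?_
    congr 1
  rw [Finset.sum_congr rfl fun χ _ => hfac χ]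
  -- summation over subgroups
  set LW : ℕ := ⌈Λ * S⌉₊ + 2 * (2 * h) with hLW
  have hTint : ∀ w ∈ T, ∀ i, |w i| + 2 * ((2 * h : ℕ) : ℤ) ≤ LW := by
    intro w hw i
    have h1 : |(w i : ℝ)| ≤ (⌈Λ * S⌉₊ : ℝ) := (hT w hw i).trans (Nat.le_ceil _)
    have h2 : |w i| ≤ (⌈Λ * S⌉₊ : ℤ) := by exact_mod_cast h1
    rw [hLW]
    push_cast
    linarith
  have hLWb : (LW : ℝ) ≤ b * S := by
    have h1 := Nat.ceil_lt_add_one (show 0 ≤ Λ * S by positivity)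
    rw [hLW, hb]
    push_cast
    nlinarith
  have hal : a * S ≤ 2 * h := by rw [ha]; linarith
  have hSrank : AddGroup.rank G ≤ k := by omega
  have hno := momB_ii (n := n) (r0 := r0) (k := k) (P0 := P0) (h := h) (S := S) hn1 hc' hε hrii
    hP0b hS0 hlog hh1 hh hk2
  have hsg := sum_gamma (G := G) (n := n) (k := k) (l := 2 * h) (LW := LW) (P0 := P0) (r := r0)
    T p hp C4 δ (by linarith) hδ0.le hn1 hP01 (hr1a.trans hr0) hTint
    (fun Γ D f P v hL hA => by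
      obtain ⟨A, hA1, hA2⟩ := hA
      have := big_term (r := r0) T p S a b hS hS1 ha0 ha1 (l := 2 * h) (LW := LW)
        (by push_cast; exact hal) hb0 hLWb (by omega) hp hp1 hTint hL A hA1 hA2 hrank
      rw [hC4]
      exact this)
    (fun Γ D f P v hL hP hχ => by
      exact small_term T p S a c δ hS hS1 ha0 ha1 hal hh hp hp1 hc hpm hL hP hχ hn1 hSrank hno
        hρ0 hmn hρ1 hm0)
  refine hsg.trans ?_
  have hAA := momB_i (n := n) (r0 := r0) (k := k) (P0 := P0) hn1 hC60 hri hP01 hP0b hk1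
  have hPP : (16 * q * C4) ^ k ≤ (P0 : ℝ) ^ (r0 / 2) :=
    momB_iii (by omega) hB1.le hC6 hP0a
  have h2B : 2 * (3 * n : ℝ) ^ (2 * n * n) ≤ 2 ^ k := by
    have : Real.exp (Real.log 2 * k) = 2 ^ k := by
      rw [mul_comm, Real.exp_nat_mul, Real.exp_log (by norm_num)]
    rw [← this]; exact hk3
  exact momB_fin hq hk4 hC41 hAA (by positivity) h2B hPP

end DiamAb
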