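import Mathlib
import Pool.Agent.Lib_MP_0ccc25_pr.MomB
import Pool.Agent.Lib_MP_0ccc25_pr.LowOrd
import Pool.Agent.Lib_MP_0ccc25_pr.PhiNoise
import Pool.Agent.Lib_MP_0ccc25_pr.CovB
import Pool.Agent.Lib_MP_0ccc25_pr.DeepHole

/-!
Piece REGB. Regime B (`log S ≥ c' k`): covering with high probability.

PROOF. Take `n, r1, C6` from `momB`; `r0 ≥ max r1 2` with `32 (1 / 2) ^ r0 ≤ τ / 2`. Let `h = ⌊ε S / 4⌋₊` (so `ε S / 8 ≤ h ≤ ε S / 4` for large `k`, as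
`S ≥ exp (c' k)`), `l = 2 h`, `P0 = ⌈exp (C6 k / r0)⌉₊`. The family is `J = T ×ˢ (wd0 k l ×ˢ wd0 k l)`, weights `p X / l ^ (2 k)`, words `X + U + U'`,
of length at most `R1 + 2 k l ≤ R1 + ε k S`; `Σ_J = Σ_T p ∈ [3 / 4, 1]`. Let `R = R1 + 2 k l`.
Low characters: `Lo = {χ ≠ 1 | orderOf χ ≤ P0}`. `‖phi z J ...χ‖ ≤ Π_i ‖Σ_{t : Fin l} (1 / l) χ(z i) ^ t‖`. By `low_ord` with `X0 = P0`
and Markov, `Σ_{Lo} ‖phi‖ > 1 / 4` with probability at most `4 * 8 (1 / 2) ^ r0 ≤ τ / 2`.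
High characters: `Hi = {χ | P0 < orderOf χ}` (`≠ 1` as `P0 ≥ 1`). When `Lo` is small, `covB` with `T' = J` gives
`unc z R ≤ pr_x (1 / 4 ≤ ‖Y z x‖) ≤ 4 ^ n av_x ‖Y z x‖ ^ n`, `Y z x = Σ_{Hi} phi χ χ (-x)`. By `momB` for each `x`, the average over `z` and `x` of `‖Y‖ ^ n` is at most `3 (1 / (8 q)) ^ k`,
so by Markov `4 ^ n av_x ‖Y z x‖ ^ n ≥ (1 / (2 q)) ^ k` has probability at most `4 ^ n 3 (1 / (8 q)) ^ k (2 q) ^ k = 3 * 4 ^ n / 4 ^ k ≤ τ / 2` for large `k`.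
Otherwise `unc z R < (1 / (2 q)) ^ k` and `deep_hole` gives `Cov z R'` (`q R + R' ≤ q R'` follows from `hR'`).
-/

namespace DiamAb

open Finset

private theorem regB_sum_bx0 (l : ℕ) (g : ℤ → ℂ) :
    ∑ v ∈ bx0 l, g v = ∑ t : Fin l, g ((t : ℕ) : ℤ) := by
  symm
  refine Finset.sum_bij (fun (t : Fin l) _ => ((t : ℕ) : ℤ)) ?_ ?_ ?_ ?_
  · intro t _
    simp only [bx0, mem_Ico]
    exact ⟨by positivity, by exact_mod_cast t.2⟩
  · intro a _ b _ hab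
    apply Fin.ext
    exact_mod_cast hab
  · intro v hv
    simp only [bx0, mem_Ico] at hv
    refine ⟨⟨v.toNat, by omega⟩, mem_univ _, ?_⟩
    simp only
    omega
  · intro t _
    rfl

private theorem regB_card (k l : ℕ) : (wd0 k l).card = l ^ k := by
  simp [wd0, bx0]

/-- factorisation bound of the characteristic sum -/
private theorem regB_phi {G : Type} [AddCommGroup G] [Fintype G] {k : ℕ} (z : Fin k → G)
    (T : Finset (Fin k → ℤ)) (p : (Fin k → ℤ) → ℝ) (hp : ∀ w, 0 ≤ p w) (hp1 : ∑ w ∈ T, p w ≤ 1)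
    (l : ℕ) (hl : 1 ≤ l) (χ : AddChar G ℂ) :
    ‖phi z (T ×ˢ (wd0 k l ×ˢ wd0 k l)) (fun j => p j.1 / (l : ℝ) ^ (2 * k))
      (fun j => j.1 + j.2.1 + j.2.2) χ‖ ≤
      ∏ i, ‖∑ t : Fin l, (((1 : ℝ) / l : ℝ) : ℂ) * (χ (z i)) ^ ((t : ℕ) : ℤ)‖ := by
  have hnorm : ∀ y : G, ‖χ y‖ = 1 := fun y => AddChar.norm_apply χ y
  have hl0 : (0 : ℝ) < l := by exact_mod_cast hl
  have hlc : ((l : ℝ) : ℂ) ≠ 0 := by exact_mod_cast hl0.ne'
  have hFprod : ∑ U ∈ wd0 k l, (((1 : ℝ) / l : ℝ) : ℂ) ^ k * χ (dot U z) =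
      ∏ i, ∑ t : Fin l, (((1 : ℝ) / l : ℝ) : ℂ) * (χ (z i)) ^ ((t : ℕ) : ℤ) := by
    have h1 : ∀ i : Fin k, ∑ t : Fin l, (((1 : ℝ) / l : ℝ) : ℂ) * (χ (z i)) ^ ((t : ℕ) : ℤ) =
        ∑ v ∈ bx0 l, (((1 : ℝ) / l : ℝ) : ℂ) * (χ (z i)) ^ v := fun i =>
      (regB_sum_bx0 l (fun v => (((1 : ℝ) / l : ℝ) : ℂ) * (χ (z i)) ^ v)).symm
    rw [prod_congr rfl fun i _ => h1 i,
      Finset.prod_univ_sum (fun _ : Fin k => bx0 l)
        (fun i v => (((1 : ℝ) / l : ℝ) : ℂ) * (χ (z i)) ^ v)]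
    refine sum_congr rfl fun U _ => ?_
    rw [prod_mul_distrib, prod_const, card_univ, Fintype.card_fin, char_dot]
  have hF1 : ‖∑ U ∈ wd0 k l, (((1 : ℝ) / l : ℝ) : ℂ) ^ k * χ (dot U z)‖ ≤ 1 := by
    refine (norm_sum_le _ _).trans ?_
    have h1 : ∀ U ∈ wd0 k l, ‖(((1 : ℝ) / l : ℝ) : ℂ) ^ k * χ (dot U z)‖ = (1 / (l : ℝ)) ^ k := by
      intro U _
      rw [norm_mul, hnorm, mul_one, norm_pow, Complex.norm_real, Real.norm_of_nonneg (by positivity)]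
    rw [sum_congr rfl h1, sum_const, regB_card, nsmul_eq_mul]
    push_cast
    rw [← mul_pow, mul_one_div_cancel hl0.ne', one_pow]
  have hX : ‖∑ w ∈ T, (p w : ℂ) * χ (dot w z)‖ ≤ 1 := by
    refine ((norm_sum_le _ _).trans ?_).trans hp1
    refine sum_le_sum fun w _ => ?_
    rw [norm_mul, hnorm, mul_one, Complex.norm_real, Real.norm_of_nonneg (hp w)]
  have hphi : phi z (T ×ˢ (wd0 k l ×ˢ wd0 k l)) (fun j => p j.1 / (l : ℝ) ^ (2 * k))
      (fun j => j.1 + j.2.1 + j.2.2) χ =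
      (∑ w ∈ T, (p w : ℂ) * χ (dot w z)) *
        ((∑ U ∈ wd0 k l, (((1 : ℝ) / l : ℝ) : ℂ) ^ k * χ (dot U z)) *
        (∑ U ∈ wd0 k l, (((1 : ℝ) / l : ℝ) : ℂ) ^ k * χ (dot U z))) := by
    unfold phi
    rw [sum_mul_sum, ← sum_product', sum_mul_sum, ← sum_product']
    refine sum_congr rfl fun j _ => ?_
    simp only [dot_add, AddChar.map_add_eq_mul]
    push_cast
    rw [show (l : ℂ) ^ (2 * k) = (l : ℂ) ^ k * (l : ℂ) ^ k by rw [two_mul, pow_add]]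
    rw [one_div, inv_pow]
    have hlk : (l : ℂ) ^ k ≠ 0 := pow_ne_zero _ (by exact_mod_cast hl0.ne')
    field_simp
  rw [hphi, norm_mul, norm_mul, ← norm_prod, ← hFprod]
  have hA := norm_nonneg (∑ U ∈ wd0 k l, (((1 : ℝ) / l : ℝ) : ℂ) ^ k * χ (dot U z))
  calc _ ≤ 1 * (1 * ‖∑ U ∈ wd0 k l, (((1 : ℝ) / l : ℝ) : ℂ) ^ k * χ (dot U z)‖) := by
        gcongr
    _ = _ := by ring

private theorem regB_weight {k : ℕ} (T : Finset (Fin k → ℤ)) (p : (Fin k → ℤ) → ℝ)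
    (l : ℕ) (hl : 1 ≤ l) :
    ∑ j ∈ T ×ˢ (wd0 k l ×ˢ wd0 k l), p j.1 / (l : ℝ) ^ (2 * k) = ∑ w ∈ T, p w := by
  have hl0 : (0 : ℝ) < l := by exact_mod_cast hl
  rw [sum_product]
  refine sum_congr rfl fun w _ => ?_
  simp only [sum_const, card_product, regB_card, nsmul_eq_mul]
  push_cast
  rw [two_mul, pow_add]
  field_simp

private theorem regB_nrm {k l : ℕ} {U : Fin k → ℤ} (hU : U ∈ wd0 k l) : nrm U ≤ k * l := by
  unfold nrm
  have h1 : ∀ i ∈ (univ : Finset (Fin k)), (U i).natAbs ≤ l := by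
    intro i _
    have h2 := Fintype.mem_piFinset.1 hU i
    simp only [bx0, mem_Ico] at h2
    omega
  refine (sum_le_card_nsmul _ _ _ h1).trans ?_
  simp

open Classical in
private theorem regB_covJ {G : Type} [AddCommGroup G] [Fintype G] {k : ℕ} {ι : Type}
    (z : Fin k → G) (J : Finset ι) (p : ι → ℝ) (hp : ∀ j, 0 ≤ p j) (hp1 : ∑ j ∈ J, p j ≤ 1)
    (hp2 : 3 / 4 ≤ ∑ j ∈ J, p j) (W : ι → Fin k → ℤ) (R : ℕ) (hR : ∀ j ∈ J, nrm (W j) ≤ R)
    (Lo Hi : Finset (AddChar G ℂ)) (hd : Disjoint Lo Hi) (hLo : (1 : AddChar G ℂ) ∉ Lo)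
    (hHi : (1 : AddChar G ℂ) ∉ Hi) (hall : ∀ χ : AddChar G ℂ, χ ≠ 1 → χ ∈ Lo ∨ χ ∈ Hi)
    (hsmall : ∑ χ ∈ Lo, ‖phi z J p W χ‖ ≤ 1 / 4) :
    unc z R ≤ pr (fun x : G => 1 / 4 ≤ ‖∑ χ ∈ Hi, phi z J p W χ * χ (-x)‖) := by
  have h := covB z J J (Finset.Subset.refl J) p hp hp1 hp2 W R hR Lo Hi hd hLo hHi hall hsmall
  have h0 : ∑ j ∈ J \ J, p j = 0 := by simp
  rw [h0, mul_zero, zero_add] at h
  exact h

private theorem regB_swap {G : Type} [Fintype G] {k : ℕ} (f : (Fin k → G) → G → ℝ) :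
    av (fun z : Fin k → G => av (fun x : G => f z x)) =
      av (fun x : G => av (fun z : Fin k → G => f z x)) := by
  unfold av
  rw [← sum_div, ← sum_div, sum_comm, div_div, div_div, mul_comm]

/-- numerical facts for large `k` -/
private theorem regB_num (ε c' C6 τ : ℝ) (n r0 : ℕ) (hε : 0 < ε) (hc' : 0 < c') (hτ : 0 < τ)
    (hC : 2 * C6 / r0 ≤ c' / 2) :
    ∃ k1 : ℕ, ∀ k : ℕ, k1 ≤ k → 8 ≤ ε * Real.exp (c' * k) ∧
      (∀ l : ℝ, ε / 4 * Real.exp (c' * k) ≤ l → ∀ P : ℝ, 0 ≤ P → P ≤ 2 * Real.exp (C6 * k / r0) →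
        (1 + P ^ 2 / l) ^ k ≤ 2) ∧ 3 * 4 ^ n / (4 : ℝ) ^ k ≤ τ / 2 := by
  have hA : Filter.Tendsto (fun k : ℕ => c' * (k : ℝ)) Filter.atTop Filter.atTop :=
    Filter.Tendsto.const_mul_atTop hc' tendsto_natCast_atTop_atTop
  have h1 : ∀ᶠ k : ℕ in Filter.atTop, 8 ≤ ε * Real.exp (c' * k) := by
    have h2 : Filter.Tendsto (fun k : ℕ => ε * Real.exp (c' * k)) Filter.atTop Filter.atTop :=
      Filter.Tendsto.const_mul_atTop hε (Real.tendsto_exp_atTop.comp hA)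
    exact h2.eventually_ge_atTop 8
  have h3 : ∀ᶠ k : ℕ in Filter.atTop,
      (k : ℝ) * (16 / ε * Real.exp (-(c' / 2) * k)) ≤ Real.log 2 := by
    have h4 : Filter.Tendsto (fun k : ℕ => (16 / ε) * ((k : ℝ) ^ 1 * Real.exp (-(c' / 2) * k)))
        Filter.atTop (nhds ((16 / ε) * 0)) := by
      apply Filter.Tendsto.const_mul
      have h5 := Real.tendsto_pow_mul_exp_neg_atTop_nhds_zero 1
      have h6 : Filter.Tendsto (fun k : ℕ => (c' / 2) * (k : ℝ)) Filter.atTop Filter.atTop :=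
        Filter.Tendsto.const_mul_atTop (by positivity) tendsto_natCast_atTop_atTop
      have h7 := (h5.comp h6).const_mul (2 / c')
      rw [mul_zero] at h7
      refine h7.congr fun k => ?_
      simp only [Function.comp_apply, pow_one]
      rw [neg_mul]
      field_simp
    rw [mul_zero] at h4
    have h8 := h4.eventually (ge_mem_nhds (Real.log_pos one_lt_two) : ∀ᶠ x in nhds (0 : ℝ), x ≤ Real.log 2)
    filter_upwards [h8] with k hk
    calc (k : ℝ) * (16 / ε * Real.exp (-(c' / 2) * k))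
        = (16 / ε) * ((k : ℝ) ^ 1 * Real.exp (-(c' / 2) * k)) := by ring
      _ ≤ Real.log 2 := hk
  have h9 : ∀ᶠ k : ℕ in Filter.atTop, 3 * 4 ^ n / (4 : ℝ) ^ k ≤ τ / 2 := by
    have h10 : Filter.Tendsto (fun k : ℕ => 3 * 4 ^ n * (1 / 4 : ℝ) ^ k) Filter.atTop
        (nhds (3 * 4 ^ n * 0)) :=
      (tendsto_pow_atTop_nhds_zero_of_lt_one (by norm_num) (by norm_num)).const_mul _
    rw [mul_zero] at h10
    have h11 := h10.eventually (ge_mem_nhds (by positivity : (0 : ℝ) < τ / 2))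
    filter_upwards [h11] with k hk
    calc 3 * 4 ^ n / (4 : ℝ) ^ k = 3 * 4 ^ n * (1 / 4 : ℝ) ^ k := by
          rw [one_div, inv_pow]; ring
      _ ≤ τ / 2 := hk
  obtain ⟨k1, hk1⟩ := Filter.eventually_atTop.1 (h1.and (h3.and h9))
  refine ⟨k1, fun k hk => ?_⟩
  obtain ⟨ha, hb, hc⟩ := hk1 k hk
  refine ⟨ha, ?_, hc⟩
  intro l hl P hP0 hP
  have hlpos : 0 < l := lt_of_lt_of_le (by positivity) hl
  have hx : P ^ 2 / l ≤ 16 / ε * Real.exp (-(c' / 2) * k) := by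
    have h12 : P ^ 2 ≤ 4 * Real.exp (c' / 2 * k) := by
      calc P ^ 2 ≤ (2 * Real.exp (C6 * k / r0)) ^ 2 := by gcongr
        _ = 4 * Real.exp (2 * C6 / r0 * k) := by
            rw [mul_pow, ← Real.exp_nat_mul]
            congr 1
            · norm_num
            · congr 1; push_cast; ring
        _ ≤ 4 * Real.exp (c' / 2 * k) := by gcongr
    calc P ^ 2 / l ≤ 4 * Real.exp (c' / 2 * k) / (ε / 4 * Real.exp (c' * k)) := by gcongr
      _ = 16 / ε * Real.exp (-(c' / 2) * k) := by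
          have h13 : Real.exp (c' * k) = Real.exp (c' / 2 * k) * Real.exp (c' / 2 * k) := by
            rw [← Real.exp_add]; congr 1; ring
          have h14 : Real.exp (-(c' / 2) * k) = (Real.exp (c' / 2 * k))⁻¹ := by
            rw [← Real.exp_neg]; congr 1; ring
          rw [h13, h14]
          have := Real.exp_pos (c' / 2 * k)
          field_simp
          norm_num
  calc (1 + P ^ 2 / l) ^ k ≤ (Real.exp (P ^ 2 / l)) ^ k := by
        gcongr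
        rw [add_comm]
        exact Real.add_one_le_exp _
    _ = Real.exp (k * (P ^ 2 / l)) := by rw [← Real.exp_nat_mul]
    _ ≤ Real.exp (Real.log 2) := by
        apply Real.exp_le_exp.2
        refine le_trans ?_ hb
        gcongr
    _ = 2 := Real.exp_log two_pos

theorem regB (c ε Λ c' τ : ℝ) (q : ℕ) (hc : 0 < c) (hε : 0 < ε) (hε1 : ε ≤ 1) (hΛ : 1 ≤ Λ)
    (hc' : 0 < c') (hτ : 0 < τ) (hq : 2 ≤ q) :
    ∃ k0 r0 : ℕ, ∀ (G : Type) [AddCommGroup G] [Fintype G] (k R1 R' : ℕ) (S : ℝ)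
      (T : Finset (Fin k → ℤ)) (p : (Fin k → ℤ) → ℝ),
      k0 ≤ k → AddGroup.rank G + r0 ≤ k → S ^ k = Fintype.card G → 1 ≤ S →
      c' * k ≤ Real.log S → (∀ w ∈ T, ∀ i, |(w i : ℝ)| ≤ Λ * S) → (∀ w, 0 ≤ p w) →
      (∀ w ∈ T, p w ≤ Real.exp (-c * k) / Fintype.card G) → ∑ w ∈ T, p w ≤ 1 →
      3 / 4 ≤ ∑ w ∈ T, p w → (∀ w ∈ T, nrm w ≤ R1) →
      q * (R1 + ε * (k * S)) ≤ ((q : ℝ) - 1) * R' →
      pr (fun z : Fin k → G => ¬ Cov z R') ≤ τ := by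
  classical
  obtain ⟨n, r1, C6, hn, hr1, hC6, hC, hmom⟩ := momB c ε Λ c' q hc hε hε1 hΛ hc' hq
  obtain ⟨m, hm⟩ := exists_pow_lt_of_lt_one (by positivity : (0 : ℝ) < τ / 64)
    (by norm_num : (1 / 2 : ℝ) < 1)
  set r0 : ℕ := max (max r1 2) m with hr0
  have hr0r1 : r1 ≤ r0 := (le_max_left _ _).trans (le_max_left _ _)
  have hr02 : 2 ≤ r0 := (le_max_right _ _).trans (le_max_left _ _)
  have hr0m : m ≤ r0 := le_max_right _ _
  have hr1pos : (0 : ℝ) < r1 := by exact_mod_cast hr1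
  have hC' : 2 * C6 / r0 ≤ c' / 2 := by
    refine le_trans ?_ hC
    have : (r1 : ℝ) ≤ r0 := by exact_mod_cast hr0r1
    gcongr
  obtain ⟨km, hkm⟩ := hmom r0 hr0r1
  obtain ⟨k1, hk1⟩ := regB_num ε c' C6 τ n r0 hε hc' hτ hC'
  refine ⟨max (max km k1) 1, r0, ?_⟩
  intro G _ _ k R1 R' S T p hk hrank hS hS1 hlog hbd hp hpb hp1 hp2 hnr hR
  have hkkm : km ≤ k := ((le_max_left _ _).trans (le_max_left _ _)).trans hk
  have hkk1 : k1 ≤ k := ((le_max_right _ _).trans (le_max_left _ _)).trans hk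
  have hk1' : 1 ≤ k := (le_max_right _ _).trans hk
  obtain ⟨hA, hB, hD⟩ := hk1 k hkk1
  have hSpos : 0 < S := lt_of_lt_of_le one_pos hS1
  have hSexp : Real.exp (c' * k) ≤ S := by
    rw [← Real.exp_log hSpos]
    exact Real.exp_le_exp.2 hlog
  have hεS : 2 ≤ ε * S / 4 := by
    have : ε * Real.exp (c' * k) ≤ ε * S := by gcongr
    linarith
  set h : ℕ := ⌊ε * S / 4⌋₊ with hh
  have hhle : (h : ℝ) ≤ ε * S / 4 := Nat.floor_le (by positivity)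
  have hhge : ε * S / 8 ≤ h := by
    have := Nat.lt_floor_add_one (ε * S / 4)
    rw [← hh] at this
    linarith
  have hh1 : 1 ≤ h := by
    rw [hh]
    exact Nat.le_floor (by push_cast; linarith)
  set P0 : ℕ := ⌈Real.exp (C6 * k / r0)⌉₊ with hP0
  have hP01 : 1 ≤ P0 := Nat.one_le_ceil_iff.2 (Real.exp_pos _)
  have hP0le : (P0 : ℝ) ≤ 2 * Real.exp (C6 * k / r0) := by
    have h1 : (P0 : ℝ) < Real.exp (C6 * k / r0) + 1 := Nat.ceil_lt_add_one (Real.exp_pos _).le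
    have h2 : 1 ≤ Real.exp (C6 * k / r0) := Real.one_le_exp (by positivity)
    linarith
  have hl1 : 1 ≤ 2 * h := by omega
  have hlge : ε / 4 * Real.exp (c' * k) ≤ ((2 * h : ℕ) : ℝ) := by
    push_cast
    have : ε / 4 * Real.exp (c' * k) ≤ ε / 4 * S := by gcongr
    linarith
  have hX := hB _ hlge P0 (by positivity) hP0le
  -- the family
  set J : Finset ((Fin k → ℤ) × ((Fin k → ℤ) × (Fin k → ℤ))) :=
    T ×ˢ (wd0 k (2 * h) ×ˢ wd0 k (2 * h)) with hJ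
  set pj : (Fin k → ℤ) × ((Fin k → ℤ) × (Fin k → ℤ)) → ℝ :=
    fun j => p j.1 / ((2 * h : ℕ) : ℝ) ^ (2 * k) with hpj
  set W : (Fin k → ℤ) × ((Fin k → ℤ) × (Fin k → ℤ)) → Fin k → ℤ :=
    fun j => j.1 + j.2.1 + j.2.2 with hW
  set Lo : Finset (AddChar G ℂ) :=
    univ.filter (fun χ : AddChar G ℂ => χ ≠ 1 ∧ orderOf χ ≤ P0) with hLo
  set Hi : Finset (AddChar G ℂ) := univ.filter (fun χ : AddChar G ℂ => P0 < orderOf χ) with hHi
  set Lf : (Fin k → G) → ℝ := fun z => ∑ χ ∈ Lo,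
    ∏ i, ‖∑ t : Fin (2 * h), (((1 : ℝ) / (2 * h : ℕ) : ℝ) : ℂ) * (χ (z i)) ^ ((t : ℕ) : ℤ)‖ with hLf
  set Y : (Fin k → G) → G → ℝ := fun z x => ‖∑ χ ∈ Hi, phi z J pj W χ * χ (-x)‖ ^ n with hY
  have hLf0 : ∀ z, 0 ≤ Lf z := fun z => sum_nonneg fun χ _ => prod_nonneg fun i _ => norm_nonneg _
  have hY0 : ∀ z x, 0 ≤ Y z x := fun z x => pow_nonneg (norm_nonneg _) _
  have hlow : av Lf ≤ 8 * (1 / 2 : ℝ) ^ r0 := by
    have h1 := low_ord (G := G) k r0 (2 * h) P0 hr02 hrank hl1 hX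
    refine le_trans (le_of_eq ?_) h1
    rfl
  have hE1 : pr (fun z : Fin k → G => 1 / 4 < Lf z) ≤ τ / 2 := by
    refine (markov hLf0 (by norm_num : (0 : ℝ) < 1 / 4)).trans ?_
    have h1 : (1 / 2 : ℝ) ^ r0 ≤ (1 / 2 : ℝ) ^ m :=
      pow_le_pow_of_le_one (by norm_num) (by norm_num) hr0m
    have h2 : av Lf / (1 / 4) = 4 * av Lf := by ring
    rw [h2]
    linarith
  have hmom' : ∀ x : G, av (fun z : Fin k → G => Y z x) ≤ 3 * (1 / (8 * q : ℝ)) ^ k := by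
    intro x
    have h1 := hkm G k h P0 S T p x hkkm hrank hS hS1 hlog hhge hhle hP0 hbd hp hpb hp1
    refine le_trans (le_of_eq ?_) h1
    rfl
  have hq0 : (0 : ℝ) < q := by exact_mod_cast (by omega : 0 < q)
  have hE2 : pr (fun z : Fin k → G => (1 / (2 * q : ℝ)) ^ k ≤ 4 ^ n * av (fun x : G => Y z x)) ≤
      τ / 2 := by
    have h0 : ∀ z : Fin k → G, 0 ≤ 4 ^ n * av (fun x : G => Y z x) := fun z =>
      mul_nonneg (by positivity) (av_nonneg (hY0 z))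
    refine (markov' h0 (by positivity : (0 : ℝ) < (1 / (2 * q : ℝ)) ^ k)).trans ?_
    rw [av_const_mul, regB_swap]
    have h1 : av (fun x : G => av (fun z : Fin k → G => Y z x)) ≤ 3 * (1 / (8 * q : ℝ)) ^ k := by
      refine (av_mono hmom').trans ?_
      rw [av_const]
    have h2 : 4 ^ n * av (fun x : G => av (fun z : Fin k → G => Y z x)) / (1 / (2 * q : ℝ)) ^ k ≤
        4 ^ n * (3 * (1 / (8 * q : ℝ)) ^ k) / (1 / (2 * q : ℝ)) ^ k := by gcongr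
    refine h2.trans (le_trans (le_of_eq ?_) hD)
    rw [one_div, one_div, inv_pow, inv_pow]
    have h3 : (8 * (q : ℝ)) ^ k = 4 ^ k * (2 * (q : ℝ)) ^ k := by
      rw [← mul_pow]; congr 1; ring
    rw [h3]
    field_simp
  have hmain : ∀ z : Fin k → G, ¬ Cov z R' →
      (1 / 4 < Lf z ∨ (1 / (2 * q : ℝ)) ^ k ≤ 4 ^ n * av (fun x : G => Y z x)) := by
    intro z hz
    by_contra hcon
    push Not at hcon
    obtain ⟨hc1, hc2⟩ := hcon
    apply hz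
    have hpj0 : ∀ j, 0 ≤ pj j := fun j => div_nonneg (hp _) (by positivity)
    have hsum : ∑ j ∈ J, pj j = ∑ w ∈ T, p w := regB_weight T p (2 * h) hl1
    have hRj : ∀ j ∈ J, nrm (W j) ≤ R1 + 2 * (k * (2 * h)) := by
      intro j hj
      rw [hJ, mem_product, mem_product] at hj
      have h1 := nrm_add_le (j.1 + j.2.1) j.2.2
      have h2 := nrm_add_le j.1 j.2.1
      have h3 := hnr j.1 hj.1
      have h4 := regB_nrm hj.2.1
      have h5 := regB_nrm hj.2.2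
      show nrm (j.1 + j.2.1 + j.2.2) ≤ _
      linarith
    have hdisj : Disjoint Lo Hi := by
      rw [Finset.disjoint_left]
      intro χ h1 h2
      rw [hLo, mem_filter] at h1
      rw [hHi, mem_filter] at h2
      omega
    have h1Lo : (1 : AddChar G ℂ) ∉ Lo := by
      rw [hLo, mem_filter]
      rintro ⟨-, h1, -⟩
      exact h1 rfl
    have h1Hi : (1 : AddChar G ℂ) ∉ Hi := by
      rw [hHi, mem_filter, orderOf_one]
      rintro ⟨-, h1⟩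
      omega
    have hall : ∀ χ : AddChar G ℂ, χ ≠ 1 → χ ∈ Lo ∨ χ ∈ Hi := by
      intro χ hχ
      rw [hLo, hHi, mem_filter, mem_filter]
      rcases le_or_gt (orderOf χ) P0 with h1 | h1
      · exact Or.inl ⟨mem_univ _, hχ, h1⟩
      · exact Or.inr ⟨mem_univ _, h1⟩
    have hsmall : ∑ χ ∈ Lo, ‖phi z J pj W χ‖ ≤ 1 / 4 := by
      refine le_trans (sum_le_sum fun χ _ => ?_) hc1
      exact regB_phi z T p hp hp1 (2 * h) hl1 χ
    have hcov := regB_covJ z J pj hpj0 (hsum.trans_le hp1)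
      (hp2.trans_eq hsum.symm) W (R1 + 2 * (k * (2 * h))) hRj Lo Hi hdisj h1Lo h1Hi hall hsmall
    have hpr : pr (fun x : G => 1 / 4 ≤ ‖∑ χ ∈ Hi, phi z J pj W χ * χ (-x)‖) ≤
        4 ^ n * av (fun x : G => Y z x) := by
      have h1 : pr (fun x : G => 1 / 4 ≤ ‖∑ χ ∈ Hi, phi z J pj W χ * χ (-x)‖) ≤
          pr (fun x : G => (1 / 4 : ℝ) ^ n ≤ Y z x) := by
        apply pr_mono
        intro x hx
        exact pow_le_pow_left₀ (by norm_num) hx n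
      refine h1.trans ((markov' (hY0 z) (by positivity : (0 : ℝ) < (1 / 4) ^ n)).trans (le_of_eq ?_))
      rw [one_div, inv_pow]
      field_simp
    refine deep_hole hk1' hq z _ R' (lt_of_le_of_lt (hcov.trans hpr) hc2) ?_
    have hreal : (q : ℝ) * ((R1 : ℝ) + 2 * (k * (2 * h))) + R' ≤ q * R' := by
      have h1 : (q : ℝ) * ((R1 : ℝ) + 2 * (k * (2 * h))) ≤ q * (R1 + ε * (k * S)) := by
        apply mul_le_mul_of_nonneg_left _ hq0.le
        have h2 : (k : ℝ) * (2 * (2 * h)) ≤ k * (ε * S) :=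
          mul_le_mul_of_nonneg_left (by linarith) (by positivity)
        linarith
      linarith
    exact_mod_cast hreal
  calc pr (fun z : Fin k → G => ¬ Cov z R') ≤
      pr (fun z : Fin k → G => 1 / 4 < Lf z ∨
        (1 / (2 * q : ℝ)) ^ k ≤ 4 ^ n * av (fun x : G => Y z x)) := pr_mono hmain
    _ ≤ _ := pr_or_le _ _
    _ ≤ τ / 2 + τ / 2 := add_le_add hE1 hE2
    _ = τ := by ring

end DiamAb
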