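import Mathlib
import Pool.Agent.Lib_MP_0ccc25_pr.RegB
import Pool.Agent.Lib_MP_0ccc25_pr.DmEx

/-!
Piece APRIORIB. A priori bound for `Dm` in regime B.

PROOF of `aprioriB`. `regB` with `q = 2`, `ε = 1`, `c = log 2`, `Λ = 4`, `τ = 1 / 2`. Let `L = ⌈S⌉₊` (so `S ≤ L ≤ 2 S`), `T = wd k L`, `p w = (1 / (2 L)) ^ k` (constant): the total is `1`
(`card_bx`), `p ≤ (1 / (2 S)) ^ k = exp (-(log 2) k) / |G|`; `|w i| ≤ L ≤ 4 S`, `nrm w ≤ k L =: R1`. With `R' = ⌈2 (R1 + k S)⌉₊` we get some `z` with `Cov z R'`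
(`exists_of_pr_lt`), so `Dm ≤ R' ≤ 2 (2 + 1) k S + 1 ≤ 7 k S`. `C1 = 7`.
-/

namespace DiamAb

theorem aprioriB (c' : ℝ) (hc' : 0 < c') : ∃ (C1 : ℝ) (k0 r0 : ℕ), 1 ≤ C1 ∧
    ∀ (G : Type) [AddCommGroup G] [Fintype G] (k : ℕ) (S : ℝ),
      k0 ≤ k → AddGroup.rank G + r0 ≤ k → S ^ k = Fintype.card G → 1 ≤ S →
      c' * k ≤ Real.log S → (Dm k G : ℝ) ≤ C1 * (k * S) := by
  obtain ⟨k0, r0, H⟩ := regB (Real.log 2) 1 4 c' (1 / 2) 2 (Real.log_pos (by norm_num)) one_pos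
    le_rfl (by norm_num) hc' (by norm_num) le_rfl
  refine ⟨7, max k0 1, r0, by norm_num, ?_⟩
  intro G _ _ k S hk hr hS h1 hlog
  have hk0 : k0 ≤ k := (le_max_left _ _).trans hk
  have hk1 : 1 ≤ k := (le_max_right _ _).trans hk
  have hkR : (1 : ℝ) ≤ k := by exact_mod_cast hk1
  have hSL : S ≤ (⌈S⌉₊ : ℝ) := Nat.le_ceil S
  have hL2 : (⌈S⌉₊ : ℝ) ≤ 2 * S := by
    have := (Nat.ceil_lt_add_one (by linarith : 0 ≤ S)).le
    linarith
  generalize ⌈S⌉₊ = L at hSL hL2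
  have hL0 : (0 : ℝ) < L := by linarith
  have hcov := H G k (k * L) ⌈2 * ((k : ℝ) * L + k * S)⌉₊ S (wd k L)
    (fun _ => (1 / (2 * (L : ℝ))) ^ k) hk0 hr hS h1 hlog ?_ ?_ ?_ ?_ ?_ ?_ ?_
  · obtain ⟨z, hz⟩ := exists_of_pr_lt (lt_of_le_of_lt hcov (by norm_num))
    have h2 : Dm k G ≤ ⌈2 * ((k : ℝ) * L + k * S)⌉₊ := dm_le z hz
    have h3 : (Dm k G : ℝ) ≤ (⌈2 * ((k : ℝ) * L + k * S)⌉₊ : ℝ) := by exact_mod_cast h2
    have h4 : (⌈2 * ((k : ℝ) * L + k * S)⌉₊ : ℝ) ≤ 2 * ((k : ℝ) * L + k * S) + 1 :=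
      (Nat.ceil_lt_add_one (by positivity)).le
    have h5 : (k : ℝ) * L ≤ k * (2 * S) := mul_le_mul_of_nonneg_left hL2 (by positivity)
    have h6 : 1 ≤ (k : ℝ) * S := by nlinarith
    nlinarith
  · intro w hw i
    rw [mem_wd] at hw
    have := mem_bx.mp (hw i)
    have h2 : |(w i : ℝ)| ≤ L := by
      rw [abs_le]
      constructor
      · exact_mod_cast this.1
      · exact_mod_cast this.2.le
    linarith
  · intro w
    positivity
  · intro w _
    rw [← hS]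
    have h2 : Real.exp (-Real.log 2 * k) = (1 / 2 : ℝ) ^ k := by
      rw [neg_mul, mul_comm, Real.exp_neg, Real.exp_nat_mul, Real.exp_log (by norm_num), one_div,
        inv_pow]
    rw [h2, ← div_pow]
    apply pow_le_pow_left₀ (by positivity)
    rw [div_div]
    apply one_div_le_one_div_of_le (by positivity)
    linarith
  · rw [Finset.sum_const, nsmul_eq_mul]
    have h2 : ((wd k L).card : ℝ) = (2 * (L : ℝ)) ^ k := by
      unfold wd
      rw [Fintype.card_piFinset, Finset.prod_const, card_bx, Finset.card_univ, Fintype.card_fin]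
      push_cast
      ring
    rw [h2, ← mul_pow, mul_one_div_cancel (by positivity), one_pow]
  · rw [Finset.sum_const, nsmul_eq_mul]
    have h2 : ((wd k L).card : ℝ) = (2 * (L : ℝ)) ^ k := by
      unfold wd
      rw [Fintype.card_piFinset, Finset.prod_const, card_bx, Finset.card_univ, Fintype.card_fin]
      push_cast
      ring
    rw [h2, ← mul_pow, mul_one_div_cancel (by positivity), one_pow]
    norm_num
  · intro w hw
    rw [mem_wd] at hw
    unfold nrm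
    calc ∑ i, (w i).natAbs ≤ ∑ _i : Fin k, L := by
          apply Finset.sum_le_sum
          intro i _
          have := mem_bx.mp (hw i)
          omega
      _ = k * L := by simp
  · have h2 := Nat.le_ceil (2 * ((k : ℝ) * L + k * S))
    push_cast
    linarith

end DiamAb
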