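import Mathlib
import Pool.Agent.Lib_MP_0ccc25_pr.NuEnt

/-!
Data for the construction of the good coordinate law from the law of an optimal generating tuple.
-/

namespace DiamAb

open Finset

noncomputable section

/-- the smoothed law `μs`, its kept part, and the new part making it uniform modulo `M` -/
structure MixD (ε s1 Λ S : ℝ) (M L L' Ln B : ℕ) (μs kept new : ℤ → ℝ) (mb : ℝ) : Prop where
  hε : 0 < ε ∧ ε ≤ 1 / 4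
  hs1 : 0 < s1 ∧ s1 ≤ 1 / 2
  hΛ : 3 / √s1 ≤ Λ
  hS : 1 ≤ S
  hM : 1 ≤ M
  hLn : 1 ≤ Ln ∧ S ≤ Ln ∧ (Ln : ℝ) ≤ 4 * S
  hL' : 3 * S / √s1 ≤ L' ∧ (L' : ℝ) ≤ (3 / √s1 + 3) * S
  hL : Λ * S ≤ L ∧ (L : ℝ) ≤ (Λ + 3) * S
  ord : L ≤ B ∧ Ln ≤ L ∧ L' ≤ L
  dvd : M ∣ L ∧ M ∣ L' ∧ M ∣ Ln
  law : IsLaw μs B
  sup0 : ∀ v, μs v ≤ 1 / (ε * S)
  sup : ∀ (g : ℕ) (v : ℤ), 1 ≤ g → rs μs B g v ≤ 1 / g + 1 / (ε * S)
  kept1 : ∀ v, 0 ≤ kept v ∧ kept v ≤ μs v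
  kept2 : ∀ v, v ∉ bx L → kept v = 0
  new1 : ∀ v, 0 ≤ new v ∧ new v ≤ 1 / (2 * Ln)
  new2 : ∀ v, v ∉ bx Ln → new v = 0
  tot : ∑ v ∈ bx B, kept v + ∑ v ∈ bx B, new v = 1
  small : ∑ v ∈ bx B, new v ≤ mb
  exact : ∀ v, rs kept B M v + rs new B M v = 1 / M

/-- the mixture -/
def mix (ε S : ℝ) (L L' : ℕ) (kept new : ℤ → ℝ) (v : ℤ) : ℝ :=
  (1 - ε * S / L' - ε * S / L) * (kept v + new v) + ε * S / L' * nu L' v + ε * S / L * nu L v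

end

end DiamAb
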