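import Mathlib
import Pool.Agent.Lib_MP_0ccc25_pr.MixDefs

/-!
Piece MIXLAW. First properties of the mixture.

PROOF. `δ1 = ε S / L' ≤ ε √s1 / 3` and `δ2 = ε S / L ≤ ε / Λ ≤ ε √s1 / 3`, so `1 - δ1 - δ2 ≥ 1 / 2`, `δ1, δ2 > 0`.
The four functions `kept`, `new`, `nu L'`, `nu L` are nonnegative, vanish outside `bx L` (as
`Ln, L' ≤ L`), and the total mass is `(1 - δ1 - δ2) * 1 + δ1 + δ2 = 1` (`sum_bx_eq` to pass between the
boxes `L` and `B`). Positivity on `bx L`: the term `δ2 nu L v > 0`.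
Exactness: `rs` is additive in the law; `rs (kept) L M + rs (new) L M = 1 / M` by `rs_bx_eq` and `exact`;
`rs (nu L') L M = rs (nu L') L' M = 1 / M` by `rs_bx_eq` and `nu_exact`, `rs (nu L) L M = 1 / M`.
Mean: `Ab` is additive; `Ab kept ≤ Ab μs`, `Ab new ≤ Ln mb ≤ 4 S mb` (`|v| ≤ Ln` on `bx Ln`),
`Ab (nu L') ≤ L'`, `Ab (nu L) ≤ L` (`nu_ab`), so
`Ab mix ≤ Ab μs + 4 S mb + δ1 L' + δ2 L = Ab μs + 4 S mb + 2 ε S`. (`mb ≥ 0` as it bounds a sum of nonnegative terms.)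
-/

namespace DiamAb

open Finset

variable {ε s1 Λ S : ℝ} {M L L' Ln B : ℕ} {μs kept new : ℤ → ℝ} {mb : ℝ}

/-- the elementary size facts on the parameters -/
theorem mixlaw_sizes (D : MixD ε s1 Λ S M L L' Ln B μs kept new mb) :
    0 < √s1 ∧ √s1 ≤ 1 ∧ 3 ≤ Λ ∧ 1 ≤ L ∧ 1 ≤ L' ∧ 3 * S ≤ L' ∧ 3 * S ≤ L ∧
      3 * S / √s1 ≤ L ∧ 0 < ε * S / L' ∧
      0 < ε * S / L ∧ ε * S / L' ≤ ε * √s1 / 3 ∧ ε * S / L ≤ ε * √s1 / 3 ∧
      1 / 2 ≤ 1 - ε * S / L' - ε * S / L := by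
  obtain ⟨he, he'⟩ := D.hε
  obtain ⟨hs, hs'⟩ := D.hs1
  have hr : 0 < √s1 := Real.sqrt_pos.2 hs
  have hr1 : √s1 ≤ 1 := by
    rw [Real.sqrt_le_one]
    linarith
  have hS : 0 < S := lt_of_lt_of_le one_pos D.hS
  have h3 : (3 : ℝ) ≤ 3 / √s1 := by
    rw [le_div_iff₀ hr]
    nlinarith
  have hΛ : 3 ≤ Λ := h3.trans D.hΛ
  have hL'1 : 3 * S ≤ L' := by
    refine le_trans ?_ D.hL'.1
    have : 3 * S = 3 * S := rfl
    rw [le_div_iff₀ hr]
    nlinarith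
  have hLr : 3 * S / √s1 ≤ L := by
    refine le_trans ?_ D.hL.1
    have h := mul_le_mul_of_nonneg_right D.hΛ hS.le
    calc 3 * S / √s1 = 3 / √s1 * S := by ring
      _ ≤ Λ * S := h
  have hL1 : 3 * S ≤ L := by
    refine le_trans ?_ D.hL.1
    exact mul_le_mul_of_nonneg_right hΛ hS.le
  have hL'p : (0 : ℝ) < L' := by linarith [D.hS]
  have hLp : (0 : ℝ) < L := by linarith [D.hS]
  have hL'n : 1 ≤ L' := by exact_mod_cast hL'p
  have hLn : 1 ≤ L := by exact_mod_cast hLp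
  have key : ∀ K : ℝ, 3 * S / √s1 ≤ K → ε * S / K ≤ ε * √s1 / 3 := by
    intro K hK
    have hKp : 0 < K := lt_of_lt_of_le (by positivity) hK
    rw [div_le_iff₀ hKp]
    have h1 : ε * √s1 / 3 * (3 * S / √s1) ≤ ε * √s1 / 3 * K :=
      mul_le_mul_of_nonneg_left hK (by positivity)
    have h2 : ε * √s1 / 3 * (3 * S / √s1) = ε * S := by
      field_simp
    linarith
  have k1 := key L' D.hL'.1
  have k2 := key L hLr
  refine ⟨hr, hr1, hΛ, hLn, hL'n, hL'1, hL1, hLr, by positivity, by positivity, k1, k2, ?_⟩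
  have : ε * √s1 ≤ 1 / 4 := by nlinarith
  linarith

theorem mixlaw_sum (ε S : ℝ) (L L' : ℕ) (kept new : ℤ → ℝ) (s : Finset ℤ) (F : ℤ → ℝ) :
    ∑ v ∈ s, mix ε S L L' kept new v * F v =
      (1 - ε * S / L' - ε * S / L) * (∑ v ∈ s, kept v * F v + ∑ v ∈ s, new v * F v) +
        ε * S / L' * ∑ v ∈ s, nu L' v * F v + ε * S / L * ∑ v ∈ s, nu L v * F v := by
  rw [← sum_add_distrib, mul_sum, mul_sum, mul_sum, ← sum_add_distrib, ← sum_add_distrib]
  refine sum_congr rfl fun v _ => ?_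
  unfold mix
  ring

theorem mixlaw_sum' (ε S : ℝ) (L L' : ℕ) (kept new : ℤ → ℝ) (s : Finset ℤ) :
    ∑ v ∈ s, mix ε S L L' kept new v =
      (1 - ε * S / L' - ε * S / L) * (∑ v ∈ s, kept v + ∑ v ∈ s, new v) +
        ε * S / L' * ∑ v ∈ s, nu L' v + ε * S / L * ∑ v ∈ s, nu L v := by
  have := mixlaw_sum ε S L L' kept new s (fun _ => 1)
  simpa using this

theorem mixlaw_rs (ε S : ℝ) (L L' : ℕ) (kept new : ℤ → ℝ) (B g : ℕ) (v : ℤ) :
    rs (mix ε S L L' kept new) B g v =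
      (1 - ε * S / L' - ε * S / L) * (rs kept B g v + rs new B g v) +
        ε * S / L' * rs (nu L') B g v + ε * S / L * rs (nu L) B g v :=
  mixlaw_sum' ε S L L' kept new _

theorem mixlaw_nu_nonneg (L : ℕ) (v : ℤ) : 0 ≤ nu L v := by
  unfold nu; split_ifs <;> positivity

theorem mixlaw_nu_out {L : ℕ} {v : ℤ} (hv : v ∉ bx L) : nu L v = 0 := by
  unfold nu; rw [if_neg hv]

theorem mix_law (D : MixD ε s1 Λ S M L L' Ln B μs kept new mb) :
    IsLaw (mix ε S L L' kept new) L := by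
  obtain ⟨hr, hr1, hΛ, hLn, hL'n, hL'1, hL1, hLr, d1, d2, k1, k2, kh⟩ := mixlaw_sizes D
  refine ⟨fun v => ?_, fun v hv => ?_, ?_⟩
  · unfold mix
    have a1 := (D.kept1 v).1
    have a2 := (D.new1 v).1
    have a3 := mixlaw_nu_nonneg L v
    have a4 := mixlaw_nu_nonneg L' v
    have a5 : 0 ≤ 1 - ε * S / L' - ε * S / L := by linarith
    positivity
  · unfold mix
    rw [D.kept2 v hv, D.new2 v (fun h => hv (bx_subset D.ord.2.1 h)), mixlaw_nu_out hv,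
      mixlaw_nu_out (fun h => hv (bx_subset D.ord.2.2 h))]
    ring
  · rw [mixlaw_sum']
    have e1 : ∑ v ∈ bx L, kept v = ∑ v ∈ bx B, kept v := (sum_bx_eq D.ord.1 D.kept2).symm
    have e2 : ∑ v ∈ bx L, new v = ∑ v ∈ bx B, new v :=
      (sum_bx_eq D.ord.1 (fun v hv => D.new2 v (fun h => hv (bx_subset D.ord.2.1 h)))).symm
    have e3 : ∑ v ∈ bx L, nu L' v = 1 := by
      rw [sum_bx_eq D.ord.2.2 (fun v hv => mixlaw_nu_out hv)]
      exact (nu_law hL'n).sum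
    have e4 : ∑ v ∈ bx L, nu L v = 1 := (nu_law hLn).sum
    rw [e1, e2, D.tot, e3, e4]
    ring

theorem mix_pos (D : MixD ε s1 Λ S M L L' Ln B μs kept new mb) (v : ℤ) (hv : v ∈ bx L) :
    0 < mix ε S L L' kept new v := by
  obtain ⟨hr, hr1, hΛ, hLn, hL'n, hL'1, hL1, hLr, d1, d2, k1, k2, kh⟩ := mixlaw_sizes D
  unfold mix
  have a1 := (D.kept1 v).1
  have a2 := (D.new1 v).1
  have a3 : 0 < nu L v := by
    unfold nu
    rw [if_pos hv]
    have : (0 : ℝ) < L := by exact_mod_cast hLn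
    positivity
  have a4 := mixlaw_nu_nonneg L' v
  have a5 : 0 ≤ 1 - ε * S / L' - ε * S / L := by linarith
  have b1 : 0 ≤ (1 - ε * S / L' - ε * S / L) * (kept v + new v) :=
    mul_nonneg a5 (add_nonneg a1 a2)
  have b2 : 0 ≤ ε * S / L' * nu L' v := mul_nonneg d1.le a4
  have b3 : 0 < ε * S / L * nu L v := mul_pos d2 a3
  linarith

theorem mix_unif (D : MixD ε s1 Λ S M L L' Ln B μs kept new mb) (v : ℤ) :
    rs (mix ε S L L' kept new) L M v = 1 / M := by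
  obtain ⟨hr, hr1, hΛ, hLn, hL'n, hL'1, hL1, hLr, d1, d2, k1, k2, kh⟩ := mixlaw_sizes D
  rw [mixlaw_rs]
  have e1 : rs kept L M v = rs kept B M v := (rs_bx_eq D.ord.1 D.kept2 M v).symm
  have e2 : rs new L M v = rs new B M v :=
    (rs_bx_eq D.ord.1 (fun v hv => D.new2 v (fun h => hv (bx_subset D.ord.2.1 h))) M v).symm
  have e3 : rs (nu L') L M v = 1 / M := by
    rw [rs_bx_eq D.ord.2.2 (fun v hv => mixlaw_nu_out hv) M v]
    exact nu_exact L' M hL'n D.hM D.dvd.2.1 v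
  have e4 : rs (nu L) L M v = 1 / M := nu_exact L M hLn D.hM D.dvd.1 v
  rw [e1, e2, D.exact v, e3, e4]
  ring

theorem mixlaw_mb (D : MixD ε s1 Λ S M L L' Ln B μs kept new mb) : 0 ≤ mb :=
  (sum_nonneg fun v _ => (D.new1 v).1).trans D.small

theorem mix_ab (D : MixD ε s1 Λ S M L L' Ln B μs kept new mb) :
    Ab (mix ε S L L' kept new) L ≤ Ab μs B + 4 * S * mb + 2 * ε * S := by
  obtain ⟨hr, hr1, hΛ, hLn, hL'n, hL'1, hL1, hLr, d1, d2, k1, k2, kh⟩ := mixlaw_sizes D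
  have hmb := mixlaw_mb D
  have hS : 0 < S := lt_of_lt_of_le one_pos D.hS
  have he := D.hε.1
  unfold Ab
  rw [mixlaw_sum]
  have c1 : ∑ v ∈ bx L, kept v * |(v : ℝ)| ≤ ∑ v ∈ bx B, μs v * |(v : ℝ)| := by
    rw [← sum_bx_eq D.ord.1 (f := fun v => kept v * |(v : ℝ)|)
      (fun v hv => by rw [D.kept2 v hv, zero_mul])]
    exact sum_le_sum fun v _ => mul_le_mul_of_nonneg_right (D.kept1 v).2 (abs_nonneg _)
  have c2 : ∑ v ∈ bx L, new v * |(v : ℝ)| ≤ 4 * S * mb := by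
    have h1 : ∑ v ∈ bx L, new v * |(v : ℝ)| ≤ ∑ v ∈ bx L, new v * (4 * S) := by
      refine sum_le_sum fun v _ => ?_
      by_cases hv : v ∈ bx Ln
      · refine mul_le_mul_of_nonneg_left ?_ (D.new1 v).1
        refine le_trans ?_ D.hLn.2.2
        rw [mem_bx] at hv
        rw [abs_le]
        constructor
        · have := hv.1
          exact_mod_cast this
        · have := hv.2.le
          exact_mod_cast this
      · rw [D.new2 v hv, zero_mul, zero_mul]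
    have h2 : ∑ v ∈ bx L, new v ≤ mb := by
      rw [← sum_bx_eq D.ord.1 (f := new)
        (fun v hv => D.new2 v (fun h => hv (bx_subset D.ord.2.1 h)))]
      exact D.small
    rw [← sum_mul] at h1
    have h3 := mul_le_mul_of_nonneg_right h2 (by positivity : (0 : ℝ) ≤ 4 * S)
    linarith
  have c3 : ∑ v ∈ bx L, nu L' v * |(v : ℝ)| ≤ L' := by
    rw [sum_bx_eq D.ord.2.2 (f := fun v => nu L' v * |(v : ℝ)|)
      (fun v hv => by rw [mixlaw_nu_out hv, zero_mul])]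
    exact nu_ab L' hL'n
  have c4 : ∑ v ∈ bx L, nu L v * |(v : ℝ)| ≤ L := nu_ab L hLn
  have n1 : 0 ≤ ∑ v ∈ bx L, kept v * |(v : ℝ)| :=
    sum_nonneg fun v _ => mul_nonneg (D.kept1 v).1 (abs_nonneg _)
  have n2 : 0 ≤ ∑ v ∈ bx L, new v * |(v : ℝ)| :=
    sum_nonneg fun v _ => mul_nonneg (D.new1 v).1 (abs_nonneg _)
  have m1 : (1 - ε * S / L' - ε * S / L) *
      (∑ v ∈ bx L, kept v * |(v : ℝ)| + ∑ v ∈ bx L, new v * |(v : ℝ)|) ≤
      1 * (∑ v ∈ bx L, kept v * |(v : ℝ)| + ∑ v ∈ bx L, new v * |(v : ℝ)|) :=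
    mul_le_mul_of_nonneg_right (by linarith) (by linarith)
  have m2 : ε * S / L' * ∑ v ∈ bx L, nu L' v * |(v : ℝ)| ≤ ε * S / L' * L' :=
    mul_le_mul_of_nonneg_left c3 d1.le
  have m3 : ε * S / L * ∑ v ∈ bx L, nu L v * |(v : ℝ)| ≤ ε * S / L * L :=
    mul_le_mul_of_nonneg_left c4 d2.le
  have hL'p : (L' : ℝ) ≠ 0 := by
    have : (0 : ℝ) < L' := by exact_mod_cast hL'n
    exact this.ne'
  have hLp : (L : ℝ) ≠ 0 := by
    have : (0 : ℝ) < L := by exact_mod_cast hLn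
    exact this.ne'
  rw [div_mul_cancel₀ _ hL'p] at m2
  rw [div_mul_cancel₀ _ hLp] at m3
  linarith

end DiamAb
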