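import Mathlib
import Pool.Agent.Lib_MP_0ccc25_pr.MixLaw

/-!
Piece MIXRS. Bounds for the residue laws of the mixture.

PROOF. Upper bound, `g ≥ 1`: `rs kept L g ≤ rs μs B g ≤ 1 / g + 1 / (ε S)`; `rs new L g ≤ 1 / g + 1 / (2 Ln)`, because
`new ≤ 1 / (2 Ln)` on `bx Ln` and zero elsewhere, i.e. `new ≤ nu Ln`, and `nu_rs_le` (with `rs_bx_eq`);
`rs (nu L') L g ≤ 1 / g + 1 / (2 L')`, `rs (nu L) L g ≤ 1 / g + 1 / (2 L)`; all of `Ln, L', L` are at least `S`. The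
mixture is at most `(1 / g + 1 / (ε S)) + (1 / g + 1 / (2 S)) ≤ (2 + 1 / ε + 1 / 2) / min g S ≤ (4 / ε) / min g S`
(`ε ≤ 1 / 4`; a convex combination of the first sum and of numbers at most `1 / g + 1 / (2 S)`).
Lower bound, `1 ≤ g ≤ 2 L`: `rs mix ≥ δ2 rs (nu L) L g ≥ δ2 / (2 g)` (`nu_rs_ge'`), `δ2 = ε S / L ≥ ε / (Λ + 3)`. If `g ≤ S` this is at least
`(ε / (2 (Λ + 3))) / g`; if `g > S`, as `g ≤ 2 L ≤ 2 (Λ + 3) S` it is at least `ε / (4 (Λ + 3) ^ 2 S)`.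
Pointwise: `mix v ≤ (1 - δ1 - δ2) (1 / (ε S) + 1 / (2 Ln)) + δ1 / (2 L') + δ2 / (2 L) ≤ (1 / ε + 1 / 2) / S`, and on `bx L`
`mix v ≥ δ2 / (2 L) ≥ ε / (2 (Λ + 3) ^ 2 S)`.
-/

namespace DiamAb

open Finset

variable {ε s1 Λ S : ℝ} {M L L' Ln B : ℕ} {μs kept new : ℤ → ℝ} {mb : ℝ}

theorem mixrs_nu_le {L : ℕ} (S : ℝ) (hS : 0 < S) (hL : S ≤ L) (v : ℤ) : nu L v ≤ 1 / (2 * S) := by
  unfold nu
  split_ifs
  · exact one_div_le_one_div_of_le (by positivity) (by linarith)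
  · positivity

theorem mixrs_new_le (D : MixD ε s1 Λ S M L L' Ln B μs kept new mb) (v : ℤ) :
    new v ≤ nu Ln v := by
  unfold nu
  split_ifs with h
  · exact (D.new1 v).2
  · exact (D.new2 v h).le

theorem mixrs_convex {d1 d2 a b x y : ℝ} (hd1 : 0 ≤ d1) (hd2 : 0 ≤ d2) (hd : 0 ≤ 1 - d1 - d2)
    (k n p q : ℝ) (hk : k ≤ a) (hn : n ≤ b) (hp : p ≤ b) (hq : q ≤ b) (ha : 0 ≤ a)
    (hx : x = (1 - d1 - d2) * (k + n) + d1 * p + d2 * q) (hy : a + b ≤ y) : x ≤ y := by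
  rw [hx]
  have h1 : (1 - d1 - d2) * (k + n) ≤ (1 - d1 - d2) * (a + b) :=
    mul_le_mul_of_nonneg_left (by linarith) hd
  have h2 : d1 * p ≤ d1 * (a + b) := mul_le_mul_of_nonneg_left (by linarith) hd1
  have h3 : d2 * q ≤ d2 * (a + b) := mul_le_mul_of_nonneg_left (by linarith) hd2
  nlinarith

theorem mix_rs_le (D : MixD ε s1 Λ S M L L' Ln B μs kept new mb) (g : ℕ) (hg : 1 ≤ g) (v : ℤ) :
    rs (mix ε S L L' kept new) L g v ≤ (4 / ε) / min (g : ℝ) S := by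
  obtain ⟨hr, hr1, hΛ, hLn, hL'n, hL'1, hL1, hLr, d1, d2, k1, k2, kh⟩ := mixlaw_sizes D
  have hS : 0 < S := lt_of_lt_of_le one_pos D.hS
  obtain ⟨he, he'⟩ := D.hε
  have hg0 : (0 : ℝ) < g := by exact_mod_cast hg
  have hm : 0 < min (g : ℝ) S := lt_min hg0 hS
  have c1 : rs kept L g v ≤ 1 / g + 1 / (ε * S) := by
    rw [← rs_bx_eq D.ord.1 D.kept2 g v]
    refine le_trans ?_ (D.sup g v hg)
    exact sum_le_sum fun u _ => (D.kept1 u).2
  have aux : ∀ K : ℕ, 1 ≤ K → S ≤ (K : ℝ) → rs (nu K) K g v ≤ 1 / g + 1 / (2 * S) := by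
    intro K hK hSK
    refine (nu_rs_le K g hK hg v).trans ?_
    have : (1 : ℝ) / (2 * K) ≤ 1 / (2 * S) :=
      one_div_le_one_div_of_le (by positivity) (by linarith)
    linarith
  have c2 : rs new L g v ≤ 1 / g + 1 / (2 * S) := by
    have h1 : rs new L g v ≤ rs (nu Ln) L g v := sum_le_sum fun u _ => mixrs_new_le D u
    rw [rs_bx_eq D.ord.2.1 (fun v hv => mixlaw_nu_out hv) g v] at h1
    exact h1.trans (aux Ln D.hLn.1 D.hLn.2.1)
  have c3 : rs (nu L') L g v ≤ 1 / g + 1 / (2 * S) := by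
    rw [rs_bx_eq D.ord.2.2 (fun v hv => mixlaw_nu_out hv) g v]
    exact aux L' hL'n (by linarith)
  have c4 : rs (nu L) L g v ≤ 1 / g + 1 / (2 * S) := aux L hLn (by linarith)
  refine mixrs_convex d1.le d2.le (by linarith) _ _ _ _ c1 c2 c3 c4 (by positivity)
    (mixlaw_rs ε S L L' kept new L g v) ?_
  have e1 : 1 / (g : ℝ) ≤ 1 / min (g : ℝ) S := one_div_le_one_div_of_le hm (min_le_left _ _)
  have e2 : 1 / S ≤ 1 / min (g : ℝ) S := one_div_le_one_div_of_le hm (min_le_right _ _)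
  have e3 : 1 / (ε * S) = 1 / ε * (1 / S) := by rw [one_div_mul_one_div]
  have e4 : 1 / (2 * S) = 1 / 2 * (1 / S) := by rw [one_div_mul_one_div]
  have e5 : (4 / ε) / min (g : ℝ) S = 4 * (1 / ε) * (1 / min (g : ℝ) S) := by ring
  have e6 : (4 : ℝ) ≤ 1 / ε := by
    rw [le_div_iff₀ he]; linarith
  have e7 : 0 < 1 / min (g : ℝ) S := by positivity
  rw [e3, e4, e5]
  have e8 : 1 / ε * (1 / S) ≤ 1 / ε * (1 / min (g : ℝ) S) :=
    mul_le_mul_of_nonneg_left e2 (by positivity)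
  nlinarith

theorem mix_rs_ge (D : MixD ε s1 Λ S M L L' Ln B μs kept new mb) (g : ℕ) (hg : 1 ≤ g)
    (hgL : g ≤ 2 * L) (v : ℤ) :
    (ε / (4 * (Λ + 3) ^ 2)) / min (g : ℝ) S ≤ rs (mix ε S L L' kept new) L g v := by
  obtain ⟨hr, hr1, hΛ, hLn, hL'n, hL'1, hL1, hLr, d1, d2, k1, k2, kh⟩ := mixlaw_sizes D
  have hS : 0 < S := lt_of_lt_of_le one_pos D.hS
  obtain ⟨he, he'⟩ := D.hε
  have hg0 : (0 : ℝ) < g := by exact_mod_cast hg
  have hL0 : (0 : ℝ) < L := by exact_mod_cast hLn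
  have h1 : ε * S / L * (1 / (2 * g)) ≤ rs (mix ε S L L' kept new) L g v := by
    rw [mixlaw_rs]
    have a1 : 0 ≤ rs kept L g v := rs_nonneg (fun u => (D.kept1 u).1) L g v
    have a2 : 0 ≤ rs new L g v := rs_nonneg (fun u => (D.new1 u).1) L g v
    have a3 : 0 ≤ rs (nu L') L g v := rs_nonneg (mixlaw_nu_nonneg L') L g v
    have a4 : (1 : ℝ) / (2 * g) ≤ rs (nu L) L g v := nu_rs_ge' L g hLn hg hgL v
    have b1 : 0 ≤ (1 - ε * S / L' - ε * S / L) * (rs kept L g v + rs new L g v) :=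
      mul_nonneg (by linarith) (by linarith)
    have b2 : 0 ≤ ε * S / L' * rs (nu L') L g v := mul_nonneg d1.le a3
    have b3 : ε * S / L * (1 / (2 * g)) ≤ ε * S / L * rs (nu L) L g v :=
      mul_le_mul_of_nonneg_left a4 d2.le
    linarith
  refine le_trans ?_ h1
  have hLS : (L : ℝ) ≤ (Λ + 3) * S := D.hL.2
  have hΛ3 : 0 < Λ + 3 := by linarith
  have hgL' : (g : ℝ) ≤ 2 * L := by exact_mod_cast hgL
  rcases le_total (g : ℝ) S with hgS | hgS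
  · rw [min_eq_left hgS]
    have e1 : ε * S / L ≥ ε / (Λ + 3) := by
      rw [ge_iff_le, div_le_div_iff₀ hΛ3 hL0]
      nlinarith
    have e2 : ε / (4 * (Λ + 3) ^ 2) / g = ε / (Λ + 3) * (1 / (2 * g)) * (1 / (2 * (Λ + 3))) := by
      field_simp
      ring
    rw [e2]
    have e3 : 1 / (2 * (Λ + 3)) ≤ 1 := by
      rw [div_le_one (by positivity)]; linarith
    calc ε / (Λ + 3) * (1 / (2 * g)) * (1 / (2 * (Λ + 3))) ≤ ε / (Λ + 3) * (1 / (2 * g)) * 1 :=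
          mul_le_mul_of_nonneg_left e3 (by positivity)
      _ = ε / (Λ + 3) * (1 / (2 * g)) := mul_one _
      _ ≤ ε * S / L * (1 / (2 * g)) := mul_le_mul_of_nonneg_right e1 (by positivity)
  · rw [min_eq_right hgS]
    have e1 : ε * S / L * (1 / (2 * g)) ≥ ε * S / L * (1 / (2 * (2 * L))) := by
      refine mul_le_mul_of_nonneg_left ?_ (by positivity)
      exact one_div_le_one_div_of_le (by positivity) (by linarith)
    refine le_trans ?_ e1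
    have e2 : ε * S / L * (1 / (2 * (2 * L))) = ε * S / (4 * L ^ 2) := by
      field_simp
      ring
    rw [e2, div_div, div_le_div_iff₀ (by positivity) (by positivity)]
    have e3 : (L : ℝ) ^ 2 ≤ ((Λ + 3) * S) ^ 2 := pow_le_pow_left₀ hL0.le hLS 2
    nlinarith

theorem mix_le (D : MixD ε s1 Λ S M L L' Ln B μs kept new mb) (v : ℤ) :
    mix ε S L L' kept new v ≤ (1 / ε + 1 / 2) / S := by
  obtain ⟨hr, hr1, hΛ, hLn, hL'n, hL'1, hL1, hLr, d1, d2, k1, k2, kh⟩ := mixlaw_sizes D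
  have hS : 0 < S := lt_of_lt_of_le one_pos D.hS
  obtain ⟨he, he'⟩ := D.hε
  have c1 : kept v ≤ 1 / (ε * S) := (D.kept1 v).2.trans (D.sup0 v)
  have c2 : new v ≤ 1 / (2 * S) :=
    (mixrs_new_le D v).trans (mixrs_nu_le S hS D.hLn.2.1 v)
  have c3 : nu L' v ≤ 1 / (2 * S) := mixrs_nu_le S hS (by linarith) v
  have c4 : nu L v ≤ 1 / (2 * S) := mixrs_nu_le S hS (by linarith) v
  refine mixrs_convex d1.le d2.le (by linarith) _ _ _ _ c1 c2 c3 c4 (by positivity) rfl ?_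
  apply le_of_eq
  field_simp

theorem mix_ge (D : MixD ε s1 Λ S M L L' Ln B μs kept new mb) (v : ℤ) (hv : v ∈ bx L) :
    (ε / (2 * (Λ + 3) ^ 2)) / S ≤ mix ε S L L' kept new v := by
  obtain ⟨hr, hr1, hΛ, hLn, hL'n, hL'1, hL1, hLr, d1, d2, k1, k2, kh⟩ := mixlaw_sizes D
  have hS : 0 < S := lt_of_lt_of_le one_pos D.hS
  obtain ⟨he, he'⟩ := D.hε
  have hL0 : (0 : ℝ) < L := by exact_mod_cast hLn
  have hLS : (L : ℝ) ≤ (Λ + 3) * S := D.hL.2
  have h1 : ε * S / L * (1 / (2 * L)) ≤ mix ε S L L' kept new v := by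
    unfold mix
    have a1 := (D.kept1 v).1
    have a2 := (D.new1 v).1
    have a3 : nu L v = 1 / (2 * L) := by
      unfold nu
      rw [if_pos hv]
    have a4 := mixlaw_nu_nonneg L' v
    have b1 : 0 ≤ (1 - ε * S / L' - ε * S / L) * (kept v + new v) :=
      mul_nonneg (by linarith) (add_nonneg a1 a2)
    have b2 : 0 ≤ ε * S / L' * nu L' v := mul_nonneg d1.le a4
    rw [a3]
    linarith
  refine le_trans ?_ h1
  have e2 : ε * S / L * (1 / (2 * L)) = ε * S / (2 * L ^ 2) := by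
    field_simp
  rw [e2, div_div, div_le_div_iff₀ (by positivity) (by positivity)]
  have e3 : (L : ℝ) ^ 2 ≤ ((Λ + 3) * S) ^ 2 := pow_le_pow_left₀ hL0.le hLS 2
  nlinarith

end DiamAb
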