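import Mathlib
import Pool.Agent.Lib_MP_0ccc25_pr.MixRs

/-!
Piece MIXENT. Entropy of the mixture modulo `g ≥ 1`.

PROOF. Let `q v = rs (mix) L g v`, positive for all `v` by `mix_rs_ge` (here `g ≤ 2 L`), so `IsQ g q`
(`isQ_rs` with `mix_law`), and `F v = -log (q v)`. With `m0 = min g S`:
`log m0 - log (4 / ε) ≤ F v ≤ log m0 - log (ε / (4 (Λ + 3) ^ 2))` for ALL integers `v`; the difference of the bounds
is `Cb = log (16 (Λ + 3) ^ 2 / ε ^ 2)`.
Let `m = Σ new ∈ [0, mb]`, so `Σ_{bx B} (μs - kept) = m`. Then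
`Σ_{bx B} (kept + new) F = Σ_{bx B} μs F - Σ (μs - kept) F + Σ new F ≥ h g - m Cb`, by `HP` for `μs`.
All sums over `bx L` of functions vanishing outside `bx L` may be taken over `bx B`.
`Hg mix L g = Σ_{bx L} mix v F v = (1 - δ1 - δ2) Σ (kept + new) F + δ1 Σ nu L' F + δ2 Σ nu L F`. By `nu_gain` (for `L'` and
for `L`, both at least `3 S / √s1`) the last two sums are at least `h g + s1 / 2`. So
`Hg ≥ h g - m Cb + δ1 s1 / 2`, and `δ1 = ε S / L' ≥ ε / (3 / √s1 + 3) ≥ ε √s1 / 6`.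
-/

namespace DiamAb

open Finset

variable {ε s1 Λ S : ℝ} {M L L' Ln B : ℕ} {μs kept new : ℤ → ℝ} {mb : ℝ}

theorem mixent_d1 (D : MixD ε s1 Λ S M L L' Ln B μs kept new mb) :
    ε * √s1 / 6 ≤ ε * S / L' := by
  obtain ⟨hr, hr1, hΛ, hLn, hL'n, hL'1, hL1, hLr, d1, d2, k1, k2, kh⟩ := mixlaw_sizes D
  have hS : 0 < S := lt_of_lt_of_le one_pos D.hS
  have he := D.hε.1
  have hL'p : (0 : ℝ) < L' := by exact_mod_cast hL'n
  have h1 : (L' : ℝ) ≤ 6 / √s1 * S := by
    refine D.hL'.2.trans (mul_le_mul_of_nonneg_right ?_ hS.le)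
    have h3 : (3 : ℝ) ≤ 3 / √s1 := by
      rw [le_div_iff₀ hr]
      nlinarith
    have : 6 / √s1 = 3 / √s1 + 3 / √s1 := by ring
    rw [this]
    linarith
  rw [le_div_iff₀ hL'p]
  have h2 : ε * √s1 / 6 * (L' : ℝ) ≤ ε * √s1 / 6 * (6 / √s1 * S) :=
    mul_le_mul_of_nonneg_left h1 (by positivity)
  have h3 : ε * √s1 / 6 * (6 / √s1 * S) = ε * S := by
    field_simp
  linarith

/-- sum of the kept and new part against a function -/
theorem mixent_kn (D : MixD ε s1 Λ S M L L' Ln B μs kept new mb) (F : ℤ → ℝ) :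
    ∑ v ∈ bx L, kept v * F v + ∑ v ∈ bx L, new v * F v =
      ∑ v ∈ bx B, μs v * F v - ∑ v ∈ bx B, (μs v - kept v) * F v + ∑ v ∈ bx B, new v * F v := by
  rw [← sum_bx_eq D.ord.1 (f := fun v => kept v * F v)
      (fun v hv => by rw [D.kept2 v hv, zero_mul]),
    ← sum_bx_eq D.ord.1 (f := fun v => new v * F v)
      (fun v hv => by rw [D.new2 v (fun h => hv (bx_subset D.ord.2.1 h)), zero_mul]),
    ← sum_sub_distrib]
  congr 1
  exact sum_congr rfl fun v _ => by ring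

theorem mixent_removed (D : MixD ε s1 Λ S M L L' Ln B μs kept new mb) :
    ∑ v ∈ bx B, (μs v - kept v) = ∑ v ∈ bx B, new v := by
  rw [sum_sub_distrib, D.law.sum, ← D.tot]
  ring

/-- sums of the two uniform laws over the large box -/
theorem mixent_nuL' (D : MixD ε s1 Λ S M L L' Ln B μs kept new mb) (F : ℤ → ℝ) :
    ∑ v ∈ bx L, nu L' v * F v = ∑ v ∈ bx L', nu L' v * F v :=
  sum_bx_eq D.ord.2.2 (f := fun v => nu L' v * F v)
    (fun v hv => by rw [mixlaw_nu_out hv, zero_mul])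

theorem mixent_Hg (ε S : ℝ) (L L' : ℕ) (kept new : ℤ → ℝ) (g : ℕ) :
    Hg (mix ε S L L' kept new) L g =
      ∑ v ∈ bx L, mix ε S L L' kept new v * (-Real.log (rs (mix ε S L L' kept new) L g v)) := rfl

theorem mix_ent (D : MixD ε s1 Λ S M L L' Ln B μs kept new mb) (h : ℕ → ℝ) (hH : HP μs B h)
    (g : ℕ) (hg : 1 ≤ g) (hgL : g ≤ 2 * L) (h1 : h g ≤ Real.log g - s1)
    (h2 : h g ≤ Real.log S) :
    h g + ε * (√s1 * s1) / 12 - mb * Real.log (16 * (Λ + 3) ^ 2 / ε ^ 2) ≤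
      Hg (mix ε S L L' kept new) L g := by
  have hd1 := mixent_d1 D
  obtain ⟨hr, hr1, hΛ, hLn, hL'n, hL'1, hL1, hLr, d1, d2, k1, k2, kh⟩ := mixlaw_sizes D
  have hS : 0 < S := lt_of_lt_of_le one_pos D.hS
  obtain ⟨he, he'⟩ := D.hε
  obtain ⟨hs, hs'⟩ := D.hs1
  have hg0 : (0 : ℝ) < g := by exact_mod_cast hg
  have hm0 : 0 < min (g : ℝ) S := lt_min hg0 hS
  have hΛ3 : 0 < Λ + 3 := by linarith
  have hc : 0 < ε / (4 * (Λ + 3) ^ 2) := by positivity
  have hqpos : ∀ v, 0 < rs (mix ε S L L' kept new) L g v := fun v =>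
    lt_of_lt_of_le (div_pos hc hm0) (mix_rs_ge D g hg hgL v)
  have hQ : IsQ g (rs (mix ε S L L' kept new) L g) := isQ_rs (mix_law D) hqpos
  -- bounds for the logarithms
  set F : ℤ → ℝ := fun v => -Real.log (rs (mix ε S L L' kept new) L g v) with hF
  set a : ℝ := Real.log (min (g : ℝ) S) - Real.log (4 / ε) with ha
  set Cb : ℝ := Real.log (16 * (Λ + 3) ^ 2 / ε ^ 2) with hCb
  have hCb' : Cb = Real.log (4 / ε) - Real.log (ε / (4 * (Λ + 3) ^ 2)) := by
    rw [hCb, ← Real.log_div (by positivity) (by positivity)]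
    congr 1
    field_simp
    ring
  have hCb0 : 0 ≤ Cb := by
    apply Real.log_nonneg
    rw [le_div_iff₀ (by positivity)]
    nlinarith
  have hFa : ∀ v, a ≤ F v := by
    intro v
    have := Real.log_le_log (hqpos v) (mix_rs_le D g hg v)
    rw [Real.log_div (by positivity) hm0.ne'] at this
    simp only [hF, ha]
    linarith
  have hFb : ∀ v, F v ≤ a + Cb := by
    intro v
    have := Real.log_le_log (div_pos hc hm0) (mix_rs_ge D g hg hgL v)
    rw [Real.log_div hc.ne' hm0.ne'] at this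
    simp only [hF, ha]
    rw [hCb']
    linarith
  set m : ℝ := ∑ v ∈ bx B, new v with hm
  have hm_nonneg : 0 ≤ m := sum_nonneg fun v _ => (D.new1 v).1
  have hX : h g - m * Cb ≤ ∑ v ∈ bx L, kept v * F v + ∑ v ∈ bx L, new v * F v := by
    rw [mixent_kn D F]
    have b1 : h g ≤ ∑ v ∈ bx B, μs v * F v := hH g _ hQ
    have b2 : ∑ v ∈ bx B, (μs v - kept v) * F v ≤ m * (a + Cb) := by
      rw [hm, ← mixent_removed D, sum_mul]
      exact sum_le_sum fun v _ =>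
        mul_le_mul_of_nonneg_left (hFb v) (sub_nonneg.2 (D.kept1 v).2)
    have b3 : m * a ≤ ∑ v ∈ bx B, new v * F v := by
      rw [hm, sum_mul]
      exact sum_le_sum fun v _ => mul_le_mul_of_nonneg_left (hFa v) (D.new1 v).1
    linarith
  have hY : h g + s1 / 2 ≤ ∑ v ∈ bx L, nu L' v * F v := by
    rw [mixent_nuL' D]
    exact nu_gain L' g S s1 (h g) hS hs hs' hg D.hL'.1 h1 h2 _ hQ
  have hZ : h g + s1 / 2 ≤ ∑ v ∈ bx L, nu L v * F v :=
    nu_gain L g S s1 (h g) hS hs hs' hg hLr h1 h2 _ hQ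
  rw [mixent_Hg, mixlaw_sum]
  have e1 := mul_le_mul_of_nonneg_left hX (by linarith : 0 ≤ 1 - ε * S / L' - ε * S / L)
  have e2 := mul_le_mul_of_nonneg_left hY d1.le
  have e3 := mul_le_mul_of_nonneg_left hZ d2.le
  refine le_trans ?_ (add_le_add (add_le_add e1 e2) e3)
  have f1 : m * Cb ≤ mb * Cb := mul_le_mul_of_nonneg_right D.small hCb0
  have f2 : ε * √s1 / 6 * (s1 / 2) ≤ ε * S / L' * (s1 / 2) :=
    mul_le_mul_of_nonneg_right hd1 (by positivity)
  have f3 : 0 ≤ ε * S / L * (s1 / 2) := by positivity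
  have f4 : (1 - ε * S / L' - ε * S / L) * (m * Cb) ≤ 1 * (m * Cb) :=
    mul_le_mul_of_nonneg_right (by linarith) (by positivity)
  nlinarith

end DiamAb
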