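import Mathlib
import Pool.Agent.Lib_MP_0ccc25_pr.MixRs

/-!
Piece MIXENT0. Entropy of the mixture on the integers.

PROOF. Put `δ = ε √s1 / 6` (so `δ ≤ δ1 := ε S / L'`, `δ ≤ 1`), `T = 16 (C1 + 1) / δ`, `t = δ / 16 ≤ 1 / 2`,
`π v = exp (-|v| / (T S)) / (4 T S)` and `q v = (1 - t) mix v + t π v`. Here `T S ≥ 1` and
`Σ_{v ∈ s} exp (-|v| / a) ≤ (1 + x) / (1 - x) ≤ 2 / (1 - x) ≤ 2 (a + 1) ≤ 4 a` for every finset `s`, `x = exp (-1 / a)`, `a = T S ≥ 1`
(`1 - exp (-y) ≥ y / (1 + y)`). So `IsQ 0 q` (positivity from `π`, total at most `(1 - t) + t`).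
Let `F v = -log (q v)`. On `bx L`, `q v ≥ (1 - t) mix v > 0`, so `-log (mix v) ≥ F v + log (1 - t) ≥ F v - 2 t`; as
`rs mix L 0 v = mix v` (`rs_zero`), `Hg mix L 0 ≥ Σ_{bx L} mix v F v - 2 t`. Now
`Σ mix F = (1 - δ1 - δ2) Σ_{bx B} (kept + new) F + δ1 Σ nu L' F + δ2 Σ nu L F`.
`nu_ce0`: `Σ nu L' F ≥ log (2 L') ≥ log S + 1` (`2 L' ≥ 6 S / √s1 ≥ 6 S`, `log 6 ≥ 1`) and
`Σ nu L F ≥ log (2 L) ≥ log S`.
`Σ (kept + new) F = Σ μs F - Σ (μs - kept) F + Σ new F` (sums over `bx B`), where `Σ μs F ≥ h 0 = log S` by `HP`;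
with `m = Σ new = Σ (μs - kept) ∈ [0, mb]`: `F v ≤ -log (t π v) = log (4 T S / t) + |v| / (T S)` so
`Σ (μs - kept) F ≤ m (log (4 T / t) + log S) + Ab μs B / (T S) ≤ m (log (4 T / t) + log S) + (C1 + 1) / T`; and
`q v ≤ (1 / ε + 1 / 2) / S + 1 / S ≤ (4 / ε) / S` (`mix_le`) so `Σ new F ≥ m (log S - log (4 / ε))`. Hence
`Σ (kept + new) F ≥ log S - m log ((4 T / t) (4 / ε)) - (C1 + 1) / T`, with
`(4 T / t) (4 / ε) = 4096 (C1 + 1) / (ε δ ^ 2) = 147456 (C1 + 1) / (ε ^ 3 s1)` (at least `1`). Altogether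
`Hg ≥ log S + δ1 - mb log (...) - δ / 16 - δ / 8 ≥ log S + δ (13 / 16) - mb log (...)`.
-/

namespace DiamAb

open Finset

variable {ε s1 Λ S : ℝ} {M L L' Ln B : ℕ} {μs kept new : ℤ → ℝ} {mb : ℝ}

/-- sums of powers of `x` over a finset of integers -/
theorem mixent0_geom (x : ℝ) (h0 : 0 ≤ x) (h1 : x < 1) (s : Finset ℤ) :
    ∑ v ∈ s, x ^ v.natAbs ≤ 2 / (1 - x) := by
  classical
  have key : ∀ t : Finset ℤ, Set.InjOn Int.natAbs (t : Set ℤ) →
      ∑ v ∈ t, x ^ v.natAbs ≤ 1 / (1 - x) := by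
    intro t ht
    rw [← sum_image (f := fun n => x ^ n) (g := Int.natAbs) ht, one_div,
      ← tsum_geometric_of_lt_one h0 h1]
    exact (summable_geometric_of_lt_one h0 h1).sum_le_tsum _ (fun i _ => pow_nonneg h0 i)
  rw [← sum_filter_add_sum_filter_not s (fun v => 0 ≤ v)]
  have e1 := key (s.filter fun v => 0 ≤ v) (by
    intro a ha b hb hab
    simp only [coe_filter, Set.mem_ofPred_eq] at ha hb
    omega)
  have e2 := key (s.filter fun v => ¬ 0 ≤ v) (by
    intro a ha b hb hab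
    simp only [coe_filter, Set.mem_ofPred_eq] at ha hb
    omega)
  have : 2 / (1 - x) = 1 / (1 - x) + 1 / (1 - x) := by ring
  rw [this]
  exact add_le_add e1 e2

theorem mixent0_exp (a : ℝ) (ha : 1 ≤ a) (s : Finset ℤ) :
    ∑ v ∈ s, Real.exp (-(|(v : ℝ)| / a)) ≤ 4 * a := by
  have ha0 : 0 < a := by linarith
  set x : ℝ := Real.exp (-(1 / a)) with hx
  have hx0 : 0 ≤ x := (Real.exp_pos _).le
  have hx1 : x ≤ a / (a + 1) := by
    have h1 : 1 + 1 / a ≤ Real.exp (1 / a) := by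
      have := Real.add_one_le_exp (1 / a)
      linarith
    rw [hx, Real.exp_neg]
    have h2 : a / (a + 1) = (1 + 1 / a)⁻¹ := by
      field_simp
    rw [h2]
    exact inv_anti₀ (by positivity) h1
  have hx2 : 1 / (a + 1) ≤ 1 - x := by
    have : a / (a + 1) = 1 - 1 / (a + 1) := by
      field_simp
      ring
    linarith
  have hx3 : x < 1 := by
    have : 0 < 1 / (a + 1) := by positivity
    linarith
  have e1 : ∑ v ∈ s, Real.exp (-(|(v : ℝ)| / a)) = ∑ v ∈ s, x ^ v.natAbs := by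
    refine sum_congr rfl fun v _ => ?_
    rw [hx, ← Real.exp_nat_mul]
    congr 1
    rw [Nat.cast_natAbs, Int.cast_abs]
    ring
  rw [e1]
  refine (mixent0_geom x hx0 hx3 s).trans ?_
  have h4 : 2 / (1 - x) ≤ 2 / (1 / (a + 1)) :=
    div_le_div_of_nonneg_left (by norm_num) (by positivity) hx2
  refine h4.trans ?_
  rw [div_div_eq_mul_div, div_one]
  linarith

theorem mixent0_mixsum (D : MixD ε s1 Λ S M L L' Ln B μs kept new mb) (s : Finset ℤ) :
    ∑ v ∈ s, mix ε S L L' kept new v ≤ 1 := by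
  classical
  have hl := mix_law D
  rw [← hl.sum]
  refine (sum_le_sum_of_subset_of_nonneg (subset_union_left : s ⊆ s ∪ bx L)
    (fun v _ _ => hl.nonneg v)).trans (le_of_eq ?_)
  exact (sum_subset subset_union_right fun v _ hv => hl.supp v hv).symm

theorem mixent0_d1 (D : MixD ε s1 Λ S M L L' Ln B μs kept new mb) :
    ε * √s1 / 6 ≤ ε * S / L' := by
  obtain ⟨hr, hr1, hΛ, hLn, hL'n, hL'1, hL1, hLr, d1, d2, k1, k2, kh⟩ := mixlaw_sizes D
  have hS : 0 < S := lt_of_lt_of_le one_pos D.hS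
  have he := D.hε.1
  have hL'p : (0 : ℝ) < L' := by exact_mod_cast hL'n
  have h1 : (L' : ℝ) ≤ 6 / √s1 * S := by
    refine D.hL'.2.trans (mul_le_mul_of_nonneg_right ?_ hS.le)
    have h3 : (3 : ℝ) ≤ 3 / √s1 := by
      rw [le_div_iff₀ hr]
      nlinarith
    have : 6 / √s1 = 3 / √s1 + 3 / √s1 := by ring
    rw [this]
    linarith
  rw [le_div_iff₀ hL'p]
  have h2 : ε * √s1 / 6 * (L' : ℝ) ≤ ε * √s1 / 6 * (6 / √s1 * S) :=
    mul_le_mul_of_nonneg_left h1 (by positivity)
  have h3 : ε * √s1 / 6 * (6 / √s1 * S) = ε * S := by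
    field_simp
  linarith

/-- sum of the kept and new part against a function -/
theorem mixent0_kn (D : MixD ε s1 Λ S M L L' Ln B μs kept new mb) (F : ℤ → ℝ) :
    ∑ v ∈ bx L, kept v * F v + ∑ v ∈ bx L, new v * F v =
      ∑ v ∈ bx B, μs v * F v - ∑ v ∈ bx B, (μs v - kept v) * F v + ∑ v ∈ bx B, new v * F v := by
  rw [← sum_bx_eq D.ord.1 (f := fun v => kept v * F v)
      (fun v hv => by rw [D.kept2 v hv, zero_mul]),
    ← sum_bx_eq D.ord.1 (f := fun v => new v * F v)
      (fun v hv => by rw [D.new2 v (fun h => hv (bx_subset D.ord.2.1 h)), zero_mul]),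
    ← sum_sub_distrib]
  congr 1
  exact sum_congr rfl fun v _ => by ring

theorem mixent0_removed (D : MixD ε s1 Λ S M L L' Ln B μs kept new mb) :
    ∑ v ∈ bx B, (μs v - kept v) = ∑ v ∈ bx B, new v := by
  rw [sum_sub_distrib, D.law.sum, ← D.tot]
  ring

theorem mixent0_nuL' (D : MixD ε s1 Λ S M L L' Ln B μs kept new mb) (F : ℤ → ℝ) :
    ∑ v ∈ bx L, nu L' v * F v = ∑ v ∈ bx L', nu L' v * F v :=
  sum_bx_eq D.ord.2.2 (f := fun v => nu L' v * F v)
    (fun v hv => by rw [mixlaw_nu_out hv, zero_mul])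

theorem mix_ent0 (D : MixD ε s1 Λ S M L L' Ln B μs kept new mb) (h : ℕ → ℝ) (hH : HP μs B h)
    (h0 : h 0 = Real.log S) (C1 : ℝ) (hC1 : 1 ≤ C1) (hAb : Ab μs B ≤ (C1 + 1) * S) :
    Real.log S + ε * √s1 / 6 * (13 / 16) -
        mb * Real.log (147456 * (C1 + 1) / (ε ^ 3 * s1)) ≤
      Hg (mix ε S L L' kept new) L 0 := by
  have hd1 := mixent0_d1 D
  have hlaw := mix_law D
  obtain ⟨hr, hr1, hΛ, hLn, hL'n, hL'1, hL1, hLr, d1, d2, k1, k2, kh⟩ := mixlaw_sizes D
  have hS1 := D.hS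
  have hS : 0 < S := lt_of_lt_of_le one_pos D.hS
  obtain ⟨he, he'⟩ := D.hε
  obtain ⟨hs, hs'⟩ := D.hs1
  have hL0 : (0 : ℝ) < L := by exact_mod_cast hLn
  have hL'0 : (0 : ℝ) < L' := by exact_mod_cast hL'n
  set δ : ℝ := ε * √s1 / 6 with hδ
  have hδ0 : 0 < δ := by positivity
  have hδ1 : δ ≤ 1 := by
    rw [hδ]
    nlinarith
  have hδsq : δ ^ 2 = ε ^ 2 * s1 / 36 := by
    rw [hδ, div_pow, mul_pow, Real.sq_sqrt hs.le]
    norm_num
  set T : ℝ := 16 * (C1 + 1) / δ with hT
  have hT0 : 0 < T := by positivity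
  have hT1 : 1 ≤ T := by
    rw [hT, le_div_iff₀ hδ0]
    linarith
  set t : ℝ := δ / 16 with ht
  have ht0 : 0 < t := by positivity
  have ht1 : t ≤ 1 / 2 := by rw [ht]; linarith
  have hTS : 1 ≤ T * S := one_le_mul_of_one_le_of_one_le hT1 hS1
  have hTS0 : 0 < T * S := by positivity
  set q : ℤ → ℝ := fun v => (1 - t) * mix ε S L L' kept new v +
    t * (Real.exp (-(|(v : ℝ)| / (T * S))) / (4 * (T * S))) with hq
  have hq1 : ∀ v : ℤ, (1 - t) * mix ε S L L' kept new v ≤ q v := by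
    intro v
    simp only [hq]
    have : 0 < t * (Real.exp (-(|(v : ℝ)| / (T * S))) / (4 * (T * S))) := by positivity
    linarith
  have hq2 : ∀ v : ℤ, t * (Real.exp (-(|(v : ℝ)| / (T * S))) / (4 * (T * S))) ≤ q v := by
    intro v
    simp only [hq]
    have : 0 ≤ (1 - t) * mix ε S L L' kept new v := mul_nonneg (by linarith) (hlaw.nonneg v)
    linarith
  have hq0 : ∀ v, 0 < q v := fun v => lt_of_lt_of_le (by positivity) (hq2 v)
  have hQ : IsQ 0 q := by
    refine ⟨hq0, fun v => by simp, fun s _ => ?_⟩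
    simp only [hq]
    rw [sum_add_distrib, ← mul_sum, ← mul_sum, ← sum_div]
    have a1 := mixent0_mixsum D s
    have a2 : (∑ v ∈ s, Real.exp (-(|(v : ℝ)| / (T * S)))) / (4 * (T * S)) ≤ 1 := by
      rw [div_le_one (by positivity)]
      exact mixent0_exp (T * S) hTS s
    have a3 := mul_le_mul_of_nonneg_left a1 (by linarith : 0 ≤ 1 - t)
    have a4 := mul_le_mul_of_nonneg_left a2 ht0.le
    linarith
  set F : ℤ → ℝ := fun v => -Real.log (q v) with hF
  set a : ℝ := Real.log S - Real.log (4 / ε) with ha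
  -- lower bound for `F`
  have hFa : ∀ v, a ≤ F v := by
    intro v
    have b1 : q v ≤ (4 / ε) / S := by
      simp only [hq]
      have c1 := mix_le D v
      have c2 : Real.exp (-(|(v : ℝ)| / (T * S))) ≤ 1 := by
        rw [Real.exp_le_one_iff, neg_nonpos]
        positivity
      have c3 : Real.exp (-(|(v : ℝ)| / (T * S))) / (4 * (T * S)) ≤ 1 / S := by
        rw [div_le_div_iff₀ (by positivity) hS]
        have : 1 * S ≤ 1 * (4 * (T * S)) := by nlinarith
        calc Real.exp (-(|(v : ℝ)| / (T * S))) * S ≤ 1 * S :=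
              mul_le_mul_of_nonneg_right c2 hS.le
          _ ≤ 1 * (4 * (T * S)) := this
      have c4 : 0 ≤ mix ε S L L' kept new v := hlaw.nonneg v
      have c5 : (1 - t) * mix ε S L L' kept new v ≤ 1 * mix ε S L L' kept new v :=
        mul_le_mul_of_nonneg_right (by linarith) c4
      have c6 : t * (Real.exp (-(|(v : ℝ)| / (T * S))) / (4 * (T * S))) ≤
          1 * (1 / S) :=
        mul_le_mul (by linarith) c3 (by positivity) (by norm_num)
      have c7 : (1 / ε + 1 / 2) / S + 1 / S ≤ (4 / ε) / S := by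
        rw [← add_div]
        refine div_le_div_of_nonneg_right ?_ hS.le
        have : (4 : ℝ) ≤ 1 / ε := by
          rw [le_div_iff₀ he]; linarith
        have e : 4 / ε = 4 * (1 / ε) := by ring
        rw [e]
        linarith
      linarith
    have b2 := Real.log_le_log (hq0 v) b1
    rw [Real.log_div (by positivity) hS.ne'] at b2
    simp only [hF, ha]
    linarith
  -- upper bound for `F`
  set b : ℝ := Real.log (4 * T / t) + Real.log S with hb
  have hFb : ∀ v : ℤ, F v ≤ b + |(v : ℝ)| / (T * S) := by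
    intro v
    have b1 := Real.log_le_log (by positivity) (hq2 v)
    rw [Real.log_mul ht0.ne' (by positivity),
      Real.log_div (Real.exp_pos (-(|(v : ℝ)| / (T * S)))).ne'
        (by positivity : 4 * (T * S) ≠ 0),
      Real.log_exp] at b1
    have b2 : b = Real.log (4 * (T * S)) - Real.log t := by
      rw [hb, ← Real.log_mul (by positivity) hS.ne', ← Real.log_div (by positivity) ht0.ne']
      congr 1
      ring
    have b3 : F v = -Real.log (q v) := rfl
    rw [b2, b3]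
    linarith
  -- the logarithm of the mixture
  have hmixlog : ∀ v ∈ bx L, F v - 2 * t ≤ -Real.log (rs (mix ε S L L' kept new) L 0 v) := by
    intro v hv
    rw [rs_zero hv]
    have hp := mix_pos D v hv
    have b1 := Real.log_le_log (mul_pos (by linarith : 0 < 1 - t) hp) (hq1 v)
    rw [Real.log_mul (by linarith : (1 - t) ≠ 0) hp.ne'] at b1
    have b2 : -(2 * t) ≤ Real.log (1 - t) := by
      have c1 := Real.one_sub_inv_le_log_of_pos (by linarith : 0 < 1 - t)
      refine le_trans ?_ c1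
      have c2 : (1 - t)⁻¹ ≤ 1 + 2 * t := by
        rw [inv_le_comm₀ (by linarith) (by linarith), inv_le_iff_one_le_mul₀ (by linarith)]
        nlinarith
      linarith
    simp only [hF]
    linarith
  have hHg : ∑ v ∈ bx L, mix ε S L L' kept new v * F v - 2 * t ≤
      Hg (mix ε S L L' kept new) L 0 := by
    unfold Hg
    have b1 : ∑ v ∈ bx L, mix ε S L L' kept new v * F v - 2 * t =
        ∑ v ∈ bx L, mix ε S L L' kept new v * (F v - 2 * t) := by
      have : ∑ v ∈ bx L, mix ε S L L' kept new v * (F v - 2 * t) =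
          ∑ v ∈ bx L, mix ε S L L' kept new v * F v -
            (∑ v ∈ bx L, mix ε S L L' kept new v) * (2 * t) := by
        rw [sum_mul, ← sum_sub_distrib]
        exact sum_congr rfl fun v _ => by ring
      rw [this, hlaw.sum, one_mul]
    rw [b1]
    exact sum_le_sum fun v hv => mul_le_mul_of_nonneg_left (hmixlog v hv) (hlaw.nonneg v)
  refine le_trans ?_ hHg
  rw [mixlaw_sum]
  set m : ℝ := ∑ v ∈ bx B, new v with hm
  have hm_nonneg : 0 ≤ m := sum_nonneg fun v _ => (D.new1 v).1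
  set Z0 : ℝ := Real.log (147456 * (C1 + 1) / (ε ^ 3 * s1)) with hZ0
  have hZ : Z0 = Real.log (4 * T / t) + Real.log (4 / ε) := by
    rw [hZ0, ← Real.log_mul (by positivity) (by positivity)]
    congr 1
    rw [hT, ht]
    have : 4 * (16 * (C1 + 1) / δ) / (δ / 16) * (4 / ε) = 4096 * (C1 + 1) / (ε * δ ^ 2) := by
      field_simp
      ring
    rw [this, hδsq]
    field_simp
    ring
  have hZ1 : 0 ≤ Z0 := by
    rw [hZ0]
    apply Real.log_nonneg
    rw [le_div_iff₀ (by positivity)]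
    have c1 : ε ^ 3 ≤ 1 := pow_le_one₀ he.le (by linarith)
    have c2 : ε ^ 3 * s1 ≤ 1 * 1 := mul_le_mul c1 (by linarith) hs.le (by norm_num)
    linarith
  have hX : Real.log S - m * Z0 - t ≤
      ∑ v ∈ bx L, kept v * F v + ∑ v ∈ bx L, new v * F v := by
    rw [mixent0_kn D F]
    have b1 : Real.log S ≤ ∑ v ∈ bx B, μs v * F v := h0 ▸ hH 0 _ hQ
    have b2 : ∑ v ∈ bx B, (μs v - kept v) * F v ≤ m * b + t := by
      have c1 : ∑ v ∈ bx B, (μs v - kept v) * F v ≤
          ∑ v ∈ bx B, ((μs v - kept v) * b + μs v * |(v : ℝ)| * (1 / (T * S))) := by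
        refine sum_le_sum fun v _ => ?_
        have d1 : 0 ≤ μs v - kept v := sub_nonneg.2 (D.kept1 v).2
        have d2 := mul_le_mul_of_nonneg_left (hFb v) d1
        have d3 : (μs v - kept v) * (|(v : ℝ)| / (T * S)) ≤ μs v * (|(v : ℝ)| / (T * S)) :=
          mul_le_mul_of_nonneg_right (by linarith [(D.kept1 v).1]) (by positivity)
        have d4 : μs v * (|(v : ℝ)| / (T * S)) = μs v * |(v : ℝ)| * (1 / (T * S)) := by ring
        rw [← d4]
        linarith
      rw [sum_add_distrib, ← sum_mul, ← sum_mul, mixent0_removed D] at c1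
      have c2 : (∑ v ∈ bx B, μs v * |(v : ℝ)|) * (1 / (T * S)) ≤ t := by
        have d1 : (∑ v ∈ bx B, μs v * |(v : ℝ)|) ≤ (C1 + 1) * S := hAb
        have d2 := mul_le_mul_of_nonneg_right d1 (by positivity : 0 ≤ 1 / (T * S))
        have d3 : (C1 + 1) * S * (1 / (T * S)) = t := by
          rw [hT, ht]
          field_simp
        linarith
      linarith
    have b3 : m * a ≤ ∑ v ∈ bx B, new v * F v := by
      rw [hm, sum_mul]
      exact sum_le_sum fun v _ => mul_le_mul_of_nonneg_left (hFa v) (D.new1 v).1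
    have b4 : m * b - m * a = m * Z0 := by
      rw [hZ, hb, ha]
      ring
    linarith
  have hY : Real.log S + 1 ≤ ∑ v ∈ bx L, nu L' v * F v := by
    rw [mixent0_nuL' D]
    refine le_trans ?_ (nu_ce0 L' hL'n q hQ)
    have c1 : Real.log (6 * S) ≤ Real.log (2 * L') :=
      Real.log_le_log (by positivity) (by linarith)
    rw [Real.log_mul (by norm_num) hS.ne'] at c1
    have c2 : 1 ≤ Real.log 6 := by
      rw [Real.le_log_iff_exp_le (by norm_num)]
      have := Real.exp_one_lt_d9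
      linarith
    linarith
  have hZ' : Real.log S ≤ ∑ v ∈ bx L, nu L v * F v := by
    refine le_trans ?_ (nu_ce0 L hLn q hQ)
    exact Real.log_le_log hS (by linarith)
  have e1 := mul_le_mul_of_nonneg_left hX (by linarith : 0 ≤ 1 - ε * S / L' - ε * S / L)
  have e2 := mul_le_mul_of_nonneg_left hY d1.le
  have e3 := mul_le_mul_of_nonneg_left hZ' d2.le
  have f1 : m * Z0 ≤ mb * Z0 := mul_le_mul_of_nonneg_right D.small hZ1
  have f4 : (1 - ε * S / L' - ε * S / L) * (m * Z0 + t) ≤ 1 * (m * Z0 + t) :=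
    mul_le_mul_of_nonneg_right (by linarith) (by positivity)
  have f5 : δ = 16 * t := by rw [ht]; ring
  have f6 : (1 - ε * S / L' - ε * S / L) * (Real.log S - m * Z0 - t) +
      ε * S / L' * (Real.log S + 1) + ε * S / L * Real.log S =
      Real.log S - (1 - ε * S / L' - ε * S / L) * (m * Z0 + t) + ε * S / L' := by ring
  linarith

end DiamAb
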