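import Mathlib

/-!
Piece TV. Total variation distance to the uniform law from an entropy bound.

PROOF. Let `M = card ι ≥ 1` and `y i = M p i ≥ 0`, of average `1`. The function
`φ y = y log ((1 + y) / 2) - (y - 1) / 2` satisfies `φ 1 = 0`, `φ' y = log ((1 + y) / 2) + y / (1 + y) - 1 / 2`,
`φ' 1 = 0` and `φ'' y = 1 / (1 + y) + 1 / (1 + y) ^ 2 > 0`, at least `3 / 4` for `y ≤ 1`. So `φ ≥ 0` for
`y ≥ 0`, and `φ y ≥ (3 / 8) (1 - y) ^ 2` for `0 ≤ y ≤ 1`.
(Possible direct proofs: for `y ≥ 0`, `log ((1 + y) / 2) = -log (2 / (1 + y)) ≥ 1 - 2 / (1 + y)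
= (y - 1) / (y + 1)` gives `φ y ≥ (y - 1) (y / (y + 1) - 1 / 2) = (y - 1) ^ 2 / (2 (y + 1)) ≥ 0`, and for
`y ≤ 1` this is at least `(1 - y) ^ 2 / 4`. This weaker constant `1 / 4` is enough.)
The average of `φ (y i)` is `Σ p i log ((M p i + 1) / 2) ≤ s0`. So the average of
`((1 - y i)^+) ^ 2` is at most `4 s0`, and by Cauchy-Schwarz (`inner_mul_le_norm_mul_norm`,
`sq_sum_le_card_mul_sum_sq`) the average of `(1 - y i)^+` is at most `2 √s0`. Finally
`1 - Σ min (p i) (1 / M) = Σ (1 / M - p i)^+ = average of (1 - y i)^+`.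
-/

namespace DiamAb

open Finset

theorem tv_phi (y : ℝ) (hy : 0 ≤ y) :
    (max (1 - y) 0) ^ 2 / 4 ≤ y * Real.log ((y + 1) / 2) - (y - 1) / 2 := by
  have h1 := Real.one_sub_inv_le_log_of_pos (x := (y + 1) / 2) (by positivity)
  have h2 : 1 - ((y + 1) / 2)⁻¹ = (y - 1) / (y + 1) := by
    field_simp
    ring
  rw [h2] at h1
  have h3 : y * ((y - 1) / (y + 1)) ≤ y * Real.log ((y + 1) / 2) :=
    mul_le_mul_of_nonneg_left h1 hy
  have h4 : y * ((y - 1) / (y + 1)) - (y - 1) / 2 = (y - 1) ^ 2 / (2 * (y + 1)) := by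
    field_simp
    ring
  have h5 : (max (1 - y) 0) ^ 2 / 4 ≤ (y - 1) ^ 2 / (2 * (y + 1)) := by
    rcases le_total y 1 with h | h
    · rw [max_eq_left (by linarith), show (1 - y) ^ 2 = (y - 1) ^ 2 by ring]
      apply div_le_div_of_nonneg_left (sq_nonneg _) (by positivity)
      linarith
    · rw [max_eq_right (by linarith)]
      have : 0 ≤ (y - 1) ^ 2 / (2 * (y + 1)) := by positivity
      simpa using this
  linarith

theorem tv {ι : Type} [Fintype ι] [Nonempty ι] (p : ι → ℝ) (hp : ∀ i, 0 ≤ p i)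
    (hp1 : ∑ i, p i = 1) (s0 : ℝ)
    (h : ∑ i, p i * Real.log ((Fintype.card ι * p i + 1) / 2) ≤ s0) :
    1 - ∑ i, min (p i) (1 / Fintype.card ι) ≤ 2 * √s0 := by
  set M : ℝ := (Fintype.card ι : ℝ) with hM
  have hM0 : 0 < M := by
    rw [hM]
    exact_mod_cast Fintype.card_pos
  have hc : ∑ _i : ι, (1 : ℝ) = M := by
    rw [Finset.sum_const, Finset.card_univ, nsmul_eq_mul, mul_one]
  have h1 : ∑ i, (max (1 - M * p i) 0) ^ 2 / 4 ≤ M * s0 := by
    have h2 : ∑ i, (max (1 - M * p i) 0) ^ 2 / 4 ≤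
        ∑ i, ((M * p i) * Real.log ((M * p i + 1) / 2) - (M * p i - 1) / 2) :=
      Finset.sum_le_sum fun i _ => tv_phi (M * p i) (mul_nonneg hM0.le (hp i))
    have h3 : ∑ i, ((M * p i) * Real.log ((M * p i + 1) / 2) - (M * p i - 1) / 2) =
        M * ∑ i, p i * Real.log ((M * p i + 1) / 2) := by
      rw [Finset.sum_sub_distrib, ← Finset.sum_div, Finset.sum_sub_distrib, ← Finset.mul_sum, hp1,
        hc, Finset.mul_sum]
      have : ∀ i, M * p i * Real.log ((M * p i + 1) / 2) =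
          M * (p i * Real.log ((M * p i + 1) / 2)) := fun i => by ring
      simp only [this]
      ring
    rw [h3] at h2
    exact h2.trans (mul_le_mul_of_nonneg_left h hM0.le)
  have h4 : (∑ i, max (1 - M * p i) 0) ^ 2 ≤ M * ∑ i, (max (1 - M * p i) 0) ^ 2 := by
    have := sq_sum_le_card_mul_sum_sq (s := (Finset.univ : Finset ι))
      (f := fun i => max (1 - M * p i) 0)
    rwa [Finset.card_univ] at this
  rw [← Finset.sum_div] at h1
  have hs0 : 0 ≤ s0 := by
    have h5 : 0 ≤ ∑ i, (max (1 - M * p i) 0) ^ 2 := Finset.sum_nonneg fun i _ => sq_nonneg _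
    have : 0 ≤ M * s0 := by linarith
    exact nonneg_of_mul_nonneg_right (by linarith) hM0
  have h6 : (∑ i, max (1 - M * p i) 0) ^ 2 ≤ (M * (2 * √s0)) ^ 2 := by
    have h7 : (M * (2 * √s0)) ^ 2 = M * (M * (4 * s0)) := by
      rw [mul_pow, mul_pow, Real.sq_sqrt hs0]
      ring
    rw [h7]
    refine h4.trans (mul_le_mul_of_nonneg_left ?_ hM0.le)
    linarith
  have h8 : ∑ i, max (1 - M * p i) 0 ≤ M * (2 * √s0) :=
    abs_le_of_sq_le_sq' h6 (by positivity) |>.2
  have h9 : 1 - ∑ i, min (p i) (1 / M) = (∑ i, max (1 - M * p i) 0) / M := by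
    have h10 : (∑ i, max (1 - M * p i) 0) / M = ∑ i, (1 / M - min (p i) (1 / M)) := by
      rw [Finset.sum_div]
      apply Finset.sum_congr rfl
      intro i _
      rcases le_total (p i) (1 / M) with h' | h'
      · have : M * p i ≤ 1 := by
          rw [le_div_iff₀ hM0] at h'
          linarith
        rw [min_eq_left h', max_eq_left (by linarith)]
        field_simp
      · have : 1 ≤ M * p i := by
          rw [div_le_iff₀ hM0] at h'
          linarith
        rw [min_eq_right h', max_eq_right (by linarith)]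
        simp
    rw [h10, Finset.sum_sub_distrib, ← Finset.sum_div, hc, div_self hM0.ne']
  rw [h9, div_le_iff₀ hM0]
  linarith

end DiamAb
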