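import Mathlib
import Pool.Agent.Lib_MP_0ccc25_pr.Base
import Pool.Agent.Lib_MP_0ccc25_pr.Tv

/-!
Piece MODM. Making a law exactly uniform modulo `M`, changing little mass.
-/

namespace DiamAb

open Finset

namespace ModMPiece

theorem total (f : ℤ → ℝ) (B M : ℕ) (hM : 1 ≤ M) :
    ∑ v ∈ bx B, f v = ∑ c ∈ range M, rs f B M (c : ℤ) := by
  classical
  have hM0 : (0 : ℤ) < M := by exact_mod_cast hM
  have hmap : ∀ u ∈ bx B, (u % (M : ℤ)).toNat ∈ range M := by
    intro u _
    rw [mem_range]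
    have h1 := Int.emod_nonneg u hM0.ne'
    have h2 := Int.emod_lt_of_pos u hM0
    omega
  rw [← Finset.sum_fiberwise_of_maps_to hmap]
  apply sum_congr rfl
  intro c hc
  rw [mem_range] at hc
  unfold rs
  apply sum_congr _ (fun _ _ => rfl)
  ext u
  simp only [mem_filter, and_congr_right_iff]
  intro _
  have h1 := Int.emod_nonneg u hM0.ne'
  have h2 := Int.emod_lt_of_pos u hM0
  constructor
  · intro h
    have h3 : u % (M : ℤ) = c := by omega
    rw [← h3]
    exact Int.dvd_self_sub_emod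
  · intro h
    have h3 : u % (M : ℤ) = (c : ℤ) % (M : ℤ) := by
      apply Int.ModEq.symm
      exact Int.modEq_iff_dvd.2 h
    have h4 : (c : ℤ) % (M : ℤ) = c := Int.emod_eq_of_lt (by omega) (by omega)
    omega

theorem rs_mul (f F : ℤ → ℝ) (B M : ℕ) (hF : ∀ u v, (M : ℤ) ∣ u - v → F u = F v) (v : ℤ) :
    rs (fun u => F u * f u) B M v = F v * rs f B M v := by
  unfold rs
  rw [mul_sum]
  apply sum_congr rfl
  intro u hu
  rw [mem_filter] at hu
  simp only [hF u v hu.2]

theorem rs_const (Ln M : ℕ) (hM : 1 ≤ M) (hd : M ∣ Ln) (v : ℤ) :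
    (rs (fun _ => (1 : ℝ)) Ln M v) = 2 * Ln / M := by
  have hM0 : (0 : ℤ) < M := by exact_mod_cast hM
  have hM0' : (0 : ℚ) < M := by exact_mod_cast hM
  unfold rs
  rw [sum_const, nsmul_eq_mul, mul_one]
  obtain ⟨q, rfl⟩ := hd
  have h1 : ((bx (M * q)).filter (fun u => (M : ℤ) ∣ u - v)) =
      ((Finset.Ico (-((M * q : ℕ) : ℤ)) ((M * q : ℕ) : ℤ)).filter (fun u => u ≡ v [ZMOD (M : ℤ)])) := by
    unfold bx
    apply Finset.filter_congr
    intro u _
    rw [Int.modEq_comm, Int.modEq_iff_dvd]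
  rw [h1]
  have h2 := Int.Ico_filter_modEq_card (-((M * q : ℕ) : ℤ)) ((M * q : ℕ) : ℤ) hM0 v
  have h3 : ((((M * q : ℕ) : ℤ) : ℚ) - v) / ((M : ℤ) : ℚ) =
      (((-((M * q : ℕ) : ℤ) : ℤ) : ℚ) - v) / ((M : ℤ) : ℚ) + ((2 * q : ℤ) : ℚ) := by
    push_cast
    field_simp
    ring
  rw [h3, Int.ceil_add_intCast, add_sub_cancel_left, max_eq_left (by positivity)] at h2
  have h4 : (((Finset.Ico (-((M * q : ℕ) : ℤ)) ((M * q : ℕ) : ℤ)).filter (fun u => u ≡ v [ZMOD (M : ℤ)])).card : ℝ) = 2 * q := by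
    exact_mod_cast h2
  rw [h4]
  have : (0 : ℝ) < M := by exact_mod_cast hM
  push_cast
  field_simp

end ModMPiece

open ModMPiece

theorem modM (μs : ℤ → ℝ) (B L Ln M : ℕ) (κ s0 : ℝ) (hμ : IsLaw μs B) (hM : 1 ≤ M) (hLn : 1 ≤ Ln)
    (hLnL : Ln ≤ L) (hLB : L ≤ B) (hd : M ∣ Ln)
    (hκ : ∑ v ∈ bx B \ bx L, μs v ≤ κ)
    (hs : ∑ v ∈ bx B, μs v * Real.log ((M * rs μs B M v + 1) / 2) ≤ s0) :
    ∃ kept new : ℤ → ℝ, (∀ v, 0 ≤ kept v ∧ kept v ≤ μs v) ∧ (∀ v, v ∉ bx L → kept v = 0) ∧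
      (∀ v, 0 ≤ new v ∧ new v ≤ 1 / (2 * Ln)) ∧ (∀ v, v ∉ bx Ln → new v = 0) ∧
      (∑ v ∈ bx B, kept v + ∑ v ∈ bx B, new v = 1) ∧ (∑ v ∈ bx B, new v ≤ κ + 2 * √s0) ∧
      (∀ v, rs kept B M v + rs new B M v = 1 / M) := by
  classical
  have hMr : (0 : ℝ) < M := by exact_mod_cast hM
  have hLnr : (0 : ℝ) < Ln := by exact_mod_cast hLn
  have hLnB : Ln ≤ B := hLnL.trans hLB
  obtain ⟨a, ha⟩ : ∃ a : ℤ → ℝ, a = fun v => rs μs L M v := ⟨_, rfl⟩
  have ha0 : ∀ v, 0 ≤ a v := fun v => by rw [ha]; exact rs_nonneg hμ.nonneg L M v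
  have hac : ∀ u v, (M : ℤ) ∣ u - v → a u = a v := fun u v h => by
    rw [ha]; exact rs_congr μs L M h
  obtain ⟨θ, hθ⟩ : ∃ θ : ℤ → ℝ, θ = fun v => if a v = 0 then 1 else min 1 (1 / (M * a v)) := ⟨_, rfl⟩
  have hθc : ∀ u v, (M : ℤ) ∣ u - v → θ u = θ v := fun u v h => by
    rw [hθ]; simp only [hac u v h]
  have hθ0 : ∀ v, 0 ≤ θ v := by
    intro v
    rw [hθ]
    simp only
    split_ifs
    · norm_num
    · have := ha0 v
      positivity
  have hθ1 : ∀ v, θ v ≤ 1 := by
    intro v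
    rw [hθ]
    simp only
    split_ifs
    · exact le_refl _
    · exact min_le_left _ _
  have hθa : ∀ v, θ v * a v = min (a v) (1 / M) := by
    intro v
    rw [hθ]
    simp only
    split_ifs with h
    · rw [h, mul_zero, min_eq_left]
      positivity
    · have hpos : 0 < a v := lt_of_le_of_ne (ha0 v) (Ne.symm h)
      rw [min_mul_of_nonneg _ _ hpos.le, one_mul]
      congr 1
      field_simp
  obtain ⟨kept, hkept⟩ : ∃ kept : ℤ → ℝ, kept = fun v => if v ∈ bx L then θ v * μs v else 0 := ⟨_, rfl⟩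
  obtain ⟨new, hnew⟩ : ∃ new : ℤ → ℝ, new = fun v =>
    if v ∈ bx Ln then (1 / M - θ v * a v) * (M / (2 * Ln)) else 0 := ⟨_, rfl⟩
  have hkL : ∀ v, v ∉ bx L → kept v = 0 := by
    intro v hv
    rw [hkept]
    simp only [if_neg hv]
  have hnL : ∀ v, v ∉ bx Ln → new v = 0 := by
    intro v hv
    rw [hnew]
    simp only [if_neg hv]
  have hrk : ∀ v, rs kept B M v = θ v * a v := by
    intro v
    rw [rs_bx_eq hLB hkL]
    have : rs kept L M v = rs (fun u => θ u * μs u) L M v := by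
      unfold rs
      apply sum_congr rfl
      intro u hu
      rw [mem_filter] at hu
      rw [hkept]
      simp only [if_pos hu.1]
    rw [this, rs_mul _ _ _ _ hθc, ha]
  have hrn : ∀ v, rs new B M v = 1 / M - θ v * a v := by
    intro v
    rw [rs_bx_eq hLnB hnL]
    have : rs new Ln M v = rs (fun u => ((1 / M - θ u * a u) * (M / (2 * Ln))) * (fun _ => (1 : ℝ)) u) Ln M v := by
      unfold rs
      apply sum_congr rfl
      intro u hu
      rw [mem_filter] at hu
      rw [hnew]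
      simp only [if_pos hu.1, mul_one]
    rw [this, rs_mul (fun _ => (1 : ℝ)) (fun u => (1 / M - θ u * a u) * (M / (2 * Ln))) _ _
      (fun u v h => by simp only [hac u v h, hθc u v h]), rs_const Ln M hM hd]
    field_simp
  have hsum1 : ∀ v, rs kept B M v + rs new B M v = 1 / M := by
    intro v
    rw [hrk, hrn]; ring
  have hmin : ∀ v, 0 ≤ 1 / (M : ℝ) - θ v * a v ∧ 1 / (M : ℝ) - θ v * a v ≤ 1 / M := by
    intro v
    rw [hθa]
    have h1 : min (a v) (1 / M) ≤ 1 / M := min_le_right _ _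
    have h2 : 0 ≤ min (a v) (1 / (M : ℝ)) := le_min (ha0 v) (by positivity)
    constructor <;> linarith
  refine ⟨kept, new, ?_, hkL, ?_, hnL, ?_, ?_, hsum1⟩
  · intro v
    rw [hkept]
    simp only
    split_ifs with h
    · have h1 := hμ.nonneg v
      have h2 := hθ0 v
      have h3 := hθ1 v
      constructor
      · positivity
      · nlinarith
    · exact ⟨le_refl _, hμ.nonneg v⟩
  · intro v
    rw [hnew]
    simp only
    split_ifs with h
    · obtain ⟨h1, h2⟩ := hmin v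
      constructor
      · positivity
      · calc (1 / (M : ℝ) - θ v * a v) * (M / (2 * Ln)) ≤ 1 / M * (M / (2 * Ln)) := by
              apply mul_le_mul_of_nonneg_right h2 (by positivity)
          _ = 1 / (2 * Ln) := by field_simp
    · exact ⟨le_refl _, by positivity⟩
  · rw [total kept B M hM, total new B M hM, ← sum_add_distrib]
    have hh : ∑ c ∈ range M, (rs kept B M (c : ℤ) + rs new B M (c : ℤ)) = ∑ c ∈ range M, 1 / (M : ℝ) :=
      sum_congr rfl (fun c _ => hsum1 (c : ℤ))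
    rw [hh, sum_const, card_range, nsmul_eq_mul]
    field_simp
  · -- the mass of `new`
    have e1 : ∑ v ∈ bx B, new v = 1 - ∑ c ∈ range M, min (a (c : ℤ)) (1 / (M : ℝ)) := by
      have hh : ∑ c ∈ range M, rs new B M (c : ℤ) =
          ∑ c ∈ range M, (1 / (M : ℝ) - min (a (c : ℤ)) (1 / (M : ℝ))) :=
        sum_congr rfl (fun c _ => by rw [hrn, hθa])
      rw [total new B M hM, hh, sum_sub_distrib, sum_const, card_range, nsmul_eq_mul]
      field_simp
    have e2 : ∀ c : ℕ, min (rs μs B M (c : ℤ)) (1 / (M : ℝ)) - (rs μs B M (c : ℤ) - a (c : ℤ)) ≤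
        min (a (c : ℤ)) (1 / (M : ℝ)) := by
      intro c
      have hle : a (c : ℤ) ≤ rs μs B M (c : ℤ) := by
        rw [ha]
        unfold rs
        apply sum_le_sum_of_subset_of_nonneg
        · exact filter_subset_filter _ (bx_subset hLB)
        · intro i _ _; exact hμ.nonneg i
      apply le_min
      · have := min_le_left (rs μs B M (c : ℤ)) (1 / (M : ℝ))
        linarith
      · have := min_le_right (rs μs B M (c : ℤ)) (1 / (M : ℝ))
        linarith
    have e3 : ∑ c ∈ range M, (rs μs B M (c : ℤ) - a (c : ℤ)) ≤ κ := by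
      rw [sum_sub_distrib, ← total μs B M hM, ha, ← total μs L M hM]
      have := sum_sdiff (f := μs) (bx_subset hLB)
      linarith
    have : Nonempty (Fin M) := ⟨⟨0, hM⟩⟩
    have e4 := tv (ι := Fin M) (fun i => rs μs B M ((i : ℕ) : ℤ)) (fun i => rs_nonneg hμ.nonneg B M _)
      (by
        rw [← Finset.sum_range (fun c : ℕ => rs μs B M (c : ℤ)), ← total μs B M hM]
        exact hμ.sum) s0 (by
        rw [Fintype.card_fin]
        rw [← Finset.sum_range (fun c : ℕ => rs μs B M (c : ℤ) *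
          Real.log ((M * rs μs B M (c : ℤ) + 1) / 2))]
        refine le_trans (le_of_eq ?_) hs
        rw [total _ B M hM]
        apply sum_congr rfl
        intro c _
        have := rs_mul μs (fun v => Real.log ((M * rs μs B M v + 1) / 2)) B M
          (fun u v h => by simp only [rs_congr μs B M h]) (c : ℤ)
        rw [mul_comm, ← this]
        congr 1
        funext u
        ring)
    rw [Fintype.card_fin, ← Finset.sum_range (fun c : ℕ => min (rs μs B M (c : ℤ)) (1 / (M : ℝ)))] at e4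
    rw [e1]
    have e5 : ∑ c ∈ range M, min (rs μs B M (c : ℤ)) (1 / (M : ℝ)) -
        ∑ c ∈ range M, (rs μs B M (c : ℤ) - a (c : ℤ)) ≤ ∑ c ∈ range M, min (a (c : ℤ)) (1 / (M : ℝ)) := by
      rw [← sum_sub_distrib]
      exact sum_le_sum (fun c _ => e2 c)
    linarith

end DiamAb
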