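import Mathlib
import Pool.Agent.Lib_MP_0ccc25_pr.Base

/-!
Piece SMOOTH. Convolution with the uniform law on `[0, u)`.

PROOF. Put `μs v = (1 / u) Σ_{t < u} μ0 (v - t)`. For `F : ℤ → ℝ`:
`Σ_{v ∈ bx B} μs v F v = (1 / u) Σ_{t < u} Σ_{v ∈ bx B0} μ0 v F (v + t)` (exchange the sums, shift, and
note that `μ0` vanishes outside `bx B0`, and `bx B0 + t` is contained in `bx B`).
`F = 1`: law. `F = |·|`, `|v + t| ≤ |v| + t`, and `Σ_{t < u} t = u (u - 1) / 2`: the bound for `Ab`.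
`HP`: if `IsQ g q` then `IsQ g (fun v => q (v + t))`: positivity clear; periodicity:
`q (v % g + t) = q ((v % g + t) % g) = q ((v + t) % g) = q (v + t)`; sums: for a finset `s` of canonical
elements, `Σ_{a ∈ s} q (a + t) = Σ_{a ∈ s} q ((a + t) % g)` and `a ↦ (a + t) % g` is injective on `s`
with canonical values. So `h g ≤ Σ μ0 v (-log (q (v + t)))` for each `t`; average over `t`.
`μs v ≤ 1 / u`: the points `v - t` are distinct and `Σ μ0 = 1`.
`rs μs B g v ≤ 1 / g + 1 / u`: with `F w = [g ∣ w - v]`, it is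
`Σ_{v0} μ0 v0 (1 / u) #{t < u | g ∣ v0 + t - v}` and the number is at most `u / g + 1`
(`Int.Ico_filter_dvd_card`, or consecutive solutions differ by at least `g`).
-/

namespace DiamAb

open Finset

noncomputable section

/-- the convolution of a law with the uniform law on `[0, u)` -/
def smoothLaw (μ0 : ℤ → ℝ) (u : ℕ) (v : ℤ) : ℝ := (∑ t ∈ range u, μ0 (v - t)) / u

theorem smooth_shift {μ0 : ℤ → ℝ} {B0 B : ℕ} (hμ : IsLaw μ0 B0) {t : ℕ} (ht : B0 + t ≤ B)
    (F : ℤ → ℝ) :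
    ∑ v ∈ bx B, μ0 (v - t) * F v = ∑ v ∈ bx B0, μ0 v * F (v + t) := by
  have h1 : ∑ v ∈ bx B0, μ0 v * F (v + t)
      = ∑ v ∈ (bx B0).map (addRightEmbedding (t : ℤ)), μ0 (v - t) * F v := by
    rw [sum_map]
    refine sum_congr rfl fun v _ => ?_
    simp
  rw [h1]
  symm
  apply sum_subset
  · intro v hv
    rw [mem_map] at hv
    obtain ⟨w, hw, rfl⟩ := hv
    simp only [addRightEmbedding_apply]
    rw [mem_bx] at hw ⊢
    omega
  · intro v _ hv
    rw [hμ.supp, zero_mul]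
    intro h2
    apply hv
    rw [mem_map]
    exact ⟨v - t, h2, by simp⟩

theorem smooth_sum {μ0 : ℤ → ℝ} {B0 u B : ℕ} (hμ : IsLaw μ0 B0) (hB : B0 + u ≤ B)
    (F : ℤ → ℝ) :
    ∑ v ∈ bx B, smoothLaw μ0 u v * F v
      = (∑ t ∈ range u, ∑ v ∈ bx B0, μ0 v * F (v + t)) / u := by
  unfold smoothLaw
  have h1 : ∀ v ∈ bx B, (∑ t ∈ range u, μ0 (v - t)) / u * F v
      = (∑ t ∈ range u, μ0 (v - t) * F v) / u := by
    intro v _
    rw [← sum_mul, div_mul_eq_mul_div]
  rw [sum_congr rfl h1, ← sum_div, sum_comm]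
  congr 1
  refine sum_congr rfl fun t ht => ?_
  rw [mem_range] at ht
  exact smooth_shift hμ (by omega) F

theorem smooth_finset_le {μ0 : ℤ → ℝ} {B0 : ℕ} (hμ : IsLaw μ0 B0) (s : Finset ℤ) :
    ∑ x ∈ s, μ0 x ≤ 1 := by
  rw [← hμ.sum]
  have h1 : ∑ x ∈ s, μ0 x = ∑ x ∈ s ∩ bx B0, μ0 x := by
    symm
    apply sum_subset inter_subset_left
    intro x hx hx'
    apply hμ.supp
    intro h2
    exact hx' (mem_inter.mpr ⟨hx, h2⟩)
  rw [h1]
  exact sum_le_sum_of_subset_of_nonneg inter_subset_right fun x _ _ => hμ.nonneg x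

theorem smooth_isQ {g : ℕ} {q : ℤ → ℝ} (hq : IsQ g q) (t : ℤ) : IsQ g (fun v => q (v + t)) := by
  have hkey : ∀ v : ℤ, q ((v + t) % (g : ℤ)) = q (v + t) := fun v => hq.per _
  refine ⟨fun v => hq.pos _, fun v => ?_, fun s hs => ?_⟩
  · have h1 : (v % (g : ℤ) + t) % (g : ℤ) = (v + t) % (g : ℤ) := by
      rw [Int.emod_add_emod]
    show q (v % (g : ℤ) + t) = q (v + t)
    rw [← hq.per (v % (g : ℤ) + t), h1, hq.per]
  · have hinj : Set.InjOn (fun a : ℤ => (a + t) % (g : ℤ)) (s : Set ℤ) := by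
      intro a ha b hb hab
      have h2 : a + t ≡ b + t [ZMOD (g : ℤ)] := hab
      have h3 : a ≡ b [ZMOD (g : ℤ)] := Int.ModEq.add_right_cancel' t h2
      rw [← hs a ha, ← hs b hb]
      exact h3
    have h1 : ∑ a ∈ s, q (a + t) = ∑ b ∈ s.image (fun a : ℤ => (a + t) % (g : ℤ)), q b := by
      rw [sum_image hinj]
      exact sum_congr rfl fun a _ => (hkey a).symm
    show ∑ a ∈ s, q (a + t) ≤ 1
    rw [h1]
    apply hq.sum
    intro b hb
    rw [mem_image] at hb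
    obtain ⟨a, _, rfl⟩ := hb
    exact Int.emod_emod_of_dvd _ (dvd_refl _)

theorem smooth_count (g u : ℕ) (c : ℤ) :
    (((range u).filter (fun t : ℕ => (g : ℤ) ∣ (t : ℤ) - c)).card : ℝ) ≤ u / g + 1 := by
  have h1 : ((range u).filter (fun t : ℕ => (g : ℤ) ∣ (t : ℤ) - c)).card
      ≤ (range (u / g + 1)).card := by
    apply card_le_card_of_injOn (fun t => t / g)
    · intro t ht
      rw [mem_coe, mem_filter, mem_range] at ht
      rw [mem_coe, mem_range, Nat.lt_succ_iff]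
      exact Nat.div_le_div_right ht.1.le
    · intro a ha b hb hab
      rw [mem_coe, mem_filter] at ha hb
      have h2 : (g : ℤ) ∣ (a : ℤ) - b := by
        have := dvd_sub ha.2 hb.2
        have h3 : (a : ℤ) - c - (b - c) = a - b := by ring
        rwa [h3] at this
      have h4 : b ≡ a [MOD g] := (Nat.modEq_iff_dvd).mpr h2
      have h5 : b % g = a % g := h4
      have h6 : a / g = b / g := hab
      rw [← Nat.div_add_mod a g, ← Nat.div_add_mod b g, h5, h6]
  rw [card_range] at h1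
  have h2 : (((range u).filter (fun t : ℕ => (g : ℤ) ∣ (t : ℤ) - c)).card : ℝ)
      ≤ ((u / g : ℕ) : ℝ) + 1 := by exact_mod_cast h1
  refine h2.trans ?_
  have h3 : ((u / g : ℕ) : ℝ) ≤ u / g := Nat.cast_div_le
  linarith

theorem smooth (μ0 : ℤ → ℝ) (B0 u B : ℕ) (hμ : IsLaw μ0 B0) (hu : 1 ≤ u) (hB : B0 + u ≤ B)
    (h : ℕ → ℝ) (hH : HP μ0 B0 h) :
    ∃ μs : ℤ → ℝ, IsLaw μs B ∧ HP μs B h ∧ Ab μs B ≤ Ab μ0 B0 + ((u : ℝ) - 1) / 2 ∧
      (∀ v, μs v ≤ 1 / u) ∧ (∀ (g : ℕ) (v : ℤ), 1 ≤ g → rs μs B g v ≤ 1 / g + 1 / u) := by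
  have hu0 : (0 : ℝ) < u := by exact_mod_cast hu
  refine ⟨smoothLaw μ0 u, ⟨fun v => ?_, fun v hv => ?_, ?_⟩, ?_, ?_, fun v => ?_, ?_⟩
  · unfold smoothLaw
    exact div_nonneg (sum_nonneg fun t _ => hμ.nonneg _) hu0.le
  · unfold smoothLaw
    rw [sum_eq_zero, zero_div]
    intro t ht
    rw [mem_range] at ht
    apply hμ.supp
    intro h2
    apply hv
    rw [mem_bx] at h2 ⊢
    omega
  · have h1 := smooth_sum hμ hB (fun _ => (1 : ℝ))
    simp only [mul_one] at h1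
    rw [h1, hμ.sum, sum_const, card_range, nsmul_eq_mul, mul_one, div_self hu0.ne']
  · intro g q hq
    rw [smooth_sum hμ hB (fun v => -Real.log (q v)), le_div_iff₀ hu0]
    have h1 : ∑ _t ∈ range u, h g
        ≤ ∑ t ∈ range u, ∑ v ∈ bx B0, μ0 v * (-Real.log (q (v + (t : ℤ)))) :=
      sum_le_sum fun t _ => hH g _ (smooth_isQ hq (t : ℤ))
    rw [sum_const, card_range, nsmul_eq_mul] at h1
    linarith [mul_comm (h g) (u : ℝ)]
  · unfold Ab
    rw [smooth_sum hμ hB (fun v => |(v : ℝ)|), div_le_iff₀ hu0]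
    have h1 : ∑ t ∈ range u, ∑ v ∈ bx B0, μ0 v * |((v + (t : ℤ) : ℤ) : ℝ)|
        ≤ ∑ t ∈ range u, (∑ v ∈ bx B0, μ0 v * |(v : ℝ)| + (t : ℝ)) := by
      refine sum_le_sum fun t _ => ?_
      have h2 : (t : ℝ) = ∑ v ∈ bx B0, μ0 v * (t : ℝ) := by
        rw [← sum_mul, hμ.sum, one_mul]
      refine le_trans ?_ (add_le_add (le_refl _) h2.symm.le)
      rw [← sum_add_distrib]
      refine sum_le_sum fun v _ => ?_
      rw [← mul_add]
      apply mul_le_mul_of_nonneg_left _ (hμ.nonneg v)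
      push_cast
      refine (abs_add_le _ _).trans ?_
      rw [abs_of_nonneg (Nat.cast_nonneg t : (0 : ℝ) ≤ (t : ℝ))]
    refine h1.trans ?_
    rw [sum_add_distrib, sum_const, card_range, nsmul_eq_mul]
    have h3 : ∑ t ∈ range u, (t : ℝ) = (u : ℝ) * ((u : ℝ) - 1) / 2 := by
      have h4 := Finset.sum_range_id_mul_two u
      have h5 : ((∑ t ∈ range u, t : ℕ) : ℝ) * 2 = (u : ℝ) * ((u - 1 : ℕ) : ℝ) := by
        exact_mod_cast h4
      rw [Nat.cast_sub hu] at h5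
      push_cast at h5
      linarith
    rw [h3]
    apply le_of_eq
    ring
  · unfold smoothLaw
    rw [div_le_div_iff_of_pos_right hu0]
    have h1 : ∑ t ∈ range u, μ0 (v - t) = ∑ x ∈ (range u).image (fun t : ℕ => v - (t : ℤ)), μ0 x := by
      rw [sum_image]
      intro a _ b _ hab
      simp only at hab
      omega
    rw [h1]
    exact smooth_finset_le hμ _
  · intro g v hg
    have hg0 : (0 : ℝ) < g := by exact_mod_cast hg
    have h1 : rs (smoothLaw μ0 u) B g v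
        = ∑ w ∈ bx B, smoothLaw μ0 u w * (if (g : ℤ) ∣ w - v then (1 : ℝ) else 0) := by
      unfold rs
      rw [sum_filter]
      refine sum_congr rfl fun w _ => ?_
      split_ifs <;> simp
    rw [h1, smooth_sum hμ hB, div_le_iff₀ hu0, sum_comm]
    have h2 : ∀ x ∈ bx B0, ∑ t ∈ range u, μ0 x * (if (g : ℤ) ∣ x + (t : ℤ) - v then (1 : ℝ) else 0)
        ≤ μ0 x * (u / g + 1) := by
      intro x _
      rw [← mul_sum, sum_boole]
      apply mul_le_mul_of_nonneg_left _ (hμ.nonneg x)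
      have h3 := smooth_count g u (v - x)
      refine le_trans (le_of_eq ?_) h3
      congr 2
      apply filter_congr
      intro t _
      have h4 : x + (t : ℤ) - v = (t : ℤ) - (v - x) := by ring
      rw [h4]
    refine (sum_le_sum h2).trans ?_
    rw [← sum_mul, hμ.sum, one_mul]
    apply le_of_eq
    field_simp

end

end DiamAb
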