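import Mathlib
import Pool.Agent.Lib_MP_0ccc25_pr.Smooth
import Pool.Agent.Lib_MP_0ccc25_pr.ModM
import Pool.Agent.Lib_MP_0ccc25_pr.MixEnt
import Pool.Agent.Lib_MP_0ccc25_pr.MixEnt0
import Pool.Agent.Lib_MP_0ccc25_pr.Apri

/-!
Piece LAW. Construction of the good coordinate law.

PROOF. Let `u = ⌈ε S⌉₊ ≥ 1` (so `u ≥ ε S`, `(u - 1) / 2 ≤ ε S / 2`), `L = M ⌈Λ S / M⌉₊`, `L' = M ⌈3 S / (√s1 M)⌉₊`,
`Ln = M ⌈S / M⌉₊`, `B = B0 + u + L`. Then `Λ S ≤ L ≤ Λ S + M ≤ (Λ + 3) S`, similarly for `L'`, and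
`S ≤ Ln ≤ S + M ≤ 4 S`; `L' ≤ L`, `Ln ≤ L` as `3 / √s1 ≤ Λ`, `1 ≤ Λ` (monotonicity of the ceiling).
`smooth` gives `μs` with `HP μs B h`, `Ab μs ≤ Ab μ0 + ε S / 2 ≤ (C1 + 1) S`, `μs v ≤ 1 / u ≤ 1 / (ε S)`, etc.
`κ`: for `v ∈ bx B \ bx L`, `|v| ≥ L`, so `Σ μs v ≤ Ab μs B / L ≤ (C1 + 1) S / (Λ S) = (C1 + 1) / Λ`.
`hs` of `modM`: apply `HP` for `μs` to `q v = (rs μs B M v + 1 / M) / 2`, which is a test law modulo `M` (positive;
periodic by `rs_per`; sums over canonical `s`: `Σ rs ≤ 1` by `sum_rs_le`, and a set of canonical residues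
modulo `M` has at most `M` elements). As `-log (q v) = log M - log ((M rs μs B M v + 1) / 2)`, we get
`h M ≤ log M - Σ μs log ((M rs + 1) / 2)`, so the sum is at most `log M - h M ≤ s0`.
`modM` then gives `MixD ... mb` with `mb = (C1 + 1) / Λ + 2 √s0`. Take `μ = mix ε S L L' kept new`.
Write `Cb = log (16 (Λ + 3) ^ 2 / ε ^ 2) ≥ 1` and `B2 = log (147456 (C1 + 1) / (ε ^ 3 s1)) ≥ 0`; the hypothesis `hB`
is `mb (Cb + B2) ≤ ε √s1 s1 / 48`, so `mb ≤ ε / 48`, `mb Cb` and `mb B2` are at most `ε √s1 s1 / 48`.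
`Good`: `law, posi, unif` from MIXLAW. `ent`: for `g ≥ 1` in `N` from `mix_ent`:
`ε √s1 s1 / 12 - ε √s1 s1 / 48 ≥ ε √s1 s1 / 24`; for `g = 0` from `mix_ent0`:
`ε √s1 (13 / 96) - ε √s1 s1 / 48 ≥ ε √s1 s1 / 24`. `rng`: from MIXRS, for `g ≥ 1` with
`a = log (min g S) - log (4 / ε)`; for `g = 0` with `a = log S - log (4 / ε)` (`rs_zero`, `mix_le`, `mix_ge`;
`(1 / ε + 1 / 2) ≤ 4 / ε` and `2 (Λ + 3) ^ 2 / ε ≤ 4 (Λ + 3) ^ 2 / ε`).
`Ab μ ≤ Ab μs + 4 S mb + 2 ε S ≤ Ab μ0 + ε S (1 / 2 + 1 / 12 + 2) ≤ Ab μ0 + 4 ε S`.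
-/

namespace DiamAb

open Finset

/-- the logarithmic quantity bounding all losses -/
noncomputable def Bf (ε C1 s1 Λ : ℝ) : ℝ :=
  Real.log (16 * (Λ + 3) ^ 2 / ε ^ 2) + Real.log (147456 * (C1 + 1) / (ε ^ 3 * s1))

theorem law_ceil (x : ℝ) (M : ℕ) (hx : 0 < x) (hM : 1 ≤ M) :
    x ≤ ((M * ⌈x / M⌉₊ : ℕ) : ℝ) ∧ ((M * ⌈x / M⌉₊ : ℕ) : ℝ) ≤ x + M ∧ 1 ≤ M * ⌈x / M⌉₊ := by
  have hM0 : (0 : ℝ) < M := by exact_mod_cast hM
  have h1 : x / M ≤ ⌈x / M⌉₊ := Nat.le_ceil _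
  have h2 : (⌈x / M⌉₊ : ℝ) < x / M + 1 := Nat.ceil_lt_add_one (by positivity)
  refine ⟨?_, ?_, ?_⟩
  · push_cast
    rw [div_le_iff₀ hM0] at h1
    linarith
  · push_cast
    have : (M : ℝ) * ⌈x / M⌉₊ ≤ M * (x / M + 1) := by
      exact mul_le_mul_of_nonneg_left h2.le hM0.le
    have h3 : (M : ℝ) * (x / M + 1) = x + M := by field_simp
    linarith
  · have h4 : 0 < ⌈x / M⌉₊ := Nat.ceil_pos.2 (by positivity)
    exact Nat.mul_pos hM h4

/-- the test law for the sum with the logarithm -/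
theorem law_hs (μs : ℤ → ℝ) (B M : ℕ) (hM : 1 ≤ M) (h : ℕ → ℝ) (hl : IsLaw μs B)
    (hH : HP μs B h) (s0 : ℝ) (hh : Real.log M - s0 ≤ h M) :
    ∑ v ∈ bx B, μs v * Real.log ((M * rs μs B M v + 1) / 2) ≤ s0 := by
  have hM0 : (0 : ℝ) < M := by exact_mod_cast hM
  have hrs : ∀ v, 0 ≤ rs μs B M v := fun v => rs_nonneg hl.nonneg B M v
  have hq : IsQ M (fun v => (rs μs B M v + 1 / M) / 2) := by
    refine ⟨?_, ?_, ?_⟩
    · intro v
      have := hrs v
      positivity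
    · intro v
      show (rs μs B M (v % (M : ℤ)) + 1 / M) / 2 = (rs μs B M v + 1 / M) / 2
      rw [rs_per]
    · intro s hs
      have h1 : ∑ a ∈ s, rs μs B M a ≤ 1 := (sum_rs_le hl.nonneg B M s hs).trans_eq hl.sum
      have h2 : s.card ≤ M := by
        have hsub : s ⊆ Finset.Ico (0 : ℤ) M := by
          intro a ha
          have e := hs a ha
          have hMz : (0 : ℤ) < M := by exact_mod_cast hM
          rw [Finset.mem_Ico]
          constructor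
          · rw [← e]; exact Int.emod_nonneg _ hMz.ne'
          · rw [← e]; exact Int.emod_lt_of_pos _ hMz
        have := Finset.card_le_card hsub
        simpa using this
      have h3 : ∑ a ∈ s, (rs μs B M a + 1 / (M : ℝ)) / 2 =
          (∑ a ∈ s, rs μs B M a) / 2 + s.card * (1 / M) / 2 := by
        rw [← Finset.sum_div, Finset.sum_add_distrib, Finset.sum_const, nsmul_eq_mul, add_div]
      rw [h3]
      have h4 : (s.card : ℝ) * (1 / M) ≤ 1 := by
        rw [mul_one_div, div_le_one hM0]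
        exact_mod_cast h2
      linarith
  have h5 := hH M _ hq
  have h6 : ∑ v ∈ bx B, μs v * (-Real.log ((rs μs B M v + 1 / M) / 2)) =
      Real.log M - ∑ v ∈ bx B, μs v * Real.log ((M * rs μs B M v + 1) / 2) := by
    have h7 : ∀ v ∈ bx B, μs v * (-Real.log ((rs μs B M v + 1 / M) / 2)) =
        μs v * Real.log M - μs v * Real.log ((M * rs μs B M v + 1) / 2) := by
      intro v _
      have h8 : (rs μs B M v + 1 / M) / 2 = ((M * rs μs B M v + 1) / 2) / M := by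
        field_simp
      have h9 : (M * rs μs B M v + 1) / 2 ≠ 0 := by
        have := hrs v
        positivity
      rw [h8, Real.log_div h9 hM0.ne']
      ring
    rw [Finset.sum_congr rfl h7, Finset.sum_sub_distrib, ← Finset.sum_mul, hl.sum, one_mul]
  rw [h6] at h5
  linarith

/-- the tail of the smoothed law -/
theorem law_tail (μs : ℤ → ℝ) (B L : ℕ) (hl : IsLaw μs B) (A : ℝ) (hL : 1 ≤ L)
    (hA : Ab μs B ≤ A) : ∑ v ∈ bx B \ bx L, μs v ≤ A / L := by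
  have hL0 : (0 : ℝ) < L := by exact_mod_cast hL
  rw [le_div_iff₀ hL0, Finset.sum_mul]
  refine le_trans ?_ hA
  unfold Ab
  calc ∑ v ∈ bx B \ bx L, μs v * L ≤ ∑ v ∈ bx B \ bx L, μs v * |(v : ℝ)| := by
        refine Finset.sum_le_sum fun v hv => mul_le_mul_of_nonneg_left ?_ (hl.nonneg v)
        rw [Finset.mem_sdiff, mem_bx, mem_bx] at hv
        have h1 : (L : ℤ) ≤ |v| := by
          by_contra hc
          push Not at hc
          rw [abs_lt] at hc
          exact hv.2 ⟨hc.1.le, hc.2⟩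
        have h2 : ((L : ℤ) : ℝ) ≤ ((|v| : ℤ) : ℝ) := by exact_mod_cast h1
        rw [Int.cast_abs] at h2
        simpa using h2
    _ ≤ ∑ v ∈ bx B, μs v * |(v : ℝ)| :=
        Finset.sum_le_sum_of_subset_of_nonneg Finset.sdiff_subset
          (fun v _ _ => mul_nonneg (hl.nonneg v) (abs_nonneg _))

theorem law_rng (x lo m E Cb : ℝ) (hm : 0 < m) (hE : 0 < E) (hlo0 : 0 < lo)
    (hlo : lo / m ≤ x) (hup : x ≤ E / m) (hC : Real.log E - Real.log lo ≤ Cb) :
    Real.log m - Real.log E ≤ -Real.log x ∧ -Real.log x ≤ Real.log m - Real.log E + Cb := by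
  have hx : 0 < x := lt_of_lt_of_le (by positivity) hlo
  have h1 := Real.log_le_log hx hup
  have h2 := Real.log_le_log (by positivity) hlo
  rw [Real.log_div hE.ne' hm.ne'] at h1
  rw [Real.log_div hlo0.ne' hm.ne'] at h2
  constructor <;> linarith

theorem law (ε C1 s1 s0 Λ S : ℝ) (hε : 0 < ε) (hε' : ε ≤ 1 / 4) (hC1 : 1 ≤ C1) (hs1 : 0 < s1)
    (hs1' : s1 ≤ 1 / 2) (hs0 : 0 ≤ s0) (hΛ : 3 / √s1 ≤ Λ)
    (hB : ((C1 + 1) / Λ + 2 * √s0) * Bf ε C1 s1 Λ ≤ ε * (√s1 * s1) / 48)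
    (hS : 1 ≤ S) (h : ℕ → ℝ) (M : ℕ) (hM : 1 ≤ M) (hMS : (M : ℝ) ≤ 3 * S) (N : Set ℕ)
    (h0 : h 0 = Real.log S) (hle : ∀ g, h g ≤ Real.log S)
    (hN : ∀ g ∈ N, 1 ≤ g → h g ≤ Real.log g - s1) (hhM : Real.log M - s0 ≤ h M)
    (μ0 : ℤ → ℝ) (B0 : ℕ) (hμ0 : IsLaw μ0 B0) (hH : HP μ0 B0 h) (hAb : Ab μ0 B0 ≤ C1 * S) :
    ∃ (L : ℕ) (μ : ℤ → ℝ), 1 ≤ L ∧ (L : ℝ) ≤ (Λ + 3) * S ∧
      Good h M N (ε * (√s1 * s1) / 24) (Real.log (16 * (Λ + 3) ^ 2 / ε ^ 2)) μ L ∧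
      Ab μ L ≤ Ab μ0 B0 + 4 * ε * S := by
  have hr0 : 0 < √s1 := Real.sqrt_pos.2 hs1
  have hr1 : √s1 ≤ 1 := Real.sqrt_le_iff.2 ⟨by norm_num, by linarith⟩
  have hΛ3 : 3 ≤ Λ := by
    refine le_trans ?_ hΛ
    rw [le_div_iff₀ hr0]
    linarith
  have hΛ0 : 0 < Λ := by linarith
  have hS0 : 0 < S := by linarith
  have hM0 : (0 : ℝ) < M := by exact_mod_cast hM
  set κ := (C1 + 1) / Λ with hκdef
  set mb := κ + 2 * √s0 with hmb
  set Cb := Real.log (16 * (Λ + 3) ^ 2 / ε ^ 2) with hCb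
  set B2 := Real.log (147456 * (C1 + 1) / (ε ^ 3 * s1)) with hB2
  have hκ0 : 0 ≤ κ := by positivity
  have hmb0 : 0 ≤ mb := by positivity
  have hCb1 : 1 ≤ Cb := by
    rw [hCb, Real.le_log_iff_exp_le (by positivity)]
    have h1 : Real.exp 1 ≤ 3 := by
      have := Real.exp_one_lt_d9
      linarith
    have h2 : (3 : ℝ) ≤ 16 * (Λ + 3) ^ 2 / ε ^ 2 := by
      rw [le_div_iff₀ (by positivity)]
      have h3 : ε ^ 2 ≤ 1 := pow_le_one₀ hε.le (by linarith)
      have h4 : 1 ≤ (Λ + 3) ^ 2 := one_le_pow₀ (by linarith)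
      linarith
    linarith
  have hB20 : 0 ≤ B2 := by
    apply Real.log_nonneg
    rw [le_div_iff₀ (by positivity)]
    have h3 : ε ^ 3 ≤ 1 := pow_le_one₀ hε.le (by linarith)
    have h4 : ε ^ 3 * s1 ≤ 1 * 1 := mul_le_mul h3 (by linarith) hs1.le (by norm_num)
    linarith
  have hBf : mb * (Cb + B2) ≤ ε * (√s1 * s1) / 48 := hB
  have hrs1 : √s1 * s1 ≤ 1 := by
    calc √s1 * s1 ≤ 1 * 1 := mul_le_mul hr1 (by linarith) hs1.le (by norm_num)
      _ = 1 := by norm_num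
  have hrs0 : 0 < √s1 * s1 := by positivity
  have hmbe : mb * (Cb + B2) = mb * Cb + mb * B2 := by ring
  have hmbC : mb * Cb ≤ ε * (√s1 * s1) / 48 := by
    have : 0 ≤ mb * B2 := by positivity
    linarith
  have hmbB : mb * B2 ≤ ε * (√s1 * s1) / 48 := by
    have : 0 ≤ mb * Cb := by positivity
    linarith
  have hmbε : mb ≤ ε / 48 := by
    have h1 : mb * 1 ≤ mb * Cb := mul_le_mul_of_nonneg_left hCb1 hmb0
    have h2 : ε * (√s1 * s1) ≤ ε * 1 := mul_le_mul_of_nonneg_left hrs1 hε.le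
    linarith
  -- the scales
  set u := ⌈ε * S⌉₊ with hu
  have hεS : 0 < ε * S := by positivity
  have hu1 : 1 ≤ u := Nat.ceil_pos.2 hεS
  have hule : ε * S ≤ u := Nat.le_ceil _
  have hult : (u : ℝ) < ε * S + 1 := Nat.ceil_lt_add_one hεS.le
  obtain ⟨hL1, hL2, hL3⟩ := law_ceil (Λ * S) M (by positivity) hM
  obtain ⟨hL'1, hL'2, hL'3⟩ := law_ceil (3 * S / √s1) M (by positivity) hM
  obtain ⟨hLn1, hLn2, hLn3⟩ := law_ceil S M hS0 hM
  have hLnL : M * ⌈S / M⌉₊ ≤ M * ⌈Λ * S / M⌉₊ := by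
    apply Nat.mul_le_mul_left
    apply Nat.ceil_mono
    apply div_le_div_of_nonneg_right _ hM0.le
    exact le_mul_of_one_le_left hS0.le (by linarith)
  have hL'L : M * ⌈3 * S / √s1 / M⌉₊ ≤ M * ⌈Λ * S / M⌉₊ := by
    apply Nat.mul_le_mul_left
    apply Nat.ceil_mono
    apply div_le_div_of_nonneg_right _ hM0.le
    have : 3 * S / √s1 = 3 / √s1 * S := by ring
    rw [this]
    exact mul_le_mul_of_nonneg_right hΛ hS0.le
  have hdvd : M ∣ M * ⌈Λ * S / M⌉₊ ∧ M ∣ M * ⌈3 * S / √s1 / M⌉₊ ∧ M ∣ M * ⌈S / M⌉₊ :=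
    ⟨Dvd.intro _ rfl, Dvd.intro _ rfl, Dvd.intro _ rfl⟩
  generalize M * ⌈Λ * S / M⌉₊ = L at *
  generalize M * ⌈3 * S / √s1 / M⌉₊ = L' at *
  generalize M * ⌈S / M⌉₊ = Ln at *
  set B := B0 + u + L with hBdef
  obtain ⟨μs, hs_law, hs_HP, hs_Ab, hs_sup, hs_rs⟩ := smooth μ0 B0 u B hμ0 hu1 (by omega) h hH
  have hu0 : (0 : ℝ) < u := by exact_mod_cast hu1
  have hAb2 : Ab μs B ≤ Ab μ0 B0 + ε * S / 2 := by linarith
  have hεS4 : ε * S ≤ 1 / 4 * S := mul_le_mul_of_nonneg_right hε' hS0.le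
  have hAb3 : Ab μs B ≤ (C1 + 1) * S := by
    have e : (C1 + 1) * S = C1 * S + S := by ring
    linarith
  have hinv : (1 : ℝ) / u ≤ 1 / (ε * S) := one_div_le_one_div_of_le hεS hule
  have hκ : ∑ v ∈ bx B \ bx L, μs v ≤ κ := by
    refine (law_tail μs B L hs_law ((C1 + 1) * S) hL3 hAb3).trans ?_
    rw [hκdef, div_le_div_iff₀ (by exact_mod_cast hL3) hΛ0]
    have e : (C1 + 1) * S * Λ = (C1 + 1) * (Λ * S) := by ring
    rw [e]
    exact mul_le_mul_of_nonneg_left hL1 (by linarith)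
  have hs := law_hs μs B M hM h hs_law hs_HP s0 hhM
  obtain ⟨kept, new, k1, k2, n1, n2, tot, small, exact⟩ := modM μs B L Ln M κ s0 hs_law hM hLn3
    hLnL (by omega) hdvd.2.2 hκ hs
  have D : MixD ε s1 Λ S M L L' Ln B μs kept new mb :=
    { hε := ⟨hε, hε'⟩
      hs1 := ⟨hs1, hs1'⟩
      hΛ := hΛ
      hS := hS
      hM := hM
      hLn := ⟨hLn3, hLn1, by linarith⟩
      hL' := ⟨hL'1, by
        have : (3 / √s1 + 3) * S = 3 * S / √s1 + 3 * S := by ring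
        rw [this]; linarith⟩
      hL := ⟨hL1, by
        have : (Λ + 3) * S = Λ * S + 3 * S := by ring
        rw [this]; linarith⟩
      ord := ⟨by omega, hLnL, hL'L⟩
      dvd := hdvd
      law := hs_law
      sup0 := fun v => (hs_sup v).trans hinv
      sup := fun g v hg => (hs_rs g v hg).trans (by linarith)
      kept1 := k1
      kept2 := k2
      new1 := n1
      new2 := n2
      tot := tot
      small := small
      exact := exact }
  have hEl : Real.log (4 / ε) - Real.log (ε / (4 * (Λ + 3) ^ 2)) ≤ Cb := by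
    rw [← Real.log_div (by positivity) (by positivity), hCb]
    apply le_of_eq
    congr 1
    field_simp
    ring
  refine ⟨L, mix ε S L L' kept new, hL3, D.hL.2, ?_, ?_⟩
  · refine ⟨mix_law D, mix_pos D, mix_unif D, ?_, ?_⟩
    · intro g hg hgL
      rcases Nat.eq_zero_or_pos g with rfl | hg1
      · have h1 := mix_ent0 D h hs_HP h0 C1 hC1 hAb3
        rw [h0]
        have h2 : ε * (√s1 * s1) ≤ ε * √s1 * (1 / 2) := by
          have : ε * √s1 * s1 ≤ ε * √s1 * (1 / 2) :=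
            mul_le_mul_of_nonneg_left hs1' (by positivity)
          linarith
        have h3 : 0 < ε * √s1 := by positivity
        linarith
      · have hgN : g ∈ N := by
          rcases hg with hg | hg
          · omega
          · exact hg
        have h1 := mix_ent D h hs_HP g hg1 hgL (hN g hgN hg1) (hle g)
        have h3 : 0 < ε * (√s1 * s1) := by positivity
        linarith
    · intro g hg hgL
      rcases Nat.eq_zero_or_pos g with rfl | hg1
      · refine ⟨Real.log S - Real.log (4 / ε), fun v hv => ?_⟩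
        rw [rs_zero hv]
        refine law_rng _ (ε / (4 * (Λ + 3) ^ 2)) S (4 / ε) Cb hS0 (by positivity) (by positivity)
          ?_ ?_ hEl
        · refine le_trans ?_ (mix_ge D v hv)
          apply div_le_div_of_nonneg_right _ hS0.le
          apply div_le_div_of_nonneg_left hε.le (by positivity)
          have := sq_nonneg (Λ + 3)
          linarith
        · refine (mix_le D v).trans ?_
          apply div_le_div_of_nonneg_right _ hS0.le
          have h1 : (1 : ℝ) / 2 ≤ 3 / ε := by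
            rw [div_le_div_iff₀ (by norm_num) hε]
            linarith
          have h2 : (4 : ℝ) / ε = 1 / ε + 3 / ε := by ring
          linarith
      · have hm : 0 < min (g : ℝ) S := lt_min (by exact_mod_cast hg1) hS0
        refine ⟨Real.log (min (g : ℝ) S) - Real.log (4 / ε), fun v hv => ?_⟩
        exact law_rng _ (ε / (4 * (Λ + 3) ^ 2)) _ (4 / ε) Cb hm (by positivity) (by positivity)
          (mix_rs_ge D g hg1 hgL v) (mix_rs_le D g hg1 v) hEl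
  · have h1 := mix_ab D
    have h2 : 4 * S * mb ≤ 4 * S * (ε / 48) := mul_le_mul_of_nonneg_left hmbε (by positivity)
    have e : 4 * S * (ε / 48) = ε * S / 12 := by ring
    have e2 : 4 * ε * S = 4 * (ε * S) := by ring
    have e3 : 2 * ε * S = 2 * (ε * S) := by ring
    linarith

end DiamAb
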