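import Mathlib
import Pool.Agent.Lib_MP_0ccc25_pr.Law

/-!
Piece CALC. Choice of constants.

PROOF. (i) For `K ≥ 3` and `Λ = K / s1 ^ 2` (`s1 ≤ 1 / 2`): `3 / √s1 ≤ K / s1 ^ 2` clear, `Λ + 3 ≤ 2 Λ`, so
`Bf ≤ log (64 K ^ 2 / (ε ^ 2 s1 ^ 4)) + log (147456 (C1 + 1) / (ε ^ 3 s1))
= 2 log K + 5 log (1 / s1) + c1`, `c1 = c1 (ε, C1)`. Wanted: `(C1 + 1) s1 ^ 2 / K * Bf ≤ ε √s1 s1 / 96`, i.e.
`√s1 Bf ≤ ε K / (96 (C1 + 1))`. As `√x log (1 / x) ≤ 1` for `0 < x ≤ 1` (`log (1 / x) = 4 log (x ^ (-1/4)) ≤ 4 x ^ (-1/4)...`; any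
bounded constant is fine, e.g. `log y ≤ 2 √y` for `y = 1 / x`), the left side is at most `2 log K + 10 + |c1|`, which is at
most `ε K / (96 (C1 + 1))` for some large `K`. Fix it.
(ii) With this `K`: `2 √s0 ≤ 2 (2 s1) ^ (13 / 8)`, so it suffices that
`2 (2 s1) ^ (13 / 8) Bf ≤ ε √s1 s1 / 96`, i.e. `192 * 2 ^ (13 / 8) * s1 ^ (1 / 8) * Bf ≤ ε`; since
`s1 ^ (1 / 8) (c + 5 log (1 / s1)) → 0` as `s1 → 0`, this holds for all `s1 ≤ s*`.
-/

namespace DiamAb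

/-- the constant in the bound for `Bf` -/
noncomputable def calcC (ε C1 : ℝ) : ℝ := 64 * 147456 * (C1 + 1) / ε ^ 5

theorem calc_Bf (ε C1 : ℝ) (hε : 0 < ε) (hC1 : 1 ≤ C1) (K s1 : ℝ) (hK : 3 ≤ K) (hs : 0 < s1)
    (hs' : s1 ≤ 1 / 2) :
    Bf ε C1 s1 (K / s1 ^ 2) ≤ 2 * Real.log K + Real.log (calcC ε C1) + 5 * Real.log (1 / s1) := by
  have hK0 : 0 < K := by linarith
  have hC0 : 0 < C1 + 1 := by linarith
  set Λ : ℝ := K / s1 ^ 2 with hΛ
  have hs2 : s1 ^ 2 ≤ 1 := by nlinarith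
  have hΛ3 : 3 ≤ Λ := by
    rw [hΛ, le_div_iff₀ (by positivity)]
    nlinarith
  have h1 : 16 * (Λ + 3) ^ 2 / ε ^ 2 ≤ 64 * Λ ^ 2 / ε ^ 2 := by
    apply div_le_div_of_nonneg_right _ (by positivity)
    nlinarith
  have h2 : Real.log (16 * (Λ + 3) ^ 2 / ε ^ 2) ≤ Real.log (64 * Λ ^ 2 / ε ^ 2) :=
    Real.log_le_log (by positivity) h1
  have h3 : Real.log (64 * Λ ^ 2 / ε ^ 2) + Real.log (147456 * (C1 + 1) / (ε ^ 3 * s1))
      = 2 * Real.log K + Real.log (calcC ε C1) + 5 * Real.log (1 / s1) := by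
    have hc : 0 < calcC ε C1 := by unfold calcC; positivity
    have h4 : 64 * Λ ^ 2 / ε ^ 2 * (147456 * (C1 + 1) / (ε ^ 3 * s1))
        = K ^ 2 * calcC ε C1 * (1 / s1) ^ 5 := by
      rw [hΛ]
      unfold calcC
      field_simp
    rw [← Real.log_mul (by positivity) (by positivity), h4,
      Real.log_mul (by positivity) (by positivity), Real.log_mul (by positivity) (by positivity),
      Real.log_pow, Real.log_pow]
    push_cast
    ring
  unfold Bf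
  linarith

theorem calc_log_le (y : ℝ) (hy : 0 < y) : Real.log y ≤ 2 * √y := by
  have h1 : Real.log y = 2 * Real.log (√y) := by
    rw [Real.log_sqrt hy.le]; ring
  rw [h1]
  have h2 := Real.log_le_sub_one_of_pos (Real.sqrt_pos.mpr hy)
  linarith

theorem calc_const (ε C1 : ℝ) (hε : 0 < ε) (hε' : ε ≤ 1 / 4) (hC1 : 1 ≤ C1) :
    ∃ K sx : ℝ, 3 ≤ K ∧ 0 < sx ∧ sx ≤ 1 / 2 ∧
      (∀ s1 : ℝ, 0 < s1 → s1 ≤ 1 / 2 → 3 / √s1 ≤ K / s1 ^ 2 ∧
        (C1 + 1) / (K / s1 ^ 2) * Bf ε C1 s1 (K / s1 ^ 2) ≤ ε * (√s1 * s1) / 96) ∧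
      (∀ s1 s0 : ℝ, 0 < s1 → s1 ≤ sx → 0 ≤ s0 → s0 ≤ (2 * s1) ^ (13 / 4 : ℝ) →
        2 * √s0 * Bf ε C1 s1 (K / s1 ^ 2) ≤ ε * (√s1 * s1) / 96) := by
  have hC0 : 0 < C1 + 1 := by linarith
  have hcc : 1 ≤ calcC ε C1 := by
    unfold calcC
    rw [le_div_iff₀ (by positivity)]
    have h1 : ε ^ 5 ≤ 1 := pow_le_one₀ hε.le (by linarith)
    nlinarith
  have hlc : 0 ≤ Real.log (calcC ε C1) := Real.log_nonneg hcc
  set δ : ℝ := ε / (96 * (C1 + 1)) with hδ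
  have hδ0 : 0 < δ := by positivity
  set B : ℝ := Real.log (calcC ε C1) + 10 with hB
  have hB0 : 0 < B := by linarith
  set X : ℝ := (4 + B) / δ + 2 with hX
  have hX2 : 2 ≤ X := by
    have : 0 < (4 + B) / δ := by positivity
    linarith
  have hX0 : 0 < X := by linarith
  have hXd : 4 + B ≤ δ * X := by
    have h1 : δ * ((4 + B) / δ) = 4 + B := by field_simp
    have h2 : δ * X = δ * ((4 + B) / δ) + δ * 2 := by rw [hX]; ring
    linarith
  have hK3 : (3 : ℝ) ≤ X ^ 2 := by nlinarith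
  have hKK : 2 * Real.log (X ^ 2) + B ≤ δ * X ^ 2 := by
    have h1 := calc_log_le (X ^ 2) (by positivity)
    rw [Real.sqrt_sq hX0.le] at h1
    have h2 : (4 + B) * X ≤ δ * X * X := mul_le_mul_of_nonneg_right hXd hX0.le
    nlinarith
  have hlK : 0 ≤ Real.log (X ^ 2) := Real.log_nonneg (by linarith)
  set A : ℝ := 2 * Real.log (X ^ 2) + Real.log (calcC ε C1) with hA
  have hA0 : 0 ≤ A := by linarith
  set E : ℝ := ε / (768 * (A + 80)) with hE
  have hE0 : 0 < E := by positivity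
  refine ⟨X ^ 2, min (1 / 2) (E ^ 16), hK3, lt_min (by norm_num) (by positivity), min_le_left _ _,
    ?_, ?_⟩
  · intro s1 hs hs'
    have hq0 : 0 < √s1 := Real.sqrt_pos.mpr hs
    have hqq : √s1 * √s1 = s1 := Real.mul_self_sqrt hs.le
    constructor
    · rw [div_le_div_iff₀ hq0 (by positivity)]
      have h1 : s1 ≤ √s1 := by
        rw [Real.le_sqrt hs.le hs.le]
        nlinarith
      have h2 : s1 ^ 2 ≤ √s1 := by nlinarith
      nlinarith
    · have h1 := calc_Bf ε C1 hε hC1 (X ^ 2) s1 hK3 hs hs'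
      have h2 : √s1 * Real.log (1 / s1) ≤ 2 := by
        have h3 := calc_log_le (1 / s1) (by positivity)
        have h4 : √(1 / s1) = 1 / √s1 := by rw [Real.sqrt_div' _ hs.le, Real.sqrt_one]
        rw [h4] at h3
        have h5 := mul_le_mul_of_nonneg_left h3 hq0.le
        have h6 : √s1 * (2 * (1 / √s1)) = 2 := by field_simp
        linarith
      have hq1 : √s1 ≤ 1 := by
        rw [Real.sqrt_le_left (by norm_num)]
        linarith
      have h7 : √s1 * Bf ε C1 s1 (X ^ 2 / s1 ^ 2) ≤ δ * X ^ 2 := by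
        have h8 := mul_le_mul_of_nonneg_left h1 hq0.le
        have h9 : √s1 * A ≤ A := by nlinarith
        have h10 : √s1 * (2 * Real.log (X ^ 2) + Real.log (calcC ε C1) + 5 * Real.log (1 / s1))
            = √s1 * A + 5 * (√s1 * Real.log (1 / s1)) := by rw [hA]; ring
        rw [h10] at h8
        linarith
      have h11 : (C1 + 1) / (X ^ 2 / s1 ^ 2) * Bf ε C1 s1 (X ^ 2 / s1 ^ 2)
          = (C1 + 1) / X ^ 2 * (√s1 * s1) * (√s1 * Bf ε C1 s1 (X ^ 2 / s1 ^ 2)) := by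
        have h12 : (C1 + 1) / (X ^ 2 / s1 ^ 2) = (C1 + 1) / X ^ 2 * (s1 * s1) := by
          field_simp
        rw [h12]
        nth_rewrite 1 [← hqq]
        ring
      rw [h11]
      have h13 : (C1 + 1) / X ^ 2 * (√s1 * s1) * (√s1 * Bf ε C1 s1 (X ^ 2 / s1 ^ 2))
          ≤ (C1 + 1) / X ^ 2 * (√s1 * s1) * (δ * X ^ 2) :=
        mul_le_mul_of_nonneg_left h7 (by positivity)
      refine h13.trans (le_of_eq ?_)
      rw [hδ]
      field_simp
  · intro s1 s0 hs hsx hs0 hs0'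
    have hs' : s1 ≤ 1 / 2 := hsx.trans (min_le_left _ _)
    have hsE : s1 ≤ E ^ 16 := hsx.trans (min_le_right _ _)
    have h1 := calc_Bf ε C1 hε hC1 (X ^ 2) s1 hK3 hs hs'
    have hq0 : 0 < √s1 := Real.sqrt_pos.mpr hs
    set r : ℝ := s1 ^ (1 / 16 : ℝ) with hr
    have hr0 : 0 < r := Real.rpow_pos_of_pos hs _
    have hr1 : r ≤ 1 := Real.rpow_le_one hs.le (by linarith) (by norm_num)
    have hrE : r ≤ E := by
      have h2 : (E ^ 16) ^ (1 / 16 : ℝ) = E := by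
        rw [← Real.rpow_natCast, ← Real.rpow_mul hE0.le]
        norm_num
      rw [← h2]
      exact Real.rpow_le_rpow hs.le hsE (by norm_num)
    have hlog : Real.log (1 / s1) ≤ 16 * r⁻¹ := by
      have h2 := Real.log_le_rpow_div (x := 1 / s1) (by positivity) (show (0 : ℝ) < 1 / 16 by norm_num)
      have h3 : (1 / s1) ^ (1 / 16 : ℝ) = r⁻¹ := by
        rw [one_div, Real.inv_rpow hs.le]
      rw [h3] at h2
      linarith
    have hBr : r * Bf ε C1 s1 (X ^ 2 / s1 ^ 2) ≤ A + 80 := by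
      have h2 := mul_le_mul_of_nonneg_left h1 hr0.le
      have h3 := mul_le_mul_of_nonneg_left hlog hr0.le
      have h4 : r * (16 * r⁻¹) = 16 := by field_simp
      rw [h4] at h3
      have h5 : r * (2 * Real.log (X ^ 2) + Real.log (calcC ε C1) + 5 * Real.log (1 / s1))
          = r * A + 5 * (r * Real.log (1 / s1)) := by rw [hA]; ring
      rw [h5] at h2
      have h6 : r * A ≤ A := by nlinarith
      linarith
    have hr8 : s1 ^ (1 / 8 : ℝ) = r * r := by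
      rw [hr, ← Real.rpow_add hs]
      norm_num
    have hB2 : s1 ^ (1 / 8 : ℝ) * Bf ε C1 s1 (X ^ 2 / s1 ^ 2) ≤ ε / 768 := by
      rw [hr8, mul_assoc]
      have h2 : r * (r * Bf ε C1 s1 (X ^ 2 / s1 ^ 2)) ≤ r * (A + 80) :=
        mul_le_mul_of_nonneg_left hBr hr0.le
      have h3 : r * (A + 80) ≤ E * (A + 80) := mul_le_mul_of_nonneg_right hrE (by linarith)
      have h4 : E * (A + 80) = ε / 768 := by
        rw [hE]
        field_simp
      linarith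
    have hBnn : 0 ≤ Bf ε C1 s1 (X ^ 2 / s1 ^ 2) := by
      unfold Bf
      have h2 : 0 ≤ X ^ 2 / s1 ^ 2 := by positivity
      apply add_nonneg
      · apply Real.log_nonneg
        rw [le_div_iff₀ (by positivity)]
        nlinarith
      · apply Real.log_nonneg
        rw [le_div_iff₀ (by positivity)]
        have h3 : ε ^ 3 ≤ 1 := pow_le_one₀ hε.le (by linarith)
        have h4 : ε ^ 3 * s1 ≤ 1 * 1 := mul_le_mul h3 (by linarith) hs.le (by norm_num)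
        linarith
    have hsq : √s0 ≤ 4 * (s1 ^ (1 / 8 : ℝ) * (√s1 * s1)) := by
      have h2 : √s0 ≤ √((2 * s1) ^ (13 / 4 : ℝ)) := Real.sqrt_le_sqrt hs0'
      refine h2.trans ?_
      rw [Real.sqrt_eq_rpow, ← Real.rpow_mul (by positivity), Real.mul_rpow (by norm_num) hs.le]
      have h3 : s1 ^ (13 / 4 * (1 / 2) : ℝ) = s1 ^ (1 / 8 : ℝ) * (√s1 * s1) := by
        rw [Real.sqrt_eq_rpow]
        nth_rewrite 4 [← Real.rpow_one s1]
        rw [← Real.rpow_add hs, ← Real.rpow_add hs]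
        norm_num
      rw [h3]
      have h4 : (2 : ℝ) ^ (13 / 4 * (1 / 2) : ℝ) ≤ 4 := by
        have h5 : (2 : ℝ) ^ (13 / 4 * (1 / 2) : ℝ) ≤ (2 : ℝ) ^ (2 : ℝ) :=
          Real.rpow_le_rpow_of_exponent_le (by norm_num) (by norm_num)
        refine h5.trans ?_
        norm_num
      exact mul_le_mul_of_nonneg_right h4 (by positivity)
    have h2 : 2 * √s0 * Bf ε C1 s1 (X ^ 2 / s1 ^ 2)
        ≤ 2 * (4 * (s1 ^ (1 / 8 : ℝ) * (√s1 * s1))) * Bf ε C1 s1 (X ^ 2 / s1 ^ 2) := by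
      apply mul_le_mul_of_nonneg_right _ hBnn
      linarith
    refine h2.trans ?_
    have h3 : 2 * (4 * (s1 ^ (1 / 8 : ℝ) * (√s1 * s1))) * Bf ε C1 s1 (X ^ 2 / s1 ^ 2)
        = 8 * (√s1 * s1) * (s1 ^ (1 / 8 : ℝ) * Bf ε C1 s1 (X ^ 2 / s1 ^ 2)) := by ring
    rw [h3]
    have h4 : 8 * (√s1 * s1) * (s1 ^ (1 / 8 : ℝ) * Bf ε C1 s1 (X ^ 2 / s1 ^ 2))
        ≤ 8 * (√s1 * s1) * (ε / 768) := mul_le_mul_of_nonneg_left hB2 (by positivity)
    refine h4.trans (le_of_eq ?_)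
    ring

end DiamAb
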