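import Mathlib

/-!
The Cayley graph of MP_0ccc25_pr.
-/

namespace DiamAb

/-- the Cayley graph of `G` with generators `z i`: distinct `x` and `y` are joined when
`y = x + z i` or `y = x - z i` for some `i` -/
def cay {G : Type} [AddCommGroup G] {k : ℕ} (z : Fin k → G) : SimpleGraph G where
  Adj x y := x ≠ y ∧ ∃ i, y = x + z i ∨ y = x - z i
  symm := by
    constructor
    rintro x y ⟨h, i, h1 | h1⟩
    · exact ⟨h.symm, i, Or.inr (by rw [h1]; abel)⟩
    · exact ⟨h.symm, i, Or.inl (by rw [h1]; abel)⟩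
  loopless := ⟨fun x h => h.1 rfl⟩

end DiamAb
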