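import Mathlib
import Pool.Agent.Lib_MP_0ccc25_pr.Base

/-!
Piece DLOW. Counting words: a covering radius is at least `c0 k S`, where `S ^ k = |G|`.

PROOF.
Step 1 (`word_count`). For a finite set `s` of words with `nrm w ≤ R` and `0 < t < 1`:
`s.card * t ^ R ≤ Σ_{w ∈ s} t ^ (nrm w)`, and `s` is contained in
`Fintype.piFinset fun _ => Finset.Icc (-R) R`, so the sum is at most
`(Σ_{v ∈ Icc (-R) R} t ^ |v|) ^ k` (`Finset.prod_univ_sum`), and
`Σ_{v ∈ Icc (-R) R} t ^ |v| = 1 + 2 (t + ... + t ^ R) ≤ (1 + t) / (1 - t)`.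
Step 2 (`cov_lower`). From `Cov z R` choose for every `x` a word `w x` with `dot (w x) z = x`,
`nrm (w x) ≤ R`; the words are distinct, so `S ^ k * t ^ R ≤ ((1 + t) / (1 - t)) ^ k` for all
`t` in `(0, 1)`. Note `k * log S = log |G| ≥ k / C'`, so `log S ≥ 1 / C'`.
 (a) `S ≥ 8`: take `t = exp (-8 / S)`. As `1 - exp (-x) ≥ x / (1 + x)` for `x > 0`,
 `(1 + t) / (1 - t) ≤ 2 / (1 - t) ≤ 2 (1 + S / 8) = 2 + S / 4 ≤ S / 2`. Hence
 `S ^ k exp (-8 R / S) ≤ (S / 2) ^ k`, so `8 R / S ≥ k log 2`, `R ≥ (log 2 / 8) k S`.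
 (b) `S < 8`: let `a = exp (1 / (2 C'))` and `t = (a - 1) / (a + 1)`, so that
 `(1 + t) / (1 - t) = a`. As `S ≥ a ^ 2`: `a ^ (2 k) t ^ R ≤ a ^ k`, so
 `R * log (1 / t) ≥ k * log a = k / (2 C')`, so `R ≥ k S / (16 C' log (1 / t))`.
 Take `c0` the minimum of the two constants.
-/

namespace DiamAb

open Finset

theorem dlow_sum (t : ℝ) (R : ℕ) :
    (1 - t) * ∑ v ∈ Finset.Icc (-(R : ℤ)) R, t ^ v.natAbs = 1 + t - 2 * t ^ (R + 1) := by
  induction R with
  | zero =>
    simp
    ring
  | succ R ih =>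
    have h1 : Finset.Icc (-((R + 1 : ℕ) : ℤ)) ((R + 1 : ℕ) : ℤ) =
        insert ((R + 1 : ℕ) : ℤ) (insert (-((R + 1 : ℕ) : ℤ)) (Finset.Icc (-(R : ℤ)) R)) := by
      ext v
      simp only [mem_Icc, mem_insert]
      push_cast
      omega
    rw [h1, sum_insert, sum_insert]
    · have e1 : ((R + 1 : ℕ) : ℤ).natAbs = R + 1 := by omega
      have e2 : (-((R + 1 : ℕ) : ℤ)).natAbs = R + 1 := by omega
      rw [e1, e2, mul_add, mul_add, ih]
      ring
    · simp only [mem_Icc]
      push_cast
      omega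
    · simp only [mem_Icc, mem_insert]
      push_cast
      omega

theorem dlow_sum_le (t : ℝ) (h0 : 0 < t) (h1 : t < 1) (R : ℕ) :
    ∑ v ∈ Finset.Icc (-(R : ℤ)) R, t ^ v.natAbs ≤ (1 + t) / (1 - t) := by
  rw [le_div_iff₀ (by linarith), mul_comm, dlow_sum]
  have : 0 < t ^ (R + 1) := by positivity
  linarith

theorem word_count {k : ℕ} (R : ℕ) (t : ℝ) (h0 : 0 < t) (h1 : t < 1) (s : Finset (Fin k → ℤ))
    (hs : ∀ w ∈ s, nrm w ≤ R) : (s.card : ℝ) * t ^ R ≤ ((1 + t) / (1 - t)) ^ k := by
  have hsub : s ⊆ Fintype.piFinset (fun _ : Fin k => Finset.Icc (-(R : ℤ)) R) := by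
    intro w hw
    rw [Fintype.mem_piFinset]
    intro i
    have h2 : (w i).natAbs ≤ nrm w := by
      unfold nrm
      exact single_le_sum (f := fun i => (w i).natAbs) (fun _ _ => Nat.zero_le _) (mem_univ i)
    have h3 := hs w hw
    rw [mem_Icc]
    omega
  calc (s.card : ℝ) * t ^ R = ∑ w ∈ s, t ^ R := by rw [sum_const, nsmul_eq_mul]
    _ ≤ ∑ w ∈ s, t ^ nrm w := sum_le_sum fun w hw => pow_le_pow_of_le_one h0.le h1.le (hs w hw)
    _ ≤ ∑ w ∈ Fintype.piFinset (fun _ : Fin k => Finset.Icc (-(R : ℤ)) R), t ^ nrm w :=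
        sum_le_sum_of_subset_of_nonneg hsub fun w _ _ => by positivity
    _ = ∑ w ∈ Fintype.piFinset (fun _ : Fin k => Finset.Icc (-(R : ℤ)) R),
          ∏ i, t ^ (w i).natAbs := by
        refine sum_congr rfl fun w _ => ?_
        rw [prod_pow_eq_pow_sum]
        rfl
    _ = (∑ v ∈ Finset.Icc (-(R : ℤ)) R, t ^ v.natAbs) ^ k := by
        rw [← Finset.prod_univ_sum (fun _ : Fin k => Finset.Icc (-(R : ℤ)) R)
          (fun _ v => t ^ v.natAbs)]
        simp
    _ ≤ ((1 + t) / (1 - t)) ^ k := by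
        apply pow_le_pow_left₀
        · exact sum_nonneg fun v _ => by positivity
        · exact dlow_sum_le t h0 h1 R

theorem cov_lower (C' : ℝ) (hC : 0 < C') : ∃ c0 : ℝ, 0 < c0 ∧
    ∀ (G : Type) [AddCommGroup G] [Fintype G] (k R : ℕ) (S : ℝ) (z : Fin k → G),
      1 ≤ k → 0 < S → S ^ k = Fintype.card G →
      (k : ℝ) ≤ C' * Real.log (Fintype.card G) → Cov z R → c0 * (k * S) ≤ R := by
  classical
  set a : ℝ := Real.exp (1 / (2 * C')) with ha
  have ha1 : 1 < a := by
    rw [ha, ← Real.exp_zero]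
    apply Real.exp_lt_exp.2
    positivity
  set t2 : ℝ := (a - 1) / (a + 1) with ht2
  have ht0 : 0 < t2 := div_pos (by linarith) (by linarith)
  have ht1 : t2 < 1 := by
    rw [ht2, div_lt_one (by linarith)]
    linarith
  have hlt : 0 < Real.log (1 / t2) := Real.log_pos (by rw [one_div]; exact (one_lt_inv₀ ht0).2 ht1)
  have hl2 : 0 < Real.log 2 := Real.log_pos (by norm_num)
  refine ⟨min (Real.log 2 / 8) (1 / (16 * C' * Real.log (1 / t2))), by positivity, ?_⟩
  intro G _ _ k R S z hk hS hSk hkC hcov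
  have key : ∀ t : ℝ, 0 < t → t < 1 → S ^ k * t ^ R ≤ ((1 + t) / (1 - t)) ^ k := by
    intro t h0 h1
    choose w hw1 hw2 using hcov
    have hinj : Function.Injective w := by
      intro x y hxy
      rw [← hw1 x, ← hw1 y, hxy]
    have h := word_count R t h0 h1 (univ.image w) (by
      intro w' hw'
      obtain ⟨x, _, rfl⟩ := mem_image.1 hw'
      exact hw2 x)
    rw [card_image_of_injective _ hinj, card_univ, ← hSk] at h
    exact h
  have hk0 : (0 : ℝ) < k := by exact_mod_cast hk
  have hlogS : 1 / C' ≤ Real.log S := by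
    have h1 : Real.log (Fintype.card G) = k * Real.log S := by
      rw [← hSk, Real.log_pow]
    rw [h1] at hkC
    rw [div_le_iff₀ hC]
    have : (k : ℝ) * 1 ≤ k * (Real.log S * C') := by linarith
    exact le_of_mul_le_mul_left this hk0
  by_cases h8 : 8 ≤ S
  · have hle : min (Real.log 2 / 8) (1 / (16 * C' * Real.log (1 / t2))) ≤ Real.log 2 / 8 :=
      min_le_left _ _
    have hgoal : Real.log 2 / 8 * (k * S) ≤ R := by
      set x : ℝ := 8 / S with hx
      have hx0 : 0 < x := by positivity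
      set t : ℝ := Real.exp (-x) with ht
      have h0 : 0 < t := Real.exp_pos _
      have h1 : t < 1 := by
        rw [ht]
        rw [← Real.exp_zero]
        exact Real.exp_lt_exp.2 (by linarith)
      have h2 := key t h0 h1
      have h3 : t ≤ 1 / (1 + x) := by
        rw [ht, Real.exp_neg, ← one_div]
        apply one_div_le_one_div_of_le (by linarith)
        have := Real.add_one_le_exp x
        linarith
      have h4 : (1 + t) / (1 - t) ≤ S / 2 := by
        rw [div_le_iff₀ (by linarith)]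
        have h5 : x / (1 + x) ≤ 1 - t := by
          have : x / (1 + x) = 1 - 1 / (1 + x) := by field_simp; ring
          linarith
        have h6 : 8 / (S + 8) = x / (1 + x) := by
          rw [hx]; field_simp
        have h7 : 8 / (S + 8) ≤ 1 - t := by rw [h6]; exact h5
        have h8' : 2 ≤ S / 2 * (8 / (S + 8)) := by
          rw [div_mul_div_comm, le_div_iff₀ (by linarith)]
          nlinarith
        calc 1 + t ≤ 2 := by linarith
          _ ≤ S / 2 * (8 / (S + 8)) := h8'
          _ ≤ S / 2 * (1 - t) := mul_le_mul_of_nonneg_left h7 (by linarith)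
      have h5 : S ^ k * t ^ R ≤ (S / 2) ^ k :=
        h2.trans (pow_le_pow_left₀ (div_nonneg (by linarith) (by linarith)) h4 k)
      have h6 : t ^ R ≤ (1 / 2) ^ k := by
        have e : (S / 2) ^ k = S ^ k * (1 / 2) ^ k := by
          rw [← mul_pow]; congr 1; ring
        rw [e] at h5
        exact le_of_mul_le_mul_left h5 (by positivity)
      have h7 := Real.log_le_log (by positivity) h6
      rw [Real.log_pow, Real.log_pow, ht, Real.log_exp] at h7
      have h9 : Real.log (1 / 2) = -Real.log 2 := by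
        rw [one_div, Real.log_inv]
      rw [h9] at h7
      have h10 : (k : ℝ) * Real.log 2 ≤ R * x := by linarith
      rw [hx] at h10
      have h11 : (k : ℝ) * Real.log 2 * S ≤ R * 8 := by
        have := mul_le_mul_of_nonneg_right h10 hS.le
        have e : (R : ℝ) * (8 / S) * S = R * 8 := by field_simp
        rw [e] at this
        exact this
      linarith
    calc _ ≤ Real.log 2 / 8 * (k * S) := mul_le_mul_of_nonneg_right hle (by positivity)
      _ ≤ R := hgoal
  · have hle : min (Real.log 2 / 8) (1 / (16 * C' * Real.log (1 / t2))) ≤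
        1 / (16 * C' * Real.log (1 / t2)) := min_le_right _ _
    have hgoal : 1 / (16 * C' * Real.log (1 / t2)) * (k * S) ≤ R := by
      have h2 := key t2 ht0 ht1
      have e1 : (1 + t2) / (1 - t2) = a := by
        rw [ht2]
        have : a + 1 ≠ 0 := by linarith
        field_simp
        ring
      rw [e1] at h2
      have h3 : a ^ 2 ≤ S := by
        have : a ^ 2 = Real.exp (1 / C') := by
          rw [ha, ← Real.exp_nat_mul]
          congr 1
          push_cast
          field_simp
        rw [this]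
        calc Real.exp (1 / C') ≤ Real.exp (Real.log S) := Real.exp_le_exp.2 hlogS
          _ = S := Real.exp_log hS
      have ha0 : 0 < a := by linarith
      have h4 : (a ^ 2) ^ k * t2 ^ R ≤ a ^ k := by
        calc (a ^ 2) ^ k * t2 ^ R ≤ S ^ k * t2 ^ R :=
              mul_le_mul_of_nonneg_right (pow_le_pow_left₀ (by positivity) h3 k) (by positivity)
          _ ≤ a ^ k := h2
      have h5 : a ^ k * t2 ^ R ≤ 1 := by
        have e : (a ^ 2) ^ k * t2 ^ R = a ^ k * (a ^ k * t2 ^ R) := by
          rw [← pow_mul, mul_comm 2 k, pow_mul, sq]; ring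
        rw [e] at h4
        have : a ^ k * (a ^ k * t2 ^ R) ≤ a ^ k * 1 := by linarith
        exact le_of_mul_le_mul_left this (by positivity)
      have h6 := Real.log_le_log (by positivity) h5
      rw [Real.log_one, Real.log_mul (by positivity) (by positivity), Real.log_pow, Real.log_pow,
        ha, Real.log_exp] at h6
      have h7 : Real.log (1 / t2) = -Real.log t2 := by rw [one_div, Real.log_inv]
      have h8' : (k : ℝ) * (1 / (2 * C')) ≤ R * Real.log (1 / t2) := by
        rw [h7]; linarith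
      have h9 : S < 8 := not_le.1 h8
      rw [div_mul_eq_mul_div, one_mul, div_le_iff₀ (by positivity)]
      have h10 : (k : ℝ) ≤ R * Real.log (1 / t2) * (2 * C') := by
        have := mul_le_mul_of_nonneg_right h8' (show (0 : ℝ) ≤ 2 * C' by positivity)
        have e : (k : ℝ) * (1 / (2 * C')) * (2 * C') = k := by field_simp
        rw [e] at this
        exact this
      calc (k : ℝ) * S ≤ k * 8 := mul_le_mul_of_nonneg_left h9.le hk0.le
        _ ≤ R * Real.log (1 / t2) * (2 * C') * 8 := mul_le_mul_of_nonneg_right h10 (by norm_num)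
        _ = R * (16 * C' * Real.log (1 / t2)) := by ring
    calc _ ≤ 1 / (16 * C' * Real.log (1 / t2)) * (k * S) :=
          mul_le_mul_of_nonneg_right hle (by positivity)
      _ ≤ R := hgoal

end DiamAb
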