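import Mathlib
import Pool.Agent.Lib_MP_0ccc25_pr.Base
import Pool.Agent.Lib_MP_0ccc25_pr.CayDef

/-!
Piece GRAPH. The extended diameter of the Cayley graph is at most `R` exactly when every point
is the value of a word of length at most `R`.

PROOF.
`ediam_le_iff : G.ediam ≤ k ↔ ∀ u v, G.edist u v ≤ k`.
Claim 1: a walk of length `n` from `x` to `y` gives a word `w` with `nrm w ≤ n` and
`dot w z = y - x` (induction on the walk; a step adds plus or minus a basis vector
`Pi.single i 1`, whose `nrm` is 1 and whose `dot` is `z i`).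
Claim 2: if `nrm w ≤ n` then for every `x`, `edist x (x + dot w z) ≤ n`: induction on `nrm w`.
If `nrm w = 0` then `w = 0`. Otherwise some `w i ≠ 0`; let `e` be plus or minus the basis vector
with the sign of `w i`; `w' = w - e` has `nrm w' + 1 = nrm w`, and
`x + dot w z = (x + dot w' z) ± z i` is equal or adjacent to `x + dot w' z`, so the triangle
inequality `edist_triangle` gives the claim (`edist ≤ 1` for adjacent vertices, `0` for equal
ones).
Both directions follow: `edist u v ≤ R` (with `R : ℕ`) gives a walk of length at most `R`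
(`SimpleGraph.exists_walk_of_edist_ne_top` or similar), so `Reach z R (v - u)`; take `u = 0`.
Conversely apply claim 2 to the word reaching `v - u`.
-/

namespace DiamAb

theorem graph_dot_single {G : Type} [AddCommGroup G] {k : ℕ} (z : Fin k → G) (i : Fin k) (a : ℤ) :
    dot (Pi.single i a : Fin k → ℤ) z = a • z i := by
  classical
  unfold dot
  rw [Finset.sum_eq_single i]
  · simp
  · intro j _ hj
    simp [Pi.single_eq_of_ne hj]
  · intro h
    exact absurd (Finset.mem_univ i) h

theorem graph_nrm_single {k : ℕ} (i : Fin k) (a : ℤ) :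
    nrm (Pi.single i a : Fin k → ℤ) = a.natAbs := by
  classical
  unfold nrm
  rw [Finset.sum_eq_single i]
  · simp
  · intro j _ hj
    simp [Pi.single_eq_of_ne hj]
  · intro h
    exact absurd (Finset.mem_univ i) h

theorem graph_reach_adj {G : Type} [AddCommGroup G] {k : ℕ} (z : Fin k → G) {x y : G}
    (h : (cay z).Adj x y) : Reach z 1 (y - x) := by
  obtain ⟨_, i, h1 | h1⟩ := h
  · refine ⟨Pi.single i 1, ?_, ?_⟩
    · rw [graph_dot_single, h1]; simp
    · rw [graph_nrm_single]; simp
  · refine ⟨Pi.single i (-1), ?_, ?_⟩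
    · rw [graph_dot_single, h1]; simp
    · rw [graph_nrm_single]; simp

theorem graph_reach_walk {G : Type} [AddCommGroup G] {k : ℕ} (z : Fin k → G) {x y : G}
    (p : (cay z).Walk x y) : Reach z p.length (y - x) := by
  induction p with
  | nil => rw [sub_self]; exact Reach.zero z _
  | @cons u v w h p ih =>
    have h1 := (graph_reach_adj z h).add ih
    have h2 : v - u + (w - v) = w - u := by abel
    rw [h2] at h1
    rw [SimpleGraph.Walk.length_cons, add_comm]
    exact h1

theorem graph_edist_step {G : Type} [AddCommGroup G] {k : ℕ} (z : Fin k → G) (x : G) (i : Fin k)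
    (e : ℤ) (he : e = 1 ∨ e = -1) : (cay z).edist x (x + e • z i) ≤ 1 := by
  rw [SimpleGraph.edist_le_one_iff_adj_or_eq]
  by_cases h : x = x + e • z i
  · exact Or.inr h
  · left
    refine ⟨h, i, ?_⟩
    rcases he with rfl | rfl
    · left; simp
    · right; simp [sub_eq_add_neg]

theorem graph_edist_word {G : Type} [AddCommGroup G] {k : ℕ} (z : Fin k → G) (n : ℕ) :
    ∀ (w : Fin k → ℤ), nrm w = n → ∀ x : G, (cay z).edist x (x + dot w z) ≤ (n : ℕ∞) := by
  classical
  induction n with
  | zero =>
    intro w hw x
    have h0 : w = 0 := by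
      funext i
      unfold nrm at hw
      have := (Finset.sum_eq_zero_iff.mp hw) i (Finset.mem_univ i)
      simpa using this
    rw [h0, dot_zero, add_zero, SimpleGraph.edist_self]
    simp
  | succ n ih =>
    intro w hw x
    have hex : ∃ i, w i ≠ 0 := by
      by_contra hc
      push Not at hc
      have : w = 0 := funext hc
      rw [this, nrm_zero] at hw
      omega
    obtain ⟨i, hi⟩ := hex
    obtain ⟨e, he, hne⟩ : ∃ e : ℤ, (e = 1 ∨ e = -1) ∧ (w i - e).natAbs + 1 = (w i).natAbs := by
      rcases lt_or_gt_of_ne hi with h | h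
      · exact ⟨-1, Or.inr rfl, by omega⟩
      · exact ⟨1, Or.inl rfl, by omega⟩
    have hn : nrm (w - Pi.single i e) = n := by
      have h1 : nrm (w - Pi.single i e) + 1 = nrm w := by
        unfold nrm
        rw [← Finset.add_sum_erase _ _ (Finset.mem_univ i),
          ← Finset.add_sum_erase _ (fun j => (w j).natAbs) (Finset.mem_univ i)]
        have h2 : ∑ j ∈ Finset.univ.erase i, ((w - Pi.single i e : Fin k → ℤ) j).natAbs
            = ∑ j ∈ Finset.univ.erase i, (w j).natAbs := by
          apply Finset.sum_congr rfl
          intro j hj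
          have hj' : j ≠ i := Finset.ne_of_mem_erase hj
          simp [Pi.single_eq_of_ne hj']
        rw [h2]
        have h3 : ((w - Pi.single i e : Fin k → ℤ) i) = w i - e := by simp
        rw [h3]
        omega
      omega
    have h4 := ih (w - Pi.single i e) hn x
    have h5 := graph_edist_step z (x + dot (w - Pi.single i e) z) i e he
    have h6 : x + dot (w - Pi.single i e) z + e • z i = x + dot w z := by
      rw [dot_sub, graph_dot_single]; abel
    rw [h6] at h5
    have h7 : (cay z).edist x (x + dot w z)
        ≤ (cay z).edist x (x + dot (w - Pi.single i e) z)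
          + (cay z).edist (x + dot (w - Pi.single i e) z) (x + dot w z) :=
          SimpleGraph.edist_triangle
    generalize (cay z).edist x (x + dot (w - Pi.single i e) z) = A at h4 h7
    generalize (cay z).edist (x + dot (w - Pi.single i e) z) (x + dot w z) = B at h5 h7
    generalize (cay z).edist x (x + dot w z) = C at h7 ⊢
    have h8 : A + B ≤ (n : ℕ∞) + 1 := add_le_add h4 h5
    have h9 : ((n + 1 : ℕ) : ℕ∞) = (n : ℕ∞) + 1 := by push_cast; ring
    rw [h9]
    exact h7.trans h8

theorem ediam_le_iff_cov {G : Type} [AddCommGroup G] {k : ℕ} (z : Fin k → G) (R : ℕ) :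
    (cay z).ediam ≤ (R : ℕ∞) ↔ Cov z R := by
  constructor
  · intro h x
    have h1 : (cay z).edist 0 x ≤ (R : ℕ∞) := SimpleGraph.edist_le_ediam.trans h
    have hne : (cay z).edist 0 x ≠ ⊤ := ne_top_of_le_ne_top (ENat.natCast_ne_top R) h1
    obtain ⟨p, hp⟩ := SimpleGraph.exists_walk_of_edist_ne_top hne
    have h2 := graph_reach_walk z p
    rw [sub_zero] at h2
    refine h2.mono ?_
    rw [← hp] at h1
    exact_mod_cast h1
  · intro h
    rw [SimpleGraph.ediam_le_iff]
    intro u v
    obtain ⟨w, hw1, hw2⟩ := h (v - u)
    have h3 := graph_edist_word z (nrm w) w rfl u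
    rw [hw1, add_sub_cancel] at h3
    exact h3.trans (by exact_mod_cast hw2)

end DiamAb
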