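import Mathlib
import Pool.Agent.Lib_MP_0ccc25_pr.NFact

/-!
Piece HPROP. The law of a random letter of the chosen words of an optimal generating tuple
satisfies all cross entropy bounds.

PROOF. For every `x : G` choose a word `w x` with `dot (w x) z = x` and `nrm (w x) ≤ D`. All
letters lie in `[-D, D]`, contained in `bx (D + 1)`. Put
`μ0 v = #{(x, i) | w x i = v} / (|G| k)`. It is a law on `bx (D + 1)`, and for every
`F : ℤ → ℝ`: `Σ_{v ∈ bx (D + 1)} μ0 v * F v = (1 / (|G| k)) Σ_x Σ_i F (w x i)` (regroup by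
fibres). With `F = |·|` and `nrm_cast` we get `Ab μ0 (D + 1) ≤ D / k`.
Let `IsQ g q` and put `P x = Π_i q (w x i) > 0`. Then
`Σ_v μ0 v (-log (q v)) = (1 / (|G| k)) Σ_x (-log (P x))`.
Put `N = NN G g > 0`. As `log y ≤ y - 1` for `y = N P x`: `-log (P x) ≥ log N + 1 - N P x`.
So the average over `x` of `-log (P x)` is at least `log N + 1 - (N / |G|) Σ_x P x`, and it
suffices to show `Σ_x P x ≤ |G| / N = m`, where `m` is the number of elements of `g G`
(`NN_range`). Group the `x` by the canonical word `b i = (w x i) % g`: by periodicity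
`P x = Π q (b i)`. If `x` and `x'` have the same `b`, then `g` divides `w x i - w x' i` for all
`i`, so `x - x' = dot (w x - w x') z` is a multiple of `g`, i.e. lies in the image of
multiplication by `g`; so at most `m` elements `x` have a given `b` (they lie in one translate of
the image). Let `s` be the finite set of all values `(w x i) % g`; all its elements satisfy
`a % g = a` (`Int.emod_emod_of_dvd`). Hence
`Σ_x P x ≤ m Σ_{b ∈ piFinset s} Π_i q (b i) = m (Σ_{a ∈ s} q a) ^ k ≤ m`.
-/

namespace DiamAb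

open Finset

/-- the elements whose chosen words have prescribed residues modulo `g` -/
theorem hprop_fiber {G : Type} [AddCommGroup G] [Fintype G] [DecidableEq G] {k : ℕ}
    (z : Fin k → G) (w : G → Fin k → ℤ) (hw : ∀ x, dot (w x) z = x) (g : ℕ) (b : Fin k → ℤ) :
    (univ.filter fun x : G => (fun i => w x i % (g : ℤ)) = b).card ≤
      (univ.image fun x : G => g • x).card := by
  classical
  rcases (univ.filter fun x : G => (fun i => w x i % (g : ℤ)) = b).eq_empty_or_nonempty with h | h
  · rw [h, card_empty]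
    exact Nat.zero_le _
  · obtain ⟨x0, hx0⟩ := h
    rw [mem_filter] at hx0
    apply card_le_card_of_injOn (fun x => x - x0)
    · intro x hx
      have hx' : (fun i => w x i % (g : ℤ)) = b := (mem_filter.1 hx).2
      have h1 : ∀ i, ∃ c : ℤ, w x i - w x0 i = (g : ℤ) * c := by
        intro i
        have h2 : w x i % (g : ℤ) = w x0 i % (g : ℤ) := by
          have h3 := congrFun hx' i
          have h4 := congrFun hx0.2 i
          exact h3.trans h4.symm
        exact Int.ModEq.dvd (Int.ModEq.symm h2)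
      choose c hc using h1
      rw [mem_coe, mem_image]
      refine ⟨dot c z, mem_univ _, ?_⟩
      show g • dot c z = x - x0
      conv_rhs => rw [← hw x, ← hw x0, ← dot_sub]
      unfold dot
      rw [smul_sum]
      refine sum_congr rfl fun i _ => ?_
      rw [Pi.sub_apply, hc i, mul_smul, natCast_zsmul]
    · intro x _ y _ hxy
      exact sub_left_injective hxy

theorem hprop_sum {G : Type} [AddCommGroup G] [Fintype G] [DecidableEq G] {k : ℕ}
    (z : Fin k → G) (w : G → Fin k → ℤ) (hw : ∀ x, dot (w x) z = x) (g : ℕ) (q : ℤ → ℝ)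
    (hq : IsQ g q) :
    ∑ x, ∏ i, q (w x i) ≤ ((univ.image fun x : G => g • x).card : ℝ) := by
  classical
  have hs : ∃ s : Finset ℤ, s = (univ : Finset (G × Fin k)).image
      (fun p => w p.1 p.2 % (g : ℤ)) := ⟨_, rfl⟩
  obtain ⟨s, hs⟩ := hs
  have h1 : ∀ x ∈ (univ : Finset G), (fun i => w x i % (g : ℤ)) ∈
      Fintype.piFinset (fun _ : Fin k => s) := by
    intro x _
    rw [Fintype.mem_piFinset]
    intro i
    rw [hs, mem_image]
    exact ⟨(x, i), mem_univ _, rfl⟩
  rw [← sum_fiberwise_of_maps_to h1]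
  have h2 : ∀ b ∈ Fintype.piFinset (fun _ : Fin k => s),
      ∑ x ∈ univ.filter (fun x : G => (fun i => w x i % (g : ℤ)) = b), ∏ i, q (w x i) ≤
        ((univ.image fun x : G => g • x).card : ℝ) * ∏ i, q (b i) := by
    intro b _
    have h3 : ∀ x ∈ univ.filter (fun x : G => (fun i => w x i % (g : ℤ)) = b),
        ∏ i, q (w x i) = ∏ i, q (b i) := by
      intro x hx
      rw [mem_filter] at hx
      refine prod_congr rfl fun i _ => ?_
      rw [← hq.per (w x i)]
      exact congrArg q (congrFun hx.2 i)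
    rw [sum_congr rfl h3, sum_const, nsmul_eq_mul]
    apply mul_le_mul_of_nonneg_right
    · exact_mod_cast hprop_fiber z w hw g b
    · exact prod_nonneg fun i _ => (hq.pos _).le
  refine (sum_le_sum h2).trans ?_
  rw [← mul_sum]
  have h4 : ∑ b ∈ Fintype.piFinset (fun _ : Fin k => s), ∏ i, q (b i) = (∑ a ∈ s, q a) ^ k := by
    rw [← Finset.prod_univ_sum (fun _ : Fin k => s) (fun _ v => q v)]
    simp
  rw [h4]
  have h5 : ∑ a ∈ s, q a ≤ 1 := by
    apply hq.sum
    intro a ha
    rw [hs, mem_image] at ha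
    obtain ⟨p, _, rfl⟩ := ha
    exact Int.emod_emod_of_dvd _ (dvd_refl _)
  have h6 : (∑ a ∈ s, q a) ^ k ≤ 1 :=
    pow_le_one₀ (sum_nonneg fun a _ => (hq.pos a).le) h5
  calc ((univ.image fun x : G => g • x).card : ℝ) * (∑ a ∈ s, q a) ^ k
      ≤ ((univ.image fun x : G => g • x).card : ℝ) * 1 :=
        mul_le_mul_of_nonneg_left h6 (by positivity)
    _ = _ := mul_one _

theorem hprop {G : Type} [AddCommGroup G] [Fintype G] {k : ℕ} (hk : 1 ≤ k) (z : Fin k → G)
    (D : ℕ) (hz : Cov z D) :
    ∃ μ0 : ℤ → ℝ, IsLaw μ0 (D + 1) ∧ Ab μ0 (D + 1) ≤ (D : ℝ) / k ∧ HP μ0 (D + 1) (hh G k) := by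
  classical
  choose w hw hn using hz
  have hk0 : (0 : ℝ) < k := by exact_mod_cast hk
  have hG0 : (0 : ℝ) < Fintype.card G := by exact_mod_cast Fintype.card_pos
  have hbx : ∀ p ∈ (univ : Finset (G × Fin k)), w p.1 p.2 ∈ bx (D + 1) := by
    intro p _
    have h1 : (w p.1 p.2).natAbs ≤ nrm (w p.1) := by
      unfold nrm
      exact single_le_sum (f := fun i => (w p.1 i).natAbs) (fun _ _ => Nat.zero_le _)
        (mem_univ p.2)
    have h2 := hn p.1
    rw [mem_bx]
    push_cast
    omega
  have hμ : ∃ μ0 : ℤ → ℝ, ∀ v, μ0 v =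
      ((univ.filter fun p : G × Fin k => w p.1 p.2 = v).card : ℝ) / (Fintype.card G * k) :=
    ⟨_, fun _ => rfl⟩
  obtain ⟨μ0, hμ⟩ := hμ
  have hF : ∀ F : ℤ → ℝ, ∑ v ∈ bx (D + 1), μ0 v * F v
      = (∑ x : G, ∑ i, F (w x i)) / (Fintype.card G * k) := by
    intro F
    rw [← Fintype.sum_prod_type' (f := fun x i => F (w x i)), ← sum_fiberwise_of_maps_to hbx,
      sum_div]
    refine sum_congr rfl fun v _ => ?_
    have h1 : ∑ p ∈ univ.filter (fun p : G × Fin k => w p.1 p.2 = v), F (w p.1 p.2)
        = ((univ.filter fun p : G × Fin k => w p.1 p.2 = v).card : ℝ) * F v := by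
      rw [sum_congr rfl (g := fun _ => F v) (fun p hp => by rw [(mem_filter.1 hp).2]), sum_const,
        nsmul_eq_mul]
    rw [h1, hμ]
    ring
  refine ⟨μ0, ⟨fun v => ?_, fun v hv => ?_, ?_⟩, ?_, ?_⟩
  · rw [hμ]; positivity
  · rw [hμ, filter_false_of_mem, card_empty]
    · simp
    · intro p hp h
      exact hv (h ▸ hbx p hp)
  · have h1 := hF (fun _ => 1)
    simp only [mul_one, sum_const, card_univ, Fintype.card_fin, nsmul_eq_mul] at h1
    rw [h1]
    have : (Fintype.card G : ℝ) * (k : ℝ) ≠ 0 := by positivity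
    exact div_self this
  · unfold Ab
    rw [hF (fun v => |(v : ℝ)|), div_le_div_iff₀ (by positivity) hk0]
    have h1 : ∑ x : G, ∑ i, |(w x i : ℝ)| ≤ Fintype.card G * (D : ℝ) := by
      have h2 : ∀ x ∈ (univ : Finset G), ∑ i, |(w x i : ℝ)| ≤ (D : ℝ) := by
        intro x _
        rw [← nrm_cast]
        exact_mod_cast hn x
      refine (sum_le_sum h2).trans (le_of_eq ?_)
      rw [sum_const, card_univ, nsmul_eq_mul]
    calc (∑ x : G, ∑ i, |(w x i : ℝ)|) * (k : ℝ) ≤ Fintype.card G * (D : ℝ) * k :=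
          mul_le_mul_of_nonneg_right h1 hk0.le
      _ = (D : ℝ) * (Fintype.card G * k) := by ring
  · intro g q hq
    rw [hF (fun v => -Real.log (q v))]
    unfold hh
    rw [div_le_div_iff₀ hk0 (by positivity)]
    have hN0 : (0 : ℝ) < NN G g := by exact_mod_cast NN_pos G g
    have hP0 : ∀ x, 0 < ∏ i, q (w x i) := fun x => prod_pos fun i _ => hq.pos _
    have h1 : ∀ x ∈ (univ : Finset G), Real.log (NN G g) + 1 - NN G g * ∏ i, q (w x i)
        ≤ ∑ i, -Real.log (q (w x i)) := by
      intro x _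
      have h2 := Real.log_le_sub_one_of_pos (mul_pos hN0 (hP0 x))
      rw [Real.log_mul hN0.ne' (hP0 x).ne', Real.log_prod (fun i _ => (hq.pos _).ne')] at h2
      rw [sum_neg_distrib]
      linarith
    have h3 := sum_le_sum h1
    have h4 : ∑ x : G, (Real.log (NN G g) + 1 - NN G g * ∏ i, q (w x i))
        = Fintype.card G * (Real.log (NN G g) + 1) - NN G g * ∑ x : G, ∏ i, q (w x i) := by
      rw [sum_sub_distrib, sum_const, card_univ, nsmul_eq_mul, ← mul_sum]
    rw [h4] at h3
    have h5 := hprop_sum z w hw g q hq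
    have h6 := NN_range G g
    have h7 : (NN G g : ℝ) * ((univ.image fun x : G => g • x).card : ℝ) = Fintype.card G := by
      exact_mod_cast h6
    have h8 : (NN G g : ℝ) * ∑ x : G, ∏ i, q (w x i) ≤ Fintype.card G := by
      rw [← h7]
      exact mul_le_mul_of_nonneg_left h5 hN0.le
    have h9 : Fintype.card G * Real.log (NN G g) ≤ ∑ x : G, ∑ i, -Real.log (q (w x i)) := by
      linarith
    calc Real.log (NN G g) * (Fintype.card G * k)
        = Fintype.card G * Real.log (NN G g) * k := by ring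
      _ ≤ (∑ x : G, ∑ i, -Real.log (q (w x i))) * k :=
          mul_le_mul_of_nonneg_right h9 hk0.le

end DiamAb
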