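import Mathlib
import Pool.Agent.Lib_MP_0ccc25_pr.RegA
import Pool.Agent.Lib_MP_0ccc25_pr.Law
import Pool.Agent.Lib_MP_0ccc25_pr.Calc
import Pool.Agent.Lib_MP_0ccc25_pr.Eta
import Pool.Agent.Lib_MP_0ccc25_pr.HProp
import Pool.Agent.Lib_MP_0ccc25_pr.DmEx

/-!
Piece MAINA. Main theorem in regime A.

PROOF. Constants: `K, sx` from `calc_const ε C1`; `Cf ≥ 8` with `exp (-Cf (1 / 6) ^ (7 / 4)) / 2 ≤ sx`; `η` from
`eta_ex ε Cf`; `sA = exp (-Cf (1 / (2 η)) ^ (7 / 4)) / 2`, `sB = min (1 / 2) (exp (-Cf (1 / η) ^ (7 / 4)))`,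
`sm = min sA sB`; `Λ = K / sm ^ 2 + 3`, `c = ε (√sm sm) / 24`, `Cb = log (16 Λ ^ 2 / ε ^ 2)`. Apply `regA` with `X = D / k + 4 ε S`,
`D = Dm k G`: `k (X + 6 ε S) = D + 10 ε k S`.
Let `z` be an optimal tuple (`dm_ex`), `μ0` from `hprop`: `Ab μ0 ≤ D / k ≤ C1 S`, `HP μ0 (D + 1) (hh G k)`.
First provider: given `M` with `η S ≤ M ≤ 3 S`, let `s1 = exp (-Cf (S / (2 M)) ^ (7 / 4)) / 2`, `s0 = exp (-Cf (S / M) ^ (7 / 4))`. Since
`1 / 6 ≤ S / (2 M) ≤ 1 / (2 η)`: `sm ≤ sA ≤ s1 ≤ sx`. Since `(S / M) ^ (7 / 4) = 2 ^ (7 / 4) (S / (2 M)) ^ (7 / 4) ≥ (13 / 4) (S / (2 M)) ^ (7 / 4)`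
(`2 ^ 7 ≥ (13 / 4) ^ 4`), `s0 ≤ (2 s1) ^ (13 / 4)`. `law` with `Λ0 = K / s1 ^ 2` (condition `hB` from `calc_const`: sum of the two bounds
`/ 96`), `N = {g | ¬ g ∣ M}`, `hhM`: `log M - s0 ≤ hh M`; `h0`, `hle` from `hh_zero`, `hh_le`. The output law is good with constants at least `c` and
at most `Cb` (`s1 ≥ sm` and `Λ0 + 3 ≤ Λ`), so `Good.mono` applies; `L ≤ (Λ0 + 3) S ≤ Λ S`; `Ab μ ≤ D / k + 4 ε S`.
Second provider: `s1 = sB`, `s0 = 0`, `M = 1` (`hh 1 = 0` since `NN G 1 = 1`), `N = {g | η S ≤ g}` (so `log g - hh g ≥ sB`), `Λ0 = K / sB ^ 2`.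
-/

namespace DiamAb

theorem mainA_rpow : (13 / 4 : ℝ) ≤ 2 ^ (7 / 4 : ℝ) := by
  by_contra h
  push Not at h
  have h1 : ((2 : ℝ) ^ (7 / 4 : ℝ)) ^ 4 = 2 ^ 7 := by
    rw [← Real.rpow_natCast, ← Real.rpow_mul (by norm_num), ← Real.rpow_natCast]
    norm_num
  have h2 : ((2 : ℝ) ^ (7 / 4 : ℝ)) ^ 4 < (13 / 4 : ℝ) ^ 4 :=
    pow_lt_pow_left₀ h (by positivity) (by norm_num)
  rw [h1] at h2
  norm_num at h2

theorem mainA_sqrt_mono {s t : ℝ} (hs : 0 ≤ s) (h : s ≤ t) : √s * s ≤ √t * t :=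
  mul_le_mul (Real.sqrt_le_sqrt h) h hs (Real.sqrt_nonneg t)

theorem mainA_log_mono {K ε s t : ℝ} (hK : 3 ≤ K) (hε : 0 < ε) (hs : 0 < s) (h : s ≤ t) :
    Real.log (16 * (K / t ^ 2 + 3) ^ 2 / ε ^ 2) ≤ Real.log (16 * (K / s ^ 2 + 3) ^ 2 / ε ^ 2) := by
  have ht : 0 < t := lt_of_lt_of_le hs h
  have h1 : K / t ^ 2 ≤ K / s ^ 2 := by
    apply div_le_div_of_nonneg_left (by linarith) (by positivity)
    exact pow_le_pow_left₀ hs.le h 2
  have h0 : 0 < K / t ^ 2 := by positivity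
  apply Real.log_le_log
  · positivity
  · apply div_le_div_of_nonneg_right _ (by positivity)
    have : (K / t ^ 2 + 3) ^ 2 ≤ (K / s ^ 2 + 3) ^ 2 :=
      pow_le_pow_left₀ (by positivity) (by linarith) 2
    linarith

theorem mainA (ε C1 : ℝ) (q : ℕ) (hε : 0 < ε) (hε' : ε ≤ 1 / 4) (hC1 : 1 ≤ C1) (hq : 2 ≤ q) :
    ∀ τ : ℝ, 0 < τ → ∃ (k0 r0 : ℕ) (c' : ℝ), 0 < c' ∧
      ∀ (G : Type) [AddCommGroup G] [Fintype G] (k R' : ℕ) (S : ℝ),
        k0 ≤ k → AddGroup.rank G + r0 ≤ k → S ^ k = Fintype.card G → 1 ≤ S →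
        Real.log S ≤ c' * k → (Dm k G : ℝ) ≤ C1 * (k * S) →
        q * (Dm k G + 10 * ε * (k * S)) ≤ ((q : ℝ) - 1) * R' →
        pr (fun z : Fin k → G => ¬ Cov z R') ≤ τ := by
  obtain ⟨K, sx, hK3, hsx, hsx', hKi, hKii⟩ := calc_const ε C1 hε hε' hC1
  have ha : (0 : ℝ) < (1 / 6 : ℝ) ^ (7 / 4 : ℝ) := by positivity
  obtain ⟨Cf, hCf8, hCfx⟩ : ∃ Cf : ℝ, 8 ≤ Cf ∧
      Real.exp (-Cf * (1 / 6 : ℝ) ^ (7 / 4 : ℝ)) / 2 ≤ sx := by
    refine ⟨max 8 (-Real.log (2 * sx) / (1 / 6 : ℝ) ^ (7 / 4 : ℝ)), le_max_left _ _, ?_⟩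
    have h1 : -Real.log (2 * sx) ≤
        max 8 (-Real.log (2 * sx) / (1 / 6 : ℝ) ^ (7 / 4 : ℝ)) * (1 / 6 : ℝ) ^ (7 / 4 : ℝ) := by
      rw [← div_le_iff₀ ha]
      exact le_max_right _ _
    have h2 : Real.exp (-max 8 (-Real.log (2 * sx) / (1 / 6 : ℝ) ^ (7 / 4 : ℝ)) *
        (1 / 6 : ℝ) ^ (7 / 4 : ℝ)) ≤ 2 * sx := by
      rw [← Real.exp_log (show (0 : ℝ) < 2 * sx by positivity)]
      apply Real.exp_le_exp.mpr
      rw [Real.exp_log (by positivity)]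
      linarith
    linarith
  have hCf0 : 0 < Cf := by linarith
  obtain ⟨η, hη, hηε, hη1, hy⟩ := eta_ex ε Cf hε hCf0
  set sA : ℝ := Real.exp (-Cf * (1 / (2 * η)) ^ (7 / 4 : ℝ)) / 2 with hsA
  set sB : ℝ := min (1 / 2) (Real.exp (-Cf * (1 / η) ^ (7 / 4 : ℝ))) with hsB
  have hsA0 : 0 < sA := by positivity
  have hsB0 : 0 < sB := lt_min (by norm_num) (Real.exp_pos _)
  have hsB1 : sB ≤ 1 / 2 := min_le_left _ _
  set sm : ℝ := min sA sB with hsm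
  have hsm0 : 0 < sm := lt_min hsA0 hsB0
  have hsmA : sm ≤ sA := min_le_left _ _
  have hsmB : sm ≤ sB := min_le_right _ _
  have hK0 : 0 < K := by linarith
  have hΛ0 : 0 < K / sm ^ 2 + 3 := by positivity
  have hc0 : 0 < ε * (√sm * sm) / 24 := by
    have := Real.sqrt_pos.mpr hsm0
    positivity
  have hCb0 : 0 < Real.log (16 * (K / sm ^ 2 + 3) ^ 2 / ε ^ 2) := by
    apply Real.log_pos
    rw [lt_div_iff₀ (by positivity)]
    have h1 : 0 < K / sm ^ 2 := by positivity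
    nlinarith
  intro τ hτ
  obtain ⟨k0, r0, c', hc', HR⟩ := regA ε Cf η (ε * (√sm * sm) / 24)
    (Real.log (16 * (K / sm ^ 2 + 3) ^ 2 / ε ^ 2)) (K / sm ^ 2 + 3) q hε hη hηε hCf8 hc0 hCb0 hΛ0
    hq hy τ hτ
  refine ⟨max k0 1, r0, c', hc', ?_⟩
  intro G _ _ k R' S hk hrk hS hS1 hlog hD hR'
  have hk0 : k0 ≤ k := le_trans (le_max_left _ _) hk
  have hk1 : 1 ≤ k := le_trans (le_max_right _ _) hk
  have hkR : (0 : ℝ) < k := by exact_mod_cast hk1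
  have hS0 : 0 < S := by linarith
  have hrank : AddGroup.rank G ≤ k := by omega
  obtain ⟨z, hz⟩ := dm_ex G k hrank
  obtain ⟨μ0, hμ0, hAb0, hHP⟩ := hprop hk1 z (Dm k G) hz
  have hAbC : Ab μ0 (Dm k G + 1) ≤ C1 * S := by
    refine hAb0.trans ?_
    rw [div_le_iff₀ hkR]
    linarith
  have hh0 := hh_zero G k S hk1 hS0 hS
  have hhle := hh_le G k S hk1 hS0 hS
  refine HR G k R' S ((Dm k G : ℝ) / k + 4 * ε * S) hk0 hrk hS hS1 hlog (by positivity) ?_ ?_ ?_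
  · intro M hM1 hM3 hMη hMa hMb
    have hMR : (0 : ℝ) < M := by exact_mod_cast hM1
    set y : ℝ := S / (2 * M) with hy_def
    have hy0 : 0 < y := by positivity
    have hyη : y ≤ 1 / (2 * η) := by
      rw [hy_def, div_le_div_iff₀ (by positivity) (by positivity)]
      nlinarith
    have hy6 : 1 / 6 ≤ y := by
      rw [hy_def, div_le_div_iff₀ (by norm_num) (by positivity)]
      nlinarith
    set s1 : ℝ := Real.exp (-Cf * y ^ (7 / 4 : ℝ)) / 2 with hs1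
    set s0 : ℝ := Real.exp (-Cf * (S / M) ^ (7 / 4 : ℝ)) with hs0
    have hs10 : 0 < s1 := by positivity
    have hs1A : sA ≤ s1 := by
      apply div_le_div_of_nonneg_right _ (by norm_num)
      apply Real.exp_le_exp.mpr
      have : y ^ (7 / 4 : ℝ) ≤ (1 / (2 * η)) ^ (7 / 4 : ℝ) :=
        Real.rpow_le_rpow hy0.le hyη (by norm_num)
      nlinarith
    have hs1x : s1 ≤ sx := by
      refine le_trans ?_ hCfx
      apply div_le_div_of_nonneg_right _ (by norm_num)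
      apply Real.exp_le_exp.mpr
      have : (1 / 6 : ℝ) ^ (7 / 4 : ℝ) ≤ y ^ (7 / 4 : ℝ) :=
        Real.rpow_le_rpow (by norm_num) hy6 (by norm_num)
      nlinarith
    have hs1h : s1 ≤ 1 / 2 := hs1x.trans hsx'
    have hs0le : s0 ≤ (2 * s1) ^ (13 / 4 : ℝ) := by
      have e1 : 2 * s1 = Real.exp (-Cf * y ^ (7 / 4 : ℝ)) := by rw [hs1]; ring
      rw [e1, ← Real.exp_mul]
      apply Real.exp_le_exp.mpr
      have e2 : S / M = 2 * y := by rw [hy_def]; field_simp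
      rw [e2, Real.mul_rpow (by norm_num) hy0.le]
      have h1 := mainA_rpow
      have h2 : 0 < y ^ (7 / 4 : ℝ) := by positivity
      nlinarith [mul_le_mul_of_nonneg_right h1 (mul_pos hCf0 h2).le]
    have hKi1 := hKi s1 hs10 hs1h
    have hKii1 := hKii s1 s0 hs10 hs1x (Real.exp_pos _).le hs0le
    obtain ⟨L, μ, hL1, hLS, hGood, hAb⟩ := law ε C1 s1 s0 (K / s1 ^ 2) S hε hε' hC1 hs10 hs1h
      (Real.exp_pos _).le hKi1.1 (by
        rw [add_mul]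
        linarith [hKi1.2]) hS1 (hh G k) M hM1 hM3 {g | ¬ g ∣ M} hh0 hhle (by
        intro g hg hg1
        have := hMa g hg1 hg
        linarith) (by linarith) μ0 (Dm k G + 1) hμ0 hHP hAbC
    refine ⟨L, μ, hL1, ?_, ?_, ?_⟩
    · refine hLS.trans ?_
      apply mul_le_mul_of_nonneg_right _ hS0.le
      have : K / s1 ^ 2 ≤ K / sm ^ 2 := by
        apply div_le_div_of_nonneg_left hK0.le (by positivity)
        exact pow_le_pow_left₀ hsm0.le (hsmA.trans hs1A) 2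
      linarith
    · refine hGood.mono ?_ ?_
      · apply div_le_div_of_nonneg_right _ (by norm_num)
        exact mul_le_mul_of_nonneg_left (mainA_sqrt_mono hsm0.le (hsmA.trans hs1A)) hε.le
      · exact mainA_log_mono hK3 hε hsm0 (hsmA.trans hs1A)
    · linarith
  · intro hg2
    have hKi1 := hKi sB hsB0 hsB1
    have hh1 : hh G k 1 = 0 := by
      unfold hh
      rw [NN_one]
      simp
    obtain ⟨L, μ, hL1, hLS, hGood, hAb⟩ := law ε C1 sB 0 (K / sB ^ 2) S hε hε' hC1 hsB0 hsB1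
      le_rfl hKi1.1 (by
        rw [Real.sqrt_zero, mul_zero, add_zero]
        have h0 : 0 ≤ ε * (√sB * sB) / 96 := by positivity
        linarith [hKi1.2]) hS1 (hh G k) 1 le_rfl (by push_cast; linarith)
        {g : ℕ | η * S ≤ (g : ℝ)} hh0 hhle (by
        intro g hg hg1
        have h1 := hg2 g hg
        have h2 : sB ≤ Real.exp (-Cf * (1 / η) ^ (7 / 4 : ℝ)) := min_le_right _ _
        linarith) (by rw [hh1]; simp) μ0 (Dm k G + 1) hμ0 hHP hAbC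
    refine ⟨L, μ, hL1, ?_, ?_, ?_⟩
    · refine hLS.trans ?_
      apply mul_le_mul_of_nonneg_right _ hS0.le
      have : K / sB ^ 2 ≤ K / sm ^ 2 := by
        apply div_le_div_of_nonneg_left hK0.le (by positivity)
        exact pow_le_pow_left₀ hsm0.le hsmB 2
      linarith
    · refine hGood.mono ?_ ?_
      · apply div_le_div_of_nonneg_right _ (by norm_num)
        exact mul_le_mul_of_nonneg_left (mainA_sqrt_mono hsm0.le hsmB) hε.le
      · exact mainA_log_mono hK3 hε hsm0 hsmB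
    · linarith
  · have e1 : (k : ℝ) * ((Dm k G : ℝ) / k + 4 * ε * S + 6 * ε * S) =
        Dm k G + 10 * ε * (k * S) := by
      field_simp
      ring
    rw [e1]
    exact hR'

end DiamAb
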