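import Mathlib
import Pool.Agent.Lib_MP_0ccc25_pr.RegB
import Pool.Agent.Lib_MP_0ccc25_pr.TypGood
import Pool.Agent.Lib_MP_0ccc25_pr.Law
import Pool.Agent.Lib_MP_0ccc25_pr.Calc
import Pool.Agent.Lib_MP_0ccc25_pr.HProp
import Pool.Agent.Lib_MP_0ccc25_pr.Crit
import Pool.Agent.Lib_MP_0ccc25_pr.DmEx

/-!
Piece MAINB. Main theorem in regime B.

PROOF of `mainB`. Constants: `K` from `calc_const ε C1`, `s1 = 1 / 2`, `Λ0 = K / s1 ^ 2`, `Λ = Λ0 + 3`, `c = ε (√s1 s1) / 24`, `Cb = log (16 (Λ0 + 3) ^ 2 / ε ^ 2)`. Apply `regB` with `c / 2`, `ε`, this `Λ`, `c'`, `τ`, `q`.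
Let `z` be optimal (`dm_ex`, `rank ≤ k`), `μ0` from `hprop`, `Ab μ0 ≤ D / k ≤ C1 S`. `law` with `M = 1`, `N = ∅`, `s0 = 0`, `h = hh G k` (`hhM`: `log 1 - 0 = 0 ≤ hh 1`, which is a
logarithm of a positive integer over `k`) gives `L, μ`, `Ab μ ≤ D / k + 4 ε S`.
`T` = words of `wd k L` with `Typ (hh G k) ∅ c μ L k (k (Ab + ε S))`, `p = pw μ` (nonnegative everywhere). `typ_good` with `j = 0`, `k' = k` (`hm = log S`, `N = ∅`): but the union in `typ_good` is over all `g ≤ 2 L`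
in its bound `(2 L + 1) exp (...)`, which is useless here since `L` may be exponentially large; so use `chern` directly twice as in the proof of `typ_good`: only `g = 0` occurs
(`g ∈ ∅` is impossible), and the untypical mass is at most `exp (-(c / 4) ^ 2 k / (4 Cb ^ 2)) + exp (-ε ^ 2 k / (4 Λ ^ 2)) ≤ 1 / 4` for large `k`.
For `w ∈ T`: by `Typ` with `g = 0` (`0 ≤ 2 L`): `pw μ w = Π rs μ L 0 (w i) ≤ exp (-(k hh 0 + c k / 2)) = exp (-(c / 2) k) / |G|` (`rs_zero`). `|w i| ≤ L ≤ Λ S`, `nrm w ≤ R1 := ⌊k (Ab + ε S)⌋₊ ≤ D + 5 ε k S`, and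
`q (R1 + ε k S) ≤ q (D + 10 ε k S) ≤ (q - 1) R'`.
-/

namespace DiamAb

open Finset

theorem mainB_ev (A δ : ℝ) (hδ : 0 < δ) : ∃ k1 : ℕ, ∀ k : ℕ, k1 ≤ k →
    A * Real.exp (-(δ * k)) ≤ 1 := by
  have h1 : Filter.Tendsto (fun k : ℕ => A * Real.exp (-(δ * k))) Filter.atTop
      (nhds (A * 0)) := by
    apply Filter.Tendsto.const_mul
    apply Real.tendsto_exp_neg_atTop_nhds_zero.comp
    exact Filter.Tendsto.const_mul_atTop hδ tendsto_natCast_atTop_atTop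
  rw [mul_zero] at h1
  have h2 := h1.eventually (Iic_mem_nhds (show (0 : ℝ) < 1 by norm_num))
  obtain ⟨k1, hk1⟩ := Filter.eventually_atTop.mp h2
  exact ⟨k1, fun k hk => hk1 k hk⟩

theorem mainB_union {α : Type} [DecidableEq α] (A B : Finset α) (f : α → ℝ) (hf : ∀ a, 0 ≤ f a) :
    ∑ a ∈ A ∪ B, f a ≤ ∑ a ∈ A, f a + ∑ a ∈ B, f a := by
  rw [← sum_union_inter]
  have : 0 ≤ ∑ a ∈ A ∩ B, f a := sum_nonneg fun a _ => hf a
  linarith

open Classical in
/-- the typical mass, only for `g = 0` -/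
theorem mainB_typ (h : ℕ → ℝ) (M : ℕ) (N : Set ℕ) (c Cb : ℝ) (μ : ℤ → ℝ) (L : ℕ)
    (hG : Good h M N c Cb μ L) (hc : 0 < c) (hCb : 0 < Cb) (hL : 1 ≤ L) (S ε Λ : ℝ)
    (hS : 0 < S) (hLS : (L : ℝ) ≤ Λ * S) (hε : 0 < ε) (k : ℕ) :
    ∑ w ∈ (wd k L).filter (fun w => ¬ ((nrm w : ℝ) ≤ k * (Ab μ L + ε * S) ∧
        pw μ w ≤ Real.exp (-(k * h 0 + c * k / 2)))), pw μ w ≤
      Real.exp (-((c / 4) ^ 2 * k / (4 * Cb ^ 2))) + Real.exp (-(ε ^ 2 * k / (4 * Λ ^ 2))) := by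
  have hLR : (1 : ℝ) ≤ L := by exact_mod_cast hL
  have hLR0 : (0 : ℝ) < L := by linarith
  have hΛ : 0 < Λ := by
    by_contra hcon
    push Not at hcon
    nlinarith
  obtain ⟨a, ha⟩ := hG.rng 0 (Or.inl rfl) (by omega)
  have h1 := chern μ L hG.law (fun v => -Real.log (rs μ L 0 v)) a Cb (c / 4) hCb (by positivity)
    ha k
  have h2 := chern μ L hG.law (fun v => -|(v : ℝ)|) (-L) L (ε * S) hLR0 (by positivity) (by
    intro v hv
    rw [mem_bx] at hv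
    have h3 : |(v : ℝ)| ≤ L := by
      rw [abs_le]
      constructor
      · have : ((-(L : ℤ) : ℤ) : ℝ) ≤ (v : ℤ) := by exact_mod_cast hv.1
        push_cast at this
        linarith
      · have : (v : ℝ) < (L : ℤ) := by exact_mod_cast hv.2
        push_cast at this
        linarith
    constructor
    · linarith
    · have := abs_nonneg (v : ℝ)
      linarith) k
  have hent := hG.ent 0 (Or.inl rfl) (by omega)
  have hsub : (wd k L).filter (fun w => ¬ ((nrm w : ℝ) ≤ k * (Ab μ L + ε * S) ∧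
        pw μ w ≤ Real.exp (-(k * h 0 + c * k / 2)))) ⊆
      (wd k L).filter (fun w => ∑ i, -Real.log (rs μ L 0 (w i)) ≤
        k * ((∑ v ∈ bx L, μ v * -Real.log (rs μ L 0 v)) - c / 4)) ∪
      (wd k L).filter (fun w => ∑ i, -|((w i : ℤ) : ℝ)| ≤
        k * ((∑ v ∈ bx L, μ v * -|(v : ℝ)|) - ε * S)) := by
    intro w hw
    rw [mem_filter] at hw
    rw [mem_union, mem_filter, mem_filter]
    obtain ⟨hw1, hw2⟩ := hw
    rw [not_and_or] at hw2
    rcases hw2 with hw2 | hw2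
    · right
      refine ⟨hw1, ?_⟩
      push Not at hw2
      rw [sum_neg_distrib, ← nrm_cast]
      have e1 : ∑ v ∈ bx L, μ v * -|(v : ℝ)| = -Ab μ L := by
        unfold Ab
        rw [← sum_neg_distrib]
        exact sum_congr rfl fun v _ => by ring
      rw [e1]
      nlinarith
    · left
      refine ⟨hw1, ?_⟩
      push Not at hw2
      have hwb := mem_wd.mp hw1
      have hpos : ∀ i, 0 < μ (w i) := fun i => hG.posi _ (hwb i)
      have e1 : ∑ i, -Real.log (rs μ L 0 (w i)) = -Real.log (pw μ w) := by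
        unfold pw
        rw [Real.log_prod (fun i _ => (hpos i).ne'), ← sum_neg_distrib]
        exact sum_congr rfl fun i _ => by rw [rs_zero (hwb i)]
      rw [e1]
      have h3 : -(k * h 0 + c * k / 2) < Real.log (pw μ w) := by
        have hpw : 0 < pw μ w := prod_pos fun i _ => hpos i
        rw [Real.lt_log_iff_exp_lt hpw]
        exact hw2
      have h4 : (k : ℝ) * (h 0 + c) ≤ k * Hg μ L 0 :=
        mul_le_mul_of_nonneg_left hent (by positivity)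
      have h5 : (∑ v ∈ bx L, μ v * -Real.log (rs μ L 0 v)) = Hg μ L 0 := rfl
      rw [h5]
      have hk0 : (0 : ℝ) ≤ k := by positivity
      nlinarith
  have hmono : ∑ w ∈ (wd k L).filter (fun w => ¬ ((nrm w : ℝ) ≤ k * (Ab μ L + ε * S) ∧
        pw μ w ≤ Real.exp (-(k * h 0 + c * k / 2)))), pw μ w ≤
      Real.exp (-((c / 4) ^ 2 * k / (4 * Cb ^ 2))) +
        Real.exp (-((ε * S) ^ 2 * k / (4 * (L : ℝ) ^ 2))) := by
    refine (sum_le_sum_of_subset_of_nonneg hsub fun w _ _ => pw_nonneg hG.law.nonneg w).trans ?_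
    exact (mainB_union _ _ _ fun w => pw_nonneg hG.law.nonneg w).trans (add_le_add h1 h2)
  refine hmono.trans ?_
  refine add_le_add le_rfl ?_
  apply Real.exp_le_exp.mpr
  apply neg_le_neg
  have h6 : (L : ℝ) ^ 2 ≤ (Λ * S) ^ 2 := pow_le_pow_left₀ hLR0.le hLS 2
  rw [div_le_div_iff₀ (by positivity) (by positivity)]
  have hk0 : (0 : ℝ) ≤ k := by positivity
  have h7 : ε ^ 2 * k * (4 * (L : ℝ) ^ 2) ≤ ε ^ 2 * k * (4 * (Λ * S) ^ 2) := by
    apply mul_le_mul_of_nonneg_left _ (by positivity)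
    linarith
  nlinarith

theorem mainB (ε C1 c' : ℝ) (q : ℕ) (hε : 0 < ε) (hε' : ε ≤ 1 / 4) (hC1 : 1 ≤ C1)
    (hc' : 0 < c') (hq : 2 ≤ q) :
    ∀ τ : ℝ, 0 < τ → ∃ k0 r0 : ℕ,
      ∀ (G : Type) [AddCommGroup G] [Fintype G] (k R' : ℕ) (S : ℝ),
        k0 ≤ k → AddGroup.rank G + r0 ≤ k → S ^ k = Fintype.card G → 1 ≤ S →
        c' * k ≤ Real.log S → (Dm k G : ℝ) ≤ C1 * (k * S) →
        q * (Dm k G + 10 * ε * (k * S)) ≤ ((q : ℝ) - 1) * R' →
        pr (fun z : Fin k → G => ¬ Cov z R') ≤ τ := by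
  classical
  obtain ⟨K, sx, hK3, hsx, hsx', hKi, hKii⟩ := calc_const ε C1 hε hε' hC1
  have hK0 : 0 < K := by linarith
  have hKi1 := hKi (1 / 2) (by norm_num) le_rfl
  set Λ0 : ℝ := K / (1 / 2) ^ 2 with hΛ0
  have hΛ0pos : 0 < Λ0 := by positivity
  set c : ℝ := ε * (√(1 / 2) * (1 / 2)) / 24 with hc
  have hsq : 0 < √(1 / 2 : ℝ) := Real.sqrt_pos.mpr (by norm_num)
  have hc0 : 0 < c := by positivity
  set Cb : ℝ := Real.log (16 * (Λ0 + 3) ^ 2 / ε ^ 2) with hCb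
  have hCb0 : 0 < Cb := by
    apply Real.log_pos
    rw [lt_div_iff₀ (by positivity)]
    nlinarith
  set a1 : ℝ := (c / 4) ^ 2 / (4 * Cb ^ 2) with ha1
  set a2 : ℝ := ε ^ 2 / (4 * (Λ0 + 3) ^ 2) with ha2
  have ha10 : 0 < a1 := by positivity
  have ha20 : 0 < a2 := by positivity
  intro τ hτ
  obtain ⟨kB, rB, HB⟩ := regB (c / 2) ε (Λ0 + 3) c' τ q (by positivity) hε (by linarith)
    (by linarith) hc' hτ hq
  obtain ⟨k1, hk1⟩ := mainB_ev 8 a1 ha10
  obtain ⟨k2, hk2⟩ := mainB_ev 8 a2 ha20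
  refine ⟨max kB (max k1 (max k2 1)), rB, ?_⟩
  intro G _ _ k R' S hk hrk hS hS1 hlog hD hR'
  simp only [max_le_iff] at hk
  obtain ⟨hkB, hkk1, hkk2, hkone⟩ := hk
  have hkR : (0 : ℝ) < k := by exact_mod_cast hkone
  have hS0 : 0 < S := by linarith
  have hrank : AddGroup.rank G ≤ k := by omega
  obtain ⟨z, hz⟩ := dm_ex G k hrank
  obtain ⟨μ0, hμ0, hAb0, hHP⟩ := hprop hkone z (Dm k G) hz
  have hAbC : Ab μ0 (Dm k G + 1) ≤ C1 * S := by
    refine hAb0.trans ?_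
    rw [div_le_iff₀ hkR]
    linarith
  have hh0 := hh_zero G k S hkone hS0 hS
  have hhle := hh_le G k S hkone hS0 hS
  have hh1 : hh G k 1 = 0 := by
    unfold hh
    rw [NN_one]
    simp
  obtain ⟨L, μ, hL1, hLS, hGood, hAb⟩ := law ε C1 (1 / 2) 0 Λ0 S hε hε' hC1 (by norm_num) le_rfl
    le_rfl hKi1.1 (by
      rw [Real.sqrt_zero, mul_zero, add_zero]
      have h0 : 0 ≤ ε * (√(1 / 2) * (1 / 2)) / 96 := by positivity
      linarith [hKi1.2]) hS1 (hh G k) 1 le_rfl (by push_cast; linarith) ∅ hh0 hhle (by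
      intro g hg
      exact absurd hg (Set.notMem_empty g)) (by rw [hh1]; simp) μ0 (Dm k G + 1) hμ0 hHP hAbC
  have hAbμ : Ab μ L ≤ (Dm k G : ℝ) / k + 4 * ε * S := by linarith
  set T : Finset (Fin k → ℤ) := (wd k L).filter (fun w =>
    (nrm w : ℝ) ≤ k * (Ab μ L + ε * S) ∧ pw μ w ≤ Real.exp (-(k * hh G k 0 + c * k / 2))) with hT
  have htyp := mainB_typ (hh G k) 1 ∅ c Cb μ L hGood hc0 hCb0 hL1 S ε (Λ0 + 3) hS0 hLS hε k
  have hsplit := sum_filter_add_sum_filter_not (wd k L) (fun w =>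
    (nrm w : ℝ) ≤ k * (Ab μ L + ε * S) ∧ pw μ w ≤ Real.exp (-(k * hh G k 0 + c * k / 2))) (pw μ)
  rw [sum_pw_one hGood.law k] at hsplit
  have hunt : Real.exp (-((c / 4) ^ 2 * k / (4 * Cb ^ 2))) +
      Real.exp (-(ε ^ 2 * k / (4 * (Λ0 + 3) ^ 2))) ≤ 1 / 4 := by
    have e1 : (c / 4) ^ 2 * (k : ℝ) / (4 * Cb ^ 2) = a1 * k := by rw [ha1]; ring
    have e2 : ε ^ 2 * (k : ℝ) / (4 * (Λ0 + 3) ^ 2) = a2 * k := by rw [ha2]; ring
    rw [e1, e2]
    have := hk1 k hkk1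
    have := hk2 k hkk2
    linarith
  have hnn : 0 ≤ ∑ w ∈ (wd k L).filter (fun w => ¬ ((nrm w : ℝ) ≤ k * (Ab μ L + ε * S) ∧
        pw μ w ≤ Real.exp (-(k * hh G k 0 + c * k / 2)))), pw μ w :=
    sum_nonneg fun w _ => pw_nonneg hGood.law.nonneg w
  have hAb00 : 0 ≤ Ab μ L := sum_nonneg fun v _ =>
    mul_nonneg (hGood.law.nonneg v) (abs_nonneg _)
  have hfl : ((⌊(k : ℝ) * (Ab μ L + ε * S)⌋₊ : ℕ) : ℝ) ≤ k * (Ab μ L + ε * S) :=
    Nat.floor_le (by positivity)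
  refine HB G k ⌊(k : ℝ) * (Ab μ L + ε * S)⌋₊ R' S T (pw μ) hkB hrk hS hS1 hlog ?_
    (pw_nonneg hGood.law.nonneg) ?_ ?_ ?_ ?_ ?_
  · intro w hw i
    rw [hT, mem_filter] at hw
    have hv := mem_bx.mp (mem_wd.mp hw.1 i)
    refine le_trans ?_ hLS
    rw [abs_le]
    constructor
    · have : ((-(L : ℤ) : ℤ) : ℝ) ≤ (w i : ℤ) := by exact_mod_cast hv.1
      push_cast at this
      linarith
    · have : ((w i : ℤ) : ℝ) < (L : ℤ) := by exact_mod_cast hv.2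
      push_cast at this
      linarith
  · intro w hw
    rw [hT, mem_filter] at hw
    refine hw.2.2.trans (le_of_eq ?_)
    have h1 : (k : ℝ) * hh G k 0 = Real.log (Fintype.card G) := by
      rw [hh0, ← hS, Real.log_pow]
    have hcard : (0 : ℝ) < Fintype.card G := by exact_mod_cast Fintype.card_pos
    rw [h1, neg_add, Real.exp_add, Real.exp_neg (Real.log _), Real.exp_log hcard]
    rw [show -(c / 2) * (k : ℝ) = -(c * k / 2) by ring]
    field_simp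
  · linarith
  · linarith
  · intro w hw
    rw [hT, mem_filter] at hw
    exact Nat.le_floor hw.2.1
  · refine le_trans ?_ hR'
    apply mul_le_mul_of_nonneg_left _ (by positivity)
    have h1 : (k : ℝ) * (Ab μ L + ε * S) ≤ Dm k G + 5 * ε * (k * S) := by
      calc (k : ℝ) * (Ab μ L + ε * S) ≤ k * ((Dm k G : ℝ) / k + 4 * ε * S + ε * S) := by
            apply mul_le_mul_of_nonneg_left _ hkR.le
            linarith
        _ = Dm k G + 5 * ε * (k * S) := by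
            field_simp
            ring
    have h2 : 0 ≤ ε * (k * S) := by positivity
    linarith

end DiamAb
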