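import Mathlib
import Pool.Agent.Lib_MP_0ccc25_pr.AprioriA
import Pool.Agent.Lib_MP_0ccc25_pr.MainA
import Pool.Agent.Lib_MP_0ccc25_pr.MainB
import Pool.Agent.Lib_MP_0ccc25_pr.AprioriB
import Pool.Agent.Lib_MP_0ccc25_pr.DLow
import Pool.Agent.Lib_MP_0ccc25_pr.DmEx

/-!
Piece MAINFIN. The finite form of the main theorem.

PROOF. We may assume `ε' ≤ 1` (for larger `ε'` the radius is larger, `Cov.mono`). Let `c0` be from `cov_lower C'`. Choose `q ≥ 2` with `1 / (q - 1) ≤ ε' / 4`,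
and `ε ∈ (0, 1 / 4]` with `10 ε / c0 ≤ ε' / 4`. `aprioriA` gives `C1A, c'1`; `aprioriB c'1` gives `C1B`; `C1 = max`. `mainA ε C1 q τ` gives `c'2`; `mainB ε C1 c'2 q τ`.
Let `k0`, `r0` be larger than all the thresholds, `k0 ≥ 1`. Given `G`, `k`: `S = |G| ^ (1 / k)` (real power), `S ^ k = |G|`, `S ≥ 1`. A priori (according to
`log S ≤ c'1 k` or not): `D ≤ C1 k S`. The optimal tuple (`dm_ex`) and `cov_lower`: `c0 k S ≤ D`. Then (according to `log S ≤ c'2 k` or not) apply `mainA` or `mainB` with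
`R' = ⌈q (D + 10 ε k S) / (q - 1)⌉₊`... better: with any natural `R'` such that `(q - 1) R' ≥ q (D + 10 ε k S)` and `R' ≤ (1 + ε') D`:
`q / (q - 1) ≤ 1 + ε' / 4`, `D + 10 ε k S ≤ D (1 + ε' / 4)`, so `q (D + 10 ε k S) / (q - 1) ≤ (1 + ε' / 4) ^ 2 D ≤ (1 + 3 ε' / 4) D`, and
`⌈(1 + 3 ε' / 4) D⌉₊ ≤ (1 + 3 ε' / 4) D + 1 ≤ (1 + ε') D` as soon as `D ≥ 4 / ε'`, which holds for large `k` because `D ≥ c0 k S ≥ c0 k`.
So `R' ≤ ⌊(1 + ε') D⌋₊` and `Cov.mono`, `pr_mono` conclude.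
-/

namespace DiamAb

theorem main_fin (C' ε' τ : ℝ) (hC : 0 < C') (hε : 0 < ε') (hτ : 0 < τ) :
    ∃ k0 r0 : ℕ, ∀ (G : Type) [AddCommGroup G] [Fintype G] (k : ℕ),
      k0 ≤ k → AddGroup.rank G + r0 ≤ k → (k : ℝ) ≤ C' * Real.log (Fintype.card G) →
      pr (fun z : Fin k → G => ¬ Cov z ⌊(1 + ε') * (Dm k G : ℝ)⌋₊) ≤ τ := by
  obtain ⟨c0, hc0, hlow⟩ := cov_lower C' hC
  set e : ℝ := min ε' 1 with he
  have he0 : 0 < e := lt_min hε one_pos
  have he1 : e ≤ 1 := min_le_right _ _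
  have hee : e ≤ ε' := min_le_left _ _
  obtain ⟨q0, hq0⟩ := exists_nat_gt (4 / e + 2)
  have hq2 : (2 : ℝ) ≤ q0 := by
    have : 0 < 4 / e := by positivity
    linarith
  have hq2' : 2 ≤ q0 := by exact_mod_cast hq2
  set ε : ℝ := min (1 / 4) (e * c0 / 40) with hεd
  have hε0 : 0 < ε := lt_min (by norm_num) (by positivity)
  have hε1 : ε ≤ 1 / 4 := min_le_left _ _
  have hε2 : 10 * ε ≤ c0 * (e / 4) := by
    have : ε ≤ e * c0 / 40 := min_le_right _ _
    linarith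
  obtain ⟨CA, kA, rA, cA, hCA, hcA, HA⟩ := aprioriA
  obtain ⟨CB, kB, rB, hCB, HB⟩ := aprioriB cA hcA
  set C1 : ℝ := max CA CB with hC1
  have hC11 : 1 ≤ C1 := hCA.trans (le_max_left _ _)
  obtain ⟨kM, rM, cM, hcM, HM⟩ := mainA ε C1 q0 hε0 hε1 hC11 hq2' τ hτ
  obtain ⟨kN, rN, HN⟩ := mainB ε C1 cM q0 hε0 hε1 hC11 hcM hq2' τ hτ
  obtain ⟨kz, hkz⟩ := exists_nat_gt (4 / (e * c0))
  refine ⟨kA + kB + kM + kN + kz + 1, rA + rB + rM + rN, ?_⟩
  intro G _ _ k hk hr hkC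
  have hk1 : 1 ≤ k := by omega
  have hk1R : (1 : ℝ) ≤ k := by exact_mod_cast hk1
  have hcard : 1 ≤ Fintype.card G := Fintype.card_pos
  have hcardR : (1 : ℝ) ≤ Fintype.card G := by exact_mod_cast hcard
  obtain ⟨S, hS1, hSk⟩ : ∃ S : ℝ, 1 ≤ S ∧ S ^ k = Fintype.card G := by
    refine ⟨(Fintype.card G : ℝ) ^ ((k : ℝ)⁻¹), ?_, ?_⟩
    · exact Real.one_le_rpow hcardR (by positivity)
    · rw [Real.rpow_inv_natCast_pow (by positivity) (by omega)]
  have hD : (Dm k G : ℝ) ≤ C1 * (k * S) := by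
    have hkS : 0 ≤ (k : ℝ) * S := by positivity
    rcases le_total (Real.log S) (cA * k) with h | h
    · exact (HA G k S (by omega) (by omega) hSk hS1 h).trans
        (mul_le_mul_of_nonneg_right (le_max_left _ _) hkS)
    · exact (HB G k S (by omega) (by omega) hSk hS1 h).trans
        (mul_le_mul_of_nonneg_right (le_max_right _ _) hkS)
  obtain ⟨z0, hz0⟩ := dm_ex G k (by omega)
  have hDl : c0 * (k * S) ≤ (Dm k G : ℝ) :=
    hlow G k (Dm k G) S z0 hk1 (by linarith) hSk hkC hz0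
  generalize hDD : (Dm k G : ℝ) = D at *
  have hD4 : 4 ≤ e * D := by
    have h1 : (kz : ℝ) ≤ k := by
      have : kz ≤ k := by omega
      exact_mod_cast this
    have h2 : 4 / (e * c0) < k := lt_of_lt_of_le hkz h1
    rw [div_lt_iff₀ (by positivity)] at h2
    have h3 : (k : ℝ) * 1 ≤ k * S := mul_le_mul_of_nonneg_left hS1 (by positivity)
    have h4 : c0 * (k * 1) ≤ c0 * (k * S) := mul_le_mul_of_nonneg_left h3 hc0.le
    have h5 : e * (c0 * (k * 1)) ≤ e * D := mul_le_mul_of_nonneg_left (h4.trans hDl) he0.le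
    have h6 : e * (c0 * (k * 1)) = k * (e * c0) := by ring
    linarith
  have hD0 : 0 ≤ D := le_trans (by positivity) hDl
  have hfl : (1 + 3 * e / 4) * D ≤ (⌊(1 + ε') * D⌋₊ : ℝ) := by
    have h1 : (1 + ε') * D < (⌊(1 + ε') * D⌋₊ : ℝ) + 1 := Nat.lt_floor_add_one _
    have h2 : e * D ≤ ε' * D := mul_le_mul_of_nonneg_right hee hD0
    have h3 : (1 + 3 * e / 4) * D = D + 3 / 4 * (e * D) := by ring
    have h4 : (1 + ε') * D = D + ε' * D := by ring
    linarith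
  have hR : (q0 : ℝ) * (D + 10 * ε * (k * S)) ≤ ((q0 : ℝ) - 1) * (⌊(1 + ε') * D⌋₊ : ℝ) := by
    have h1 : 10 * ε * (k * S) ≤ e / 4 * D := by
      have h2 : 10 * ε * (k * S) ≤ c0 * (e / 4) * (k * S) :=
        mul_le_mul_of_nonneg_right hε2 (by positivity)
      have h3 : e / 4 * (c0 * (k * S)) ≤ e / 4 * D :=
        mul_le_mul_of_nonneg_left hDl (by positivity)
      have h4 : c0 * (e / 4) * (k * S) = e / 4 * (c0 * (k * S)) := by ring
      linarith
    have h2 : (q0 : ℝ) ≤ (1 + e / 4) * ((q0 : ℝ) - 1) := by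
      have h3 : 4 / e + 2 < q0 := hq0
      have h4 : 4 < e * ((q0 : ℝ) - 2) := by
        have h5 : 4 / e < (q0 : ℝ) - 2 := by linarith
        rw [div_lt_iff₀ he0] at h5
        linarith
      have h6 : (1 + e / 4) * ((q0 : ℝ) - 1) = q0 - 1 + (e * ((q0 : ℝ) - 2)) / 4 + e / 4 := by ring
      linarith
    have h3 : (q0 : ℝ) * (D + 10 * ε * (k * S)) ≤
        ((1 + e / 4) * ((q0 : ℝ) - 1)) * ((1 + e / 4) * D) := by
      apply mul_le_mul h2 _ (by positivity) (mul_nonneg (by linarith) (by linarith))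
      have h7 : (1 + e / 4) * D = D + e / 4 * D := by ring
      linarith
    have h4 : (1 + e / 4) * ((1 + e / 4) * D) ≤ (1 + 3 * e / 4) * D := by
      have h6 : e * e ≤ e := mul_le_of_le_one_left he0.le he1
      have h7 : e * e * D ≤ e * D := mul_le_mul_of_nonneg_right h6 hD0
      have h8 : (1 + e / 4) * ((1 + e / 4) * D) = D + e * D / 2 + e * e * D / 16 := by ring
      have h9 : (1 + 3 * e / 4) * D = D + e * D / 2 + e * D / 4 := by ring
      linarith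
    have h5 : ((q0 : ℝ) - 1) * ((1 + e / 4) * ((1 + e / 4) * D)) ≤
        ((q0 : ℝ) - 1) * (⌊(1 + ε') * D⌋₊ : ℝ) :=
      mul_le_mul_of_nonneg_left (h4.trans hfl) (by linarith)
    linarith
  rcases le_total (Real.log S) (cM * k) with h | h
  · have := HM G k ⌊(1 + ε') * D⌋₊ S (by omega) (by omega) hSk hS1 h
    rw [hDD] at this
    exact this hD hR
  · have := HN G k ⌊(1 + ε') * D⌋₊ S (by omega) (by omega) hSk hS1 h
    rw [hDD] at this
    exact this hD hR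

end DiamAb
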