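import Mathlib
import Pool.Agent.Lib_MP_0ccc25_pr.MainFin
import Pool.Agent.Lib_MP_0ccc25_pr.Base
import Pool.Agent.Lib_MP_0ccc25_pr.DmEx
import Pool.Agent.Lib_MP_0ccc25_pr.Graph

/-!
Piece SEQ. The sequence form: the diameter divided by the smallest possible diameter tends to
one in probability.

PROOF. Let `D n = Dm (k n) (G n)`. `ediam_le_iff_cov`: `(cay z).ediam ≤ R ↔ Cov z R`. For every `z`: if
`ediam ≠ ⊤` then `Cov z (ediam.toNat)`, so `D n ≤ ediam.toNat` (`dm_le`). Fix `ε > 0` and let `τ > 0`. `main_fin` (with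
`C' = max C 1`, `ε' = ε`) gives `k0, r0`; for large `n`, `k n ≥ k0`, `rank + r0 ≤ k n` and the bound on `k` hold. Outside an event of probability at most `τ`,
`Cov z ⌊(1 + ε) D⌋₊`, so `ediam ≤ ⌊(1 + ε) D⌋₊ < ⊤` and `D ≤ ediam.toNat ≤ (1 + ε) D`. `D > 0` for large `n`: `|G n| ≥ 2` (tends to infinity), and
`Cov z 0` would make `G` trivial. So `|ediam.toNat / D - 1| ≤ ε`. Hence the probability is at most `τ` for all large `n`; it is nonnegative. As `τ` is arbitrary the limit is `0`.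
For the identification `D n = sInf` over graphs: `Dm (k n) (G n) = (⨅ z, (cay z).ediam).toNat`: the infimum over `z` of `ediam` is attained and equals `Dm` when
finite (`rank ≤ k n`, which holds for large `n`); the theorem states the limit along `atTop`, so only large `n` matter: prove the equality for those `n` and use
`Filter.Tendsto.congr'`.
-/

namespace DiamAb

open Filter

theorem seq_cov_toNat {G : Type} [AddCommGroup G] {k : ℕ} (z : Fin k → G)
    (h : (cay z).ediam ≠ ⊤) : Cov z (cay z).ediam.toNat := by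
  rw [← ediam_le_iff_cov, ENat.natCast_toNat h]

theorem dm_eq_iInf (G : Type) [AddCommGroup G] [Fintype G] (k : ℕ) (hk : AddGroup.rank G ≤ k) :
    (⨅ z : Fin k → G, (cay z).ediam) = (Dm k G : ℕ∞) := by
  apply le_antisymm
  · obtain ⟨z, hz⟩ := dm_ex G k hk
    exact iInf_le_of_le z ((ediam_le_iff_cov z _).mpr hz)
  · apply le_iInf
    intro z
    by_cases h : (cay z).ediam = ⊤
    · rw [h]
      exact le_top
    · rw [← ENat.natCast_toNat h]
      exact_mod_cast dm_le z (seq_cov_toNat z h)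

theorem seq_pos (G : Type) [AddCommGroup G] [Fintype G] (k : ℕ) (hk : AddGroup.rank G ≤ k)
    (hG : 2 ≤ Fintype.card G) : 1 ≤ Dm k G := by
  by_contra hc
  have h0 : Dm k G = 0 := by omega
  obtain ⟨z, hz⟩ := dm_ex G k hk
  rw [h0] at hz
  have h1 : ∀ x : G, x = 0 := by
    intro x
    obtain ⟨w, h1, h2⟩ := hz x
    have h3 : w = 0 := by
      funext i
      have h4 : nrm w = 0 := by omega
      unfold nrm at h4
      rw [Finset.sum_eq_zero_iff] at h4
      have := h4 i (Finset.mem_univ i)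
      simpa using this
    rw [← h1, h3, dot_zero]
  have h2 : Fintype.card G ≤ 1 := by
    rw [Fintype.card_le_one_iff]
    intro a b
    rw [h1 a, h1 b]
  omega

theorem seq_form (G : ℕ → Type) [∀ n, AddCommGroup (G n)] [∀ n, Fintype (G n)] (k : ℕ → ℕ)
    (hG : Tendsto (fun n => Fintype.card (G n)) atTop atTop) (hk : Tendsto k atTop atTop)
    (hC : ∃ C : ℝ, ∀ᶠ n in atTop, (k n : ℝ) ≤ C * Real.log (Fintype.card (G n)))
    (hr : Tendsto (fun n => (k n : ℤ) - AddGroup.rank (G n)) atTop atTop) (ε : ℝ) (hε : 0 < ε) :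
    Tendsto (fun n => pr (fun z : Fin (k n) → G n => ¬ ((cay z).ediam ≠ ⊤ ∧
      |((cay z).ediam.toNat : ℝ) /
        ((⨅ z' : Fin (k n) → G n, (cay z').ediam).toNat : ℝ) - 1| ≤ ε))) atTop (nhds 0) := by
  obtain ⟨C, hC⟩ := hC
  rw [tendsto_order]
  refine ⟨fun a ha => Filter.Eventually.of_forall fun n => lt_of_lt_of_le ha (pr_nonneg _), ?_⟩
  intro τ hτ
  obtain ⟨k0, r0, H⟩ := main_fin (max C 1) ε (τ / 2) (lt_of_lt_of_le one_pos (le_max_right _ _))
    hε (by positivity)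
  filter_upwards [hC, hk.eventually_ge_atTop k0, hr.eventually_ge_atTop (r0 : ℤ),
    hG.eventually_ge_atTop 2] with n h1 h2 h3 h4
  have h5 : AddGroup.rank (G n) + r0 ≤ k n := by omega
  have h6 : AddGroup.rank (G n) ≤ k n := by omega
  have hlog : 0 ≤ Real.log (Fintype.card (G n)) := by
    apply Real.log_nonneg
    have : 1 ≤ Fintype.card (G n) := by omega
    exact_mod_cast this
  have h7 : (k n : ℝ) ≤ max C 1 * Real.log (Fintype.card (G n)) :=
    h1.trans (mul_le_mul_of_nonneg_right (le_max_left _ _) hlog)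
  have h8 := H (G n) (k n) h2 h5 h7
  refine lt_of_le_of_lt ((pr_mono ?_).trans h8) (by linarith)
  intro z hz hcov
  apply hz
  have hle : (cay z).ediam ≤ ((⌊(1 + ε) * (Dm (k n) (G n) : ℝ)⌋₊ : ℕ) : ℕ∞) :=
    (ediam_le_iff_cov z _).mpr hcov
  have hne : (cay z).ediam ≠ ⊤ := ne_top_of_le_ne_top (ENat.natCast_ne_top _) hle
  refine ⟨hne, ?_⟩
  rw [dm_eq_iInf (G n) (k n) h6, ENat.toNat_natCast]
  have hD1 : 1 ≤ Dm (k n) (G n) := seq_pos (G n) (k n) h6 h4
  have hDR : (1 : ℝ) ≤ (Dm (k n) (G n) : ℝ) := by exact_mod_cast hD1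
  have hlow : Dm (k n) (G n) ≤ (cay z).ediam.toNat := dm_le z (seq_cov_toNat z hne)
  have hlowR : (Dm (k n) (G n) : ℝ) ≤ ((cay z).ediam.toNat : ℝ) := by exact_mod_cast hlow
  have hup : (cay z).ediam.toNat ≤ ⌊(1 + ε) * (Dm (k n) (G n) : ℝ)⌋₊ := by
    rw [← ENat.natCast_toNat hne] at hle
    exact_mod_cast hle
  have hupR : ((cay z).ediam.toNat : ℝ) ≤ (1 + ε) * (Dm (k n) (G n) : ℝ) := by
    have h9 : ((⌊(1 + ε) * (Dm (k n) (G n) : ℝ)⌋₊ : ℕ) : ℝ) ≤ (1 + ε) * (Dm (k n) (G n) : ℝ) :=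
      Nat.floor_le (by positivity)
    have h10 : ((cay z).ediam.toNat : ℝ) ≤ ((⌊(1 + ε) * (Dm (k n) (G n) : ℝ)⌋₊ : ℕ) : ℝ) := by
      exact_mod_cast hup
    exact h10.trans h9
  have hD0 : (0 : ℝ) < (Dm (k n) (G n) : ℝ) := by linarith
  rw [abs_le]
  constructor
  · have : 1 ≤ ((cay z).ediam.toNat : ℝ) / (Dm (k n) (G n) : ℝ) := by
      rw [le_div_iff₀ hD0]
      linarith
    linarith
  · have : ((cay z).ediam.toNat : ℝ) / (Dm (k n) (G n) : ℝ) ≤ 1 + ε := by
      rw [div_le_iff₀ hD0]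
      linarith
    linarith

end DiamAb
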